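import Mathlib
import Pool.Agent.H56.SMC.Basic
import Pool.Agent.H56.SMC.CfgDefs

/-! Strong monodromy for nondegenerate polynomials, part A1: this file joins the modules KD, TF, RK, RA, SL, CORE. -/

set_option autoImplicit false

section S_KD

/-!
# KD: Koszul exactness of the operators from Koszul exactness of the symbols

Proof.  Induction on `N ≥ C - 1`: the claim for `z` with `dt δ u ≤ N` on the supports (`dt δ u ≥ C` on `S`; every `z` has
finite support; for `N < C` `z = 0`).  Let `t_j` be the part of `z_j` with `dt δ u = N`.  `D_j = dg(..) - g_j`, `dg` preserves the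
degree `dt δ`, `g_j` raises it by `1` (`hδ`).  The part of `∑ D_j z_j = 0` of degree `N+1` is `-∑ g_j t_j = 0`.  `hK` gives
`t_j = ∑_k g_k y_jk`; replace `y_jk` by its part of degree `N-1` (still antisymmetric, supported in `S`, same equation).  Then
`z'_j = z_j + ∑_k D_k y_jk` is supported in `S` in degrees `≤ N-1` and `∑_j D_j z'_j = 0` (`Dop_antisymm`, `lp_eq_neg_self`), so
`z'_j = ∑_k D_k y'_jk` and `z_j = ∑_k D_k (y'_jk - y_jk)`.
-/

set_option autoImplicit false

namespace Pool.Agent.H56.SMC

open Finset AddMonoidAlgebra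

/-- KD -/
theorem kd {d : ℕ} {ι : Type} [Fintype ι] (a : ι → Lat d) (c : ι → ℂ) (p : Fin d → ℂ)
    (S : Set (Lat d)) (δ : Lat d) (hδ : ∀ i, dt δ (a i) = 1) (C : ℤ) (hSδ : ∀ u ∈ S, C ≤ dt δ u)
    (hS : ∀ u ∈ S, ∀ i, u + a i ∈ S) (hK : KExact a c S)
    (z : Fin d → LP ℂ d) (hz : ∀ j, Supp S (z j)) (h0 : ∑ j, Dop p a c (ev j) (z j) = 0) :
    ∃ y : Fin d → Fin d → LP ℂ d, (∀ j k, Supp S (y j k)) ∧ (∀ j k, y j k = -y k j) ∧
      ∀ j, z j = ∑ k, Dop p a c (ev k) (y j k) := by
  classical
  have key : ∀ (n : ℕ) (z : Fin d → LP ℂ d), (∀ j, Supp {u | u ∈ S ∧ dt δ u < C + n} (z j)) →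
      ∑ j, Dop p a c (ev j) (z j) = 0 →
      ∃ y : Fin d → Fin d → LP ℂ d, (∀ j k, Supp S (y j k)) ∧ (∀ j k, y j k = -y k j) ∧
        ∀ j, z j = ∑ k, Dop p a c (ev k) (y j k) := by
    intro n
    induction n with
    | zero =>
      intro z hz _
      have hz0 : ∀ j, z j = 0 := by
        intro j
        apply lp_ext
        intro u
        by_contra hu
        obtain ⟨h1, h2⟩ := hz j u hu
        have := hSδ u h1
        push_cast at h2
        omega
      refine ⟨fun _ _ => 0, fun _ _ => Supp.zero S, fun _ _ => neg_zero.symm, fun j => ?_⟩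
      rw [hz0 j]
      simp [Dop_zero]
    | succ n ih =>
      intro z hz h0
      set N : ℤ := C + n with hN
      let t : Fin d → LP ℂ d := fun j => dg (fun u => if dt δ u = N then (1 : ℂ) else 0) (z j)
      have ht : ∀ j u, (t j).coeff u = (if dt δ u = N then (1 : ℂ) else 0) * (z j).coeff u :=
        fun j u => dg_coeff _ _ _
      have htS : ∀ j, Supp S (t j) := fun j => ((hz j).mono fun u hu => hu.1).dg _
      have htop : ∀ j u, dt δ u = N + 1 → (z j).coeff u = 0 := by
        intro j u hu
        by_contra h1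
        have := (hz j u h1).2
        rw [hN] at hu
        push_cast at this
        omega
      have hgt : ∑ j, gs a c (ev j) * t j = 0 := by
        apply lp_ext
        intro u
        rw [coeff_finsum, coeff_zero']
        by_cases hu : dt δ u = N + 1
        · have h1 : (∑ j, Dop p a c (ev j) (z j)).coeff u = 0 := by rw [h0]; rfl
          rw [coeff_finsum] at h1
          have h2 : ∀ j, (Dop p a c (ev j) (z j)).coeff u = -(gs a c (ev j) * t j).coeff u := by
            intro j
            rw [Dop_coeff, htop j u hu, mul_zero, zero_sub, gs_mul_coeff]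
            congr 1
            refine Finset.sum_congr rfl fun i _ => ?_
            have h3 : dt δ (u - a i) = N := by rw [dt_sub, hδ, hu]; ring
            rw [ht, if_pos h3, one_mul]
          simp only [h2, Finset.sum_neg_distrib, neg_eq_zero] at h1
          exact h1
        · refine Finset.sum_eq_zero fun j _ => ?_
          rw [gs_mul_coeff]
          refine Finset.sum_eq_zero fun i _ => ?_
          have h3 : dt δ (u - a i) ≠ N := by rw [dt_sub, hδ]; omega
          rw [ht, if_neg h3, zero_mul, mul_zero]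
      obtain ⟨y0, hy0S, hy0a, hy0⟩ := hK t htS hgt
      let y : Fin d → Fin d → LP ℂ d :=
        fun j k => dg (fun u => if dt δ u = N - 1 then (1 : ℂ) else 0) (y0 j k)
      have hy : ∀ j k u, (y j k).coeff u =
          (if dt δ u = N - 1 then (1 : ℂ) else 0) * (y0 j k).coeff u := fun j k u => dg_coeff _ _ _
      have hyS : ∀ j k, Supp S (y j k) := fun j k => (hy0S j k).dg _
      have hya : ∀ j k, y j k = -y k j := by
        intro j k
        apply lp_ext
        intro u
        rw [coeff_neg', hy, hy, hy0a j k, coeff_neg', mul_neg]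
      have hyt : ∀ j, t j = ∑ k, gs a c (ev k) * y j k := by
        intro j
        apply lp_ext
        intro u
        rw [coeff_finsum]
        by_cases hu : dt δ u = N
        · have h1 : (t j).coeff u = (∑ k, gs a c (ev k) * y0 j k).coeff u := by rw [← hy0 j]
          rw [h1, coeff_finsum]
          refine Finset.sum_congr rfl fun k _ => ?_
          rw [gs_mul_coeff, gs_mul_coeff]
          refine Finset.sum_congr rfl fun i _ => ?_
          have h3 : dt δ (u - a i) = N - 1 := by rw [dt_sub, hδ, hu]
          rw [hy, if_pos h3, one_mul]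
        · rw [ht, if_neg hu, zero_mul]
          symm
          refine Finset.sum_eq_zero fun k _ => ?_
          rw [gs_mul_coeff]
          refine Finset.sum_eq_zero fun i _ => ?_
          have h3 : dt δ (u - a i) ≠ N - 1 := by rw [dt_sub, hδ]; omega
          rw [hy, if_neg h3, zero_mul, mul_zero]
      obtain ⟨y', hy'S, hy'a, hy'⟩ := ih (fun j => z j + ∑ k, Dop p a c (ev k) (y j k)) (by
        intro j
        have e1 : z j + ∑ k, Dop p a c (ev k) (y j k) = (z j - t j) +
            ∑ k, dg (fun u => pv p (ev k) + (dt (ev k) u : ℂ)) (y j k) := by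
          have e2 : ∀ k, Dop p a c (ev k) (y j k) =
              dg (fun u => pv p (ev k) + (dt (ev k) u : ℂ)) (y j k) - gs a c (ev k) * y j k :=
            fun k => rfl
          simp only [e2, Finset.sum_sub_distrib]
          rw [← hyt j]
          abel
        rw [e1]
        refine Supp.add ?_ (Supp.sum _ fun k _ => Supp.dg _ ?_)
        · intro u hu
          rw [coeff_sub', ht] at hu
          have h1 : (z j).coeff u ≠ 0 := by
            intro h; apply hu; rw [h, mul_zero, sub_zero]
          obtain ⟨h2, h3⟩ := hz j u h1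
          refine ⟨h2, ?_⟩
          by_contra h4
          have h5 : dt δ u = N := by
            rw [hN] at h4 ⊢
            push_cast at h3
            omega
          apply hu
          rw [if_pos h5, one_mul, sub_self]
        · intro u hu
          refine ⟨hyS j k u hu, ?_⟩
          rw [hy] at hu
          have h1 : dt δ u = N - 1 := by
            by_contra h
            apply hu
            rw [if_neg h, zero_mul]
          omega) (by
        simp only [Dop_add, Finset.sum_add_distrib]
        rw [h0, zero_add]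
        exact Dop_antisymm p a c lp_eq_neg_self y hya)
      refine ⟨fun j k => y' j k - y j k, fun j k => (hy'S j k).sub (hyS j k), fun j k => ?_,
        fun j => ?_⟩
      · change y' j k - y j k = -(y' k j - y k j)
        rw [hy'a j k, hya j k]
        abel
      · simp only [Dop_sub, Finset.sum_sub_distrib]
        rw [← hy' j]
        abel
  refine key (∑ j, ∑ u ∈ (z j).coeff.support, (dt δ u - C + 1).toNat) z (fun j u hu => ?_) h0
  refine ⟨hz j u hu, ?_⟩
  have h1 : (dt δ u - C + 1).toNat ≤
      ∑ j, ∑ u ∈ (z j).coeff.support, (dt δ u - C + 1).toNat := by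
    refine le_trans ?_ (Finset.single_le_sum (f := fun j => ∑ u ∈ (z j).coeff.support,
      (dt δ u - C + 1).toNat) (fun _ _ => Nat.zero_le _) (Finset.mem_univ j))
    exact Finset.single_le_sum (f := fun u => (dt δ u - C + 1).toNat)
      (fun _ _ => Nat.zero_le _) (Finsupp.mem_support_iff.2 hu)
  omega

end Pool.Agent.H56.SMC

end S_KD

section S_TF

/-!
# TF: `H_0` has no `ε`-torsion (`ε = PowerSeries.X`)

Proof.  `X • x = ∑ D_j z_j`.  Reduce modulo `X` (`lmap PowerSeries.constantCoeff`, `lmap_Dop`): `∑ D̄_j z̄_j = 0`, so by `kd`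
`z̄_j = ∑_k D̄_k ȳ_jk`.  Lift `y_jk = lmap PowerSeries.C ȳ_jk` (antisymmetric, supported in `S`).  All coefficients of
`w_j = z_j - ∑_k D_k y_jk` have constant coefficient `0`, so `w_j = X • z'_j` with `z'_j` supported in `S` (divide every coefficient by
`X`, e.g. `PowerSeries.mk fun n => coeff (n+1)`).  `X • x = ∑ D_j w_j` (by `Dop_antisymm`) `= X • ∑ D_j z'_j`, and `X` is a
non-zero-divisor, so `x = ∑ D_j z'_j`.
-/

set_option autoImplicit false

namespace Pool.Agent.H56.SMC

open Finset AddMonoidAlgebra

/-- division of a power series by `X` (constant coefficient dropped) -/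
noncomputable def tfq (φ : PA) : PA := PowerSeries.mk fun n => PowerSeries.coeff (n + 1) φ

theorem tfq_zero : tfq 0 = 0 := by
  ext n
  simp [tfq]

theorem tf_X_mul_tfq {φ : PA} (h : PowerSeries.constantCoeff φ = 0) :
    (PowerSeries.X : PA) * tfq φ = φ := by
  have := PowerSeries.eq_X_mul_shift_add_const φ
  rw [h, map_zero, add_zero] at this
  exact this.symm

theorem tf_lmap_neg {R R' : Type} [CommRing R] [CommRing R'] {d : ℕ} (f : R →+* R') (x : LP R d) :
    lmap f (-x) = -lmap f x := by
  apply lp_ext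
  intro u
  simp only [lmap_coeff, coeff_neg', map_neg]

/-- TF -/
theorem tf {d : ℕ} {ι : Type} [Fintype ι] (a : ι → Lat d) (c : ι → ℂ) (p : Fin d → PA)
    (S : Set (Lat d)) (δ : Lat d) (hδ : ∀ i, dt δ (a i) = 1) (C : ℤ) (hSδ : ∀ u ∈ S, C ≤ dt δ u)
    (hS : ∀ u ∈ S, ∀ i, u + a i ∈ S) (hK : KExact a c S) (x : LP PA d)
    (h : Ex p a (fun i => PowerSeries.C (c i)) S ((PowerSeries.X : PA) • x)) :
    Ex p a (fun i => PowerSeries.C (c i)) S x := by
  classical
  obtain ⟨z, hz, hx⟩ := h
  obtain ⟨cc, hcc⟩ : ∃ cc : ι → PA, cc = fun i => PowerSeries.C (c i) := ⟨_, rfl⟩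
  rw [← hcc] at hx ⊢
  obtain ⟨f, hf⟩ : ∃ f : PA →+* ℂ, f = PowerSeries.constantCoeff := ⟨_, rfl⟩
  have hfc : (fun i => f (cc i)) = c := by
    funext i
    rw [hf, hcc]
    exact PowerSeries.constantCoeff_C _
  have h0 : ∑ j, Dop (fun j => f (p j)) a c (ev j) (lmap f (z j)) = 0 := by
    have h1 := congrArg (lmap f) hx
    rw [lmap_smul, lmap_sum] at h1
    simp only [lmap_Dop, hfc] at h1
    rw [← h1, hf, PowerSeries.constantCoeff_X, zero_smul]
  obtain ⟨yb, hybS, hyba, hyb⟩ := kd a c (fun j => f (p j)) S δ hδ C hSδ hS hK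
    (fun j => lmap f (z j)) (fun j => (hz j).lmap f) h0
  let y : Fin d → Fin d → LP PA d := fun j k => lmap PowerSeries.C (yb j k)
  have hyS : ∀ j k, Supp S (y j k) := fun j k => (hybS j k).lmap _
  have hya : ∀ j k, y j k = -y k j := by
    intro j k
    change lmap PowerSeries.C (yb j k) = -lmap PowerSeries.C (yb k j)
    rw [hyba j k, tf_lmap_neg]
  have hfy : ∀ j k, lmap f (y j k) = yb j k := by
    intro j k
    apply lp_ext
    intro u
    rw [lmap_coeff]
    change f (PowerSeries.C ((yb j k).coeff u)) = _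
    rw [hf]
    exact PowerSeries.constantCoeff_C _
  let w : Fin d → LP PA d := fun j => z j - ∑ k, Dop p a cc (ev k) (y j k)
  have hwS : ∀ j, Supp S (w j) := fun j =>
    (hz j).sub (Supp.sum _ fun k _ => (hyS j k).Dop p a cc _ (fun u hu i _ => hS u hu i))
  have hw0 : ∀ j u, PowerSeries.constantCoeff ((w j).coeff u) = 0 := by
    intro j u
    have h1 : lmap f (w j) = 0 := by
      change lmap f (z j - ∑ k, Dop p a cc (ev k) (y j k)) = 0
      rw [lmap_sub, lmap_sum]
      simp only [lmap_Dop, hfc, hfy]
      rw [← hyb j, sub_self]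
    have h2 : (lmap f (w j)).coeff u = 0 := by rw [h1]; rfl
    rw [lmap_coeff, hf] at h2
    exact h2
  let z' : Fin d → LP PA d := fun j => ofCoeff ((w j).coeff.mapRange tfq tfq_zero)
  have hz'c : ∀ j u, (z' j).coeff u = tfq ((w j).coeff u) := fun j u => rfl
  have hz'S : ∀ j, Supp S (z' j) := by
    intro j u hu
    apply hwS j u
    intro h1
    apply hu
    rw [hz'c, h1, tfq_zero]
  have hwz : ∀ j, w j = (PowerSeries.X : PA) • z' j := by
    intro j
    apply lp_ext
    intro u
    rw [coeff_smul', hz'c, tf_X_mul_tfq (hw0 j u)]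
  refine ⟨z', hz'S, ?_⟩
  have h1 : (PowerSeries.X : PA) • x = (PowerSeries.X : PA) • ∑ j, Dop p a cc (ev j) (z' j) := by
    rw [hx, Finset.smul_sum]
    have h2 : ∑ j, Dop p a cc (ev j) (z j) = ∑ j, Dop p a cc (ev j) (w j) := by
      have h3 : ∀ j, Dop p a cc (ev j) (z j) =
          Dop p a cc (ev j) (w j) + Dop p a cc (ev j) (∑ k, Dop p a cc (ev k) (y j k)) := by
        intro j
        rw [← Dop_add]
        congr 1
        change z j = z j - ∑ k, Dop p a cc (ev k) (y j k) + ∑ k, Dop p a cc (ev k) (y j k)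
        rw [sub_add_cancel]
      rw [Finset.sum_congr rfl fun j _ => h3 j, Finset.sum_add_distrib,
        Dop_antisymm p a cc lp_eq_neg_self y hya, add_zero]
    rw [h2]
    refine Finset.sum_congr rfl fun j _ => ?_
    rw [hwz j, Dop_smul]
  apply lp_ext
  intro u
  have h2 : ((PowerSeries.X : PA) • x).coeff u =
      ((PowerSeries.X : PA) • ∑ j, Dop p a cc (ev j) (z' j)).coeff u := by rw [h1]
  rw [coeff_smul', coeff_smul'] at h2
  exact mul_left_cancel₀ PowerSeries.X_ne_zero h2

end Pool.Agent.H56.SMC

end S_TF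

section S_RK

/-!
# RK: raising of the levels over a field without resonance

Proof.  `x = ∑ D_j z_j`.  One functional after the other (induction on a finset `V` of functionals: all `z_j` supported in
`{l v ≤ dt (h v) u for v ∈ V}`), and for the new `v` downward induction on the lowest level: let `dt (h v) u ≥ m` on all supports with
`m < l v`, let `t_j` be the part of `z_j` at level `m` exactly, `ρ = (pv p (h v) + m)⁻¹` (`hnr`), and
  `z'_j = z_j - ρ • (Dop (h v) t_j - ∑_k (h v j) • D_k t_k)`.
(i) `∑_j D_j z'_j = ∑_j D_j z_j`: by `Dop_comm` and `Dop_left` both `∑_j D_j Dop (h v) t_j` and `∑_j (h v j) • D_j (∑_k D_k t_k)` equal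
`Dop (h v) (∑_k D_k t_k)`.
(ii) levels of `z'_j` with respect to `v` are `≥ m+1`: the operators do not lower levels (`hh`), `Dop (h v)` acts on level `m` as the scalar
`pv p (h v) + m` plus terms of higher level (in `gs a c (h v)` a term with `dt (h v) (a i) = 0` has coefficient `0`), and the part of
`∑_k D_k t_k` of level `m` is the part of `x = ∑_k D_k z_k` of level `m`, which vanishes (`x` is supported in levels `≥ l v`).
(iii) the levels of the other functionals of `V` stay `≥ l`.
-/

set_option autoImplicit false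

namespace Pool.Agent.H56.SMC

open Finset AddMonoidAlgebra

/-- RK -/
theorem rk {K : Type} [Field K] {d : ℕ} {ι κ : Type} [Fintype ι] [Fintype κ] (a : ι → Lat d)
    (c : ι → K) (p : Fin d → K) (h : κ → Lat d) (hh : ∀ v i, 0 ≤ dt (h v) (a i)) (l : κ → ℤ)
    (hnr : ∀ v, ∀ m : ℤ, m < l v → pv p (h v) + (m : K) ≠ 0)
    (x : LP K d) (hx : Supp (Sc h l) x) (hex : Ex p a c Set.univ x) : Ex p a c (Sc h l) x := by
  classical
  have step : ∀ (V : Finset κ) (w : κ) (n : ℕ) (z : Fin d → LP K d),
      (∀ j, Supp {u | (∀ v ∈ V, l v ≤ dt (h v) u) ∧ l w - n ≤ dt (h w) u} (z j)) →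
      x = ∑ j, Dop p a c (ev j) (z j) →
      ∃ z' : Fin d → LP K d,
        (∀ j, Supp {u | (∀ v ∈ V, l v ≤ dt (h v) u) ∧ l w ≤ dt (h w) u} (z' j)) ∧
        x = ∑ j, Dop p a c (ev j) (z' j) := by
    intro V w n
    induction n with
    | zero =>
      intro z hz hxz
      refine ⟨z, fun j => (hz j).mono ?_, hxz⟩
      rintro u ⟨h1, h2⟩
      exact ⟨h1, by simpa using h2⟩
    | succ n ih =>
      intro z hz hxz
      set m : ℤ := l w - (n + 1 : ℕ) with hm
      have hml : m < l w := by rw [hm]; push_cast; omega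
      have hρ := hnr w m hml
      set S : Set (Lat d) := {u | (∀ v ∈ V, l v ≤ dt (h v) u) ∧ m ≤ dt (h w) u} with hS
      set S' : Set (Lat d) := {u | (∀ v ∈ V, l v ≤ dt (h v) u) ∧ m + 1 ≤ dt (h w) u} with hS'
      have hcl : ∀ u ∈ S, ∀ i, c i ≠ 0 → u + a i ∈ S := by
        rintro u ⟨h1, h2⟩ i -
        refine ⟨fun v hv => ?_, ?_⟩
        · rw [dt_add]; have := h1 v hv; have := hh v i; omega
        · rw [dt_add]; have := hh w i; omega
      have hcl' : ∀ u ∈ S', ∀ i, c i ≠ 0 → u + a i ∈ S' := by
        rintro u ⟨h1, h2⟩ i -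
        refine ⟨fun v hv => ?_, ?_⟩
        · rw [dt_add]; have := h1 v hv; have := hh v i; omega
        · rw [dt_add]; have := hh w i; omega
      -- the part of level exactly `m`
      let t : Fin d → LP K d := fun j => dg (fun u => if dt (h w) u = m then (1 : K) else 0) (z j)
      have ht : ∀ j u, (t j).coeff u = (if dt (h w) u = m then (1 : K) else 0) * (z j).coeff u :=
        fun j u => dg_coeff _ _ _
      have htS : ∀ j, Supp S (t j) := fun j => (hz j).dg _
      have hzt : ∀ j, Supp S' (z j - t j) := by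
        intro j u hu
        rw [coeff_sub', ht] at hu
        have h1 : (z j).coeff u ≠ 0 := by
          intro h0; apply hu; rw [h0, mul_zero, sub_zero]
        obtain ⟨h2, h3⟩ := hz j u h1
        refine ⟨h2, ?_⟩
        by_contra h4
        have h5 : dt (h w) u = m := by omega
        apply hu
        rw [if_pos h5, one_mul, sub_self]
      let Y : LP K d := ∑ k, Dop p a c (ev k) (t k)
      have hY0 : ∀ u, dt (h w) u = m → Y.coeff u = 0 := by
        intro u hu
        have h1 : Supp S' (x - Y) := by
          have : x - Y = ∑ k, Dop p a c (ev k) (z k - t k) := by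
            rw [hxz]
            simp only [Dop_sub, sum_sub_distrib, Y]
          rw [this]
          exact Supp.sum _ fun k _ => (hzt k).Dop p a c (ev k) hcl'
        have h2 : (x - Y).coeff u = 0 := by
          by_contra h3
          have := (h1 u h3).2
          omega
        have h3 : x.coeff u = 0 := by
          by_contra h4
          have := hx u h4 w
          omega
        rw [coeff_sub', h3, zero_sub, neg_eq_zero] at h2
        exact h2
      have hYS : Supp S Y := Supp.sum _ fun k _ => (htS k).Dop p a c (ev k) hcl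
      refine ih (fun j => z j - (pv p (h w) + (m : K))⁻¹ •
        (Dop p a c (h w) (t j) - ((h w j : ℤ) : K) • Y)) ?_ ?_
      · intro j
        have hsup : Supp S (z j - (pv p (h w) + (m : K))⁻¹ •
            (Dop p a c (h w) (t j) - ((h w j : ℤ) : K) • Y)) :=
          (hz j).sub ((((htS j).Dop p a c (h w) hcl).sub (hYS.smul _)).smul _)
        intro u hu
        obtain ⟨h1, h2⟩ := hsup u hu
        refine ⟨h1, ?_⟩
        by_contra h3
        have h4 : dt (h w) u = m := by
          rw [hm] at h2 ⊢
          push_cast at h2 ⊢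
          push_cast at h3
          omega
        apply hu
        have h5 : ∑ i, c i * (dt (h w) (a i) : K) * (t j).coeff (u - a i) = 0 := by
          refine Finset.sum_eq_zero fun i _ => ?_
          by_cases h6 : dt (h w) (a i) = 0
          · rw [h6, Int.cast_zero, mul_zero, zero_mul]
          · have h7 : dt (h w) (u - a i) ≠ m := by
              rw [dt_sub]
              omega
            rw [ht, if_neg h7, zero_mul, mul_zero]
        rw [coeff_sub', coeff_smul', coeff_sub', coeff_smul', Dop_coeff, h5, hY0 u h4, ht,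
          if_pos h4, h4, one_mul, mul_zero, sub_zero, sub_zero, ← mul_assoc, inv_mul_cancel₀ hρ,
          one_mul, sub_self]
      · have e1 : ∑ j, Dop p a c (ev j) (Dop p a c (h w) (t j)) = Dop p a c (h w) Y := by
          simp only [Y, Dop_sum]
          exact Finset.sum_congr rfl fun j _ => Dop_comm p a c _ _ _
        have e2 : ∑ j, ((h w j : ℤ) : K) • Dop p a c (ev j) Y = Dop p a c (h w) Y :=
          (Dop_left p a c (h w) Y).symm
        simp only [Dop_sub, Dop_smul, sum_sub_distrib, ← smul_sum]
        rw [e1, e2, sub_self, smul_zero, sub_zero, ← hxz]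
  have main : ∀ V : Finset κ, ∃ z : Fin d → LP K d,
      (∀ j, Supp {u | ∀ v ∈ V, l v ≤ dt (h v) u} (z j)) ∧ x = ∑ j, Dop p a c (ev j) (z j) := by
    intro V
    induction V using Finset.induction_on with
    | empty =>
      obtain ⟨z, -, hz⟩ := hex
      exact ⟨z, fun j u _ v hv => absurd hv (Finset.notMem_empty v), hz⟩
    | insert w V hw ih =>
      obtain ⟨z, hz, hxz⟩ := ih
      have hz2 : ∀ j, Supp {u | (∀ v ∈ V, l v ≤ dt (h v) u) ∧
          l w - ((∑ j, ∑ u ∈ (z j).coeff.support, (l w - dt (h w) u).toNat : ℕ) : ℤ) ≤ dt (h w) u}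
          (z j) := by
        intro j u hu
        refine ⟨fun v hv => hz j u hu v hv, ?_⟩
        have h1 : (l w - dt (h w) u).toNat ≤
            ∑ j, ∑ u ∈ (z j).coeff.support, (l w - dt (h w) u).toNat := by
          refine le_trans ?_ (Finset.single_le_sum (f := fun j => ∑ u ∈ (z j).coeff.support,
            (l w - dt (h w) u).toNat) (fun _ _ => Nat.zero_le _) (Finset.mem_univ j))
          exact Finset.single_le_sum (f := fun u => (l w - dt (h w) u).toNat)
            (fun _ _ => Nat.zero_le _) (Finsupp.mem_support_iff.2 hu)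
        omega
      obtain ⟨z', hz', hxz'⟩ := step V w _ z hz2 hxz
      refine ⟨z', fun j u hu v hv => ?_, hxz'⟩
      obtain ⟨h1, h2⟩ := hz' j u hu
      rcases Finset.mem_insert.1 hv with rfl | hv
      · exact h2
      · exact h1 v hv
  obtain ⟨z, hz, hxz⟩ := main Finset.univ
  exact ⟨z, fun j u hu v => hz j u hu v (Finset.mem_univ v), hxz⟩

end Pool.Agent.H56.SMC

end S_RK

section S_RA

/-!
# RA: raising of the levels with unit eigenvalues

Proof.  One bad functional `v` after the other; for one `v` induction on the lowest level `m < l v`: let `t` be the part of `x` with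
`dt (h v) u = m` exactly (lowest level), `ρ` the inverse of the unit `pv p (h v) + m`; replace `x` by
`x - ρ • Dop (h v) t`.  `Dop (h v) t` is exact (`Ex.of_Dop`), its part of level `m` is `(pv p (h v) + m) • t` (terms of
`gs a c (h v)` with `dt (h v) (a i) = 0` have coefficient `0`), the rest has higher level; the other conditions on the support
(`l v' ≤ dt (h v') u` for the `v'` already treated and the good ones, `0 < dt h0 u`) are preserved since all `a i` have nonnegative levels.
-/

set_option autoImplicit false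

namespace Pool.Agent.H56.SMC

open Finset AddMonoidAlgebra

/-- RA -/
theorem ra {R : Type} [CommRing R] {d : ℕ} {ι κ : Type} [Fintype ι] [Fintype κ] (a : ι → Lat d)
    (c : ι → R) (p : Fin d → R) (h : κ → Lat d) (good : κ → Prop)
    (hh : ∀ v i, 0 ≤ dt (h v) (a i)) (l : κ → ℤ)
    (hu : ∀ v, ¬ good v → ∀ m : ℤ, m < l v → IsUnit (pv p (h v) + (m : R)))
    (h0 : Lat d) (hh0 : ∀ i, 0 ≤ dt h0 (a i)) (x : LP R d)
    (hx : Supp {u | (∀ v, good v → l v ≤ dt (h v) u) ∧ 0 < dt h0 u} x) :
    ∃ x' : LP R d, Supp {u | u ∈ Sc h l ∧ 0 < dt h0 u} x' ∧ Ex p a c Set.univ (x - x') := by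
  classical
  let B : Finset κ → Set (Lat d) := fun V =>
    {u | (∀ v, good v → l v ≤ dt (h v) u) ∧ (∀ v ∈ V, l v ≤ dt (h v) u) ∧ 0 < dt h0 u}
  have step : ∀ (V : Finset κ) (w : κ), ¬ good w → ∀ (n : ℕ) (x : LP R d),
      Supp {u | u ∈ B V ∧ l w - n ≤ dt (h w) u} x →
      ∃ x' : LP R d, Supp {u | u ∈ B V ∧ l w ≤ dt (h w) u} x' ∧ Ex p a c Set.univ (x - x') := by
    intro V w hw n
    induction n with
    | zero =>
      intro x hx
      refine ⟨x, hx.mono ?_, ?_⟩
      · rintro u ⟨h1, h2⟩
        exact ⟨h1, by simpa using h2⟩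
      · rw [sub_self]
        exact Ex.zero
    | succ n ih =>
      intro x hx
      set m : ℤ := l w - (n + 1 : ℕ) with hm
      have hml : m < l w := by rw [hm]; push_cast; omega
      obtain ⟨ρ, hρ⟩ := (hu w hw m hml).exists_left_inv
      set S : Set (Lat d) := {u | u ∈ B V ∧ m ≤ dt (h w) u} with hS
      have hcl : ∀ u ∈ S, ∀ i, c i ≠ 0 → u + a i ∈ S := by
        rintro u ⟨⟨h1, h2, h3⟩, h4⟩ i -
        refine ⟨⟨fun v hv => ?_, fun v hv => ?_, ?_⟩, ?_⟩
        · rw [dt_add]; have := h1 v hv; have := hh v i; omega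
        · rw [dt_add]; have := h2 v hv; have := hh v i; omega
        · rw [dt_add]; have := hh0 i; omega
        · rw [dt_add]; have := hh w i; omega
      -- the part of level exactly `m`
      let t : LP R d := dg (fun u => if dt (h w) u = m then (1 : R) else 0) x
      have ht : ∀ u, t.coeff u = (if dt (h w) u = m then (1 : R) else 0) * x.coeff u :=
        fun u => dg_coeff _ _ _
      have htS : Supp S t := hx.dg _
      have hsup : Supp S (x - ρ • Dop p a c (h w) t) :=
        hx.sub ((htS.Dop p a c (h w) hcl).smul _)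
      obtain ⟨x', hx', hex'⟩ := ih (x - ρ • Dop p a c (h w) t) (by
        intro u hu
        obtain ⟨h1, h2⟩ := hsup u hu
        refine ⟨h1, ?_⟩
        by_contra h3
        have h4 : dt (h w) u = m := by
          rw [hm] at h2 ⊢
          push_cast at h2 ⊢
          omega
        apply hu
        have h5 : ∑ i, c i * (dt (h w) (a i) : R) * t.coeff (u - a i) = 0 := by
          refine Finset.sum_eq_zero fun i _ => ?_
          by_cases h6 : dt (h w) (a i) = 0
          · rw [h6, Int.cast_zero, mul_zero, zero_mul]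
          · have h7 : dt (h w) (u - a i) ≠ m := by
              rw [dt_sub]
              omega
            rw [ht, if_neg h7, zero_mul, mul_zero]
        rw [coeff_sub', coeff_smul', Dop_coeff, h5, ht, if_pos h4, h4, one_mul, sub_zero,
          ← mul_assoc, hρ, one_mul, sub_self])
      refine ⟨x', hx', ?_⟩
      have e1 : x - x' = (x - ρ • Dop p a c (h w) t - x') + ρ • Dop p a c (h w) t := by abel
      rw [e1]
      exact hex'.add ((Ex.of_Dop (h w) (S := Set.univ) fun _ _ => Set.mem_univ _).smul ρ)
  have main : ∀ V : Finset κ, ∃ x' : LP R d, Supp (B V) x' ∧ Ex p a c Set.univ (x - x') := by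
    intro V
    induction V using Finset.induction_on with
    | empty =>
      refine ⟨x, fun u hu' => ?_, ?_⟩
      · obtain ⟨h1, h2⟩ := hx u hu'
        exact ⟨h1, fun v hv => absurd hv (Finset.notMem_empty v), h2⟩
      · rw [sub_self]
        exact Ex.zero
    | insert w V hw ih =>
      obtain ⟨x1, hx1, hex1⟩ := ih
      by_cases hgw : good w
      · refine ⟨x1, fun u hu' => ?_, hex1⟩
        obtain ⟨h1, h2, h3⟩ := hx1 u hu'
        refine ⟨h1, fun v hv => ?_, h3⟩
        rcases Finset.mem_insert.1 hv with rfl | hv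
        · exact h1 v hgw
        · exact h2 v hv
      · obtain ⟨x2, hx2, hex2⟩ := step V w hgw
          (∑ u ∈ x1.coeff.support, (l w - dt (h w) u).toNat) x1 (by
          intro u hu'
          refine ⟨hx1 u hu', ?_⟩
          have h1 : (l w - dt (h w) u).toNat ≤
              ∑ u ∈ x1.coeff.support, (l w - dt (h w) u).toNat :=
            Finset.single_le_sum (f := fun u => (l w - dt (h w) u).toNat)
              (fun _ _ => Nat.zero_le _) (Finsupp.mem_support_iff.2 hu')
          omega)
        refine ⟨x2, fun u hu' => ?_, ?_⟩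
        · obtain ⟨⟨h1, h2, h3⟩, h4⟩ := hx2 u hu'
          refine ⟨h1, fun v hv => ?_, h3⟩
          rcases Finset.mem_insert.1 hv with rfl | hv
          · exact h4
          · exact h2 v hv
        · have e1 : x - x2 = (x - x1) + (x1 - x2) := by abel
          rw [e1]
          exact hex1.add hex2
  obtain ⟨x', hx', hex'⟩ := main Finset.univ
  exact ⟨x', fun u hu' => ⟨fun v => (hx' u hu').2.1 v (Finset.mem_univ v), (hx' u hu').2.2⟩, hex'⟩

end Pool.Agent.H56.SMC

end S_RA

section S_SL

/-!
# SL: the slice `{h0 = 0}`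

Proof.  `single 0 b + x = ∑ D_j z_j`.  Let `z̄_j` be the part of `z_j` with `dt h0 u = 0`, `D^F_j = Dop p a (cF a c h0) (ev j)`, `g_j = gs a (cF a c h0) (ev j)`.  Since the `z_j`
are supported in `dt h0 u ≥ 0` and `dt h0 (a i) ≥ 0`, the part of the equation with `dt h0 u = 0` is `single 0 b = ∑ D^F_j z̄_j`.
Claim: there is such a representation with all `z̄_j` supported in degrees `dt δ u ≤ -1` (and in `S ∩ {dt h0 u = 0}`).  Downward induction on the maximal degree `N ≥ 0` of
the `z̄_j`: let `t_j` = part of degree `N` of `z̄_j`; the part of degree `N+1 ≥ 1` of the equation: `∑ g_j * t_j = 0`.  By `hK`: `t_j = ∑_k g_k y_jk + h0_j r'`; replace `y_jk` by its part of degree `N-1` and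
`r'` by its part of degree `N`.  `z'_j = z̄_j + ∑_k D^F_k y_jk - (h0 j) • r'` is supported in degrees `≤ N-1`, and `∑ D^F_j z'_j = ∑ D^F_j z̄_j`:
`Dop_antisymm`, and `∑_j h0_j D^F_j r' = Dop p a (cF a c h0) h0 r' = (pv p h0 + dt h0 u) r' - gs a (cF a c h0) h0 * r' = 0` because of `hp`,
`dt h0 u = 0` and `cF a c h0 i * dt h0 (a i) = 0`.
With the `z̄_j` in degrees `≤ -1` the part of degree `0` of the equation is `single 0 b = -∑_j g_j t_j`, `t_j` the part of degree `-1` of `z̄_j`.
-/

set_option autoImplicit false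

namespace Pool.Agent.H56.SMC

open Finset AddMonoidAlgebra

/-- SL -/
theorem sl {d : ℕ} {ι : Type} [Fintype ι] (a : ι → Lat d) (c : ι → ℂ) (p : Fin d → ℂ)
    (S : Set (Lat d)) (δ h0 : Lat d) (hδ : ∀ i, dt δ (a i) = 1)
    (hS : ∀ u ∈ S, ∀ i, u + a i ∈ S) (hh0 : ∀ i, 0 ≤ dt h0 (a i)) (hS0 : ∀ u ∈ S, 0 ≤ dt h0 u)
    (hp : pv p h0 = 0) (hK : KExactF a c S h0) (b : ℂ) (x : LP ℂ d)
    (hx : Supp {u | 0 < dt h0 u} x) (hex : Ex p a c S (single 0 b + x)) :
    ∃ t : Fin d → LP ℂ d, (∀ j, Supp {u | u ∈ S ∧ dt h0 u = 0 ∧ dt δ u = -1} (t j)) ∧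
      (single 0 b : LP ℂ d) = ∑ j, gs a (cF a c h0) (ev j) * t j := by
  classical
  set c' : ι → ℂ := cF a c h0 with hc'
  have hc1 : ∀ i, dt h0 (a i) = 0 → c' i = c i := fun i hi => by
    rw [hc']; unfold cF; rw [if_pos hi]
  have hc2 : ∀ i, dt h0 (a i) ≠ 0 → c' i = 0 := fun i hi => by
    rw [hc']; unfold cF; rw [if_neg hi]
  have hc3 : ∀ i, c' i * (dt h0 (a i) : ℂ) = 0 := fun i => by
    by_cases hi : dt h0 (a i) = 0
    · rw [hi, Int.cast_zero, mul_zero]
    · rw [hc2 i hi, zero_mul]
  set T : Set (Lat d) := S ∩ {u | dt h0 u = 0} with hT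
  have hclT : ∀ u ∈ T, ∀ i, c' i ≠ 0 → u + a i ∈ T := by
    rintro u ⟨h1, h2⟩ i hi
    refine ⟨hS u h1 i, ?_⟩
    have h3 : dt h0 (a i) = 0 := by
      by_contra h4
      exact hi (hc2 i h4)
    show dt h0 (u + a i) = 0
    rw [dt_add, h3, add_zero]
    exact h2
  -- restriction to the slice
  obtain ⟨z, hz, hxz⟩ := hex
  let z0 : Fin d → LP ℂ d := fun j => dg (fun u => if dt h0 u = 0 then (1 : ℂ) else 0) (z j)
  have hz0 : ∀ j u, (z0 j).coeff u = (if dt h0 u = 0 then (1 : ℂ) else 0) * (z j).coeff u :=
    fun j u => dg_coeff _ _ _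
  have hz0T : ∀ j, Supp T (z0 j) := by
    intro j u hu
    rw [hz0] at hu
    refine ⟨hz j u (fun h => hu (by rw [h, mul_zero])), ?_⟩
    show dt h0 u = 0
    by_contra h
    exact hu (by rw [if_neg h, zero_mul])
  have heq0 : (single 0 b : LP ℂ d) = ∑ j, Dop p a c' (ev j) (z0 j) := by
    apply lp_ext
    intro u
    rw [coeff_finsum]
    by_cases hu : dt h0 u = 0
    · have h1 : (single 0 b + x : LP ℂ d).coeff u = (single 0 b : LP ℂ d).coeff u := by
        rw [coeff_add']
        have : x.coeff u = 0 := by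
          by_contra h
          have h2 : 0 < dt h0 u := hx u h
          omega
        rw [this, add_zero]
      rw [← h1, hxz, coeff_finsum]
      refine Finset.sum_congr rfl fun j _ => ?_
      rw [Dop_coeff, Dop_coeff, hz0, if_pos hu, one_mul]
      congr 1
      refine Finset.sum_congr rfl fun i _ => ?_
      by_cases hi : dt h0 (a i) = 0
      · have h3 : dt h0 (u - a i) = 0 := by rw [dt_sub, hu, hi, sub_zero]
        rw [hc1 i hi, hz0, if_pos h3, one_mul]
      · have h3 : (z j).coeff (u - a i) = 0 := by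
          by_contra h
          have h4 := hS0 _ (hz j _ h)
          have h5 := hh0 i
          rw [dt_sub] at h4
          omega
        rw [h3, hc2 i hi, mul_zero, zero_mul, zero_mul]
    · have h1 : (single 0 b : LP ℂ d).coeff u = 0 := by
        rw [coeff_single', if_neg]
        rintro rfl
        exact hu (dt_zero h0)
      rw [h1]
      symm
      refine Finset.sum_eq_zero fun j _ => ?_
      rw [Dop_coeff, hz0, if_neg hu, zero_mul, mul_zero, zero_sub, neg_eq_zero]
      refine Finset.sum_eq_zero fun i _ => ?_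
      by_cases hi : dt h0 (a i) = 0
      · have h3 : dt h0 (u - a i) ≠ 0 := by rw [dt_sub, hi, sub_zero]; exact hu
        rw [hz0, if_neg h3, zero_mul, mul_zero]
      · rw [hc2 i hi, zero_mul, zero_mul]
  -- lowering of the degrees
  have key : ∀ (n : ℕ) (z : Fin d → LP ℂ d), (∀ j, Supp {u | u ∈ T ∧ dt δ u < n} (z j)) →
      (single 0 b : LP ℂ d) = ∑ j, Dop p a c' (ev j) (z j) →
      ∃ z' : Fin d → LP ℂ d, (∀ j, Supp {u | u ∈ T ∧ dt δ u < 0} (z' j)) ∧
        (single 0 b : LP ℂ d) = ∑ j, Dop p a c' (ev j) (z' j) := by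
    intro n
    induction n with
    | zero =>
      intro z hz hzz
      exact ⟨z, fun j u hu => ⟨(hz j u hu).1, by simpa using (hz j u hu).2⟩, hzz⟩
    | succ n ih =>
      intro z hz hzz
      set N : ℤ := (n : ℤ) with hN
      have hN0 : 0 ≤ N := Int.natCast_nonneg n
      let t : Fin d → LP ℂ d := fun j => dg (fun u => if dt δ u = N then (1 : ℂ) else 0) (z j)
      have ht : ∀ j u, (t j).coeff u = (if dt δ u = N then (1 : ℂ) else 0) * (z j).coeff u :=
        fun j u => dg_coeff _ _ _
      have htS : ∀ j, Supp T (t j) := fun j => ((hz j).mono fun u hu => hu.1).dg _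
      have htop : ∀ j u, dt δ u = N + 1 → (z j).coeff u = 0 := by
        intro j u hu
        by_contra h1
        have := (hz j u h1).2
        push_cast at this
        omega
      have hgt : ∑ j, gs a c' (ev j) * t j = 0 := by
        apply lp_ext
        intro u
        rw [coeff_finsum, coeff_zero']
        by_cases hu : dt δ u = N + 1
        · have h1 : (∑ j, Dop p a c' (ev j) (z j)).coeff u = 0 := by
            rw [← hzz, coeff_single', if_neg]
            rintro rfl
            rw [dt_zero] at hu
            omega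
          rw [coeff_finsum] at h1
          have h2 : ∀ j, (Dop p a c' (ev j) (z j)).coeff u = -(gs a c' (ev j) * t j).coeff u := by
            intro j
            rw [Dop_coeff, htop j u hu, mul_zero, zero_sub, gs_mul_coeff]
            congr 1
            refine Finset.sum_congr rfl fun i _ => ?_
            have h3 : dt δ (u - a i) = N := by rw [dt_sub, hδ, hu]; ring
            rw [ht, if_pos h3, one_mul]
          simp only [h2, Finset.sum_neg_distrib, neg_eq_zero] at h1
          exact h1
        · refine Finset.sum_eq_zero fun j _ => ?_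
          rw [gs_mul_coeff]
          refine Finset.sum_eq_zero fun i _ => ?_
          have h3 : dt δ (u - a i) ≠ N := by rw [dt_sub, hδ]; omega
          rw [ht, if_neg h3, zero_mul, mul_zero]
      obtain ⟨y0, r0, hy0S, hr0S, hy0a, hy0⟩ := hK t htS hgt
      let y : Fin d → Fin d → LP ℂ d :=
        fun j k => dg (fun u => if dt δ u = N - 1 then (1 : ℂ) else 0) (y0 j k)
      have hy : ∀ j k u, (y j k).coeff u =
          (if dt δ u = N - 1 then (1 : ℂ) else 0) * (y0 j k).coeff u := fun j k u => dg_coeff _ _ _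
      let r : LP ℂ d := dg (fun u => if dt δ u = N then (1 : ℂ) else 0) r0
      have hr : ∀ u, r.coeff u = (if dt δ u = N then (1 : ℂ) else 0) * r0.coeff u :=
        fun u => dg_coeff _ _ _
      have hyS : ∀ j k, Supp T (y j k) := fun j k => (hy0S j k).dg _
      have hrS : Supp T r := hr0S.dg _
      have hya : ∀ j k, y j k = -y k j := by
        intro j k
        apply lp_ext
        intro u
        rw [coeff_neg', hy, hy, hy0a j k, coeff_neg', mul_neg]
      have hyt : ∀ j, t j = ∑ k, gs a c' (ev k) * y j k + (h0 j : ℂ) • r := by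
        intro j
        apply lp_ext
        intro u
        rw [coeff_add', coeff_finsum, coeff_smul']
        by_cases hu : dt δ u = N
        · have h1 : (t j).coeff u =
              (∑ k, gs a c' (ev k) * y0 j k + (h0 j : ℂ) • r0).coeff u := by rw [← hy0 j]
          rw [h1, coeff_add', coeff_finsum, coeff_smul', hr, if_pos hu, one_mul]
          congr 1
          refine Finset.sum_congr rfl fun k _ => ?_
          rw [gs_mul_coeff, gs_mul_coeff]
          refine Finset.sum_congr rfl fun i _ => ?_
          have h3 : dt δ (u - a i) = N - 1 := by rw [dt_sub, hδ, hu]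
          rw [hy, if_pos h3, one_mul]
        · rw [ht, if_neg hu, zero_mul, hr, if_neg hu, zero_mul, mul_zero, add_zero]
          symm
          refine Finset.sum_eq_zero fun k _ => ?_
          rw [gs_mul_coeff]
          refine Finset.sum_eq_zero fun i _ => ?_
          have h3 : dt δ (u - a i) ≠ N - 1 := by rw [dt_sub, hδ]; omega
          rw [hy, if_neg h3, zero_mul, mul_zero]
      have hDr : Dop p a c' h0 r = 0 := by
        apply lp_ext
        intro u
        rw [Dop_coeff, coeff_zero', hp, zero_add]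
        have h1 : ∑ i, c' i * (dt h0 (a i) : ℂ) * r.coeff (u - a i) = 0 :=
          Finset.sum_eq_zero fun i _ => by rw [hc3, zero_mul]
        rw [h1, sub_zero]
        by_cases h2 : r.coeff u = 0
        · rw [h2, mul_zero]
        · have h3 : dt h0 u = 0 := (hrS u h2).2
          rw [h3, Int.cast_zero, zero_mul]
      refine ih (fun j => z j + ∑ k, Dop p a c' (ev k) (y j k) - (h0 j : ℂ) • r) ?_ ?_
      · intro j
        have e1 : z j + ∑ k, Dop p a c' (ev k) (y j k) - (h0 j : ℂ) • r = (z j - t j) +
            ∑ k, dg (fun u => pv p (ev k) + (dt (ev k) u : ℂ)) (y j k) := by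
          have e2 : ∀ k, Dop p a c' (ev k) (y j k) =
              dg (fun u => pv p (ev k) + (dt (ev k) u : ℂ)) (y j k) - gs a c' (ev k) * y j k :=
            fun k => rfl
          simp only [e2, Finset.sum_sub_distrib]
          rw [hyt j]
          abel
        rw [e1]
        refine Supp.add ?_ (Supp.sum _ fun k _ => Supp.dg _ ?_)
        · intro u hu
          rw [coeff_sub', ht] at hu
          have h1 : (z j).coeff u ≠ 0 := by
            intro h; apply hu; rw [h, mul_zero, sub_zero]
          obtain ⟨h2, h3⟩ := hz j u h1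
          refine ⟨h2, ?_⟩
          by_contra h4
          have h5 : dt δ u = N := by
            push_cast at h3
            omega
          apply hu
          rw [if_pos h5, one_mul, sub_self]
        · intro u hu
          refine ⟨hyS j k u hu, ?_⟩
          rw [hy] at hu
          have h1 : dt δ u = N - 1 := by
            by_contra h
            apply hu
            rw [if_neg h, zero_mul]
          omega
      · have e3 : ∑ j, Dop p a c' (ev j) (∑ k, Dop p a c' (ev k) (y j k)) = 0 :=
          Dop_antisymm p a c' lp_eq_neg_self y hya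
        have e4 : ∑ j, (h0 j : ℂ) • Dop p a c' (ev j) r = 0 := by
          rw [← Dop_left, hDr]
        simp only [Dop_sub, Dop_add, Finset.sum_sub_distrib, Finset.sum_add_distrib, Dop_smul]
        simp only [Dop_sum] at e3
        simp only [Dop_sum]
        rw [e3, e4, ← hzz, add_zero, sub_zero]
  obtain ⟨z', hz', hzz'⟩ := key (∑ j, ∑ u ∈ (z0 j).coeff.support, (dt δ u + 1).toNat) z0
    (fun j u hu => by
      refine ⟨hz0T j u hu, ?_⟩
      have h1 : (dt δ u + 1).toNat ≤
          ∑ j, ∑ u ∈ (z0 j).coeff.support, (dt δ u + 1).toNat := by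
        refine le_trans ?_ (Finset.single_le_sum (f := fun j => ∑ u ∈ (z0 j).coeff.support,
          (dt δ u + 1).toNat) (fun _ _ => Nat.zero_le _) (Finset.mem_univ j))
        exact Finset.single_le_sum (f := fun u => (dt δ u + 1).toNat)
          (fun _ _ => Nat.zero_le _) (Finsupp.mem_support_iff.2 hu)
      omega) heq0
  -- the part of degree `-1`
  let t : Fin d → LP ℂ d := fun j => dg (fun u => if dt δ u = -1 then (-1 : ℂ) else 0) (z' j)
  have ht : ∀ j u, (t j).coeff u = (if dt δ u = -1 then (-1 : ℂ) else 0) * (z' j).coeff u :=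
    fun j u => dg_coeff _ _ _
  refine ⟨t, fun j u hu => ?_, ?_⟩
  · rw [ht] at hu
    have h1 := hz' j u (fun h => hu (by rw [h, mul_zero]))
    refine ⟨h1.1.1, h1.1.2, ?_⟩
    by_contra h
    exact hu (by rw [if_neg h, zero_mul])
  · apply lp_ext
    intro u
    rw [coeff_finsum]
    by_cases hu : dt δ u = 0
    · rw [hzz', coeff_finsum]
      refine Finset.sum_congr rfl fun j _ => ?_
      have h1 : (z' j).coeff u = 0 := by
        by_contra h
        have h2 : dt δ u < 0 := (hz' j u h).2
        omega
      rw [Dop_coeff, h1, mul_zero, zero_sub, gs_mul_coeff, ← Finset.sum_neg_distrib]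
      refine Finset.sum_congr rfl fun i _ => ?_
      have h3 : dt δ (u - a i) = -1 := by rw [dt_sub, hδ, hu]; ring
      rw [ht, if_pos h3]
      ring
    · have h1 : (single 0 b : LP ℂ d).coeff u = 0 := by
        rw [coeff_single', if_neg]
        rintro rfl
        exact hu (dt_zero δ)
      rw [h1]
      symm
      refine Finset.sum_eq_zero fun j _ => ?_
      rw [gs_mul_coeff]
      refine Finset.sum_eq_zero fun i _ => ?_
      have h3 : dt δ (u - a i) ≠ -1 := by rw [dt_sub, hδ]; omega
      rw [ht, if_neg h3, zero_mul, mul_zero]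

end Pool.Agent.H56.SMC

end S_SL

section S_CORE

/-!
# CORE: the main algebraic argument

Proof.  `ra` over `PA`: `x'` supported in `Sc h l ∩ {0 < dt h0 u}` with `Ex univ (x - x')`; hence over `KA`:
`Ex univ (lmap jK (single 0 b - x'))` (`Ex.lmap`, `Ex.add`), and this element is supported in `Sc h l` (`0 ∈ Sc h l` by `hl0`).  `rk` over `KA`
(with `jK`; `pv` is compatible with `jK`, `jK` is injective): exact with supports in `Sc h l`.  Clear denominators: every element of `KA` is `jK u / jK (X^N)`
(a nonzero power series is `X^N` times a unit), finitely many coefficients, so `Ex (Sc h l) (X^N • (single 0 b - x'))` over `PA` for some `N`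
(injectivity of `jK` on coefficients).  `tf` `N` times: `Ex (Sc h l) (single 0 b - x')` over `PA`.  Reduce modulo `X`
(`Ex.lmap PowerSeries.constantCoeff`) and apply `sl` (with `-x̄'`).
-/

set_option autoImplicit false

namespace Pool.Agent.H56.SMC

open Finset AddMonoidAlgebra

theorem core_pv {R R' : Type} [CommRing R] [CommRing R'] {d : ℕ} (f : R →+* R') (p : Fin d → R)
    (h : Lat d) (m : ℤ) : pv (fun j => f (p j)) h + (m : R') = f (pv p h + (m : R)) := by
  simp only [pv, map_add, map_sum, map_mul, map_intCast]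

theorem core_jK_inj : Function.Injective jK := IsFractionRing.injective PA KA

theorem core_lmap_inj {d : ℕ} {x y : LP PA d} (h : lmap jK x = lmap jK y) : x = y := by
  apply lp_ext; intro u
  apply core_jK_inj
  rw [← lmap_coeff, ← lmap_coeff, h]

/-- Clearing denominators. -/
theorem core_clear {d : ℕ} {ι : Type} [Fintype ι] (a : ι → Lat d) (c : ι → PA) (p : Fin d → PA)
    (S : Set (Lat d)) (y : LP PA d)
    (h : Ex (fun j => jK (p j)) a (fun i => jK (c i)) S (lmap jK y)) :
    ∃ N : ℕ, Ex p a c S ((PowerSeries.X : PA) ^ N • y) := by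
  classical
  obtain ⟨z, hz, hzy⟩ := h
  obtain ⟨b, hb⟩ := IsLocalization.exist_integer_multiples (nonZeroDivisors PA)
    (univ.sigma (fun j : Fin d => (z j).coeff.support)) (fun q => (z q.1).coeff q.2)
  have hb' : ∀ j u, ∃ t : PA, jK t = jK (b : PA) * (z j).coeff u := by
    intro j u
    by_cases hu : (z j).coeff u = 0
    · exact ⟨0, by rw [hu, mul_zero, map_zero]⟩
    · obtain ⟨t, ht⟩ := hb ⟨j, u⟩ (by simp [hu])
      refine ⟨t, ?_⟩
      change algebraMap PA KA t = _
      rw [ht, Algebra.smul_def]
      rfl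
  choose t ht using hb'
  have ht0 : ∀ j u, (z j).coeff u = 0 → t j u = 0 := by
    intro j u hu
    apply core_jK_inj
    rw [ht, hu, mul_zero, map_zero]
  let z' : Fin d → LP PA d := fun j => ofCoeff (Finsupp.onFinset (z j).coeff.support (t j)
    (fun u hu => by
      rw [Finsupp.mem_support_iff]
      intro h0
      exact hu (ht0 j u h0)))
  have hz' : ∀ j, lmap jK (z' j) = jK (b : PA) • z j := by
    intro j
    apply lp_ext; intro u
    rw [lmap_coeff, coeff_smul']
    exact ht j u
  have hEx : Ex p a c S ((b : PA) • y) := by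
    refine ⟨z', fun j u hu => hz j u (fun h0 => hu (ht0 j u h0)), ?_⟩
    apply core_lmap_inj
    rw [lmap_smul, hzy, lmap_sum, smul_sum]
    refine sum_congr rfl fun j _ => ?_
    rw [lmap_Dop, hz', Dop_smul]
  have hb0 : (b : PA) ≠ 0 := nonZeroDivisors.coe_ne_zero b
  refine ⟨(b : PA).order.toNat, ?_⟩
  obtain ⟨v, hv⟩ : ∃ v : PA, v * (b : PA) = (PowerSeries.X : PA) ^ (b : PA).order.toNat := by
    refine ⟨PowerSeries.Inv_divided_by_X_pow_order hb0, ?_⟩
    have h1 := PowerSeries.X_pow_order_mul_divXPowOrder (f := (b : PA))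
    have h2 := PowerSeries.Inv_divided_by_X_pow_order_leftInv hb0
    calc PowerSeries.Inv_divided_by_X_pow_order hb0 * (b : PA)
        = PowerSeries.Inv_divided_by_X_pow_order hb0 * ((PowerSeries.X : PA) ^
          (b : PA).order.toNat * PowerSeries.divXPowOrder (b : PA)) := by rw [h1]
      _ = (PowerSeries.X : PA) ^ (b : PA).order.toNat *
          (PowerSeries.Inv_divided_by_X_pow_order hb0 * PowerSeries.divXPowOrder (b : PA)) := by
            ring
      _ = (PowerSeries.X : PA) ^ (b : PA).order.toNat := by rw [h2, mul_one]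
  have := hEx.smul v
  rwa [smul_smul, hv] at this

theorem core_tf {d : ℕ} {ι : Type} [Fintype ι] (a : ι → Lat d) (c : ι → ℂ) (p : Fin d → PA)
    (S : Set (Lat d)) (δ : Lat d) (hδ : ∀ i, dt δ (a i) = 1) (C : ℤ) (hSδ : ∀ u ∈ S, C ≤ dt δ u)
    (hS : ∀ u ∈ S, ∀ i, u + a i ∈ S) (hK : KExact a c S) (x : LP PA d) (N : ℕ)
    (h : Ex p a (fun i => PowerSeries.C (c i)) S ((PowerSeries.X : PA) ^ N • x)) :
    Ex p a (fun i => PowerSeries.C (c i)) S x := by
  induction N with
  | zero => rwa [pow_zero, one_smul] at h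
  | succ N ih =>
    apply ih
    apply tf a c p S δ hδ C hSδ hS hK
    rwa [smul_smul, ← pow_succ']

/-- CORE -/
theorem core {d : ℕ} {ι κ : Type} [Fintype ι] [Fintype κ] (a : ι → Lat d) (c : ι → ℂ)
    (p : Fin d → PA) (h : κ → Lat d) (l : κ → ℤ) (hl0 : ∀ v, l v ≤ 0) (good : κ → Prop)
    (δ h0 : Lat d)
    (hδ : ∀ i, dt δ (a i) = 1) (C : ℤ) (hSδ : ∀ u ∈ Sc h l, C ≤ dt δ u)
    (hh : ∀ v i, 0 ≤ dt (h v) (a i)) (hh0 : ∀ i, 0 ≤ dt h0 (a i))
    (hS0 : ∀ u ∈ Sc h l, 0 ≤ dt h0 u)
    (hnr : ∀ v, ∀ m : ℤ, m < l v → pv p (h v) + (m : PA) ≠ 0)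
    (hbad : ∀ v, ¬ good v → ∀ m : ℤ, m < l v → IsUnit (pv p (h v) + (m : PA)))
    (hp0 : PowerSeries.constantCoeff (pv p h0) = 0)
    (hK : KExact a c (Sc h l)) (hKF : KExactF a c (Sc h l) h0) (b : PA) (x : LP PA d)
    (hx : Supp {u | (∀ v, good v → l v ≤ dt (h v) u) ∧ 0 < dt h0 u} x)
    (hex : Ex (fun j => jK (p j)) a (fun i => jK (PowerSeries.C (c i))) Set.univ
      (lmap jK (single 0 b - x))) :
    ∃ t : Fin d → LP ℂ d, (∀ j, Supp {u | u ∈ Sc h l ∧ dt h0 u = 0 ∧ dt δ u = -1} (t j)) ∧
      (single 0 (PowerSeries.constantCoeff b) : LP ℂ d) =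
        ∑ j, gs a (cF a c h0) (ev j) * t j := by
  have hS : ∀ u ∈ Sc h l, ∀ i, u + a i ∈ Sc h l := by
    intro u hu i v
    have h1 := hu v
    have h2 := hh v i
    rw [dt_add]
    linarith
  obtain ⟨x', hx', hex'⟩ := ra a (fun i => PowerSeries.C (c i)) p h good hh l hbad h0 hh0 x hx
  have hsum : Ex (fun j => jK (p j)) a (fun i => jK (PowerSeries.C (c i))) Set.univ
      (lmap jK (single 0 b - x')) := by
    have e : (single 0 b - x' : LP PA d) = (single 0 b - x) + (x - x') := by abel
    rw [e, lmap_add]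
    exact hex.add (hex'.lmap jK)
  have hsupp : Supp (Sc h l) (lmap jK (single 0 b - x')) := by
    apply Supp.lmap
    apply Supp.sub
    · apply Supp.single
      intro v
      rw [dt_zero]
      exact hl0 v
    · exact hx'.mono fun u hu => hu.1
  have hK1 := rk a (fun i => jK (PowerSeries.C (c i))) (fun j => jK (p j)) h hh l
    (fun v m hm => by
      rw [core_pv jK p (h v) m]
      intro h0
      exact hnr v m hm (core_jK_inj (by rw [h0, map_zero])))
    _ hsupp hsum
  obtain ⟨N, hN⟩ := core_clear a (fun i => PowerSeries.C (c i)) p (Sc h l) _ hK1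
  have hP := core_tf a c p (Sc h l) δ hδ C hSδ hS hK _ N hN
  have hC := hP.lmap (PowerSeries.constantCoeff (R := ℂ))
  have e1 : (fun i => (PowerSeries.constantCoeff (R := ℂ)) (PowerSeries.C (c i))) = c := by
    funext i; simp
  rw [e1] at hC
  have e2 : lmap (PowerSeries.constantCoeff (R := ℂ)) (single 0 b - x') =
      single 0 (PowerSeries.constantCoeff b) + -lmap (PowerSeries.constantCoeff (R := ℂ)) x' := by
    rw [lmap_sub, sub_eq_add_neg]
    congr 1
    apply lp_ext; intro u
    rw [lmap_coeff, coeff_single', coeff_single']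
    split_ifs
    · rfl
    · exact map_zero _
  rw [e2] at hC
  refine sl a c (fun j => PowerSeries.constantCoeff (p j)) (Sc h l) δ h0 hδ hS hh0 hS0 ?_ hKF
    (PowerSeries.constantCoeff b) _ ?_ hC
  · have := core_pv (PowerSeries.constantCoeff (R := ℂ)) p h0 0
    simp only [Int.cast_zero, add_zero] at this
    rw [this, hp0]
  · exact Supp.neg (Supp.lmap _ (hx'.mono fun u hu => hu.2))

end Pool.Agent.H56.SMC

end S_CORE
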