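import Mathlib
import Pool.Agent.H56.SMC.Basic

/-! Strong monodromy for nondegenerate polynomials, part A2: this file joins the modules SFG, CPFIN, CPFREE, CPALG, CPCOL, FLNULL. -/

set_option autoImplicit false

section S_SFG

/-!
# SFG: finite generation of the monoid `Sset h` and finiteness of its graded pieces

Proof.  `Φ : Lat d → κ → ℤ`, `Φ u = (dt (h v) u)_v`, is injective on `Sset h`: if `Φ u = Φ u'` then `u - u'` and `u' - u` lie in `Sset h` and
`dt δ` is positive on nonzero elements of `Sset h`, so `u = u'`.  On `Sset h` the values are in `κ → ℕ`.  Dickson's lemma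
(`Set.PartiallyWellOrderedOn`, `Pi.isPWO`, `WellQuasiOrdered`): the set of minimal elements (for the order of `κ → ℕ` transported by `Φ`) of
`Sset h` without `0` is finite; let `G` be this set.  Every `u ∈ Sset h`, `u ≠ 0`, is `≥` some `s ∈ G`, `u - s ∈ Sset h` and `0 ≤ dt δ (u - s) < dt δ u`:
induction on `dt δ u`.  (b) elements with `dt δ u ≤ N` are sums of at most `N` elements of `G`.
-/

set_option autoImplicit false

namespace Pool.Agent.H56.SMC

open Finset AddMonoidAlgebra

/-- SFG -/
theorem sfg {d : ℕ} {κ : Type} [Fintype κ] (h : κ → Lat d) (δ : Lat d)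
    (hpos : ∀ u ∈ Sset h, u ≠ 0 → 0 < dt δ u) :
    ∃ G : Finset (Lat d), (∀ s ∈ G, s ∈ Sset h ∧ s ≠ 0) ∧
      ∀ u ∈ Sset h, ∃ n : Lat d → ℕ, u = ∑ s ∈ G, n s • s := by
  classical
  set ψ : Lat d → κ → ℕ := fun u v => (dt (h v) u).toNat with hψ
  set T : Set (κ → ℕ) := {x | ∃ u ∈ Sset h, u ≠ 0 ∧ ψ u = x} with hT
  set M : Set (κ → ℕ) := {x | Minimal (· ∈ T) x} with hM
  have hMfin : M.Finite := by
    have hpwo : M.IsPWO := Set.isPWO_of_wellQuasiOrderedLE M
    refine IsAntichain.finite_of_partiallyWellOrderedOn ?_ hpwo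
    intro x hx y hy hxy hle
    exact hxy (le_antisymm hle (hy.2 hx.1 hle))
  have hch : ∀ x : κ → ℕ, ∃ u : Lat d, x ∈ M → u ∈ Sset h ∧ u ≠ 0 ∧ ψ u = x := by
    intro x
    by_cases hx : x ∈ M
    · obtain ⟨u, h1, h2, h3⟩ := hx.1
      exact ⟨u, fun _ => ⟨h1, h2, h3⟩⟩
    · exact ⟨0, fun h0 => absurd h0 hx⟩
  choose w hw using hch
  refine ⟨hMfin.toFinset.image w, ?_, ?_⟩
  · intro s hs
    obtain ⟨x, hx, rfl⟩ := Finset.mem_image.1 hs
    have := hw x (hMfin.mem_toFinset.1 hx)
    exact ⟨this.1, this.2.1⟩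
  · have key : ∀ (k : ℕ) (u : Lat d), u ∈ Sset h → (dt δ u).toNat = k →
        ∃ n : Lat d → ℕ, u = ∑ s ∈ hMfin.toFinset.image w, n s • s := by
      intro k
      induction k using Nat.strong_induction_on with
      | _ k ih =>
        intro u hu hk
        by_cases h0 : u = 0
        · exact ⟨0, by simp [h0]⟩
        · -- a minimal element below ψ u
          have huT : ψ u ∈ T := ⟨u, hu, h0, rfl⟩
          have hwf : WellFounded ((· < ·) : (κ → ℕ) → (κ → ℕ) → Prop) :=
            wellFounded_lt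
          obtain ⟨x, hxle, hxmin⟩ : ∃ x, x ≤ ψ u ∧ Minimal (· ∈ T) x := by
            obtain ⟨m, hm, hmin⟩ := hwf.has_min {x | x ∈ T ∧ x ≤ ψ u} ⟨ψ u, huT, le_rfl⟩
            refine ⟨m, hm.2, hm.1, ?_⟩
            intro y hy hym
            by_contra hnot
            exact hmin y ⟨hy, hym.trans hm.2⟩ (lt_of_le_not_ge hym hnot)
          obtain ⟨hs1, hs2, hs3⟩ := hw x hxmin
          have hsub : u - w x ∈ Sset h := by
            intro v
            have h1 : ψ (w x) v ≤ ψ u v := by rw [hs3]; exact hxle v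
            have h2 := hs1 v
            have h3 := hu v
            rw [dt_sub]
            simp only [hψ] at h1
            omega
          have hpw := hpos _ hs1 hs2
          have hnn : 0 ≤ dt δ (u - w x) := by
            by_cases hz : u - w x = 0
            · rw [hz, dt_zero]
            · exact (hpos _ hsub hz).le
          have hpu := hpos _ hu h0
          have hdt := dt_sub δ u (w x)
          obtain ⟨n, hn⟩ := ih (dt δ (u - w x)).toNat (by omega) (u - w x) hsub rfl
          refine ⟨fun s => n s + if s = w x then 1 else 0, ?_⟩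
          have hmem : w x ∈ hMfin.toFinset.image w :=
            Finset.mem_image.2 ⟨x, hMfin.mem_toFinset.2 hxmin, rfl⟩
          calc u = (u - w x) + w x := by abel
            _ = ∑ s ∈ hMfin.toFinset.image w, n s • s + w x := by rw [← hn]
            _ = ∑ s ∈ hMfin.toFinset.image w, n s • s +
                  ∑ s ∈ hMfin.toFinset.image w, (if s = w x then 1 else 0) • s := by
                congr 1
                rw [Finset.sum_eq_single (w x)]
                · simp
                · intro b _ hb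
                  simp [hb]
                · intro h'; exact absurd hmem h'
            _ = ∑ s ∈ hMfin.toFinset.image w, (n s + if s = w x then 1 else 0) • s := by
                rw [← Finset.sum_add_distrib]
                exact Finset.sum_congr rfl fun s _ => by rw [add_smul]
    intro u hu
    exact key _ u hu rfl

/-- SFG, finiteness -/
theorem sfin {d : ℕ} {κ : Type} [Fintype κ] (h : κ → Lat d) (δ : Lat d)
    (hpos : ∀ u ∈ Sset h, u ≠ 0 → 0 < dt δ u) (N : ℤ) :
    {u | u ∈ Sset h ∧ dt δ u ≤ N}.Finite := by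
  classical
  obtain ⟨G, hG, hgen⟩ := sfg h δ hpos
  refine Set.Finite.subset (Set.finite_range
    (fun f : G → Fin (N.toNat + 1) => ∑ s : G, (f s : ℕ) • (s : Lat d))) ?_
  rintro u ⟨hu, huN⟩
  obtain ⟨n, hn⟩ := hgen u hu
  have hdt : dt δ u = ∑ s ∈ G, (n s : ℤ) * dt δ s := by
    have : ∀ (A : Finset (Lat d)), dt δ (∑ s ∈ A, n s • s) = ∑ s ∈ A, (n s : ℤ) * dt δ s := by
      intro A
      induction A using Finset.induction_on with
      | empty => simp [dt_zero]
      | insert a A ha ih => rw [Finset.sum_insert ha, Finset.sum_insert ha, dt_add, ih, dt_nsmul]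
    conv_lhs => rw [hn]
    exact this G
  have hle : ∀ s ∈ G, n s ≤ N.toNat := by
    intro s hs
    have h1 : (n s : ℤ) * dt δ s ≤ ∑ s ∈ G, (n s : ℤ) * dt δ s := by
      refine Finset.single_le_sum (f := fun s => (n s : ℤ) * dt δ s) ?_ hs
      intro t ht
      have := hpos t (hG t ht).1 (hG t ht).2
      positivity
    have h2 := hpos s (hG s hs).1 (hG s hs).2
    have h3 : (n s : ℤ) ≤ (n s : ℤ) * dt δ s := by nlinarith [Int.natCast_nonneg (n s)]
    omega
  refine ⟨fun s => ⟨n s, Nat.lt_succ_of_le (hle s s.2)⟩, ?_⟩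
  simp only
  rw [Finset.sum_coe_sort G (fun s => n s • s)]
  exact hn.symm

end Pool.Agent.H56.SMC

end S_SFG

section S_CPFIN

/-!
# CPFIN: `k[S]` is finite over `k[g_1,…,g_r]`

Proof.  `G` from `sfg`, `N_s`, `z` from `hfl` for `s ∈ G`; WLOG `z_j` homogeneous of degree `N_s dt δ s - e` (take the parts of this degree; the
`g_j` are homogeneous of degree `e`).  Note `N_s > 0` because the right hand side has no component of degree `0`
(all terms have degree `≥ e`).  If `dt δ u ≥ M := ∑_{s ∈ G} N_s dt δ s` (`+1`) then in `u = ∑ n_s s` some `n_s ≥ N_s`, so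
`x^u = x^{N_s s} x^{u - N_s s} = ∑_j g_j (z_j x^{u-N_s s})`, all terms of `z_j x^{u-N_s s}` lie in `S` and have degree `dt δ u - e`.  Induction on `dt δ u`:
`x^u ∈ ∑_{u' ∈ B} k[g] x^{u'}` with `B = {u ∈ S : dt δ u ≤ M}` (finite by `sfin`); then linearity.
-/

set_option autoImplicit false

namespace Pool.Agent.H56.SMC

open Finset AddMonoidAlgebra

theorem cpfin_sum_single {R : Type} [CommRing R] {d : ℕ} (z : LP R d) :
    z = ∑ v ∈ z.coeff.support, single v (z.coeff v) := by
  conv_lhs => rw [← AddMonoidAlgebra.sum_coeff_single z]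
  rfl

theorem cpfin_single_smul {R : Type} [CommRing R] {d : ℕ} (v : Lat d) (r : R) :
    (single v r : LP R d) = r • single v 1 := by
  rw [AddMonoidAlgebra.smul_single', mul_one]

theorem cpfin_mem_of_supp {R : Type} [CommRing R] {d : ℕ} (W : Submodule R (LP R d))
    {T : Set (Lat d)} (hT : ∀ v ∈ T, (single v 1 : LP R d) ∈ W) {z : LP R d} (hz : Supp T z) :
    z ∈ W := by
  rw [cpfin_sum_single z]
  refine W.sum_mem fun v hv => ?_
  rw [cpfin_single_smul]
  exact W.smul_mem _ (hT v (hz v (Finsupp.mem_support_iff.1 hv)))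

/-- the part of degree `D` -/
noncomputable def cpfin_part {R : Type} [CommRing R] {d : ℕ} (δ : Lat d) (D : ℤ)
    (z : LP R d) : LP R d :=
  dg (fun u => if dt δ u = D then 1 else 0) z

theorem cpfin_part_supp {R : Type} [CommRing R] {d : ℕ} (δ : Lat d) (D : ℤ)
    {T : Set (Lat d)} {z : LP R d} (hz : Supp T z) :
    Supp {u | u ∈ T ∧ dt δ u = D} (cpfin_part δ D z) := by
  intro u hu
  rw [cpfin_part, dg_coeff] at hu
  by_cases h : dt δ u = D
  · refine ⟨hz u fun h0 => hu (by rw [h0, mul_zero]), h⟩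
  · rw [if_neg h, zero_mul] at hu
    exact absurd rfl hu

theorem cpfin_part_add {R : Type} [CommRing R] {d : ℕ} (δ : Lat d) (D : ℤ) (x y : LP R d) :
    cpfin_part δ D (x + y) = cpfin_part δ D x + cpfin_part δ D y := by
  apply lp_ext
  intro u
  simp only [cpfin_part, dg_coeff, coeff_add', mul_add]

theorem cpfin_part_zero {R : Type} [CommRing R] {d : ℕ} (δ : Lat d) (D : ℤ) :
    cpfin_part δ D (0 : LP R d) = 0 := by
  apply lp_ext
  intro u
  simp only [cpfin_part, dg_coeff, coeff_zero', mul_zero]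

theorem cpfin_part_sum {R : Type} [CommRing R] {d : ℕ} (δ : Lat d) (D : ℤ) {α : Type*}
    (s : Finset α) (f : α → LP R d) :
    cpfin_part δ D (∑ i ∈ s, f i) = ∑ i ∈ s, cpfin_part δ D (f i) := by
  classical
  induction s using Finset.induction_on with
  | empty => simp [cpfin_part_zero]
  | insert a s ha ih => rw [sum_insert ha, sum_insert ha, cpfin_part_add, ih]

theorem cpfin_part_single_mul {R : Type} [CommRing R] {d : ℕ} (δ : Lat d) (D e : ℤ)
    (v : Lat d) (hv : dt δ v = e) (r : R) (z : LP R d) :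
    cpfin_part δ (D + e) (single v r * z) = single v r * cpfin_part δ D z := by
  apply lp_ext
  intro u
  rw [cpfin_part, dg_coeff, single_mul_coeff, single_mul_coeff, cpfin_part, dg_coeff]
  have h1 : (dt δ u = D + e) ↔ (dt δ (u - v) = D) := by
    rw [dt_sub, hv]
    constructor <;> intro h <;> linarith
  by_cases h : dt δ (u - v) = D
  · rw [if_pos h, if_pos (h1.2 h)]
    ring
  · rw [if_neg h, if_neg (fun h' => h (h1.1 h'))]
    ring

theorem cpfin_part_mul {R : Type} [CommRing R] {d : ℕ} (δ : Lat d) (D e : ℤ)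
    {y : LP R d} (hy : Supp {u | dt δ u = e} y) (z : LP R d) :
    cpfin_part δ (D + e) (y * z) = y * cpfin_part δ D z := by
  conv_lhs => rw [cpfin_sum_single y, sum_mul, cpfin_part_sum]
  conv_rhs => rw [cpfin_sum_single y, sum_mul]
  refine sum_congr rfl fun v hv => ?_
  exact cpfin_part_single_mul δ D e v (hy v (Finsupp.mem_support_iff.1 hv)) _ _

/-- the combinations of the `x^u`, `u ∈ B`, with coefficients in `k[g]` -/
noncomputable def cpfin_W {k : Type} [Field k] {d : ℕ} {r : ℕ} (g : Fin r → LP k d)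
    (B : Finset (Lat d)) : Submodule k (LP k d) where
  carrier := {z | ∃ Q : Lat d → MvPolynomial (Fin r) k,
        z = ∑ u ∈ B, MvPolynomial.aeval g (Q u) * single u 1}
  add_mem' := by
    rintro x y ⟨P, rfl⟩ ⟨Q, rfl⟩
    refine ⟨fun u => P u + Q u, ?_⟩
    simp only [map_add, add_mul, sum_add_distrib]
  zero_mem' := ⟨fun _ => 0, by simp⟩
  smul_mem' := by
    rintro c x ⟨P, rfl⟩
    refine ⟨fun u => c • P u, ?_⟩
    simp only [map_smul, smul_mul_assoc, smul_sum]

theorem cpfin_W_mul {k : Type} [Field k] {d : ℕ} {r : ℕ} (g : Fin r → LP k d)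
    (B : Finset (Lat d)) (j : Fin r) {z : LP k d} (hz : z ∈ cpfin_W g B) :
    g j * z ∈ cpfin_W g B := by
  obtain ⟨P, rfl⟩ := hz
  refine ⟨fun u => MvPolynomial.X j * P u, ?_⟩
  simp only [map_mul, MvPolynomial.aeval_X, mul_assoc, mul_sum]

theorem cpfin_W_base {k : Type} [Field k] {d : ℕ} {r : ℕ} (g : Fin r → LP k d)
    (B : Finset (Lat d)) {u : Lat d} (hu : u ∈ B) :
    (single u 1 : LP k d) ∈ cpfin_W g B := by
  classical
  refine ⟨fun v => if v = u then 1 else 0, ?_⟩
  rw [Finset.sum_eq_single u]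
  · simp
  · intro b _ hb
    simp [hb]
  · intro h
    exact absurd hu h

/-- CPFIN -/
theorem cp_fin {k : Type} [Field k] {d : ℕ} {κ : Type} [Fintype κ] (h : κ → Lat d) (δ : Lat d)
    (hpos : ∀ u ∈ Sset h, u ≠ 0 → 0 < dt δ u) {r : ℕ} (e : ℤ) (he : 0 < e) (g : Fin r → LP k d)
    (hg : ∀ i, Supp {u | u ∈ Sset h ∧ dt δ u = e} (g i))
    (hfl : ∀ u ∈ Sset h, u ≠ 0 → ∃ (N : ℕ) (z : Fin r → LP k d), (∀ j, Supp (Sset h) (z j)) ∧
      (single (N • u) 1 : LP k d) = ∑ j, g j * z j) :
    ∃ B : Finset (Lat d), (∀ u ∈ B, u ∈ Sset h) ∧ ∀ z : LP k d, Supp (Sset h) z →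
      ∃ Q : Lat d → MvPolynomial (Fin r) k,
        z = ∑ u ∈ B, MvPolynomial.aeval g (Q u) * single u 1 := by
  classical
  obtain ⟨G, hG, hGen⟩ := sfg h δ hpos
  have hnn : ∀ u ∈ Sset h, 0 ≤ dt δ u := by
    intro u hu
    by_cases h0 : u = 0
    · rw [h0, dt_zero]
    · exact (hpos u hu h0).le
  have hchoice : ∀ s : Lat d, ∃ (N : ℕ) (z : Fin r → LP k d), s ∈ G →
      (∀ j, Supp {u | u ∈ Sset h ∧ dt δ u = N * dt δ s - e} (z j)) ∧
      (single (N • s) 1 : LP k d) = ∑ j, g j * z j := by
    intro s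
    by_cases hs : s ∈ G
    · obtain ⟨N, z, hz, hzs⟩ := hfl s (hG s hs).1 (hG s hs).2
      refine ⟨N, fun j => cpfin_part δ (N * dt δ s - e) (z j), fun _ => ⟨fun j => ?_, ?_⟩⟩
      · exact cpfin_part_supp δ _ (hz j)
      · have h1 : ∀ j, g j * cpfin_part δ (N * dt δ s - e) (z j) =
            cpfin_part δ (N * dt δ s) (g j * z j) := by
          intro j
          have h2 := cpfin_part_mul δ (N * dt δ s - e) e ((hg j).mono (fun u hu => hu.2)) (z j)
          rw [sub_add_cancel] at h2
          exact h2.symm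
        rw [sum_congr rfl (fun j _ => h1 j), ← cpfin_part_sum, ← hzs]
        apply lp_ext
        intro u
        rw [cpfin_part, dg_coeff, coeff_single']
        by_cases hu : u = N • s
        · rw [if_pos hu, hu, dt_nsmul, if_pos rfl, one_mul]
        · rw [if_neg hu, mul_zero]
    · exact ⟨0, fun _ => 0, fun h' => absurd h' hs⟩
  choose N Z hNZ using hchoice
  set M : ℤ := ∑ s ∈ G, (N s : ℤ) * dt δ s with hM
  have hfin := sfin h δ hpos M
  refine ⟨hfin.toFinset, fun u hu => (hfin.mem_toFinset.1 hu).1, ?_⟩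
  have key : ∀ n : ℕ, ∀ u ∈ Sset h, (dt δ u).toNat = n →
      (single u 1 : LP k d) ∈ cpfin_W g hfin.toFinset := by
    intro n
    induction n using Nat.strong_induction_on with
    | _ n ih =>
    intro u hu hun
    by_cases hle : dt δ u ≤ M
    · exact cpfin_W_base g _ (hfin.mem_toFinset.2 ⟨hu, hle⟩)
    · push Not at hle
      obtain ⟨m, hm⟩ := hGen u hu
      have hex : ∃ s ∈ G, N s ≤ m s := by
        by_contra hcon
        push Not at hcon
        have h1 : dt δ u ≤ M := by
          conv_lhs => rw [hm, dt_sum]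
          rw [hM]
          refine sum_le_sum fun s hs => ?_
          rw [dt_nsmul]
          have h2 : (m s : ℤ) ≤ N s := by exact_mod_cast (hcon s hs).le
          exact mul_le_mul_of_nonneg_right h2 (hnn s (hG s hs).1)
        linarith
      obtain ⟨s, hs, hNm⟩ := hex
      obtain ⟨hZ1, hZ2⟩ := hNZ s hs
      have hu' : u = N s • s + (u - N s • s) := by abel
      have hmem : u - N s • s ∈ Sset h := by
        have h1 : u - N s • s = (m s - N s) • s + ∑ t ∈ G.erase s, m t • t := by
          conv_lhs => rw [hm, ← Finset.add_sum_erase G _ hs]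
          have h2 : m s • s = (m s - N s) • s + N s • s := by
            rw [← add_smul, Nat.sub_add_cancel hNm]
          rw [h2]
          abel
        rw [h1]
        intro v
        rw [dt_add, dt_nsmul, dt_sum]
        refine add_nonneg (mul_nonneg (by positivity) ((hG s hs).1 v)) ?_
        refine sum_nonneg fun t ht => ?_
        rw [dt_nsmul]
        exact mul_nonneg (by positivity) ((hG t (Finset.mem_of_mem_erase ht)).1 v)
      have hprod : (single u 1 : LP k d) = ∑ j, g j * (single (u - N s • s) 1 * Z s j) := by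
        have h1 : (single u 1 : LP k d) = single (N s • s) 1 * single (u - N s • s) 1 := by
          rw [AddMonoidAlgebra.single_mul_single, mul_one, ← hu']
        rw [h1, hZ2, sum_mul]
        refine sum_congr rfl fun j _ => ?_
        ring
      rw [hprod]
      refine Submodule.sum_mem _ fun j _ => cpfin_W_mul g _ j ?_
      have hsupp : Supp {v | v ∈ Sset h ∧ dt δ v = dt δ u - e}
          (single (u - N s • s) 1 * Z s j) := by
        intro v hv
        rw [single_mul_coeff, one_mul] at hv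
        obtain ⟨h1, h2⟩ := hZ1 j _ hv
        have h3 : v = (v - (u - N s • s)) + (u - N s • s) := by abel
        refine ⟨?_, ?_⟩
        · rw [h3]
          intro w
          rw [dt_add]
          exact add_nonneg (h1 w) (hmem w)
        · rw [h3, dt_add, h2, dt_sub, dt_nsmul]
          ring
      refine cpfin_mem_of_supp _ ?_ hsupp
      rintro v ⟨hv1, hv2⟩
      refine ih (dt δ v).toNat ?_ v hv1 rfl
      have h1 := hnn v hv1
      have h2 := hnn u hu
      omega
  intro z hz
  exact cpfin_mem_of_supp (cpfin_W g hfin.toFinset) (fun v hv => key _ v hv rfl) hz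

end Pool.Agent.H56.SMC

end S_CPFIN

section S_CPFREE

/-!
# CPFREE: a free submodule of `k[S]` over `k[g]` with torsion cokernel

Proof.  `B` from `cp_fin`.  Choose a maximal subset `E ⊆ B` such that the monomials `x^u`, `u ∈ E`, are linearly independent over `A = k[g]`
(`≅ MvPolynomial (Fin r) k` by `halg`).  For every `u ∈ B` outside `E` there is `c_u ∈ A`, `c_u ≠ 0` with `c_u x^u ∈ ∑_{E} A x^{u'}` (a nontrivial relation must involve
`x^u` with nonzero coefficient).  `c = ∏ c_u`.  Then `c z ∈ ∑_E A x^{u'}` for all `z`.  `m = |E|`.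
-/

set_option autoImplicit false

namespace Pool.Agent.H56.SMC

open Finset AddMonoidAlgebra

/-- the abstract statement: a finite family in a module over a domain contains a maximal independent family -/
theorem cpfree_abs {A M : Type} [CommRing A] [IsDomain A] [AddCommGroup M] [Module A M]
    {β : Type} [Fintype β] (v : β → M) :
    ∃ (c : A) (m : ℕ) (i : Fin m → β), c ≠ 0 ∧ LinearIndependent A (fun x => v (i x)) ∧
      ∀ z ∈ Submodule.span A (Set.range v), c • z ∈ Submodule.span A (Set.range fun x => v (i x)) := by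
  classical
  obtain ⟨s, hs, hmax⟩ := exists_maximal_linearIndepOn A v
  have hc : ∀ i, ∃ a : A, a ≠ 0 ∧ a • v i ∈ Submodule.span A (v '' s) := by
    intro i
    by_cases hi : i ∈ s
    · exact ⟨1, one_ne_zero, by
        rw [one_smul]
        exact Submodule.subset_span (Set.mem_image_of_mem v hi)⟩
    · exact hmax i hi
  choose a ha0 ha using hc
  let e : Fin (Fintype.card s) ≃ s := (Fintype.equivFin s).symm
  have hrange : (Set.range fun x => v (e x : β)) = v '' s := by
    ext y
    constructor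
    · rintro ⟨x, rfl⟩
      exact ⟨e x, (e x).2, rfl⟩
    · rintro ⟨i, hi, rfl⟩
      exact ⟨e.symm ⟨i, hi⟩, by simp⟩
  refine ⟨∏ i, a i, Fintype.card s, fun x => (e x : β), Finset.prod_ne_zero_iff.2 fun i _ => ha0 i,
    ?_, ?_⟩
  · exact (LinearIndependent.comp hs e e.injective)
  · intro z hz
    rw [hrange]
    induction hz using Submodule.span_induction with
    | mem x hx =>
      obtain ⟨i, rfl⟩ := hx
      rw [← Finset.prod_erase_mul _ _ (Finset.mem_univ i), mul_smul]
      exact Submodule.smul_mem _ _ (ha i)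
    | zero =>
      rw [smul_zero]
      exact Submodule.zero_mem _
    | add x y _ _ hx hy =>
      rw [smul_add]
      exact Submodule.add_mem _ hx hy
    | smul r x _ hx =>
      rw [smul_comm]
      exact Submodule.smul_mem _ _ hx

/-- CPFREE -/
theorem cp_free {k : Type} [Field k] {d : ℕ} {κ : Type} [Fintype κ] (h : κ → Lat d) (δ : Lat d)
    (hpos : ∀ u ∈ Sset h, u ≠ 0 → 0 < dt δ u) {r : ℕ} (e : ℤ) (he : 0 < e) (g : Fin r → LP k d)
    (hg : ∀ i, Supp {u | u ∈ Sset h ∧ dt δ u = e} (g i))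
    (hfl : ∀ u ∈ Sset h, u ≠ 0 → ∃ (N : ℕ) (z : Fin r → LP k d), (∀ j, Supp (Sset h) (z j)) ∧
      (single (N • u) 1 : LP k d) = ∑ j, g j * z j)
    (halg : AlgebraicIndependent k g) :
    ∃ (c : MvPolynomial (Fin r) k) (m : ℕ) (b : Fin m → LP k d), c ≠ 0 ∧
      (∀ i, Supp (Sset h) (b i)) ∧
      (∀ Q : Fin m → MvPolynomial (Fin r) k,
        ∑ i, MvPolynomial.aeval g (Q i) * b i = 0 → ∀ i, Q i = 0) ∧
      ∀ z : LP k d, Supp (Sset h) z → ∃ Q : Fin m → MvPolynomial (Fin r) k,
        MvPolynomial.aeval g c * z = ∑ i, MvPolynomial.aeval g (Q i) * b i := by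
  classical
  obtain ⟨B, hB, hfin⟩ := cp_fin h δ hpos e he g hg hfl
  let _ : Module (MvPolynomial (Fin r) k) (LP k d) :=
    Module.compHom (LP k d) (MvPolynomial.aeval g : MvPolynomial (Fin r) k →ₐ[k] LP k d).toRingHom
  have hsmul : ∀ (Q : MvPolynomial (Fin r) k) (z : LP k d), Q • z = MvPolynomial.aeval g Q * z :=
    fun Q z => rfl
  obtain ⟨c, m, i, hc, hind, hspan⟩ := cpfree_abs (A := MvPolynomial (Fin r) k)
    (fun u : B => (single (u : Lat d) 1 : LP k d))
  refine ⟨c, m, fun x => single (i x : Lat d) 1, hc, fun x => Supp.single (hB _ (i x).2) 1, ?_, ?_⟩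
  · intro Q hQ
    exact Fintype.linearIndependent_iff.1 hind Q hQ
  · intro z hz
    obtain ⟨Q, hQ⟩ := hfin z hz
    have h1 : z ∈ Submodule.span (MvPolynomial (Fin r) k)
        (Set.range fun u : B => (single (u : Lat d) 1 : LP k d)) := by
      rw [hQ]
      refine Submodule.sum_mem _ fun u hu => ?_
      rw [← hsmul]
      exact Submodule.smul_mem _ _ (Submodule.subset_span ⟨⟨u, hu⟩, rfl⟩)
    obtain ⟨Q', hQ'⟩ := (Submodule.mem_span_range_iff_exists_fun _).1 (hspan z h1)
    exact ⟨Q', hQ'.symm⟩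

end Pool.Agent.H56.SMC

end S_CPFREE

section S_CPALG

/-!
# CPALG: `g_1,…,g_r` are algebraically independent

Proof.  Let `R` be the subalgebra of all `z` with `Supp (Sset h) z` (a domain: `LP k d` is a domain, `ℤ^d` has unique products).
The monomials `x^{s_1},…,x^{s_r}` are algebraically independent (a monomial in them is `x^{∑ n_i s_i}`, different for different `n`), so the
transcendence degree of `R` is `≥ r`.  By `cp_fin` `R` is a finitely generated module over `k[g_1,…,g_r]`, hence integral, hence algebraic over `k[g]`; so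
some subset of `{g_1,…,g_r}` is a transcendence basis of `R` (`exists_isTranscendenceBasis_subset`), it must have `≥ r` elements
(`Algebra.trdeg`, `IsTranscendenceBasis.cardinalMk_eq`), so it is everything, `g` is injective and algebraically independent.
Alternative: counting.  If `Q(g) = 0`, `Q ≠ 0` of degree `q`, then the space of values of polynomials in `g` of degree `≤ N` has dimension `O(N^{r-1})`, so the
space of `z` of degree `≤ N` has dimension `O(N^{r-1})`, but it contains the `≥ (N/D)^r/..` monomials `x^{∑ n_i s_i}`.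
-/

set_option autoImplicit false

namespace Pool.Agent.H56.SMC

open Finset AddMonoidAlgebra

theorem cpalg_supp_mul {R : Type} [CommRing R] {d : ℕ} {S : Set (Lat d)}
    (hS : ∀ u ∈ S, ∀ v ∈ S, u + v ∈ S) {x y : LP R d} (hx : Supp S x) (hy : Supp S y) :
    Supp S (x * y) := by
  rw [← sum_coeff_single x, Finsupp.sum, sum_mul]
  refine Supp.sum _ fun u hu => ?_
  intro w hw
  rw [single_mul_coeff] at hw
  have h1 : y.coeff (w - u) ≠ 0 := fun h0 => hw (by rw [h0, mul_zero])
  have h2 := hS u (hx u (Finsupp.mem_support_iff.1 hu)) _ (hy _ h1)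
  rwa [add_sub_cancel] at h2

/-- the algebra of the Laurent polynomials supported in the cone -/
def cpalgR (k : Type) [Field k] {d : ℕ} {κ : Type} (h : κ → Lat d) : Subalgebra k (LP k d) where
  carrier := {z | Supp (Sset h) z}
  mul_mem' := by
    intro x y hx hy
    refine cpalg_supp_mul ?_ hx hy
    intro u hu v hv w
    rw [dt_add]
    exact add_nonneg (hu w) (hv w)
  add_mem' := fun hx hy => hx.add hy
  algebraMap_mem' := by
    intro r
    refine Supp.single (S := Sset h) (v := 0) ?_ r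
    intro w
    rw [dt_zero]

/-- monomials with independent exponents are algebraically independent -/
theorem cpalg_mono {k : Type} [Field k] {d r : ℕ} (s : Fin r → Lat d)
    (hind : LinearIndependent ℤ s) :
    AlgebraicIndependent k (fun i => (single (s i) 1 : LP k d)) := by
  rw [algebraicIndependent_iff]
  intro p hp
  have hmon : ∀ n : Fin r →₀ ℕ, MvPolynomial.aeval (fun i => (single (s i) 1 : LP k d))
      (MvPolynomial.monomial n (1 : k)) = single (∑ i, n i • s i) 1 := by
    intro n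
    rw [MvPolynomial.aeval_monomial, map_one, one_mul, Finsupp.prod_fintype _ _ (by simp)]
    have h1 : ∀ i, (single (s i) 1 : LP k d) ^ n i = single (n i • s i) 1 := by
      intro i
      rw [single_pow, one_pow]
    simp only [h1]
    induction (Finset.univ : Finset (Fin r)) using Finset.induction_on with
    | empty => simp [one_def]
    | insert a t ha ih => rw [prod_insert ha, sum_insert ha, ih, single_mul_single, one_mul]
  have hinj : ∀ n m : Fin r →₀ ℕ, ∑ i, n i • s i = ∑ i, m i • s i → n = m := by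
    intro n m hnm
    have h1 := Fintype.linearIndependent_iff.1 hind (fun i => (n i : ℤ) - (m i : ℤ)) (by
      simp only [sub_smul, sum_sub_distrib, Nat.cast_smul_eq_nsmul]
      rw [hnm, sub_self])
    ext i
    have := h1 i
    omega
  ext n
  rw [MvPolynomial.coeff_zero]
  have h2 : (MvPolynomial.aeval (fun i => (single (s i) 1 : LP k d)) p).coeff (∑ i, n i • s i) = 0 := by
    rw [hp]
    rfl
  rw [p.as_sum, map_sum (MvPolynomial.aeval (fun i => (single (s i) 1 : LP k d))), coeff_finsum] at h2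
  rw [Finset.sum_eq_single n] at h2
  · have h3 : MvPolynomial.monomial n (p.coeff n) = (p.coeff n) • MvPolynomial.monomial n (1 : k) := by
      rw [MvPolynomial.smul_monomial, smul_eq_mul, mul_one]
    rw [h3, map_smul, coeff_smul', hmon, coeff_single', if_pos rfl, mul_one] at h2
    exact h2
  · intro m _ hm
    have h3 : MvPolynomial.monomial m (p.coeff m) = (p.coeff m) • MvPolynomial.monomial m (1 : k) := by
      rw [MvPolynomial.smul_monomial, smul_eq_mul, mul_one]
    rw [h3, map_smul, coeff_smul', hmon, coeff_single', if_neg, mul_zero]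
    intro h4
    exact hm (hinj _ _ h4).symm
  · intro hn
    rw [MvPolynomial.notMem_support_iff.1 hn]
    simp

/-- CPALG -/
theorem cp_alg {k : Type} [Field k] {d : ℕ} {κ : Type} [Fintype κ] (h : κ → Lat d) (δ : Lat d)
    (hpos : ∀ u ∈ Sset h, u ≠ 0 → 0 < dt δ u) {r : ℕ} (e : ℤ) (he : 0 < e) (g : Fin r → LP k d)
    (hg : ∀ i, Supp {u | u ∈ Sset h ∧ dt δ u = e} (g i))
    (hfl : ∀ u ∈ Sset h, u ≠ 0 → ∃ (N : ℕ) (z : Fin r → LP k d), (∀ j, Supp (Sset h) (z j)) ∧
      (single (N • u) 1 : LP k d) = ∑ j, g j * z j)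
    (s : Fin r → Lat d) (hs : ∀ i, s i ∈ Sset h) (hind : LinearIndependent ℤ s) :
    AlgebraicIndependent k g := by
  classical
  obtain ⟨B, hB, hfin⟩ := cp_fin h δ hpos e he g hg hfl
  have : IsDomain (LP k d) := inferInstance
  -- the elements in the subalgebra
  have hgR : ∀ i, g i ∈ cpalgR k h := fun i => (hg i).mono fun u hu => hu.1
  let g' : Fin r → cpalgR k h := fun i => ⟨g i, hgR i⟩
  have hgg' : g = (cpalgR k h).val ∘ g' := rfl
  let t : Fin r → cpalgR k h := fun i => ⟨single (s i) 1, Supp.single (hs i) 1⟩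
  have ht : AlgebraicIndependent k t := by
    have h1 : AlgebraicIndependent k ((cpalgR k h).val ∘ t) := cpalg_mono s hind
    exact h1.of_comp _
  -- finiteness
  have hfg : Module.Finite (Algebra.adjoin k (Set.range g')) (cpalgR k h) := by
    refine ⟨⟨B.attach.image fun u : {x // x ∈ B} => (⟨single (u : Lat d) 1,
      Supp.single (hB _ u.2) 1⟩ : cpalgR k h), ?_⟩⟩
    rw [eq_top_iff]
    rintro z -
    obtain ⟨Q, hQ⟩ := hfin z z.2
    have h2 : z = ∑ u : B, MvPolynomial.aeval g' (Q u) * ⟨single (u : Lat d) 1,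
        Supp.single (hB _ u.2) 1⟩ := by
      apply Subtype.ext
      rw [hQ, AddSubmonoidClass.coe_finsetSum, ← Finset.sum_coe_sort]
      refine Finset.sum_congr rfl fun u _ => ?_
      rw [MulMemClass.coe_mul]
      congr 1
      have h3 : ((cpalgR k h).val : cpalgR k h →ₐ[k] LP k d) (MvPolynomial.aeval g' (Q u)) =
          MvPolynomial.aeval g (Q u) := by
        exact MvPolynomial.comp_aeval_apply (φ := (cpalgR k h).val) (f := g') (Q u)
      exact h3.symm
    rw [h2]
    refine Submodule.sum_mem _ fun u _ => ?_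
    have h4 : MvPolynomial.aeval g' (Q u) ∈ Algebra.adjoin k (Set.range g') := by
      rw [Algebra.adjoin_range_eq_range_aeval]
      exact ⟨Q u, rfl⟩
    have h5 : MvPolynomial.aeval g' (Q u) * (⟨single (u : Lat d) 1,
        Supp.single (hB _ u.2) 1⟩ : cpalgR k h) =
        (⟨MvPolynomial.aeval g' (Q u), h4⟩ : Algebra.adjoin k (Set.range g')) •
          (⟨single (u : Lat d) 1, Supp.single (hB _ u.2) 1⟩ : cpalgR k h) := rfl
    rw [h5]
    refine Submodule.smul_mem _ _ (Submodule.subset_span ?_)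
    rw [Finset.coe_image]
    exact ⟨u, by simp, rfl⟩
  have halg : Algebra.IsAlgebraic (Algebra.adjoin k (Set.range g')) (cpalgR k h) :=
    Algebra.IsIntegral.isAlgebraic
  have htr : Cardinal.mk (Fin r) ≤ Algebra.trdeg k (cpalgR k h) := ht.cardinalMk_le_trdeg
  have hbas := Algebra.IsAlgebraic.isTranscendenceBasis_of_le_trdeg_of_finite k g' htr
  exact hbas.1.map' (f := (cpalgR k h).val) Subtype.val_injective

end Pool.Agent.H56.SMC

end S_CPALG

section S_CPCOL

/-!
# CPCOL: colon capturing in characteristic `p`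

Proof.  Let `c0`, `b_i` be as in `cp_free`, `c = aeval g c0` (nonzero: `halg`).  Let `g_m z = ∑_{i<m} g_i x_i`.  Raise to the power `q = p^e`
(Frobenius, commutative ring of characteristic `p`): `g_m^q z^q = ∑_{i<m} g_i^q x_i^q`; multiply by `c`: `g_m^q (c z^q) = ∑ g_i^q (c x_i^q)`.
Write `c z^q = ∑_l aeval g (Q_l) b_l`, `c x_i^q = ∑_l aeval g (Q_{i,l}) b_l`.  Independence of the `b_l`:
`X_m^q Q_l = ∑_{i<m} X_i^q Q_{i,l}` in `MvPolynomial (Fin r) k`.  Hence `Q_l ∈ (X_i^q : i < m)`: every monomial `μ` of `Q_l` has `μ_i ≥ q` for some `i < m`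
(look at the coefficient of `X_m^q X^μ`), `Q_l = ∑_{i<m} X_i^q P_{i,l}`.  So `c z^q = ∑_{i<m} g_i^q y_i` with `y_i = ∑_l aeval g (P_{i,l}) b_l`.
-/

set_option autoImplicit false

namespace Pool.Agent.H56.SMC

open Finset AddMonoidAlgebra

private theorem cpcol_add_mem {d : ℕ} {κ : Type} (h : κ → Lat d) {u v : Lat d}
    (hu : u ∈ Sset h) (hv : v ∈ Sset h) : u + v ∈ Sset h := by
  intro w
  rw [dt_add]
  exact add_nonneg (hu w) (hv w)

private theorem cpcol_zero_mem {d : ℕ} {κ : Type} (h : κ → Lat d) : (0 : Lat d) ∈ Sset h := by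
  intro w
  rw [dt_zero]

private theorem cpcol_sum_single {k : Type} [Field k] {d : ℕ} (x : LP k d) :
    x = ∑ u ∈ x.coeff.support, single u (x.coeff u) := by
  classical
  apply lp_ext
  intro v
  rw [coeff_finsum]
  simp only [coeff_single']
  rw [sum_ite_eq]
  split_ifs with hv
  · rfl
  · simpa using hv

private theorem cpcol_mul {k : Type} [Field k] {d : ℕ} {κ : Type} (h : κ → Lat d)
    {x y : LP k d} (hx : Supp (Sset h) x) (hy : Supp (Sset h) y) : Supp (Sset h) (x * y) := by
  rw [cpcol_sum_single x, sum_mul]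
  refine Supp.sum _ fun u hu => ?_
  have hu' : u ∈ Sset h := hx u (by simpa using hu)
  intro v hv
  rw [single_mul_coeff] at hv
  have h1 : y.coeff (v - u) ≠ 0 := fun h0 => hv (by rw [h0, mul_zero])
  have h2 := cpcol_add_mem h (hy _ h1) hu'
  rwa [sub_add_cancel] at h2

private theorem cpcol_one {k : Type} [Field k] {d : ℕ} {κ : Type} (h : κ → Lat d) :
    Supp (Sset h) (1 : LP k d) := by
  rw [AddMonoidAlgebra.one_def]
  exact Supp.single (cpcol_zero_mem h) 1

private theorem cpcol_pow {k : Type} [Field k] {d : ℕ} {κ : Type} (h : κ → Lat d)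
    {x : LP k d} (hx : Supp (Sset h) x) (n : ℕ) : Supp (Sset h) (x ^ n) := by
  induction n with
  | zero => rw [pow_zero]; exact cpcol_one h
  | succ n ih => rw [pow_succ]; exact cpcol_mul h ih hx

private theorem cpcol_aeval {k : Type} [Field k] {d : ℕ} {κ : Type} (h : κ → Lat d) {r : ℕ}
    (g : Fin r → LP k d) (hg : ∀ i, Supp (Sset h) (g i)) (P : MvPolynomial (Fin r) k) :
    Supp (Sset h) (MvPolynomial.aeval g P) := by
  induction P using MvPolynomial.induction_on with
  | C a =>
    rw [MvPolynomial.aeval_C, Algebra.algebraMap_eq_smul_one]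
    exact (cpcol_one h).smul a
  | add p q hp hq => rw [map_add]; exact hp.add hq
  | mul_X p i hp => rw [map_mul, MvPolynomial.aeval_X]; exact cpcol_mul h hp (hg i)

private theorem cpcol_ideal {k : Type} [Field k] {r : ℕ} (m : Fin r) (q : ℕ)
    (Q : MvPolynomial (Fin r) k) (Qi : Fin r → MvPolynomial (Fin r) k)
    (H : MvPolynomial.X m ^ q * Q = ∑ i with i < m, MvPolynomial.X i ^ q * Qi i) :
    ∃ P : Fin r → MvPolynomial (Fin r) k, Q = ∑ i with i < m, MvPolynomial.X i ^ q * P i := by
  classical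
  have hset : ((fun s => MvPolynomial.monomial s (1 : k)) ''
      ((fun i : Fin r => Finsupp.single i q) '' ((univ.filter fun i => i < m : Finset (Fin r)) : Set (Fin r)))) =
      ((fun i : Fin r => (MvPolynomial.X i : MvPolynomial (Fin r) k) ^ q) ''
        ((univ.filter fun i => i < m : Finset (Fin r)) : Set (Fin r))) := by
    rw [Set.image_image]
    refine Set.image_congr fun i _ => ?_
    rw [MvPolynomial.X_pow_eq_monomial]
  have h1 : MvPolynomial.X m ^ q * Q ∈ Ideal.span ((fun i : Fin r =>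
      (MvPolynomial.X i : MvPolynomial (Fin r) k) ^ q) ''
        ((univ.filter fun i => i < m : Finset (Fin r)) : Set (Fin r))) := by
    rw [H]
    refine Ideal.sum_mem _ fun i hi => Ideal.mul_mem_right _ _ (Ideal.subset_span ?_)
    exact ⟨i, by simpa using hi, rfl⟩
  rw [← hset, MvPolynomial.mem_ideal_span_monomial_image] at h1
  have h2 : Q ∈ Ideal.span ((fun i : Fin r =>
      (MvPolynomial.X i : MvPolynomial (Fin r) k) ^ q) ''
        ((univ.filter fun i => i < m : Finset (Fin r)) : Set (Fin r))) := by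
    rw [← hset, MvPolynomial.mem_ideal_span_monomial_image]
    intro μ hμ
    have h3 : μ + Finsupp.single m q ∈ (MvPolynomial.X m ^ q * Q).support := by
      rw [MvPolynomial.mem_support_iff, MvPolynomial.X_pow_eq_monomial, add_comm,
        MvPolynomial.coeff_monomial_mul, one_mul]
      exact MvPolynomial.mem_support_iff.mp hμ
    obtain ⟨si, ⟨i, hi, rfl⟩, hle⟩ := h1 _ h3
    refine ⟨_, ⟨i, hi, rfl⟩, ?_⟩
    have hlt : i < m := by simpa using hi
    intro j
    have := hle j
    rw [Finsupp.add_apply] at this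
    by_cases hj : j = i
    · subst hj
      rw [Finsupp.single_eq_of_ne (ne_of_lt hlt)] at this
      simpa using this
    · simp [Finsupp.single_eq_of_ne hj]
  have h4 := (Submodule.mem_span_image_finset_iff_exists_fun' (R := MvPolynomial (Fin r) k)
    (v := fun i : Fin r => (MvPolynomial.X i : MvPolynomial (Fin r) k) ^ q)
    (s := univ.filter fun i => i < m) (x := Q)).mp h2
  obtain ⟨P, hP⟩ := h4
  refine ⟨P, ?_⟩
  rw [← hP]
  exact sum_congr rfl fun i _ => by rw [smul_eq_mul, mul_comm]

/-- CPCOL -/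
theorem cp_col (q0 : ℕ) [Fact q0.Prime] {k : Type} [Field k] [CharP k q0] {d : ℕ} {κ : Type} [Fintype κ] (h : κ → Lat d) (δ : Lat d)
    (hpos : ∀ u ∈ Sset h, u ≠ 0 → 0 < dt δ u) {r : ℕ} (e : ℤ) (he : 0 < e) (g : Fin r → LP k d)
    (hg : ∀ i, Supp {u | u ∈ Sset h ∧ dt δ u = e} (g i))
    (hfl : ∀ u ∈ Sset h, u ≠ 0 → ∃ (N : ℕ) (z : Fin r → LP k d), (∀ j, Supp (Sset h) (z j)) ∧
      (single (N • u) 1 : LP k d) = ∑ j, g j * z j)
    (s : Fin r → Lat d) (hs : ∀ i, s i ∈ Sset h) (hind : LinearIndependent ℤ s) :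
    ∃ c : LP k d, c ≠ 0 ∧ Supp (Sset h) c ∧
      ∀ (m : Fin r) (z : LP k d) (x : Fin r → LP k d), Supp (Sset h) z →
        (∀ i, Supp (Sset h) (x i)) → g m * z = ∑ i with i < m, g i * x i →
        ∀ n : ℕ, ∃ y : Fin r → LP k d, (∀ i, Supp (Sset h) (y i)) ∧
          c * z ^ (q0 ^ n) = ∑ i with i < m, g i ^ (q0 ^ n) * y i := by
  classical
  have halg := cp_alg h δ hpos e he g hg hfl s hs hind
  obtain ⟨c0, M, b, hc0, hb, hbind, hgen⟩ := cp_free h δ hpos e he g hg hfl halg
  have hgS : ∀ i, Supp (Sset h) (g i) := fun i => (hg i).mono fun u hu => hu.1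
  have hchar : CharP (LP k d) q0 :=
    charP_of_injective_algebraMap (FaithfulSMul.algebraMap_injective k (LP k d)) q0
  refine ⟨MvPolynomial.aeval g c0, ?_, cpcol_aeval h g hgS c0, ?_⟩
  · intro h0
    apply hc0
    apply halg
    rw [h0, map_zero]
  intro m z x hz hx hrel n
  obtain ⟨Q, hQ⟩ := hgen (z ^ (q0 ^ n)) (cpcol_pow h hz _)
  choose Qx hQx using fun i => hgen (x i ^ (q0 ^ n)) (cpcol_pow h (hx i) _)
  have hF : g m ^ (q0 ^ n) * z ^ (q0 ^ n) = ∑ i with i < m, g i ^ (q0 ^ n) * x i ^ (q0 ^ n) := by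
    rw [← mul_pow, hrel, sum_pow_char_pow q0 n]
    exact sum_congr rfl fun i _ => mul_pow _ _ _
  have hQl : ∀ l, MvPolynomial.X m ^ (q0 ^ n) * Q l =
      ∑ i with i < m, MvPolynomial.X i ^ (q0 ^ n) * Qx i l := by
    have hz0 : ∑ l, MvPolynomial.aeval g (MvPolynomial.X m ^ (q0 ^ n) * Q l -
        ∑ i with i < m, MvPolynomial.X i ^ (q0 ^ n) * Qx i l) * b l = 0 := by
      have e1 : ∀ l, MvPolynomial.aeval g (MvPolynomial.X m ^ (q0 ^ n) * Q l -
          ∑ i with i < m, MvPolynomial.X i ^ (q0 ^ n) * Qx i l) * b l =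
          g m ^ (q0 ^ n) * (MvPolynomial.aeval g (Q l) * b l) -
            ∑ i with i < m, g i ^ (q0 ^ n) * (MvPolynomial.aeval g (Qx i l) * b l) := by
        intro l
        rw [map_sub, map_mul, map_pow, MvPolynomial.aeval_X, map_sum, sub_mul, sum_mul, mul_assoc]
        congr 1
        refine sum_congr rfl fun i _ => ?_
        rw [map_mul, map_pow, MvPolynomial.aeval_X, mul_assoc]
      rw [sum_congr rfl fun l _ => e1 l, sum_sub_distrib, sum_comm, ← mul_sum, ← hQ]
      simp only [← mul_sum, ← hQx]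
      rw [sub_eq_zero]
      calc g m ^ q0 ^ n * (MvPolynomial.aeval g c0 * z ^ q0 ^ n)
          = MvPolynomial.aeval g c0 * (g m ^ q0 ^ n * z ^ q0 ^ n) := by ring
        _ = _ := by
          rw [hF, mul_sum]
          exact sum_congr rfl fun i _ => by ring
    intro l
    exact sub_eq_zero.mp (hbind _ hz0 l)
  choose P hP using fun l => cpcol_ideal m (q0 ^ n) (Q l) (fun i => Qx i l) (hQl l)
  refine ⟨fun i => ∑ l, MvPolynomial.aeval g (P l i) * b l, fun i => ?_, ?_⟩
  · exact Supp.sum _ fun l _ => cpcol_mul h (cpcol_aeval h g hgS _) (hb l)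
  · rw [hQ]
    simp only [mul_sum]
    rw [sum_comm]
    refine sum_congr rfl fun l _ => ?_
    rw [hP l, map_sum, sum_mul]
    refine sum_congr rfl fun i _ => ?_
    rw [map_mul, map_pow, MvPolynomial.aeval_X, mul_assoc]

end Pool.Agent.H56.SMC

end S_CPCOL

section S_FLNULL

/-!
# FLNULL: Nullstellensatz for `ℂ[S]`

Proof.  Let `R` be the subalgebra of `LP ℂ d` of all `z` supported in `Sset h`; it is a finitely generated `ℂ`-algebra (`sfg`: generated by the `x^s`, `s ∈ G`).  Let `I` be the ideal of `R` generated by the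
`g_i`.  `x^{u0}` is not in the radical of `I` (`hno`).  So there is a maximal ideal `m ⊇ I` with `x^{u0} ∉ m` (`R` is a Jacobson ring, `Ideal.radical_eq_jacobson`), `R/m` is a field finite over `ℂ`
(`finite_of_finite_type_of_isJacobsonRing`), so `R/m = ℂ` (`IsAlgClosed.algebraMap_bijective_of_isIntegral`): an algebra homomorphism `ψ : R → ℂ` with `ψ(g_i) = 0`, `ψ(x^{u0}) ≠ 0`.
`φ u = ψ(x^u)` for `u ∈ Sset h`, `0` otherwise.
-/

set_option autoImplicit false

namespace Pool.Agent.H56.SMC

open Finset AddMonoidAlgebra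

theorem flnull_zero_mem {d : ℕ} {κ : Type} (h : κ → Lat d) : (0 : Lat d) ∈ Sset h := fun v => by
  rw [dt_zero]

theorem flnull_add_mem {d : ℕ} {κ : Type} (h : κ → Lat d) {u v : Lat d} (hu : u ∈ Sset h)
    (hv : v ∈ Sset h) : u + v ∈ Sset h := fun w => by
  rw [dt_add]; exact add_nonneg (hu w) (hv w)

theorem flnull_supp_mul {R : Type} [CommRing R] {d : ℕ} {κ : Type} (h : κ → Lat d) {x y : LP R d}
    (hx : Supp (Sset h) x) (hy : Supp (Sset h) y) : Supp (Sset h) (x * y) := by
  intro w hw
  rw [AddMonoidAlgebra.coeff_mul_apply_left, Finsupp.sum] at hw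
  obtain ⟨u, -, hu⟩ := exists_ne_zero_of_sum_ne_zero hw
  have h1 := hx u (left_ne_zero_of_mul hu)
  have h2 := hy _ (right_ne_zero_of_mul hu)
  have := flnull_add_mem h h1 h2
  rwa [add_neg_cancel_left] at this

/-- The algebra of all Laurent polynomials supported in `Sset h`. -/
noncomputable def flnullAlg {d : ℕ} {κ : Type} (h : κ → Lat d) : Subalgebra ℂ (LP ℂ d) where
  carrier := {z | Supp (Sset h) z}
  mul_mem' := fun hx hy => flnull_supp_mul h hx hy
  add_mem' := fun hx hy => Supp.add hx hy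
  algebraMap_mem' := fun r => by
    have h1 : algebraMap ℂ (LP ℂ d) r = single 0 r := rfl
    show Supp (Sset h) (algebraMap ℂ (LP ℂ d) r)
    rw [h1]
    exact Supp.single (flnull_zero_mem h) r

theorem mem_flnullAlg {d : ℕ} {κ : Type} (h : κ → Lat d) (z : LP ℂ d) :
    z ∈ flnullAlg h ↔ Supp (Sset h) z := Iff.rfl

theorem flnull_sum_single {R : Type} [CommRing R] {d : ℕ} (z : LP R d) :
    z = ∑ u ∈ z.coeff.support, single u (z.coeff u) := by
  have := AddMonoidAlgebra.sum_coeff_single z
  rw [Finsupp.sum] at this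
  exact this.symm

theorem flnull_ft {d : ℕ} {κ : Type} [Fintype κ] (h : κ → Lat d) (δ : Lat d)
    (hpos : ∀ u ∈ Sset h, u ≠ 0 → 0 < dt δ u) : Algebra.FiniteType ℂ (flnullAlg h) := by
  classical
  obtain ⟨G, hG, hgen⟩ := sfg h δ hpos
  have hmem : ∀ s : G, single s.1 (1 : ℂ) ∈ flnullAlg h := fun s =>
    Supp.single (hG s.1 s.2).1 1
  let π : MvPolynomial G ℂ →ₐ[ℂ] flnullAlg h :=
    MvPolynomial.aeval fun s : G => (⟨single s.1 1, hmem s⟩ : flnullAlg h)
  refine Algebra.FiniteType.of_surjective π ?_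
  intro ⟨z, hz⟩
  have key : ∀ u ∈ Sset h, ∀ r : ℂ, ∃ p, ((π p : flnullAlg h) : LP ℂ d) = single u r := by
    intro u hu r
    obtain ⟨n, hn⟩ := hgen u hu
    refine ⟨MvPolynomial.C r * ∏ s : G, MvPolynomial.X s ^ n s.1, ?_⟩
    rw [map_mul, map_prod]
    simp only [map_pow]
    have e1 : ∀ s : G, π (MvPolynomial.X s) = ⟨single s.1 1, hmem s⟩ := fun s =>
      MvPolynomial.aeval_X _ s
    have e2 : π (MvPolynomial.C r) = algebraMap ℂ _ r := MvPolynomial.aeval_C _ r
    simp only [e1, e2]
    rw [Subalgebra.coe_mul, Subalgebra.coe_algebraMap]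
    have e3 : ((∏ s : G, (⟨single s.1 1, hmem s⟩ : flnullAlg h) ^ n s.1 : flnullAlg h) : LP ℂ d) =
        single u 1 := by
      rw [← Subalgebra.coe_val, map_prod]
      simp only [map_pow, Subalgebra.coe_val]
      have e4 : ∀ s : G, (single s.1 (1 : ℂ) : LP ℂ d) ^ n s.1 = single (n s.1 • s.1) 1 := by
        intro s; rw [AddMonoidAlgebra.single_pow, one_pow]
      simp only [e4]
      rw [AddMonoidAlgebra.prod_single]
      rw [prod_const_one]
      congr 1
      rw [hn]
      exact Finset.sum_coe_sort G (fun s => n s • s)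
    rw [e3]
    have e5 : algebraMap ℂ (LP ℂ d) r = single 0 r := rfl
    rw [e5, AddMonoidAlgebra.single_mul_single, zero_add, mul_one]
  have hz' : Supp (Sset h) z := hz
  choose! p hp using fun u (hu : u ∈ Sset h) => key u hu (z.coeff u)
  refine ⟨∑ u ∈ z.coeff.support, p u, ?_⟩
  apply Subtype.ext
  rw [map_sum, ← Subalgebra.coe_val, map_sum]
  simp only [Subalgebra.coe_val]
  conv_rhs => rw [flnull_sum_single z]
  refine sum_congr rfl fun u hu => hp u (hz' u (Finsupp.mem_support_iff.1 hu))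

/-- FLNULL -/
theorem flnull {d : ℕ} {κ : Type} [Fintype κ] (h : κ → Lat d) (δ : Lat d)
    (hpos : ∀ u ∈ Sset h, u ≠ 0 → 0 < dt δ u) {r : ℕ} (g : Fin r → LP ℂ d)
    (hg : ∀ i, Supp (Sset h) (g i)) (u0 : Lat d) (hu0 : u0 ∈ Sset h)
    (hno : ∀ N : ℕ, ¬ ∃ z : Fin r → LP ℂ d, (∀ j, Supp (Sset h) (z j)) ∧
      (single (N • u0) 1 : LP ℂ d) = ∑ j, g j * z j) :
    ∃ φ : Lat d → ℂ, φ 0 = 1 ∧ (∀ u ∈ Sset h, ∀ u' ∈ Sset h, φ (u + u') = φ u * φ u') ∧
      φ u0 ≠ 0 ∧ ∀ i, ∑ u ∈ (g i).coeff.support, (g i).coeff u * φ u = 0 := by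
  classical
  have : Algebra.FiniteType ℂ (flnullAlg h) := flnull_ft h δ hpos
  have : IsJacobsonRing (flnullAlg h) := isJacobsonRing_of_finiteType (A := ℂ)
  let g' : Fin r → flnullAlg h := fun i => ⟨g i, hg i⟩
  let I : Ideal (flnullAlg h) := Ideal.span (Set.range g')
  let e : Lat d → flnullAlg h := fun u =>
    if hu : u ∈ Sset h then ⟨single u 1, Supp.single hu 1⟩ else 0
  have he : ∀ u ∈ Sset h, ((e u : flnullAlg h) : LP ℂ d) = single u 1 := by
    intro u hu
    simp only [e, dif_pos hu]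
  have hrad : e u0 ∉ I.radical := by
    rintro ⟨N, hN⟩
    rw [Ideal.mem_span_range_iff_exists_fun] at hN
    obtain ⟨c, hc⟩ := hN
    refine hno N ⟨fun j => (c j : LP ℂ d), fun j => (c j).2, ?_⟩
    have h1 := congrArg (flnullAlg h).val hc
    rw [map_sum, map_pow] at h1
    simp only [map_mul, Subalgebra.coe_val] at h1
    rw [he u0 hu0, AddMonoidAlgebra.single_pow, one_pow] at h1
    rw [← h1]
    exact sum_congr rfl fun j _ => mul_comm _ _
  rw [Ideal.radical_eq_jacobson, Ideal.jacobson, Ideal.mem_sInf] at hrad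
  push Not at hrad
  obtain ⟨m, ⟨hIm, hmax⟩, hm⟩ := hrad
  have := hmax
  let := Ideal.Quotient.field m
  have : Algebra.FiniteType ℂ (flnullAlg h ⧸ m) :=
    Algebra.FiniteType.of_surjective (Ideal.Quotient.mkₐ ℂ m) (Ideal.Quotient.mkₐ_surjective ℂ m)
  have : Module.Finite ℂ (flnullAlg h ⧸ m) := finite_of_finite_type_of_isJacobsonRing ℂ _
  have hbij : Function.Bijective (algebraMap ℂ (flnullAlg h ⧸ m)) :=
    IsAlgClosed.algebraMap_bijective_of_isIntegral
  let eq : ℂ ≃ₐ[ℂ] (flnullAlg h ⧸ m) := AlgEquiv.ofBijective (Algebra.ofId ℂ _) hbij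
  let ψ : flnullAlg h →ₐ[ℂ] ℂ := (eq.symm : (flnullAlg h ⧸ m) →ₐ[ℂ] ℂ).comp
    (Ideal.Quotient.mkₐ ℂ m)
  have hψ : ∀ x, ψ x = 0 ↔ x ∈ m := by
    intro x
    show eq.symm (Ideal.Quotient.mk m x) = 0 ↔ _
    rw [map_eq_zero_iff _ eq.symm.injective, Ideal.Quotient.eq_zero_iff_mem]
  refine ⟨fun u => ψ (e u), ?_, ?_, ?_, ?_⟩
  · have : e 0 = 1 := by
      apply Subtype.ext
      rw [he 0 (flnull_zero_mem h)]
      rfl
    simp only [this, map_one]
  · intro u hu u' hu'
    have : e (u + u') = e u * e u' := by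
      apply Subtype.ext
      rw [he _ (flnull_add_mem h hu hu'), Subalgebra.coe_mul, he u hu, he u' hu',
        AddMonoidAlgebra.single_mul_single, mul_one]
    simp only [this, map_mul]
  · rw [Ne, hψ]
    exact hm
  · intro i
    have h1 : g' i = ∑ u ∈ (g i).coeff.support, (g i).coeff u • e u := by
      apply Subtype.ext
      rw [← Subalgebra.coe_val, map_sum]
      simp only [map_smul, Subalgebra.coe_val]
      show g i = _
      conv_lhs => rw [flnull_sum_single (g i)]
      refine sum_congr rfl fun u hu => ?_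
      rw [he u (hg i u (Finsupp.mem_support_iff.1 hu)), AddMonoidAlgebra.smul_single, smul_eq_mul,
        mul_one]
    have h2 : ψ (g' i) = 0 := (hψ _).2 (hIm (Ideal.subset_span ⟨i, rfl⟩))
    rw [h1, map_sum] at h2
    simpa only [map_smul, smul_eq_mul] using h2

end Pool.Agent.H56.SMC

end S_FLNULL
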