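import Mathlib
import Pool.Agent.H56.SMC.Basic

/-! Strong monodromy for nondegenerate polynomials, part A3: this file joins the modules CPTIGHT, CPKOS, TRHOM, TRRANK, FLEXT, FLEX. -/

set_option autoImplicit false

section S_CPTIGHT

/-!
# CPTIGHT: normal semigroup rings have no tight closure (splitting of Frobenius adapted to `c`)

Proof.  `c ≠ 0`: choose `α` with `c.coeff α ≠ 0`, `α ∈ Sset h`.  Choose `e` with `q = q0^e` larger than all `dt (h v) α` and larger than
all `|β_j - α_j|`, `β` in the support of `c`.  For `w : LP k d` let `φ(w)` be the element with coefficient at `u` equal to the `q`-th root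
of `w.coeff (α + q • u)` (`k` is perfect, `iterateFrobeniusEquiv` or finiteness).  `φ` is additive, `φ(v^q w) = v φ(w)` (check on
monomials: `v^q = ∑ v_u^q x^{q u}`), `φ` maps elements supported in `Sset h` to elements supported in `Sset h`: if
`α + q u ∈ Sset h` then `q dt (h v) u ≥ -dt (h v) α > -q`, so `dt (h v) u ≥ 0`.  `φ(c)` is the nonzero constant `(c.coeff α)^{1/q}`: if
`α + q u` is in the support of `c` then `|q u_j| < q`, `u = 0`.  Apply `φ` to `c z^q = ∑ g_i^q y_i`: `z φ(c) = ∑ g_i φ(y_i)`.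
-/

set_option autoImplicit false

namespace Pool.Agent.H56.SMC

open Finset AddMonoidAlgebra

namespace CPTIGHTaux

section
variable {k : Type} [Field k] {d : ℕ}

/-- Every Laurent polynomial is a sum of monomials: induction principle. -/
theorem lp_induction {P : LP k d → Prop} (v : LP k d) (h0 : P 0)
    (hadd : ∀ x y, P x → P y → P (x + y)) (hs : ∀ (a : Lat d) (r : k), P (single a r)) : P v := by
  have key : ∀ (n : ℕ) (v : LP k d), v.coeff.support.card = n → P v := by
    intro n
    induction n with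
    | zero =>
      intro v hv
      have : v = 0 := by
        apply lp_ext
        intro u
        rw [Finset.card_eq_zero] at hv
        have : u ∉ v.coeff.support := by rw [hv]; simp
        rw [Finsupp.notMem_support_iff] at this
        rw [this]; rfl
      rw [this]; exact h0
    | succ n ih =>
      intro v hv
      obtain ⟨a, ha⟩ := Finset.card_pos.1 (by rw [hv]; exact Nat.succ_pos n)
      have h1 : v = single a (v.coeff a) + (v - single a (v.coeff a)) := by ring
      rw [h1]
      apply hadd _ _ (hs _ _)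
      apply ih
      have h2 : (v - single a (v.coeff a)).coeff.support = v.coeff.support.erase a := by
        ext u
        rw [Finsupp.mem_support_iff, Finset.mem_erase, Finsupp.mem_support_iff, coeff_sub', coeff_single']
        by_cases hu : u = a
        · subst hu; simp
        · simp [hu]
      rw [h2, Finset.card_erase_of_mem ha, hv]; rfl
  exact key _ v rfl

variable (q0 : ℕ) [Fact q0.Prime] [CharP k q0] [PerfectRing k q0]

/-- The `q`-th root. -/
noncomputable def rt (e : ℕ) : k ≃+* k := (iterateFrobeniusEquiv k q0 e).symm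

theorem rt_pow_mul (e : ℕ) (r s : k) : rt q0 e (r ^ (q0 ^ e) * s) = r * rt q0 e s := by
  unfold rt
  rw [map_mul]
  congr 1
  rw [← iterateFrobeniusEquiv_def, RingEquiv.symm_apply_apply]

theorem inj (e : ℕ) (α : Lat d) : Function.Injective (fun u : Lat d => α + (q0 ^ e) • u) := by
  intro u v huv
  have h1 : (q0 ^ e) • u = (q0 ^ e) • v := add_left_cancel huv
  have h2 : q0 ^ e ≠ 0 := pow_ne_zero _ (Nat.Prime.ne_zero Fact.out)
  ext j
  have h3 := congrFun h1 j
  simp only [Pi.smul_apply, nsmul_eq_mul] at h3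
  have h4 : ((q0 ^ e : ℕ) : ℤ) ≠ 0 := by exact_mod_cast h2
  exact mul_left_cancel₀ h4 h3

/-- The splitting. -/
noncomputable def phi (e : ℕ) (α : Lat d) (w : LP k d) : LP k d :=
  ofCoeff ((w.coeff.comapDomain (fun u : Lat d => α + (q0 ^ e) • u)
    ((inj q0 e α).injOn)).mapRange (rt q0 e) (map_zero _))

theorem phi_coeff (e : ℕ) (α : Lat d) (w : LP k d) (u : Lat d) :
    (phi q0 e α w).coeff u = rt q0 e (w.coeff (α + (q0 ^ e) • u)) := rfl

theorem phi_add (e : ℕ) (α : Lat d) (w w' : LP k d) :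
    phi q0 e α (w + w') = phi q0 e α w + phi q0 e α w' := by
  apply lp_ext; intro u
  rw [coeff_add', phi_coeff, phi_coeff, phi_coeff, coeff_add', map_add]

theorem phi_zero (e : ℕ) (α : Lat d) : phi q0 e α (0 : LP k d) = 0 := by
  apply lp_ext; intro u
  rw [phi_coeff, coeff_zero', coeff_zero', map_zero]

theorem phi_sum {ι : Type*} (e : ℕ) (α : Lat d) (s : Finset ι) (f : ι → LP k d) :
    phi q0 e α (∑ i ∈ s, f i) = ∑ i ∈ s, phi q0 e α (f i) := by
  apply lp_ext; intro u
  rw [coeff_finsum, phi_coeff, coeff_finsum, map_sum]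
  rfl

omit [Fact (Nat.Prime q0)] [PerfectRing k q0] in
theorem charP_lp : CharP (LP k d) q0 := by
  have hinj : Function.Injective (algebraMap k (LP k d)) := (algebraMap k (LP k d)).injective
  exact charP_of_injective_algebraMap hinj q0

theorem phi_pow_mul (e : ℕ) (α : Lat d) (v w : LP k d) :
    phi q0 e α (v ^ (q0 ^ e) * w) = v * phi q0 e α w := by
  have : CharP (LP k d) q0 := charP_lp q0
  induction v using lp_induction with
  | h0 =>
    rw [zero_pow (pow_ne_zero _ (Nat.Prime.ne_zero Fact.out)), zero_mul, zero_mul, phi_zero]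
  | hadd x y hx hy =>
    rw [add_pow_char_pow, add_mul, phi_add, hx, hy, add_mul]
  | hs a r =>
    apply lp_ext; intro u
    rw [phi_coeff, AddMonoidAlgebra.single_pow, single_mul_coeff, single_mul_coeff, phi_coeff, rt_pow_mul]
    congr 3
    rw [smul_sub]
    abel

end

end CPTIGHTaux

open CPTIGHTaux in
/-- CPTIGHT -/
theorem cp_tight (q0 : ℕ) [Fact q0.Prime] {k : Type} [Field k] [CharP k q0] [PerfectRing k q0]
    {d : ℕ} {κ : Type} [Fintype κ] (h : κ → Lat d) {r : ℕ} (g : Fin r → LP k d)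
    (c : LP k d) (hc : c ≠ 0) (hcS : Supp (Sset h) c) (z : LP k d) (I : Finset (Fin r))
    (H : ∀ e : ℕ, ∃ y : Fin r → LP k d, (∀ i, Supp (Sset h) (y i)) ∧
      c * z ^ (q0 ^ e) = ∑ i ∈ I, g i ^ (q0 ^ e) * y i) :
    ∃ y : Fin r → LP k d, (∀ i, Supp (Sset h) (y i)) ∧ z = ∑ i ∈ I, g i * y i := by
  classical
  obtain ⟨α, hα⟩ : ∃ α, c.coeff α ≠ 0 := by
    by_contra hcon
    push Not at hcon
    exact hc (lp_ext fun u => by rw [hcon u]; rfl)
  -- the bound
  obtain ⟨M, hM1, hM2⟩ : ∃ M : ℕ, (∀ v, dt (h v) α < M) ∧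
      (∀ β ∈ c.coeff.support, ∀ j, |β j - α j| < M) := by
    refine ⟨(∑ v, |dt (h v) α| + ∑ β ∈ c.coeff.support, ∑ j, |β j - α j| + 1).toNat, ?_, ?_⟩
    · intro v
      have h1 : |dt (h v) α| ≤ ∑ v, |dt (h v) α| :=
        Finset.single_le_sum (f := fun v => |dt (h v) α|) (fun _ _ => abs_nonneg _) (mem_univ v)
      have h2 : (0 : ℤ) ≤ ∑ β ∈ c.coeff.support, ∑ j, |β j - α j| :=
        Finset.sum_nonneg fun _ _ => Finset.sum_nonneg fun _ _ => abs_nonneg _
      have h3 := le_abs_self (dt (h v) α)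
      have h4 := Int.self_le_toNat (∑ v, |dt (h v) α| + ∑ β ∈ c.coeff.support, ∑ j, |β j - α j| + 1)
      linarith
    · intro β hβ j
      have h1 : |β j - α j| ≤ ∑ j, |β j - α j| :=
        Finset.single_le_sum (f := fun j => |β j - α j|) (fun _ _ => abs_nonneg _) (mem_univ j)
      have h2 : ∑ j, |β j - α j| ≤ ∑ β ∈ c.coeff.support, ∑ j, |β j - α j| :=
        Finset.single_le_sum (f := fun β : Lat d => ∑ j, |β j - α j|)
          (fun _ _ => Finset.sum_nonneg fun _ _ => abs_nonneg _) hβ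
      have h3 : (0 : ℤ) ≤ ∑ v, |dt (h v) α| := Finset.sum_nonneg fun _ _ => abs_nonneg _
      have h4 := Int.self_le_toNat (∑ v, |dt (h v) α| + ∑ β ∈ c.coeff.support, ∑ j, |β j - α j| + 1)
      linarith
  -- the exponent
  have hq0 : 1 < q0 := Nat.Prime.one_lt Fact.out
  obtain ⟨e, he⟩ : ∃ e : ℕ, M < q0 ^ e := ⟨M, Nat.lt_pow_self hq0⟩
  have hqM : (M : ℤ) < ((q0 ^ e : ℕ) : ℤ) := by exact_mod_cast he
  have hqpos : (0 : ℤ) < ((q0 ^ e : ℕ) : ℤ) := lt_of_le_of_lt (Int.natCast_nonneg M) hqM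
  -- `φ` preserves the support
  have hS : ∀ w : LP k d, Supp (Sset h) w → Supp (Sset h) (phi q0 e α w) := by
    intro w hw u hu
    rw [phi_coeff] at hu
    have h1 : w.coeff (α + (q0 ^ e) • u) ≠ 0 := fun h0 => hu (by rw [h0, map_zero])
    intro v
    have h2 := hw _ h1 v
    rw [dt_add, dt_nsmul] at h2
    have h3 := hM1 v
    by_contra hneg
    have h4 : dt (h v) u ≤ -1 := by omega
    nlinarith
  -- `φ c` is a constant
  set lam : k := rt q0 e (c.coeff α) with hlam
  have hlam0 : lam ≠ 0 := by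
    intro h0
    apply hα
    exact (map_eq_zero_iff (rt (k := k) q0 e) (RingEquiv.injective _)).1 h0
  have hφc : phi q0 e α c = single 0 lam := by
    apply lp_ext; intro u
    rw [phi_coeff, coeff_single']
    by_cases hu : u = 0
    · subst hu
      rw [if_pos rfl, smul_zero, add_zero]
    · rw [if_neg hu]
      have : c.coeff (α + (q0 ^ e) • u) = 0 := by
        by_contra hne
        apply hu
        ext j
        have h1 := hM2 _ (Finsupp.mem_support_iff.2 hne) j
        have h1' : |((q0 ^ e : ℕ) : ℤ) * u j| < M := by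
          have h5 : (α + (q0 ^ e) • u) j - α j = ((q0 ^ e : ℕ) : ℤ) * u j := by
            rw [Pi.add_apply, Pi.smul_apply, nsmul_eq_mul, add_sub_cancel_left]
          rwa [h5] at h1
        rw [abs_mul, Nat.abs_cast] at h1'
        by_contra hj
        have h2 : 1 ≤ |u j| := Int.one_le_abs hj
        nlinarith
      rw [this, map_zero]
  obtain ⟨y, hy, hyz⟩ := H e
  refine ⟨fun i => lam⁻¹ • phi q0 e α (y i), fun i => (hS _ (hy i)).smul _, ?_⟩
  have h1 : phi q0 e α (c * z ^ (q0 ^ e)) = z * single 0 lam := by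
    rw [mul_comm, phi_pow_mul, hφc]
  rw [hyz, phi_sum] at h1
  have h2 : ∑ i ∈ I, phi q0 e α (g i ^ q0 ^ e * y i) = ∑ i ∈ I, g i * phi q0 e α (y i) :=
    Finset.sum_congr rfl fun i _ => phi_pow_mul q0 e α _ _
  rw [h2] at h1
  have h3 : z * single 0 lam = lam • z := by
    rw [mul_comm]
    apply lp_ext; intro u
    rw [single_mul_coeff, coeff_smul', sub_zero]
  rw [h3] at h1
  have h4 : z = lam⁻¹ • (lam • z) := by
    rw [smul_smul, inv_mul_cancel₀ hlam0, one_smul]
  rw [h4, ← h1, Finset.smul_sum]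
  exact Finset.sum_congr rfl fun i _ => (mul_smul_comm _ _ _).symm

end Pool.Agent.H56.SMC

end S_CPTIGHT

section S_CPKOS

/-!
# CPKOS: a regular sequence has exact Koszul complex at `H_1`

Proof.  Induction on `m ≤ r`: if `∑_{j<m} g_j x_j = 0` with `Supp S (x_j)` then there are antisymmetric `y_jk` with `y_jj = 0` (zero unless `j,k < m`) with
`x_j = ∑_k g_k y_jk` for `j < m`.  Step `m → m+1`: `g_m x_m = -∑_{i<m} g_i x_i`, so by `hreg` `x_m = ∑_{i<m} g_i w_i`.  Put `x'_i = x_i + g_m w_i` for `i < m`: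
`∑_{i<m} g_i x'_i = ∑_{i<m} g_i x_i + g_m x_m = 0`, so `x'_i = ∑_{k<m} g_k y_ik`; then `x_i = ∑_{k<m} g_k y_ik - g_m w_i`: put `y_im = -w_i`,
`y_mi = w_i`, `y_mm = 0`.
-/

set_option autoImplicit false

namespace Pool.Agent.H56.SMC

open Finset AddMonoidAlgebra

theorem CPKOS_supp_mul {R : Type} [CommRing R] {d : ℕ} {S : Set (Lat d)}
    (hS : ∀ u ∈ S, ∀ v ∈ S, u + v ∈ S) {x y : LP R d} (hx : Supp S x) (hy : Supp S y) :
    Supp S (x * y) := by
  classical
  intro u hu
  have h1 := AddMonoidAlgebra.support_coeff_mul_subset x y (Finsupp.mem_support_iff.2 hu)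
  obtain ⟨v, hv, w, hw, rfl⟩ := Finset.mem_add.1 h1
  exact hS v (hx v (Finsupp.mem_support_iff.1 hv)) w (hy w (Finsupp.mem_support_iff.1 hw))

theorem CPKOS_step {R : Type} [CommRing R] {d : ℕ} (S : Set (Lat d))
    (hS : ∀ u ∈ S, ∀ v ∈ S, u + v ∈ S) {r : ℕ} (g : Fin r → LP R d) (hg : ∀ i, Supp S (g i))
    (hreg : ∀ (m : Fin r) (z : LP R d) (x : Fin r → LP R d), Supp S z → (∀ i, Supp S (x i)) →
      g m * z = ∑ i with i < m, g i * x i →
      ∃ y : Fin r → LP R d, (∀ i, Supp S (y i)) ∧ z = ∑ i with i < m, g i * y i) (m : ℕ) :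
    ∀ x : Fin r → LP R d, (∀ j, Supp S (x j)) → ∑ j with j.val < m, g j * x j = 0 →
      ∃ y : Fin r → Fin r → LP R d, (∀ j k, Supp S (y j k)) ∧ (∀ j k, y j k = -y k j) ∧
        (∀ j, y j j = 0) ∧ (∀ j k, m ≤ j.val → y j k = 0) ∧
        ∀ j, j.val < m → x j = ∑ k, g k * y j k := by
  classical
  induction m with
  | zero =>
    intro x hx h0
    refine ⟨fun _ _ => 0, fun _ _ => Supp.zero S, fun _ _ => by simp, fun _ => rfl,
      fun _ _ _ => rfl, fun j hj => absurd hj (Nat.not_lt_zero _)⟩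
  | succ m ih =>
    intro x hx h0
    by_cases hm : m < r
    · set M : Fin r := ⟨m, hm⟩ with hM
      have hfil : (univ.filter fun j : Fin r => j.val < m + 1) =
          insert M (univ.filter fun j : Fin r => j.val < m) := by
        ext j
        simp only [mem_filter, mem_univ, true_and, mem_insert, Fin.ext_iff, hM]
        omega
      have hnot : M ∉ univ.filter fun j : Fin r => j.val < m := by
        simp [hM]
      have hlt : (univ.filter fun j : Fin r => j < M) = univ.filter fun j : Fin r => j.val < m := by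
        ext j
        simp only [mem_filter, mem_univ, true_and, Fin.lt_def, hM]
      rw [hfil, sum_insert hnot] at h0
      obtain ⟨w, hw, hxw⟩ := hreg M (x M) (fun i => -x i) (hx M) (fun i => (hx i).neg) (by
        rw [hlt]
        simp only [mul_neg, sum_neg_distrib]
        rw [eq_neg_iff_add_eq_zero]
        exact h0)
      rw [hlt] at hxw
      obtain ⟨y, hy1, hy2, hy3, hy4, hy5⟩ := ih (fun i => x i + g M * w i)
        (fun i => (hx i).add (CPKOS_supp_mul hS (hg M) (hw i))) (by
          simp only [mul_add, sum_add_distrib]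
          rw [← h0, add_comm]
          congr 1
          rw [hxw, mul_sum]
          exact sum_congr rfl fun i _ => by ring)
      refine ⟨fun j k => if j = M then (if k.val < m then w k else 0) else
        if k = M then (if j.val < m then -w j else 0) else y j k, ?_, ?_, ?_, ?_, ?_⟩
      · intro j k
        dsimp only
        split_ifs
        · exact hw k
        · exact Supp.zero S
        · exact (hw j).neg
        · exact Supp.zero S
        · exact hy1 j k
      · intro j k
        dsimp only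
        by_cases hj : j = M
        · by_cases hk : k = M
          · subst hj; subst hk
            simp [hM]
          · rw [if_pos hj, if_neg hk, if_pos hj]
            by_cases hk' : k.val < m
            · rw [if_pos hk', if_pos hk', neg_neg]
            · rw [if_neg hk', if_neg hk', neg_zero]
        · by_cases hk : k = M
          · rw [if_neg hj, if_pos hk, if_pos hk]
            by_cases hj' : j.val < m
            · rw [if_pos hj', if_pos hj']
            · rw [if_neg hj', if_neg hj', neg_zero]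
          · rw [if_neg hj, if_neg hk, if_neg hk, if_neg hj]
            exact hy2 j k
      · intro j
        dsimp only
        by_cases hj : j = M
        · subst hj
          simp [hM]
        · rw [if_neg hj, if_neg hj]; exact hy3 j
      · intro j k hj
        dsimp only
        have hjM : j ≠ M := by
          intro h; rw [h] at hj; simp only [hM] at hj; omega
        rw [if_neg hjM]
        by_cases hk : k = M
        · rw [if_pos hk, if_neg (by omega)]
        · rw [if_neg hk]
          exact hy4 j k (by omega)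
      · intro j hj
        dsimp only
        by_cases hjM : j = M
        · simp only [if_pos hjM]
          rw [hjM, hxw, sum_filter]
          exact sum_congr rfl fun k _ => by
            by_cases hk : k.val < m
            · rw [if_pos hk, if_pos hk]
            · rw [if_neg hk, if_neg hk, mul_zero]
        · have hj' : j.val < m := by
            have : j.val ≠ m := fun h => hjM (Fin.ext h)
            omega
          simp only [if_neg hjM, if_pos hj']
          have h1 := hy5 j hj'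
          have h2 : y j M = 0 := by
            rw [hy2 j M, hy4 M j (by simp [hM]), neg_zero]
          have h3 : ∑ k, g k * (if k = M then -w j else y j k) =
              ∑ k, g k * y j k + g M * (-w j) := by
            have h4 : ∀ k, g k * (if k = M then -w j else y j k) =
                g k * y j k + if k = M then g k * (-w j) else 0 := by
              intro k
              by_cases hk : k = M
              · rw [if_pos hk, if_pos hk, hk, h2, mul_zero, zero_add]
              · rw [if_neg hk, if_neg hk, add_zero]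
            rw [sum_congr rfl fun k _ => h4 k, sum_add_distrib, Finset.sum_ite_eq' univ M]
            simp
          rw [h3, ← h1]
          ring
    · have hfil : (univ.filter fun j : Fin r => j.val < m + 1) =
          (univ.filter fun j : Fin r => j.val < m) := by
        ext j
        simp only [mem_filter, mem_univ, true_and]
        have := j.isLt
        omega
      rw [hfil] at h0
      obtain ⟨y, hy1, hy2, hy3, hy4, hy5⟩ := ih x hx h0
      refine ⟨y, hy1, hy2, hy3, fun j k hj => hy4 j k (by omega), fun j _ => hy5 j ?_⟩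
      have := j.isLt
      omega

/-- CPKOS -/
theorem cp_kos {R : Type} [CommRing R] {d : ℕ} (S : Set (Lat d))
    (hS : ∀ u ∈ S, ∀ v ∈ S, u + v ∈ S) {r : ℕ} (g : Fin r → LP R d) (hg : ∀ i, Supp S (g i))
    (hreg : ∀ (m : Fin r) (z : LP R d) (x : Fin r → LP R d), Supp S z → (∀ i, Supp S (x i)) →
      g m * z = ∑ i with i < m, g i * x i →
      ∃ y : Fin r → LP R d, (∀ i, Supp S (y i)) ∧ z = ∑ i with i < m, g i * y i)
    (x : Fin r → LP R d) (hx : ∀ j, Supp S (x j)) (h0 : ∑ j, g j * x j = 0) :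
    ∃ y : Fin r → Fin r → LP R d, (∀ j k, Supp S (y j k)) ∧ (∀ j k, y j k = -y k j) ∧
      (∀ j, y j j = 0) ∧ ∀ j, x j = ∑ k, g k * y j k := by
  obtain ⟨y, hy1, hy2, hy3, -, hy5⟩ := CPKOS_step S hS g hg hreg r x hx (by
    rw [← h0]
    apply sum_congr _ fun _ _ => rfl
    ext j
    simp)
  exact ⟨y, hy1, hy2, hy3, fun j => hy5 j j.isLt⟩

end Pool.Agent.H56.SMC

end S_CPKOS

section S_TRHOM

/-!
# TRHOM: a finitely generated subring of `ℂ` maps to a finite field

Proof.  `B = Algebra.adjoin ℤ T` is a finitely generated nontrivial `ℤ`-algebra; take a maximal ideal `m` and `k = B ⧸ m`.  `k` is a field which is a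
finitely generated `ℤ`-algebra; `ℤ` is a Jacobson ring, so the kernel of `ℤ → k` is a maximal ideal `(q0)` and `k` is finite over `ℤ/q0`
(`Ideal.comap_isMaximal..`/`RingHom.finite_of_algHom_finiteType_of_isJacobsonRing`/`finite_of_finite_type_of_isJacobsonRing`), hence a finite field of characteristic `q0`.
(If the Jacobson API for `ℤ` is awkward: if `q0 = 0` then `k` is a finitely generated `ℚ`-algebra, a finite extension of `ℚ`, and some `1/N` has all
generators integral over `ℤ[1/N]`, so `ℤ[1/N]` would be a field.)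
-/

set_option autoImplicit false

namespace Pool.Agent.H56.SMC

open Finset AddMonoidAlgebra

theorem trhom_jacobson : IsJacobsonRing ℤ := by
  rw [isJacobsonRing_iff_prime_eq]
  intro P hP
  by_cases h : P = ⊥
  · subst h
    rw [eq_bot_iff]
    intro x hx
    rw [Ideal.mem_jacobson_bot] at hx
    rw [Ideal.mem_bot]
    rcases Int.isUnit_iff.1 (hx x) with h1 | h1
    · have : x * x = 0 := by linarith
      simpa using this
    · exfalso
      have := mul_self_nonneg x
      linarith
  · have : P.IsMaximal := hP.isMaximal h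
    exact Ideal.jacobson_eq_self_of_isMaximal

/-- TRHOM -/
theorem trhom (T : Finset ℂ) :
    ∃ (q0 : ℕ) (_ : Fact q0.Prime) (k : Type) (_ : Field k) (_ : Finite k) (_ : CharP k q0),
      Nonempty ((Algebra.adjoin ℤ (T : Set ℂ)) →+* k) := by
  have hJ := trhom_jacobson
  have hft : Algebra.FiniteType ℤ (Algebra.adjoin ℤ (T : Set ℂ)) :=
    .adjoin_of_finite T.finite_toSet
  obtain ⟨m, hm⟩ := Ideal.exists_maximal (Algebra.adjoin ℤ (T : Set ℂ))
  let hF : Field (Algebra.adjoin ℤ (T : Set ℂ) ⧸ m) := Ideal.Quotient.field m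
  have hft2 : Algebra.FiniteType ℤ (Algebra.adjoin ℤ (T : Set ℂ) ⧸ m) := inferInstance
  have hfin : Module.Finite ℤ (Algebra.adjoin ℤ (T : Set ℂ) ⧸ m) :=
    finite_of_finite_type_of_isJacobsonRing ℤ _
  obtain ⟨q, hq⟩ := CharP.exists (Algebra.adjoin ℤ (T : Set ℂ) ⧸ m)
  have hq0 : q ≠ 0 := by
    rintro rfl
    have hcz : CharZero (Algebra.adjoin ℤ (T : Set ℂ) ⧸ m) := CharP.charP_to_charZero _
    have hinj : Function.Injective (algebraMap ℤ (Algebra.adjoin ℤ (T : Set ℂ) ⧸ m)) :=
      Int.cast_injective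
    have hint : Algebra.IsIntegral ℤ (Algebra.adjoin ℤ (T : Set ℂ) ⧸ m) := inferInstance
    exact Int.not_isField (isField_of_isIntegral_of_isField hinj (Field.toIsField _))
  have hprime : q.Prime := 
    (CharP.char_is_prime_or_zero (Algebra.adjoin ℤ (T : Set ℂ) ⧸ m) q).resolve_right hq0
  have hfact : Fact q.Prime := ⟨hprime⟩
  let hA : Algebra (ZMod q) (Algebra.adjoin ℤ (T : Set ℂ) ⧸ m) := ZMod.algebra _ q
  have hfin2 : Module.Finite (ZMod q) (Algebra.adjoin ℤ (T : Set ℂ) ⧸ m) :=
    Module.Finite.of_restrictScalars_finite ℤ (ZMod q) _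
  have hfin3 : Finite (Algebra.adjoin ℤ (T : Set ℂ) ⧸ m) := Module.finite_of_finite (ZMod q)
  exact ⟨q, hfact, _, hF, hfin3, hq, ⟨Ideal.Quotient.mk m⟩⟩

end Pool.Agent.H56.SMC

end S_TRHOM

section S_TRRANK

/-!
# TRRANK: exactness lifts from a residue field to characteristic `0`

Proof.  Let `M_k`, `M'_k`, `M_ℂ`, `M'_ℂ` be the matrices over `k` and `ℂ`.  Exactness over `k` (with `M'_k M_k = 0`): `rank M_k + rank M'_k = card β`
(rank-nullity: the kernel of `M'_k` is the range of `M_k`; `⊆` from `hex`).  For every matrix over `B`: `rank over k ≤ rank over ℂ`: a nonzero minor over `k` of size the rank is the image of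
a minor over `B`, which is then nonzero in `ℂ` (`B ⊆ ℂ`); alternatively: if the rows `i ∈ I` and columns `j ∈ J` form an invertible submatrix over `k` then its determinant over `B` is nonzero.
So `rank M_ℂ + rank M'_ℂ ≥ card β`, while `range M_ℂ ⊆ ker M'_ℂ`; so they are equal by dimension.
-/

set_option autoImplicit false

namespace Pool.Agent.H56.SMC

open Finset AddMonoidAlgebra Matrix

/-- A nonzero minor of size the rank. -/
theorem trrank_minor {K : Type} [Field K] {β γ : Type} [Fintype β] [Fintype γ]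
    (N : Matrix β γ K) (d : ℕ) (hd : N.rank = d) :
    ∃ (I : Fin d → β) (J : Fin d → γ), (N.submatrix I J).det ≠ 0 := by
  subst hd
  have key : ∀ {V : Type} [AddCommGroup V] [Module K V] [Module.Finite K V] (S : Set V) (N : ℕ),
      Module.finrank K (Submodule.span K S) = N →
      ∃ f : Fin N → V, (∀ i, f i ∈ S) ∧ LinearIndependent K f := by
    intro V _ _ _ S N hN
    subst hN
    obtain ⟨f, hf, -, hl⟩ := Submodule.exists_fun_fin_finrank_span_eq K S
    exact ⟨f, hf, hl⟩
  obtain ⟨f, hf, hl⟩ := key (Set.range N.col) N.rank (N.rank_eq_finrank_span_cols).symm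
  choose J hJ using hf
  have h1 : LinearIndependent K ((N.submatrix id J)ᵀ).row := by
    have : ((N.submatrix id J)ᵀ).row = f := by
      funext i
      rw [← hJ i]
      rfl
    rw [this]
    exact hl
  have h2 : (N.submatrix id J).rank = N.rank := by
    have h3 := LinearIndependent.rank_matrix h1
    rw [Matrix.rank_transpose, Fintype.card_fin] at h3
    exact h3
  obtain ⟨g, hg, hgl⟩ := key (Set.range (N.submatrix id J).row) N.rank (by
    rw [← Matrix.rank_eq_finrank_span_row, h2])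
  choose I hI using hg
  refine ⟨I, J, ?_⟩
  have h4 : LinearIndependent K (N.submatrix I J).row := by
    have : (N.submatrix I J).row = g := by
      funext i
      rw [← hI i]
      rfl
    rw [this]
    exact hgl
  have h5 := Matrix.linearIndependent_rows_iff_isUnit.1 h4
  exact ((Matrix.isUnit_iff_isUnit_det _).1 h5).ne_zero

/-- The rank over the residue field is at most the rank over `ℂ`. -/
theorem trrank_le (B : Subalgebra ℤ ℂ) {k : Type} [Field k] (φ : B →+* k) {β γ : Type}
    [Fintype β] [Fintype γ] (M : Matrix β γ B) :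
    (M.map φ).rank ≤ (M.map (fun x : B => (x : ℂ))).rank := by
  obtain ⟨I, J, h⟩ := trrank_minor (M.map φ) _ rfl
  have h1 : (M.submatrix I J).det ≠ 0 := by
    intro h0
    apply h
    have h2 : (M.map φ).submatrix I J = φ.mapMatrix (M.submatrix I J) := rfl
    rw [h2, ← RingHom.map_det, h0, map_zero]
  have h3 : ((M.map (fun x : B => (x : ℂ))).submatrix I J).det ≠ 0 := by
    have h4 : (M.map (fun x : B => (x : ℂ))).submatrix I J =
        (B.val : B →+* ℂ).mapMatrix (M.submatrix I J) := rfl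
    rw [h4, ← RingHom.map_det]
    intro h5
    apply h1
    have h6 : ((M.submatrix I J).det : ℂ) = 0 := h5
    exact_mod_cast h6
  calc (M.map φ).rank = ((M.map (fun x : B => (x : ℂ))).submatrix I J).rank := by
        rw [Matrix.rank_of_det_ne_zero h3, Fintype.card_fin]
    _ ≤ _ := Matrix.rank_submatrix_le _ _ _

/-- TRRANK -/
theorem trrank (B : Subalgebra ℤ ℂ) {k : Type} [Field k] (φ : B →+* k) {α β γ : Type} [Fintype α]
    [Fintype β] [Fintype γ] [DecidableEq α] [DecidableEq β] [DecidableEq γ]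
    (M : Matrix β γ B) (M' : Matrix α β B) (hMM : M' * M = 0)
    (hex : ∀ v : β → k, (M'.map φ).mulVec v = 0 → ∃ w : γ → k, v = (M.map φ).mulVec w)
    (v : β → ℂ) (hv : (M'.map (fun x : B => (x : ℂ))).mulVec v = 0) :
    ∃ w : γ → ℂ, v = (M.map (fun x : B => (x : ℂ))).mulVec w := by
  have hC : (M'.map (fun x : B => (x : ℂ))) * (M.map (fun x : B => (x : ℂ))) = 0 := by
    have h4 : (M'.map (fun x : B => (x : ℂ))) * (M.map (fun x : B => (x : ℂ))) =
        (M' * M).map (B.val : B →+* ℂ) := by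
      rw [Matrix.map_mul]
      rfl
    rw [h4, hMM]
    ext i j
    simp
  have h1 : Fintype.card β ≤ (M.map φ).rank + (M'.map φ).rank := by
    have h2 : LinearMap.ker (M'.map φ).mulVecLin ≤ LinearMap.range (M.map φ).mulVecLin := by
      intro x hx
      obtain ⟨w, hw⟩ := hex x (by simpa using hx)
      exact ⟨w, by simpa using hw.symm⟩
    have h3 := LinearMap.finrank_range_add_finrank_ker (M'.map φ).mulVecLin
    have h4 := Submodule.finrank_mono h2
    rw [Module.finrank_fintype_fun_eq_card] at h3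
    simp only [Matrix.rank]
    omega
  have h2 := trrank_le B φ M
  have h3 := trrank_le B φ M'
  have h4 : LinearMap.range (M.map (fun x : B => (x : ℂ))).mulVecLin ≤
      LinearMap.ker (M'.map (fun x : B => (x : ℂ))).mulVecLin := by
    rintro _ ⟨w, rfl⟩
    simp only [LinearMap.mem_ker, Matrix.mulVecLin_apply]
    rw [Matrix.mulVec_mulVec, hC, Matrix.zero_mulVec]
  have h5 := LinearMap.finrank_range_add_finrank_ker (M'.map (fun x : B => (x : ℂ))).mulVecLin
  rw [Module.finrank_fintype_fun_eq_card] at h5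
  simp only [Matrix.rank] at h1 h2 h3
  have h6 : LinearMap.range (M.map (fun x : B => (x : ℂ))).mulVecLin =
      LinearMap.ker (M'.map (fun x : B => (x : ℂ))).mulVecLin := by
    apply Submodule.eq_of_le_of_finrank_le h4
    omega
  have h7 : v ∈ LinearMap.ker (M'.map (fun x : B => (x : ℂ))).mulVecLin := by
    simpa using hv
  rw [← h6] at h7
  obtain ⟨w, hw⟩ := h7
  exact ⟨w, by simpa using hw.symm⟩

end Pool.Agent.H56.SMC

end S_TRRANK

section S_FLEXT

/-!
# FLEXT: a point of `Spec ℂ[S]` lies on a torus orbit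

Proof.  All `a i ∈ Sset h` (`hh`).  `I = {i : φ (a i) ≠ 0}`.  `N • u0 = ∑ n_i a_i` (`hfac`), `φ(N u0) = φ(u0)^N ≠ 0 = ∏ φ(a_i)^{n_i}`, `u0 ≠ 0`, so (`dt δ`) some `n_i > 0` and `I` is not empty.
`H = ∑ of h_v over all v with dt (h v) (a i) = 0 for all i ∈ I`.  `dt H (a i) ≥ 0`, `= 0` for `i ∈ I`.  Let `l ∉ I`; claim `dt H (a l) > 0`: otherwise `dt (h v) (a l) = 0` for all `v` vanishing on `I`;
let `A = ∑_{i∈I} a_i`; for `K` large `K A - a_l ∈ Sset h` (if `h_v` vanishes on `I` the value is `0`; if not then `dt (h v) A ≥ 1`).  So `φ(K A) = φ(a_l) φ(K A - a_l)`, and `φ(K A) ≠ 0` gives `φ(a_l) ≠ 0`, a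
contradiction.  The torus point: the homomorphism from the subgroup `L` of `ℤ^d` generated by the `a_i`, `i ∈ I`, to `ℂˣ` with `a_i ↦ φ(a_i)` is well defined (if `∑ n_i a_i = 0`, move the negative terms to the
other side and use multiplicativity of `φ` on `Sset h`); `ℂˣ` is divisible (roots exist), so it extends to a homomorphism `ℤ^d → ℂˣ` (divisible groups are injective:
`AddCommGrp.injective_of_divisible`, Baer's criterion `Module.Baer`), `χ_k` = the image of the `k`-th unit vector.
-/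

set_option autoImplicit false

namespace Pool.Agent.H56.SMC

open Finset AddMonoidAlgebra

/-- `ℂˣ` is injective as a group. -/
theorem flext_baer : Module.Baer ℤ (Additive ℂˣ) := by
  let _ : DivisibleBy (Additive ℂˣ) ℕ := divisibleByOfSMulRightSurj _ _ (by
    intro n hn u
    obtain ⟨z, hz⟩ := IsAlgClosed.exists_pow_nat_eq (u.toMul : ℂ) (Nat.pos_of_ne_zero hn)
    have hz0 : z ≠ 0 := by
      rintro rfl
      rw [zero_pow hn] at hz
      exact (Units.ne_zero u.toMul) hz.symm
    refine ⟨Additive.ofMul (Units.mk0 z hz0), ?_⟩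
    apply Additive.toMul.injective
    apply Units.ext
    simpa using hz)
  let _ : DivisibleBy (Additive ℂˣ) ℤ := AddGroup.divisibleByIntOfDivisibleByNat _
  exact Module.Baer.of_divisible _

/-- A partially defined homomorphism to `ℂˣ` given by generators extends. -/
theorem flext_ext {d : ℕ} {J : Type} [Fintype J] (b : J → Lat d) (g : J → ℂˣ)
    (hker : ∀ n : J → ℤ, ∑ j, n j • b j = 0 → ∏ j, g j ^ n j = 1) :
    ∃ ψ : Lat d →+ Additive ℂˣ, ∀ j, ψ (b j) = Additive.ofMul (g j) := by
  classical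
  let f : (J → ℤ) →ₗ[ℤ] Lat d := Fintype.linearCombination ℤ b
  let G : (J → ℤ) →ₗ[ℤ] Additive ℂˣ :=
    Fintype.linearCombination ℤ (fun j => Additive.ofMul (g j))
  have hle : LinearMap.ker f ≤ LinearMap.ker G := by
    intro n hn
    rw [LinearMap.mem_ker] at hn ⊢
    have h1 := hker n (by simpa [f, Fintype.linearCombination_apply] using hn)
    simp only [G, Fintype.linearCombination_apply]
    rw [← ofMul_one, ← h1, ofMul_prod]
    exact sum_congr rfl fun j _ => (ofMul_zpow _ _).symm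
  obtain ⟨ψ, hψ⟩ := flext_baer.extension_property
    ((LinearMap.ker f).liftQ f le_rfl)
    (by
      rw [← LinearMap.ker_eq_bot, Submodule.ker_liftQ_eq_bot _ _ _ le_rfl])
    ((LinearMap.ker f).liftQ G hle)
  refine ⟨ψ.toAddMonoidHom, fun j => ?_⟩
  have h1 := LinearMap.congr_fun hψ (Submodule.Quotient.mk (Pi.single j 1))
  rw [LinearMap.comp_apply, Submodule.liftQ_apply, Submodule.liftQ_apply] at h1
  have h2 : f (Pi.single j 1) = b j := by
    simp [f, Fintype.linearCombination_apply_single]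
  have h3 : G (Pi.single j 1) = Additive.ofMul (g j) := by
    simp [G, Fintype.linearCombination_apply_single]
  rw [h2, h3] at h1
  exact h1

theorem flext_add_mem {d : ℕ} {κ : Type} {h : κ → Lat d} {u v : Lat d} (hu : u ∈ Sset h)
    (hv : v ∈ Sset h) : u + v ∈ Sset h := by
  intro k
  rw [dt_add]
  exact add_nonneg (hu k) (hv k)

theorem flext_zero_mem {d : ℕ} {κ : Type} (h : κ → Lat d) : (0 : Lat d) ∈ Sset h := by
  intro k
  rw [dt_zero]

theorem flext_nsmul_mem {d : ℕ} {κ : Type} {h : κ → Lat d} {u : Lat d} (hu : u ∈ Sset h)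
    (n : ℕ) : n • u ∈ Sset h := by
  intro k
  rw [dt_nsmul]
  exact mul_nonneg (Int.natCast_nonneg n) (hu k)

theorem flext_sum_mem {d : ℕ} {κ α : Type} {h : κ → Lat d} (s : Finset α) {u : α → Lat d}
    (hu : ∀ i ∈ s, u i ∈ Sset h) : ∑ i ∈ s, u i ∈ Sset h := by
  intro k
  rw [dt_sum]
  exact sum_nonneg fun i hi => hu i hi k

section
variable {d : ℕ} {κ : Type} {h : κ → Lat d} {φ : Lat d → ℂ}

theorem flext_phi_nsmul (hφ0 : φ 0 = 1)
    (hφ : ∀ u ∈ Sset h, ∀ u' ∈ Sset h, φ (u + u') = φ u * φ u') {u : Lat d} (hu : u ∈ Sset h)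
    (n : ℕ) : φ (n • u) = φ u ^ n := by
  induction n with
  | zero => rw [zero_smul, hφ0, pow_zero]
  | succ n ih => rw [succ_nsmul, hφ _ (flext_nsmul_mem hu n) _ hu, ih, pow_succ]

theorem flext_phi_sum {α : Type} (hφ0 : φ 0 = 1)
    (hφ : ∀ u ∈ Sset h, ∀ u' ∈ Sset h, φ (u + u') = φ u * φ u') (s : Finset α) {u : α → Lat d}
    (hu : ∀ i ∈ s, u i ∈ Sset h) : φ (∑ i ∈ s, u i) = ∏ i ∈ s, φ (u i) := by
  classical
  induction s using Finset.induction_on with
  | empty => simp [hφ0]
  | insert a s ha ih =>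
    rw [sum_insert ha, prod_insert ha, hφ _ (hu a (mem_insert_self a s)) _
      (flext_sum_mem s fun i hi => hu i (mem_insert_of_mem hi)),
      ih fun i hi => hu i (mem_insert_of_mem hi)]

theorem flext_phi_comb {α : Type} (hφ0 : φ 0 = 1)
    (hφ : ∀ u ∈ Sset h, ∀ u' ∈ Sset h, φ (u + u') = φ u * φ u') (s : Finset α) {a : α → Lat d}
    (ha : ∀ i, a i ∈ Sset h) (n : α → ℕ) :
    φ (∑ i ∈ s, n i • a i) = ∏ i ∈ s, φ (a i) ^ n i := by
  rw [flext_phi_sum hφ0 hφ s fun i _ => flext_nsmul_mem (ha i) (n i)]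
  exact prod_congr rfl fun i _ => flext_phi_nsmul hφ0 hφ (ha i) (n i)

end

/-- FLEXT -/
theorem flext {d : ℕ} {ι κ : Type} [Fintype ι] [Fintype κ] (a : ι → Lat d) (h : κ → Lat d)
    (δ : Lat d) (hδ : ∀ i, dt δ (a i) = 1) (hh : ∀ v i, 0 ≤ dt (h v) (a i))
    (hfac : ∀ u ∈ Sset h, ∃ N : ℕ, 0 < N ∧ ∃ n : ι → ℕ, N • u = ∑ i, n i • a i)
    (φ : Lat d → ℂ) (hφ0 : φ 0 = 1)
    (hφ : ∀ u ∈ Sset h, ∀ u' ∈ Sset h, φ (u + u') = φ u * φ u')
    (u0 : Lat d) (hu0 : u0 ∈ Sset h) (hne : u0 ≠ 0) (hφu : φ u0 ≠ 0) :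
    ∃ (H : Lat d) (χ : Fin d → ℂˣ), (∀ i, 0 ≤ dt H (a i)) ∧ (∃ i, dt H (a i) = 0) ∧
      ∀ i, φ (a i) = if dt H (a i) = 0 then ((∏ k, χ k ^ (a i k) : ℂˣ) : ℂ) else 0 := by
  classical
  have haS : ∀ i, a i ∈ Sset h := fun i v => hh v i
  -- some `φ (a i)` is not zero
  have hI : ∃ i, φ (a i) ≠ 0 := by
    by_contra hcon
    push Not at hcon
    obtain ⟨N, hN, n, hn⟩ := hfac u0 hu0
    have h1 : φ (N • u0) ≠ 0 := by
      rw [flext_phi_nsmul hφ0 hφ hu0]
      exact pow_ne_zero _ hφu
    rw [hn, flext_phi_comb hφ0 hφ univ haS n] at h1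
    have h2 : ∀ i, n i = 0 := by
      intro i
      by_contra hi
      apply h1
      exact prod_eq_zero (mem_univ i) (by rw [hcon i, zero_pow hi])
    have h3 : N • u0 = 0 := by
      rw [hn]
      exact sum_eq_zero fun i _ => by rw [h2 i, zero_smul]
    rcases smul_eq_zero.mp h3 with h4 | h4
    · omega
    · exact hne h4
  set Vs : Finset κ := univ.filter fun v => ∀ i, φ (a i) ≠ 0 → dt (h v) (a i) = 0 with hVs
  set H : Lat d := ∑ v ∈ Vs, h v with hH
  have hHd : ∀ u, dt H u = ∑ v ∈ Vs, dt (h v) u := by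
    intro u
    rw [hH, dt_comm, dt_sum]
    exact sum_congr rfl fun v _ => dt_comm _ _
  have hH0 : ∀ i, 0 ≤ dt H (a i) := by
    intro i
    rw [hHd]
    exact sum_nonneg fun v _ => hh v i
  have hHI : ∀ i, φ (a i) ≠ 0 → dt H (a i) = 0 := by
    intro i hi
    rw [hHd]
    exact sum_eq_zero fun v hv => (mem_filter.mp hv).2 i hi
  have hHl : ∀ l, φ (a l) = 0 → dt H (a l) ≠ 0 := by
    intro l hl h0
    rw [hHd, sum_eq_zero_iff_of_nonneg fun v _ => hh v l] at h0
    set A : Lat d := ∑ i ∈ univ.filter (fun i => φ (a i) ≠ 0), a i with hA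
    set K : ℕ := ∑ v, (dt (h v) (a l)).toNat with hK
    have hAS : A ∈ Sset h := flext_sum_mem _ fun i _ => haS i
    have hdiff : K • A - a l ∈ Sset h := by
      intro v
      rw [dt_sub, dt_nsmul]
      by_cases hv : v ∈ Vs
      · rw [h0 v hv, sub_zero]
        exact mul_nonneg (Int.natCast_nonneg _) (hAS v)
      · rw [hVs, mem_filter] at hv
        push Not at hv
        obtain ⟨i, hi, hi0⟩ := hv (mem_univ v)
        have h1 : 1 ≤ dt (h v) A := by
          have h2 : dt (h v) (a i) ≤ dt (h v) A := by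
            rw [hA, dt_sum]
            exact single_le_sum (f := fun i => dt (h v) (a i)) (fun j _ => hh v j)
              (mem_filter.mpr ⟨mem_univ i, hi⟩)
          have h3 := hh v i
          omega
        have h2 : (dt (h v) (a l)).toNat ≤ K :=
          single_le_sum (f := fun v => (dt (h v) (a l)).toNat) (fun _ _ => Nat.zero_le _)
            (mem_univ v)
        have h3 : dt (h v) (a l) ≤ K := by
          have := hh v l
          omega
        have h4 : (K : ℤ) * 1 ≤ K * dt (h v) A :=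
          mul_le_mul_of_nonneg_left h1 (Int.natCast_nonneg _)
        linarith
    have h1 : φ (K • A) = φ (a l) * φ (K • A - a l) := by
      rw [← hφ _ (haS l) _ hdiff, add_sub_cancel]
    rw [hl, zero_mul, flext_phi_nsmul hφ0 hφ hAS, hA,
      flext_phi_sum hφ0 hφ _ fun i _ => haS i] at h1
    have h2 : ∏ i ∈ univ.filter (fun i => φ (a i) ≠ 0), φ (a i) ≠ 0 :=
      prod_ne_zero_iff.mpr fun i hi => (mem_filter.mp hi).2
    exact pow_ne_zero _ h2 h1
  -- the torus point
  obtain ⟨ψ, hψ⟩ := flext_ext (fun j : {i // φ (a i) ≠ 0} => a j.1)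
    (fun j => Units.mk0 (φ (a j.1)) j.2) (by
      intro n hn
      have h1 : ∑ j, (n j).toNat • a j.1 = ∑ j, (-n j).toNat • a j.1 := by
        rw [← sub_eq_zero, ← sum_sub_distrib, ← hn]
        refine sum_congr rfl fun j _ => ?_
        rw [← natCast_zsmul, ← natCast_zsmul, ← sub_smul]
        congr 1
        omega
      have h2 := congrArg φ h1
      rw [flext_phi_comb hφ0 hφ univ (fun j : {i // φ (a i) ≠ 0} => haS j.1),
        flext_phi_comb hφ0 hφ univ (fun j : {i // φ (a i) ≠ 0} => haS j.1)] at h2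
      have h3 : ∏ j : {i // φ (a i) ≠ 0}, (Units.mk0 (φ (a j.1)) j.2) ^ (n j).toNat =
          ∏ j : {i // φ (a i) ≠ 0}, (Units.mk0 (φ (a j.1)) j.2) ^ (-n j).toNat := by
        apply Units.ext
        simpa using h2
      have h4 : ∀ j : {i // φ (a i) ≠ 0}, (Units.mk0 (φ (a j.1)) j.2) ^ n j =
          (Units.mk0 (φ (a j.1)) j.2) ^ (n j).toNat /
            (Units.mk0 (φ (a j.1)) j.2) ^ (-n j).toNat := by
        intro j
        rw [div_eq_mul_inv, ← zpow_natCast, ← zpow_natCast, ← zpow_sub]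
        congr 1
        omega
      rw [prod_congr rfl fun j _ => h4 j, prod_div_distrib, h3, div_self'])
  refine ⟨H, fun k => (ψ (ev k)).toMul, hH0, ?_, ?_⟩
  · obtain ⟨i, hi⟩ := hI
    exact ⟨i, hHI i hi⟩
  · intro i
    by_cases hi : φ (a i) = 0
    · rw [if_neg (hHl i hi), hi]
    · rw [if_pos (hHI i hi)]
      have h1 : ψ (a i) = Additive.ofMul (Units.mk0 (φ (a i)) hi) := hψ ⟨i, hi⟩
      have h2 : a i = ∑ k, a i k • ev k := by
        funext j
        simp [ev, Pi.single_apply]
      have h3 : ψ (a i) = ∑ k, a i k • ψ (ev k) := by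
        conv_lhs => rw [h2]
        rw [map_sum]
        exact sum_congr rfl fun k _ => map_zsmul ψ _ _
      have h4 : (∏ k, (ψ (ev k)).toMul ^ (a i k) : ℂˣ) = Units.mk0 (φ (a i)) hi := by
        rw [h1] at h3
        have h5 := congrArg Additive.toMul h3
        rw [toMul_ofMul, toMul_sum] at h5
        rw [h5]
        exact prod_congr rfl fun k _ => (toMul_zsmul _ _).symm
      rw [h4]
      rfl

end Pool.Agent.H56.SMC

end S_FLEXT

section S_FLEX

/-!
# FLEX: complete chains of faces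

A face is the set `T = {i : dt H (a i) = 0}` of a functional `H` which is nonnegative on all `a i`; the functional `δ` gives the empty face.
Proof.  (1) Let `T' ⊊ T` be faces (`T'` may be empty, `H' = δ`).  Among all functionals `H''`, nonnegative on all `a i`, whose face `T''` satisfies `T' ⊊ T'' ⊆ T` choose one with `T''` of minimal cardinality (`H` itself is a candidate).  Then `hrank` holds for `(H', H'')`:
let `g` vanish on `T'`; choose `i1 ∈ T''` outside `T'` with maximal quotient `g(a i1) / H'(a i1)`, `p = dt g (a i1)`, `q = dt H' (a i1) > 0`; `h = p H' - q g` is nonnegative on `T''`, zero on `T'` and at `i1`.  If `h` is not zero on all of `T''` then `h + L H''`, `L` large, is nonnegative on all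
`a i` with face `{i ∈ T'' : h(a i) = 0}`, strictly between `T'` and `T''`: contradiction.  So `q g = p H'` on `T''`.
(2) Iterate from the empty face inside `T'` until `T'` is reached (the cardinality grows), then from `T'` inside `T` until `T` is reached.  The first nonempty face `T_0`: `hrank` with `H' = δ` says `N dt g (a i) = n` for `i ∈ T_0`, so `dt g` is constant on `T_0` for every `g`: all `a i`, `i ∈ T_0`, are equal.
(Build the chain by strong induction on the number of elements; replace the last functional by `H`: only its zero set matters, and `hrank`, `hstrict` for `j < s` involve `H j` and the zero set of `H (j+1)`.)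
-/

set_option autoImplicit false

namespace Pool.Agent.H56.SMC

open Finset AddMonoidAlgebra

/-- linearity in the functional -/
theorem flex_dt_sub {d : ℕ} (p q : ℤ) (K g u : Lat d) :
    dt (p • K - q • g) u = p * dt K u - q * dt g u := by
  rw [dt_comm, dt_sub, dt_zsmul, dt_zsmul, dt_comm u K, dt_comm u g]

theorem flex_dt_add {d : ℕ} (L : ℤ) (K H u : Lat d) :
    dt (K + L • H) u = dt K u + L * dt H u := by
  rw [dt_comm, dt_add, dt_zsmul, dt_comm u K, dt_comm u H]

/-- the rank condition for a maximal face in a face -/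
theorem flex_rank {d : ℕ} {ι : Type} [Fintype ι] (a : ι → Lat d) (K H : Lat d)
    (hK : ∀ i, 0 ≤ dt K (a i)) (hH : ∀ i, 0 ≤ dt H (a i))
    (hsub : ∀ i, dt K (a i) = 0 → dt H (a i) = 0)
    (hst : ∃ i, dt H (a i) = 0 ∧ dt K (a i) ≠ 0)
    (hmax : ∀ G : Lat d, (∀ i, 0 ≤ dt G (a i)) → (∀ i, dt K (a i) = 0 → dt G (a i) = 0) →
      (∀ i, dt G (a i) = 0 → dt H (a i) = 0) → (∃ i, dt G (a i) = 0 ∧ dt K (a i) ≠ 0) →
      ∀ i, dt H (a i) = 0 → dt G (a i) = 0)
    (g : Lat d) (hg : ∀ i, dt K (a i) = 0 → dt g (a i) = 0) :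
    ∃ N n : ℤ, N ≠ 0 ∧ ∀ i, dt H (a i) = 0 → N * dt g (a i) = n * dt K (a i) := by
  classical
  set S : Finset ι := univ.filter (fun i => dt H (a i) = 0 ∧ dt K (a i) ≠ 0) with hS
  obtain ⟨i0, hi0, hi0'⟩ := hst
  obtain ⟨i1, hi1, hi1max⟩ := S.exists_max_image
    (fun i => (dt g (a i) : ℚ) / (dt K (a i) : ℚ)) ⟨i0, by simp [hS, hi0, hi0']⟩
  have hi1' : dt H (a i1) = 0 ∧ dt K (a i1) ≠ 0 := by simpa [hS] using hi1
  set p := dt g (a i1) with hp
  set q := dt K (a i1) with hq
  have hq0 : 0 < q := lt_of_le_of_ne (hK i1) (Ne.symm hi1'.2)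
  have hqS : ∀ i ∈ S, q * dt g (a i) ≤ p * dt K (a i) := by
    intro i hi
    have h1 := hi1max i hi
    have hi' : dt H (a i) = 0 ∧ dt K (a i) ≠ 0 := by simpa [hS] using hi
    have h2 : 0 < dt K (a i) := lt_of_le_of_ne (hK i) (Ne.symm hi'.2)
    have h2' : (0 : ℚ) < (dt K (a i) : ℚ) := by exact_mod_cast h2
    have h3' : (0 : ℚ) < (q : ℚ) := by exact_mod_cast hq0
    rw [div_le_div_iff₀ h2' h3'] at h1
    have h4 : dt g (a i) * q ≤ p * dt K (a i) := by exact_mod_cast h1
    linarith
  set h : Lat d := p • K - q • g with hh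
  have hhe : ∀ i, dt h (a i) = p * dt K (a i) - q * dt g (a i) := fun i => flex_dt_sub _ _ _ _ _
  have hh0 : ∀ i, dt H (a i) = 0 → 0 ≤ dt h (a i) := by
    intro i hi
    by_cases hKi : dt K (a i) = 0
    · rw [hhe, hKi, hg i hKi]; simp
    · have := hqS i (by simp [hS, hi, hKi])
      rw [hhe]; linarith
  set L : ℤ := 1 + ∑ i, |dt h (a i)| with hL
  have hLi : ∀ i, -dt h (a i) < L := by
    intro i
    have h1 : |dt h (a i)| ≤ ∑ i, |dt h (a i)| :=
      single_le_sum (f := fun i => |dt h (a i)|) (fun i _ => abs_nonneg _) (mem_univ i)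
    have h2 := neg_abs_le (dt h (a i))
    linarith
  have hL0 : 0 < L := by
    have : 0 ≤ ∑ i, |dt h (a i)| := sum_nonneg fun i _ => abs_nonneg _
    linarith
  have hGe : ∀ i, dt (h + L • H) (a i) = dt h (a i) + L * dt H (a i) :=
    fun i => flex_dt_add _ _ _ _
  have hGpos : ∀ i, dt H (a i) ≠ 0 → 0 < dt (h + L • H) (a i) := by
    intro i hi
    have h1 : 1 ≤ dt H (a i) := by
      have := hH i
      omega
    rw [hGe]
    have h2 := hLi i
    nlinarith
  have hGz : ∀ i, dt H (a i) = 0 → dt (h + L • H) (a i) = dt h (a i) := by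
    intro i hi
    rw [hGe, hi]; ring
  have hfin := hmax (h + L • H) (fun i => by
      by_cases hi : dt H (a i) = 0
      · rw [hGz i hi]; exact hh0 i hi
      · exact (hGpos i hi).le)
    (fun i hi => by rw [hGz i (hsub i hi), hhe, hi, hg i hi]; ring)
    (fun i hi => by
      by_contra hne
      exact (hGpos i hne).ne' hi)
    ⟨i1, by rw [hGz i1 hi1'.1, hhe]; ring, hi1'.2⟩
  refine ⟨q, p, hq0.ne', fun i hi => ?_⟩
  have h1 := hfin i hi
  rw [hGz i hi, hhe] at h1
  linarith

/-- descending in the lattice of faces -/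
theorem flex_desc {d : ℕ} {ι : Type} [Fintype ι] (a : ι → Lat d) (K H : Lat d)
    (hK : ∀ i, 0 ≤ dt K (a i)) (hH : ∀ i, 0 ≤ dt H (a i))
    (hsub : ∀ i, dt K (a i) = 0 → dt H (a i) = 0)
    (hst : ∃ i, dt H (a i) = 0 ∧ dt K (a i) ≠ 0) :
    ∃ G : Lat d, (∀ i, 0 ≤ dt G (a i)) ∧ (∀ i, dt K (a i) = 0 → dt G (a i) = 0) ∧
      (∀ i, dt G (a i) = 0 → dt H (a i) = 0) ∧ (∃ i, dt H (a i) = 0 ∧ dt G (a i) ≠ 0) ∧
      (∀ g : Lat d, (∀ i, dt G (a i) = 0 → dt g (a i) = 0) →
        ∃ N n : ℤ, N ≠ 0 ∧ ∀ i, dt H (a i) = 0 → N * dt g (a i) = n * dt G (a i)) := by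
  classical
  set P : ℕ → Prop := fun n => ∃ G : Lat d, (∀ i, 0 ≤ dt G (a i)) ∧
    (∀ i, dt K (a i) = 0 → dt G (a i) = 0) ∧
    (∀ i, dt G (a i) = 0 → dt H (a i) = 0) ∧ (∃ i, dt H (a i) = 0 ∧ dt G (a i) ≠ 0) ∧
    (univ.filter (fun i => dt G (a i) = 0)).card = n with hP
  have hP0 : P (univ.filter (fun i => dt K (a i) = 0)).card :=
    ⟨K, hK, fun _ h => h, hsub, hst, rfl⟩
  have hbd : ∀ n, P n → n ≤ Fintype.card ι := by
    rintro n ⟨G, -, -, -, -, rfl⟩
    exact card_le_univ _
  have hPm := Nat.findGreatest_spec (P := P) (hbd _ hP0) hP0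
  set m := Nat.findGreatest P (Fintype.card ι) with hm
  obtain ⟨G, hG, hKG, hGH, hst', hcard⟩ := hPm
  refine ⟨G, hG, hKG, hGH, hst', ?_⟩
  refine flex_rank a G H hG hH hGH hst' ?_
  intro G' hG' hGG' hG'H hex
  by_contra hcon
  push Not at hcon
  obtain ⟨i, hi, hi'⟩ := hcon
  have hP' : P (univ.filter (fun i => dt G' (a i) = 0)).card :=
    ⟨G', hG', fun i h => hGG' i (hKG i h), hG'H, ⟨i, hi, hi'⟩, rfl⟩
  have h1 := Nat.le_findGreatest (hbd _ hP') hP'
  have h2 : (univ.filter (fun i => dt G (a i) = 0)).card <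
      (univ.filter (fun i => dt G' (a i) = 0)).card := by
    apply card_lt_card
    rw [ssubset_iff_of_subset]
    · obtain ⟨i2, h3, h4⟩ := hex
      exact ⟨i2, by simp [h3], by simp [h4]⟩
    · intro i3 h5
      simp only [mem_filter, mem_univ, true_and] at h5 ⊢
      exact hGG' i3 h5
  omega

/-- the chain condition -/
def FlexChain {d : ℕ} {ι : Type} [Fintype ι] (a : ι → Lat d) (s : ℕ) (Hs : ℕ → Lat d) : Prop :=
  (∀ j, j ≤ s → ∀ i, 0 ≤ dt (Hs j) (a i)) ∧
      (∃ i0, dt (Hs 0) (a i0) = 0 ∧ ∀ i, dt (Hs 0) (a i) = 0 → a i = a i0) ∧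
      (∀ j, j < s → ∀ i, dt (Hs j) (a i) = 0 → dt (Hs (j + 1)) (a i) = 0) ∧
      (∀ j, j < s → ∃ i1, dt (Hs (j + 1)) (a i1) = 0 ∧ dt (Hs j) (a i1) ≠ 0) ∧
      (∀ j, j < s → ∀ g : Lat d, (∀ i, dt (Hs j) (a i) = 0 → dt g (a i) = 0) →
        ∃ N n : ℤ, N ≠ 0 ∧ ∀ i, dt (Hs (j + 1)) (a i) = 0 →
          N * dt g (a i) = n * dt (Hs j) (a i))

theorem flex_extend {d : ℕ} {ι : Type} [Fintype ι] (a : ι → Lat d) (s : ℕ) (Hs : ℕ → Lat d)
    (hc : FlexChain a s Hs) (H : Lat d) (hH : ∀ i, 0 ≤ dt H (a i))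
    (hGH : ∀ i, dt (Hs s) (a i) = 0 → dt H (a i) = 0)
    (hst : ∃ i, dt H (a i) = 0 ∧ dt (Hs s) (a i) ≠ 0)
    (hr : ∀ g : Lat d, (∀ i, dt (Hs s) (a i) = 0 → dt g (a i) = 0) →
        ∃ N n : ℤ, N ≠ 0 ∧ ∀ i, dt H (a i) = 0 → N * dt g (a i) = n * dt (Hs s) (a i)) :
    FlexChain a (s + 1) (fun j => if j ≤ s then Hs j else H) := by
  obtain ⟨h1, h2, h3, h4, h5⟩ := hc
  refine ⟨?_, ?_, ?_, ?_, ?_⟩
  · intro j hj
    by_cases hjs : j ≤ s
    · simpa [hjs] using h1 j hjs
    · simpa [hjs] using hH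
  · simpa using h2
  · intro j hj
    rcases Nat.lt_succ_iff_lt_or_eq.1 hj with hj' | rfl
    · simpa [hj'.le, Nat.succ_le_of_lt hj'] using h3 j hj'
    · simpa using hGH
  · intro j hj
    rcases Nat.lt_succ_iff_lt_or_eq.1 hj with hj' | rfl
    · simpa [hj'.le, Nat.succ_le_of_lt hj'] using h4 j hj'
    · simpa using hst
  · intro j hj
    rcases Nat.lt_succ_iff_lt_or_eq.1 hj with hj' | rfl
    · simpa [hj'.le, Nat.succ_le_of_lt hj'] using h5 j hj'
    · simpa using hr

/-- complete chains up to a nonempty face -/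
theorem flex_chain {d : ℕ} {ι : Type} [Fintype ι] (a : ι → Lat d) (δ : Lat d)
    (hδ : ∀ i, dt δ (a i) = 1) (m : ℕ) : ∀ H : Lat d, (∀ i, 0 ≤ dt H (a i)) →
      (univ.filter (fun i => dt H (a i) = 0)).card ≤ m → (∃ i, dt H (a i) = 0) →
      ∃ (s : ℕ) (Hs : ℕ → Lat d), Hs s = H ∧ FlexChain a s Hs := by
  classical
  induction m with
  | zero =>
    intro H _ hc ⟨i, hi⟩
    have := card_eq_zero.1 (Nat.le_zero.1 hc)
    have h2 : i ∈ univ.filter (fun i => dt H (a i) = 0) := by simp [hi]
    rw [this] at h2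
    simp at h2
  | succ m ih =>
    intro H hH hc ⟨i0, hi0⟩
    obtain ⟨G, hG, -, hGH, hst, hr⟩ := flex_desc a δ H (fun i => by rw [hδ i]; norm_num) hH
      (fun i hi => by rw [hδ i] at hi; exact absurd hi one_ne_zero)
      ⟨i0, hi0, by rw [hδ i0]; norm_num⟩
    by_cases hne : ∃ i, dt G (a i) = 0
    · have hcard : (univ.filter (fun i => dt G (a i) = 0)).card <
          (univ.filter (fun i => dt H (a i) = 0)).card := by
        apply card_lt_card
        rw [ssubset_iff_of_subset]
        · obtain ⟨i2, h3, h4⟩ := hst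
          exact ⟨i2, by simp [h3], by simp [h4]⟩
        · intro i3 h5
          simp only [mem_filter, mem_univ, true_and] at h5 ⊢
          exact hGH i3 h5
      obtain ⟨s, Hs, hs, hch⟩ := ih G hG (by omega) hne
      subst hs
      exact ⟨s + 1, fun j => if j ≤ s then Hs j else H, by simp,
        flex_extend a s Hs hch H hH hGH hst hr⟩
    · refine ⟨0, fun _ => H, rfl, fun _ _ => hH, ⟨i0, hi0, ?_⟩, fun j hj => by omega,
        fun j hj => by omega, fun j hj => by omega⟩
      have hG0 : ∀ g : Lat d, ∃ N n : ℤ, N ≠ 0 ∧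
          ∀ i, dt H (a i) = 0 → N * dt g (a i) = n * dt G (a i) :=
        fun g => hr g (fun i hi => absurd ⟨i, hi⟩ hne)
      obtain ⟨N, n, hN, hNn⟩ := hG0 δ
      have hGc : ∀ i, dt H (a i) = 0 → dt G (a i) = dt G (a i0) := by
        intro i hi
        have h1 := hNn i hi
        have h2 := hNn i0 hi0
        rw [hδ] at h1 h2
        have hn : n ≠ 0 := by
          rintro rfl
          apply hN; linarith
        exact mul_left_cancel₀ hn (by rw [← h1, ← h2])
      intro i hi
      funext j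
      obtain ⟨N', n', hN', hNn'⟩ := hG0 (ev j)
      have h1 := hNn' i hi
      have h2 := hNn' i0 hi0
      rw [dt_ev] at h1 h2
      exact mul_left_cancel₀ hN' (by rw [h1, h2, hGc i hi])

/-- complete chains through a face -/
theorem flex_through {d : ℕ} {ι : Type} [Fintype ι] (a : ι → Lat d) (δ : Lat d)
    (hδ : ∀ i, dt δ (a i) = 1) (H' : Lat d) (hH' : ∀ i, 0 ≤ dt H' (a i))
    (hne : ∃ i, dt H' (a i) = 0) (m : ℕ) : ∀ H : Lat d, (∀ i, 0 ≤ dt H (a i)) →
      (∀ i, dt H' (a i) = 0 → dt H (a i) = 0) →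
      (univ.filter (fun i => dt H (a i) = 0)).card ≤ m →
      ∃ (s j0 : ℕ) (Hs : ℕ → Lat d), j0 ≤ s ∧ Hs s = H ∧
      (∀ i, dt (Hs j0) (a i) = 0 ↔ dt H' (a i) = 0) ∧ FlexChain a s Hs := by
  classical
  induction m with
  | zero =>
    intro H _ hs hc
    obtain ⟨i, hi⟩ := hne
    have := card_eq_zero.1 (Nat.le_zero.1 hc)
    have h2 : i ∈ univ.filter (fun i => dt H (a i) = 0) := by simp [hs i hi]
    rw [this] at h2
    simp at h2
  | succ m ih =>
    intro H hH hs hc
    by_cases heq : ∀ i, dt H (a i) = 0 → dt H' (a i) = 0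
    · obtain ⟨i, hi⟩ := hne
      obtain ⟨s, Hs, h1, h2⟩ := flex_chain a δ hδ _ H hH le_rfl ⟨i, hs i hi⟩
      refine ⟨s, s, Hs, le_rfl, h1, ?_, h2⟩
      intro i
      rw [h1]
      exact ⟨heq i, hs i⟩
    · push Not at heq
      obtain ⟨G, hG, hKG, hGH, hst, hr⟩ := flex_desc a H' H hH' hH hs heq
      have hcard : (univ.filter (fun i => dt G (a i) = 0)).card <
          (univ.filter (fun i => dt H (a i) = 0)).card := by
        apply card_lt_card
        rw [ssubset_iff_of_subset]
        · obtain ⟨i2, h3, h4⟩ := hst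
          exact ⟨i2, by simp [h3], by simp [h4]⟩
        · intro i3 h5
          simp only [mem_filter, mem_univ, true_and] at h5 ⊢
          exact hGH i3 h5
      obtain ⟨s, j0, Hs, hj0, hs', hz, hch⟩ := ih G hG hKG (by omega)
      subst hs'
      refine ⟨s + 1, j0, fun j => if j ≤ s then Hs j else H, by omega, by simp, ?_,
        flex_extend a s Hs hch H hH hGH hst hr⟩
      intro i
      simpa [hj0] using hz i

/-- FLEX -/
theorem flex {d : ℕ} {ι : Type} [Fintype ι] (a : ι → Lat d) (δ : Lat d)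
    (hδ : ∀ i, dt δ (a i) = 1) (H H' : Lat d) (hH : ∀ i, 0 ≤ dt H (a i))
    (hH' : ∀ i, 0 ≤ dt H' (a i)) (hsub : ∀ i, dt H' (a i) = 0 → dt H (a i) = 0)
    (hne : ∃ i, dt H' (a i) = 0) :
    ∃ (s j0 : ℕ) (Hs : ℕ → Lat d), j0 ≤ s ∧ Hs s = H ∧
      (∀ i, dt (Hs j0) (a i) = 0 ↔ dt H' (a i) = 0) ∧
      (∀ j, j ≤ s → ∀ i, 0 ≤ dt (Hs j) (a i)) ∧
      (∃ i0, dt (Hs 0) (a i0) = 0 ∧ ∀ i, dt (Hs 0) (a i) = 0 → a i = a i0) ∧
      (∀ j, j < s → ∀ i, dt (Hs j) (a i) = 0 → dt (Hs (j + 1)) (a i) = 0) ∧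
      (∀ j, j < s → ∃ i1, dt (Hs (j + 1)) (a i1) = 0 ∧ dt (Hs j) (a i1) ≠ 0) ∧
      (∀ j, j < s → ∀ g : Lat d, (∀ i, dt (Hs j) (a i) = 0 → dt g (a i) = 0) →
        ∃ N n : ℤ, N ≠ 0 ∧ ∀ i, dt (Hs (j + 1)) (a i) = 0 →
          N * dt g (a i) = n * dt (Hs j) (a i)) := by
  exact flex_through a δ hδ H' hH' hne _ H hH hsub le_rfl

end Pool.Agent.H56.SMC

end S_FLEX
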