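import Mathlib
import Pool.Agent.H56.SMC.CfgDefs
import Pool.Agent.H56.SL.A2
import Pool.Agent.H56.SL.A3

/-! Strong monodromy for nondegenerate polynomials, part A4: this file joins the modules CMP, CM, CONIC, FL, KEXG, KEXA, KEXF. -/

set_option autoImplicit false

section S_CMP

/-!
# CMP: assembly in characteristic `p`

Proof.  `cp_col` + `cp_tight` (with `I = {i < m}`) give the hypothesis `hreg` of `cp_kos` with `S = Sset h`.
-/

set_option autoImplicit false

namespace Pool.Agent.H56.SMC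

open Finset AddMonoidAlgebra

/-- CMP -/
theorem cmp (q0 : ℕ) [Fact q0.Prime] {k : Type} [Field k] [CharP k q0] [PerfectRing k q0] {d : ℕ} {κ : Type} [Fintype κ] (h : κ → Lat d) (δ : Lat d)
    (hpos : ∀ u ∈ Sset h, u ≠ 0 → 0 < dt δ u) {r : ℕ} (e : ℤ) (he : 0 < e) (g : Fin r → LP k d)
    (hg : ∀ i, Supp {u | u ∈ Sset h ∧ dt δ u = e} (g i))
    (hfl : ∀ u ∈ Sset h, u ≠ 0 → ∃ (N : ℕ) (z : Fin r → LP k d), (∀ j, Supp (Sset h) (z j)) ∧
      (single (N • u) 1 : LP k d) = ∑ j, g j * z j)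
    (s : Fin r → Lat d) (hs : ∀ i, s i ∈ Sset h) (hind : LinearIndependent ℤ s)
    (x : Fin r → LP k d) (hx : ∀ j, Supp (Sset h) (x j)) (h0 : ∑ j, g j * x j = 0) :
    ∃ y : Fin r → Fin r → LP k d, (∀ j k, Supp (Sset h) (y j k)) ∧ (∀ j k, y j k = -y k j) ∧
      (∀ j, y j j = 0) ∧ ∀ j, x j = ∑ k, g k * y j k := by
  obtain ⟨c, hc, hcS, hcol⟩ := cp_col q0 h δ hpos e he g hg hfl s hs hind
  refine cp_kos (Sset h) ?_ g (fun i => (hg i).mono fun u hu => hu.1) ?_ x hx h0
  · intro u hu v hv w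
    rw [dt_add]
    exact add_nonneg (hu w) (hv w)
  · intro m z x hz hx hrel
    exact cp_tight q0 h g c hc hcS z _ (hcol m z x hz hx hrel)

end Pool.Agent.H56.SMC

end S_CMP

section S_CM

/-!
# CM: the Koszul complex is exact at `H_1` in characteristic `0`

Proof.  WLOG all `x_j` homogeneous of one degree `D` (`dt δ u = D` on the supports): take the parts of each degree (finitely many; the `g_j` are homogeneous of
degree `e`) and add the results.  Let `G` be the generators of `Sset h` (`sfg`), `N_s`, `z^{(s)}` from `hfl` for `s ∈ G`, `T` = all coefficients of the `g_j` and of the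
`z^{(s)}_j`, `B = Algebra.adjoin ℤ T`, `φ : B → k` from `trhom` (`k` finite, hence perfect).  Let `ḡ_j` be the images of the `g_j` over `k` (same supports or smaller).  Over `k` `hfl` holds for
`s ∈ G` (apply `φ` to the coefficients), and for general `u ∈ Sset h`, `u ≠ 0`: `u = ∑ n_s s` with some `n_s > 0`, `x^{N_s u} = x^{N_s s} x^{N_s (u - s)}`.  So `cmp` applies over `k`.
Finite index sets (`sfin`): `β = {(j,u) : u ∈ S, dt δ u = D}`, `α = {u ∈ S : dt δ u = D + e}`, `γ = {(j,k,u) : u ∈ S, dt δ u = D - e}`, `M'` = the matrix of `x ↦ ∑ g_j x_j`,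
`M` = the matrix of `w ↦ (∑_k g_k (w_jk - w_kj))_j`; `M' M = 0`.  `hex` of `trrank`: by `cmp` (take the parts of degree `D - e` of the `y_jk`), with `y_jk = w_jk - w_kj`, `w_jk = y_jk` for `j < k` and `0` otherwise
(here `y_jj = 0` is used).  `trrank` gives `w` over `ℂ`, `y_jk = w_jk - w_kj`.
-/

set_option autoImplicit false

namespace Pool.Agent.H56.SMC

open Finset AddMonoidAlgebra

/-- the lattice points of degree `m` -/
abbrev CmLv {d : ℕ} {κ : Type} (h : κ → Lat d) (δ : Lat d) (m : ℤ) : Type :=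
  {u : Lat d // u ∈ Sset h ∧ dt δ u = m}

section
variable {R : Type} [CommRing R] {d : ℕ} {κ : Type} (h : κ → Lat d) (δ : Lat d)

theorem cm_add_mem {u v : Lat d} (hu : u ∈ Sset h) (hv : v ∈ Sset h) : u + v ∈ Sset h := by
  intro k
  have h1 := hu k
  have h2 := hv k
  rw [dt_add]
  linarith

theorem cm_zero_mem : (0 : Lat d) ∈ Sset h := by
  intro k
  rw [dt_zero]

theorem cm_nsmul_mem {u : Lat d} (hu : u ∈ Sset h) (n : ℕ) : n • u ∈ Sset h := by
  intro k
  have h1 := hu k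
  rw [dt_nsmul]
  positivity

theorem cm_sum_mem (G : Finset (Lat d)) (hG : ∀ s ∈ G, s ∈ Sset h) (n : Lat d → ℕ) :
    ∑ s ∈ G, n s • s ∈ Sset h := by
  classical
  induction G using Finset.induction_on with
  | empty => simpa using cm_zero_mem h
  | insert a s ha ih =>
    rw [sum_insert ha]
    exact cm_add_mem h (cm_nsmul_mem h (hG a (mem_insert_self a s)) _)
      (ih fun i hi => hG i (mem_insert_of_mem hi))

theorem cm_mul_coeff (g x : LP R d) (a : Lat d) :
    (g * x).coeff a = ∑ v ∈ g.coeff.support, g.coeff v * x.coeff (a - v) := by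
  have hg : g = ∑ v ∈ g.coeff.support, single v (g.coeff v) := by
    apply lp_ext
    intro u
    rw [coeff_finsum]
    simp only [coeff_single']
    by_cases hu : u ∈ g.coeff.support
    · rw [sum_eq_single u]
      · rw [if_pos rfl]
      · intro v _ hv
        rw [if_neg (Ne.symm hv)]
      · intro h1
        exact absurd hu h1
    · rw [sum_eq_zero]
      · exact Finsupp.notMem_support_iff.1 hu
      · intro v hv
        rw [if_neg]
        rintro rfl
        exact hu hv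
  conv_lhs => rw [hg]
  rw [sum_mul, coeff_finsum]
  exact sum_congr rfl fun v _ => single_mul_coeff _ _ _ _

variable [∀ m, Fintype (CmLv h δ m)]

/-- the Laurent polynomial with given coefficients in degree `m` -/
noncomputable def cm_lp {m : ℤ} (v : CmLv h δ m → R) : LP R d := ∑ u, single u.1 (v u)

theorem cm_lp_coeff {m : ℤ} (v : CmLv h δ m → R) (u : CmLv h δ m) :
    (cm_lp h δ v).coeff u.1 = v u := by
  unfold cm_lp
  rw [coeff_finsum]
  simp only [coeff_single']
  rw [sum_eq_single u]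
  · rw [if_pos rfl]
  · intro t _ ht
    rw [if_neg]
    intro h1
    exact ht (Subtype.ext h1).symm
  · intro h1
    exact absurd (mem_univ _) h1

theorem cm_lp_coeff_zero {m : ℤ} (v : CmLv h δ m → R) (u : Lat d)
    (hu : ¬ (u ∈ Sset h ∧ dt δ u = m)) : (cm_lp h δ v).coeff u = 0 := by
  unfold cm_lp
  rw [coeff_finsum]
  simp only [coeff_single']
  refine sum_eq_zero fun t _ => ?_
  rw [if_neg]
  rintro rfl
  exact hu t.2

theorem cm_lp_supp {m : ℤ} (v : CmLv h δ m → R) :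
    Supp {u | u ∈ Sset h ∧ dt δ u = m} (cm_lp h δ v) := by
  intro u hu
  by_contra h1
  exact hu (cm_lp_coeff_zero h δ v u h1)

/-- the part of degree `m` -/
noncomputable def cm_part (m : ℤ) (x : LP R d) : LP R d :=
  cm_lp h δ (fun u : CmLv h δ m => x.coeff u.1)

theorem cm_part_coeff (m : ℤ) (x : LP R d) (u : Lat d) (hu : u ∈ Sset h ∧ dt δ u = m) :
    (cm_part h δ m x).coeff u = x.coeff u :=
  cm_lp_coeff h δ (fun u : CmLv h δ m => x.coeff u.1) ⟨u, hu⟩

theorem cm_part_coeff_zero (m : ℤ) (x : LP R d) (u : Lat d)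
    (hu : ¬ (u ∈ Sset h ∧ dt δ u = m)) : (cm_part h δ m x).coeff u = 0 :=
  cm_lp_coeff_zero h δ _ u hu

theorem cm_part_supp (m : ℤ) (x : LP R d) :
    Supp {u | u ∈ Sset h ∧ dt δ u = m} (cm_part h δ m x) := cm_lp_supp h δ _

theorem cm_part_eq (m : ℤ) (x : LP R d) (hx : Supp {u | u ∈ Sset h ∧ dt δ u = m} x) :
    cm_part h δ m x = x := by
  apply lp_ext
  intro u
  by_cases hu : u ∈ Sset h ∧ dt δ u = m
  · exact cm_part_coeff h δ m x u hu
  · rw [cm_part_coeff_zero h δ m x u hu]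
    by_contra h1
    exact hu (hx u (Ne.symm h1))

theorem cm_part_lp {m : ℤ} (v : CmLv h δ m → R) (x : LP R d) (hv : ∀ u, v u = x.coeff u.1) :
    cm_lp h δ v = cm_part h δ m x := by
  unfold cm_part
  congr 1
  funext u
  exact hv u

theorem cm_part_sum {α : Type} (s : Finset α) (m : ℤ) (f : α → LP R d) :
    cm_part h δ m (∑ i ∈ s, f i) = ∑ i ∈ s, cm_part h δ m (f i) := by
  apply lp_ext
  intro u
  rw [coeff_finsum]
  by_cases hu : u ∈ Sset h ∧ dt δ u = m
  · rw [cm_part_coeff h δ m _ u hu, coeff_finsum]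
    exact sum_congr rfl fun i _ => (cm_part_coeff h δ m _ u hu).symm
  · rw [cm_part_coeff_zero h δ m _ u hu]
    exact (sum_eq_zero fun i _ => cm_part_coeff_zero h δ m _ u hu).symm

theorem cm_part_mul (D e D' : ℤ) (hD : D' = D + e) (g x : LP R d)
    (hg : Supp {u | u ∈ Sset h ∧ dt δ u = e} g) (hx : Supp (Sset h) x) :
    g * cm_part h δ D x = cm_part h δ D' (g * x) := by
  subst hD
  apply lp_ext
  intro a
  rw [cm_mul_coeff]
  by_cases ha : a ∈ Sset h ∧ dt δ a = D + e
  · rw [cm_part_coeff h δ _ _ a ha, cm_mul_coeff]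
    refine sum_congr rfl fun v hv => ?_
    congr 1
    have hv' := hg v (Finsupp.mem_support_iff.1 hv)
    by_cases hav : a - v ∈ Sset h
    · rw [cm_part_coeff]
      refine ⟨hav, ?_⟩
      rw [dt_sub, ha.2, hv'.2]
      ring
    · rw [cm_part_coeff_zero h δ _ _ _ (fun h1 => hav h1.1)]
      by_contra h1
      exact hav (hx _ (Ne.symm h1))
  · rw [cm_part_coeff_zero h δ _ _ a ha]
    refine sum_eq_zero fun v hv => ?_
    have hv' := hg v (Finsupp.mem_support_iff.1 hv)
    rw [cm_part_coeff_zero, mul_zero]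
    intro h1
    apply ha
    have h2 : a = (a - v) + v := by abel
    constructor
    · rw [h2]
      exact cm_add_mem h h1.1 hv'.1
    · rw [h2, dt_add, h1.2, hv'.2]

theorem cm_mul_supp (D e D' : ℤ) (hD : D' = D + e) (g x : LP R d)
    (hg : Supp {u | u ∈ Sset h ∧ dt δ u = e} g) (hx : Supp {u | u ∈ Sset h ∧ dt δ u = D} x) :
    Supp {u | u ∈ Sset h ∧ dt δ u = D'} (g * x) := by
  have h1 := cm_part_mul h δ D e D' hD g x hg (hx.mono fun u hu => hu.1)
  rw [cm_part_eq h δ D x hx] at h1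
  rw [h1]
  exact cm_part_supp h δ _ _

theorem cm_mul_lp {m : ℤ} (g : LP R d) (v : CmLv h δ m → R) (a : Lat d) :
    (g * cm_lp h δ v).coeff a = ∑ u, g.coeff (a - u.1) * v u := by
  unfold cm_lp
  rw [mul_sum, coeff_finsum]
  refine sum_congr rfl fun u _ => ?_
  rw [mul_comm, single_mul_coeff, mul_comm]

variable {r : ℕ}

/-- matrix of `x ↦ ∑ g_j x_j` from degree `D` to degree `D + e` -/
def cm_Mp (g : Fin r → LP R d) (D e : ℤ) :
    Matrix (CmLv h δ (D + e)) (Fin r × CmLv h δ D) R :=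
  Matrix.of fun a p => (g p.1).coeff (a.1 - p.2.1)

/-- matrix of `w ↦ (∑_k g_k (w_jk - w_kj))_j` from degree `D - e` to degree `D` -/
def cm_Mm (g : Fin r → LP R d) (D e : ℤ) :
    Matrix (Fin r × CmLv h δ D) (Fin r × Fin r × CmLv h δ (D - e)) R :=
  Matrix.of fun p q => (if p.1 = q.1 then (g q.2.1).coeff (p.2.1 - q.2.2.1) else 0) -
    (if p.1 = q.2.1 then (g q.1).coeff (p.2.1 - q.2.2.1) else 0)

theorem cm_Mp_mulVec (g : Fin r → LP R d) (D e : ℤ) (v : Fin r × CmLv h δ D → R)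
    (a : CmLv h δ (D + e)) :
    (cm_Mp h δ g D e).mulVec v a =
      (∑ j, g j * cm_lp h δ (fun u => v (j, u))).coeff a.1 := by
  rw [coeff_finsum]
  simp only [cm_mul_lp]
  unfold Matrix.mulVec dotProduct cm_Mp
  rw [Fintype.sum_prod_type]
  rfl

theorem cm_Mm_mulVec (g : Fin r → LP R d) (D e : ℤ)
    (w : Fin r × Fin r × CmLv h δ (D - e) → R) (j : Fin r) (u : CmLv h δ D) :
    (cm_Mm h δ g D e).mulVec w (j, u) =
      (∑ k, g k * (cm_lp h δ (fun t => w (j, k, t)) - cm_lp h δ (fun t => w (k, j, t)))).coeff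
        u.1 := by
  have h1 : (∑ k, g k * (cm_lp h δ (fun t => w (j, k, t)) -
      cm_lp h δ (fun t => w (k, j, t)))).coeff u.1 =
      ∑ k, ∑ t : CmLv h δ (D - e), (g k).coeff (u.1 - t.1) * w (j, k, t) -
      ∑ k, ∑ t : CmLv h δ (D - e), (g k).coeff (u.1 - t.1) * w (k, j, t) := by
    rw [coeff_finsum, ← sum_sub_distrib]
    refine sum_congr rfl fun k _ => ?_
    rw [mul_sub, coeff_sub', cm_mul_lp, cm_mul_lp]
  rw [h1]
  unfold Matrix.mulVec dotProduct cm_Mm
  simp only [Matrix.of_apply, sub_mul, sum_sub_distrib, Fintype.sum_prod_type]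
  congr 1
  · rw [sum_eq_single j]
    · simp only [if_pos]
    · intro b _ hb
      refine sum_eq_zero fun k _ => sum_eq_zero fun t _ => ?_
      rw [if_neg (Ne.symm hb), zero_mul]
    · intro h2
      exact absurd (mem_univ _) h2
  · refine sum_congr rfl fun k _ => ?_
    rw [sum_eq_single j]
    · simp only [if_pos]
    · intro b _ hb
      refine sum_eq_zero fun t _ => ?_
      rw [if_neg (Ne.symm hb), zero_mul]
    · intro h2
      exact absurd (mem_univ _) h2

theorem cm_antisym_sum (g : Fin r → LP R d) (W : Fin r → Fin r → LP R d) :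
    ∑ j, g j * ∑ k, g k * (W j k - W k j) = 0 := by
  have h1 : ∀ j, g j * ∑ k, g k * (W j k - W k j) =
      ∑ k, g j * g k * W j k - ∑ k, g j * g k * W k j := by
    intro j
    rw [mul_sum, ← sum_sub_distrib]
    exact sum_congr rfl fun k _ => by ring
  simp only [h1, sum_sub_distrib]
  rw [sub_eq_zero, sum_comm]
  exact sum_congr rfl fun j _ => sum_congr rfl fun k _ => by ring

theorem cm_MM [DecidableEq (CmLv h δ 0)] (g : Fin r → LP R d) (D e : ℤ)
    (hg : ∀ j, Supp {u | u ∈ Sset h ∧ dt δ u = e} (g j)) :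
    cm_Mp h δ g D e * cm_Mm h δ g D e = 0 := by
  classical
  ext a q
  have h1 : ((cm_Mp h δ g D e * cm_Mm h δ g D e).mulVec (Pi.single q 1)) a = 0 := by
    rw [← Matrix.mulVec_mulVec, cm_Mp_mulVec]
    have h2 : ∀ j, cm_lp h δ (fun u => (cm_Mm h δ g D e).mulVec (Pi.single q 1) (j, u)) =
        ∑ k, g k * (cm_lp h δ (fun t => (Pi.single q (1 : R) :
          Fin r × Fin r × CmLv h δ (D - e) → R) (j, k, t)) -
          cm_lp h δ (fun t => (Pi.single q (1 : R) :
          Fin r × Fin r × CmLv h δ (D - e) → R) (k, j, t))) := by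
      intro j
      rw [cm_part_lp h δ _ _ (fun u => cm_Mm_mulVec h δ g D e _ j u)]
      apply cm_part_eq
      refine Supp.sum _ fun k _ => ?_
      exact cm_mul_supp h δ (D - e) e D (by ring) _ _ (hg k)
        ((cm_lp_supp h δ _).sub (cm_lp_supp h δ _))
    simp only [h2]
    rw [cm_antisym_sum g (fun j k => cm_lp h δ (fun t => (Pi.single q (1 : R) :
          Fin r × Fin r × CmLv h δ (D - e) → R) (j, k, t)))]
    rfl
  rw [Matrix.mulVec_single_one] at h1
  exact h1

omit [∀ m, Fintype (CmLv h δ m)] in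
theorem cm_Mp_map {R' : Type} [CommRing R'] (f : R →+* R') (g : Fin r → LP R d) (D e : ℤ) :
    (cm_Mp h δ g D e).map f = cm_Mp h δ (fun j => mapRingHom (Lat d) f (g j)) D e := by
  ext a p
  simp [cm_Mp]

omit [∀ m, Fintype (CmLv h δ m)] in
theorem cm_Mm_map {R' : Type} [CommRing R'] (f : R →+* R') (g : Fin r → LP R d) (D e : ℤ) :
    (cm_Mm h δ g D e).map f = cm_Mm h δ (fun j => mapRingHom (Lat d) f (g j)) D e := by
  ext a p
  simp only [cm_Mm, Matrix.map_apply, Matrix.of_apply, map_sub, coeff_mapRingHom, apply_ite f,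
    map_zero]

/-- exactness of the Koszul complex gives exactness of the matrices -/
theorem cm_hex (g : Fin r → LP R d) (D e : ℤ)
    (hg : ∀ j, Supp {u | u ∈ Sset h ∧ dt δ u = e} (g j))
    (hK : ∀ x : Fin r → LP R d, (∀ j, Supp (Sset h) (x j)) → ∑ j, g j * x j = 0 →
      ∃ y : Fin r → Fin r → LP R d, (∀ j k, Supp (Sset h) (y j k)) ∧
        (∀ j k, y j k = -y k j) ∧ (∀ j, y j j = 0) ∧ ∀ j, x j = ∑ k, g k * y j k)
    (v : Fin r × CmLv h δ D → R) (hv : (cm_Mp h δ g D e).mulVec v = 0) :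
    ∃ w : Fin r × Fin r × CmLv h δ (D - e) → R, v = (cm_Mm h δ g D e).mulVec w := by
  classical
  obtain ⟨y, hy1, hy2, hy3, hy4⟩ := hK (fun j => cm_lp h δ (fun u => v (j, u)))
    (fun j => (cm_lp_supp h δ _).mono fun u hu => hu.1) (by
      have h1 : Supp {u | u ∈ Sset h ∧ dt δ u = D + e}
          (∑ j, g j * cm_lp h δ (fun u => v (j, u))) :=
        Supp.sum _ fun j _ => cm_mul_supp h δ D e _ rfl _ _ (hg j) (cm_lp_supp h δ _)
      rw [← cm_part_eq h δ _ _ h1]
      apply lp_ext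
      intro a
      by_cases ha : a ∈ Sset h ∧ dt δ a = D + e
      · rw [cm_part_coeff h δ _ _ a ha, ← cm_Mp_mulVec h δ g D e v ⟨a, ha⟩, hv]
        rfl
      · rw [cm_part_coeff_zero h δ _ _ a ha]
        rfl)
  refine ⟨fun q => if q.1 < q.2.1 then (y q.1 q.2.1).coeff q.2.2.1 else 0, ?_⟩
  have hW : ∀ j k, cm_lp h δ (fun t : CmLv h δ (D - e) =>
      if j < k then (y j k).coeff t.1 else 0) - cm_lp h δ (fun t : CmLv h δ (D - e) =>
      if k < j then (y k j).coeff t.1 else 0) = cm_part h δ (D - e) (y j k) := by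
    intro j k
    apply lp_ext
    intro u
    rw [coeff_sub']
    by_cases hu : u ∈ Sset h ∧ dt δ u = D - e
    · rw [cm_part_coeff h δ _ _ u hu]
      have h1 := cm_lp_coeff h δ (fun t : CmLv h δ (D - e) =>
        if j < k then (y j k).coeff t.1 else 0) ⟨u, hu⟩
      have h2 := cm_lp_coeff h δ (fun t : CmLv h δ (D - e) =>
        if k < j then (y k j).coeff t.1 else 0) ⟨u, hu⟩
      simp only at h1 h2
      rw [h1, h2]
      rcases lt_trichotomy j k with hjk | hjk | hjk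
      · rw [if_pos hjk, if_neg (not_lt.2 hjk.le), sub_zero]
      · subst hjk
        rw [if_neg (lt_irrefl _), sub_zero, hy3]
        rfl
      · rw [if_neg (not_lt.2 hjk.le), if_pos hjk, zero_sub, hy2 j k, coeff_neg']
    · rw [cm_lp_coeff_zero h δ _ u hu, cm_lp_coeff_zero h δ _ u hu,
        cm_part_coeff_zero h δ _ _ u hu, sub_zero]
  funext p
  obtain ⟨j, u⟩ := p
  rw [cm_Mm_mulVec]
  simp only [hW]
  have h3 : ∑ k, g k * cm_part h δ (D - e) (y j k) = cm_lp h δ (fun u => v (j, u)) := by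
    have h4 : ∀ k, g k * cm_part h δ (D - e) (y j k) = cm_part h δ D (g k * y j k) :=
      fun k => cm_part_mul h δ (D - e) e D (by ring) _ _ (hg k) (hy1 j k)
    simp only [h4]
    rw [← cm_part_sum, ← hy4 j]
    exact cm_part_eq h δ _ _ (cm_lp_supp h δ _)
  rw [h3]
  exact (cm_lp_coeff h δ (fun u => v (j, u)) u).symm

end

/-- lifting a Laurent polynomial to a subring -/
theorem cm_lift {d : ℕ} (B : Subalgebra ℤ ℂ) (x : LP ℂ d) (hx : ∀ u, x.coeff u ∈ B) :
    ∃ y : LP B d, mapRingHom (Lat d) (algebraMap B ℂ) y = x := by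
  refine ⟨ofCoeff (Finsupp.onFinset x.coeff.support (fun u => (⟨x.coeff u, hx u⟩ : B)) ?_), ?_⟩
  · intro u hu
    rw [Finsupp.mem_support_iff]
    intro h0
    exact hu (Subtype.ext h0)
  · apply lp_ext
    intro u
    rw [coeff_mapRingHom]
    rfl

theorem cm_inj {d : ℕ} (B : Subalgebra ℤ ℂ) (x y : LP B d)
    (hxy : mapRingHom (Lat d) (algebraMap B ℂ) x = mapRingHom (Lat d) (algebraMap B ℂ) y) :
    x = y := by
  apply lp_ext
  intro u
  have h1 := congrArg (fun t : LP ℂ d => t.coeff u) hxy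
  simp only [coeff_mapRingHom] at h1
  exact Subtype.ext h1

theorem cm_supp_map {d : ℕ} {R R' : Type} [CommRing R] [CommRing R'] (f : R →+* R')
    (S : Set (Lat d)) (x : LP R d) (hx : Supp S x) : Supp S (mapRingHom (Lat d) f x) := by
  intro u hu
  rw [coeff_mapRingHom] at hu
  exact hx u (fun h0 => hu (by rw [h0, map_zero]))

theorem cm_supp_lift {d : ℕ} (B : Subalgebra ℤ ℂ) (S : Set (Lat d)) (x : LP B d)
    (hx : Supp S (mapRingHom (Lat d) (algebraMap B ℂ) x)) : Supp S x := by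
  intro u hu
  apply hx u
  rw [coeff_mapRingHom]
  intro h0
  exact hu (Subtype.ext h0)

theorem cm_map_single {d : ℕ} {R R' : Type} [CommRing R] [CommRing R'] (f : R →+* R')
    (v : Lat d) : mapRingHom (Lat d) f (single v 1) = single v 1 := by
  apply lp_ext
  intro u
  rw [coeff_mapRingHom, coeff_single', coeff_single', apply_ite f, map_one, map_zero]

/-- from generators to all points -/
theorem cm_gen {d : ℕ} {κ : Type} (h : κ → Lat d) {R : Type} [CommRing R] {r : ℕ}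
    (g : Fin r → LP R d) (G : Finset (Lat d)) (hG : ∀ s ∈ G, s ∈ Sset h)
    (hgen : ∀ u ∈ Sset h, ∃ n : Lat d → ℕ, u = ∑ s ∈ G, n s • s)
    (hfl : ∀ s ∈ G, ∃ (N : ℕ) (z : Fin r → LP R d), (∀ j, Supp (Sset h) (z j)) ∧
      (single (N • s) 1 : LP R d) = ∑ j, g j * z j)
    (u : Lat d) (hu : u ∈ Sset h) (hu0 : u ≠ 0) :
    ∃ (N : ℕ) (z : Fin r → LP R d), (∀ j, Supp (Sset h) (z j)) ∧
      (single (N • u) 1 : LP R d) = ∑ j, g j * z j := by
  classical
  obtain ⟨n, hn⟩ := hgen u hu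
  obtain ⟨s, hs, hns⟩ : ∃ s ∈ G, n s ≠ 0 := by
    by_contra hcon
    push Not at hcon
    apply hu0
    rw [hn]
    exact sum_eq_zero fun s hs => by rw [hcon s hs, zero_smul]
  have hus : u - s ∈ Sset h := by
    have h1 : u - s = ∑ t ∈ G, (if t = s then n t - 1 else n t) • t := by
      rw [sub_eq_iff_eq_add, hn, ← add_sum_erase _ _ hs, ← add_sum_erase _ _ hs, if_pos rfl]
      have h2 : ∑ t ∈ G.erase s, (if t = s then n t - 1 else n t) • t =
          ∑ t ∈ G.erase s, n t • t :=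
        sum_congr rfl fun t ht => by rw [if_neg (ne_of_mem_erase ht)]
      rw [h2]
      have h3 : n s • s = (n s - 1) • s + s := by
        conv_lhs => rw [show n s = (n s - 1) + 1 by omega]
        rw [add_smul, one_smul]
      rw [h3]
      abel
    rw [h1]
    exact cm_sum_mem h G hG _
  obtain ⟨N, z, hz1, hz2⟩ := hfl s hs
  refine ⟨N, fun j => z j * single (N • (u - s)) 1, fun j => ?_, ?_⟩
  · intro a ha
    have ha' : (z j).coeff (a - N • (u - s)) ≠ 0 := by
      have h6 : (z j * single (N • (u - s)) 1).coeff a ≠ 0 := ha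
      rwa [mul_comm, single_mul_coeff, one_mul] at h6
    have h4 := cm_add_mem h (hz1 j _ ha') (cm_nsmul_mem h hus N)
    rwa [sub_add_cancel] at h4
  · have h5 : (single (N • u) 1 : LP R d) = single (N • s) 1 * single (N • (u - s)) 1 := by
      rw [AddMonoidAlgebra.single_mul_single, one_mul, ← smul_add]
      congr 2
      abel
    rw [h5, hz2, sum_mul]
    exact sum_congr rfl fun j _ => by rw [mul_assoc]

/-- CM -/
theorem cm {d : ℕ} {κ : Type} [Fintype κ] (h : κ → Lat d) (δ : Lat d)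
    (hpos : ∀ u ∈ Sset h, u ≠ 0 → 0 < dt δ u) {r : ℕ} (e : ℤ) (he : 0 < e) (g : Fin r → LP ℂ d)
    (hg : ∀ i, Supp {u | u ∈ Sset h ∧ dt δ u = e} (g i))
    (hfl : ∀ u ∈ Sset h, u ≠ 0 → ∃ (N : ℕ) (z : Fin r → LP ℂ d), (∀ j, Supp (Sset h) (z j)) ∧
      (single (N • u) 1 : LP ℂ d) = ∑ j, g j * z j)
    (s : Fin r → Lat d) (hs : ∀ i, s i ∈ Sset h) (hind : LinearIndependent ℤ s)
    (x : Fin r → LP ℂ d) (hx : ∀ j, Supp (Sset h) (x j)) (h0 : ∑ j, g j * x j = 0) :
    ∃ y : Fin r → Fin r → LP ℂ d, (∀ j k, Supp (Sset h) (y j k)) ∧ (∀ j k, y j k = -y k j) ∧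
      ∀ j, x j = ∑ k, g k * y j k := by
  classical
  -- finiteness of the graded pieces
  have hfin : ∀ m, Finite (CmLv h δ m) := by
    intro m
    refine Set.Finite.to_subtype (s := {u | u ∈ Sset h ∧ dt δ u = m}) ?_
    exact (sfin h δ hpos m).subset fun u hu => ⟨hu.1, hu.2.le⟩
  let _ : ∀ m, Fintype (CmLv h δ m) := fun m => Fintype.ofFinite _
  -- the generators and the coefficients
  obtain ⟨G, hG1, hG2⟩ := sfg h δ hpos
  have hflG : ∀ t : G, ∃ (N : ℕ) (z : Fin r → LP ℂ d), (∀ j, Supp (Sset h) (z j)) ∧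
      (single (N • t.1) 1 : LP ℂ d) = ∑ j, g j * z j :=
    fun t => hfl t.1 (hG1 t.1 t.2).1 (hG1 t.1 t.2).2
  choose N z hz1 hz2 using hflG
  let T : Finset ℂ := (univ.biUnion fun j => (g j).coeff.support.image fun u => (g j).coeff u) ∪
    (univ.biUnion fun t => univ.biUnion fun j =>
      (z t j).coeff.support.image fun u => (z t j).coeff u)
  obtain ⟨q0, hq0, k, hk, hkf, hkc, ⟨φ⟩⟩ := trhom T
  have hgB : ∀ j u, (g j).coeff u ∈ Algebra.adjoin ℤ (T : Set ℂ) := by
    intro j u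
    by_cases hu : (g j).coeff u = 0
    · rw [hu]
      exact zero_mem _
    · apply Algebra.subset_adjoin
      rw [mem_coe, mem_union]
      left
      rw [mem_biUnion]
      exact ⟨j, mem_univ _, mem_image.2 ⟨u, Finsupp.mem_support_iff.2 hu, rfl⟩⟩
  have hzB : ∀ t j u, (z t j).coeff u ∈ Algebra.adjoin ℤ (T : Set ℂ) := by
    intro t j u
    by_cases hu : (z t j).coeff u = 0
    · rw [hu]
      exact zero_mem _
    · apply Algebra.subset_adjoin
      rw [mem_coe, mem_union]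
      right
      rw [mem_biUnion]
      refine ⟨t, mem_univ _, ?_⟩
      rw [mem_biUnion]
      exact ⟨j, mem_univ _, mem_image.2 ⟨u, Finsupp.mem_support_iff.2 hu, rfl⟩⟩
  choose gB hgB' using fun j => cm_lift (Algebra.adjoin ℤ (T : Set ℂ)) (g j) (hgB j)
  choose zB hzB' using fun t j => cm_lift (Algebra.adjoin ℤ (T : Set ℂ)) (z t j) (hzB t j)
  have hgBs : ∀ j, Supp {u | u ∈ Sset h ∧ dt δ u = e} (gB j) := by
    intro j
    apply cm_supp_lift
    rw [hgB']
    exact hg j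
  have hzBs : ∀ t j, Supp (Sset h) (zB t j) := by
    intro t j
    apply cm_supp_lift
    rw [hzB']
    exact hz1 t j
  have hB2 : ∀ t : G, (single (N t • t.1) 1 : LP (Algebra.adjoin ℤ (T : Set ℂ)) d) =
      ∑ j, gB j * zB t j := by
    intro t
    apply cm_inj
    rw [cm_map_single, map_sum, hz2 t]
    exact sum_congr rfl fun j _ => by rw [map_mul, hgB', hzB']
  -- the Koszul complex over `k`
  have hflk : ∀ t ∈ G, ∃ (N : ℕ) (z : Fin r → LP k d), (∀ j, Supp (Sset h) (z j)) ∧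
      (single (N • t) 1 : LP k d) = ∑ j, mapRingHom (Lat d) φ (gB j) * z j := by
    intro t ht
    refine ⟨N ⟨t, ht⟩, fun j => mapRingHom (Lat d) φ (zB ⟨t, ht⟩ j),
      fun j => cm_supp_map φ _ _ (hzBs _ j), ?_⟩
    have h1 := congrArg (mapRingHom (Lat d) φ) (hB2 ⟨t, ht⟩)
    rw [cm_map_single, map_sum] at h1
    rw [h1]
    exact sum_congr rfl fun j _ => by rw [map_mul]
  have hgk : ∀ j, Supp {u | u ∈ Sset h ∧ dt δ u = e} (mapRingHom (Lat d) φ (gB j)) :=
    fun j => cm_supp_map φ _ _ (hgBs j)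
  have hK : ∀ x : Fin r → LP k d, (∀ j, Supp (Sset h) (x j)) →
      ∑ j, mapRingHom (Lat d) φ (gB j) * x j = 0 →
      ∃ y : Fin r → Fin r → LP k d, (∀ j k, Supp (Sset h) (y j k)) ∧
        (∀ j k, y j k = -y k j) ∧ (∀ j, y j j = 0) ∧
        ∀ j, x j = ∑ i, mapRingHom (Lat d) φ (gB i) * y j i := by
    have : ExpChar k q0 := ExpChar.prime hq0.out
    have : PerfectRing k q0 := inferInstance
    intro x hx h0
    exact cmp q0 h δ hpos e he _ hgk
      (fun u hu hu0 => cm_gen h _ G (fun s hs => (hG1 s hs).1) hG2 hflk u hu hu0)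
      s hs hind x hx h0
  -- exactness over `ℂ` in each degree
  have hC : ∀ (D : ℤ) (v : Fin r × CmLv h δ D → ℂ), (cm_Mp h δ g D e).mulVec v = 0 →
      ∃ w : Fin r × Fin r × CmLv h δ (D - e) → ℂ, v = (cm_Mm h δ g D e).mulVec w := by
    intro D v hv
    have hg' : (fun j => mapRingHom (Lat d) (algebraMap (Algebra.adjoin ℤ (T : Set ℂ)) ℂ) (gB j)) =
        g := funext hgB'
    have h1 := cm_Mp_map h δ (algebraMap (Algebra.adjoin ℤ (T : Set ℂ)) ℂ) gB D e
    have h2 := cm_Mm_map h δ (algebraMap (Algebra.adjoin ℤ (T : Set ℂ)) ℂ) gB D e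
    rw [hg'] at h1 h2
    obtain ⟨w, hw⟩ := trrank (Algebra.adjoin ℤ (T : Set ℂ)) φ (cm_Mm h δ gB D e)
      (cm_Mp h δ gB D e) (cm_MM h δ gB D e hgBs) (by
        intro v hv
        rw [cm_Mp_map] at hv
        rw [cm_Mm_map]
        exact cm_hex h δ _ D e hgk hK v hv) v (by
        rw [← h1] at hv
        exact hv)
    refine ⟨w, ?_⟩
    rw [← h2]
    exact hw
  -- homogeneous parts
  have hD : ∀ D : ℤ, ∃ Y : Fin r → Fin r → LP ℂ d, (∀ j k, Supp (Sset h) (Y j k)) ∧
      (∀ j k, Y j k = -Y k j) ∧ ∀ j, cm_part h δ D (x j) = ∑ k, g k * Y j k := by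
    intro D
    obtain ⟨w, hw⟩ := hC D (fun p => (x p.1).coeff p.2.1) (by
      funext a
      rw [cm_Mp_mulVec]
      have h1 : ∀ j, g j * cm_lp h δ (fun u : CmLv h δ D => (x j).coeff u.1) =
          cm_part h δ (D + e) (g j * x j) :=
        fun j => cm_part_mul h δ D e _ rfl _ _ (hg j) (hx j)
      simp only [h1]
      rw [← cm_part_sum, h0]
      have h2 := cm_part_coeff h δ (D + e) (0 : LP ℂ d) a.1 a.2
      rw [h2]
      rfl)
    refine ⟨fun j k => cm_lp h δ (fun t => w (j, k, t)) - cm_lp h δ (fun t => w (k, j, t)),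
      fun j k => ((cm_lp_supp h δ _).sub (cm_lp_supp h δ _)).mono fun u hu => hu.1,
      fun j k => (neg_sub _ _).symm, fun j => ?_⟩
    have h3 : Supp {u | u ∈ Sset h ∧ dt δ u = D} (∑ k, g k *
        (cm_lp h δ (fun t => w (j, k, t)) - cm_lp h δ (fun t => w (k, j, t)))) :=
      Supp.sum _ fun k _ => cm_mul_supp h δ (D - e) e D (by ring) _ _ (hg k)
        ((cm_lp_supp h δ _).sub (cm_lp_supp h δ _))
    rw [← cm_part_eq h δ _ _ h3]
    unfold cm_part
    congr 1
    funext u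
    have h4 := congrFun hw (j, u)
    rw [cm_Mm_mulVec] at h4
    exact h4
  choose Y hY1 hY2 hY3 using hD
  let Ds : Finset ℤ := univ.biUnion fun j => (x j).coeff.support.image fun u => dt δ u
  refine ⟨fun j k => ∑ D ∈ Ds, Y D j k, fun j k => Supp.sum _ fun D _ => hY1 D j k,
    fun j k => ?_, fun j => ?_⟩
  · rw [← sum_neg_distrib]
    exact sum_congr rfl fun D _ => hY2 D j k
  · have h1 : ∑ k, g k * ∑ D ∈ Ds, Y D j k = ∑ D ∈ Ds, cm_part h δ D (x j) := by
      simp only [mul_sum, hY3]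
      rw [sum_comm]
    rw [h1]
    apply lp_ext
    intro u
    rw [coeff_finsum]
    by_cases hu : (x j).coeff u = 0
    · rw [hu]
      refine (sum_eq_zero fun D _ => ?_).symm
      by_cases hu' : u ∈ Sset h ∧ dt δ u = D
      · rw [cm_part_coeff h δ _ _ u hu', hu]
      · rw [cm_part_coeff_zero h δ _ _ u hu']
    · rw [sum_eq_single (dt δ u)]
      · rw [cm_part_coeff h δ _ _ u ⟨hx j u hu, rfl⟩]
      · intro D _ hD
        rw [cm_part_coeff_zero h δ _ _ u (fun h2 => hD h2.2.symm)]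
      · intro h2
        exfalso
        apply h2
        rw [mem_biUnion]
        exact ⟨j, mem_univ _, mem_image.2 ⟨u, Finsupp.mem_support_iff.2 hu, rfl⟩⟩

end Pool.Agent.H56.SMC

end S_CM

section S_CONIC

/-!
# CONIC: the same for the conic modules `{u : m0 u + y0 ∈ S}`

Proof.  `scale : LP ℂ d → LP ℂ d`, `x^u ↦ x^{m0 u}`: an injective ring homomorphism.  `g'_j = scale g_j` is supported in `{u ∈ S : dt δ u = m0}`, and
`hfl` holds for `g'` (apply `scale`; `N` becomes `m0 N`).  For `x` supported in `M = {u : m0 u + y0 ∈ S}` put `T x = single y0 1 * scale x`, supported in `S`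
(exponents `m0 u + y0`).  `∑ g_j x_j = 0` gives `∑ g'_j T x_j = 0`.  `cm` (with `e = m0`) gives antisymmetric `Y_jk` supported in `S`, `T x_j = ∑_k g'_k Y_jk`.  Replace `Y_jk` by its part
with exponents in `y0 + m0 ℤ^d` (the exponents of the `g'_k` lie in `m0 ℤ^d`, those of `T x_j` in `y0 + m0 ℤ^d`): `Y_jk = T y_jk` with `y_jk` supported in `M`, antisymmetric; `T` is
injective and `T (g_k y) = g'_k T y`, so `x_j = ∑_k g_k y_jk`.
-/

set_option autoImplicit false

namespace Pool.Agent.H56.SMC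

open Finset AddMonoidAlgebra

/-- multiplication by `m0` as an additive map -/
def conic_f {d : ℕ} (m0 : ℤ) : Lat d →+ Lat d where
  toFun u := m0 • u
  map_zero' := smul_zero _
  map_add' u v := smul_add _ _ _

theorem conic_f_apply {d : ℕ} (m0 : ℤ) (u : Lat d) : conic_f m0 u = m0 • u := rfl

theorem conic_inj {d : ℕ} {m0 : ℤ} (hm0 : 0 < m0) : Function.Injective (fun u : Lat d => m0 • u) := by
  intro u v huv
  funext i
  have h1 : m0 * u i = m0 * v i := by
    have := congrFun huv i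
    simpa [Pi.smul_apply, smul_eq_mul] using this
  exact mul_left_cancel₀ hm0.ne' h1

/-- `x^u ↦ x^{m0 u}` -/
noncomputable def conic_scale {d : ℕ} (m0 : ℤ) : LP ℂ d →+* LP ℂ d :=
  AddMonoidAlgebra.mapDomainRingHom ℂ (conic_f m0)

theorem conic_scale_single {d : ℕ} (m0 : ℤ) (u : Lat d) (r : ℂ) :
    conic_scale m0 (single u r) = (single (m0 • u) r : LP ℂ d) := by
  simp [conic_scale, conic_f_apply]

theorem conic_scale_supp {d : ℕ} (m0 : ℤ) (x : LP ℂ d) (w : Lat d)
    (hw : (conic_scale m0 x).coeff w ≠ 0) : ∃ u, x.coeff u ≠ 0 ∧ m0 • u = w := by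
  classical
  have h1 : (conic_scale m0 x).coeff = Finsupp.mapDomain (conic_f m0) x.coeff := rfl
  rw [h1] at hw
  have h2 : w ∈ (Finsupp.mapDomain (conic_f m0) x.coeff).support := Finsupp.mem_support_iff.2 hw
  have h3 := Finsupp.mapDomain_support h2
  obtain ⟨u, hu, huw⟩ := Finset.mem_image.1 h3
  exact ⟨u, Finsupp.mem_support_iff.1 hu, huw⟩

/-- `Y ↦ (u ↦ Y_{m0 u + y0})` -/
noncomputable def conic_R {d : ℕ} {m0 : ℤ} (hm0 : 0 < m0) (y0 : Lat d) (Y : LP ℂ d) : LP ℂ d :=
  ofCoeff (Y.coeff.comapDomain (fun u : Lat d => m0 • u + y0)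
    (fun u _ v _ huv => conic_inj hm0 (add_right_cancel huv)))

theorem conic_R_coeff {d : ℕ} {m0 : ℤ} (hm0 : 0 < m0) (y0 : Lat d) (Y : LP ℂ d) (u : Lat d) :
    (conic_R hm0 y0 Y).coeff u = Y.coeff (m0 • u + y0) := rfl

theorem conic_R_add {d : ℕ} {m0 : ℤ} (hm0 : 0 < m0) (y0 : Lat d) (Y Z : LP ℂ d) :
    conic_R hm0 y0 (Y + Z) = conic_R hm0 y0 Y + conic_R hm0 y0 Z := by
  apply lp_ext; intro u
  simp only [conic_R_coeff, coeff_add']

theorem conic_R_zero {d : ℕ} {m0 : ℤ} (hm0 : 0 < m0) (y0 : Lat d) :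
    conic_R hm0 y0 (0 : LP ℂ d) = 0 := by
  apply lp_ext; intro u
  simp only [conic_R_coeff, coeff_zero']

theorem conic_R_neg {d : ℕ} {m0 : ℤ} (hm0 : 0 < m0) (y0 : Lat d) (Y : LP ℂ d) :
    conic_R hm0 y0 (-Y) = -conic_R hm0 y0 Y := by
  apply lp_ext; intro u
  simp only [conic_R_coeff, coeff_neg']

theorem conic_R_sum {d : ℕ} {m0 : ℤ} (hm0 : 0 < m0) (y0 : Lat d) {α : Type*} (s : Finset α)
    (f : α → LP ℂ d) : conic_R hm0 y0 (∑ i ∈ s, f i) = ∑ i ∈ s, conic_R hm0 y0 (f i) := by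
  apply lp_ext; intro u
  simp only [conic_R_coeff, coeff_finsum]

theorem conic_R_mul {d : ℕ} {m0 : ℤ} (hm0 : 0 < m0) (y0 : Lat d) (g Y : LP ℂ d) :
    conic_R hm0 y0 (conic_scale m0 g * Y) = g * conic_R hm0 y0 Y := by
  induction g using AddMonoidAlgebra.induction_linear with
  | zero => rw [map_zero, zero_mul, zero_mul, conic_R_zero]
  | add a b ha hb => rw [map_add, add_mul, add_mul, conic_R_add, ha, hb]
  | single v r =>
    rw [conic_scale_single]
    apply lp_ext; intro u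
    rw [conic_R_coeff, single_mul_coeff, single_mul_coeff, conic_R_coeff, smul_sub]
    congr 2
    abel

/-- CONIC -/
theorem conic {d : ℕ} {κ : Type} [Fintype κ] (h : κ → Lat d) (δ : Lat d)
    (hpos : ∀ u ∈ Sset h, u ≠ 0 → 0 < dt δ u) {r : ℕ} (g : Fin r → LP ℂ d)
    (hg : ∀ i, Supp {u | u ∈ Sset h ∧ dt δ u = 1} (g i))
    (hfl : ∀ u ∈ Sset h, u ≠ 0 → ∃ (N : ℕ) (z : Fin r → LP ℂ d), (∀ j, Supp (Sset h) (z j)) ∧
      (single (N • u) 1 : LP ℂ d) = ∑ j, g j * z j)
    (s : Fin r → Lat d) (hs : ∀ i, s i ∈ Sset h) (hind : LinearIndependent ℤ s)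
    (m0 : ℤ) (hm0 : 0 < m0) (y0 : Lat d)
    (x : Fin r → LP ℂ d) (hx : ∀ j, Supp {u | m0 • u + y0 ∈ Sset h} (x j))
    (h0 : ∑ j, g j * x j = 0) :
    ∃ y : Fin r → Fin r → LP ℂ d, (∀ j k, Supp {u | m0 • u + y0 ∈ Sset h} (y j k)) ∧
      (∀ j k, y j k = -y k j) ∧ ∀ j, x j = ∑ k, g k * y j k := by
  have hSm : ∀ u ∈ Sset h, m0 • u ∈ Sset h := by
    intro u hu v
    rw [dt_zsmul]
    exact mul_nonneg hm0.le (hu v)
  have hscS : ∀ z : LP ℂ d, Supp (Sset h) z → Supp (Sset h) (conic_scale m0 z) := by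
    intro z hz w hw
    obtain ⟨u, hu, rfl⟩ := conic_scale_supp m0 z w hw
    exact hSm u (hz u hu)
  obtain ⟨Y, hY1, hY2, hY3⟩ := cm h δ hpos m0 hm0 (fun j => conic_scale m0 (g j))
    (by
      intro i w hw
      obtain ⟨u, hu, rfl⟩ := conic_scale_supp m0 (g i) w hw
      obtain ⟨hu1, hu2⟩ := hg i u hu
      refine ⟨hSm u hu1, ?_⟩
      rw [dt_zsmul, hu2, mul_one])
    (by
      intro u hu hu0
      obtain ⟨N, z, hz, hz2⟩ := hfl u hu hu0
      refine ⟨m0.toNat * N, fun j => conic_scale m0 (z j), fun j => hscS _ (hz j), ?_⟩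
      have h1 := congrArg (conic_scale m0) hz2
      rw [conic_scale_single, map_sum] at h1
      simp only [map_mul] at h1
      rw [← h1]
      congr 1
      funext i
      simp only [Pi.smul_apply, nsmul_eq_mul, smul_eq_mul, Nat.cast_mul]
      rw [Int.toNat_of_nonneg hm0.le, mul_assoc]
      rfl)
    s hs hind (fun j => single y0 1 * conic_scale m0 (x j))
    (by
      intro j w hw
      have hw' : (single y0 (1 : ℂ) * conic_scale m0 (x j)).coeff w ≠ 0 := hw
      rw [single_mul_coeff, one_mul] at hw'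
      obtain ⟨u, hu, hu2⟩ := conic_scale_supp m0 (x j) _ hw'
      have h1 : m0 • u + y0 ∈ Sset h := hx j u hu
      rwa [hu2, sub_add_cancel] at h1)
    (by
      have h1 := congrArg (conic_scale m0) h0
      rw [map_zero, map_sum] at h1
      simp only [map_mul] at h1
      calc ∑ j, conic_scale m0 (g j) * (single y0 1 * conic_scale m0 (x j))
          = single y0 1 * ∑ j, conic_scale m0 (g j) * conic_scale m0 (x j) := by
            rw [mul_sum]; exact sum_congr rfl fun j _ => by ring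
        _ = 0 := by rw [h1, mul_zero])
  refine ⟨fun j k => conic_R hm0 y0 (Y j k), ?_, ?_, ?_⟩
  · intro j k u hu
    exact hY1 j k _ hu
  · intro j k
    show conic_R hm0 y0 (Y j k) = -conic_R hm0 y0 (Y k j)
    rw [hY2 j k, conic_R_neg]
  · intro j
    have h1 := congrArg (conic_R hm0 y0) (hY3 j)
    simp only [conic_R_sum, conic_R_mul] at h1
    rw [← h1, mul_comm, conic_R_mul]
    have h2 : conic_R hm0 y0 (single y0 1 : LP ℂ d) = 1 := by
      apply lp_ext; intro u
      rw [conic_R_coeff, coeff_single', AddMonoidAlgebra.one_def, coeff_single']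
      by_cases hu : u = 0
      · rw [if_pos hu, if_pos (by rw [hu, smul_zero, zero_add])]
      · rw [if_neg hu, if_neg]
        intro h3
        apply hu
        have h4 : m0 • u = 0 := by simpa using h3
        exact conic_inj hm0 (by simpa using h4)
    rw [h2, mul_one]

end Pool.Agent.H56.SMC

end S_CONIC

section S_FL

/-!
# FL: the symbols generate an ideal of finite colength

Proof.  `hpos` (`u ∈ Sset h`, `u ≠ 0` implies `0 < dt δ u`): `N • u = ∑ n_i a_i`, `N dt δ u = ∑ n_i`, and if all `n_i = 0` then `u = 0`.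
If the conclusion fails for `u0`, `flnull` (with `g_j = gs a c (ev j)`) and `flext` give `φ`, `H`, `χ`, and
`0 = ∑_u (g_j).coeff u φ(u) = ∑_i c_i (a i j) φ(a i) = ∑_{i : dt H (a i) = 0} c_i (a i j) χ^{a i}` for all `j`, contradicting `hnd`.
-/

set_option autoImplicit false

namespace Pool.Agent.H56.SMC

open Finset AddMonoidAlgebra

/-- The linear extension of `φ`. -/
noncomputable def fl_L {d : ℕ} (φ : Lat d → ℂ) (z : LP ℂ d) : ℂ :=
  z.coeff.sum fun u r => r * φ u

theorem fl_L_add {d : ℕ} (φ : Lat d → ℂ) (x y : LP ℂ d) :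
    fl_L φ (x + y) = fl_L φ x + fl_L φ y := by
  classical
  unfold fl_L
  have : (x + y).coeff = x.coeff + y.coeff := rfl
  rw [this]
  exact Finsupp.sum_add_index' (fun u => zero_mul _) (fun u r r' => add_mul _ _ _)

theorem fl_L_zero {d : ℕ} (φ : Lat d → ℂ) : fl_L φ (0 : LP ℂ d) = 0 := by
  unfold fl_L
  exact Finsupp.sum_zero_index

theorem fl_L_sum {d : ℕ} (φ : Lat d → ℂ) {α : Type*} (s : Finset α) (f : α → LP ℂ d) :
    fl_L φ (∑ i ∈ s, f i) = ∑ i ∈ s, fl_L φ (f i) := by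
  classical
  induction s using Finset.induction_on with
  | empty => simpa using fl_L_zero φ
  | insert b s hb ih => rw [sum_insert hb, sum_insert hb, fl_L_add, ih]

theorem fl_L_single {d : ℕ} (φ : Lat d → ℂ) (v : Lat d) (r : ℂ) :
    fl_L φ (single v r : LP ℂ d) = r * φ v := by
  unfold fl_L
  rw [AddMonoidAlgebra.coeff_single]
  exact Finsupp.sum_single_index (zero_mul _)

/-- FL -/
theorem fl {d : ℕ} {ι κ : Type} [Fintype ι] [Fintype κ] (a : ι → Lat d) (c : ι → ℂ)
    (h : κ → Lat d) (δ : Lat d) (hδ : ∀ i, dt δ (a i) = 1) (hh : ∀ v i, 0 ≤ dt (h v) (a i))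
    (hfac : ∀ u ∈ Sset h, ∃ N : ℕ, 0 < N ∧ ∃ n : ι → ℕ, N • u = ∑ i, n i • a i)
    (hnd : TorusND a c) (u : Lat d) (hu : u ∈ Sset h) (hne : u ≠ 0) :
    ∃ (N : ℕ) (z : Fin d → LP ℂ d), (∀ j, Supp (Sset h) (z j)) ∧
      (single (N • u) 1 : LP ℂ d) = ∑ j, gs a c (ev j) * z j := by
  classical
  have hpos : ∀ u ∈ Sset h, u ≠ 0 → 0 < dt δ u := by
    intro v hv hv0
    obtain ⟨N, hN, n, hn⟩ := hfac v hv
    have h1 : (N : ℤ) * dt δ v = ∑ i, (n i : ℤ) := by
      rw [← dt_nsmul, hn, dt_sum]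
      refine sum_congr rfl fun i _ => ?_
      rw [dt_nsmul, hδ i, mul_one]
    have hNZ : (0 : ℤ) < N := by exact_mod_cast hN
    by_contra hcon
    push Not at hcon
    have h2 : ∑ i, (n i : ℤ) ≤ 0 := by
      rw [← h1]
      exact mul_nonpos_of_nonneg_of_nonpos hNZ.le hcon
    have h3 : ∀ i, n i = 0 := by
      intro i
      have h4 := (sum_eq_zero_iff_of_nonneg (s := univ) (f := fun i => (n i : ℤ))
        (fun i _ => by positivity)).1 (le_antisymm h2 (sum_nonneg fun i _ => by positivity)) i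
        (mem_univ i)
      exact_mod_cast h4
    have h5 : N • v = 0 := by
      rw [hn]
      exact sum_eq_zero fun i _ => by rw [h3 i, zero_smul]
    apply hv0
    funext j
    have h6 := congrFun h5 j
    simp only [Pi.smul_apply, Pi.zero_apply, nsmul_eq_mul, mul_eq_zero] at h6
    rcases h6 with h6 | h6
    · exact absurd h6 hNZ.ne'
    · exact h6
  have hg : ∀ j, Supp (Sset h) (gs a c (ev j)) := by
    intro j
    unfold gs
    refine Supp.sum _ fun i _ => Supp.single ?_ _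
    exact fun v => hh v i
  by_contra hno
  push Not at hno
  obtain ⟨φ, hφ0, hφ, hφu, hφg⟩ := flnull h δ hpos (fun j => gs a c (ev j)) hg u hu
    (fun N ⟨z, hz, hsum⟩ => hno N z hz hsum)
  obtain ⟨H, χ, hH, hHex, hval⟩ := flext a h δ hδ hh hfac φ hφ0 hφ u hu hne hφu
  obtain ⟨j, hj⟩ := hnd H hH hHex χ
  apply hj
  have h1 : fl_L φ (gs a c (ev j)) = 0 := hφg j
  unfold gs at h1
  rw [fl_L_sum] at h1
  rw [sum_filter]
  refine Eq.trans ?_ h1
  refine sum_congr rfl fun i _ => ?_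
  rw [fl_L_single, hval i, dt_ev]
  split_ifs
  · ring
  · rw [mul_zero]

end Pool.Agent.H56.SMC

end S_FL

section S_KEXG

/-!
# KEXG: exactness on a face

Proof.  The face `T = {i : dt H (a i) = 0}`, `cF = cF a c H`, `g_k = gs a cF (ℓ k)`.  Functionals `h' : Option κ → Lat d`, `h' none = -H`, `h' (some v) = h v`; `Sset h' = Sset h ∩ {dt H u = 0}`
(`dt H u ≥ 0` on `Sset h` by `hfac`, `hH`); the set `{m0 u + y0 ∈ Sset h, dt H u = 0}` is `{m0 u + y0 ∈ Sset h'}` (`hy0`).  `conic` with `r = s`, `g`, `s = a ∘ e`: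
`hpos` from `hfac` and `hδ` (`N • u = ∑ n_i a_i`, `N dt δ u = ∑ n_i`, if all `n_i = 0` then `u = 0`).
`hfl`: for `u ∈ Sset h'`, `u ≠ 0`, `fl` gives `x^{N u} = ∑_j gs a c (ev j) z_j` with `z_j` supported in `Sset h`; the part with `dt H = 0` is `x^{N u} = ∑_j gs a cF (ev j) z̄_j` (`z̄_j` the part of `z_j` with `dt H = 0`;
all exponents have `dt H ≥ 0`); by `hℓ` for `g = ev j`: `gs a cF (ev j) = ∑_k (n_k / N) • g_k` (both sides only involve `i ∈ T`).
-/

set_option autoImplicit false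

namespace Pool.Agent.H56.SMC

open Finset AddMonoidAlgebra

private theorem kexg_nonneg {d : ℕ} {ι κ : Type} [Fintype ι] (a : ι → Lat d) (h : κ → Lat d)
    (hfac : ∀ u ∈ Sset h, ∃ N : ℕ, 0 < N ∧ ∃ n : ι → ℕ, N • u = ∑ i, n i • a i)
    (H : Lat d) (hH : ∀ i, 0 ≤ dt H (a i)) (u : Lat d) (hu : u ∈ Sset h) : 0 ≤ dt H u := by
  obtain ⟨N, hN, n, hn⟩ := hfac u hu
  have h1 : (N : ℤ) * dt H u = ∑ i, (n i : ℤ) * dt H (a i) := by
    rw [← dt_nsmul, hn, dt_sum]
    exact sum_congr rfl fun i _ => dt_nsmul _ _ _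
  have h2 : 0 ≤ (N : ℤ) * dt H u := by
    rw [h1]
    exact sum_nonneg fun i _ => mul_nonneg (Int.natCast_nonneg _) (hH i)
  have h3 : (0 : ℤ) < N := by exact_mod_cast hN
  exact nonneg_of_mul_nonneg_right h2 h3

private theorem kexg_pos {d : ℕ} {ι κ : Type} [Fintype ι] (a : ι → Lat d) (h : κ → Lat d)
    (δ : Lat d) (hδ : ∀ i, dt δ (a i) = 1)
    (hfac : ∀ u ∈ Sset h, ∃ N : ℕ, 0 < N ∧ ∃ n : ι → ℕ, N • u = ∑ i, n i • a i)
    (u : Lat d) (hu : u ∈ Sset h) (hne : u ≠ 0) : 0 < dt δ u := by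
  obtain ⟨N, hN, n, hn⟩ := hfac u hu
  have h1 : (N : ℤ) * dt δ u = ∑ i, (n i : ℤ) := by
    rw [← dt_nsmul, hn, dt_sum]
    exact sum_congr rfl fun i _ => by rw [dt_nsmul, hδ, mul_one]
  have h3 : (0 : ℤ) < N := by exact_mod_cast hN
  have h2 : 0 < ∑ i, (n i : ℤ) := by
    by_contra hcon
    push Not at hcon
    have h4 : ∑ i, (n i : ℤ) = 0 := le_antisymm hcon (sum_nonneg fun i _ => Int.natCast_nonneg _)
    have h5 : ∀ i, n i = 0 := by
      intro i
      have := (sum_eq_zero_iff_of_nonneg (fun i _ => Int.natCast_nonneg (n i))).1 h4 i (mem_univ i)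
      exact_mod_cast this
    rw [sum_eq_zero fun i _ => by rw [h5 i, zero_smul]] at hn
    apply hne
    rcases smul_eq_zero.1 hn with h6 | h6
    · omega
    · exact h6
  rw [← h1] at h2
  exact (mul_pos_iff_of_pos_left h3).1 h2

/-- KEXG -/
theorem kexg {d : ℕ} {ι κ : Type} [Fintype ι] [Fintype κ] (a : ι → Lat d) (c : ι → ℂ)
    (h : κ → Lat d) (δ : Lat d) (hδ : ∀ i, dt δ (a i) = 1) (hh : ∀ v i, 0 ≤ dt (h v) (a i))
    (hfac : ∀ u ∈ Sset h, ∃ N : ℕ, 0 < N ∧ ∃ n : ι → ℕ, N • u = ∑ i, n i • a i)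
    (hnd : TorusND a c) (H : Lat d) (hH : ∀ i, 0 ≤ dt H (a i)) {s : ℕ} (ℓ : Fin s → Lat d)
    (hℓ : ∀ g : Lat d, ∃ N : ℤ, N ≠ 0 ∧ ∃ n : Fin s → ℤ, ∀ i, dt H (a i) = 0 →
      N * dt g (a i) = ∑ k, n k * dt (ℓ k) (a i))
    (e : Fin s → ι) (he : ∀ k, dt H (a (e k)) = 0) (hind : LinearIndependent ℤ (fun k => a (e k)))
    (m0 : ℤ) (hm0 : 0 < m0) (y0 : Lat d) (hy0 : dt H y0 = 0) (x : Fin s → LP ℂ d)
    (hx : ∀ k, Supp {u | m0 • u + y0 ∈ Sset h ∧ dt H u = 0} (x k))
    (h0 : ∑ k, gs a (cF a c H) (ℓ k) * x k = 0) :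
    ∃ y : Fin s → Fin s → LP ℂ d,
      (∀ j k, Supp {u | m0 • u + y0 ∈ Sset h ∧ dt H u = 0} (y j k)) ∧
      (∀ j k, y j k = -y k j) ∧ ∀ j, x j = ∑ k, gs a (cF a c H) (ℓ k) * y j k := by
  classical
  let h' : Option κ → Lat d := fun o => Option.elim o (-H) h
  have hneg : ∀ u : Lat d, dt (-H) u = -dt H u := by
    intro u
    rw [dt_comm, dt_neg, dt_comm]
  have hmem : ∀ u, u ∈ Sset h' ↔ u ∈ Sset h ∧ dt H u = 0 := by
    intro u
    constructor
    · intro hu
      have h1 : u ∈ Sset h := fun v => hu (some v)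
      have h2 : 0 ≤ dt (-H) u := hu none
      rw [hneg] at h2
      have h3 := kexg_nonneg a h hfac H hH u h1
      exact ⟨h1, by linarith⟩
    · rintro ⟨h1, h2⟩ o
      cases o with
      | none =>
        show 0 ≤ dt (-H) u
        rw [hneg, h2, neg_zero]
      | some v => exact h1 v
  have hset : {u | m0 • u + y0 ∈ Sset h ∧ dt H u = 0} = {u | m0 • u + y0 ∈ Sset h'} := by
    ext u
    simp only [Set.mem_ofPred_eq, hmem, dt_add, dt_zsmul, hy0, add_zero, mul_eq_zero, hm0.ne',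
      false_or]
  rw [hset] at hx ⊢
  have hai : ∀ i, dt H (a i) = 0 → a i ∈ Sset h' := fun i hi => (hmem _).2 ⟨fun v => hh v i, hi⟩
  refine conic h' δ (fun u hu hne => kexg_pos a h δ hδ hfac u ((hmem u).1 hu).1 hne)
    (fun k => gs a (cF a c H) (ℓ k)) ?_ ?_ (fun k => a (e k)) (fun k => hai _ (he k)) hind
    m0 hm0 y0 x hx h0
  · intro k u hu
    unfold gs at hu
    rw [coeff_finsum] at hu
    obtain ⟨i, -, hi⟩ := exists_ne_zero_of_sum_ne_zero hu
    rw [coeff_single'] at hi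
    by_cases h1 : u = a i
    · rw [if_pos h1] at hi
      have h2 : dt H (a i) = 0 := by
        by_contra h3
        apply hi
        simp only [cF, if_neg h3, zero_mul]
      rw [h1]
      exact ⟨hai i h2, hδ i⟩
    · rw [if_neg h1] at hi
      exact absurd rfl hi
  · intro u hu hne
    obtain ⟨hu1, hu2⟩ := (hmem u).1 hu
    obtain ⟨N, z, hz, hzN⟩ := fl a c h δ hδ hh hfac hnd u hu1 hne
    let χ : Lat d → ℂ := fun w => if dt H w = 0 then 1 else 0
    let zb : Fin d → LP ℂ d := fun j => dg χ (z j)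
    have hzb : ∀ j, Supp (Sset h') (zb j) := by
      intro j w hw
      have hw' : χ w * (z j).coeff w ≠ 0 := hw
      have h1 : (z j).coeff w ≠ 0 := right_ne_zero_of_mul hw'
      have h2 : dt H w = 0 := by
        by_contra h3
        apply left_ne_zero_of_mul hw'
        simp only [χ, if_neg h3]
      exact (hmem w).2 ⟨hz j w h1, h2⟩
    -- the part with dt H = 0
    have hpart : (single (N • u) 1 : LP ℂ d) = ∑ j, gs a (cF a c H) (ev j) * zb j := by
      apply lp_ext
      intro w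
      by_cases hw : dt H w = 0
      · rw [hzN, coeff_finsum, coeff_finsum]
        refine sum_congr rfl fun j _ => ?_
        rw [gs_mul_coeff, gs_mul_coeff]
        refine sum_congr rfl fun i _ => ?_
        rw [show (zb j).coeff (w - a i) = χ (w - a i) * (z j).coeff (w - a i) from rfl]
        by_cases hi : dt H (a i) = 0
        · have h1 : dt H (w - a i) = 0 := by rw [dt_sub, hw, hi, sub_zero]
          simp only [cF, χ, if_pos hi, if_pos h1, one_mul]
        · have h1 : (z j).coeff (w - a i) = 0 := by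
            by_contra h2
            have h3 := kexg_nonneg a h hfac H hH _ (hz j _ h2)
            rw [dt_sub, hw] at h3
            have h4 := hH i
            exact hi (by linarith)
          rw [h1]
          simp
      · have h1 : (single (N • u) 1 : LP ℂ d).coeff w = 0 := by
          rw [coeff_single', if_neg]
          rintro rfl
          apply hw
          rw [dt_nsmul, hu2, mul_zero]
        rw [h1, coeff_finsum]
        symm
        refine sum_eq_zero fun j _ => ?_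
        rw [gs_mul_coeff]
        refine sum_eq_zero fun i _ => ?_
        rw [show (zb j).coeff (w - a i) = χ (w - a i) * (z j).coeff (w - a i) from rfl]
        by_cases hi : dt H (a i) = 0
        · have h2 : dt H (w - a i) ≠ 0 := by rwa [dt_sub, hi, sub_zero]
          simp only [χ, if_neg h2, zero_mul, mul_zero]
        · simp only [cF, if_neg hi, zero_mul]
    choose M hM n hn using fun j : Fin d => hℓ (ev j)
    refine ⟨N, fun k => ∑ j, ((n j k : ℂ) / (M j : ℂ)) • zb j, ?_, ?_⟩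
    · intro k
      exact Supp.sum _ fun j _ => (hzb j).smul _
    · rw [hpart]
      apply lp_ext
      intro w
      rw [coeff_finsum, coeff_finsum]
      simp only [gs_mul_coeff, coeff_finsum, coeff_smul']
      have h1 : ∀ j : Fin d, ∀ i : ι, cF a c H i * (dt (ev j) (a i) : ℂ) =
          ∑ k, cF a c H i * (dt (ℓ k) (a i) : ℂ) * ((n j k : ℂ) / (M j : ℂ)) := by
        intro j i
        by_cases hi : dt H (a i) = 0
        · have h2 := hn j i hi
          have h3 : (M j : ℂ) * (dt (ev j) (a i) : ℂ) = ∑ k, (n j k : ℂ) * (dt (ℓ k) (a i) : ℂ) := by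
            exact_mod_cast h2
          have h4 : (M j : ℂ) ≠ 0 := by exact_mod_cast hM j
          have h5 : (dt (ev j) (a i) : ℂ) = (∑ k, (n j k : ℂ) * (dt (ℓ k) (a i) : ℂ)) / (M j : ℂ) := by
            rw [eq_div_iff h4, ← h3, mul_comm]
          rw [h5, sum_div, mul_sum]
          exact sum_congr rfl fun k _ => by ring
        · simp only [cF, if_neg hi, zero_mul, sum_const_zero]
      calc ∑ j, ∑ i, cF a c H i * (dt (ev j) (a i) : ℂ) * (zb j).coeff (w - a i)
          = ∑ j, ∑ i, ∑ k, cF a c H i * (dt (ℓ k) (a i) : ℂ) *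
              (((n j k : ℂ) / (M j : ℂ)) * (zb j).coeff (w - a i)) := by
            refine sum_congr rfl fun j _ => sum_congr rfl fun i _ => ?_
            rw [h1, sum_mul]
            exact sum_congr rfl fun k _ => by ring
        _ = ∑ k, ∑ i, ∑ j, cF a c H i * (dt (ℓ k) (a i) : ℂ) *
              (((n j k : ℂ) / (M j : ℂ)) * (zb j).coeff (w - a i)) := by
            rw [sum_congr rfl fun j _ => sum_comm, sum_comm]
            exact sum_congr rfl fun k _ => sum_comm
        _ = _ := by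
            refine sum_congr rfl fun k _ => sum_congr rfl fun i _ => ?_
            rw [mul_sum]

end Pool.Agent.H56.SMC

end S_KEXG

section S_KEXA

/-!
# KEXA: exactness on the full cone

Proof.  `kexg` with `H = 0`, `s = d`, `ℓ = ev` (`cF a c 0 = c`); `mem_Sc_lev` identifies the supports.
-/

set_option autoImplicit false

namespace Pool.Agent.H56.SMC

open Finset AddMonoidAlgebra

/-- KEXA -/
theorem kexa {d : ℕ} {ι κ : Type} [Fintype ι] [Fintype κ] (a : ι → Lat d) (c : ι → ℂ)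
    (h : κ → Lat d) (δ : Lat d) (hδ : ∀ i, dt δ (a i) = 1) (hh : ∀ v i, 0 ≤ dt (h v) (a i))
    (hfac : ∀ u ∈ Sset h, ∃ N : ℕ, 0 < N ∧ ∃ n : ι → ℕ, N • u = ∑ i, n i • a i)
    (hnd : TorusND a c) (hspan : ∃ e : Fin d → ι, LinearIndependent ℤ (fun k => a (e k)))
    (m0 : ℤ) (hm0 : 0 < m0) (y0 : Lat d) : KExact a c (Sc h (lev h m0 y0)) := by
  obtain ⟨e, hind⟩ := hspan
  intro r hr hrel
  have h0 : ∀ u : Lat d, dt (0 : Lat d) u = 0 := by
    intro u
    rw [dt_comm, dt_zero]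
  have hset : Sc h (lev h m0 y0) = {u | m0 • u + y0 ∈ Sset h ∧ dt (0 : Lat d) u = 0} := by
    ext u
    simp only [mem_Sc_lev h hm0, Set.mem_ofPred_eq, h0, and_true]
  have hc : cF a c (0 : Lat d) = c := by
    funext i
    simp only [cF, h0, if_true]
  rw [hset] at hr ⊢
  have key := kexg a c h δ hδ hh hfac hnd (0 : Lat d) (fun i => (h0 _).ge) (ev : Fin d → Lat d)
    (fun g => ⟨1, one_ne_zero, g, fun i _ => by rw [one_mul, dt_left]⟩) e (fun k => h0 _) hind
    m0 hm0 y0 (h0 _) r hr (by rw [hc]; exact hrel)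
  rw [hc] at key
  exact key

end Pool.Agent.H56.SMC

end S_KEXA

section S_KEXF

/-!
# KEXF: exactness on a facet

Proof.  `kexg` with `H = h0`, `s = d`, `ℓ k = ev (j0.succAbove k)` where `h0 j0 ≠ 0`: for `g = ev j0`, on the face `0 = dt h0 (a i) = ∑_j h0_j (a i j)`, so `h0_{j0} dt (ev j0) (a i) = -∑_{j≠j0} h0_j dt (ev j) (a i)`.
Relation `∑_j g_j r_j = 0` (`g_j = gs a cF (ev j)`, `j : Fin (d+1)`), `∑_j h0_j g_j = gs a cF h0 = 0` (`cF i * dt h0 (a i) = 0`): `∑_{j≠j0} g_j (r_j - (h0_j/h0_{j0}) r_{j0}) = 0`; `kexg` gives `r_j - (h0_j/h0_{j0}) r_{j0} = ∑_{k≠j0} g_k y_jk` for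
`j ≠ j0`; put `y_jk = 0` if `j` or `k` is `j0` and `r' = r_{j0} / h0_{j0}`.  Supports: `mem_Sc_lev`.
-/

set_option autoImplicit false

namespace Pool.Agent.H56.SMC

open Finset AddMonoidAlgebra

/-- KEXF -/
theorem kexf {d : ℕ} {ι κ : Type} [Fintype ι] [Fintype κ] (a : ι → Lat (d + 1)) (c : ι → ℂ)
    (h : κ → Lat (d + 1)) (δ : Lat (d + 1)) (hδ : ∀ i, dt δ (a i) = 1)
    (hh : ∀ v i, 0 ≤ dt (h v) (a i))
    (hfac : ∀ u ∈ Sset h, ∃ N : ℕ, 0 < N ∧ ∃ n : ι → ℕ, N • u = ∑ i, n i • a i)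
    (hnd : TorusND a c) (h0 : Lat (d + 1)) (hne : h0 ≠ 0) (hh0 : ∀ i, 0 ≤ dt h0 (a i))
    (hspan0 : ∃ e : Fin d → ι, (∀ k, dt h0 (a (e k)) = 0) ∧
      LinearIndependent ℤ (fun k => a (e k)))
    (m0 : ℤ) (hm0 : 0 < m0) (y0 : Lat (d + 1)) (hy0 : dt h0 y0 = 0) :
    KExactF a c (Sc h (lev h m0 y0)) h0 := by
  classical
  obtain ⟨e, he, hind⟩ := hspan0
  intro r hr hrel
  obtain ⟨j0, hj0⟩ : ∃ j0, h0 j0 ≠ 0 := by
    by_contra hcon
    push Not at hcon
    exact hne (funext hcon)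
  have hj0C : (h0 j0 : ℂ) ≠ 0 := by exact_mod_cast hj0
  have hset : Sc h (lev h m0 y0) ∩ {u | dt h0 u = 0} =
      {u | m0 • u + y0 ∈ Sset h ∧ dt h0 u = 0} := by
    ext u
    simp only [Set.mem_inter_iff, mem_Sc_lev h hm0, Set.mem_ofPred_eq]
  rw [hset] at hr ⊢
  have hdt : ∀ g u : Lat (d + 1), dt g u = g j0 * u j0 +
      ∑ k : Fin d, g (j0.succAbove k) * u (j0.succAbove k) := by
    intro g u
    unfold dt
    rw [Fin.sum_univ_succAbove _ j0]
  have hℓ : ∀ g : Lat (d + 1), ∃ N : ℤ, N ≠ 0 ∧ ∃ n : Fin d → ℤ, ∀ i, dt h0 (a i) = 0 →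
      N * dt g (a i) = ∑ k, n k * dt (ev (j0.succAbove k)) (a i) := by
    intro g
    refine ⟨h0 j0, hj0, fun k => h0 j0 * g (j0.succAbove k) - g j0 * h0 (j0.succAbove k), ?_⟩
    intro i hi
    rw [hdt] at hi
    rw [hdt]
    simp only [dt_ev, sub_mul, sum_sub_distrib]
    have e1 : ∑ k : Fin d, h0 j0 * g (j0.succAbove k) * a i (j0.succAbove k) =
        h0 j0 * ∑ k : Fin d, g (j0.succAbove k) * a i (j0.succAbove k) := by
      rw [mul_sum]
      exact sum_congr rfl fun k _ => by ring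
    have e2 : ∑ k : Fin d, g j0 * h0 (j0.succAbove k) * a i (j0.succAbove k) =
        g j0 * ∑ k : Fin d, h0 (j0.succAbove k) * a i (j0.succAbove k) := by
      rw [mul_sum]
      exact sum_congr rfl fun k _ => by ring
    rw [e1, e2]
    linear_combination (g j0) * hi
  let x : Fin d → LP ℂ (d + 1) := fun k =>
    r (j0.succAbove k) - ((h0 (j0.succAbove k) : ℂ) / (h0 j0 : ℂ)) • r j0
  have hx : ∀ k, Supp {u | m0 • u + y0 ∈ Sset h ∧ dt h0 u = 0} (x k) := fun k =>
    (hr _).sub ((hr _).smul _)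
  have hx0 : ∑ k, gs a (cF a c h0) (ev (j0.succAbove k)) * x k = 0 := by
    apply lp_ext
    intro w
    have hw : (∑ j, gs a (cF a c h0) (ev j) * r j).coeff w = 0 := by
      rw [hrel]
      rfl
    rw [coeff_finsum] at hw ⊢
    simp only [gs_mul_coeff, x, coeff_sub', coeff_smul', dt_ev] at hw ⊢
    rw [sum_comm] at hw ⊢
    rw [coeff_zero', ← hw]
    refine sum_congr rfl fun i _ => ?_
    rw [Fin.sum_univ_succAbove _ j0]
    by_cases hi : dt h0 (a i) = 0
    · have h1 : (h0 j0 : ℂ) * (a i j0 : ℂ) +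
          ∑ k : Fin d, (h0 (j0.succAbove k) : ℂ) * (a i (j0.succAbove k) : ℂ) = 0 := by
        have h2 := hdt h0 (a i)
        rw [hi] at h2
        exact_mod_cast h2.symm
      have h2 : ∑ k : Fin d, cF a c h0 i * (a i (j0.succAbove k) : ℂ) *
          ((r (j0.succAbove k)).coeff (w - a i) -
            (h0 (j0.succAbove k) : ℂ) / (h0 j0 : ℂ) * (r j0).coeff (w - a i)) =
          ∑ k : Fin d, cF a c h0 i * (a i (j0.succAbove k) : ℂ) *
            (r (j0.succAbove k)).coeff (w - a i) -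
          cF a c h0 i / (h0 j0 : ℂ) * (r j0).coeff (w - a i) *
            ∑ k : Fin d, (h0 (j0.succAbove k) : ℂ) * (a i (j0.succAbove k) : ℂ) := by
        rw [mul_sum, ← sum_sub_distrib]
        exact sum_congr rfl fun k _ => by ring
      have h3 : ∑ k : Fin d, (h0 (j0.succAbove k) : ℂ) * (a i (j0.succAbove k) : ℂ) =
          - ((h0 j0 : ℂ) * (a i j0 : ℂ)) := by linear_combination h1
      rw [h2, h3]
      field_simp
      ring
    · simp only [cF, if_neg hi, zero_mul, sum_const_zero, add_zero]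
  obtain ⟨y', hy1, hy2, hy3⟩ := kexg a c h δ hδ hh hfac hnd h0 hh0
    (fun k => ev (j0.succAbove k)) hℓ e he hind m0 hm0 y0 hy0 x hx hx0
  let y : Fin (d + 1) → Fin (d + 1) → LP ℂ (d + 1) :=
    Fin.insertNth (α := fun _ => Fin (d + 1) → LP ℂ (d + 1)) j0 (fun _ => 0)
      (fun k => Fin.insertNth (α := fun _ => LP ℂ (d + 1)) j0 0 (y' k))
  have y00 : ∀ k, y j0 k = 0 := by
    intro k
    simp only [y, Fin.insertNth_apply_same]
  have yk0 : ∀ k, y (j0.succAbove k) j0 = 0 := by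
    intro k
    simp only [y, Fin.insertNth_apply_succAbove, Fin.insertNth_apply_same]
  have ykl : ∀ k l, y (j0.succAbove k) (j0.succAbove l) = y' k l := by
    intro k l
    simp only [y, Fin.insertNth_apply_succAbove]
  refine ⟨y, (h0 j0 : ℂ)⁻¹ • r j0, ?_, (hr j0).smul _, ?_, ?_⟩
  · intro j k
    rcases Fin.eq_self_or_eq_succAbove j0 j with rfl | ⟨l, rfl⟩
    · rw [y00]
      exact Supp.zero _
    · rcases Fin.eq_self_or_eq_succAbove j0 k with rfl | ⟨m, rfl⟩
      · rw [yk0]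
        exact Supp.zero _
      · rw [ykl]
        exact hy1 l m
  · intro j k
    rcases Fin.eq_self_or_eq_succAbove j0 j with rfl | ⟨l, rfl⟩
    · rcases Fin.eq_self_or_eq_succAbove j k with rfl | ⟨m, rfl⟩
      · rw [y00, neg_zero]
      · rw [y00, yk0, neg_zero]
    · rcases Fin.eq_self_or_eq_succAbove j0 k with rfl | ⟨m, rfl⟩
      · rw [yk0, y00, neg_zero]
      · rw [ykl, ykl]
        exact hy2 l m
  · intro j
    rcases Fin.eq_self_or_eq_succAbove j0 j with rfl | ⟨l, rfl⟩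
    · rw [sum_eq_zero fun k _ => by rw [y00, mul_zero], zero_add, smul_smul,
        mul_inv_cancel₀ hj0C, one_smul]
    · rw [Fin.sum_univ_succAbove _ j0, yk0, mul_zero, zero_add]
      have h1 : ∑ k : Fin d, gs a (cF a c h0) (ev (j0.succAbove k)) *
          y (j0.succAbove l) (j0.succAbove k) = x l := by
        rw [hy3 l]
        exact sum_congr rfl fun k _ => by rw [ykl]
      rw [h1, smul_smul]
      simp only [x]
      rw [div_eq_mul_inv, sub_add_cancel]

end Pool.Agent.H56.SMC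

end S_KEXF
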