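import Mathlib
import Pool.Agent.H56.SMC.Basic
import Pool.Agent.H56.SMC.CfgDefs

/-! Strong monodromy for nondegenerate polynomials, part A5: this file joins the modules FAC, DER, NDG, FNS, APPN. -/

set_option autoImplicit false

section S_FAC

/-!
# FAC: the facets of a full dimensional pointed rational cone (Minkowski-Weyl)

Proof.  Let `C* = {h ∈ ℝ^{d+1} : h·a_i ≥ 0 for all i}`.  `C*` is pointed, because the `a_i` span.  For each `e : Fin d → ι` with `a ∘ e` linearly independent the space of functionals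
vanishing on the `a (e k)` is spanned by one primitive vector `h_e ∈ ℤ^{d+1}`; if `h_e` or `-h_e` is `≥ 0` on all `a_i` put it into the (finite) family `h`.
Then the first three properties hold.  Last property: let `u ∈ Sset h`; claim: `u` is a nonnegative rational combination of the `a_i` (then clear denominators).  Otherwise by Farkas' lemma
(rational version; e.g. `Pool.Agent.H22.farkas`, or Gordan type lemmas of `Pool.Agent.H60`, or the Mathlib Farkas lemma) there is `h' ∈ C*` with `h'·u < 0`.  Choose such `h'` (possibly real) with the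
maximal rank `ρ` of the active set `{a_i : h'·a_i = 0}`.  `ρ ≤ d` since `h' ≠ 0`.  If `ρ = d` then `h'` is a positive multiple of a member of the family `h`, a contradiction.  If `ρ < d` there is `h''`
not proportional to `h'` vanishing on the active set; the two dimensional plane `P` spanned by `h'`, `h''` intersects `C*` in a pointed closed two dimensional cone containing `h'` in its interior relative to `P`
(for small `t` `h' ± t h'' ∈ C*`), so `P ∩ C*` is generated by two boundary rays `r1`, `r2`, at each of which a new constraint becomes active (rank `> ρ`); `h' = α r1 + β r2` with `α, β ≥ 0`, so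
`r1·u < 0` or `r2·u < 0`, a contradiction to the maximality.
(Alternative: `C* ∩ ℤ^{d+1}` is finitely generated; a minimal generating family consists of extreme vectors; extreme implies that the active set has rank `d`; then Farkas duality.)
-/

set_option autoImplicit false

namespace Pool.Agent.H56.SMC

open Finset AddMonoidAlgebra

section FACsec

variable {V ι : Type*} [AddCommGroup V] [Module ℚ V]

/-- Farkas' lemma for linear functionals over `ℚ`. -/
theorem fac_farkas [DecidableEq ι] (F : Finset ι) :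
    ∀ (b : ι → V →ₗ[ℚ] ℚ) (v : V →ₗ[ℚ] ℚ), (∀ w, (∀ k ∈ F, 0 ≤ b k w) → 0 ≤ v w) →
      ∃ c : ι → ℚ, (∀ k, 0 ≤ c k) ∧ v = ∑ k ∈ F, c k • b k := by
  induction F using Finset.induction_on with
  | empty =>
    intro b v h
    refine ⟨fun _ => 0, by simp, ?_⟩
    ext w
    have h1 := h w (by simp)
    have h2 := h (-w) (by simp)
    rw [map_neg] at h2
    simp only [Finset.sum_empty, LinearMap.zero_apply]
    linarith
  | insert p F hp ih =>
    intro b v h
    by_cases h0 : ∀ w, (∀ k ∈ F, 0 ≤ b k w) → 0 ≤ v w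
    · obtain ⟨c, hc, hv⟩ := ih b v h0
      refine ⟨fun k => if k = p then 0 else c k, fun k => ?_, ?_⟩
      · simp only
        split_ifs with hkp
        · exact le_rfl
        · exact hc k
      · rw [Finset.sum_insert hp]
        simp only [if_true, zero_smul, zero_add]
        rw [hv]
        refine Finset.sum_congr rfl fun k hk => ?_
        rw [if_neg (by rintro rfl; exact hp hk)]
    · push Not at h0
      obtain ⟨w1, hw1, hv1⟩ := h0
      have hbp : b p w1 < 0 := by
        by_contra hcon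
        push Not at hcon
        have := h w1 (fun k hk => by
          rcases Finset.mem_insert.mp hk with rfl | hk
          · exact hcon
          · exact hw1 k hk)
        linarith
      set w0 : V := (-(b p w1))⁻¹ • w1 with hw0
      have hpos : 0 < (-(b p w1))⁻¹ := inv_pos.mpr (by linarith)
      have hb0 : b p w0 = -1 := by
        rw [hw0, map_smul, smul_eq_mul]
        have : b p w1 ≠ 0 := by linarith
        field_simp
      have hbk0 : ∀ k ∈ F, 0 ≤ b k w0 := by
        intro k hk
        rw [hw0, map_smul, smul_eq_mul]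
        exact mul_nonneg hpos.le (hw1 k hk)
      have hv0 : v w0 < 0 := by
        rw [hw0, map_smul, smul_eq_mul]
        exact mul_neg_of_pos_of_neg hpos hv1
      obtain ⟨c, hc, hv⟩ := ih (fun k => b k + (b k w0) • b p) (v + (v w0) • b p) (by
        intro w hw
        have h1 := h (w + (b p w) • w0) (fun k hk => by
          rcases Finset.mem_insert.mp hk with rfl | hk
          · rw [map_add, map_smul, smul_eq_mul, hb0]; linarith
          · have := hw k hk
            simp only [LinearMap.add_apply, LinearMap.smul_apply, smul_eq_mul] at this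
            rw [map_add, map_smul, smul_eq_mul]
            linarith)
        rw [map_add, map_smul, smul_eq_mul] at h1
        simp only [LinearMap.add_apply, LinearMap.smul_apply, smul_eq_mul]
        linarith)
      refine ⟨fun k => if k = p then ∑ k ∈ F, c k * b k w0 - v w0 else c k, fun k => ?_, ?_⟩
      · simp only
        split_ifs with hkp
        · have : 0 ≤ ∑ k ∈ F, c k * b k w0 :=
            Finset.sum_nonneg fun k hk => mul_nonneg (hc k) (hbk0 k hk)
          linarith
        · exact hc k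
      · rw [Finset.sum_insert hp]
        simp only [if_true]
        have h2 : ∑ k ∈ F, (if k = p then ∑ k ∈ F, c k * b k w0 - v w0 else c k) • b k =
            ∑ k ∈ F, c k • b k := by
          refine Finset.sum_congr rfl fun k hk => ?_
          rw [if_neg (by rintro rfl; exact hp hk)]
        rw [h2]
        ext w
        have h3 := congrArg (fun f : V →ₗ[ℚ] ℚ => f w) hv
        simp only [LinearMap.add_apply, LinearMap.smul_apply, smul_eq_mul,
          LinearMap.coe_sum, Finset.sum_apply] at h3 ⊢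
        have h4 : ∑ k ∈ F, c k * (b k w + b k w0 * b p w) =
            ∑ k ∈ F, c k * b k w + (∑ k ∈ F, c k * b k w0) * b p w := by
          rw [Finset.sum_mul, ← Finset.sum_add_distrib]
          exact Finset.sum_congr rfl fun k _ => by ring
        rw [h4] at h3
        linarith

/-- Farkas' lemma for vectors over `ℚ`. -/
theorem fac_farkas_vec [FiniteDimensional ℚ V] [Fintype ι] (b : ι → V) (v : V)
    (h : ¬ ∃ c : ι → ℚ, (∀ k, 0 ≤ c k) ∧ v = ∑ k, c k • b k) :
    ∃ φ : V →ₗ[ℚ] ℚ, (∀ i, 0 ≤ φ (b i)) ∧ φ v < 0 := by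
  classical
  by_contra hcon
  push Not at hcon
  apply h
  obtain ⟨c, hc, hv⟩ := fac_farkas (V := Module.Dual ℚ V) (univ : Finset ι)
    (fun i => Module.Dual.eval ℚ V (b i)) (Module.Dual.eval ℚ V v) (by
      intro φ hφ
      exact hcon φ (fun i => hφ i (mem_univ i)))
  refine ⟨c, hc, ?_⟩
  have hinj := Module.eval_apply_injective ℚ (V := V)
  apply hinj
  rw [map_sum]
  simp only [map_smul]
  exact hv

/-- A functional with a maximal active set has active rank at least `d`. -/
theorem fac_max [FiniteDimensional ℚ V] [Fintype ι] {d : ℕ}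
    (hd : Module.finrank ℚ V = d + 1) (b : ι → V) (hb : Submodule.span ℚ (Set.range b) = ⊤) (v : V)
    (h : ∃ φ : V →ₗ[ℚ] ℚ, (∀ i, 0 ≤ φ (b i)) ∧ φ v < 0) :
    ∃ φ : V →ₗ[ℚ] ℚ, (∀ i, 0 ≤ φ (b i)) ∧ φ v < 0 ∧
      ∃ e : Fin d → ι, (∀ k, φ (b (e k)) = 0) ∧ LinearIndependent ℚ (fun k => b (e k)) := by
  classical
  let S : Set (Finset ι) := {A | ∃ φ : V →ₗ[ℚ] ℚ, (∀ i, 0 ≤ φ (b i)) ∧ φ v < 0 ∧
    A = univ.filter (fun i => φ (b i) = 0)}
  have hne : S.Nonempty := by
    obtain ⟨φ, h1, h2⟩ := h
    exact ⟨_, φ, h1, h2, rfl⟩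
  obtain ⟨A, ⟨φ, h1, h2, hA⟩, hmax⟩ := (Set.toFinite S).exists_maximal hne
  refine ⟨φ, h1, h2, ?_⟩
  -- the rank of the active set
  have hrank : d ≤ Module.finrank ℚ (Submodule.span ℚ (b '' (A : Set ι))) := by
    by_contra hlt
    push Not at hlt
    -- a functional vanishing on the active set and on `v`
    have hlt2 : Submodule.span ℚ (insert v (b '' (A : Set ι))) < ⊤ := by
      rw [lt_top_iff_ne_top]
      intro htop
      have h3 : Module.finrank ℚ (Submodule.span ℚ (insert v (b '' (A : Set ι)))) = d + 1 := by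
        rw [htop, finrank_top, hd]
      rw [Submodule.span_insert] at h3
      have h4 := Submodule.finrank_add_le_finrank_add_finrank (Submodule.span ℚ {v})
        (Submodule.span ℚ (b '' (A : Set ι)))
      have h5 : Module.finrank ℚ (Submodule.span ℚ ({v} : Set V)) ≤ 1 := by
        have h51 := finrank_span_le_card (R := ℚ) ({v} : Set V)
        simpa using h51
      omega
    obtain ⟨ψ, hψ0, hψ⟩ := Submodule.exists_le_ker_of_lt_top _ hlt2
    have hψv : ψ v = 0 := hψ (Submodule.subset_span (Set.mem_insert _ _))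
    have hψA : ∀ i ∈ A, ψ (b i) = 0 := fun i hi =>
      hψ (Submodule.subset_span (Set.mem_insert_of_mem _ ⟨i, hi, rfl⟩))
    -- choose the sign
    obtain ⟨θ, hθv, hθA, i0, hi0⟩ : ∃ θ : V →ₗ[ℚ] ℚ, θ v = 0 ∧ (∀ i ∈ A, θ (b i) = 0) ∧
        ∃ i, θ (b i) < 0 := by
      have : ∃ i, ψ (b i) ≠ 0 := by
        by_contra hall
        push Not at hall
        apply hψ0
        apply LinearMap.ext_on_range hb
        intro i
        rw [hall i]; rfl
      obtain ⟨i, hi⟩ := this
      rcases lt_or_gt_of_ne hi with hi | hi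
      · exact ⟨ψ, hψv, hψA, i, hi⟩
      · exact ⟨-ψ, by simp [hψv], fun j hj => by simp [hψA j hj], i, by simpa using hi⟩
    -- the step
    let N : Finset ι := univ.filter (fun i => θ (b i) < 0)
    have hN : N.Nonempty := ⟨i0, by simp [N, hi0]⟩
    obtain ⟨j, hjN, hj⟩ := N.exists_min_image (fun i => φ (b i) / (-θ (b i))) hN
    have hθj : θ (b j) < 0 := by simpa [N] using hjN
    set t : ℚ := φ (b j) / (-θ (b j)) with ht
    have ht0 : 0 ≤ t := div_nonneg (h1 j) (by linarith)
    have hjA : j ∉ A := fun hj' => by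
      have := hθA j hj'
      linarith
    have hnew : (univ.filter (fun i => (φ + t • θ) (b i) = 0)) ∈ S := by
      refine ⟨φ + t • θ, fun i => ?_, ?_, rfl⟩
      · simp only [LinearMap.add_apply, LinearMap.smul_apply, smul_eq_mul]
        by_cases hi : θ (b i) < 0
        · have h6 := hj i (by simp [N, hi])
          rw [le_div_iff₀ (by linarith)] at h6
          linarith
        · push Not at hi
          have := h1 i
          have := mul_nonneg ht0 hi
          linarith
      · simp only [LinearMap.add_apply, LinearMap.smul_apply, smul_eq_mul, hθv]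
        linarith
    have hsub : A ≤ univ.filter (fun i => (φ + t • θ) (b i) = 0) := by
      intro i hi
      have h7 : φ (b i) = 0 := by
        rw [hA] at hi
        simpa using hi
      simp only [mem_filter, mem_univ, true_and, LinearMap.add_apply, LinearMap.smul_apply,
        smul_eq_mul, h7, hθA i hi]
      ring
    have h8 := hmax hnew hsub
    apply hjA
    apply h8
    simp only [mem_filter, mem_univ, true_and, LinearMap.add_apply, LinearMap.smul_apply,
      smul_eq_mul]
    rw [ht, div_neg, neg_mul, div_mul_cancel₀ _ hθj.ne, add_neg_cancel]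
  have hAφ : ∀ i ∈ A, φ (b i) = 0 := by
    intro i hi
    rw [hA] at hi
    simpa using hi
  obtain ⟨f, hf, -, hli⟩ := Submodule.exists_fun_fin_finrank_span_eq ℚ (b '' (A : Set ι))
  choose g hgA hg using hf
  refine ⟨fun k => g (Fin.castLE hrank k), fun k => ?_, ?_⟩
  · exact hAφ _ (hgA (Fin.castLE hrank k))
  · have h9 : (fun k => b (g (Fin.castLE hrank k))) = f ∘ (Fin.castLE hrank) := by
      funext k
      exact hg _
    rw [h9]
    exact hli.comp _ (Fin.castLE_injective hrank)

end FACsec

/-- Common denominators. -/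
theorem fac_den {κ : Type*} [Fintype κ] (q : κ → ℚ) :
    ∃ N : ℕ, 0 < N ∧ ∃ n : κ → ℤ, ∀ k, (N : ℚ) * q k = n k := by
  classical
  refine ⟨∏ k, (q k).den, Finset.prod_pos fun k _ => (q k).den_pos, ?_⟩
  have h : ∀ k, ∃ n : ℤ, ((∏ k, (q k).den : ℕ) : ℚ) * q k = n := by
    intro k
    obtain ⟨m, hm⟩ := Finset.dvd_prod_of_mem (fun k => (q k).den) (mem_univ k)
    refine ⟨m * (q k).num, ?_⟩
    rw [hm]
    push_cast
    have := Rat.mul_den_eq_num (q k)
    rw [← this]
    ring
  choose n hn using h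
  exact ⟨n, hn⟩

/-- The primitive vector on a ray. -/
theorem fac_prim {n : ℕ} (m : Fin n → ℤ) (hm : m ≠ 0) :
    ∃ (h : Lat n) (g : ℤ), 0 < g ∧ (∀ j, m j = g * h j) ∧ ∃ u, dt h u = 1 := by
  have key : ∃ (g : ℤ) (c : Fin n → ℤ), (∀ j, g ∣ m j) ∧ ∑ j, c j * m j = g := by
    obtain ⟨g, hg⟩ := (IsPrincipalIdealRing.principal (Ideal.span (Set.range m)))
    rw [← Ideal.span] at hg
    have h1 : g ∈ Ideal.span (Set.range m) := by
      rw [hg]; exact Ideal.mem_span_singleton_self g
    obtain ⟨c, hc⟩ := (Ideal.mem_span_range_iff_exists_fun).1 h1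
    refine ⟨g, c, fun j => ?_, hc⟩
    have h2 : m j ∈ Ideal.span (Set.range m) := Ideal.subset_span ⟨j, rfl⟩
    rw [hg, Ideal.mem_span_singleton] at h2
    exact h2
  obtain ⟨g, c, hg, hc⟩ := key
  have hg0 : g ≠ 0 := by
    rintro rfl
    apply hm
    funext j
    exact zero_dvd_iff.1 (hg j)
  obtain ⟨g, c, hg, hc, hpos⟩ : ∃ (g : ℤ) (c : Fin n → ℤ), (∀ j, g ∣ m j) ∧ ∑ j, c j * m j = g ∧
      0 < g := by
    rcases lt_or_gt_of_ne hg0 with h | h
    · refine ⟨-g, fun j => -c j, fun j => (neg_dvd).2 (hg j), ?_, by linarith⟩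
      rw [← hc]
      simp
    · exact ⟨g, c, hg, hc, h⟩
  choose h hh using hg
  refine ⟨h, g, hpos, hh, c, ?_⟩
  have h3 : g * dt h c = g * 1 := by
    rw [mul_one]
    conv_rhs => rw [← hc]
    rw [dt, mul_sum]
    refine sum_congr rfl fun j _ => ?_
    rw [hh j]; ring
  exact mul_left_cancel₀ hpos.ne' h3

/-- The rational functional of an integral one. -/
noncomputable def facL {n : ℕ} (h : Lat n) : (Fin n → ℚ) →ₗ[ℚ] ℚ :=
  ∑ j, (h j : ℚ) • LinearMap.proj j

theorem facL_apply {n : ℕ} (h : Lat n) (x : Fin n → ℚ) : facL h x = ∑ j, (h j : ℚ) * x j := by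
  simp [facL]

/-- The rational vector of an integral one. -/
def facV {n : ℕ} (x : Lat n) : Fin n → ℚ := fun j => (x j : ℚ)

theorem facL_facV {n : ℕ} (h x : Lat n) : facL h (facV x) = (dt h x : ℚ) := by
  rw [facL_apply, dt]
  push_cast
  rfl

/-- Every nonzero rational functional is a positive multiple of a primitive integral one. -/
theorem fac_scale {n : ℕ} (φ : (Fin n → ℚ) →ₗ[ℚ] ℚ) (hφ : φ ≠ 0) :
    ∃ (h : Lat n) (γ : ℚ), 0 < γ ∧ φ = γ • facL h ∧ ∃ u, dt h u = 1 := by
  obtain ⟨N, hN, m, hm⟩ := fac_den (fun j => φ (Pi.single j 1))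
  have hm0 : m ≠ 0 := by
    rintro rfl
    apply hφ
    apply LinearMap.pi_ext'
    intro j
    apply LinearMap.ext_ring
    have h1 := hm j
    simp only [Pi.zero_apply, Int.cast_zero, mul_eq_zero, Nat.cast_eq_zero] at h1
    rcases h1 with h1 | h1
    · omega
    · simpa using h1
  obtain ⟨h, g, hg, hmg, hu⟩ := fac_prim m hm0
  have hNq : (0 : ℚ) < N := by exact_mod_cast hN
  have hgq : (0 : ℚ) < g := by exact_mod_cast hg
  refine ⟨h, g / N, div_pos hgq hNq, ?_, hu⟩
  apply LinearMap.pi_ext'
  intro j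
  apply LinearMap.ext_ring
  have h1 := hm j
  simp only [LinearMap.comp_apply, LinearMap.smul_apply, smul_eq_mul, facL_apply,
    LinearMap.single_apply]
  rw [Finset.sum_eq_single j (fun k _ hk => by simp [hk]) (by simp)]
  simp only [Pi.single_eq_same, mul_one]
  have h2 : (m j : ℚ) = g * h j := by exact_mod_cast hmg j
  rw [h2] at h1
  field_simp
  linarith

/-- Linear independence over `ℤ` and over `ℚ`. -/
theorem fac_li {n : ℕ} {κ : Type*} (v : κ → Lat n) :
    LinearIndependent ℤ v ↔ LinearIndependent ℚ (fun k => facV (v k)) := by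
  rw [← LinearIndependent.iff_fractionRing ℤ ℚ]
  let L : Lat n →ₗ[ℤ] (Fin n → ℚ) :=
    { toFun := facV
      map_add' := fun x y => by funext j; simp [facV]
      map_smul' := fun r x => by funext j; simp [facV] }
  have hL : LinearMap.ker L = ⊥ := by
    rw [LinearMap.ker_eq_bot]
    intro x y hxy
    funext j
    have h1 : facV x = facV y := hxy
    have h2 : (x j : ℚ) = (y j : ℚ) := congrFun h1 j
    exact_mod_cast h2
  exact (LinearMap.linearIndependent_iff L hL).symm

/-- FAC -/
theorem fac {d : ℕ} {ι : Type} [Fintype ι] (a : ι → Lat (d + 1)) (δ : Lat (d + 1))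
    (hδ : ∀ i, dt δ (a i) = 1)
    (hspan : ∃ e : Fin (d + 1) → ι, LinearIndependent ℤ (fun k => a (e k))) :
    ∃ (m : ℕ) (h : Fin m → Lat (d + 1)), (∀ v i, 0 ≤ dt (h v) (a i)) ∧
      (∀ v, ∃ u, dt (h v) u = 1) ∧
      (∀ v, ∃ e : Fin d → ι, (∀ k, dt (h v) (a (e k)) = 0) ∧
        LinearIndependent ℤ (fun k => a (e k))) ∧
      ∀ u ∈ Sset h, ∃ N : ℕ, 0 < N ∧ ∃ n : ι → ℕ, N • u = ∑ i, n i • a i := by
  classical
  obtain ⟨es, hes⟩ := hspan
  have hesQ := (fac_li _).1 hes
  set b : ι → (Fin (d + 1) → ℚ) := fun i => facV (a i) with hbdef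
  have hbtop : Submodule.span ℚ (Set.range b) = ⊤ := by
    have h1 : Submodule.span ℚ (Set.range fun k => b (es k)) = ⊤ :=
      hesQ.span_eq_top_of_card_eq_finrank (by simp)
    rw [eq_top_iff, ← h1]
    apply Submodule.span_mono
    rintro _ ⟨k, rfl⟩
    exact ⟨es k, rfl⟩
  -- the facet functionals
  let T : (Fin d → ι) → Lat (d + 1) → Prop := fun e h =>
    (∀ i, 0 ≤ dt h (a i)) ∧ (∃ u, dt h u = 1) ∧ ∀ k, dt h (a (e k)) = 0
  let J : Type := {e : Fin d → ι // LinearIndependent ℤ (fun k => a (e k)) ∧ ∃ h, T e h}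
  have : Finite J := inferInstanceAs (Finite {e : Fin d → ι // _})
  have : Fintype J := Fintype.ofFinite J
  let E : J ≃ Fin (Fintype.card J) := Fintype.equivFin J
  have hch : ∀ j : J, ∃ h, T j.1 h := fun j => j.2.2
  choose H hH using hch
  refine ⟨Fintype.card J, fun v => H (E.symm v), fun v i => (hH _).1 i, fun v => (hH _).2.1,
    fun v => ⟨(E.symm v).1, (hH _).2.2, (E.symm v).2.1⟩, ?_⟩
  intro u hu
  by_cases hcone : ∃ c : ι → ℚ, (∀ k, 0 ≤ c k) ∧ facV u = ∑ k, c k • b k
  · obtain ⟨c, hc, hcu⟩ := hcone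
    obtain ⟨N, hN, n, hn⟩ := fac_den c
    have hn0 : ∀ i, 0 ≤ n i := by
      intro i
      have h1 : (0 : ℚ) ≤ n i := by
        rw [← hn i]
        exact mul_nonneg (by positivity) (hc i)
      exact_mod_cast h1
    refine ⟨N, hN, fun i => (n i).toNat, ?_⟩
    funext j
    have h2 := congrFun hcu j
    simp only [Finset.sum_apply, Pi.smul_apply, smul_eq_mul] at h2 ⊢
    have h3 : ((N • u j : ℤ) : ℚ) = ((∑ i, (n i).toNat • a i j : ℤ) : ℚ) := by
      simp only [nsmul_eq_mul]
      push_cast
      have h4 : (u j : ℚ) = ∑ i, c i * (a i j : ℚ) := h2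
      rw [h4, mul_sum]
      refine sum_congr rfl fun i _ => ?_
      rw [← mul_assoc, hn i]
      congr 1
      have h5 : (((n i).toNat : ℤ) : ℚ) = (n i : ℚ) := by rw [Int.toNat_of_nonneg (hn0 i)]
      rw [← h5]
      push_cast
      rfl
    exact_mod_cast h3
  · exfalso
    obtain ⟨φ, h1, h2, e, he, hli⟩ := fac_max (d := d) (by simp) b hbtop (facV u)
      (fac_farkas_vec b (facV u) hcone)
    have hφ0 : φ ≠ 0 := by
      rintro rfl
      simp at h2
    obtain ⟨h, γ, hγ, hφ, hprim⟩ := fac_scale φ hφ0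
    have hval : ∀ x : Lat (d + 1), φ (facV x) = γ * (dt h x : ℚ) := by
      intro x
      rw [hφ, LinearMap.smul_apply, facL_facV, smul_eq_mul]
    have hTe : T e h := by
      refine ⟨fun i => ?_, hprim, fun k => ?_⟩
      · have h3 := h1 i
        rw [hbdef] at h3
        simp only at h3
        rw [hval] at h3
        have h4 : (0 : ℚ) ≤ (dt h (a i) : ℚ) := nonneg_of_mul_nonneg_right h3 hγ
        exact_mod_cast h4
      · have h3 := he k
        rw [hbdef] at h3
        simp only at h3
        rw [hval] at h3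
        have h4 : (dt h (a (e k)) : ℚ) = 0 := (mul_eq_zero.1 h3).resolve_left hγ.ne'
        exact_mod_cast h4
    have hliZ : LinearIndependent ℤ (fun k => a (e k)) := (fac_li _).2 hli
    let j : J := ⟨e, hliZ, h, hTe⟩
    obtain ⟨hj1, ⟨u1, hu1⟩, hj3⟩ := hH j
    -- an index with positive value
    obtain ⟨i0, hi0⟩ : ∃ i, φ (b i) ≠ 0 := by
      by_contra hall
      push Not at hall
      apply hφ0
      apply LinearMap.ext_on_range hbtop
      intro i
      rw [hall i]; rfl
    have hi0' : 0 < φ (b i0) := lt_of_le_of_ne (h1 i0) (Ne.symm hi0)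
    have hli2 : LinearIndependent ℚ (Fin.cons (b i0) (fun k => b (e k)) :
        Fin (d + 1) → (Fin (d + 1) → ℚ)) := by
      rw [linearIndependent_finCons]
      refine ⟨hli, fun hmem => hi0 ?_⟩
      have : Submodule.span ℚ (Set.range fun k => b (e k)) ≤ LinearMap.ker φ := by
        rw [Submodule.span_le]
        rintro _ ⟨k, rfl⟩
        exact he k
      exact this hmem
    have htop2 := hli2.span_eq_top_of_card_eq_finrank (by simp)
    set ρ : ℚ := facL (H j) (b i0) / φ (b i0) with hρ
    have hprop : facL (H j) = ρ • φ := by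
      apply LinearMap.ext_on_range htop2
      intro k
      refine Fin.cases ?_ (fun k => ?_) k
      · simp only [Fin.cons_zero, LinearMap.smul_apply, smul_eq_mul]
        rw [hρ]
        field_simp
      · simp only [Fin.cons_succ, LinearMap.smul_apply, smul_eq_mul, he k, mul_zero]
        rw [hbdef]
        simp only
        rw [facL_facV, hj3 k, Int.cast_zero]
    have hρ0 : 0 ≤ ρ := by
      rw [hρ]
      apply div_nonneg _ hi0'.le
      rw [hbdef]
      simp only
      rw [facL_facV]
      exact_mod_cast hj1 i0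
    have hρ1 : ρ ≠ 0 := by
      intro h0
      rw [h0, zero_smul] at hprop
      have h5 := facL_facV (H j) u1
      rw [hprop, hu1] at h5
      simp at h5
    have hρpos : 0 < ρ := lt_of_le_of_ne hρ0 (Ne.symm hρ1)
    have h6 : facL (H j) (facV u) < 0 := by
      rw [hprop, LinearMap.smul_apply, smul_eq_mul]
      exact mul_neg_of_pos_of_neg hρpos h2
    rw [facL_facV] at h6
    have h7 : dt (H j) u < 0 := by exact_mod_cast h6
    have h8 := hu (E j)
    simp only [Equiv.symm_apply_apply] at h8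
    linarith

end Pool.Agent.H56.SMC

end S_FAC

section S_DER

/-!
# DER: derivations of `ℂ` with prescribed values on algebraically independent elements

Proof.  `k0 = Algebra.adjoin ℚ T`.  Extend the family `lam` to a transcendence basis `B` of `ℂ` over `k0` (or over its fraction field).  On the polynomial ring `k0[B]` there is the derivation `∂/∂(lam k)`;
it extends to the fraction field and then to the algebraic extension `ℂ` (characteristic `0`, so separable; `Algebra.FormallyEtale.of_isSeparable`, or the differential extension results in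
`Mathlib/FieldTheory/Differential/Basic.lean`, or Zorn: extend a derivation from a subfield `F` to `F(x)`, `x` algebraic: `D x = -(D P)(x)/P'(x)` with `P` the minimal polynomial; `x` transcendental: `D x = 0`).
-/

set_option autoImplicit false

namespace Pool.Agent.H56.SMC

open Finset AddMonoidAlgebra

/-- derivations extend along formally étale algebras -/
theorem der_ext_etale (R S T : Type) [CommRing R] [CommRing S] [CommRing T] [Algebra R S]
    [Algebra R T] [Algebra S T] [IsScalarTower R S T] [Algebra.FormallyEtale S T]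
    (d : Derivation R S T) :
    ∃ D : Derivation R T T, ∀ s : S, D (algebraMap S T s) = d s := by
  let l : TensorProduct S T (Ω[S⁄R]) →ₗ[T] T := (d.liftKaehlerDifferential).liftBaseChange T
  let e := KaehlerDifferential.tensorKaehlerEquivOfFormallyEtale R S T
  let L : Ω[T⁄R] →ₗ[T] T := l.comp e.symm.toLinearMap
  refine ⟨L.compDer (KaehlerDifferential.D R T), fun s => ?_⟩
  have h1 := KaehlerDifferential.tensorKaehlerEquivOfFormallyEtale_symm_D_algebraMap R S T s
  show l (e.symm (KaehlerDifferential.D R T (algebraMap S T s))) = d s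
  rw [h1]
  show (d.liftKaehlerDifferential).liftBaseChange T
    (TensorProduct.tmul S 1 (KaehlerDifferential.D R S s)) = d s
  rw [LinearMap.liftBaseChange_one_tmul, Derivation.liftKaehlerDifferential_comp_D]

theorem der_etale (S : Type) [CommRing S] [IsDomain S] [Algebra S ℂ] [FaithfulSMul S ℂ]
    [Algebra.IsAlgebraic S ℂ] : Algebra.FormallyEtale S ℂ := by
  let : Algebra (FractionRing S) ℂ := FractionRing.liftAlgebra S ℂ
  have : IsScalarTower S (FractionRing S) ℂ := FractionRing.isScalarTower_liftAlgebra S ℂ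
  have : Algebra.IsAlgebraic (FractionRing S) ℂ :=
    (IsFractionRing.comap_isAlgebraic_iff (A := S) (K := FractionRing S) (C := ℂ)).1
      inferInstance
  have : CharZero (FractionRing S) := (algebraMap (FractionRing S) ℂ).charZero
  have : Algebra.FormallyEtale (FractionRing S) ℂ := Algebra.FormallyEtale.of_isSeparable _ _
  have : Algebra.FormallyEtale S (FractionRing S) :=
    Algebra.FormallyEtale.of_isLocalization (nonZeroDivisors S)
  exact Algebra.FormallyEtale.comp S (FractionRing S) ℂ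

/-- DER -/
theorem der {ϑ : Type} [Fintype ϑ] (T : Set ℂ) (lam : ϑ → ℂ)
    (hlam : AlgebraicIndependent (Algebra.adjoin ℚ T) lam) (k : ϑ) :
    ∃ D : Derivation ℚ ℂ ℂ, (∀ x ∈ T, D x = 0) ∧ D (lam k) = 1 ∧ ∀ j, j ≠ k → D (lam j) = 0 := by
  classical
  obtain ⟨t, hst, ht⟩ := exists_isTranscendenceBasis_superset
    ((algebraicIndependent_subtype_range hlam.injective).2 hlam :
      AlgebraicIndepOn (Algebra.adjoin ℚ T) id (Set.range lam))
  set S := Algebra.adjoin (Algebra.adjoin ℚ T) (Set.range ((↑) : t → ℂ)) with hS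
  have : Algebra.IsAlgebraic S ℂ := ht.isAlgebraic
  have : Algebra.FormallyEtale S ℂ := der_etale S
  have : IsScalarTower (Algebra.adjoin ℚ T) S ℂ := IsScalarTower.of_algebraMap_eq fun _ => rfl
  let e := ht.1.aevalEquiv
  let ix : ϑ → t := fun j => ⟨lam j, hst ⟨j, rfl⟩⟩
  let L : S →ₗ[Algebra.adjoin ℚ T] ℂ :=
    (MvPolynomial.aeval ((↑) : t → ℂ)).toLinearMap.comp
      ((MvPolynomial.pderiv (R := Algebra.adjoin ℚ T) (ix k)).toLinearMap.comp
        e.symm.toLinearMap)
  have hL : ∀ s, L s = MvPolynomial.aeval ((↑) : t → ℂ)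
      (MvPolynomial.pderiv (R := Algebra.adjoin ℚ T) (ix k) (e.symm s)) := fun s => rfl
  have hev : ∀ s : S, MvPolynomial.aeval ((↑) : t → ℂ) (e.symm s) = (s : ℂ) := by
    intro s
    exact ht.1.aeval_repr s
  let d : Derivation (Algebra.adjoin ℚ T) S ℂ := Derivation.mk' L (by
    intro a b
    rw [hL, hL, hL, map_mul, Derivation.leibniz, map_add, smul_eq_mul, smul_eq_mul, map_mul,
      map_mul, hev, hev, Algebra.smul_def, Algebra.smul_def]
    rfl)
  have hd : ∀ s, d s = L s := fun s => rfl
  obtain ⟨D, hD⟩ := der_ext_etale (Algebra.adjoin ℚ T) S ℂ d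
  have hval : ∀ j, D (lam j) = if j = k then 1 else 0 := by
    intro j
    have h1 : algebraMap S ℂ (e (MvPolynomial.X (ix j))) = lam j := by
      rw [AlgebraicIndependent.algebraMap_aevalEquiv, MvPolynomial.aeval_X]
    rw [← h1, hD, hd, hL, AlgEquiv.symm_apply_apply]
    by_cases hjk : j = k
    · rw [hjk, MvPolynomial.pderiv_X_self, map_one, if_pos rfl]
    · rw [MvPolynomial.pderiv_X_of_ne, map_zero, if_neg hjk]
      intro h
      exact hjk (hlam.injective (congrArg Subtype.val h))
  refine ⟨D.restrictScalars ℚ, fun x hx => ?_, ?_, fun j hj => ?_⟩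
  · exact D.map_algebraMap (⟨x, Algebra.subset_adjoin hx⟩ : Algebra.adjoin ℚ T)
  · show D (lam k) = 1
    rw [hval, if_pos rfl]
  · show D (lam j) = 0
    rw [hval, if_neg hj]

end Pool.Agent.H56.SMC

end S_DER

section S_NDG

/-!
# NDG: the Cayley configuration is nondegenerate

Proof.  Let `h = vec l l2 v` be nonnegative on the configuration, zero somewhere, `χ` a point of the torus with all sums zero; `χ_0 = χ 0`, `χ_1 = χ 1`, `y_j = χ (j+2)`.
`A' = {i : dt h (cA (inl i)) = 0}`, `B' = {k : dt h (cA (inr k)) = 0}`, `f' = ∑_{A'} κ_i y^{a_i}`, `H' = ∑_{B'} λ_k y^{β_k}` (values), `θ_j f' = ∑_{A'} κ_i a_ij y^{a_i}`, `θ_j H'` similarly.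
The coordinates `0`, `1`, `j+2` of the equations: `χ_0 f' = 0`, `χ_1 H' = 0`, `χ_0 θ_j f' + χ_1 θ_j H' = 0`.
If `B'` is empty: `A'` is not empty and is the set of minimisers of `v·a_i` (`l + v·a_i ≥ 0` with equality on `A'`), `f' = 0`, `θ_j f' = 0` for all `j`: contradicts `hnd`.
If `k ∈ B'`: take the derivation `D` of `der` (`T = range κ`) for `k`.  `f' = 0` gives `0 = D f' = ∑_j (θ_j f') (D y_j / y_j)` (`D κ_i = 0`); `H' = 0` gives
`0 = D H' = y^{β_k} + ∑_j (θ_j H') (D y_j / y_j)`.  So `χ_1 y^{β_k} = -∑_j (χ_0 θ_j f' + χ_1 θ_j H') (D y_j / y_j) = 0`, a contradiction.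
-/

set_option autoImplicit false

namespace Pool.Agent.H56.SMC

open Finset AddMonoidAlgebra

/-- The monomial `y^q`. -/
noncomputable def ndgm {n : ℕ} (y : Fin n → ℂ) (q : Fin n → ℤ) : ℂ := ∏ j, y j ^ q j

theorem ndgm_ne {n : ℕ} (y : Fin n → ℂ) (hy : ∀ j, y j ≠ 0) (q : Fin n → ℤ) : ndgm y q ≠ 0 :=
  Finset.prod_ne_zero_iff.2 fun j _ => zpow_ne_zero _ (hy j)

/-- The derivative of a monomial. -/
theorem ndg_deriv {n : ℕ} (D : Derivation ℚ ℂ ℂ) (y : Fin n → ℂ) (hy : ∀ j, y j ≠ 0)
    (q : Fin n → ℤ) : D (ndgm y q) = ndgm y q * ∑ j, (q j : ℂ) * (D (y j) / y j) := by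
  classical
  have h : ∀ s : Finset (Fin n), D (∏ j ∈ s, y j ^ q j) =
      (∏ j ∈ s, y j ^ q j) * ∑ j ∈ s, (q j : ℂ) * (D (y j) / y j) := by
    intro s
    induction s using Finset.induction_on with
    | empty => simp
    | insert a s ha ih =>
      rw [prod_insert ha, sum_insert ha, Derivation.leibniz, ih, Derivation.leibniz_zpow]
      simp only [smul_eq_mul, zsmul_eq_mul]
      rw [zpow_sub_one₀ (hy a)]
      field_simp
      ring
  exact h univ

/-- NDG -/
theorem ndg {n r : ℕ} {ϑ : Type} [Fintype ϑ] (a : Fin r → (Fin n →₀ ℕ)) (κ : Fin r → ℂ)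
    (hnd : Nondeg a κ) (bb : ϑ → Lat n) (lam : ϑ → ℂ)
    (hlam : AlgebraicIndependent (Algebra.adjoin ℚ (Set.range κ)) lam) :
    TorusND (cA a bb) (cC κ lam) := by
  classical
  intro h hh hex χ
  by_contra hcon
  push Not at hcon
  set X0 : ℂ := ((χ 0 : ℂˣ) : ℂ) with hX0
  set X1 : ℂ := ((χ (Fin.succ 0) : ℂˣ) : ℂ) with hX1
  set y : Fin n → ℂ := fun j => ((χ j.succ.succ : ℂˣ) : ℂ) with hy
  have hX0' : X0 ≠ 0 := Units.ne_zero _
  have hX1' : X1 ≠ 0 := Units.ne_zero _
  have hy' : ∀ j, y j ≠ 0 := fun j => Units.ne_zero _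
  have hval : ∀ l l2 q, ((∏ k, χ k ^ (vec l l2 q k) : ℂˣ) : ℂ) = X0 ^ l * X1 ^ l2 * ndgm y q := by
    intro l l2 q
    rw [Fin.prod_univ_succ, Fin.prod_univ_succ]
    simp only [vec, Fin.cons_zero, Fin.cons_succ, ndgm, Units.val_mul, Units.val_zpow_eq_zpow_val,
      Units.coe_prod, hX0, hX1, hy]
    ring
  -- the equations
  have hE : ∀ j, (∑ i, if dt h (cA a bb (Sum.inl i)) = 0 then
        κ i * (cA a bb (Sum.inl i) j : ℂ) * (X0 * ndgm y (fun j => (a i j : ℤ))) else 0) +
      ∑ k, (if dt h (cA a bb (Sum.inr k)) = 0 then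
        lam k * (cA a bb (Sum.inr k) j : ℂ) * (X1 * ndgm y (bb k)) else 0) = 0 := by
    intro j
    have h0 := hcon j
    rw [sum_filter, Fintype.sum_sum_type] at h0
    refine Eq.trans ?_ h0
    congr 1
    · refine sum_congr rfl fun i _ => ?_
      split_ifs with hi
      · rw [show ((∏ k, χ k ^ (cA a bb (Sum.inl i) k) : ℂˣ) : ℂ) = X0 ^ (1 : ℤ) * X1 ^ (0 : ℤ) *
          ndgm y (fun j => (a i j : ℤ)) from hval _ _ _]
        simp [cC]
      · rfl
    · refine sum_congr rfl fun k _ => ?_
      split_ifs with hk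
      · rw [show ((∏ k', χ k' ^ (cA a bb (Sum.inr k) k') : ℂˣ) : ℂ) = X0 ^ (0 : ℤ) * X1 ^ (1 : ℤ) *
          ndgm y (bb k) from hval _ _ _]
        simp [cC]
      · rfl
  set mA : Fin r → ℂ := fun i => if dt h (cA a bb (Sum.inl i)) = 0 then
    ndgm y (fun j => (a i j : ℤ)) else 0 with hmA
  set mB : ϑ → ℂ := fun k => if dt h (cA a bb (Sum.inr k)) = 0 then ndgm y (bb k) else 0 with hmB
  have hE0 : ∑ i, κ i * mA i = 0 := by
    have h1 := hE 0
    have h2 : ∀ i, (if dt h (cA a bb (Sum.inl i)) = 0 then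
        κ i * (cA a bb (Sum.inl i) 0 : ℂ) * (X0 * ndgm y (fun j => (a i j : ℤ))) else 0) =
        X0 * (κ i * mA i) := by
      intro i
      simp only [hmA]
      split_ifs
      · simp [cA, vec]; ring
      · ring
    have h3 : ∀ k, (if dt h (cA a bb (Sum.inr k)) = 0 then
        lam k * (cA a bb (Sum.inr k) 0 : ℂ) * (X1 * ndgm y (bb k)) else 0) = 0 := by
      intro k
      split_ifs
      · simp [cA, vec]
      · rfl
    simp only [h2, h3, sum_const_zero, add_zero] at h1
    rw [← mul_sum] at h1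
    exact (mul_eq_zero.1 h1).resolve_left hX0'
  have hE1 : ∑ k, lam k * mB k = 0 := by
    have h1 := hE (Fin.succ 0)
    have h2 : ∀ i, (if dt h (cA a bb (Sum.inl i)) = 0 then
        κ i * (cA a bb (Sum.inl i) (Fin.succ 0) : ℂ) *
          (X0 * ndgm y (fun j => (a i j : ℤ))) else 0) = 0 := by
      intro i
      split_ifs
      · simp [cA, vec]
      · rfl
    have h3 : ∀ k, (if dt h (cA a bb (Sum.inr k)) = 0 then
        lam k * (cA a bb (Sum.inr k) (Fin.succ 0) : ℂ) * (X1 * ndgm y (bb k)) else 0) =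
        X1 * (lam k * mB k) := by
      intro k
      simp only [hmB]
      split_ifs
      · simp [cA, vec]; ring
      · ring
    simp only [h2, h3, sum_const_zero, zero_add] at h1
    rw [← mul_sum] at h1
    exact (mul_eq_zero.1 h1).resolve_left hX1'
  have hEj : ∀ j : Fin n, X0 * ∑ i, κ i * (a i j : ℂ) * mA i +
      X1 * ∑ k, lam k * (bb k j : ℂ) * mB k = 0 := by
    intro j
    have h1 := hE j.succ.succ
    have h2 : ∀ i, (if dt h (cA a bb (Sum.inl i)) = 0 then
        κ i * (cA a bb (Sum.inl i) j.succ.succ : ℂ) *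
          (X0 * ndgm y (fun j => (a i j : ℤ))) else 0) =
        X0 * (κ i * (a i j : ℂ) * mA i) := by
      intro i
      simp only [hmA]
      split_ifs
      · simp [cA, vec]; ring
      · ring
    have h3 : ∀ k, (if dt h (cA a bb (Sum.inr k)) = 0 then
        lam k * (cA a bb (Sum.inr k) j.succ.succ : ℂ) * (X1 * ndgm y (bb k)) else 0) =
        X1 * (lam k * (bb k j : ℂ) * mB k) := by
      intro k
      simp only [hmB]
      split_ifs
      · simp [cA, vec]; ring
      · ring
    simp only [h2, h3] at h1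
    rw [← mul_sum, ← mul_sum] at h1
    exact h1
  by_cases hB : ∃ k, dt h (cA a bb (Sum.inr k)) = 0
  · obtain ⟨k, hk⟩ := hB
    obtain ⟨D, hD1, hD2, hD3⟩ := der (Set.range κ) lam hlam k
    have hDA : ∀ i, D (κ i * mA i) = ∑ j, (κ i * (a i j : ℂ) * mA i) * (D (y j) / y j) := by
      intro i
      simp only [hmA]
      split_ifs
      · rw [Derivation.leibniz, hD1 (κ i) ⟨i, rfl⟩, ndg_deriv D y hy']
        simp only [smul_eq_mul, mul_zero, add_zero, mul_sum]
        refine sum_congr rfl fun j _ => ?_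
        push_cast
        ring
      · simp
    have hDB : ∀ k', D (lam k' * mB k') = (if k' = k then mB k else 0) +
        ∑ j, (lam k' * (bb k' j : ℂ) * mB k') * (D (y j) / y j) := by
      intro k'
      have h5 : D (mB k') = ∑ j, ((bb k' j : ℂ) * mB k') * (D (y j) / y j) := by
        simp only [hmB]
        split_ifs
        · rw [ndg_deriv D y hy', mul_sum]
          refine sum_congr rfl fun j _ => ?_
          ring
        · simp
      rw [Derivation.leibniz, h5]
      simp only [smul_eq_mul, mul_sum]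
      rw [add_comm]
      congr 1
      · split_ifs with hkk
        · rw [hkk, hD2, mul_one]
        · rw [hD3 k' hkk, mul_zero]
      · refine sum_congr rfl fun j _ => ?_
        ring
    have hA0 : ∑ j, (∑ i, κ i * (a i j : ℂ) * mA i) * (D (y j) / y j) = 0 := by
      have h6 := congrArg D hE0
      rw [map_zero, map_sum] at h6
      simp only [hDA] at h6
      rw [sum_comm] at h6
      rw [← h6]
      exact sum_congr rfl fun j _ => by rw [sum_mul]
    have hB0 : mB k + ∑ j, (∑ k', lam k' * (bb k' j : ℂ) * mB k') * (D (y j) / y j) = 0 := by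
      have h6 := congrArg D hE1
      rw [map_zero, map_sum] at h6
      simp only [hDB] at h6
      rw [sum_add_distrib, sum_ite_eq' univ k, if_pos (mem_univ k), sum_comm] at h6
      rw [← h6]
      congr 1
      exact sum_congr rfl fun j _ => by rw [sum_mul]
    have h7 : X1 * mB k = 0 := by
      have h8 : X1 * mB k = -∑ j, (X1 * ∑ k', lam k' * (bb k' j : ℂ) * mB k') * (D (y j) / y j) := by
        rw [eq_neg_of_add_eq_zero_left hB0, mul_neg, mul_sum]
        congr 1
        exact sum_congr rfl fun j _ => by ring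
      rw [h8]
      have h9 : ∀ j, (X1 * ∑ k', lam k' * (bb k' j : ℂ) * mB k') * (D (y j) / y j) =
          -(X0 * ((∑ i, κ i * (a i j : ℂ) * mA i) * (D (y j) / y j))) := by
        intro j
        rw [eq_neg_of_add_eq_zero_right (hEj j)]
        ring
      simp only [h9, sum_neg_distrib, neg_neg]
      rw [← mul_sum, hA0, mul_zero]
    have h10 : mB k = ndgm y (bb k) := by simp only [hmB]; rw [if_pos hk]
    rw [h10] at h7
    exact (mul_ne_zero hX1' (ndgm_ne y hy' _)) h7
  · push Not at hB
    have hB0 : ∀ k, mB k = 0 := by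
      intro k
      simp only [hmB]
      rw [if_neg (hB k)]
    obtain ⟨i0, hi0⟩ : ∃ i, dt h (cA a bb (Sum.inl i)) = 0 := by
      obtain ⟨i | k, hi⟩ := hex
      · exact ⟨i, hi⟩
      · exact absurd hi (hB k)
    have hEj' : ∀ j : Fin n, ∑ i, κ i * (a i j : ℂ) * mA i = 0 := by
      intro j
      have h1 := hEj j
      simp only [hB0, mul_zero, sum_const_zero, add_zero] at h1
      exact (mul_eq_zero.1 h1).resolve_left hX0'
    -- the weight vector
    set v : Fin n → ℤ := fun j => h j.succ.succ with hv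
    have hdt : ∀ i, dt h (cA a bb (Sum.inl i)) = h 0 + ∑ j, v j * (a i j : ℤ) := by
      intro i
      conv_lhs => rw [vec_surj h]
      change dt _ (vec 1 0 _) = _
      rw [dt_vec]
      simp [hv]
    have hiff : ∀ i, dt h (cA a bb (Sum.inl i)) = 0 ↔
        ∀ i', ∑ j, v j * (a i j : ℤ) ≤ ∑ j, v j * (a i' j : ℤ) := by
      intro i
      constructor
      · intro hi i'
        have h1 := hh (Sum.inl i')
        rw [hdt] at h1 hi
        linarith
      · intro hi
        have h1 := hi i0
        have h2 := hh (Sum.inl i)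
        rw [hdt] at hi0 h2 ⊢
        linarith
    have hmA' : ∀ i, mA i = if ∀ i', ∑ j, v j * (a i j : ℤ) ≤ ∑ j, v j * (a i' j : ℤ) then
        ∏ j, y j ^ (a i j) else 0 := by
      intro i
      simp only [hmA]
      by_cases hi : dt h (cA a bb (Sum.inl i)) = 0
      · rw [if_pos hi, if_pos ((hiff i).1 hi)]
        simp [ndgm]
      · rw [if_neg hi, if_neg (fun h' => hi ((hiff i).2 h'))]
    apply hnd v y hy'
    constructor
    · rw [← hE0, sum_filter]
      refine sum_congr rfl fun i _ => ?_
      rw [hmA' i]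
      split_ifs
      · rfl
      · rw [mul_zero]
    · intro k
      rw [← hEj' k, sum_filter]
      refine sum_congr rfl fun i _ => ?_
      rw [hmA' i]
      split_ifs
      · rfl
      · rw [mul_zero]

end Pool.Agent.H56.SMC

end S_NDG

section S_FNS

/-!
# FNS: the facet of the Cayley cone given by `w`, and full dimensionality

Proof.  (a) The vectors `(1,a_i)` (`i` on the face of `w`), `(0,e_j)` (`w_j = 0`) span a space of dimension `n` of `ℝ^{1+n}`; choose `n` of them that form a basis; lift them to `(1,0;a_i)`, `(0,1;M e_j)` and add `(0,1;0)`: the `n+1`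
vectors are linearly independent (forget the second coordinate: `(0,1;0) ↦ 0`, the others go to independent vectors up to the factor `M`); all are killed by `vec (-wmin a w) 0 w`.
(b) `(0,1;0)`, `(0,1;M e_j)` (`j = 1..n`), `(1,0;a_0)` are `n+2` independent vectors.
-/

set_option autoImplicit false

namespace Pool.Agent.H56.SMC

open Finset AddMonoidAlgebra

/-- Forget the second coordinate. -/
noncomputable def fnsForget {n : ℕ} (u : Lat (n + 2)) : Unit ⊕ Fin n → ℝ :=
  Sum.elim (fun _ => (u 0 : ℝ)) (fun j => (u j.succ.succ : ℝ))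

theorem fns_forget_sum {n N : ℕ} (g : Fin N → ℤ) (v : Fin N → Lat (n + 2)) :
    fnsForget (∑ k, g k • v k) = ∑ k, (g k : ℝ) • fnsForget (v k) := by
  funext x
  rcases x with x | j
  · simp [fnsForget, Finset.sum_apply]
  · simp [fnsForget, Finset.sum_apply]

theorem fns_lift {n r m : ℕ} (a : Fin r → (Fin n →₀ ℕ)) (β : Fin m → Fin n → ℤ) (M : ℤ)
    (hM : 0 < M) (w : Fin n → ℕ) (y : Unit ⊕ Fin n → ℝ)
    (hy : y ∈ ({y | ∃ i, ∑ j, a i j * w j = H22.wmin a w ∧ y = H22.rowR a i} ∪
      {y | ∃ j, w j = 0 ∧ y = Sum.elim (fun _ => 0) (Pi.single j 1)} :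
        Set (Unit ⊕ Fin n → ℝ))) :
    ∃ (e : Fin r ⊕ (Option (Fin n) ⊕ Fin m)) (c : ℝ), c ≠ 0 ∧
      dt (vec (-(H22.wmin a w : ℤ)) 0 (fun j => (w j : ℤ))) (cA a (bbM β M) e) = 0 ∧
      fnsForget (cA a (bbM β M) e) = c • y := by
  rcases hy with ⟨i, hi, rfl⟩ | ⟨j, hj, rfl⟩
  · refine ⟨Sum.inl i, 1, one_ne_zero, ?_, ?_⟩
    · simp only [cA]
      rw [dt_vec, ← hi]
      push_cast
      simp only [mul_one, zero_mul, add_zero, mul_zero]
      rw [neg_add_eq_zero]
      exact Finset.sum_congr rfl fun j _ => mul_comm _ _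
    · funext x
      rcases x with x | j
      · simp [fnsForget, cA, vec, H22.rowR]
      · simp [fnsForget, cA, vec, H22.rowR]
  · refine ⟨Sum.inr (Sum.inl (some j)), (M : ℝ), by exact_mod_cast hM.ne', ?_, ?_⟩
    · simp only [cA, bbM]
      rw [dt_vec]
      simp only [mul_zero, mul_one, zero_add, Pi.smul_apply, smul_eq_mul]
      refine Finset.sum_eq_zero fun k _ => ?_
      by_cases hk : k = j
      · subst hk
        simp [hj]
      · simp [ev, Pi.single_apply, hk]
    · funext x
      rcases x with x | k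
      · simp [fnsForget, cA, vec]
      · by_cases hk : k = j
        · subst hk
          simp [fnsForget, cA, vec, bbM, ev]
        · simp [fnsForget, cA, vec, bbM, ev, Pi.single_apply, hk]

/-- FNS, the facet -/
theorem fns {n r m : ℕ} (a : Fin r → (Fin n →₀ ℕ)) (β : Fin m → Fin n → ℤ) (M : ℤ)
    (hM : 0 < M) (w : Fin n → ℕ) (hw : FacetNormal a w) :
    ∃ e : Fin (n + 1) → Fin r ⊕ (Option (Fin n) ⊕ Fin m),
      (∀ k, dt (vec (-(H22.wmin a w : ℤ)) 0 (fun j => (w j : ℤ))) (cA a (bbM β M) (e k)) = 0) ∧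
      LinearIndependent ℤ (fun k => cA a (bbM β M) (e k)) := by
  obtain ⟨-, hfr⟩ := hw
  have key : ∀ (S : Set (Unit ⊕ Fin n → ℝ)) (N : ℕ),
      Module.finrank ℝ (Submodule.span ℝ S) = N →
      ∃ f : Fin N → (Unit ⊕ Fin n → ℝ), (∀ i, f i ∈ S) ∧ LinearIndependent ℝ f := by
    intro S N hN
    subst hN
    obtain ⟨f, hf, -, hl⟩ := Submodule.exists_fun_fin_finrank_span_eq ℝ S
    exact ⟨f, hf, hl⟩
  obtain ⟨f, hfS, hfl⟩ := key _ _ hfr
  choose e' c hc h0 hfe using fun k => fns_lift a β M hM w (f k) (hfS k)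
  refine ⟨Fin.cons (Sum.inr (Sum.inl none)) e', ?_, ?_⟩
  · intro k
    refine Fin.cases ?_ (fun k => ?_) k
    · simp only [Fin.cons_zero, cA, bbM]
      rw [dt_vec]
      simp
    · simpa using h0 k
  · rw [Fintype.linearIndependent_iff]
    intro g hg
    have h1 := congrArg fnsForget hg
    rw [fns_forget_sum, Fin.sum_univ_succ] at h1
    have hz : fnsForget (cA a (bbM β M) (Sum.inr (Sum.inl none))) = 0 := by
      funext x
      rcases x with x | j
      · simp [fnsForget, cA, vec]
      · simp [fnsForget, cA, vec, bbM]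
    have hz0 : fnsForget (0 : Lat (n + 2)) = 0 := by
      funext x
      rcases x with x | j
      · simp [fnsForget]
      · simp [fnsForget]
    simp only [Fin.cons_zero, Fin.cons_succ, hz, smul_zero, zero_add, hz0, hfe, smul_smul] at h1
    have h2 := Fintype.linearIndependent_iff.1 hfl (fun k => (g k.succ : ℝ) * c k) h1
    have h3 : ∀ k : Fin n, g k.succ = 0 := by
      intro k
      have h4 : (g k.succ : ℝ) * c k = 0 := h2 k
      rcases mul_eq_zero.1 h4 with h | h
      · exact_mod_cast h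
      · exact absurd h (hc k)
    intro k
    refine Fin.cases ?_ h3 k
    rw [Fin.sum_univ_succ] at hg
    simp only [h3, zero_smul, Finset.sum_const_zero, add_zero, Fin.cons_zero] at hg
    have h5 := congrFun hg (Fin.succ 0)
    simpa [cA, vec] using h5

/-- FNS, the whole configuration -/
theorem fspan {n r m : ℕ} (hr : 0 < r) (a : Fin r → (Fin n →₀ ℕ)) (β : Fin m → Fin n → ℤ) (M : ℤ)
    (hM : 0 < M) :
    ∃ e : Fin (n + 2) → Fin r ⊕ (Option (Fin n) ⊕ Fin m),
      LinearIndependent ℤ (fun k => cA a (bbM β M) (e k)) := by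
  refine ⟨Fin.cons (Sum.inl ⟨0, hr⟩) (Fin.cons (Sum.inr (Sum.inl none))
    (fun j => Sum.inr (Sum.inl (some j)))), ?_⟩
  rw [Fintype.linearIndependent_iff]
  intro g hg
  rw [Fin.sum_univ_succ, Fin.sum_univ_succ] at hg
  simp only [Fin.cons_zero, Fin.cons_succ] at hg
  have h0 : g 0 = 0 := by
    have h := congrFun hg 0
    simpa [cA, vec, Finset.sum_apply] using h
  rw [h0, zero_smul, zero_add] at hg
  have h2 : ∀ j : Fin n, g j.succ.succ = 0 := by
    intro j
    have h := congrFun hg j.succ.succ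
    simp only [Pi.add_apply, Finset.sum_apply, Pi.smul_apply, smul_eq_mul, cA, vec, Fin.cons_succ,
      bbM, Pi.zero_apply, mul_zero, zero_add] at h
    rw [Finset.sum_eq_single j] at h
    · simp only [ev, Pi.single_eq_same, mul_one] at h
      rcases mul_eq_zero.1 h with h | h
      · exact h
      · exact absurd h hM.ne'
    · intro k _ hk
      simp [ev, Pi.single_apply, hk.symm]
    · intro h
      exact absurd (Finset.mem_univ j) h
  simp only [h2, zero_smul, Finset.sum_const_zero, add_zero] at hg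
  have h1 : g (Fin.succ 0) = 0 := by
    have h := congrFun hg (Fin.succ 0)
    simpa [cA, vec] using h
  intro k
  refine Fin.cases h0 (fun k => ?_) k
  refine Fin.cases h1 (fun k => ?_) k
  exact h2 k

end Pool.Agent.H56.SMC

end S_FNS

section S_APPN

/-!
# APPN: the eigenvalues

`s = C s0 + X`, `s0 = -|w|/N(w)` real, `t = C I` (`Complex.I`).
Proof.  `pv_pp`: for `h = vec l l2 v`: `pv (pp s t) h + m = -l s - l2 t + ∑ v_j + m`.  Its constant coefficient is `-l s0 - l2 I + ∑ v_j + m`, with imaginary part `-l2` (`s0` is real), its `X`-coefficient is `-l`.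
A power series is a unit iff its constant coefficient is nonzero.  If `l2 ≠ 0` the imaginary part is nonzero: unit.  `h = vec 1 0 0`: `X`-coefficient `-1 ≠ 0`.  `h = vec (-wmin a v) 0 v`: if `wmin a v ≠ 0` the `X`-coefficient is nonzero; if `wmin a v = 0` it is
the constant `|v| + m`, and `m < L ≤ -|v|`.  Unit in the last case: the constant coefficient `|v| + N(v) s0 + m` is zero iff `|v| N(w) - N(v) |w| = -m N(w)`, i.e. (`l := -m`) `wsum v * N(w) = l N(w) + N(v) |w|`; `m < L ≤ 0` gives `l > 0` and `hL` gives `L ≤ -l = m`, a contradiction.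
-/

set_option autoImplicit false

namespace Pool.Agent.H56.SMC

open Finset AddMonoidAlgebra

/-- The constant coefficient. -/
theorem appn_c0 {n : ℕ} (s0 : ℂ) (h : Lat (n + 2)) (mm : ℤ) :
    PowerSeries.constantCoeff (pv (pp (PowerSeries.C s0 + PowerSeries.X)
      (PowerSeries.C Complex.I)) h + (mm : PA)) =
      -((h 0 : ℂ) * s0) - (h (Fin.succ 0) : ℂ) * Complex.I +
        ((∑ j : Fin n, h j.succ.succ : ℤ) : ℂ) + (mm : ℂ) := by
  conv_lhs => rw [vec_surj h, pv_pp]
  simp [map_add, map_sub, map_neg, map_mul]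

/-- The coefficient of `X`. -/
theorem appn_c1 {n : ℕ} (s0 : ℂ) (h : Lat (n + 2)) (mm : ℤ) :
    PowerSeries.coeff 1 (pv (pp (PowerSeries.C s0 + PowerSeries.X)
      (PowerSeries.C Complex.I)) h + (mm : PA)) = -(h 0 : ℂ) := by
  have hint : ∀ z : ℤ, (z : PA) = PowerSeries.C (z : ℂ) := fun z => (map_intCast _ z).symm
  have hz : ∀ z : ℤ, PowerSeries.coeff 1 (z : PA) = 0 := by
    intro z
    rw [hint, PowerSeries.coeff_C, if_neg one_ne_zero]
  conv_lhs => rw [vec_surj h, pv_pp]
  rw [hint, hint, hint, hint, mul_add, ← map_mul, ← map_mul]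
  simp only [map_add, map_sub, map_neg]
  rw [PowerSeries.coeff_C_mul, PowerSeries.coeff_one_X]
  simp [hz]

/-- APPN, nonresonance over `KA` -/
theorem appn {n r : ℕ} (a : Fin r → (Fin n →₀ ℕ)) (w : Fin n → ℕ) (hN : 0 < H22.wmin a w)
    (h : Lat (n + 2)) (L : ℤ)
    (hcase : h (Fin.succ 0) ≠ 0 ∨ h = vec 1 0 0 ∨ ∃ v : Fin n → ℕ,
      h = vec (-(H22.wmin a v : ℤ)) 0 (fun j => (v j : ℤ)) ∧
        (H22.wmin a v = 0 → L ≤ -(H22.wsum v : ℤ)))
    (mm : ℤ) (hmm : mm < L) :
    pv (pp (PowerSeries.C (-(H22.wsum w : ℂ) / (H22.wmin a w : ℂ)) + PowerSeries.X)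
      (PowerSeries.C Complex.I)) h + (mm : PA) ≠ 0 := by
  set s0 : ℂ := -(H22.wsum w : ℂ) / (H22.wmin a w : ℂ) with hs0
  have hs0im : s0.im = 0 := by
    have : s0 = ((-(H22.wsum w : ℝ) / (H22.wmin a w : ℝ) : ℝ) : ℂ) := by
      rw [hs0]; push_cast; rfl
    rw [this, Complex.ofReal_im]
  intro h0
  have e0 := appn_c0 s0 h mm
  have e1 := appn_c1 s0 h mm
  rw [h0, map_zero] at e0 e1
  rcases hcase with hc | hc | ⟨v, hv, hvL⟩
  · have e2 := congrArg Complex.im e0
    simp [hs0im] at e2
    exact hc e2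
  · rw [hc] at e1
    simp [vec] at e1
  · rw [hv] at e0 e1
    by_cases hw : H22.wmin a v = 0
    · have h1 := hvL hw
      simp only [vec, Fin.cons_zero, Fin.cons_succ, hw] at e0
      have e3 : ((∑ j, (v j : ℤ) + mm : ℤ) : ℂ) = 0 := by
        push_cast
        push_cast at e0
        rw [e0]
        ring
      have e4 : (∑ j, (v j : ℤ)) + mm = 0 := by exact_mod_cast e3
      have e5 : (H22.wsum v : ℤ) = ∑ j, (v j : ℤ) := by
        rw [H22.wsum]; push_cast; rfl
      omega
    · simp only [vec, Fin.cons_zero] at e1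
      apply hw
      have e3 : ((H22.wmin a v : ℤ) : ℂ) = 0 := by
        rw [e1]; push_cast; ring
      exact_mod_cast e3

/-- APPN, units -/
theorem appu {n r : ℕ} (a : Fin r → (Fin n →₀ ℕ)) (w : Fin n → ℕ) (hN : 0 < H22.wmin a w)
    (h : Lat (n + 2)) (L : ℤ) (hL0 : L ≤ 0)
    (hcase : h (Fin.succ 0) ≠ 0 ∨ ∃ v : Fin n → ℕ,
      h = vec (-(H22.wmin a v : ℤ)) 0 (fun j => (v j : ℤ)) ∧
        ∀ l : ℕ, 0 < l →
          H22.wsum v * H22.wmin a w = l * H22.wmin a w + H22.wmin a v * H22.wsum w →
          L ≤ -(l : ℤ))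
    (mm : ℤ) (hmm : mm < L) :
    IsUnit (pv (pp (PowerSeries.C (-(H22.wsum w : ℂ) / (H22.wmin a w : ℂ)) + PowerSeries.X)
      (PowerSeries.C Complex.I)) h + (mm : PA)) := by
  set s0 : ℂ := -(H22.wsum w : ℂ) / (H22.wmin a w : ℂ) with hs0
  have hs0im : s0.im = 0 := by
    have : s0 = ((-(H22.wsum w : ℝ) / (H22.wmin a w : ℝ) : ℝ) : ℂ) := by
      rw [hs0]; push_cast; rfl
    rw [this, Complex.ofReal_im]
  rw [PowerSeries.isUnit_iff_constantCoeff, isUnit_iff_ne_zero, appn_c0]
  intro e0
  rcases hcase with hc | ⟨v, hv, hvL⟩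
  · have e2 := congrArg Complex.im e0
    simp [hs0im] at e2
    exact hc e2
  · rw [hv] at e0
    simp only [vec, Fin.cons_zero, Fin.cons_succ] at e0
    have hN' : (H22.wmin a w : ℂ) ≠ 0 := by
      have : H22.wmin a w ≠ 0 := hN.ne'
      exact_mod_cast this
    have e5 : ((∑ j, (v j : ℤ) : ℤ) : ℂ) = (H22.wsum v : ℂ) := by
      rw [H22.wsum]; push_cast; rfl
    rw [e5, hs0] at e0
    have e6 : (H22.wsum v : ℂ) * (H22.wmin a w : ℂ) =
        (-mm : ℂ) * (H22.wmin a w : ℂ) + (H22.wmin a v : ℂ) * (H22.wsum w : ℂ) := by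
      push_cast at e0
      field_simp at e0
      linear_combination e0
    have e7 : (H22.wsum v : ℤ) * (H22.wmin a w : ℤ) =
        (-mm) * (H22.wmin a w : ℤ) + (H22.wmin a v : ℤ) * (H22.wsum w : ℤ) := by
      have e8 : (((H22.wsum v : ℤ) * (H22.wmin a w : ℤ) : ℤ) : ℂ) =
        (((-mm) * (H22.wmin a w : ℤ) + (H22.wmin a v : ℤ) * (H22.wsum w : ℤ) : ℤ) : ℂ) := by
        push_cast
        exact e6
      exact_mod_cast e8
    have hm : 0 < -mm := by omega
    obtain ⟨l, hl⟩ := Int.eq_ofNat_of_zero_le hm.le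
    have hl0 : 0 < l := by omega
    rw [hl] at e7
    have := hvL l hl0 (by exact_mod_cast e7)
    omega

end Pool.Agent.H56.SMC

end S_APPN
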