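import Mathlib
import Pool.Agent.H56.SMC.CfgDefs
import Pool.Agent.H22.Weyl

/-! Strong monodromy for nondegenerate polynomials, part A6: this file joins the modules BFA, BFB, JF, MREL, BM1. -/

set_option autoImplicit false

section S_BFA

/-!
# BFA: the functional equation as an identity in the Laurent polynomial ring

Proof.  Let `F = toL f`.  Claim 1: for `k : ℕ`, `k + 1 ≥ |L|`, over `ℂ`: `∂_L F^{k+1} = F^{k+1-|L|} * GG F k L`, where `∂_L` is the composition of the `dL j`, `j ∈ L` (head of the list applied last): induction on `L`, Leibniz rule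
(`dL j` is a derivation).  `toL` intertwines `pderiv j` and `dL j`, so `toL (diffPow β g) = ∂_{lst β} (toL g)`.
Claim 2 (over `A = ℂ[S]`, `s = S`): both sides have coefficients in `ℂ[S]`; evaluate at `S = k` for all `k ≥ R` (`GG` is compatible with ring homomorphisms of the coefficients): multiply by `F^{k+1-R}`:
`∑_β p_β(k) GG F k (lst β) F^{k+1-|β|} = ∑_β p_β(k) ∂^β F^{k+1} = b(k) F^k` by `hfe`; cancel `F^{k+1-R}` (if `F = 0` both sides are `0` for `R ≥ 2`: `GG 0 s L = 0` for `L` not empty).  A polynomial in `S` with infinitely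
many zeros vanishes.  Claim 3: general `A`, `s`: apply the homomorphism `ℂ[S] → A`, `S ↦ s`, to the coefficients.
-/

set_option autoImplicit false

namespace Pool.Agent.H56.SMC

open Finset AddMonoidAlgebra

section

variable {R R' : Type} [CommRing R] [CommRing R'] {n : ℕ}

theorem bfa_lmap_zero (φ : R →+* R') : lmap φ (0 : LP R n) = 0 := by
  apply lp_ext; intro u; rw [lmap_coeff, coeff_zero', map_zero, coeff_zero']

theorem bfa_lmap_single (φ : R →+* R') (v : Lat n) (r : R) :
    lmap φ (single v r : LP R n) = single v (φ r) := by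
  apply lp_ext; intro u
  rw [lmap_coeff, coeff_single', coeff_single']
  split_ifs
  · rfl
  · exact map_zero φ

theorem bfa_lmap_mul (φ : R →+* R') (x y : LP R n) :
    lmap φ (x * y) = lmap φ x * lmap φ y := by
  induction x using AddMonoidAlgebra.induction_linear with
  | zero => rw [zero_mul, bfa_lmap_zero, zero_mul]
  | add x x' hx hx' => rw [add_mul, lmap_add, hx, hx', lmap_add, add_mul]
  | single v r =>
    apply lp_ext; intro u
    rw [bfa_lmap_single, lmap_coeff, single_mul_coeff, single_mul_coeff, map_mul, lmap_coeff]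

theorem bfa_lmap_one (φ : R →+* R') : lmap φ (1 : LP R n) = 1 := by
  rw [AddMonoidAlgebra.one_def, bfa_lmap_single, map_one, AddMonoidAlgebra.one_def]

/-- `lmap` as a ring homomorphism. -/
noncomputable def bfaMap (φ : R →+* R') : LP R n →+* LP R' n where
  toFun := lmap φ
  map_one' := bfa_lmap_one φ
  map_mul' := bfa_lmap_mul φ
  map_zero' := bfa_lmap_zero φ
  map_add' := lmap_add φ

theorem bfaMap_apply (φ : R →+* R') (x : LP R n) : bfaMap φ x = lmap φ x := rfl

theorem bfa_lmap_pow (φ : R →+* R') (x : LP R n) (k : ℕ) :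
    lmap φ (x ^ k) = lmap φ x ^ k := map_pow (bfaMap φ) x k

theorem bfa_dg_add (φ : Lat n → R) (x y : LP R n) : dg φ (x + y) = dg φ x + dg φ y := by
  apply lp_ext; intro u; simp only [dg_coeff, coeff_add', mul_add]

theorem bfa_dg_mul (j : Fin n) (x y : LP R n) :
    dg (fun u => (u j : R)) (x * y) =
      dg (fun u => (u j : R)) x * y + x * dg (fun u => (u j : R)) y := by
  induction x using AddMonoidAlgebra.induction_linear with
  | zero =>
    have : dg (fun u : Lat n => (u j : R)) 0 = 0 := by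
      apply lp_ext; intro u; simp only [dg_coeff, coeff_zero', mul_zero]
    rw [zero_mul, this, zero_mul, zero_mul, add_zero]
  | add x x' hx hx' => rw [add_mul, bfa_dg_add, hx, hx', bfa_dg_add]; ring
  | single v r =>
    have h1 : dg (fun u : Lat n => (u j : R)) (single v r) = single v ((v j : R) * r) := by
      apply lp_ext; intro u
      rw [dg_coeff, coeff_single', coeff_single']
      split_ifs with h
      · rw [h]
      · rw [mul_zero]
    rw [h1]
    apply lp_ext; intro u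
    rw [dg_coeff, single_mul_coeff, coeff_add', single_mul_coeff, single_mul_coeff, dg_coeff]
    simp only [Pi.sub_apply, Int.cast_sub]
    ring

theorem bfa_dL_mul (j : Fin n) (x y : LP R n) : dL j (x * y) = dL j x * y + x * dL j y := by
  unfold dL
  rw [bfa_dg_mul]
  ring

theorem bfa_dL_add (j : Fin n) (x y : LP R n) : dL j (x + y) = dL j x + dL j y := by
  unfold dL
  rw [bfa_dg_add, mul_add]

theorem bfa_dL_single (j : Fin n) (v : Lat n) (r : R) :
    dL j (single v r : LP R n) = single (v - ev j) ((v j : R) * r) := by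
  unfold dL
  apply lp_ext; intro u
  rw [single_mul_coeff, dg_coeff, coeff_single', coeff_single', one_mul, sub_neg_eq_add]
  by_cases h : u + ev j = v
  · rw [if_pos h, if_pos (eq_sub_of_add_eq h), h]
  · rw [if_neg h, if_neg (fun h' => h (by rw [h', sub_add_cancel])), mul_zero]

theorem bfa_dL_one (j : Fin n) : dL j (1 : LP R n) = 0 := by
  rw [AddMonoidAlgebra.one_def, bfa_dL_single]
  simp

theorem bfa_natCast_smul (m : ℕ) (x : LP R n) : (m : R) • x = (m : LP R n) * x := by
  rw [Nat.cast_smul_eq_nsmul, nsmul_eq_mul]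

theorem bfa_dL_pow (j : Fin n) (x : LP R n) (k : ℕ) :
    dL j (x ^ (k + 1)) = ((k + 1 : ℕ) : LP R n) * (x ^ k * dL j x) := by
  induction k with
  | zero => simp
  | succ k ih =>
    rw [pow_succ x (k + 1), bfa_dL_mul, ih]
    push_cast
    ring

theorem bfa_dL_lmap (φ : R →+* R') (j : Fin n) (x : LP R n) :
    lmap φ (dL j x) = dL j (lmap φ x) := by
  apply lp_ext; intro u
  unfold dL
  rw [lmap_coeff, single_mul_coeff, single_mul_coeff, dg_coeff, dg_coeff, lmap_coeff]
  simp only [map_mul, map_one, map_intCast]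

theorem bfa_GG_lmap (φ : R →+* R') (F : LP R n) (s : R) (L : List (Fin n)) :
    lmap φ (GG F s L) = GG (lmap φ F) (φ s) L := by
  induction L with
  | nil => exact bfa_lmap_one φ
  | cons j L ih =>
    simp only [GG]
    rw [lmap_add, bfa_lmap_mul, lmap_smul, bfa_lmap_mul, bfa_dL_lmap, bfa_dL_lmap, ih]
    simp only [map_sub, map_add, map_one, map_natCast]

/-- Claim 1 -/
theorem bfa_claim1 (F : LP R n) (k : ℕ) (L : List (Fin n)) (hL : L.length ≤ k + 1) :
    L.foldr dL (F ^ (k + 1)) = F ^ (k + 1 - L.length) * GG F (k : R) L := by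
  induction L with
  | nil => simp [GG]
  | cons j L ih =>
    rw [List.length_cons] at hL
    obtain ⟨m, hm⟩ : ∃ m, k = L.length + m := ⟨k - L.length, by omega⟩
    rw [List.foldr_cons, ih (by omega), List.length_cons]
    rw [show k + 1 - L.length = m + 1 by omega, show k + 1 - (L.length + 1) = m by omega,
      bfa_dL_mul, bfa_dL_pow]
    simp only [GG]
    have h1 : ((k : R) + 1 - (L.length : R)) = ((m + 1 : ℕ) : R) := by
      rw [hm]; push_cast; ring
    rw [h1, bfa_natCast_smul]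
    ring

theorem bfa_toL_C (c : R) : toL (n := n) R (MvPolynomial.C c) = single 0 c := by
  unfold toL
  rw [AlgHom.toRingHom_eq_coe, RingHom.coe_coe, MvPolynomial.aeval_C]
  rfl

theorem bfa_toL_X (j : Fin n) : toL R (MvPolynomial.X j) = (single (ev j) 1 : LP R n) := by
  unfold toL
  rw [AlgHom.toRingHom_eq_coe, RingHom.coe_coe, MvPolynomial.aeval_X]

theorem bfa_toL_pderiv (j : Fin n) (p : MvPolynomial (Fin n) R) :
    toL R (MvPolynomial.pderiv j p) = dL j (toL R p) := by
  induction p using MvPolynomial.induction_on with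
  | C a =>
    rw [MvPolynomial.pderiv_C, map_zero, bfa_toL_C, bfa_dL_single]
    simp
  | add p q hp hq => rw [map_add, map_add, hp, hq, map_add, bfa_dL_add]
  | mul_X p i hp =>
    rw [Derivation.leibniz, map_add, smul_eq_mul, smul_eq_mul, map_mul, map_mul, map_mul,
      bfa_dL_mul, hp]
    have h : toL R (MvPolynomial.pderiv j (MvPolynomial.X i)) =
        dL j (toL R (MvPolynomial.X i) : LP R n) := by
      rw [bfa_toL_X, bfa_dL_single, MvPolynomial.pderiv_X]
      by_cases hij : i = j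
      · subst hij
        rw [Pi.single_eq_same, map_one, sub_self, ev, Pi.single_eq_same, Int.cast_one, mul_one]
        rfl
      · rw [Pi.single_eq_of_ne hij, map_zero, ev, Pi.single_eq_of_ne (Ne.symm hij), Int.cast_zero,
          zero_mul, AddMonoidAlgebra.single_zero]
    rw [h]
    ring

theorem bfa_toL_map (φ : R →+* R') (p : MvPolynomial (Fin n) R) :
    lmap φ (toL R p) = toL R' (MvPolynomial.map φ p) := by
  induction p using MvPolynomial.induction_on with
  | C a => rw [bfa_toL_C, bfa_lmap_single, MvPolynomial.map_C, bfa_toL_C]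
  | add p q hp hq => rw [map_add, lmap_add, hp, hq, map_add, map_add]
  | mul_X p i hp =>
    rw [map_mul, bfa_lmap_mul, hp, map_mul, map_mul, MvPolynomial.map_X, bfa_toL_X, bfa_toL_X,
      bfa_lmap_single, map_one]

end

theorem bfa_toL_diffPow {n : ℕ} (β : Fin n →₀ ℕ) (g : MvPolynomial (Fin n) ℂ) :
    toL ℂ (H22.diffPow β g) = (lst β).foldr dL (toL ℂ g) := by
  have key : ∀ l : List (Fin n), toL ℂ ((l.map fun j =>
      ((MvPolynomial.pderiv j : Derivation ℂ (MvPolynomial (Fin n) ℂ)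
        (MvPolynomial (Fin n) ℂ)).toLinearMap) ^ (β j)).prod g) =
      (l.flatMap (fun j => List.replicate (β j) j)).foldr dL (toL ℂ g) := by
    intro l
    induction l with
    | nil => rfl
    | cons j l ih =>
      rw [List.map_cons, List.prod_cons, Module.End.mul_apply, List.flatMap_cons,
        List.foldr_append, ← ih]
      generalize ((l.map fun j => ((MvPolynomial.pderiv j : Derivation ℂ (MvPolynomial (Fin n) ℂ)
        (MvPolynomial (Fin n) ℂ)).toLinearMap) ^ (β j)).prod g) = h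
      generalize β j = m
      induction m with
      | zero => rfl
      | succ m ih2 =>
        rw [pow_succ', Module.End.mul_apply, List.replicate_succ, List.foldr_cons, ← ih2]
        exact bfa_toL_pderiv j _
  exact key _

/-- BFA -/
theorem bfa {n : ℕ} (f : MvPolynomial (Fin n) ℂ) (b : Polynomial ℂ) (P : H22.WeylS n)
    (hfe : H22.FunctionalEquation f b P) :
    ∃ R : ℕ, 0 < R ∧ (∀ β ∈ P.support, (lst β).length ≤ R) ∧
      ∀ (A : Type) [CommRing A] [Algebra ℂ A] (s : A),
        ∑ β ∈ P.support, toL A (MvPolynomial.map (Polynomial.aeval s : Polynomial ℂ →ₐ[ℂ] A).toRingHom (P β)) *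
          GG (lmap (algebraMap ℂ A) (toL ℂ f)) s (lst β) *
            (lmap (algebraMap ℂ A) (toL ℂ f)) ^ (R - (lst β).length) =
        (Polynomial.aeval s b : A) • (lmap (algebraMap ℂ A) (toL ℂ f)) ^ (R - 1) := by
  classical
  set F : LP ℂ n := toL ℂ f with hF
  set R : ℕ := (P.support.sup (fun β => (lst β).length)) + 2 with hR
  have hle : ∀ β ∈ P.support, (lst β).length + 2 ≤ R := by
    intro β hβ
    have := Finset.le_sup (f := fun β => (lst β).length) hβ
    omega
  refine ⟨R, by omega, fun β hβ => by have := hle β hβ; omega, ?_⟩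
  -- the difference over `ℂ[S]`
  set F1 : LP (Polynomial ℂ) n := lmap Polynomial.C F with hF1
  set Φ : LP (Polynomial ℂ) n := ∑ β ∈ P.support, toL (Polynomial ℂ) (P β) *
      GG F1 Polynomial.X (lst β) * F1 ^ (R - (lst β).length) - b • F1 ^ (R - 1) with hΦ
  have hmap : ∀ (A : Type) [CommRing A] (φ : Polynomial ℂ →+* A),
      lmap φ Φ = ∑ β ∈ P.support, toL A (MvPolynomial.map φ (P β)) *
        GG (lmap (φ.comp Polynomial.C) F) (φ Polynomial.X) (lst β) *
          (lmap (φ.comp Polynomial.C) F) ^ (R - (lst β).length) -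
        φ b • (lmap (φ.comp Polynomial.C) F) ^ (R - 1) := by
    intro A _ φ
    have h1 : lmap φ F1 = lmap (φ.comp Polynomial.C) F := by
      apply lp_ext; intro u
      rw [hF1, lmap_coeff, lmap_coeff, lmap_coeff]
      rfl
    rw [hΦ, lmap_sub, lmap_sum, lmap_smul, bfa_lmap_pow, h1]
    congr 1
    refine sum_congr rfl fun β _ => ?_
    rw [bfa_lmap_mul, bfa_lmap_mul, bfa_lmap_pow, bfa_GG_lmap, bfa_toL_map, h1]
  have hzero : ∀ k : ℕ, R ≤ k → lmap (Polynomial.evalRingHom (k : ℂ)) Φ = 0 := by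
    intro k hk
    have e1 : (Polynomial.evalRingHom (k : ℂ)).comp Polynomial.C = RingHom.id ℂ := by
      ext x <;> simp
    have e2 : lmap (RingHom.id ℂ) F = F := by
      apply lp_ext; intro u; rfl
    rw [hmap, e1, e2]
    have e3 : Polynomial.evalRingHom (k : ℂ) Polynomial.X = (k : ℂ) := by simp
    have e4 : Polynomial.evalRingHom (k : ℂ) b = b.eval (k : ℂ) := rfl
    rw [e3, e4]
    by_cases hF0 : F = 0
    · rw [hF0, zero_pow (by omega), smul_zero, sub_zero]
      refine sum_eq_zero fun β hβ => ?_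
      have := hle β hβ
      rw [zero_pow (by omega), mul_zero]
    · have hne : F ^ (k + 1 - R) ≠ 0 := pow_ne_zero _ hF0
      apply (mul_eq_zero.1 (?_ : F ^ (k + 1 - R) * _ = 0)).resolve_left hne
      rw [mul_sub, sub_eq_zero, mul_sum]
      have h2 := congrArg (toL ℂ) (hfe k)
      unfold H22.WeylS.act at h2
      rw [Finsupp.sum, map_sum] at h2
      have h3 : toL ℂ (MvPolynomial.C (b.eval (k : ℂ)) * f ^ k) =
          F ^ (k + 1 - R) * (b.eval (k : ℂ) • F ^ (R - 1)) := by
        rw [map_mul, map_pow, bfa_toL_C, ← hF, mul_smul_comm, ← pow_add,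
          show k + 1 - R + (R - 1) = k by omega]
        apply lp_ext; intro u
        rw [single_mul_coeff, coeff_smul', sub_zero]
      rw [← h3, ← h2]
      refine sum_congr rfl fun β hβ => ?_
      have hb := hle β hβ
      rw [map_mul, bfa_toL_diffPow, map_pow, ← hF, bfa_claim1 F k (lst β) (by omega)]
      have h5 : F ^ (k + 1 - (lst β).length) =
          F ^ (k + 1 - R) * F ^ (R - (lst β).length) := by
        rw [← pow_add]; congr 1; omega
      rw [h5]
      ring
  have hΦ0 : Φ = 0 := by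
    apply lp_ext; intro u
    rw [coeff_zero']
    apply Polynomial.eq_zero_of_infinite_isRoot
    have hinj : Function.Injective (fun k : ℕ => ((R + k : ℕ) : ℂ)) := by
      intro x y hxy
      have : (R + x : ℕ) = R + y := Nat.cast_injective (R := ℂ) hxy
      omega
    refine Set.infinite_of_injective_forall_mem hinj fun k => ?_
    have h6 := congrArg (fun z : LP ℂ n => z.coeff u) (hzero (R + k) (by omega))
    simp only [lmap_coeff, coeff_zero'] at h6
    exact h6
  intro A _ _ s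
  have h7 := hmap A (Polynomial.aeval s : Polynomial ℂ →ₐ[ℂ] A).toRingHom
  rw [hΦ0, bfa_lmap_zero] at h7
  have e5 : ((Polynomial.aeval s : Polynomial ℂ →ₐ[ℂ] A).toRingHom).comp Polynomial.C =
      algebraMap ℂ A := by
    ext x
    simp
  have e6 : (Polynomial.aeval s : Polynomial ℂ →ₐ[ℂ] A).toRingHom Polynomial.X = s := by simp
  rw [e5, e6] at h7
  exact sub_eq_zero.1 h7.symm

end Pool.Agent.H56.SMC

end S_BFA

section S_BFB

/-!
# BFB: integration by parts

`I i m g` is a formal version of `∫ F^{s+i} H^{t+m} g`.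
Proof.  `q' = Q L`, where `Q [] = q`, and for `j :: L`: by `h1`, `h3`
`I(1-|L|-1) m (q GG(j::L)) = I(-|L|) m (q F ∂_j GG_L) + (s+1-|L|) I(-|L|) m (q GG_L ∂_j F) = I(1-|L|) m (q ∂_j GG_L) + (s+1-|L|) I(-|L|) m (∂_j F q GG_L)`, and `h3` for `g = q GG_L`, `i = 1-|L|` gives
`= I(1-|L|) m (q ∂_j GG_L) - I(1-|L|) m (∂_j (q GG_L)) - (t+m) I(1-|L|) (m-1) (∂_j H q GG_L) = I(1-|L|) (m-1) ((-H ∂_j q - (t+m) ∂_j H q) GG_L)`
(Leibniz for `dL`, `h2`).  So by induction on `L`, for all `m` and `q`: `I(1-|L|) m (q GG_L) = I 1 (m-|L|) q'`.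
Exponents: fix `v ≥ 0`, `M`, `N` with `N v_j ≤ M`, `|L| ≤ N`.  Invariant for `q` after `t ≤ N` steps: every exponent `ρ` satisfies `(∀ j, 0 ≤ ρ_j) ∨ M - t max_j v_j ≤ dt v ρ` (if `n = 0` there is nothing to prove).  `∂_j` subtracts `e_j` only if
`ρ_j ≠ 0`; exponents of `H`: `≥ 0` or level `≥ M`; exponents of `∂_j H`: `b - e_j`, `b_j ≠ 0`.  At the end `dt v ρ ≥ 0`.  To have `max_j v_j` formally: use a bound `V` with `v_j ≤ V`, `N V ≤ M` (`V` = the maximum), or do the induction with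
the statement: for every `t`, `t + |L| ≤ N`, if every exponent of `q` satisfies the invariant with `t`, then every exponent of `q'` satisfies it with `t + |L|`.
-/

set_option autoImplicit false

namespace Pool.Agent.H56.SMC

open Finset AddMonoidAlgebra

theorem bfb_mul_coeff {A : Type} [CommRing A] {n : ℕ} (x y : LP A n) (u : Lat n)
    (h : (x * y).coeff u ≠ 0) : ∃ a b, x.coeff a ≠ 0 ∧ y.coeff b ≠ 0 ∧ u = a + b := by
  classical
  have h1 : u ∈ (x * y).coeff.support := Finsupp.mem_support_iff.2 h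
  have h2 := AddMonoidAlgebra.support_coeff_mul_subset x y h1
  obtain ⟨a, ha, b, hb, rfl⟩ := Finset.mem_add.1 h2
  exact ⟨a, b, Finsupp.mem_support_iff.1 ha, Finsupp.mem_support_iff.1 hb, rfl⟩

theorem bfb_dL_coeff {A : Type} [CommRing A] {n : ℕ} (j : Fin n) (g : LP A n) (u : Lat n) :
    (dL j g).coeff u = ((u j : A) + 1) * g.coeff (u + ev j) := by
  unfold dL
  rw [single_mul_coeff, dg_coeff, one_mul, sub_neg_eq_add]
  congr 1
  simp [ev]

theorem bfb_dL_ne {A : Type} [CommRing A] {n : ℕ} (j : Fin n) (g : LP A n) (u : Lat n)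
    (h : (dL j g).coeff u ≠ 0) : g.coeff (u + ev j) ≠ 0 ∧ (u + ev j) j ≠ 0 := by
  rw [bfb_dL_coeff] at h
  refine ⟨right_ne_zero_of_mul h, fun h0 => left_ne_zero_of_mul h ?_⟩
  have h1 : u j + 1 = 0 := by simpa [ev] using h0
  have h2 : ((u j + 1 : ℤ) : A) = 0 := by rw [h1, Int.cast_zero]
  push_cast at h2
  exact h2

theorem bfb_leibniz {A : Type} [CommRing A] {n : ℕ} (j : Fin n) (x y : LP A n) :
    dL j (x * y) = dL j x * y + x * dL j y := by
  have hadd : ∀ φ : Lat n → A, ∀ x y : LP A n, dg φ (x + y) = dg φ x + dg φ y := by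
    intro φ x y
    apply lp_ext; intro u
    simp only [dg_coeff, coeff_add', mul_add]
  have hs : ∀ (v : Lat n) (r : A) (y : LP A n), dg (fun u => (u j : A)) (single v r * y) =
      dg (fun u => (u j : A)) (single v r) * y + single v r * dg (fun u => (u j : A)) y := by
    intro v r y
    have e : dg (fun u => (u j : A)) (single v r : LP A n) = single v ((v j : A) * r) := by
      apply lp_ext; intro u
      rw [dg_coeff, coeff_single', coeff_single']
      by_cases h : u = v
      · rw [if_pos h, if_pos h, h]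
      · rw [if_neg h, if_neg h, mul_zero]
    rw [e]
    apply lp_ext; intro u
    rw [coeff_add', dg_coeff, single_mul_coeff, single_mul_coeff, single_mul_coeff, dg_coeff]
    rw [Pi.sub_apply]
    push_cast
    ring
  have hd : dg (fun u => (u j : A)) (x * y) =
      dg (fun u => (u j : A)) x * y + x * dg (fun u => (u j : A)) y := by
    induction x using AddMonoidAlgebra.induction_linear with
    | zero =>
      have h0 : dg (fun u : Lat n => (u j : A)) (0 : LP A n) = 0 := by
        apply lp_ext; intro u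
        rw [dg_coeff, coeff_zero', mul_zero]
      rw [zero_mul, h0, zero_mul, zero_mul, add_zero]
    | add f g hf hg =>
      rw [add_mul, hadd, hadd, hf, hg]
      ring
    | single v r => exact hs v r y
  unfold dL
  rw [hd]
  ring

/-- the invariant -/
def bfbInv {n : ℕ} (v : Lat n) (M V : ℤ) (t : ℕ) (ρ : Lat n) : Prop :=
  (∀ j, 0 ≤ ρ j) ∨ M - t * V ≤ dt v ρ

theorem bfb_dt_nonneg {n : ℕ} {v ρ : Lat n} (hv : ∀ j, 0 ≤ v j) (h : ∀ j, 0 ≤ ρ j) :
    0 ≤ dt v ρ := by
  unfold dt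
  exact sum_nonneg fun j _ => mul_nonneg (hv j) (h j)

theorem bfb_step {n : ℕ} {v b ρ : Lat n} {M V : ℤ} {t : ℕ} (hv : ∀ j, 0 ≤ v j ∧ v j ≤ V)
    (hM : 0 ≤ M) (hV : 0 ≤ V) (hb : (∀ j, 0 ≤ b j) ∨ M ≤ dt v b) (hρ : bfbInv v M V t ρ)
    (hM2 : (t : ℤ) * V ≤ M) (j : Fin n) (hj : b j ≠ 0 ∨ ρ j ≠ 0) :
    bfbInv v M V (t + 1) (b + ρ - ev j) := by
  have hv0 : ∀ j, 0 ≤ v j := fun j => (hv j).1
  have hd : dt v (b + ρ - ev j) = dt v b + dt v ρ - v j := by
    rw [dt_sub, dt_add, dt_comm v (ev j), dt_ev]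
  have hVj := (hv j).2
  have hc : ((t + 1 : ℕ) : ℤ) * V = t * V + V := by push_cast; ring
  rcases hb with hb | hb
  · rcases hρ with hρ | hρ
    · left
      intro k
      by_cases hk : k = j
      · subst hk
        have h1 := hb k
        have h2 := hρ k
        have h3 : (b + ρ - ev k) k = b k + ρ k - 1 := by simp [ev]
        rw [h3]
        rcases hj with hj | hj <;> omega
      · have h1 := hb k
        have h2 := hρ k
        have h3 : (b + ρ - ev j) k = b k + ρ k := by simp [ev, hk]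
        rw [h3]
        omega
    · right
      have h1 := bfb_dt_nonneg hv0 hb
      rw [hd, hc]
      linarith
  · right
    rw [hd, hc]
    rcases hρ with hρ | hρ
    · have h1 := bfb_dt_nonneg hv0 hρ
      have h2 : 0 ≤ (t : ℤ) * V := mul_nonneg (by positivity) hV
      linarith
    · linarith

theorem bfb_aux {n : ℕ} {A W : Type} [CommRing A] [AddCommGroup W] [Module A W] (s t : A)
    (F H : LP A n) (I : ℤ → ℤ → LP A n →ₗ[A] W)
    (h1 : ∀ i m g, I i m g = I (i - 1) m (F * g)) (h2 : ∀ i m g, I i m g = I i (m - 1) (H * g))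
    (h3 : ∀ i m j g, I i m (dL j g) + (s + (i : A)) • I (i - 1) m (dL j F * g) +
      (t + (m : A)) • I i (m - 1) (dL j H * g) = 0)
    (L : List (Fin n)) : ∀ (m : ℤ) (q : LP A n),
    ∃ q' : LP A n, I (1 - L.length) m (q * GG F s L) = I 1 (m - L.length) q' ∧
      ∀ (v : Lat n) (M V : ℤ) (τ : ℕ), (∀ j, 0 ≤ v j ∧ v j ≤ V) → 0 ≤ V → 
        ((τ + L.length : ℕ) : ℤ) * V ≤ M →
        (∀ u, H.coeff u ≠ 0 → (∀ j, 0 ≤ u j) ∨ M ≤ dt v u) →
        (∀ u, q.coeff u ≠ 0 → bfbInv v M V τ u) → ∀ u, q'.coeff u ≠ 0 →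
          bfbInv v M V (τ + L.length) u := by
  induction L with
  | nil =>
    intro m q
    refine ⟨q, ?_, fun v M V τ hv hV hM hH hq u hu => hq u hu⟩
    simp [GG]
  | cons j L ih =>
    intro m q
    obtain ⟨q', hq', hex⟩ := ih (m - 1) (-(H * dL j q) - (t + (m : A)) • (dL j H * q))
    refine ⟨q', ?_, ?_⟩
    · have e1 : (m - ((j :: L).length : ℤ)) = m - 1 - (L.length : ℤ) := by
        rw [List.length_cons]; push_cast; ring
      have e2 : (1 - ((j :: L).length : ℤ)) = 1 - (L.length : ℤ) - 1 := by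
        rw [List.length_cons]; push_cast; ring
      rw [e1, ← hq', e2]
      have e3 : q * GG F s (j :: L) = F * (q * dL j (GG F s L)) +
          (s + ((1 - (L.length : ℤ) : ℤ) : A)) • (dL j F * (q * GG F s L)) := by
        have e4 : GG F s (j :: L) = F * dL j (GG F s L) +
          (s + 1 - (L.length : A)) • (GG F s L * dL j F) := rfl
        have e5 : (s + ((1 - (L.length : ℤ) : ℤ) : A)) = s + 1 - (L.length : A) := by
          push_cast; ring
        rw [e4, e5, mul_add, mul_smul_comm]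
        congr 1
        · ring
        · congr 1; ring
      rw [e3, map_add, map_smul, ← h1]
      have e6 := h3 (1 - (L.length : ℤ)) m j (q * GG F s L)
      rw [bfb_leibniz, map_add] at e6
      have e7 : (-(H * dL j q) - (t + (m : A)) • (dL j H * q)) * GG F s L =
          -(H * (dL j q * GG F s L)) - (t + (m : A)) • (dL j H * (q * GG F s L)) := by
        rw [sub_mul, smul_mul_assoc, neg_mul, mul_assoc, mul_assoc]
      rw [e7, map_sub, map_neg, map_smul, ← h2]
      have e8 : ∀ a b c d e : W, a + b + c + d = 0 → e = -a - d → b + c = e := by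
        intro a b c d e h he
        rw [he]
        have : b + c = (a + b + c + d) - a - d := by abel
        rw [this, h]; abel
      exact e8 _ _ _ _ _ e6 rfl
    · intro v M V τ hv hV hM hH hq u hu
      have hl : (τ + (j :: L).length) = (τ + 1) + L.length := by
        rw [List.length_cons]; ring
      rw [hl] at hM ⊢
      have hM0 : 0 ≤ M := le_trans (mul_nonneg (by positivity) hV) hM
      have hM2 : (τ : ℤ) * V ≤ M := by
        refine le_trans (mul_le_mul_of_nonneg_right ?_ hV) hM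
        push_cast; linarith
      refine hex v M V (τ + 1) hv hV hM hH ?_ u hu
      intro w hw
      have hor : (H * dL j q).coeff w ≠ 0 ∨ (dL j H * q).coeff w ≠ 0 := by
        by_contra hcon
        push Not at hcon
        apply hw
        rw [coeff_sub', coeff_neg', coeff_smul', hcon.1, hcon.2]
        ring
      rcases hor with hor | hor
      · obtain ⟨b, ρ, hb, hρ, rfl⟩ := bfb_mul_coeff _ _ _ hor
        obtain ⟨h4, h5⟩ := bfb_dL_ne j q ρ hρ
        have h6 := bfb_step hv hM0 hV (hH b hb) (hq _ h4) hM2 j (Or.inr h5)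
        have e : b + (ρ + ev j) - ev j = b + ρ := by abel
        rwa [e] at h6
      · obtain ⟨b, ρ, hb, hρ, rfl⟩ := bfb_mul_coeff _ _ _ hor
        obtain ⟨h4, h5⟩ := bfb_dL_ne j H b hb
        have h6 := bfb_step hv hM0 hV (hH _ h4) (hq _ hρ) hM2 j (Or.inl h5)
        have e : b + ev j + ρ - ev j = b + ρ := by abel
        rwa [e] at h6

/-- BFB -/
theorem bfb {n : ℕ} {A W : Type} [CommRing A] [AddCommGroup W] [Module A W] (s t : A)
    (F H : LP A n) (I : ℤ → ℤ → LP A n →ₗ[A] W)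
    (h1 : ∀ i m g, I i m g = I (i - 1) m (F * g)) (h2 : ∀ i m g, I i m g = I i (m - 1) (H * g))
    (h3 : ∀ i m j g, I i m (dL j g) + (s + (i : A)) • I (i - 1) m (dL j F * g) +
      (t + (m : A)) • I i (m - 1) (dL j H * g) = 0)
    (L : List (Fin n)) (m : ℤ) (q : LP A n) :
    ∃ q' : LP A n, I (1 - L.length) m (q * GG F s L) = I 1 (m - L.length) q' ∧
      ∀ (v : Lat n) (M : ℤ) (N : ℕ), L.length ≤ N → (∀ j, 0 ≤ v j ∧ N * v j ≤ M) →
        (∀ u, H.coeff u ≠ 0 → (∀ j, 0 ≤ u j) ∨ M ≤ dt v u) →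
        (∀ u, q.coeff u ≠ 0 → ∀ j, 0 ≤ u j) → ∀ u, q'.coeff u ≠ 0 → 0 ≤ dt v u := by
  obtain ⟨q', hq', hex⟩ := bfb_aux s t F H I h1 h2 h3 L m q
  refine ⟨q', hq', ?_⟩
  intro v M N hN hv hH hq u hu
  rcases Nat.eq_zero_or_pos n with hn | hn
  · subst hn
    simp [dt]
  · haveI : Nonempty (Fin n) := ⟨⟨0, hn⟩⟩
    obtain ⟨j0, hj0⟩ := Finite.exists_max v
    have hV : 0 ≤ v j0 := (hv j0).1
    have hM : ((0 + L.length : ℕ) : ℤ) * v j0 ≤ M := by
      refine le_trans (mul_le_mul_of_nonneg_right ?_ hV) (hv j0).2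
      push_cast
      have : (L.length : ℤ) ≤ N := by exact_mod_cast hN
      linarith
    have h4 := hex v M (v j0) 0 (fun j => ⟨(hv j).1, hj0 j⟩) hV hM hH
      (fun u hu => Or.inl (hq u hu)) u hu
    rcases h4 with h4 | h4
    · exact bfb_dt_nonneg (fun j => (hv j).1) h4
    · linarith

end Pool.Agent.H56.SMC

end S_BFB

section S_JF

/-!
# JF: the formal integrals

`W = LP KA (n+2) ⧸ exS`, `s = C s0 + X`, `t = C t0`.
Proof.  `e_{(l,l2;q)}` = the class of `single (vec l l2 q) 1`.  In `W`: `(-s+l) e_{(l,l2;q)} = ∑_i κ_i e_{(l+1,l2;q+a_i)}` (`D_0`), `(-t+l2) e_{(l,l2;q)} = ∑_k λ_k e_{(l,l2+1;q+β_k)}` (`D_1`),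
`(1+q_j) e_{(l,l2;q)} = ∑_i κ_i a_ij e_{(l+1,l2;q+a_i)} + ∑_k λ_k β_kj e_{(l,l2+1;q+β_k)}` (`D_{j+2}`).  Choose `ρ_i ∈ KA` (`i ∈ ℤ`) with `ρ_0 = 1`, `ρ_i = ρ_{i-1} (-s-i)` (possible in both directions, since `-s-i ≠ 0`), and
`σ_m ∈ ℂ` with `σ_0 = 1`, `σ_m = σ_{m-1} (-t0-m)` (`ht0`).  `I i m (r x^q) = r ρ_i σ_m e_{(-i,-m;q)}`, extended additively.  `h1`, `h2` from `D_0`, `D_1`; `h3` for `g = x^q`: the relation `D_{j+2} e_{(-i,-m;q-e_j)} = 0` times `ρ_i σ_m`
(`dL j x^q = q_j x^{q-e_j}`, `ρ_i = ρ_{i-1}(-s-i)`, `σ_m = σ_{m-1}(-t-m)`).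
-/

set_option autoImplicit false

namespace Pool.Agent.H56.SMC

open Finset AddMonoidAlgebra

theorem JF_rec {K : Type} [Field K] (D : ℤ → K) (hD : ∀ i, D i ≠ 0) :
    ∃ ρ : ℤ → K, ρ 0 = 1 ∧ ∀ i, ρ i = ρ (i - 1) * D i := by
  classical
  refine ⟨fun i => (∏ k ∈ Finset.Ioc 0 i, D k) * (∏ k ∈ Finset.Ioc i 0, D k)⁻¹, by simp, ?_⟩
  intro i
  rcases lt_or_ge 0 i with hi | hi
  · have h1 : Finset.Ioc i 0 = ∅ := Finset.Ioc_eq_empty_of_le hi.le
    have h2 : Finset.Ioc (i - 1) 0 = ∅ := Finset.Ioc_eq_empty_of_le (by omega)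
    have h3 : Finset.Ioc 0 i = insert i (Finset.Ioc 0 (i - 1)) := by
      ext k; simp only [Finset.mem_Ioc, Finset.mem_insert]; omega
    simp only [h1, h2, h3]
    rw [Finset.prod_insert (by simp)]
    simp only [Finset.prod_empty, inv_one, mul_one]
    ring
  · have h1 : Finset.Ioc 0 i = ∅ := Finset.Ioc_eq_empty_of_le hi
    have h2 : Finset.Ioc 0 (i - 1) = ∅ := Finset.Ioc_eq_empty_of_le (by omega)
    have h3 : Finset.Ioc (i - 1) 0 = insert i (Finset.Ioc i 0) := by
      ext k; simp only [Finset.mem_Ioc, Finset.mem_insert]; omega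
    simp only [h1, h2, h3]
    rw [Finset.prod_insert (by simp)]
    have := hD i
    simp only [Finset.prod_empty, one_mul, mul_inv]
    field_simp

/-- `e_q ↦ e_{(l,l2;q)}` -/
noncomputable def JF_emb {R' : Type} [CommRing R'] {n : ℕ} (l l2 : ℤ) (g : LP R' n) :
    LP R' (n + 2) := ofCoeff (Finsupp.mapDomain (vec l l2) g.coeff)

theorem JF_emb_add {R' : Type} [CommRing R'] {n : ℕ} (l l2 : ℤ) (x y : LP R' n) :
    JF_emb l l2 (x + y) = JF_emb l l2 x + JF_emb l l2 y := by
  show ofCoeff (Finsupp.mapDomain (vec l l2) (x.coeff + y.coeff)) = _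
  rw [Finsupp.mapDomain_add]
  rfl

theorem JF_emb_zero {R' : Type} [CommRing R'] {n : ℕ} (l l2 : ℤ) :
    JF_emb l l2 (0 : LP R' n) = 0 := by
  show ofCoeff (Finsupp.mapDomain (vec l l2) 0) = _
  rw [Finsupp.mapDomain_zero]
  rfl

theorem JF_emb_smul {R' : Type} [CommRing R'] {n : ℕ} (l l2 : ℤ) (r : R') (x : LP R' n) :
    JF_emb l l2 (r • x) = r • JF_emb l l2 x := by
  show ofCoeff (Finsupp.mapDomain (vec l l2) (r • x.coeff)) = _
  rw [Finsupp.mapDomain_smul]
  rfl

theorem JF_emb_single {R' : Type} [CommRing R'] {n : ℕ} (l l2 : ℤ) (q : Lat n) (r : R') :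
    JF_emb l l2 (single q r : LP R' n) = single (vec l l2 q) r := by
  show ofCoeff (Finsupp.mapDomain (vec l l2) (Finsupp.single q r)) = _
  rw [Finsupp.mapDomain_single]
  rfl

theorem JF_lmap_single {R R' : Type} [CommRing R] [CommRing R'] {d : ℕ} (f : R →+* R')
    (q : Lat d) (r : R) : lmap f (single q r : LP R d) = single q (f r) := by
  apply lp_ext; intro u
  rw [lmap_coeff, coeff_single', coeff_single']
  split_ifs <;> simp

theorem JF_smul_single {R : Type} [CommRing R] {d : ℕ} (q : Lat d) (t r : R) :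
    t • (single q r : LP R d) = single q (t * r) := by
  apply lp_ext; intro u
  rw [coeff_smul', coeff_single', coeff_single']
  split_ifs <;> simp

/-- the linear map before passing to the quotient -/
noncomputable def JF_L {n : ℕ} (ρ : ℤ → KA) (σ : ℤ → ℂ) (i m : ℤ) :
    LP PA n →ₗ[PA] LP KA (n + 2) where
  toFun g := (ρ i * jK (PowerSeries.C (σ m))) • JF_emb (-i) (-m) (lmap jK g)
  map_add' x y := by rw [lmap_add, JF_emb_add, smul_add]
  map_smul' r x := by
    rw [lmap_smul, JF_emb_smul, smul_comm]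
    apply lp_ext; intro u
    rw [coeff_smul']
    exact (Algebra.smul_def r _).symm

theorem JF_L_single {n : ℕ} (ρ : ℤ → KA) (σ : ℤ → ℂ) (i m : ℤ) (q : Lat n) (r : PA) :
    JF_L ρ σ i m (single q r : LP PA n) =
      single (vec (-i) (-m) q) (ρ i * jK (PowerSeries.C (σ m)) * jK r) := by
  show (ρ i * jK (PowerSeries.C (σ m))) • JF_emb (-i) (-m) (lmap jK (single q r)) = _
  rw [JF_lmap_single, JF_emb_single, JF_smul_single]

/-- the linear map -/
noncomputable def JF_I {n : ℕ} (S : Submodule KA (LP KA (n + 2))) (ρ : ℤ → KA) (σ : ℤ → ℂ)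
    (i m : ℤ) : LP PA n →ₗ[PA] (LP KA (n + 2) ⧸ S) :=
  (S.mkQ.restrictScalars PA).comp (JF_L ρ σ i m)

theorem JF_I_single {n : ℕ} (S : Submodule KA (LP KA (n + 2))) (ρ : ℤ → KA) (σ : ℤ → ℂ)
    (i m : ℤ) (q : Lat n) (r : PA) :
    JF_I S ρ σ i m (single q r : LP PA n) =
      S.mkQ (single (vec (-i) (-m) q) (ρ i * jK (PowerSeries.C (σ m)) * jK r)) := by
  rw [← JF_L_single]
  rfl

theorem JF_pv_ev {R : Type} [CommRing R] {d : ℕ} (p : Fin d → R) (j : Fin d) :
    pv p (ev j) = p j := by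
  simp [pv, ev, Pi.single_apply]

/-- the relation `D_j e_u = 0` -/
theorem JF_rel {R : Type} [CommRing R] {d : ℕ} {ι : Type} [Fintype ι] (p : Fin d → R)
    (a : ι → Lat d) (c : ι → R) (j : Fin d) (u : Lat d) (r : R) :
    (exS p a c).mkQ (single u ((p j + (u j : R)) * r)) =
      ∑ i, (exS p a c).mkQ (single (u + a i) (c i * (a i j : R) * r)) := by
  rw [← map_sum, ← sub_eq_zero, ← map_sub, Submodule.mkQ_apply, Submodule.Quotient.mk_eq_zero,
    mem_exS]
  have h := Ex.of_Dop (p := p) (a := a) (c := c) (S := Set.univ) (ev j)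
    (Supp.single (Set.mem_univ u) r)
  convert h using 1
  apply lp_ext; intro u'
  rw [Dop_coeff, coeff_sub', coeff_finsum, JF_pv_ev, coeff_single', coeff_single']
  congr 1
  · rw [dt_ev]
    split_ifs with h1
    · rw [h1]
    · rw [mul_zero]
  · refine sum_congr rfl fun i _ => ?_
    rw [coeff_single', coeff_single', dt_ev]
    have e : (u' = u + a i) = (u' - a i = u) := by
      rw [sub_eq_iff_eq_add]
    simp only [e]
    split_ifs
    · rfl
    · rw [mul_zero]

theorem JF_prod_single {n : ℕ} {α : Type} (s : Finset α) (f : α → Lat n) :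
    ∏ j ∈ s, (single (f j) 1 : LP ℂ n) = single (∑ j ∈ s, f j) 1 := by
  classical
  induction s using Finset.induction_on with
  | empty => rfl
  | insert b s hb ih => rw [prod_insert hb, sum_insert hb, ih, single_mul_single, one_mul]

theorem JF_toL_monomial {n : ℕ} (a : Fin n →₀ ℕ) (κ : ℂ) :
    toL ℂ (MvPolynomial.monomial a κ) = single (fun j => (a j : ℤ)) κ := by
  show MvPolynomial.aeval (fun j => (single (ev j) 1 : LP ℂ n)) (MvPolynomial.monomial a κ) = _
  rw [MvPolynomial.aeval_monomial]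
  have h1 : a.prod (fun i k => (single (ev i) 1 : LP ℂ n) ^ k) =
      single (fun j => (a j : ℤ)) 1 := by
    rw [Finsupp.prod_fintype _ _ (fun i => pow_zero _)]
    have h2 : ∀ i : Fin n, (single (ev i) 1 : LP ℂ n) ^ (a i) = single ((a i) • ev i) 1 := by
      intro i
      rw [single_pow, one_pow]
    simp only [h2]
    rw [JF_prod_single]
    congr 1
    funext j
    rw [Finset.sum_apply]
    simp only [Pi.smul_apply, ev, Pi.single_apply]
    simp
  rw [h1]
  have h3 : (algebraMap ℂ (LP ℂ n)) κ = single 0 κ := rfl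
  rw [h3, single_mul_single, zero_add, mul_one]

theorem JF_f {n r : ℕ} (a : Fin r → (Fin n →₀ ℕ)) (κ : Fin r → ℂ) :
    toL ℂ (fpoly a κ) = ∑ i, single (fun j => (a i j : ℤ)) (κ i) := by
  rw [fpoly, map_sum]
  exact sum_congr rfl fun i _ => JF_toL_monomial _ _

theorem JF_mapf {n r : ℕ} (a : Fin r → (Fin n →₀ ℕ)) (κ : Fin r → ℂ) :
    lmap (algebraMap ℂ PA) (toL ℂ (fpoly a κ)) =
      ∑ i, (single (fun j => (a i j : ℤ)) (PowerSeries.C (κ i)) : LP PA n) := by
  rw [JF_f, lmap_sum]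
  exact sum_congr rfl fun i _ => JF_lmap_single _ _ _

theorem JF_mapH {n : ℕ} {ϑ : Type} [Fintype ϑ] (bb : ϑ → Lat n) (lam : ϑ → ℂ) :
    lmap (algebraMap ℂ PA) (Hl bb lam) =
      ∑ k, (single (bb k) (PowerSeries.C (lam k)) : LP PA n) := by
  rw [Hl, lmap_sum]
  exact sum_congr rfl fun i _ => JF_lmap_single _ _ _

theorem JF_dL_single {R : Type} [CommRing R] {n : ℕ} (j : Fin n) (q : Lat n) (r : R) :
    dL j (single q r : LP R n) = single (-ev j + q) ((q j : R) * r) := by
  unfold dL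
  have h : dg (fun u => (u j : R)) (single q r : LP R n) = single q ((q j : R) * r) := by
    apply lp_ext; intro u
    rw [dg_coeff, coeff_single', coeff_single']
    split_ifs with h
    · rw [h]
    · rw [mul_zero]
  rw [h, single_mul_single, one_mul]

theorem JF_dL_add {R : Type} [CommRing R] {n : ℕ} (j : Fin n) (x y : LP R n) :
    dL j (x + y) = dL j x + dL j y := by
  unfold dL
  rw [← mul_add]
  congr 1
  apply lp_ext; intro u
  rw [coeff_add', dg_coeff, dg_coeff, dg_coeff, coeff_add', mul_add]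

theorem JF_dL_zero {R : Type} [CommRing R] {n : ℕ} (j : Fin n) :
    dL j (0 : LP R n) = 0 := by
  have h := JF_dL_add j (0 : LP R n) 0
  rw [add_zero] at h
  exact left_eq_add.mp h

theorem JF_dL_sum {R : Type} [CommRing R] {n : ℕ} {α : Type} (j : Fin n) (s : Finset α)
    (f : α → LP R n) : dL j (∑ i ∈ s, f i) = ∑ i ∈ s, dL j (f i) := by
  classical
  induction s using Finset.induction_on with
  | empty => simpa using JF_dL_zero j
  | insert b s hb ih => rw [sum_insert hb, sum_insert hb, JF_dL_add, ih]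

section main

variable {n r : ℕ} {ϑ : Type} [Fintype ϑ] (a : Fin r → (Fin n →₀ ℕ)) (κ : Fin r → ℂ)
    (bb : ϑ → Lat n) (lam : ϑ → ℂ) (s0 t0 : ℂ)

/-- the submodule of the relations -/
noncomputable abbrev JF_S : Submodule KA (LP KA (n + 2)) :=
  exS (fun j => jK (pp (PowerSeries.C s0 + PowerSeries.X) (PowerSeries.C t0) j)) (cA a bb)
        (fun i => jK (PowerSeries.C (cC κ lam i)))

theorem JF_D0 (l l2 : ℤ) (q : Lat n) (x : KA) :
    (JF_S a κ bb lam s0 t0).mkQ (single (vec l l2 q)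
      ((-jK (PowerSeries.C s0 + PowerSeries.X) + (l : KA)) * x)) =
    ∑ i, (JF_S a κ bb lam s0 t0).mkQ (single (vec (l + 1) l2 (q + fun j => (a i j : ℤ)))
      (jK (PowerSeries.C (κ i)) * x)) := by
  have h := JF_rel (fun j : Fin (n + 2) =>
    jK (pp (PowerSeries.C s0 + PowerSeries.X) (PowerSeries.C t0) j)) (cA a bb)
    (fun i => jK (PowerSeries.C (cC κ lam i))) 0 (vec l l2 q) x
  rw [Fintype.sum_sum_type] at h
  have e1 : (vec l l2 q : Lat (n + 2)) 0 = l := rfl
  have e2 : jK (pp (n := n) (PowerSeries.C s0 + PowerSeries.X) (PowerSeries.C t0) 0) =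
      -jK (PowerSeries.C s0 + PowerSeries.X) := by
    rw [← map_neg]; rfl
  simp only [e1, e2] at h
  rw [h]
  have e3 : ∀ k : ϑ, (JF_S a κ bb lam s0 t0).mkQ (single (vec l l2 q + cA a bb (Sum.inr k))
      (jK (PowerSeries.C (cC κ lam (Sum.inr k))) * ((cA a bb (Sum.inr k) 0 : ℤ) : KA) * x)) = 0 := by
    intro k
    have : (cA a bb (Sum.inr k) 0 : ℤ) = 0 := rfl
    rw [this]
    simp
  rw [sum_congr rfl (fun k _ => e3 k), sum_const_zero, add_zero]
  refine sum_congr rfl fun i _ => ?_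
  have e4 : (cA a bb (Sum.inl i) 0 : ℤ) = 1 := rfl
  have e5 : vec l l2 q + cA a bb (Sum.inl i) = vec (l + 1) l2 (q + fun j => (a i j : ℤ)) := by
    show vec l l2 q + vec 1 0 (fun j => (a i j : ℤ)) = _
    rw [vec_add, add_zero]
  rw [e4, e5]
  simp only [Int.cast_one, mul_one]
  rfl

theorem JF_D1 (l l2 : ℤ) (q : Lat n) (x : KA) :
    (JF_S a κ bb lam s0 t0).mkQ (single (vec l l2 q)
      ((-jK (PowerSeries.C t0) + (l2 : KA)) * x)) =
    ∑ k, (JF_S a κ bb lam s0 t0).mkQ (single (vec l (l2 + 1) (q + bb k))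
      (jK (PowerSeries.C (lam k)) * x)) := by
  have h := JF_rel (fun j : Fin (n + 2) =>
    jK (pp (PowerSeries.C s0 + PowerSeries.X) (PowerSeries.C t0) j)) (cA a bb)
    (fun i => jK (PowerSeries.C (cC κ lam i))) (Fin.succ 0) (vec l l2 q) x
  rw [Fintype.sum_sum_type] at h
  have e1 : (vec l l2 q : Lat (n + 2)) (Fin.succ 0) = l2 := rfl
  have e2 : jK (pp (n := n) (PowerSeries.C s0 + PowerSeries.X) (PowerSeries.C t0)
      (Fin.succ 0)) = -jK (PowerSeries.C t0) := by
    rw [← map_neg]; rfl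
  simp only [e1, e2] at h
  rw [h]
  have e3 : ∀ k : Fin r, (JF_S a κ bb lam s0 t0).mkQ (single (vec l l2 q + cA a bb (Sum.inl k))
      (jK (PowerSeries.C (cC κ lam (Sum.inl k))) *
        ((cA a bb (Sum.inl k) (Fin.succ 0) : ℤ) : KA) * x)) = 0 := by
    intro k
    have : (cA a bb (Sum.inl k) (Fin.succ 0) : ℤ) = 0 := rfl
    rw [this]
    simp
  rw [sum_congr rfl (fun k _ => e3 k), sum_const_zero, zero_add]
  refine sum_congr rfl fun i _ => ?_
  have e4 : (cA a bb (Sum.inr i) (Fin.succ 0) : ℤ) = 1 := rfl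
  have e5 : vec l l2 q + cA a bb (Sum.inr i) = vec l (l2 + 1) (q + bb i) := by
    show vec l l2 q + vec 0 1 (bb i) = _
    rw [vec_add, add_zero]
  rw [e4, e5]
  simp only [Int.cast_one, mul_one]
  rfl

theorem JF_D2 (l l2 : ℤ) (q : Lat n) (j : Fin n) (x : KA) :
    (JF_S a κ bb lam s0 t0).mkQ (single (vec l l2 q) ((1 + (q j : KA)) * x)) =
    ∑ i, (JF_S a κ bb lam s0 t0).mkQ (single (vec (l + 1) l2 (q + fun j => (a i j : ℤ)))
      (jK (PowerSeries.C (κ i)) * (a i j : KA) * x)) +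
    ∑ k, (JF_S a κ bb lam s0 t0).mkQ (single (vec l (l2 + 1) (q + bb k))
      (jK (PowerSeries.C (lam k)) * (bb k j : KA) * x)) := by
  have h := JF_rel (fun j : Fin (n + 2) =>
    jK (pp (PowerSeries.C s0 + PowerSeries.X) (PowerSeries.C t0) j)) (cA a bb)
    (fun i => jK (PowerSeries.C (cC κ lam i))) j.succ.succ (vec l l2 q) x
  rw [Fintype.sum_sum_type] at h
  have e1 : (vec l l2 q : Lat (n + 2)) j.succ.succ = q j := rfl
  have e2 : jK (pp (n := n) (PowerSeries.C s0 + PowerSeries.X) (PowerSeries.C t0)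
      j.succ.succ) = 1 := by
    rw [← map_one jK]; rfl
  simp only [e1, e2] at h
  rw [h]
  congr 1
  · refine sum_congr rfl fun i _ => ?_
    have e4 : (cA a bb (Sum.inl i) j.succ.succ : ℤ) = (a i j : ℤ) := rfl
    have e5 : vec l l2 q + cA a bb (Sum.inl i) = vec (l + 1) l2 (q + fun j => (a i j : ℤ)) := by
      show vec l l2 q + vec 1 0 (fun j => (a i j : ℤ)) = _
      rw [vec_add, add_zero]
    rw [e4, e5]
    simp only [Int.cast_natCast]
    rfl
  · refine sum_congr rfl fun i _ => ?_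
    have e4 : (cA a bb (Sum.inr i) j.succ.succ : ℤ) = bb i j := rfl
    have e5 : vec l l2 q + cA a bb (Sum.inr i) = vec l (l2 + 1) (q + bb i) := by
      show vec l l2 q + vec 0 1 (bb i) = _
      rw [vec_add, add_zero]
    rw [e4, e5]
    rfl

end main

/-- JF -/
theorem jf {n r : ℕ} {ϑ : Type} [Fintype ϑ] (a : Fin r → (Fin n →₀ ℕ)) (κ : Fin r → ℂ)
    (bb : ϑ → Lat n) (lam : ϑ → ℂ) (s0 t0 : ℂ) (ht0 : ∀ m : ℤ, t0 ≠ (m : ℂ)) :
    ∃ I : ℤ → ℤ → LP PA n →ₗ[PA] (LP KA (n + 2) ⧸ exS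
        (fun j => jK (pp (PowerSeries.C s0 + PowerSeries.X) (PowerSeries.C t0) j)) (cA a bb)
        (fun i => jK (PowerSeries.C (cC κ lam i)))),
      (∀ i m g, I i m g = I (i - 1) m (lmap (algebraMap ℂ PA) (toL ℂ (fpoly a κ)) * g)) ∧
      (∀ i m g, I i m g = I i (m - 1) (lmap (algebraMap ℂ PA) (Hl bb lam) * g)) ∧
      (∀ i m j g, I i m (dL j g) +
        ((PowerSeries.C s0 + PowerSeries.X) + (i : PA)) •
          I (i - 1) m (dL j (lmap (algebraMap ℂ PA) (toL ℂ (fpoly a κ))) * g) +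
        (PowerSeries.C t0 + (m : PA)) •
          I i (m - 1) (dL j (lmap (algebraMap ℂ PA) (Hl bb lam)) * g) = 0) ∧
      I 0 0 1 = Submodule.Quotient.mk (single 0 1) ∧
      ∀ R : ℕ, ∃ ρ : ℂ, ∀ g, I 0 (-(R : ℤ)) g =
        Submodule.Quotient.mk (lmap jK (PowerSeries.C ρ • emb (R : ℤ) g)) := by
  have hD : ∀ i : ℤ, -jK (PowerSeries.C s0 + PowerSeries.X) - (i : KA) ≠ 0 := by
    intro i h
    have h1 : jK (-(PowerSeries.C s0 + PowerSeries.X) - (i : PA)) = 0 := by
      rw [map_sub, map_neg, map_intCast]; exact h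
    have h2 : (-(PowerSeries.C s0 + PowerSeries.X) - (i : PA)) = 0 :=
      (IsFractionRing.injective PA KA) (by rw [map_zero]; exact h1)
    have h3 := congrArg (PowerSeries.coeff 1) h2
    have h4 : ((i : ℤ) : PA) = PowerSeries.C (i : ℂ) := by simp
    rw [h4, map_sub, map_neg, map_add, PowerSeries.coeff_C, PowerSeries.coeff_one_X,
      PowerSeries.coeff_C, map_zero, if_neg one_ne_zero, if_neg one_ne_zero] at h3
    norm_num at h3
  have hE : ∀ m : ℤ, -t0 - (m : ℂ) ≠ 0 := by
    intro m h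
    apply ht0 (-m)
    push_cast
    linear_combination -h
  obtain ⟨ρ, hρ0, hρ⟩ := JF_rec _ hD
  obtain ⟨σ, hσ0, hσ⟩ := JF_rec _ hE
  have hσ' : ∀ m, jK (PowerSeries.C (σ m)) = jK (PowerSeries.C (σ (m - 1))) *
      (-jK (PowerSeries.C t0) - (m : KA)) := by
    intro m
    rw [hσ m]
    simp only [map_mul, map_sub, map_neg, map_intCast]
  refine ⟨fun i m => JF_I _ ρ σ i m, ?_, ?_, ?_, ?_, ?_⟩
  · intro i m g
    induction g using AddMonoidAlgebra.induction_linear with
    | zero => simp only [mul_zero, map_zero]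
    | add x y hx hy => rw [mul_add, map_add, map_add, hx, hy]
    | single q x =>
      rw [JF_I_single, JF_mapf, sum_mul, map_sum]
      have h := JF_D0 a κ bb lam s0 t0 (-i) (-m) q (ρ (i - 1) * jK (PowerSeries.C (σ m)) * jK x)
      have e1 : (-jK (PowerSeries.C s0 + PowerSeries.X) + ((-i : ℤ) : KA)) *
          (ρ (i - 1) * jK (PowerSeries.C (σ m)) * jK x) =
          ρ i * jK (PowerSeries.C (σ m)) * jK x := by
        rw [hρ i]; push_cast; ring
      rw [e1] at h
      rw [h]
      refine sum_congr rfl fun k _ => ?_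
      rw [single_mul_single, JF_I_single]
      congr 2
      · congr 1
        · ring
        · rw [add_comm]
      · rw [map_mul]; ring
  · intro i m g
    induction g using AddMonoidAlgebra.induction_linear with
    | zero => simp only [mul_zero, map_zero]
    | add x y hx hy => rw [mul_add, map_add, map_add, hx, hy]
    | single q x =>
      rw [JF_I_single, JF_mapH, sum_mul, map_sum]
      have h := JF_D1 a κ bb lam s0 t0 (-i) (-m) q (ρ i * jK (PowerSeries.C (σ (m - 1))) * jK x)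
      have e1 : (-jK (PowerSeries.C t0) + ((-m : ℤ) : KA)) *
          (ρ i * jK (PowerSeries.C (σ (m - 1))) * jK x) =
          ρ i * jK (PowerSeries.C (σ m)) * jK x := by
        rw [hσ' m]; push_cast; ring
      rw [e1] at h
      rw [h]
      refine sum_congr rfl fun k _ => ?_
      rw [single_mul_single, JF_I_single]
      congr 2
      · congr 1
        · ring
        · rw [add_comm]
      · rw [map_mul]; ring
  · intro i m j g
    induction g using AddMonoidAlgebra.induction_linear with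
    | zero => simp only [JF_dL_zero, mul_zero, map_zero, smul_zero, add_zero]
    | add x y hx hy =>
      rw [JF_dL_add, mul_add, mul_add, map_add, map_add, map_add, smul_add, smul_add]
      calc _ = _ + _ := by abel
        _ = 0 + 0 := congrArg₂ (· + ·) hx hy
        _ = 0 := add_zero 0
    | single q x =>
      rw [JF_mapf, JF_mapH, JF_dL_sum, JF_dL_sum, sum_mul, sum_mul, map_sum, map_sum, smul_sum,
        smul_sum]
      have h := JF_D2 a κ bb lam s0 t0 (-i) (-m) (-ev j + q) j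
        (ρ i * jK (PowerSeries.C (σ m)) * jK x)
      have e0 : ((-ev j + q : Lat n) j : ℤ) = -1 + q j := by
        simp [ev]
      have e1 : (1 + (((-ev j + q : Lat n) j : ℤ) : KA)) *
          (ρ i * jK (PowerSeries.C (σ m)) * jK x) =
          ρ i * jK (PowerSeries.C (σ m)) * jK ((q j : PA) * x) := by
        rw [e0, map_mul, map_intCast]; push_cast; ring
      rw [e1] at h
      rw [JF_dL_single, JF_I_single, h]
      have f1 : ∀ k : Fin r, ((PowerSeries.C s0 + PowerSeries.X) + (i : PA)) •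
          JF_I (JF_S a κ bb lam s0 t0) ρ σ (i - 1) m
            (dL j (single (fun j => (a k j : ℤ)) (PowerSeries.C (κ k))) * single q x) =
          -(JF_S a κ bb lam s0 t0).mkQ (single (vec (-i + 1) (-m)
            ((-ev j + q) + fun j => (a k j : ℤ)))
            (jK (PowerSeries.C (κ k)) * (a k j : KA) *
              (ρ i * jK (PowerSeries.C (σ m)) * jK x))) := by
        intro k
        rw [JF_dL_single, single_mul_single, ← map_smul, JF_smul_single, JF_I_single, ← map_neg]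
        congr 1
        rw [← AddMonoidAlgebra.single_neg]
        congr 1
        · congr 1
          · ring
          · abel
        · rw [hρ i]
          simp only [map_mul, map_add, map_intCast]
          push_cast
          ring
      have f2 : ∀ k : ϑ, (PowerSeries.C t0 + (m : PA)) •
          JF_I (JF_S a κ bb lam s0 t0) ρ σ i (m - 1)
            (dL j (single (bb k) (PowerSeries.C (lam k))) * single q x) =
          -(JF_S a κ bb lam s0 t0).mkQ (single (vec (-i) (-m + 1) ((-ev j + q) + bb k))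
            (jK (PowerSeries.C (lam k)) * (bb k j : KA) *
              (ρ i * jK (PowerSeries.C (σ m)) * jK x))) := by
        intro k
        rw [JF_dL_single, single_mul_single, ← map_smul, JF_smul_single, JF_I_single, ← map_neg]
        congr 1
        rw [← AddMonoidAlgebra.single_neg]
        congr 1
        · congr 1
          · ring
          · abel
        · rw [hσ' m]
          simp only [map_mul, map_add, map_intCast]
          ring
      rw [sum_congr rfl (fun k _ => f1 k), sum_congr rfl (fun k _ => f2 k), sum_neg_distrib,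
        sum_neg_distrib]
      abel
  · have h1 : (1 : LP PA n) = single 0 1 := rfl
    rw [h1, JF_I_single, hρ0, hσ0]
    simp only [map_one, mul_one, neg_zero]
    have h2 : (vec 0 0 (0 : Lat n) : Lat (n + 2)) = 0 := by
      funext k
      refine Fin.cases rfl (fun k => Fin.cases rfl (fun k => rfl) k) k
    rw [h2]
    rfl
  · intro R
    refine ⟨σ (-(R : ℤ)), ?_⟩
    intro g
    show Submodule.Quotient.mk ((ρ 0 * jK (PowerSeries.C (σ (-(R : ℤ))))) •
      JF_emb (-0) (- -(R : ℤ)) (lmap jK g)) = _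
    rw [hρ0, one_mul, neg_zero, neg_neg, lmap_smul]
    congr 2
    induction g using AddMonoidAlgebra.induction_linear with
    | zero =>
      have z1 : lmap jK (0 : LP PA n) = 0 := by
        apply lp_ext; intro u
        rw [lmap_coeff, coeff_zero', coeff_zero', map_zero]
      have z2 : emb (R : ℤ) (0 : LP PA n) = 0 := JF_emb_zero 0 (R : ℤ)
      have z3 : lmap jK (0 : LP PA (n + 2)) = 0 := by
        apply lp_ext; intro u
        rw [lmap_coeff, coeff_zero', coeff_zero', map_zero]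
      rw [z1, z2, z3, JF_emb_zero]
    | add x y hx hy =>
      rw [lmap_add, JF_emb_add, hx, hy, ← lmap_add]
      congr 1
      exact (JF_emb_add (0 : ℤ) (R : ℤ) x y).symm
    | single q x =>
      rw [JF_lmap_single, JF_emb_single]
      have h1 : emb (R : ℤ) (single q x : LP PA n) = single (vec 0 (R : ℤ) q) x :=
        JF_emb_single (0 : ℤ) (R : ℤ) q x
      rw [h1, JF_lmap_single]

end Pool.Agent.H56.SMC

end S_JF

section S_MREL

/-!
# MREL: the relation obtained from the functional equation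

Proof.  `A = PA`, `s = C s0 + X`, `t = C t0`, `F = lmap (algebraMap ℂ PA) (toL ℂ f)`, `H = lmap (algebraMap ℂ PA) (Hl bb lam)`, `W`, `I` from `jf`, `R` from `bfa`; enlarge nothing.
`b(s) I 0 0 1 = I (1-R) 0 (b(s) F^{R-1})` (`h1` iterated) `= ∑_β I (1-R) 0 (p_β GG_β F^{R-|β|}) = ∑_β I (1-|β|) 0 (p_β GG_β) = ∑_β I 1 (-|β|) q_β` (`bfb` with `q = p_β`) `= ∑_β I 1 (-R) (H^{R-|β|} q_β) = I 0 (-R) (F G)`,
`G = ∑_β H^{R-|β|} q_β`, and `jf` gives `= mk (lmap jK (C ρ • emb R (F G)))`.  `x = C ρ • emb R (F G)`.  Exponents of `F G`: `ρ' + a_i` with `ρ'` an exponent of `G`: `0 ≤ dt v ρ'` by `bfb` with `N = D` (`lst β` has length `∑ β_j ≤ D`; the `p_β` have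
exponents `≥ 0`; exponents of `H` have `dt v ≥ 0`: for `n = 0` trivial, otherwise `M ≥ 0`).
-/

set_option autoImplicit false

namespace Pool.Agent.H56.SMC

open Finset AddMonoidAlgebra

theorem mrel_iter1 {n : ℕ} {A W : Type} [CommRing A] [AddCommGroup W] [Module A W] (F : LP A n)
    (I : ℤ → ℤ → LP A n →ₗ[A] W) (h1 : ∀ i m g, I i m g = I (i - 1) m (F * g)) (k : ℕ) :
    ∀ i m g, I i m g = I (i - k) m (F ^ k * g) := by
  induction k with
  | zero => intro i m g; simp
  | succ k ih =>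
    intro i m g
    rw [ih, h1, ← mul_assoc, ← pow_succ']
    congr 2
    push_cast
    ring

theorem mrel_iter2 {n : ℕ} {A W : Type} [CommRing A] [AddCommGroup W] [Module A W] (H : LP A n)
    (I : ℤ → ℤ → LP A n →ₗ[A] W) (h2 : ∀ i m g, I i m g = I i (m - 1) (H * g)) (k : ℕ) :
    ∀ i m g, I i m g = I i (m - k) (H ^ k * g) := by
  induction k with
  | zero => intro i m g; simp
  | succ k ih =>
    intro i m g
    rw [ih, h2, ← mul_assoc, ← pow_succ']
    congr 2
    push_cast
    ring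

theorem mrel_lst_length {n : ℕ} (β : Fin n →₀ ℕ) : (lst β).length = ∑ j, β j := by
  unfold lst
  rw [List.length_flatMap]
  simp only [List.length_replicate]
  rw [← List.sum_ofFn]
  congr 1
  rw [List.ofFn_eq_map]

theorem mrel_toL_nonneg {n : ℕ} {R : Type} [CommRing R] (p : MvPolynomial (Fin n) R) :
    ∀ u, (toL R p).coeff u ≠ 0 → ∀ j, 0 ≤ u j := by
  induction p using MvPolynomial.induction_on with
  | C a =>
    intro u hu
    rw [bfa_toL_C, coeff_single'] at hu
    have : u = 0 := by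
      by_contra h
      rw [if_neg h] at hu
      exact hu rfl
    intro j
    rw [this]
    exact le_refl _
  | add p q hp hq =>
    intro u hu
    rw [map_add, coeff_add'] at hu
    by_cases h : (toL R p).coeff u = 0
    · rw [h, zero_add] at hu
      exact hq u hu
    · exact hp u h
  | mul_X p i hp =>
    intro u hu j
    rw [map_mul, bfa_toL_X, mul_comm, single_mul_coeff, one_mul] at hu
    have h1 := hp _ hu j
    have h2 : (0 : ℤ) ≤ ev i j := by
      unfold ev
      by_cases hij : j = i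
      · rw [hij, Pi.single_eq_same]; exact zero_le_one
      · rw [Pi.single_eq_of_ne hij]
    have h3 : (u - ev i) j = u j - ev i j := rfl
    rw [h3] at h1
    linarith

theorem mrel_sum_coeff {n : ℕ} {A : Type} [CommRing A] {α : Type} (s : Finset α)
    (f : α → LP A n) (u : Lat n) (h : (∑ i ∈ s, f i).coeff u ≠ 0) :
    ∃ i ∈ s, (f i).coeff u ≠ 0 := by
  rw [coeff_finsum] at h
  exact exists_ne_zero_of_sum_ne_zero h

theorem mrel_singles {n : ℕ} {A : Type} [CommRing A] {α : Type} [Fintype α]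
    (e : α → Lat n) (c : α → A) (u : Lat n) (h : (∑ i, single (e i) (c i) : LP A n).coeff u ≠ 0) :
    ∃ i, u = e i := by
  obtain ⟨i, -, hi⟩ := mrel_sum_coeff _ _ _ h
  refine ⟨i, ?_⟩
  rw [coeff_single'] at hi
  by_contra hne
  rw [if_neg hne] at hi
  exact hi rfl

theorem mrel_pow_coeff {n : ℕ} {A : Type} [CommRing A] (H : LP A n) (v : Lat n)
    (hH : ∀ u, H.coeff u ≠ 0 → 0 ≤ dt v u) (k : ℕ) :
    ∀ u, (H ^ k).coeff u ≠ 0 → 0 ≤ dt v u := by
  induction k with
  | zero =>
    intro u hu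
    rw [pow_zero, AddMonoidAlgebra.one_def, coeff_single'] at hu
    have : u = 0 := by
      by_contra h
      rw [if_neg h] at hu
      exact hu rfl
    rw [this, dt_zero]
  | succ k ih =>
    intro u hu
    rw [pow_succ] at hu
    obtain ⟨a, b, ha, hb, rfl⟩ := bfb_mul_coeff _ _ _ hu
    rw [dt_add]
    exact add_nonneg (ih a ha) (hH b hb)

/-- the relation, for abstract `I` -/
theorem mrel_key {n : ℕ} {A W : Type} [CommRing A] [AddCommGroup W] [Module A W] (s c : A)
    (F H : LP A n) (I : ℤ → ℤ → LP A n →ₗ[A] W)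
    (h1 : ∀ i m g, I i m g = I (i - 1) m (F * g)) (h2 : ∀ i m g, I i m g = I i (m - 1) (H * g))
    (R : ℕ) (hR0 : 0 < R) (S : Finset (Fin n →₀ ℕ)) (hRl : ∀ β ∈ S, (lst β).length ≤ R)
    (pb q : (Fin n →₀ ℕ) → LP A n)
    (hb : ∑ β ∈ S, pb β * GG F s (lst β) * F ^ (R - (lst β).length) = c • F ^ (R - 1))
    (hq1 : ∀ β, I (1 - ((lst β).length : ℤ)) 0 (pb β * GG F s (lst β)) =
      I 1 (0 - ((lst β).length : ℤ)) (q β)) :
    c • I 0 0 1 = I 0 (-(R : ℤ)) (F * ∑ β ∈ S, H ^ (R - (lst β).length) * q β) := by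
  have e2 : c • I 0 0 1 = I (1 - (R : ℤ)) 0 (c • F ^ (R - 1)) := by
    rw [mrel_iter1 F I h1 (R - 1) 0 0 1, mul_one, ← map_smul]
    congr 2
    rw [Nat.cast_sub hR0]
    push_cast
    ring
  rw [e2, ← hb, map_sum]
  have e3 : I 0 (-(R : ℤ)) (F * ∑ β ∈ S, H ^ (R - (lst β).length) * q β) =
      I 1 (-(R : ℤ)) (∑ β ∈ S, H ^ (R - (lst β).length) * q β) := by
    rw [h1 1 (-(R : ℤ)) _, sub_self]
  rw [e3, map_sum]
  refine sum_congr rfl fun β hβ => ?_
  have hl := hRl β hβ
  have e4 := hq1 β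
  rw [zero_sub] at e4
  have e5 := mrel_iter1 F I h1 (R - (lst β).length) (1 - ((lst β).length : ℤ)) 0
    (pb β * GG F s (lst β))
  have e6 := mrel_iter2 H I h2 (R - (lst β).length) 1 (-((lst β).length : ℤ)) (q β)
  have e7 : (1 - ((lst β).length : ℤ)) - ((R - (lst β).length : ℕ) : ℤ) = 1 - (R : ℤ) := by
    rw [Nat.cast_sub hl]; ring
  have e8 : (-((lst β).length : ℤ)) - ((R - (lst β).length : ℕ) : ℤ) = -(R : ℤ) := by
    rw [Nat.cast_sub hl]; ring
  rw [e7] at e5
  rw [e8] at e6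
  rw [← e6, ← e4, e5]
  congr 1
  rw [mul_comm]

/-- from the quotient to `Ex` -/
theorem mrel_fin {d : ℕ} {ι : Type} [Fintype ι] (p : Fin d → KA) (a : ι → Lat d) (c : ι → KA)
    (r : PA) (x : LP PA d)
    (h : r • (Submodule.Quotient.mk (single 0 1) : LP KA d ⧸ exS p a c) =
      Submodule.Quotient.mk (lmap jK x)) :
    Ex p a c Set.univ (lmap jK (single 0 r - x)) := by
  rw [← mem_exS, lmap_sub, ← Submodule.Quotient.mk_eq_zero, Submodule.Quotient.mk_sub, ← h,
    sub_eq_zero, JF_lmap_single]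
  have e9 : r • (Submodule.Quotient.mk (single 0 1) : LP KA d ⧸ exS p a c) =
      Submodule.Quotient.mk (r • single 0 1) := rfl
  rw [e9]
  congr 1
  apply lp_ext
  intro u
  rw [coeff_single']
  have e10 : (r • (single 0 1 : LP KA d)).coeff u = r • ((single 0 1 : LP KA d).coeff u) := rfl
  rw [e10, coeff_single', Algebra.smul_def]
  split_ifs
  · rw [mul_one]; rfl
  · rw [mul_zero]

/-- the exponents -/
theorem mrel_exp {n r : ℕ} {ϑ : Type} [Fintype ϑ] (a : Fin r → (Fin n →₀ ℕ)) (κ : Fin r → ℂ)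
    (bb : ϑ → Lat n) (lam : ϑ → ℂ) (D R : ℕ) (S : Finset (Fin n →₀ ℕ)) (q : (Fin n →₀ ℕ) → LP PA n)
    (pb : (Fin n →₀ ℕ) → LP PA n)
    (hq2 : ∀ β, ∀ (v : Lat n) (M : ℤ) (N : ℕ), (lst β).length ≤ N → (∀ j, 0 ≤ v j ∧ N * v j ≤ M) →
        (∀ u, (lmap (algebraMap ℂ PA) (Hl bb lam)).coeff u ≠ 0 → (∀ j, 0 ≤ u j) ∨ M ≤ dt v u) →
        (∀ u, (pb β).coeff u ≠ 0 → ∀ j, 0 ≤ u j) → ∀ u, (q β).coeff u ≠ 0 → 0 ≤ dt v u)
    (hpb : ∀ β, ∀ u, (pb β).coeff u ≠ 0 → ∀ j, 0 ≤ u j)
    (hD : ∀ β ∈ S, ∑ j, β j ≤ D) (ρ0 : PA) (u : Lat (n + 2))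
    (hu : (ρ0 • emb (R : ℤ) (lmap (algebraMap ℂ PA) (toL ℂ (fpoly a κ)) *
      ∑ β ∈ S, (lmap (algebraMap ℂ PA) (Hl bb lam)) ^ (R - (lst β).length) * q β)).coeff u ≠ 0) :
    ∃ (ρ : Lat n) (i : Fin r), u = vec 0 R (ρ + fun j => (a i j : ℤ)) ∧
        ∀ (v : Lat n) (M : ℤ), (∀ j, 0 ≤ v j ∧ D * v j ≤ M) →
          (∀ k, (∀ j, 0 ≤ bb k j) ∨ M ≤ dt v (bb k)) → 0 ≤ dt v ρ := by
  classical
  rw [coeff_smul'] at hu
  have hu1 := right_ne_zero_of_mul hu
  obtain ⟨w, hw, rfl⟩ : ∃ w, (lmap (algebraMap ℂ PA) (toL ℂ (fpoly a κ)) *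
      ∑ β ∈ S, (lmap (algebraMap ℂ PA) (Hl bb lam)) ^ (R - (lst β).length) * q β).coeff w ≠ 0 ∧
        u = vec 0 (R : ℤ) w := by
    have h6 : u ∈ (Finsupp.mapDomain (vec 0 (R : ℤ)) (lmap (algebraMap ℂ PA) (toL ℂ (fpoly a κ)) *
      ∑ β ∈ S, (lmap (algebraMap ℂ PA) (Hl bb lam)) ^ (R - (lst β).length) * q β).coeff).support :=
      Finsupp.mem_support_iff.2 hu1
    have h7 := Finsupp.mapDomain_support h6
    obtain ⟨w, hw, rfl⟩ := Finset.mem_image.1 h7
    exact ⟨w, Finsupp.mem_support_iff.1 hw, rfl⟩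
  obtain ⟨a', ρ, ha', hρ, rfl⟩ := bfb_mul_coeff _ _ _ hw
  rw [JF_mapf] at ha'
  obtain ⟨i, rfl⟩ := mrel_singles _ _ _ ha'
  refine ⟨ρ, i, congrArg (vec 0 (R : ℤ)) (add_comm _ _), ?_⟩
  intro v M hv hbb
  obtain ⟨β, hβ, hβ2⟩ := mrel_sum_coeff _ _ _ hρ
  obtain ⟨c, d, hc, hd, rfl⟩ := bfb_mul_coeff _ _ _ hβ2
  have hHe : ∀ u, (lmap (algebraMap ℂ PA) (Hl bb lam)).coeff u ≠ 0 →
      (∀ j, 0 ≤ u j) ∨ M ≤ dt v u := by
    intro u hu
    rw [JF_mapH] at hu
    obtain ⟨k, rfl⟩ := mrel_singles _ _ _ hu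
    exact hbb k
  have hHn : ∀ u, (lmap (algebraMap ℂ PA) (Hl bb lam)).coeff u ≠ 0 → 0 ≤ dt v u := by
    intro u hu
    rcases hHe u hu with h | h
    · exact bfb_dt_nonneg (fun j => (hv j).1) h
    · rcases Nat.eq_zero_or_pos n with hn | hn
      · subst hn
        simp [dt]
      · have h8 := hv ⟨0, hn⟩
        have h9 : (0 : ℤ) ≤ D * v ⟨0, hn⟩ := mul_nonneg (by positivity) h8.1
        linarith [h8.2]
  rw [dt_add]
  refine add_nonneg (mrel_pow_coeff _ v hHn _ c hc) ?_
  refine hq2 β v M D ?_ hv hHe (hpb β) d hd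
  rw [mrel_lst_length]
  exact hD β hβ

/-- MREL -/
theorem mrel {n r : ℕ} {ϑ : Type} [Fintype ϑ] (a : Fin r → (Fin n →₀ ℕ)) (κ : Fin r → ℂ)
    (bb : ϑ → Lat n) (lam : ϑ → ℂ) (b : Polynomial ℂ) (P : H22.WeylS n)
    (hfe : H22.FunctionalEquation (fpoly a κ) b P) (D : ℕ)
    (hD : ∀ β ∈ P.support, ∑ j, β j ≤ D) (s0 t0 : ℂ) (ht0 : ∀ m : ℤ, t0 ≠ (m : ℂ)) :
    ∃ (R : ℕ) (x : LP PA (n + 2)),
      Ex (fun j => jK (pp (PowerSeries.C s0 + PowerSeries.X) (PowerSeries.C t0) j)) (cA a bb)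
        (fun i => jK (PowerSeries.C (cC κ lam i))) Set.univ
        (lmap jK (single 0 (Polynomial.aeval (PowerSeries.C s0 + PowerSeries.X : PA) b) - x)) ∧
      ∀ u, x.coeff u ≠ 0 → ∃ (ρ : Lat n) (i : Fin r),
        u = vec 0 R (ρ + fun j => (a i j : ℤ)) ∧
        ∀ (v : Lat n) (M : ℤ), (∀ j, 0 ≤ v j ∧ D * v j ≤ M) →
          (∀ k, (∀ j, 0 ≤ bb k j) ∨ M ≤ dt v (bb k)) → 0 ≤ dt v ρ := by
  obtain ⟨R, hR0, hRl, hbfa⟩ := bfa (fpoly a κ) b P hfe
  obtain ⟨I, h1, h2, h3, h4, h5⟩ := jf a κ bb lam s0 t0 ht0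
  have hb := hbfa PA (PowerSeries.C s0 + PowerSeries.X)
  have hq := fun β : Fin n →₀ ℕ => bfb (PowerSeries.C s0 + PowerSeries.X) (PowerSeries.C t0)
    (lmap (algebraMap ℂ PA) (toL ℂ (fpoly a κ))) (lmap (algebraMap ℂ PA) (Hl bb lam)) I h1 h2 h3
    (lst β) 0 (toL PA (MvPolynomial.map (Polynomial.aeval (PowerSeries.C s0 + PowerSeries.X : PA) :
      Polynomial ℂ →ₐ[ℂ] PA).toRingHom (P β)))
  choose q hq1 hq2 using hq
  obtain ⟨ρ0, hρ0⟩ := h5 R
  have e1 := mrel_key _ _ _ _ I h1 h2 R hR0 P.support hRl _ q hb hq1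
  rw [h4, hρ0] at e1
  exact ⟨R, _, mrel_fin _ _ _ _ _ e1, fun u hu => mrel_exp a κ bb lam D R P.support q _ hq2
    (fun β => mrel_toL_nonneg _) hD _ u hu⟩

end Pool.Agent.H56.SMC

end S_MREL

section S_BM1

/-!
# BM1: `b(-1) = 0`

Proof.  `f = fpoly a κ` is not constant (`ha`, `hκ`, `hne`).  The identity `bfa` at `A = ℂ`, `s = -1`:
`GG F (-1) L = 0` for every nonempty list `L`, so only `β = 0` contributes:
`p_0(-1) F^R = b(-1) F^{R-1}`, hence `p_0(-1) f = b(-1)`, and `b(-1) = 0` since `f` is not constant.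
-/

set_option autoImplicit false

namespace Pool.Agent.H56.SMC

open Finset AddMonoidAlgebra

theorem bm1_GG {n : ℕ} (F : LP ℂ n) (j : Fin n) (L : List (Fin n)) : GG F (-1) (j :: L) = 0 := by
  induction L generalizing j with
  | nil =>
    simp only [GG]
    rw [bfa_dL_one]
    simp
  | cons i L ih =>
    rw [GG, ih i]
    have h0 : dL j (0 : LP ℂ n) = 0 := by
      have := bfa_dL_add j (0 : LP ℂ n) 0
      rw [add_zero] at this
      simpa using this
    rw [h0, mul_zero, zero_mul, smul_zero, add_zero]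

theorem bm1_monomial {n : ℕ} (v : Fin n →₀ ℕ) (c : ℂ) :
    toL ℂ (MvPolynomial.monomial v c) = (single (fun j => (v j : ℤ)) c : LP ℂ n) := by
  rw [MvPolynomial.monomial_eq, Finsupp.prod_fintype _ _ (fun i => pow_zero _), map_mul, map_prod,
    bfa_toL_C]
  have h1 : ∀ j : Fin n, toL ℂ ((MvPolynomial.X j : MvPolynomial (Fin n) ℂ) ^ v j) =
      single (v j • ev j) 1 := by
    intro j
    rw [map_pow, bfa_toL_X, AddMonoidAlgebra.single_pow, one_pow]
  simp only [h1]
  rw [AddMonoidAlgebra.prod_single, prod_const_one, AddMonoidAlgebra.single_mul_single, zero_add,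
    mul_one]
  congr 1
  funext k
  rw [Finset.sum_apply]
  simp only [Pi.smul_apply, ev, Pi.single_apply, nsmul_eq_mul]
  simp

theorem bm1_coeff {n : ℕ} (p : MvPolynomial (Fin n) ℂ) (w : Fin n →₀ ℕ) :
    (toL ℂ p).coeff (fun j => (w j : ℤ)) = p.coeff w := by
  classical
  conv_lhs => rw [p.as_sum, map_sum]
  simp only [bm1_monomial]
  rw [coeff_finsum]
  simp only [coeff_single']
  have h1 : ∀ v : Fin n →₀ ℕ, ((fun j => (w j : ℤ)) = fun j => (v j : ℤ)) ↔ w = v := by
    intro v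
    constructor
    · intro h
      ext j
      have := congrFun h j
      exact_mod_cast this
    · rintro rfl; rfl
  simp only [h1]
  rw [Finset.sum_ite_eq]
  split_ifs with h
  · rfl
  · exact (MvPolynomial.notMem_support_iff.1 h).symm

theorem bm1_inj {n : ℕ} {p q : MvPolynomial (Fin n) ℂ} (h : toL ℂ p = toL ℂ q) : p = q := by
  ext w
  rw [← bm1_coeff, h, bm1_coeff]

/-- BM1 -/
theorem bm1 {n r : ℕ} (a : Fin r → (Fin n →₀ ℕ)) (ha : Function.Injective a)
    (hne : ∃ i, a i ≠ 0) (κ : Fin r → ℂ) (hκ : ∀ i, κ i ≠ 0) (b : Polynomial ℂ) (P : H22.WeylS n)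
    (hfe : H22.FunctionalEquation (fpoly a κ) b P) : b.IsRoot (-1) := by
  classical
  obtain ⟨i0, hi0⟩ := hne
  set f := fpoly a κ with hf
  have hcoef : f.coeff (a i0) = κ i0 := by
    rw [hf, fpoly, MvPolynomial.coeff_sum]
    rw [sum_eq_single i0]
    · simp
    · intro j _ hj
      rw [MvPolynomial.coeff_monomial, if_neg (fun h => hj (ha h))]
    · intro h; exact absurd (mem_univ _) h
  have hf0 : f ≠ 0 := by
    intro h
    rw [h, MvPolynomial.coeff_zero] at hcoef
    exact hκ i0 hcoef.symm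
  have hdeg : 0 < f.totalDegree := by
    have h1 : a i0 ∈ f.support := by
      rw [MvPolynomial.mem_support_iff, hcoef]; exact hκ i0
    have h2 := MvPolynomial.le_totalDegree h1
    refine lt_of_lt_of_le ?_ h2
    rw [Nat.pos_iff_ne_zero]
    intro h3
    apply hi0
    rw [Finsupp.sum, sum_eq_zero_iff] at h3
    ext j
    by_contra hj
    exact hj (h3 j (Finsupp.mem_support_iff.2 hj))
  obtain ⟨R, hR, hlen, hid⟩ := bfa f b P hfe
  have h1 := hid ℂ (-1)
  set F : LP ℂ n := toL ℂ f with hF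
  have hmap : lmap (algebraMap ℂ ℂ) F = F := by
    apply lp_ext; intro u; rfl
  rw [hmap] at h1
  set p : (Fin n →₀ ℕ) → MvPolynomial (Fin n) ℂ := fun β =>
    MvPolynomial.map (Polynomial.aeval (-1 : ℂ) : Polynomial ℂ →ₐ[ℂ] ℂ).toRingHom (P β) with hp
  have h2 : ∑ β ∈ P.support, toL ℂ (p β) * GG F (-1) (lst β) * F ^ (R - (lst β).length) =
      toL ℂ (p 0) * F ^ R := by
    have hlst : ∀ β : Fin n →₀ ℕ, β ≠ 0 → GG F (-1) (lst β) = 0 := by
      intro β hβ
      have h3 : lst β ≠ [] := by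
        intro h4
        apply hβ
        ext j
        by_contra hj
        have h5 : j ∈ lst β := by
          unfold lst
          rw [List.mem_flatMap]
          exact ⟨j, List.mem_finRange j, List.mem_replicate.2 ⟨hj, rfl⟩⟩
        rw [h4] at h5
        simp at h5
      obtain ⟨j, L, hjL⟩ := List.exists_cons_of_ne_nil h3
      rw [hjL, bm1_GG]
    have hl0 : lst (0 : Fin n →₀ ℕ) = [] := by
      unfold lst
      simp
    by_cases h0 : (0 : Fin n →₀ ℕ) ∈ P.support
    · rw [sum_eq_single_of_mem 0 h0 (fun β _ hβ => by rw [hlst β hβ, mul_zero, zero_mul])]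
      rw [hl0]
      simp [GG]
    · have h3 : p 0 = 0 := by
        simp only [hp]
        rw [Finsupp.notMem_support_iff.1 h0, map_zero]
      rw [h3, map_zero, zero_mul]
      refine sum_eq_zero fun β hβ => ?_
      have : β ≠ 0 := fun h => h0 (h ▸ hβ)
      rw [hlst β this, mul_zero, zero_mul]
  rw [h2] at h1
  have hF0 : F ≠ 0 := by
    intro h
    apply hf0
    apply bm1_inj
    rw [← hF, h, map_zero]
  have h3 : toL ℂ (p 0 * f) = toL ℂ (MvPolynomial.C (b.eval (-1))) := by
    have h4 : F ^ (R - 1) ≠ 0 := pow_ne_zero _ hF0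
    apply mul_right_cancel₀ h4
    rw [map_mul, ← hF, mul_assoc, ← pow_succ', show R - 1 + 1 = R by omega, h1, bfa_toL_C]
    apply lp_ext; intro u
    rw [coeff_smul', single_mul_coeff, sub_zero]
    congr 1
  have h4 := bm1_inj h3
  by_contra hb
  have hb' : b.eval (-1) ≠ 0 := hb
  have hp0 : p 0 ≠ 0 := by
    intro h
    rw [h, zero_mul] at h4
    exact hb' ((MvPolynomial.C_eq_zero).1 h4.symm)
  have h5 := MvPolynomial.totalDegree_mul_of_isDomain hp0 hf0
  rw [h4, MvPolynomial.totalDegree_C] at h5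
  omega

end Pool.Agent.H56.SMC

end S_BM1
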