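import Mathlib
import Pool.Agent.H56.SMC.CfgDefs

/-! Strong monodromy for nondegenerate polynomials, part A7: this file joins the modules H11Aux, FNR, RAYZ, BIGX, SIMX, LAM, RFIN. -/

set_option autoImplicit false

section S_H11Aux

/-! # Auxiliary lemmas on ranks (helper11) -/

set_option autoImplicit false

namespace Pool.Agent.H56.SMC.H11

open Finset

theorem dt_self {d : ℕ} (x : Lat d) (h : dt x x = 0) : x = 0 := by
  funext j
  have h1 := (sum_eq_zero_iff_of_nonneg (fun j _ => mul_self_nonneg (x j))).1 h j (mem_univ j)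
  simpa using h1

theorem gram_det {d : ℕ} {s : Type} [Fintype s] [DecidableEq s] (x : s → Lat d)
    (hx : LinearIndependent ℤ x) :
    (Matrix.of (fun j k => dt (x j) (x k)) : Matrix s s ℤ).det ≠ 0 := by
  intro h0
  obtain ⟨v, hv, hv0⟩ := Matrix.exists_mulVec_eq_zero_iff.2 h0
  set y : Lat d := ∑ k, v k • x k with hy
  have h1 : ∀ j, dt (x j) y = 0 := by
    intro j
    have := congrFun hv0 j
    simp only [Matrix.mulVec, dotProduct, Pi.zero_apply, Matrix.of_apply] at this
    rw [hy, dt_sum, ← this]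
    exact sum_congr rfl fun k _ => by rw [dt_zsmul, mul_comm]
  have h2 : dt y y = 0 := by
    nth_rw 2 [hy]
    rw [dt_sum]
    refine sum_eq_zero fun k _ => ?_
    rw [dt_zsmul, dt_comm, h1, mul_zero]
  have h3 : y = 0 := dt_self y h2
  exact hv (funext fun k => Fintype.linearIndependent_iff.1 hx v h3 k)

/-- Independence over `ℤ` gives independence over `ℝ`. -/
theorem li_cast {d : ℕ} {s : Type} [Fintype s] (x : s → Lat d) (hx : LinearIndependent ℤ x) :
    LinearIndependent ℝ (fun k j => ((x k j : ℤ) : ℝ) : s → Fin d → ℝ) := by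
  classical
  rw [Fintype.linearIndependent_iff]
  intro g hg
  have h1 := gram_det x hx
  set G : Matrix s s ℤ := Matrix.of (fun j k => dt (x j) (x k)) with hG
  have h2 : (G.map (Int.cast : ℤ → ℝ)).det ≠ 0 := by
    have : (G.map (Int.cast : ℤ → ℝ)).det = ((G.det : ℤ) : ℝ) := by
      have := (Int.castRingHom ℝ).map_det G
      simpa using this.symm
    rw [this]
    exact_mod_cast h1
  have h3 : (G.map (Int.cast : ℤ → ℝ)).mulVec g = 0 := by
    funext j
    simp only [Matrix.mulVec, dotProduct, Matrix.map_apply, Pi.zero_apply, hG, Matrix.of_apply,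
      dt]
    have h4 : ∀ i, ∑ k, g k * ((x k i : ℤ) : ℝ) = 0 := by
      intro i
      have := congrFun hg i
      simpa [Finset.sum_apply] using this
    calc ∑ k, ((∑ i, x j i * x k i : ℤ) : ℝ) * g k
        = ∑ i, ((x j i : ℤ) : ℝ) * ∑ k, g k * ((x k i : ℤ) : ℝ) := by
          push_cast
          simp only [sum_mul, mul_sum]
          rw [sum_comm]
          exact sum_congr rfl fun i _ => sum_congr rfl fun k _ => by ring
      _ = 0 := by simp [h4]
  have h5 := Matrix.eq_zero_of_mulVec_eq_zero h2 h3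
  intro k
  exact congrFun h5 k

/-- Forgetting the second coordinate. -/
def fgt (n : ℕ) : Unit ⊕ Fin n → Fin (n + 2) := Sum.elim (fun _ => 0) (fun j => j.succ.succ)

theorem rank_lower {n : ℕ} (x : Fin (n + 1) → Lat (n + 2)) (hx : LinearIndependent ℤ x)
    (S : Set (Unit ⊕ Fin n → ℝ))
    (hS : ∀ k, (fun y => ((x k (fgt n y) : ℤ) : ℝ)) ∈ Submodule.span ℝ S) :
    n ≤ Module.finrank ℝ (Submodule.span ℝ S) := by
  set xr : Fin (n + 1) → Fin (n + 2) → ℝ := fun k j => ((x k j : ℤ) : ℝ) with hxr
  have h1 : LinearIndependent ℝ xr := li_cast x hx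
  set W := Submodule.span ℝ (Set.range xr) with hW
  have h2 : Module.finrank ℝ W = n + 1 := by
    rw [finrank_span_eq_card h1, Fintype.card_fin]
  set Φ : (Fin (n + 2) → ℝ) →ₗ[ℝ] (Unit ⊕ Fin n → ℝ) := LinearMap.funLeft ℝ ℝ (fgt n) with hΦ
  have h3 := LinearMap.finrank_range_add_finrank_ker (Φ.domRestrict W)
  have h4 : LinearMap.range (Φ.domRestrict W) ≤ Submodule.span ℝ S := by
    rintro _ ⟨⟨w, hw⟩, rfl⟩
    have : W ≤ (Submodule.span ℝ S).comap Φ := by
      rw [hW, Submodule.span_le]
      rintro _ ⟨k, rfl⟩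
      exact hS k
    exact this hw
  have h5 : Module.finrank ℝ (LinearMap.ker (Φ.domRestrict W)) ≤ 1 := by
    have hinj : Function.Injective (((LinearMap.proj (R := ℝ) (φ := fun _ : Fin (n + 2) => ℝ)
        (Fin.succ 0)).comp W.subtype).comp (LinearMap.ker (Φ.domRestrict W)).subtype) := by
      refine (injective_iff_map_eq_zero _).2 ?_
      rintro ⟨⟨w, hw⟩, hw'⟩ hw1
      have h6 : ∀ y, w (fgt n y) = 0 := fun y => congrFun hw' y
      have h7 : w (Fin.succ 0) = 0 := hw1
      have h8 : w = 0 := by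
        funext i
        refine Fin.cases ?_ (fun i => Fin.cases ?_ (fun i => ?_) i) i
        · exact h6 (Sum.inl ())
        · exact h7
        · exact h6 (Sum.inr i)
      subst h8
      rfl
    have := LinearMap.finrank_le_finrank_of_injective hinj
    simpa using this
  have h6 := Submodule.finrank_mono h4
  omega

theorem rank_upper {n : ℕ} (S : Set (Unit ⊕ Fin n → ℝ)) (f : Unit ⊕ Fin n → ℝ) (hf : f ≠ 0)
    (hS : ∀ y ∈ S, ∑ j, f j * y j = 0) : Module.finrank ℝ (Submodule.span ℝ S) ≤ n := by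
  have h1 : Submodule.span ℝ S < ⊤ := by
    rw [lt_top_iff_ne_top]
    intro h
    have h2 : f ∈ Submodule.span ℝ S := by rw [h]; trivial
    have h3 : ∀ y ∈ Submodule.span ℝ S, ∑ j, f j * y j = 0 := by
      intro y hy
      refine Submodule.span_induction (p := fun y _ => ∑ j, f j * y j = 0) (fun y hy => hS y hy)
        (by simp) (fun y z _ _ h1 h2 => ?_) (fun c y _ h1 => ?_) hy
      · simp only [Pi.add_apply, mul_add, sum_add_distrib, h1, h2, add_zero]
      · simp only [Pi.smul_apply, smul_eq_mul]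
        rw [show ∑ j, f j * (c * y j) = c * ∑ j, f j * y j by
          rw [mul_sum]; exact sum_congr rfl fun j _ => by ring, h1, mul_zero]
    apply hf
    funext j
    have h4 := (sum_eq_zero_iff_of_nonneg (fun j _ => mul_self_nonneg (f j))).1 (h3 f h2) j
      (mem_univ j)
    simpa using h4
  have h2 := Submodule.finrank_lt h1.ne
  have h3 : Module.finrank ℝ (Unit ⊕ Fin n → ℝ) = n + 1 := by simp [add_comm]
  omega

theorem wmin_le {n r : ℕ} (a : Fin r → (Fin n →₀ ℕ)) (v : Fin n → ℕ) (i : Fin r) :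
    H22.wmin a v ≤ ∑ j, a i j * v j :=
  ciInf_le (OrderBot.bddBelow _) i

theorem exists_wmin {n r : ℕ} (hr : 0 < r) (a : Fin r → (Fin n →₀ ℕ)) (v : Fin n → ℕ) :
    ∃ i, ∑ j, a i j * v j = H22.wmin a v := by
  have : Nonempty (Fin r) := ⟨⟨0, hr⟩⟩
  exact Nat.sInf_mem (Set.range_nonempty _)

end Pool.Agent.H56.SMC.H11

end S_H11Aux

section S_FNR

/-!
# FNR: facets of the Cayley cone with second coordinate `0` are rays

Proof.  `h = vec l 0 v` (`vec_surj`, `h1`).  `hh` on `(0,1;M e_j)`: `v_j ≥ 0`; on `(0,1;M β_k)`: `β_k·v ≥ 0`; on `(1,0;a_i)`: `l + v·a_i ≥ 0`.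
Case `v = 0`: `h = vec l 0 0`; primitive (`hprim`), so `l = ±1`; `r > 0` (otherwise all vectors of the configuration lie in `{u_0 = 0}` and are killed by `h`, fine: then need an `inl` index; but `e` gives only `n+1` vectors, so `hr : 0 < r` is assumed) and `l ≥ 0`: `l = 1`.
Case `v ≠ 0`: some vector of the family `e` is `inl i`: otherwise the `n+1` independent vectors `(0,1;..)` lie in the kernel of `h` inside `{u_0 = 0}`, which has rank `n` (`v ≠ 0`), a contradiction.  So `l + v·a_i = 0` for some `i`, and `l = -min_i v·a_i = -wmin a v`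
(view `v` as a vector of natural numbers).  The vectors in the kernel of `h`: `(1,0;a_i)` with `v·a_i = wmin a v`, `(0,1;0)`, `(0,1;M e_j)` with `v_j = 0`, `(0,1;M β_k)` with `β_k·v = 0`; they have rank `n+1` (contains the `n+1` independent `cA (e k)`; at most `n+1` since killed by `h ≠ 0`).
Forgetting the second coordinate, `(l,l2;q) ↦ (l;q) ∈ ℝ^{1+n}`, has kernel spanned by `(0,1;0)`, which is in the span: the image has rank `n` and is the span in the definition of `RayNormal`.  `gcd v = 1`: `gcd v` divides `wmin a v = v·a_i` and all `v_j`, so it divides `dt h u` for all `u`; `hprim`.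
-/

set_option autoImplicit false

namespace Pool.Agent.H56.SMC

open Finset AddMonoidAlgebra

open H11 in
/-- FNR -/
theorem fnr {n r m : ℕ} (hr : 0 < r) (a : Fin r → (Fin n →₀ ℕ)) (β : Fin m → Fin n → ℤ) (M : ℤ)
    (hM : 0 < M) (h : Lat (n + 2)) (hh : ∀ i, 0 ≤ dt h (cA a (bbM β M) i))
    (hprim : ∃ u, dt h u = 1)
    (hfacet : ∃ e : Fin (n + 1) → Fin r ⊕ (Option (Fin n) ⊕ Fin m),
      (∀ k, dt h (cA a (bbM β M) (e k)) = 0) ∧
      LinearIndependent ℤ (fun k => cA a (bbM β M) (e k)))
    (h1 : h (Fin.succ 0) = 0) :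
    h = vec 1 0 0 ∨ ∃ v : Fin n → ℕ, RayNormal a β v ∧ univ.gcd v = 1 ∧
      h = vec (-(H22.wmin a v : ℤ)) 0 (fun j => (v j : ℤ)) := by
  classical
  obtain ⟨e, he0, he⟩ := hfacet
  obtain ⟨l, q, hvec⟩ : ∃ (l : ℤ) (q : Fin n → ℤ), h = vec l 0 q :=
    ⟨h 0, fun j => h j.succ.succ, by rw [← h1]; exact vec_surj h⟩
  have hA : ∀ i, dt h (cA a (bbM β M) (Sum.inl i)) = l + ∑ j, q j * (a i j : ℤ) := by
    intro i
    rw [hvec]
    simp only [cA, dt_vec]
    ring
  have hB : ∀ k, dt h (cA a (bbM β M) (Sum.inr k)) = ∑ j, q j * bbM β M k j := by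
    intro k
    rw [hvec]
    simp only [cA, dt_vec]
    ring
  have hB1 : ∀ j, dt h (cA a (bbM β M) (Sum.inr (Sum.inl (some j)))) = M * q j := by
    intro j
    rw [hB]
    simp [bbM, ev, Pi.single_apply, mul_comm]
  have hB2 : ∀ k, dt h (cA a (bbM β M) (Sum.inr (Sum.inr k))) = M * ∑ j, β k j * q j := by
    intro k
    rw [hB, mul_sum]
    exact sum_congr rfl fun j _ => by simp only [bbM, Pi.smul_apply, smul_eq_mul]; ring
  obtain ⟨v, hv⟩ : ∃ v : Fin n → ℕ, ∀ j, q j = v j := by
    refine ⟨fun j => (q j).toNat, fun j => (Int.toNat_of_nonneg ?_).symm⟩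
    have h2 := hh (Sum.inr (Sum.inl (some j)))
    rw [hB1] at h2
    exact nonneg_of_mul_nonneg_right h2 hM
  have hqv : q = fun j => (v j : ℤ) := funext hv
  have hβ : ∀ k, 0 ≤ ∑ j, β k j * (v j : ℤ) := by
    intro k
    have h2 := hh (Sum.inr (Sum.inr k))
    rw [hB2] at h2
    have h3 := nonneg_of_mul_nonneg_right h2 hM
    rwa [hqv] at h3
  by_cases hv0 : v = 0
  · left
    have hq0 : q = 0 := by rw [hqv, hv0]; rfl
    have hl : 0 ≤ l := by
      have h2 := hh (Sum.inl ⟨0, hr⟩)
      rw [hA, hq0] at h2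
      simpa using h2
    obtain ⟨u, hu⟩ := hprim
    rw [hvec, hq0, vec_surj u, dt_vec] at hu
    simp only [zero_mul, Pi.zero_apply, sum_const_zero, add_zero] at hu
    have h3 : l = 1 := by
      rcases Int.eq_one_or_neg_one_of_mul_eq_one hu with h4 | h4
      · exact h4
      · omega
    rw [hvec, hq0, h3]
  · right
    -- some vector of the family is an `inl`
    have hinl : ∃ k i, e k = Sum.inl i := by
      by_contra hcon
      have hinr : ∀ k, ∃ j, e k = Sum.inr j := by
        intro k
        rcases hk : e k with i | j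
        · exact absurd ⟨k, i, hk⟩ hcon
        · exact ⟨j, rfl⟩
      set x : Fin (n + 1) → Lat (n + 2) := fun k => cA a (bbM β M) (e k) with hx
      have hx0 : ∀ k, dt (ev 0) (x k) = 0 := by
        intro k
        obtain ⟨j, hj⟩ := hinr k
        rw [dt_ev]
        simp [hx, hj, cA, vec]
      set h' : Lat (n + 2) := vec 0 0 q with hh'
      have hx' : ∀ k, dt h' (x k) = 0 := by
        intro k
        obtain ⟨j, hj⟩ := hinr k
        have h2 := he0 k
        rw [hj, hB] at h2
        simp only [hx, hj, hh', cA, dt_vec]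
        rw [h2]; ring
      have hspan : ∀ (g : Lat (n + 2)) (s : ℕ) (y : Fin s → Lat (n + 2)),
          (∀ k, dt g (y k) = 0) → ∀ z ∈ Submodule.span ℤ (Set.range y), dt g z = 0 := by
        intro g s y hy z hz
        rw [Submodule.mem_span_range_iff_exists_fun] at hz
        obtain ⟨c, rfl⟩ := hz
        rw [dt_sum]
        exact sum_eq_zero fun k _ => by rw [dt_zsmul, hy, mul_zero]
      have li1 : LinearIndependent ℤ (Fin.cons (ev 0) x : Fin (n + 2) → Lat (n + 2)) := by
        refine LinearIndependent.finCons' _ _ he ?_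
        intro c y hy hcy
        have h2 := congrArg (dt (ev 0)) hcy
        rw [dt_add, dt_zsmul, dt_zero, hspan _ _ _ hx0 y hy, dt_ev] at h2
        simpa [ev] using h2
      have li2 : LinearIndependent ℤ
          (Fin.cons h' (Fin.cons (ev 0) x) : Fin (n + 3) → Lat (n + 2)) := by
        refine LinearIndependent.finCons' _ _ li1 ?_
        intro c y hy hcy
        have h2 := congrArg (dt h') hcy
        have h3 : dt h' y = 0 := by
          refine hspan _ _ _ (Fin.cases ?_ (fun k => ?_)) y hy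
          · rw [Fin.cons_zero, dt_comm, dt_ev]
            simp [hh', vec]
          · rw [Fin.cons_succ]; exact hx' k
        rw [dt_add, dt_zsmul, dt_zero, h3, add_zero] at h2
        rcases mul_eq_zero.1 h2 with h4 | h4
        · exact h4
        · exfalso
          have h5 := dt_self _ h4
          apply hv0
          funext j
          have h6 := congrFun h5 j.succ.succ
          simp only [hh', vec, Fin.cons_succ, Pi.zero_apply] at h6
          rw [hv j] at h6
          exact_mod_cast h6
      have h7 := li2.fintype_card_le_finrank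
      simp at h7
    obtain ⟨k1, i1, hk1⟩ := hinl
    have hi1 : l + ∑ j, q j * (a i1 j : ℤ) = 0 := by
      rw [← hA, ← hk1]; exact he0 k1
    have hcast : ∀ i, ((∑ j, a i j * v j : ℕ) : ℤ) = ∑ j, q j * (a i j : ℤ) := by
      intro i
      rw [hqv]
      push_cast
      exact sum_congr rfl fun j _ => mul_comm _ _
    have hmin : ∑ j, a i1 j * v j = H22.wmin a v := by
      refine le_antisymm ?_ (wmin_le a v i1)
      obtain ⟨i2, hi2⟩ := exists_wmin hr a v
      rw [← hi2]
      have h2 := hh (Sum.inl i2)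
      rw [hA, ← hcast] at h2
      rw [← hcast] at hi1
      omega
    have hl : l = -(H22.wmin a v : ℤ) := by
      rw [← hmin, hcast]; omega
    refine ⟨v, ⟨hv0, hβ, ?_⟩, ?_, ?_⟩
    · apply le_antisymm
      · refine rank_upper _ (Sum.elim (fun _ => (l : ℝ)) (fun j => (v j : ℝ))) ?_ ?_
        · intro h2
          apply hv0
          funext j
          have h3 := congrFun h2 (Sum.inr j)
          simpa using h3
        · rintro y ((⟨i, hi, rfl⟩ | ⟨j, hj, rfl⟩) | ⟨k, hk, rfl⟩)
          · simp only [Fintype.sum_sum_type, H22.rowR, Sum.elim_inl, Sum.elim_inr,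
              univ_unique, sum_singleton, mul_one]
            rw [hl, ← hi]
            push_cast
            rw [neg_add_eq_zero]
            exact sum_congr rfl fun j _ => mul_comm _ _
          · simp [Pi.single_apply, hj]
          · simp only [Fintype.sum_sum_type, Sum.elim_inl, Sum.elim_inr, univ_unique,
              sum_singleton, mul_zero, zero_add]
            have h2 : ((∑ j, β k j * (v j : ℤ) : ℤ) : ℝ) = 0 := by rw [hk]; simp
            push_cast at h2
            rw [← h2]
            exact sum_congr rfl fun j _ => mul_comm _ _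
      · refine rank_lower (fun k => cA a (bbM β M) (e k)) he _ ?_
        intro k
        have h2 := he0 k
        rcases hk : e k with i | (_ | j) | k'
        · rw [hk, hA, ← hcast] at h2
          apply Submodule.subset_span
          left; left
          refine ⟨i, by omega, ?_⟩
          funext y
          rcases y with _ | j <;> simp [fgt, cA, vec, H22.rowR]
        · convert Submodule.zero_mem _
          rename_i y
          rcases y with _ | j <;> simp [fgt, cA, vec, bbM]
        · rw [hk, hB1] at h2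
          have h3 : q j = 0 := (mul_eq_zero.1 h2).resolve_left hM.ne'
          have h4 : v j = 0 := by
            rw [hv j] at h3
            exact_mod_cast h3
          have h5 : (fun y => ((cA a (bbM β M) (Sum.inr (Sum.inl (some j))) (fgt n y) : ℤ) : ℝ)) =
              (M : ℝ) • (Sum.elim (fun _ => 0) (Pi.single j 1) : Unit ⊕ Fin n → ℝ) := by
            funext y
            rcases y with _ | j'
            · simp [fgt, cA, vec]
            · simp [fgt, cA, vec, bbM, ev, Pi.single_apply]
          rw [h5]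
          apply Submodule.smul_mem
          apply Submodule.subset_span
          left; right
          exact ⟨j, h4, rfl⟩
        · rw [hk, hB2] at h2
          have h3 : ∑ j, β k' j * q j = 0 := (mul_eq_zero.1 h2).resolve_left hM.ne'
          have h5 : (fun y => ((cA a (bbM β M) (Sum.inr (Sum.inr k')) (fgt n y) : ℤ) : ℝ)) =
              (M : ℝ) • (Sum.elim (fun _ => 0) (fun j => (β k' j : ℝ)) : Unit ⊕ Fin n → ℝ) := by
            funext y
            rcases y with _ | j'
            · simp [fgt, cA, vec]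
            · simp [fgt, cA, vec, bbM]
          rw [h5]
          apply Submodule.smul_mem
          apply Submodule.subset_span
          right
          exact ⟨k', by rw [← h3, hqv], rfl⟩
    · obtain ⟨u, hu⟩ := hprim
      have h2 : ∀ j, ((univ.gcd v : ℕ) : ℤ) ∣ q j := by
        intro j
        rw [hv j]
        exact_mod_cast Finset.gcd_dvd (mem_univ j)
      have h3 : ((univ.gcd v : ℕ) : ℤ) ∣ l := by
        rw [hl, ← hmin, hcast, dvd_neg]
        exact dvd_sum fun j _ => Dvd.dvd.mul_right (h2 j) _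
      have h4 : ((univ.gcd v : ℕ) : ℤ) ∣ 1 := by
        rw [← hu, hvec, vec_surj u, dt_vec]
        refine dvd_add (dvd_add (Dvd.dvd.mul_right h3 _) (by simp))
          (dvd_sum fun j _ => Dvd.dvd.mul_right (h2 j) _)
      have h5 : univ.gcd v ∣ 1 := by exact_mod_cast h4
      exact Nat.dvd_one.1 h5
    · rw [hvec, hl, hqv]

end Pool.Agent.H56.SMC

end S_FNR

section S_RAYZ

/-!
# RAYZ: rays with `N(v) = 0` (no `β`)

Proof.  `r > 0` (otherwise the span is that of the `(0,e_j)`, `v_j = 0`, of dimension `< n`).  All exponents `a_i` on the face of `v` satisfy `a_i·v = 0`, so all the vectors spanning vanish on `supp v`: `n ≤ 1 + (n - |supp v|)`, `|supp v| = 1`, `v = c e_k`, `gcd v = 1`: `v = e_k`, and `a_ik = 0` for the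
`i` at which the minimum `0` is attained.
-/

set_option autoImplicit false

namespace Pool.Agent.H56.SMC

open Finset AddMonoidAlgebra

/-- Two coordinates vanish on a set: the span has codimension at least two. -/
theorem rayz_two {C : Type*} [Fintype C] (A : Set (C → ℝ)) (c1 c2 : C) (hc : c1 ≠ c2)
    (h1 : ∀ y ∈ A, y c1 = 0) (h2 : ∀ y ∈ A, y c2 = 0) :
    Module.finrank ℝ (Submodule.span ℝ A) + 2 ≤ Fintype.card C := by
  classical
  let f : (C → ℝ) →ₗ[ℝ] (ℝ × ℝ) := (LinearMap.proj c1).prod (LinearMap.proj c2)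
  have hf : Function.Surjective f := by
    rintro ⟨p, q⟩
    refine ⟨Pi.single c1 p + Pi.single c2 q, ?_⟩
    simp [f, hc, hc.symm]
  have hle : Submodule.span ℝ A ≤ LinearMap.ker f := by
    rw [Submodule.span_le]
    intro y hy
    simp [f, h1 y hy, h2 y hy]
  have h3 := Submodule.finrank_mono hle
  have h4 := LinearMap.finrank_range_add_finrank_ker f
  rw [LinearMap.range_eq_top.2 hf, finrank_top] at h4
  simp at h4
  omega

/-- RAYZ -/
theorem rayz {n r : ℕ} (a : Fin r → (Fin n →₀ ℕ)) (v : Fin n → ℕ)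
    (hv : RayNormal a (Fin.elim0 : Fin 0 → Fin n → ℤ) v) (hg : univ.gcd v = 1)
    (h0 : H22.wmin a v = 0) : ∃ k, v = Pi.single k 1 ∧ ∃ i, a i k = 0 := by
  classical
  obtain ⟨hv0, -, hrank⟩ := hv
  -- an index in the support
  obtain ⟨k, hk⟩ : ∃ k, v k ≠ 0 := by
    by_contra hall
    push Not at hall
    exact hv0 (funext hall)
  have hface : ∀ i, ∑ j, a i j * v j = H22.wmin a v → ∀ j, v j ≠ 0 → a i j = 0 := by
    intro i hi j hj
    rw [h0, Finset.sum_eq_zero_iff] at hi
    exact (Nat.mul_eq_zero.1 (hi j (mem_univ j))).resolve_right hj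
  have hcoord : ∀ j, v j ≠ 0 → ∀ y ∈ ({y | ∃ i, ∑ j, a i j * v j = H22.wmin a v ∧
      y = H22.rowR a i} ∪ {y | ∃ j, v j = 0 ∧ y = Sum.elim (fun _ => 0) (Pi.single j 1)} ∪
      {y | ∃ k, ∑ j, (Fin.elim0 : Fin 0 → Fin n → ℤ) k j * v j = 0 ∧
        y = Sum.elim (fun _ => 0) (fun j => (((Fin.elim0 : Fin 0 → Fin n → ℤ) k j : ℤ) : ℝ))} :
        Set (Unit ⊕ Fin n → ℝ)), y (Sum.inr j) = 0 := by
    intro j hj y hy
    rcases hy with (⟨i, hi, rfl⟩ | ⟨j', hj', rfl⟩) | ⟨k, -⟩
    · simp [H22.rowR, hface i hi j hj]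
    · have : j ≠ j' := fun h => hj (h ▸ hj')
      simp [this]
    · exact k.elim0
  have huniq : ∀ j, v j ≠ 0 → j = k := by
    intro j hj
    by_contra hjk
    have := rayz_two _ (Sum.inr j : Unit ⊕ Fin n) (Sum.inr k) (by simpa using hjk)
      (hcoord j hj) (hcoord k hk)
    rw [hrank] at this
    simp at this
    omega
  have hvk : v = Pi.single k (v k) := by
    funext j
    by_cases hj : j = k
    · subst hj; simp
    · rw [Pi.single_eq_of_ne hj]
      by_contra hne
      exact hj (huniq j hne)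
  have hvk1 : v k = 1 := by
    have h1 : v k ∣ univ.gcd v := by
      apply Finset.dvd_gcd
      intro j _
      by_cases hj : v j = 0
      · rw [hj]; exact dvd_zero _
      · rw [huniq j hj]
    rw [hg] at h1
    exact Nat.dvd_one.1 h1
  refine ⟨k, by rw [hvk, hvk1], ?_⟩
  rcases isEmpty_or_nonempty (Fin r) with hr | hr
  · exfalso
    have := rayz_two _ (Sum.inl () : Unit ⊕ Fin n) (Sum.inr k) (by simp) (by
      intro y hy
      rcases hy with (⟨i, hi, rfl⟩ | ⟨j', hj', rfl⟩) | ⟨k, -⟩
      · exact (hr.false i).elim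
      · simp
      · exact k.elim0) (hcoord k hk)
    rw [hrank] at this
    simp at this
    omega
  · obtain ⟨i, hi⟩ : ∃ i, ∑ j, a i j * v j = H22.wmin a v := by
      have := ciInf_mem (fun i : Fin r => ∑ j, a i j * v j)
      obtain ⟨i, hi⟩ := this
      exact ⟨i, hi⟩
    exact ⟨i, hface i hi k hk⟩

end Pool.Agent.H56.SMC

end S_RAYZ

section S_BIGX

/-!
# BIGX: big facets satisfy the criterion (without `β`)

Proof.  `P = ∑ θ_i a_i` with real `θ_i ≥ 0`, `∑ θ_i = 1`, supported on the face (a finite set of points: `Finset.mem_convexHull`/`mem_convexHull_of..`; the map `i ↦ pointR a i` need not be injective, but the image set is finite), `P_k > 1` for `k ∈ K' = {k : w_k ≠ 0, ∃ i, a_ik = 0}`.  Replace the `θ_i` by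
rational numbers: choose `0 < t < 1` with `t P_k > 1` for `k ∈ K'`, and rationals `θ'_i = ⌊N t θ_i⌋/N` with `N` large: `θ'_i ≥ 0`, zero off the face, `∑ θ'_i ≤ t < 1`, `∑ θ'_i a_ik ≥ t P_k - (∑ a_ik)/N ≥ 1` for `k ∈ K'`.
`Crit` with `m = 0`: the last condition is empty.  For a primitive `RayNormal` `v` with `wmin a v = 0` and `v_j = 0` where `w_j = 0`: `v = e_k`, `a_ik = 0` for some `i` by `rayz`, `w_k ≠ 0`, so `wsum v = 1 ≤ ∑ θ'_i a_ik`.
-/

set_option autoImplicit false

namespace Pool.Agent.H56.SMC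

open Finset AddMonoidAlgebra

theorem bigx_hull {n r : ℕ} (a : Fin r → (Fin n →₀ ℕ)) (T : Set (Fin r)) (P : Fin n → ℝ)
    (hP : P ∈ convexHull ℝ (H22.pointR a '' T)) :
    ∃ θ : Fin r → ℝ, (∀ i, 0 ≤ θ i) ∧ (∀ i, θ i ≠ 0 → i ∈ T) ∧ ∑ i, θ i = 1 ∧
      ∀ k, P k = ∑ i, θ i * (a i k : ℝ) := by
  classical
  let C : Set (Fin n → ℝ) := {P | ∃ θ : Fin r → ℝ, (∀ i, 0 ≤ θ i) ∧ (∀ i, θ i ≠ 0 → i ∈ T) ∧
    ∑ i, θ i = 1 ∧ ∀ k, P k = ∑ i, θ i * (a i k : ℝ)}
  have hC : Convex ℝ C := by
    rintro x ⟨θ, h1, h2, h3, h4⟩ y ⟨θ', h1', h2', h3', h4'⟩ s t hs ht hst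
    refine ⟨fun i => s * θ i + t * θ' i, ?_, ?_, ?_, ?_⟩
    · intro i
      have := mul_nonneg hs (h1 i)
      have := mul_nonneg ht (h1' i)
      simp only
      linarith
    · intro i hi
      by_contra hT
      apply hi
      have e1 : θ i = 0 := by
        by_contra h
        exact hT (h2 i h)
      have e2 : θ' i = 0 := by
        by_contra h
        exact hT (h2' i h)
      simp [e1, e2]
    · rw [sum_add_distrib, ← mul_sum, ← mul_sum, h3, h3']
      linarith
    · intro k
      simp only [Pi.add_apply, Pi.smul_apply, smul_eq_mul, h4 k, h4' k, mul_sum]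
      rw [← sum_add_distrib]
      exact sum_congr rfl fun i _ => by ring
  have hsub : H22.pointR a '' T ⊆ C := by
    rintro x ⟨i, hi, rfl⟩
    refine ⟨Pi.single i 1, ?_, ?_, ?_, ?_⟩
    · intro j
      by_cases h : j = i
      · subst h; simp
      · simp [h]
    · intro j hj
      by_cases h : j = i
      · subst h; exact hi
      · simp [h] at hj
    · simp
    · intro k
      simp [H22.pointR, Pi.single_apply]
  exact convexHull_min hsub hC hP

/-- BIGX -/
theorem bigx {n r : ℕ} (a : Fin r → (Fin n →₀ ℕ)) (w : Fin n → ℕ) (hb : Big a w) :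
    ∃ θ : Fin r → ℚ, Crit a w (Fin.elim0 : Fin 0 → Fin n → ℤ) θ := by
  classical
  obtain ⟨P, hP, hbig⟩ := hb
  obtain ⟨θ, h1, h2, h3, h4⟩ := bigx_hull a _ P hP
  -- the number t
  have ht : ∀ᶠ t : ℝ in nhdsWithin 1 (Set.Iio 1), (∀ k, w k ≠ 0 → (∃ i, a i k = 0) → 1 < t * P k) ∧ 0 < t ∧ t < 1 := by
    have e1 : ∀ k : Fin n, ∀ᶠ t : ℝ in nhdsWithin 1 (Set.Iio 1), w k ≠ 0 → (∃ i, a i k = 0) → 1 < t * P k := by
      intro k
      by_cases hk : w k ≠ 0 ∧ (∃ i, a i k = 0)
      · have hc : Filter.Tendsto (fun t : ℝ => t * P k) (nhdsWithin 1 (Set.Iio 1)) (nhds (1 * P k)) := by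
          apply Filter.Tendsto.mono_left _ nhdsWithin_le_nhds
          exact (continuous_id.mul continuous_const).tendsto 1
        have := hc.eventually (lt_mem_nhds (by rw [one_mul]; exact hbig k hk.1 hk.2))
        exact this.mono fun t ht _ _ => ht
      · exact Filter.Eventually.of_forall fun t h h' => absurd ⟨h, h'⟩ hk
    have e2 : ∀ᶠ t : ℝ in nhdsWithin 1 (Set.Iio 1), 0 < t :=
      nhdsWithin_le_nhds (lt_mem_nhds one_pos)
    have e3 : ∀ᶠ t : ℝ in nhdsWithin 1 (Set.Iio 1), t < 1 := self_mem_nhdsWithin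
    filter_upwards [Filter.eventually_all.2 e1, e2, e3] with t a1 a2 a3
    exact ⟨a1, a2, a3⟩
  obtain ⟨t, ht1, ht0, htlt⟩ := ht.exists
  -- the number N
  have hN : ∀ᶠ N : ℕ in Filter.atTop, (∀ k, w k ≠ 0 → (∃ i, a i k = 0) → (∑ i, (a i k : ℝ)) / N ≤ t * P k - 1) ∧ 0 < N := by
    have e1 : ∀ k : Fin n, ∀ᶠ N : ℕ in Filter.atTop, w k ≠ 0 → (∃ i, a i k = 0) → (∑ i, (a i k : ℝ)) / N ≤ t * P k - 1 := by
      intro k
      by_cases hk : w k ≠ 0 ∧ (∃ i, a i k = 0)
      · have hc : Filter.Tendsto (fun N : ℕ => (∑ i, (a i k : ℝ)) / N) Filter.atTop (nhds 0) :=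
          tendsto_const_div_atTop_nhds_zero_nat _
        have hpos : 0 < t * P k - 1 := by linarith [ht1 k hk.1 hk.2]
        exact (hc.eventually (gt_mem_nhds hpos)).mono fun N hN _ _ => hN.le
      · exact Filter.Eventually.of_forall fun t h h' => absurd ⟨h, h'⟩ hk
    filter_upwards [Filter.eventually_all.2 e1, Filter.eventually_gt_atTop 0] with N a1 a2
    exact ⟨a1, a2⟩
  obtain ⟨N, hN1, hN0⟩ := hN.exists
  have hNr : (0 : ℝ) < N := by exact_mod_cast hN0
  let θ' : Fin r → ℚ := fun i => (⌊(N : ℝ) * (t * θ i)⌋₊ : ℚ) / N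
  have hle : ∀ i, ((θ' i : ℚ) : ℝ) ≤ t * θ i := by
    intro i
    simp only [θ']
    push_cast
    rw [div_le_iff₀ hNr]
    have := Nat.floor_le (a := (N : ℝ) * (t * θ i)) (by have := h1 i; positivity)
    linarith
  have hge : ∀ i, t * θ i - 1 / N ≤ ((θ' i : ℚ) : ℝ) := by
    intro i
    simp only [θ']
    push_cast
    rw [le_div_iff₀ hNr, sub_mul, one_div, inv_mul_cancel₀ hNr.ne']
    have := Nat.lt_floor_add_one ((N : ℝ) * (t * θ i))
    linarith
  refine ⟨θ', fun k => k.elim0, ?_, ?_, ?_, ?_⟩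
  · intro i
    simp only [θ']
    positivity
  · intro i hi
    have : θ i ≠ 0 := by
      intro h
      apply hi
      simp [θ', h]
    exact h2 i this
  · have : ((∑ i, θ' i : ℚ) : ℝ) < 1 := by
      push_cast
      calc ∑ i, ((θ' i : ℚ) : ℝ) ≤ ∑ i, t * θ i := sum_le_sum fun i _ => hle i
        _ = t := by rw [← mul_sum, h3, mul_one]
        _ < 1 := htlt
    exact_mod_cast this
  · intro v hv hg hvw
    refine ⟨?_, fun ⟨k, _⟩ => k.elim0⟩
    intro h0
    obtain ⟨k, rfl, hk⟩ := rayz a v hv hg h0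
    have hwk : w k ≠ 0 := by
      intro h
      have := hvw k h
      simp at this
    have hs : H22.wsum (Pi.single k 1 : Fin n → ℕ) = 1 := by
      simp [H22.wsum]
    rw [hs]
    have hsum : ∀ i, ∑ j, a i j * (Pi.single k 1 : Fin n → ℕ) j = a i k := by
      intro i
      simp [Pi.single_apply]
    have hreal : (1 : ℝ) ≤ ∑ i, ((θ' i : ℚ) : ℝ) * (a i k : ℝ) := by
      have e1 : ∑ i, (t * θ i - 1 / N) * (a i k : ℝ) ≤ ∑ i, ((θ' i : ℚ) : ℝ) * (a i k : ℝ) :=
        sum_le_sum fun i _ => mul_le_mul_of_nonneg_right (hge i) (Nat.cast_nonneg _)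
      have e2 : ∑ i, (t * θ i - 1 / N) * (a i k : ℝ) = t * P k - (∑ i, (a i k : ℝ)) / N := by
        rw [h4 k, mul_sum, sum_div, ← sum_sub_distrib]
        exact sum_congr rfl fun i _ => by ring
      have e3 := hN1 k hwk hk
      linarith
    have hrat : (1 : ℚ) ≤ ∑ i, θ' i * (a i k : ℚ) := by exact_mod_cast hreal
    push_cast
    convert hrat using 1
    refine sum_congr rfl fun i _ => ?_
    congr 1
    exact_mod_cast hsum i

end Pool.Agent.H56.SMC

end S_BIGX

section S_SIMX

/-!
# SIMX: simplicial facets without other exponents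

Proof.  Let `n' = supCard w`, `i_0, …, i_{n'-1}` the exponents on the face of `w` (`hcard`).  The span in `FacetNormal` has dimension `n` and is spanned by the `n'` vectors `(1,a_i)` and the `n - n'` vectors `(0,e_j)`, `w_j = 0`: so these `n` vectors are linearly independent.
Flag: `F_t = {i_0, …, i_{n'-1-t}}`, `v_t = L w + u_t` with `u_0 = 0`, `v_0 = w`.  For `t ≥ 1` choose `u_t ∈ ℤ^n` with `u_t j = 0` if `w_j = 0`, and an integer `q_t` with `q_t + u_t·a_i = 0` for `i ∈ F_t`, `> 0` for the other `i` on the face (exists because of the linear independence: prescribe the values on the `n'` vectors `(1,a_i)` modulo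
the `e_j`, clear denominators).  For `L` large: `v_t j > 0` where `w_j > 0`, and the minimum of `v_t·a_i` is attained exactly on `F_t` (exponents off the face of `w` have `w·a_i > N(w)`).  Ranks: `(1,a_i)`, `i ∈ F_t`, and the `(0,e_j)` are independent, `n' - t + (n - n') = n - t`.
`IsFlagChoice`: `q t = i_{n'-1-t}` for all `t < n'` (`F_t` minus `F_{t+1}` has one element), so `∑_t a_{q t}` is the sum over all exponents of the face.  For a primitive `RayNormal` `v'` (`m = 0`) with `wmin a v' = 0`, `v'_j = 0` where `w_j = 0`: `rayz`: `v' = e_k`, `∃ i, a_ik = 0`, `w_k ≠ 0`: `wsum v' = 1 < ∑_{i on the face} a_ik` by `hk`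
(the sum is not `0`: otherwise the `n` independent vectors all have `k`-th coordinate `0`; by `hk` it is not `1`).
-/

set_option autoImplicit false

namespace Pool.Agent.H56.SMC

open Finset AddMonoidAlgebra

namespace SIMXaux

open H11

/-- Dual functionals of an independent family. -/
theorem dual_exists {d : ℕ} {s : Type} [Fintype s] (X : s → Lat d)
    (hX : LinearIndependent ℤ X) :
    ∃ D : ℤ, 0 < D ∧ ∀ b : s → ℤ, ∃ g : Lat d, ∀ k, dt g (X k) = D * b k := by
  classical
  have h1 := gram_det X hX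
  set G : Matrix s s ℤ := Matrix.of (fun j k => dt (X j) (X k)) with hG
  refine ⟨G.det * G.det, mul_self_pos.2 h1, fun b => ?_⟩
  refine ⟨∑ k, (G.det * G.adjugate.mulVec b k) • X k, fun k => ?_⟩
  have h2 : G.mulVec (G.adjugate.mulVec b) = fun j => G.det * b j := by
    rw [Matrix.mulVec_mulVec, Matrix.mul_adjugate]
    funext j
    simp
  have h3 := congrFun h2 k
  simp only [Matrix.mulVec, dotProduct] at h3
  rw [dt_comm, dt_sum]
  calc ∑ j, dt (X k) ((G.det * G.adjugate.mulVec b j) • X j)
      = G.det * ∑ j, G k j * ∑ x, G.adjugate j x * b x := by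
        rw [mul_sum]
        refine sum_congr rfl fun j _ => ?_
        rw [dt_zsmul]
        simp only [hG, Matrix.of_apply, Matrix.mulVec, dotProduct]
        ring
    _ = G.det * G.det * b k := by rw [h3]; ring

/-- Orthogonal vectors bound the number of independent vectors. -/
theorem ortho_card {d : ℕ} {s : Type} [Fintype s] (X : s → Lat d) (hX : LinearIndependent ℤ X)
    (g1 g2 : Lat d) (h1 : g1 ≠ 0) (h2 : g2 ≠ 0) (h12 : dt g1 g2 = 0)
    (hX1 : ∀ k, dt g1 (X k) = 0) (hX2 : ∀ k, dt g2 (X k) = 0) : Fintype.card s + 2 ≤ d := by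
  classical
  set N := Fintype.card s with hN
  set x : Fin N → Lat d := fun k => X ((Fintype.equivFin s).symm k) with hx
  have hxi : LinearIndependent ℤ x := hX.comp _ (Fintype.equivFin s).symm.injective
  have hspan : ∀ (g : Lat d) (s : ℕ) (y : Fin s → Lat d),
      (∀ k, dt g (y k) = 0) → ∀ z ∈ Submodule.span ℤ (Set.range y), dt g z = 0 := by
    intro g s y hy z hz
    rw [Submodule.mem_span_range_iff_exists_fun] at hz
    obtain ⟨c, rfl⟩ := hz
    rw [dt_sum]
    exact sum_eq_zero fun k _ => by rw [dt_zsmul, hy, mul_zero]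
  have li1 : LinearIndependent ℤ (Fin.cons g1 x : Fin (N + 1) → Lat d) := by
    refine LinearIndependent.finCons' _ _ hxi ?_
    intro c y hy hcy
    have h3 := congrArg (dt g1) hcy
    rw [dt_add, dt_zsmul, dt_zero, hspan _ _ _ (fun k => hX1 _) y hy, add_zero] at h3
    exact (mul_eq_zero.1 h3).resolve_right (fun h => h1 (dt_self _ h))
  have li2 : LinearIndependent ℤ (Fin.cons g2 (Fin.cons g1 x) : Fin (N + 2) → Lat d) := by
    refine LinearIndependent.finCons' _ _ li1 ?_
    intro c y hy hcy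
    have h3 := congrArg (dt g2) hcy
    have h4 : dt g2 y = 0 := by
      refine hspan _ _ _ (Fin.cases ?_ (fun k => ?_)) y hy
      · rw [Fin.cons_zero, dt_comm, h12]
      · rw [Fin.cons_succ]; exact hX2 _
    rw [dt_add, dt_zsmul, dt_zero, h4, add_zero] at h3
    exact (mul_eq_zero.1 h3).resolve_right (fun h => h2 (dt_self _ h))
  have h7 := li2.fintype_card_le_finrank
  rw [Fintype.card_fin, Module.finrank_pi, Fintype.card_fin] at h7
  exact h7

/-- The real vectors. -/
def Yv {n r : ℕ} (a : Fin r → (Fin n →₀ ℕ)) (w : Fin n → ℕ) (A : Finset (Fin r)) :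
    {i // i ∈ A} ⊕ {j // w j = 0} → (Unit ⊕ Fin n → ℝ) :=
  Sum.elim (fun i => H22.rowR a i) (fun j => Sum.elim (fun _ => 0) (Pi.single (j : Fin n) 1))

theorem range_Yv {n r : ℕ} (a : Fin r → (Fin n →₀ ℕ)) (w : Fin n → ℕ) (A : Finset (Fin r))
    (P : Fin r → Prop) (hP : ∀ i, P i ↔ i ∈ A) :
    Set.range (Yv a w A) = ({y | ∃ i, P i ∧ y = H22.rowR a i} ∪
      {y | ∃ j, w j = 0 ∧ y = Sum.elim (fun _ => 0) (Pi.single j 1)} :
        Set (Unit ⊕ Fin n → ℝ)) := by
  ext y
  constructor
  · rintro ⟨⟨i, hi⟩ | ⟨j, hj⟩, rfl⟩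
    · left; exact ⟨i, (hP i).2 hi, rfl⟩
    · right; exact ⟨j, hj, rfl⟩
  · rintro (⟨i, hi, rfl⟩ | ⟨j, hj, rfl⟩)
    · exact ⟨Sum.inl ⟨i, (hP i).1 hi⟩, rfl⟩
    · exact ⟨Sum.inr ⟨j, hj⟩, rfl⟩

theorem card_zero {n : ℕ} (w : Fin n → ℕ) :
    Fintype.card {j // w j = 0} = n - supCard w ∧ supCard w ≤ n := by
  classical
  have h1 := Finset.card_filter_add_card_filter_not (s := (univ : Finset (Fin n)))
    (fun j => w j ≠ 0)
  rw [card_univ, Fintype.card_fin] at h1
  have h2 : Fintype.card {j // w j = 0} = (univ.filter (fun j => ¬ w j ≠ 0)).card := by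
    rw [Fintype.card_subtype]
    congr 1
    ext j; simp
  unfold supCard
  omega

end SIMXaux

open SIMXaux H11 in
/-- SIMX -/
theorem simx {n r : ℕ} (a : Fin r → (Fin n →₀ ℕ)) (w : Fin n → ℕ) (hw : FacetNormal a w)
    (hN : 0 < H22.wmin a w) (hs : Simp a w) :
    ∃ v : ℕ → Fin n → ℕ, CritF a w (Fin.elim0 : Fin 0 → Fin n → ℤ) v := by
  classical
  obtain ⟨hw0, hrk⟩ := hw
  obtain ⟨hcard, hk⟩ := hs
  set F0 : Finset (Fin r) := univ.filter (fun i => ∑ j, a i j * w j = H22.wmin a w) with hF0
  have hF0m : ∀ i, ∑ j, a i j * w j = H22.wmin a w ↔ i ∈ F0 := fun i => by simp [hF0]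
  obtain ⟨hz1, hz2⟩ := card_zero w
  set n' := supCard w with hn'
  -- independence
  have hY : LinearIndependent ℝ (Yv a w F0) := by
    rw [linearIndependent_iff_card_eq_finrank_span, Set.finrank, range_Yv a w F0 _ hF0m, hrk,
      Fintype.card_sum, Fintype.card_coe, hcard, hz1]
    omega
  set X : {i // i ∈ F0} ⊕ {j // w j = 0} → Lat (n + 1) :=
    Sum.elim (fun i => Fin.cons 1 (fun j => (a i j : ℤ))) (fun j => Fin.cons 0 (ev (j : Fin n)))
    with hX
  have hXY0 : ∀ k, Yv a w F0 k (Sum.inl ()) = ((X k 0 : ℤ) : ℝ) := by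
    rintro (i | j) <;> simp [Yv, hX, H22.rowR]
  have hXYs : ∀ k j, Yv a w F0 k (Sum.inr j) = ((X k j.succ : ℤ) : ℝ) := by
    rintro (i | j) j'
    · simp [Yv, hX, H22.rowR]
    · simp [Yv, hX, ev, Pi.single_apply]
  have hXi : LinearIndependent ℤ X := by
    rw [Fintype.linearIndependent_iff]
    intro m hm
    have h1 : ∑ k, ((m k : ℤ) : ℝ) • Yv a w F0 k = 0 := by
      funext y
      rw [Finset.sum_apply]
      rcases y with ⟨⟩ | j
      · simp only [Pi.smul_apply, hXY0, smul_eq_mul, Pi.zero_apply]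
        have h2 := congrFun hm 0
        simp only [Finset.sum_apply, Pi.smul_apply, smul_eq_mul, Pi.zero_apply] at h2
        exact_mod_cast h2
      · simp only [Pi.smul_apply, hXYs, smul_eq_mul, Pi.zero_apply]
        have h2 := congrFun hm j.succ
        simp only [Finset.sum_apply, Pi.smul_apply, smul_eq_mul, Pi.zero_apply] at h2
        exact_mod_cast h2
    intro k
    exact_mod_cast Fintype.linearIndependent_iff.1 hY _ h1 k
  have hdtX1 : ∀ (g : Lat (n + 1)) (i : {i // i ∈ F0}), dt g (X (Sum.inl i)) =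
      g 0 + ∑ j : Fin n, g j.succ * (a i j : ℤ) := by
    intro g i
    simp only [dt, hX, Sum.elim_inl]
    rw [Fin.sum_univ_succ]
    simp
  have hdtX2 : ∀ (g : Lat (n + 1)) (j : {j // w j = 0}), dt g (X (Sum.inr j)) =
      g (j : Fin n).succ := by
    intro g j
    simp only [dt, hX, Sum.elim_inr]
    rw [Fin.sum_univ_succ]
    simp [ev, Pi.single_apply]
  obtain ⟨D, hD, hdual⟩ := dual_exists X hXi
  -- the weight vectors
  have hstep : ∀ A : Finset (Fin r), A ⊆ F0 → A.Nonempty →
      ∃ v : Fin n → ℕ, (∀ j, v j = 0 ↔ w j = 0) ∧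
        ∀ i, (∑ j, a i j * v j = H22.wmin a v ↔ i ∈ A) := by
    intro A hA hne
    obtain ⟨g, hg⟩ := hdual (Sum.elim (fun i => if (i : Fin r) ∈ A then 0 else 1) (fun _ => 0))
    set q := g 0 with hq
    set u : Fin n → ℤ := fun j => g j.succ with hu
    have hu0 : ∀ j, w j = 0 → u j = 0 := by
      intro j hj
      have := hg (Sum.inr ⟨j, hj⟩)
      rw [hdtX2] at this
      simpa using this
    have hgF : ∀ i, i ∈ F0 → ∑ j, u j * (a i j : ℤ) = D * (if i ∈ A then 0 else 1) - q := by
      intro i hi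
      have := hg (Sum.inl ⟨i, hi⟩)
      rw [hdtX1] at this
      simp only [Sum.elim_inl] at this
      rw [← this]
      ring
    set L : ℤ := 1 + |q| + ∑ j, |u j| + ∑ i, |∑ j, u j * (a i j : ℤ)| with hL
    have hLu : ∀ j, 1 - u j ≤ L ∧ 1 + |u j| ≤ L := by
      intro j
      have e1 : |u j| ≤ ∑ j, |u j| :=
        single_le_sum (f := fun j => |u j|) (fun v _ => abs_nonneg _) (mem_univ j)
      have e2 : 0 ≤ ∑ i, |∑ j, u j * (a i j : ℤ)| := sum_nonneg fun i _ => abs_nonneg _
      have e3 := abs_nonneg q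
      have e4 := neg_abs_le (u j)
      constructor <;> omega
    have hLi : ∀ i, -q - ∑ j, u j * (a i j : ℤ) < L := by
      intro i
      have e1 : |∑ j, u j * (a i j : ℤ)| ≤ ∑ i, |∑ j, u j * (a i j : ℤ)| :=
        single_le_sum (f := fun i => |∑ j, u j * (a i j : ℤ)|) (fun v _ => abs_nonneg _)
          (mem_univ i)
      have e2 : 0 ≤ ∑ j, |u j| := sum_nonneg fun i _ => abs_nonneg _
      have e3 := neg_abs_le q
      have e4 := neg_abs_le (∑ j, u j * (a i j : ℤ))
      omega
    have hv0 : ∀ j, 0 ≤ L * w j + u j ∧ (L * w j + u j = 0 ↔ w j = 0) := by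
      intro j
      by_cases hj : w j = 0
      · rw [hj, hu0 j hj]; simp
      · have e1 : (1 : ℤ) ≤ w j := by exact_mod_cast Nat.one_le_iff_ne_zero.2 hj
        have e2 := (hLu j).1
        have e3 := (hLu j).2
        have e4 := abs_nonneg (u j)
        have e5 : L ≤ L * w j := by nlinarith
        refine ⟨by omega, ⟨fun h => ?_, fun h => absurd h hj⟩⟩
        omega
    refine ⟨fun j => (L * w j + u j).toNat, fun j => ?_, ?_⟩
    · have e1 := hv0 j
      rw [Int.toNat_eq_zero]
      constructor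
      · intro h; exact e1.2.1 (le_antisymm h e1.1)
      · intro h; exact (e1.2.2 h).le
    · set v : Fin n → ℕ := fun j => (L * w j + u j).toNat with hv
      have hvc : ∀ j, (v j : ℤ) = L * w j + u j := fun j => Int.toNat_of_nonneg (hv0 j).1
      have hval : ∀ i, ((∑ j, a i j * v j : ℕ) : ℤ) =
          L * ((∑ j, a i j * w j : ℕ) : ℤ) + ∑ j, u j * (a i j : ℤ) := by
        intro i
        push_cast
        simp only [hvc]
        rw [mul_sum, ← sum_add_distrib]
        exact sum_congr rfl fun j _ => by ring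
      have hval1 : ∀ i, i ∈ A → ((∑ j, a i j * v j : ℕ) : ℤ) = L * H22.wmin a w - q := by
        intro i hi
        rw [hval, (hF0m i).2 (hA hi), hgF i (hA hi), if_pos hi]
        ring
      have hval2 : ∀ i, i ∉ A → L * H22.wmin a w - q < ((∑ j, a i j * v j : ℕ) : ℤ) := by
        intro i hi
        rw [hval]
        by_cases hiF : i ∈ F0
        · rw [(hF0m i).2 hiF, hgF i hiF, if_neg hi]
          linarith
        · have e1 : ∑ j, a i j * w j ≠ H22.wmin a w := fun h => hiF ((hF0m i).1 h)
          have e2 := wmin_le a w i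
          have e3 : (H22.wmin a w : ℤ) + 1 ≤ ((∑ j, a i j * w j : ℕ) : ℤ) := by
            exact_mod_cast Nat.lt_of_le_of_ne e2 (Ne.symm e1)
          have e4 := hLi i
          have e5 : 0 ≤ L := by
            have e2 : 0 ≤ ∑ j, |u j| := sum_nonneg fun i _ => abs_nonneg _
            have e2 : 0 ≤ ∑ i, |∑ j, u j * (a i j : ℤ)| := sum_nonneg fun i _ => abs_nonneg _
            have e3 := abs_nonneg q
            omega
          nlinarith
      have hmin : (H22.wmin a v : ℤ) = L * H22.wmin a w - q := by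
        obtain ⟨i0, hi0⟩ := hne
        apply le_antisymm
        · rw [← hval1 i0 hi0]
          exact_mod_cast wmin_le a v i0
        · obtain ⟨i2, hi2⟩ := exists_wmin (Fin.pos i0) a v
          rw [← hi2]
          by_cases h : i2 ∈ A
          · exact (hval1 i2 h).symm.le
          · exact (hval2 i2 h).le
      intro i
      constructor
      · intro h
        by_contra hi
        have e1 := hval2 i hi
        rw [← hmin, h] at e1
        exact lt_irrefl _ e1
      · intro hi
        have e1 := hval1 i hi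
        rw [← hmin] at e1
        exact_mod_cast e1
  -- the flag
  have hn'0 : 0 < n' := by
    rw [hn', supCard, card_pos]
    obtain ⟨j, hj⟩ := Function.ne_iff.1 hw0
    exact ⟨j, mem_filter.2 ⟨mem_univ _, hj⟩⟩
  have ecard : Fintype.card (Fin n') = Fintype.card {i // i ∈ F0} := by
    rw [Fintype.card_fin, Fintype.card_coe, hcard]
  set f : Fin n' ≃ {i // i ∈ F0} := Fintype.equivOfCardEq ecard with hf
  have hfinj : Function.Injective (fun k => ((f k : {i // i ∈ F0}) : Fin r)) :=
    Subtype.val_injective.comp f.injective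
  set A : ℕ → Finset (Fin r) := fun t =>
    (univ.filter (fun k : Fin n' => k.val < n' - t)).image (fun k => ((f k : {i // i ∈ F0}) : Fin r))
    with hA
  have hAm : ∀ t i, i ∈ A t ↔ ∃ k : Fin n', k.val < n' - t ∧ ((f k : {i // i ∈ F0}) : Fin r) = i := by
    intro t i
    simp [hA]
  have hAF : ∀ t, A t ⊆ F0 := by
    intro t i hi
    obtain ⟨k, -, rfl⟩ := (hAm t i).1 hi
    exact (f k).2
  have hA0 : A 0 = F0 := by
    apply subset_antisymm (hAF 0)
    intro i hi
    refine (hAm 0 i).2 ⟨f.symm ⟨i, hi⟩, by simp, by simp⟩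
  have hAcard : ∀ t, t < n' → (A t).card = n' - t := by
    intro t ht
    rw [hA]
    simp only
    rw [card_image_of_injective _ hfinj]
    have : (univ.filter (fun k : Fin n' => k.val < n' - t)) =
        (univ : Finset (Fin (n' - t))).map (Fin.castLEEmb (Nat.sub_le n' t)) := by
      ext k
      simp only [mem_filter, mem_univ, true_and, mem_map, Fin.castLEEmb_apply]
      constructor
      · intro h; exact ⟨⟨k, h⟩, rfl⟩
      · rintro ⟨k', rfl⟩; exact k'.2
    rw [this, card_map, card_univ, Fintype.card_fin]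
  have hch : ∀ t, ∃ v : Fin n → ℕ, t < n' → ((t = 0 → v = w) ∧ (∀ j, v j = 0 ↔ w j = 0) ∧
      ∀ i, (∑ j, a i j * v j = H22.wmin a v ↔ i ∈ A t)) := by
    intro t
    by_cases ht : t = 0
    · refine ⟨w, fun _ => ⟨fun _ => rfl, fun _ => Iff.rfl, ?_⟩⟩
      rw [ht, hA0]
      exact hF0m
    · by_cases htn : t < n'
      · obtain ⟨v, hv⟩ := hstep (A t) (hAF t) (card_pos.1 (by rw [hAcard t htn]; omega))
        exact ⟨v, fun _ => ⟨fun h => absurd h ht, hv⟩⟩
      · exact ⟨w, fun h => absurd h htn⟩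
  choose v hv using hch
  refine ⟨v, ⟨(hv 0 hn'0).1 rfl, fun t ht => ⟨(hv t ht).2.1, fun k => k.elim0, ?_⟩,
    fun t ht i hi => ?_⟩, ?_⟩
  · -- ranks
    have h1 : ({y | ∃ i, ∑ j, a i j * v t j = H22.wmin a (v t) ∧ y = H22.rowR a i} ∪
        {y | ∃ j, w j = 0 ∧ y = Sum.elim (fun _ => 0) (Pi.single j 1)} :
          Set (Unit ⊕ Fin n → ℝ)) = Set.range (Yv a w (A t)) :=
      (range_Yv a w (A t) _ (hv t ht).2.2).symm
    rw [h1]
    have h2 : LinearIndependent ℝ (Yv a w (A t)) := by
      have h3 : Yv a w (A t) = (Yv a w F0) ∘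
          (Sum.map (fun i : {i // i ∈ A t} => (⟨i, hAF t i.2⟩ : {i // i ∈ F0})) id) := by
        funext k
        rcases k with i | j <;> rfl
      rw [h3]
      apply hY.comp
      apply Function.Injective.sumMap
      · intro i i' h
        exact Subtype.ext (congrArg (fun z : {i // i ∈ F0} => (z : Fin r)) h)
      · exact Function.injective_id
    rw [finrank_span_eq_card h2, Fintype.card_sum, Fintype.card_coe, hAcard t ht, hz1]
    omega
  · have h1 := ((hv (t + 1) ht).2.2 i).1 hi
    refine ((hv t (by omega)).2.2 i).2 ?_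
    obtain ⟨k, hk1, hk2⟩ := (hAm _ _).1 h1
    exact (hAm _ _).2 ⟨k, by omega, hk2⟩
  · -- the inequality
    intro q hq v' hv' hgcd hv'0
    refine ⟨fun hmin0 => ?_, ?_⟩
    · obtain ⟨k, hvk, hki⟩ := rayz a v' hv' hgcd hmin0
      have hwk : w k ≠ 0 := by
        intro h
        have := hv'0 k h
        rw [hvk] at this
        simp at this
      -- the choice
      have hqf : ∀ t : Fin n', q t = ((f (Fin.rev t) : {i // i ∈ F0}) : Fin r) := by
        intro t
        obtain ⟨h1, h2⟩ := hq t t.2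
        obtain ⟨k', hk1, hk2⟩ := (hAm _ _).1 (((hv t t.2).2.2 _).1 h1)
        have h3 : k' = Fin.rev t := by
          apply Fin.ext
          rw [Fin.val_rev]
          by_cases ht : (t : ℕ) + 1 < n'
          · have h4 := h2 ht
            by_contra hne
            apply h4
            refine ((hv (t + 1) ht).2.2 _).2 ((hAm _ _).2 ⟨k', ?_, hk2⟩)
            omega
          · have := t.2
            omega
        rw [← hk2, h3]
      have hsum : ∑ t ∈ range (supCard w), ∑ j, a (q t) j * v' j = ∑ i ∈ F0, a i k := by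
        have h1 : ∀ i, ∑ j, a i j * v' j = a i k := by
          intro i
          rw [hvk]
          simp [Pi.single_apply]
        simp only [h1]
        rw [← hn', Finset.sum_range]
        simp only [hqf]
        rw [← Finset.sum_coe_sort F0 (fun i => a i k),
          ← Equiv.sum_comp f (fun i : {i // i ∈ F0} => a (i : Fin r) k)]
        exact Equiv.sum_comp Fin.revPerm (fun t : Fin n' => a ((f t : {i // i ∈ F0}) : Fin r) k)
      rw [hsum]
      have hws : H22.wsum v' = 1 := by
        rw [hvk]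
        simp [H22.wsum, Pi.single_apply]
      rw [hws]
      have hne1 := hk k hwk hki
      have hne0 : ∑ i ∈ F0, a i k ≠ 0 := by
        intro h0
        have h1 : ∀ i ∈ F0, a i k = 0 := fun i hi => (sum_eq_zero_iff.1 h0) i hi
        have h2 := ortho_card X hXi (Fin.cons 0 (ev k))
          (Fin.cons (-(H22.wmin a w : ℤ)) (fun j => if j = k then 0 else (w j : ℤ))) ?_ ?_ ?_ ?_ ?_
        · rw [Fintype.card_sum, Fintype.card_coe, hcard, hz1] at h2
          omega
        · intro h
          have := congrFun h k.succ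
          simp [ev] at this
        · intro h
          have := congrFun h 0
          simp only [Fin.cons_zero, Pi.zero_apply, neg_eq_zero] at this
          omega
        · simp only [dt]
          rw [Fin.sum_univ_succ]
          simp only [Fin.cons_zero, Fin.cons_succ, ev, Pi.single_apply, zero_mul, zero_add]
          refine sum_eq_zero fun x _ => ?_
          split_ifs <;> simp
        · rintro (i | j)
          · rw [hdtX1]
            simp [ev, Pi.single_apply, h1 i i.2]
          · rw [hdtX2]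
            simp only [Fin.cons_succ, ev, Pi.single_apply]
            rw [if_neg]
            intro h
            exact hwk (h ▸ j.2)
        · rintro (i | j)
          · rw [hdtX1]
            simp only [Fin.cons_zero, Fin.cons_succ]
            rw [← (hF0m i).2 i.2]
            push_cast
            rw [neg_add_eq_zero]
            refine sum_congr rfl fun j _ => ?_
            split_ifs with hj
            · rw [hj, h1 i i.2]; simp
            · ring
          · rw [hdtX2]
            simp only [Fin.cons_succ]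
            split_ifs
            · rfl
            · exact_mod_cast j.2
      omega
    · rintro ⟨k, -⟩
      exact k.elim0

end Pool.Agent.H56.SMC

end S_SIMX

section S_LAM

/-!
# LAM: algebraically independent elements over a countable subring

Proof.  `k0 = Algebra.adjoin ℚ T` is countable (finitely generated), so a transcendence basis of `ℂ` over `k0` is uncountable (`Algebra.IsAlgebraic.cardinalMk_le_max` or
`IsAlgClosed.cardinal_le_max_transcendence_basis`), in particular infinite; take an injection `ϑ → basis`.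
-/

set_option autoImplicit false

namespace Pool.Agent.H56.SMC

open Finset AddMonoidAlgebra

open Cardinal in
theorem LAM_countable (T : Finset ℂ) : Countable (Algebra.adjoin ℚ (T : Set ℂ)) := by
  have h1 : Countable (MvPolynomial (T : Set ℂ) ℚ) := by
    rw [← Cardinal.mk_le_aleph0_iff]
    refine MvPolynomial.cardinalMk_le_max.trans ?_
    have h2 : #ℚ ≤ ℵ₀ := Cardinal.mk_le_aleph0
    have h3 : #(T : Set ℂ) ≤ ℵ₀ := Cardinal.mk_le_aleph0
    simp only [max_le_iff]
    exact ⟨⟨h2, h3⟩, le_rfl⟩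
  have h4 : Countable (MvPolynomial.aeval (Subtype.val : ↥(T : Set ℂ) → ℂ) :
      MvPolynomial (T : Set ℂ) ℚ →ₐ[ℚ] ℂ).range :=
    Set.countable_coe_iff.2 (Set.countable_range _)
  rw [Algebra.adjoin_eq_range]
  exact h4

open Cardinal in
/-- LAM -/
theorem lam_exists (T : Finset ℂ) (ϑ : Type) [Fintype ϑ] :
    ∃ lam : ϑ → ℂ, AlgebraicIndependent (Algebra.adjoin ℚ (T : Set ℂ)) lam := by
  have hc := LAM_countable T
  obtain ⟨ι, x, hx⟩ := exists_isTranscendenceBasis' (Algebra.adjoin ℚ (T : Set ℂ)) ℂ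
  have h1 := IsAlgClosed.cardinal_le_max_transcendence_basis' x hx
  have h2 : ℵ₀ < #ι := by
    by_contra hcon
    rw [not_lt] at hcon
    have h3 : #ℂ ≤ ℵ₀ := h1.trans (max_le (max_le Cardinal.mk_le_aleph0 hcon) le_rfl)
    exact absurd h3 (not_le.2 (by rw [Cardinal.mk_complex]; exact Cardinal.aleph0_lt_continuum))
  have h3 : Infinite ι := Cardinal.infinite_iff.2 h2.le
  obtain ⟨e⟩ : Nonempty (ϑ ↪ ι) := by
    refine ⟨(Fintype.equivFin ϑ).toEmbedding.trans ((Fin.valEmbedding).trans (Infinite.natEmbedding ι))⟩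
  exact ⟨x ∘ e, hx.1.comp e e.injective⟩

end Pool.Agent.H56.SMC

end S_LAM

section S_RFIN

/-!
# RFIN: finitely many primitive rays

Proof.  Map `v` to the finite set of all indices active at `v`: `({i : a_i·v = wmin a v}, {j : v_j = 0}, {k : β_k·v = 0})`.  This map is injective on the set: the vectors of these indices span a space `E` of dimension `n` in `ℝ^{1+n}`, and
`(-wmin a v, v)` is orthogonal to `E`; so if `v`, `v'` have the same active set, `(-wmin a v, v)` and `(-wmin a v', v')` are proportional (the orthogonal space is one dimensional), both are nonnegative in the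
`v`-part and nonzero, so `v' = c v` with `c > 0` rational, and `gcd v = gcd v' = 1` gives `c = 1`.
-/

set_option autoImplicit false

namespace Pool.Agent.H56.SMC

open Finset AddMonoidAlgebra

/-- The functional `(y0, y) ↦ -N y0 + v·y`. -/
private noncomputable def rfin_phi {n : ℕ} (N : ℕ) (v : Fin n → ℕ) :
    Module.Dual ℝ (Unit ⊕ Fin n → ℝ) where
  toFun y := -(N : ℝ) * y (Sum.inl ()) + ∑ j, (v j : ℝ) * y (Sum.inr j)
  map_add' y z := by
    simp only [Pi.add_apply, mul_add, sum_add_distrib]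
    ring
  map_smul' c y := by
    simp only [Pi.smul_apply, smul_eq_mul, RingHom.id_apply, mul_add, mul_sum]
    congr 1
    · ring
    · exact sum_congr rfl fun j _ => by ring

private theorem rfin_phi_single {n : ℕ} (N : ℕ) (v : Fin n → ℕ) (j : Fin n) :
    rfin_phi N v (Sum.elim (fun _ => 0) (Pi.single j 1)) = v j := by
  simp [rfin_phi, Pi.single_apply]

/-- The generators. -/
private def rfin_gen {n r m : ℕ} (a : Fin r → (Fin n →₀ ℕ)) (β : Fin m → Fin n → ℤ)
    (v : Fin n → ℕ) : Set (Unit ⊕ Fin n → ℝ) :=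
  ({y | ∃ i, ∑ j, a i j * v j = H22.wmin a v ∧ y = H22.rowR a i} ∪
      {y | ∃ j, v j = 0 ∧ y = Sum.elim (fun _ => 0) (Pi.single j 1)} ∪
      {y | ∃ k, ∑ j, β k j * v j = 0 ∧ y = Sum.elim (fun _ => 0) (fun j => (β k j : ℝ))} :
        Set (Unit ⊕ Fin n → ℝ))

private theorem rfin_vanish {n r m : ℕ} (a : Fin r → (Fin n →₀ ℕ)) (β : Fin m → Fin n → ℤ)
    (v : Fin n → ℕ) : rfin_phi (H22.wmin a v) v ∈
      (Submodule.span ℝ (rfin_gen a β v)).dualAnnihilator := by
  rw [Submodule.mem_dualAnnihilator]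
  intro y hy
  induction hy using Submodule.span_induction with
  | mem y hy =>
    rcases hy with (⟨i, hi, rfl⟩ | ⟨j, hj, rfl⟩) | ⟨k, hk, rfl⟩
    · have h1 : (∑ j, ((a i j : ℕ) : ℝ) * (v j : ℝ)) = (H22.wmin a v : ℝ) := by
        rw [← hi]; push_cast; rfl
      simp only [rfin_phi, H22.rowR, LinearMap.coe_mk, AddHom.coe_mk, Sum.elim_inl, Sum.elim_inr]
      rw [← h1, mul_one, neg_add_eq_sub, sub_eq_zero]
      exact sum_congr rfl fun j _ => mul_comm _ _
    · rw [rfin_phi_single, hj, Nat.cast_zero]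
    · have h1 : (∑ j, ((β k j : ℤ) : ℝ) * (v j : ℝ)) = 0 := by
        have := congrArg (Int.cast (R := ℝ)) hk
        push_cast at this
        exact this
      simp only [rfin_phi, LinearMap.coe_mk, AddHom.coe_mk, Sum.elim_inl, Sum.elim_inr]
      rw [mul_zero, zero_add, ← h1]
      exact sum_congr rfl fun j _ => mul_comm _ _
  | zero => exact map_zero _
  | add y z _ _ hy hz => rw [map_add, hy, hz, add_zero]
  | smul c y _ hy => rw [map_smul, hy, smul_zero]

private theorem rfin_one {n : ℕ} (E : Submodule ℝ (Unit ⊕ Fin n → ℝ))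
    (h : Module.finrank ℝ E.dualAnnihilator ≤ 1) :
    ∃ v : E.dualAnnihilator, ∀ w : E.dualAnnihilator, ∃ c : ℝ, c • v = w := by
  let V := Module.Dual ℝ (Unit ⊕ Fin n → ℝ)
  let : AddCommGroup V := inferInstanceAs (AddCommGroup ((Unit ⊕ Fin n → ℝ) →ₗ[ℝ] ℝ))
  exact finrank_le_one_iff.mp h

/-- RFIN -/
theorem rfin {n r m : ℕ} (a : Fin r → (Fin n →₀ ℕ)) (β : Fin m → Fin n → ℤ) :
    {v : Fin n → ℕ | RayNormal a β v ∧ univ.gcd v = 1}.Finite := by
  classical
  let F : (Fin n → ℕ) → Set (Fin r) × Set (Fin n) × Set (Fin m) := fun v =>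
    ({i | ∑ j, a i j * v j = H22.wmin a v}, {j | v j = 0}, {k | ∑ j, β k j * v j = 0})
  refine Set.Finite.of_finite_image (f := F) (Set.toFinite _) ?_
  rintro v ⟨⟨hv0, -, hvr⟩, hvg⟩ w ⟨⟨hw0, -, hwr⟩, hwg⟩ hF
  have hF1 : {i | ∑ j, a i j * v j = H22.wmin a v} = {i | ∑ j, a i j * w j = H22.wmin a w} :=
    congrArg Prod.fst hF
  have hF2 : {j | v j = 0} = {j | w j = 0} := congrArg (fun x => x.2.1) hF
  have hF3 : {k | ∑ j, β k j * v j = 0} = {k | ∑ j, β k j * w j = 0} :=
    congrArg (fun x => x.2.2) hF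
  have hgen : rfin_gen a β v = rfin_gen a β w := by
    unfold rfin_gen
    have e1 : ∀ i, (∑ j, a i j * v j = H22.wmin a v) ↔ (∑ j, a i j * w j = H22.wmin a w) :=
      fun i => Set.ext_iff.mp hF1 i
    have e2 : ∀ j, v j = 0 ↔ w j = 0 := fun j => Set.ext_iff.mp hF2 j
    have e3 : ∀ k, (∑ j, β k j * v j = 0) ↔ (∑ j, β k j * w j = 0) :=
      fun k => Set.ext_iff.mp hF3 k
    simp only [e1, e2, e3]
  have h1 := rfin_vanish a β v
  have h2 := rfin_vanish a β w
  rw [← hgen] at h2
  have hr : Module.finrank ℝ (Submodule.span ℝ (rfin_gen a β v)) = n := hvr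
  have hdim := Subspace.finrank_add_finrank_dualAnnihilator_eq
    (Submodule.span ℝ (rfin_gen a β v))
  rw [hr, Module.finrank_pi, Fintype.card_sum, Fintype.card_unit, Fintype.card_fin] at hdim
  have hone : Module.finrank ℝ (Submodule.span ℝ (rfin_gen a β v)).dualAnnihilator ≤ 1 := by
    omega
  obtain ⟨ψ, hψ⟩ := rfin_one _ hone
  obtain ⟨c1, hc1⟩ := hψ ⟨_, h1⟩
  obtain ⟨c2, hc2⟩ := hψ ⟨_, h2⟩
  have e1 : ∀ j, (v j : ℝ) = c1 * ψ.1 (Sum.elim (fun _ => 0) (Pi.single j 1)) := by
    intro j
    rw [← rfin_phi_single (H22.wmin a v) v j]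
    have := congrArg (fun x => x.1 (Sum.elim (fun _ => 0) (Pi.single j 1) : Unit ⊕ Fin n → ℝ)) hc1
    exact this.symm
  have e2 : ∀ j, (w j : ℝ) = c2 * ψ.1 (Sum.elim (fun _ => 0) (Pi.single j 1)) := by
    intro j
    rw [← rfin_phi_single (H22.wmin a w) w j]
    have := congrArg (fun x => x.1 (Sum.elim (fun _ => 0) (Pi.single j 1) : Unit ⊕ Fin n → ℝ)) hc2
    exact this.symm
  have hcross : ∀ j k, w j * v k = v j * w k := by
    intro j k
    have : ((w j * v k : ℕ) : ℝ) = ((v j * w k : ℕ) : ℝ) := by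
      push_cast
      rw [e1, e1, e2, e2]; ring
    exact_mod_cast this
  funext j
  have hj : univ.gcd (fun k => w j * v k) = univ.gcd (fun k => v j * w k) := by
    congr 1
    funext k
    exact hcross j k
  rw [Finset.gcd_mul_left, Finset.gcd_mul_left, hvg, hwg, normalize_eq, normalize_eq, mul_one,
    mul_one] at hj
  exact hj.symm

end Pool.Agent.H56.SMC

end S_RFIN
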