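import Mathlib
import Pool.Agent.H56.SMC.CfgDefs

/-! Strong monodromy for nondegenerate polynomials, part A8: this file joins the modules FCH. -/

set_option autoImplicit false

section S_FCH

/-!
# FCH: the chain of faces of the Cayley configuration attached to a flag

Write `A = cA a (bbM β M)`, `Z = {j : w_j = 0}`, `z = |Z|`, `n' = n - z` (number of `j` with `w_j ≠ 0`), `F_t = {i : a_i·v_t = N(v_t)}`, `s = n` (so `s + 1 = z + 1 + n'` faces `T_0, …, T_n`).
Let `j_1 < … < j_z` be the elements of `Z`.  Faces: `T_{q-1} = {(0,1;M e_{j_1}), …, (0,1;M e_{j_q})}` (`q = 1..z`), `T_z = T_{z-1} ∪ {(0,1;0)}` (`T_0 = {(0,1;0)}` if `z = 0`), `T_{z+t} = T_z ∪ {(1,0;a_i) : i ∈ F_{n'-t}}` (`t = 1..n'`).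
Functionals: for `T_{q-1}`: `vec L0 M v` with `v = L w - ∑_{c≤q} e_{j_c}`, `L` large so that `1 + β_k·v > 0`, then `L0` large so that `L0 + v·a_i > 0` for all `i`: value `0` at `(0,1;M e_{j_c})`, `c ≤ q`, `M` at the other `e_j`, `j ∈ Z`, and at `(0,1;0)`, `M + M L w_j` at `j ∉ Z`, positive elsewhere.
For `T_z`: `vec 1 0 w` (value `1 + w·a_i > 0` at `a_i`, `0` at `(0,1;0)` and at `e_j`, `j ∈ Z`, positive at the other `e_j` and at `β_k`).  For `T_{z+t}`: `vec (-N(v_{n'-t})) 0 v_{n'-t}`; for `t = n'` this is `h0` (`v_0 = w`).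
`hstrict`: `F_{t+1} ≠ F_t` because the ranks differ, `F_{n'-1}` is not empty.  `hrank`: for `T_{q-1} ⊂ T_q` and `T_{z-1} ⊂ T_z` only one vector is added (`N` = value of the functional at it, `n` = value of `g`).  `T_z ⊂ T_{z+1}`: if `g = vec g0 g1 g'` vanishes on `T_z` then `g1 = 0`, `g'_j = 0` for `j ∈ Z`;
the vectors `rowR a i`, `i ∈ F_{n'-1}`, and `(0,e_j)`, `j ∈ Z`, span a space of dimension `n - (n'-1) = z + 1`, so modulo the `e_j`, `j ∈ Z`, all `(1,a_i)`, `i ∈ F_{n'-1}`, are equal (proportional with first coordinate `1`): `g` is constant on them, and so is the functional of `T_z`.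
`T_{z+t} ⊂ T_{z+t+1}`: the spans of the sets of real vectors (forgetting the second coordinate) have dimensions `z + t`, `z + t + 1` and the functional of `T_{z+t}` vanishes on the smaller and not on the larger one, so any `g` vanishing on `T_{z+t}` is proportional to it on `T_{z+t+1}` (real proportionality factor; rational because the
values are integers and the functional has a nonzero value: `N` = that value, `n` = the value of `g` at the same vector).
Last part: `i (z + t)` for `t ≥ 1` is `Sum.inl` of an element of `F_{n'-t}` not in `F_{n'-t+1}` (not in the previous face, no condition for `t = 1`), `i z = inr (inl none)`, `i (q-1) = inr (inl (some j_q))`; reorder `t ↦ n' - 1 - t`.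
-/

set_option autoImplicit false

namespace Pool.Agent.H56.SMC

open Finset AddMonoidAlgebra

section fch

variable {n r m : ℕ}

theorem fch_val_a (a : Fin r → (Fin n →₀ ℕ)) (β : Fin m → Fin n → ℤ) (M l l2 : ℤ)
    (q : Fin n → ℤ) (i : Fin r) :
    dt (vec l l2 q) (cA a (bbM β M) (Sum.inl i)) = l + ∑ j, q j * (a i j : ℤ) := by
  show dt (vec l l2 q) (vec 1 0 _) = _
  rw [dt_vec]; ring

theorem fch_val_none (a : Fin r → (Fin n →₀ ℕ)) (β : Fin m → Fin n → ℤ) (M l l2 : ℤ)
    (q : Fin n → ℤ) :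
    dt (vec l l2 q) (cA a (bbM β M) (Sum.inr (Sum.inl none))) = l2 := by
  show dt (vec l l2 q) (vec 0 1 0) = _
  rw [dt_vec]; simp

theorem fch_val_some (a : Fin r → (Fin n →₀ ℕ)) (β : Fin m → Fin n → ℤ) (M l l2 : ℤ)
    (q : Fin n → ℤ) (j : Fin n) :
    dt (vec l l2 q) (cA a (bbM β M) (Sum.inr (Sum.inl (some j)))) = l2 + M * q j := by
  show dt (vec l l2 q) (vec 0 1 (M • ev j)) = _
  rw [dt_vec]
  have h : ∑ x, q x * (M • ev j : Lat n) x = M * q j := by
    rw [Finset.sum_eq_single j]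
    · simp [ev]; ring
    · intro b _ hb; simp [ev, hb]
    · intro h; exact absurd (mem_univ _) h
  rw [h]; ring

theorem fch_val_b (a : Fin r → (Fin n →₀ ℕ)) (β : Fin m → Fin n → ℤ) (M l l2 : ℤ)
    (q : Fin n → ℤ) (k : Fin m) :
    dt (vec l l2 q) (cA a (bbM β M) (Sum.inr (Sum.inr k))) = l2 + M * ∑ j, q j * β k j := by
  show dt (vec l l2 q) (vec 0 1 (M • β k)) = _
  rw [dt_vec, mul_sum]
  have h : ∑ x, q x * (M • β k : Lat n) x = ∑ j, M * (q j * β k j) :=
    sum_congr rfl fun j _ => by simp; ring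
  rw [h]; ring

theorem fch_wmin_le (a : Fin r → (Fin n →₀ ℕ)) (v : Fin n → ℕ) (i : Fin r) :
    H22.wmin a v ≤ ∑ j, a i j * v j :=
  ciInf_le (OrderBot.bddBelow _) i

theorem fch_wmin_mem (a : Fin r → (Fin n →₀ ℕ)) (v : Fin n → ℕ) (hr : Nonempty (Fin r)) :
    ∃ i, ∑ j, a i j * v j = H22.wmin a v :=
  Nat.sInf_mem (Set.range_nonempty (fun i => ∑ j, a i j * v j))

/-- enumeration of the zero set of `w` -/
theorem fch_enum (w : Fin n → ℕ) : ∃ (rk : Fin n → ℕ) (jz : ℕ → Fin n → Prop),
    (∀ j, w j = 0 → rk j < n - supCard w ∧ jz (rk j) j) ∧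
    (∀ p, p < n - supCard w → ∃ j, jz p j) ∧
    (∀ p j, jz p j → w j = 0 ∧ rk j = p) ∧
    (∀ j j', w j = 0 → w j' = 0 → rk j = rk j' → j = j') := by
  classical
  have hc : (univ.filter (fun j : Fin n => w j = 0)).card = n - supCard w := by
    have h := Finset.card_filter_add_card_filter_not (s := (univ : Finset (Fin n)))
      (fun j => w j = 0)
    rw [card_univ, Fintype.card_fin] at h
    unfold supCard
    have h2 : (univ.filter (fun j : Fin n => ¬ w j = 0)) = univ.filter (fun j => w j ≠ 0) := rfl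
    rw [h2] at h
    omega
  let e := Finset.equivFinOfCardEq hc
  refine ⟨fun j => if h : w j = 0 then (e ⟨j, by simp [h]⟩ : ℕ) else 0,
    fun p j => ∃ h : p < n - supCard w, (e.symm ⟨p, h⟩ : Fin n) = j, ?_, ?_, ?_, ?_⟩
  · intro j hj
    simp only [hj, dite_true]
    exact ⟨(e _).2, (e _).2, by simp⟩
  · intro p hp
    exact ⟨_, hp, rfl⟩
  · rintro p j ⟨h, hj⟩
    have hw : w j = 0 := by
      have := (e.symm ⟨p, h⟩).2
      rw [hj] at this
      simpa using this
    refine ⟨hw, ?_⟩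
    simp only [hw, dite_true]
    have : (⟨j, by simp [hw]⟩ : {x // x ∈ univ.filter (fun j : Fin n => w j = 0)}) =
        e.symm ⟨p, h⟩ := Subtype.ext hj.symm
    rw [this]; simp
  · intro j j' hj hj' h
    simp only [hj, hj', dite_true] at h
    have := e.injective (Fin.ext h)
    simpa using this

/-- functionals -/
noncomputable def fchH (a : Fin r → (Fin n →₀ ℕ)) (w : Fin n → ℕ) (v : ℕ → Fin n → ℕ)
    (rk : Fin n → ℕ) (M L L0 : ℤ) (z p : ℕ) : Lat (n + 2) :=
  if p < z then vec L0 M (fun j => L * w j - if w j = 0 ∧ rk j ≤ p then 1 else 0)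
  else if p = z then vec 1 0 (fun j => (w j : ℤ))
  else vec (-(H22.wmin a (v (n - p)) : ℤ)) 0 (fun j => (v (n - p) j : ℤ))

/-- zero sets -/
def fchT (a : Fin r → (Fin n →₀ ℕ)) (w : Fin n → ℕ) (v : ℕ → Fin n → ℕ)
    (rk : Fin n → ℕ) (z p : ℕ) : Fin r ⊕ (Option (Fin n) ⊕ Fin m) → Prop
  | Sum.inl i => z < p ∧ ∑ j, a i j * v (n - p) j = H22.wmin a (v (n - p))
  | Sum.inr (Sum.inl none) => z ≤ p
  | Sum.inr (Sum.inl (some j)) => w j = 0 ∧ rk j ≤ p
  | Sum.inr (Sum.inr _) => False

theorem fch_T1 (a : Fin r → (Fin n →₀ ℕ)) (w : Fin n → ℕ) (v : ℕ → Fin n → ℕ)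
    (rk : Fin n → ℕ) (β : Fin m → Fin n → ℤ) (M : ℤ) (hM : 0 < M)
    (hβ : ∀ k, 0 < ∑ j, β k j * (w j : ℤ)) (z p : ℕ) (hp : p < z)
    (i : Fin r ⊕ (Option (Fin n) ⊕ Fin m)) :
    0 ≤ dt (fchH a w v rk M (1 + ∑ k, ∑ j, |β k j|) (1 + ∑ i, ∑ j, (a i j : ℤ)) z p)
      (cA a (bbM β M) i) ∧
    (dt (fchH a w v rk M (1 + ∑ k, ∑ j, |β k j|) (1 + ∑ i, ∑ j, (a i j : ℤ)) z p)
      (cA a (bbM β M) i) = 0 ↔ fchT a w v rk z p i) := by
  classical
  have hL : 1 ≤ 1 + ∑ k, ∑ j, |β k j| := by
    have : 0 ≤ ∑ k, ∑ j, |β k j| := sum_nonneg fun k _ => sum_nonneg fun j _ => abs_nonneg _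
    linarith
  unfold fchH
  rw [if_pos hp]
  rcases i with i | ((_ | j) | k)
  · -- a_i
    rw [fch_val_a]
    have h1 : (∑ j, (a i j : ℤ)) ≤ ∑ i, ∑ j, (a i j : ℤ) :=
      single_le_sum (f := fun i => ∑ j, (a i j : ℤ))
        (fun i _ => sum_nonneg fun j _ => by positivity) (mem_univ i)
    have h2 : -(∑ j, (a i j : ℤ)) ≤
        ∑ j, ((1 + ∑ k, ∑ j, |β k j|) * (w j : ℤ) - if w j = 0 ∧ rk j ≤ p then 1 else 0) *
          (a i j : ℤ) := by
      rw [← sum_neg_distrib]
      refine sum_le_sum fun j _ => ?_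
      have h3 : -1 ≤ ((1 + ∑ k, ∑ j, |β k j|) * (w j : ℤ) -
          if w j = 0 ∧ rk j ≤ p then 1 else 0) := by
        have : 0 ≤ (1 + ∑ k, ∑ j, |β k j|) * (w j : ℤ) := by positivity
        split_ifs <;> linarith
      have h4 : (0 : ℤ) ≤ (a i j : ℤ) := by positivity
      nlinarith
    have h5 : 0 < 1 + ∑ i, ∑ j, (a i j : ℤ) +
        ∑ j, ((1 + ∑ k, ∑ j, |β k j|) * (w j : ℤ) - if w j = 0 ∧ rk j ≤ p then 1 else 0) *
          (a i j : ℤ) := by linarith
    refine ⟨h5.le, ?_⟩
    simp only [fchT]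
    constructor
    · intro h; omega
    · rintro ⟨h, _⟩; omega
  · rw [fch_val_none]
    refine ⟨hM.le, ?_⟩
    simp only [fchT]
    constructor
    · intro h; omega
    · intro h; omega
  · rw [fch_val_some]
    simp only [fchT]
    by_cases hj : w j = 0 ∧ rk j ≤ p
    · rw [if_pos hj, hj.1]
      simp only [Nat.cast_zero, mul_zero, zero_sub, mul_neg, mul_one, add_neg_cancel, le_refl,
        true_and, hj.2]
    · rw [if_neg hj]
      have h1 : 0 < M + M * ((1 + ∑ k, ∑ j, |β k j|) * (w j : ℤ) - 0) := by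
        have : 0 ≤ M * ((1 + ∑ k, ∑ j, |β k j|) * (w j : ℤ) - 0) := by
          rw [sub_zero]; positivity
        linarith
      refine ⟨h1.le, ?_⟩
      constructor
      · intro h; omega
      · intro h; exact absurd h hj
  · rw [fch_val_b]
    have h1 : 0 < M + M * ∑ j, ((1 + ∑ k, ∑ j, |β k j|) * (w j : ℤ) -
        if w j = 0 ∧ rk j ≤ p then 1 else 0) * β k j := by
      have h2 : ∑ j, ((1 + ∑ k, ∑ j, |β k j|) * (w j : ℤ) -
          if w j = 0 ∧ rk j ≤ p then 1 else 0) * β k j =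
          (1 + ∑ k, ∑ j, |β k j|) * ∑ j, β k j * (w j : ℤ) -
            ∑ j, (if w j = 0 ∧ rk j ≤ p then 1 else 0) * β k j := by
        rw [mul_sum, ← sum_sub_distrib]
        exact sum_congr rfl fun j _ => by ring
      have h3 : ∑ j, (if w j = 0 ∧ rk j ≤ p then (1 : ℤ) else 0) * β k j ≤
          ∑ k, ∑ j, |β k j| := by
        refine le_trans (sum_le_sum (g := fun j => |β k j|) fun j _ => ?_)
          (single_le_sum (f := fun k => ∑ j, |β k j|)
            (fun k _ => sum_nonneg fun j _ => abs_nonneg _) (mem_univ k))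
        split_ifs
        · rw [one_mul]; exact le_abs_self _
        · rw [zero_mul]; exact abs_nonneg _
      have h4 := hβ k
      rw [h2]
      have h5 : (1 + ∑ k, ∑ j, |β k j|) ≤ (1 + ∑ k, ∑ j, |β k j|) * ∑ j, β k j * (w j : ℤ) := by
        nlinarith
      have h6 : 0 ≤ (1 + ∑ k, ∑ j, |β k j|) * ∑ j, β k j * (w j : ℤ) -
            ∑ j, (if w j = 0 ∧ rk j ≤ p then 1 else 0) * β k j := by linarith
      have := mul_nonneg hM.le h6
      linarith
    refine ⟨h1.le, ?_⟩
    simp only [fchT]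
    constructor
    · intro h; omega
    · intro h; exact h.elim

theorem fch_T2 (a : Fin r → (Fin n →₀ ℕ)) (w : Fin n → ℕ) (v : ℕ → Fin n → ℕ)
    (rk : Fin n → ℕ) (β : Fin m → Fin n → ℤ) (M : ℤ) (hM : 0 < M) (L L0 : ℤ) (z p : ℕ)
    (hrk : ∀ j, w j = 0 → rk j < z) (hp : z ≤ p)
    (hβ : ∀ k, 0 < ∑ j, β k j * (w j : ℤ))
    (hβ' : z < p → ∀ k, 0 < ∑ j, β k j * (v (n - p) j : ℤ))
    (hv : z < p → ∀ j, v (n - p) j = 0 ↔ w j = 0)
    (i : Fin r ⊕ (Option (Fin n) ⊕ Fin m)) :
    0 ≤ dt (fchH a w v rk M L L0 z p) (cA a (bbM β M) i) ∧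
    (dt (fchH a w v rk M L L0 z p) (cA a (bbM β M) i) = 0 ↔ fchT a w v rk z p i) := by
  classical
  unfold fchH
  rw [if_neg (by omega)]
  by_cases hpz : p = z
  · rw [if_pos hpz]
    rcases i with i | ((_ | j) | k)
    · rw [fch_val_a]
      have h1 : 0 ≤ ∑ j, (w j : ℤ) * (a i j : ℤ) := sum_nonneg fun j _ => by positivity
      refine ⟨by linarith, ?_⟩
      simp only [fchT]
      constructor
      · intro h; omega
      · rintro ⟨h, _⟩; omega
    · rw [fch_val_none]
      simp only [fchT]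
      exact ⟨le_refl _, by simp [hp]⟩
    · rw [fch_val_some]
      simp only [fchT]
      refine ⟨by positivity, ?_⟩
      constructor
      · intro h
        have h1 : M * (w j : ℤ) = 0 := by linarith
        have h2 : (w j : ℤ) = 0 := by
          rcases mul_eq_zero.mp h1 with h | h
          · omega
          · exact h
        have h3 : w j = 0 := by exact_mod_cast h2
        exact ⟨h3, le_trans (hrk j h3).le hp⟩
      · rintro ⟨h, _⟩; simp [h]
    · rw [fch_val_b]
      have h1 := hβ k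
      have h2 : ∑ j, (w j : ℤ) * β k j = ∑ j, β k j * (w j : ℤ) :=
        sum_congr rfl fun j _ => mul_comm _ _
      rw [h2, zero_add]
      have h3 := mul_pos hM h1
      refine ⟨h3.le, ?_⟩
      simp only [fchT]
      constructor
      · intro h; omega
      · intro h; exact h.elim
  · rw [if_neg hpz]
    have hpz' : z < p := by omega
    rcases i with i | ((_ | j) | k)
    · rw [fch_val_a]
      have h1 := fch_wmin_le a (v (n - p)) i
      have h2 : ∑ j, (v (n - p) j : ℤ) * (a i j : ℤ) = ((∑ j, a i j * v (n - p) j : ℕ) : ℤ) := by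
        push_cast
        exact sum_congr rfl fun j _ => mul_comm _ _
      rw [h2]
      simp only [fchT]
      constructor
      · omega
      · constructor
        · intro h; exact ⟨hpz', by omega⟩
        · rintro ⟨_, h⟩; omega
    · rw [fch_val_none]
      simp only [fchT]
      exact ⟨le_refl _, by simp [hp]⟩
    · rw [fch_val_some]
      simp only [fchT]
      refine ⟨by positivity, ?_⟩
      constructor
      · intro h
        have h1 : M * (v (n - p) j : ℤ) = 0 := by linarith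
        have h2 : (v (n - p) j : ℤ) = 0 := by
          rcases mul_eq_zero.mp h1 with h | h
          · omega
          · exact h
        have h3 : w j = 0 := (hv hpz' j).1 (by exact_mod_cast h2)
        exact ⟨h3, le_trans (hrk j h3).le hp⟩
      · rintro ⟨h, _⟩; simp [(hv hpz' j).2 h]
    · rw [fch_val_b]
      have h1 := hβ' hpz' k
      have h2 : ∑ j, (v (n - p) j : ℤ) * β k j = ∑ j, β k j * (v (n - p) j : ℤ) :=
        sum_congr rfl fun j _ => mul_comm _ _
      rw [h2, zero_add]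
      have h3 := mul_pos hM h1
      refine ⟨h3.le, ?_⟩
      simp only [fchT]
      constructor
      · intro h; omega
      · intro h; exact h.elim

/-- linear algebra -/
theorem fch_rk {E : Type} [AddCommGroup E] [Module ℝ E] [FiniteDimensional ℝ E]
    (V V' : Submodule ℝ E) (hVV : V ≤ V')
    (hf : Module.finrank ℝ V' ≤ Module.finrank ℝ V + 1) (G h : E →ₗ[ℝ] ℝ)
    (hG : ∀ x ∈ V, G x = 0) (hh : ∀ x ∈ V, h x = 0) (x0 : E) (hx0 : x0 ∈ V') (hx : h x0 ≠ 0)
    (x : E) (hxV : x ∈ V') : h x0 * G x = G x0 * h x := by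
  have h1 : V < V ⊔ Submodule.span ℝ {x0} := by
    refine lt_of_le_of_ne le_sup_left fun he => hx (hh x0 ?_)
    rw [he]
    exact Submodule.mem_sup_right (Submodule.mem_span_singleton_self x0)
  have h2 := Submodule.finrank_lt_finrank_of_lt h1
  have h3 : V ⊔ Submodule.span ℝ {x0} ≤ V' := by
    refine sup_le hVV ?_
    rw [Submodule.span_singleton_le_iff_mem]
    exact hx0
  have h4 : V ⊔ Submodule.span ℝ {x0} = V' :=
    Submodule.eq_of_le_of_finrank_le h3 (by omega)
  rw [← h4, Submodule.mem_sup] at hxV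
  obtain ⟨y, hy, u, hu, rfl⟩ := hxV
  obtain ⟨c, rfl⟩ := Submodule.mem_span_singleton.mp hu
  rw [map_add, map_add, map_smul, map_smul, hG y hy, hh y hy]
  simp only [smul_eq_mul, zero_add]
  ring

/-- functional on the space of the vectors -/
noncomputable def fchF (c : ℤ) (q : Fin n → ℤ) : (Unit ⊕ Fin n → ℝ) →ₗ[ℝ] ℝ :=
  (c : ℝ) • LinearMap.proj (Sum.inl ()) + ∑ j, (q j : ℝ) • LinearMap.proj (Sum.inr j)

theorem fchF_row (a : Fin r → (Fin n →₀ ℕ)) (c : ℤ) (q : Fin n → ℤ) (i : Fin r) :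
    fchF c q (H22.rowR a i) = ((c + ∑ j, q j * (a i j : ℤ) : ℤ) : ℝ) := by
  simp [fchF, H22.rowR]

theorem fchF_single (c : ℤ) (q : Fin n → ℤ) (j : Fin n) :
    fchF c q (Sum.elim (fun _ => 0) (Pi.single j 1)) = (q j : ℝ) := by
  classical
  simp [fchF, Pi.single_apply]

/-- the vectors of a face -/
def fchS (a : Fin r → (Fin n →₀ ℕ)) (w : Fin n → ℕ) (v : ℕ → Fin n → ℕ) (z p : ℕ) :
    Set (Unit ⊕ Fin n → ℝ) :=
  {y | ∃ i, (z < p ∧ ∑ j, a i j * v (n - p) j = H22.wmin a (v (n - p))) ∧ y = H22.rowR a i} ∪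
    {y | ∃ j, w j = 0 ∧ y = Sum.elim (fun _ => 0) (Pi.single j 1)}

theorem fch_rank (a : Fin r → (Fin n →₀ ℕ)) (w : Fin n → ℕ) (β : Fin m → Fin n → ℤ)
    (v : ℕ → Fin n → ℕ) (hv : IsFlag a w β v) (p : ℕ) (hp : n - supCard w ≤ p) (hpn : p ≤ n) :
    Module.finrank ℝ (Submodule.span ℝ (fchS a w v (n - supCard w) p)) = p := by
  classical
  have hsc : supCard w ≤ n := by
    unfold supCard
    exact (card_le_univ _).trans (by simp)
  rcases hp.lt_or_eq with hp | hp
  · have h1 := (hv.2.1 (n - p) (by omega)).2.2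
    have h2 : fchS a w v (n - supCard w) p =
        {y | ∃ i, ∑ j, a i j * v (n - p) j = H22.wmin a (v (n - p)) ∧ y = H22.rowR a i} ∪
        {y | ∃ j, w j = 0 ∧ y = Sum.elim (fun _ => 0) (Pi.single j 1)} := by
      unfold fchS
      simp only [hp, true_and]
    rw [h2, h1]
    omega
  · have h2 : fchS a w v (n - supCard w) p =
        Set.range (fun j : {j // w j = 0} =>
          (Sum.elim (fun _ => 0) (Pi.single j.1 1) : Unit ⊕ Fin n → ℝ)) := by
      ext y
      simp only [fchS, Set.mem_union, Set.mem_ofPred_eq, Set.mem_range]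
      constructor
      · rintro (⟨i, ⟨h, _⟩, _⟩ | ⟨j, hj, rfl⟩)
        · omega
        · exact ⟨⟨j, hj⟩, rfl⟩
      · rintro ⟨⟨j, hj⟩, rfl⟩
        exact Or.inr ⟨j, hj, rfl⟩
    have h3 : LinearIndependent ℝ (fun j : {j // w j = 0} =>
          (Sum.elim (fun _ => 0) (Pi.single j.1 1) : Unit ⊕ Fin n → ℝ)) := by
      have h4 := (Pi.basisFun ℝ (Unit ⊕ Fin n)).linearIndependent.comp
        (fun j : {j // w j = 0} => (Sum.inr j.1 : Unit ⊕ Fin n))
        (fun j j' h => Subtype.ext (Sum.inr_injective h))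
      convert h4 using 1
      funext j
      funext x
      rcases x with x | x
      · simp
      · simp [Pi.single_apply]
    rw [h2, finrank_span_eq_card h3, Fintype.card_subtype]
    have h5 := Finset.card_filter_add_card_filter_not (s := (univ : Finset (Fin n)))
      (fun j => w j = 0)
    rw [card_univ, Fintype.card_fin] at h5
    have h6 : supCard w = (univ.filter (fun j : Fin n => ¬ w j = 0)).card := rfl
    omega

theorem fch_mono (a : Fin r → (Fin n →₀ ℕ)) (w : Fin n → ℕ) (β : Fin m → Fin n → ℤ)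
    (v : ℕ → Fin n → ℕ) (hv : IsFlag a w β v) (rk : Fin n → ℕ) (p : ℕ) (hpn : p < n)
    (i : Fin r ⊕ (Option (Fin n) ⊕ Fin m)) (h : fchT a w v rk (n - supCard w) p i) :
    fchT a w v rk (n - supCard w) (p + 1) i := by
  rcases i with i | ((_ | j) | k)
  · simp only [fchT] at h ⊢
    obtain ⟨h1, h2⟩ := h
    refine ⟨by omega, ?_⟩
    have h3 : n - p = n - (p + 1) + 1 := by omega
    rw [h3] at h2
    exact hv.2.2 (n - (p + 1)) (by omega) i h2
  · simp only [fchT] at h ⊢
    omega
  · simp only [fchT] at h ⊢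
    exact ⟨h.1, by omega⟩
  · simp only [fchT] at h

theorem fch_strict (a : Fin r → (Fin n →₀ ℕ)) (w : Fin n → ℕ) (β : Fin m → Fin n → ℤ)
    (v : ℕ → Fin n → ℕ) (hv : IsFlag a w β v) (hr : Nonempty (Fin r)) (p : ℕ) (hpn : p < n)
    (hp : n - supCard w ≤ p) :
    ∃ i0 : Fin r, ∑ j, a i0 j * v (n - (p + 1)) j = H22.wmin a (v (n - (p + 1))) ∧
      (n - supCard w < p → ∑ j, a i0 j * v (n - p) j ≠ H22.wmin a (v (n - p))) := by
  rcases hp.lt_or_eq with hp' | hp'
  · by_contra hcon
    push Not at hcon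
    have h1 := fch_rank a w β v hv p hp hpn.le
    have h2 := fch_rank a w β v hv (p + 1) (by omega) (by omega)
    have h3 : fchS a w v (n - supCard w) (p + 1) ⊆ fchS a w v (n - supCard w) p := by
      rintro y (⟨i, ⟨_, hi⟩, rfl⟩ | h)
      · exact Or.inl ⟨i, ⟨hp', (hcon i hi).2⟩, rfl⟩
      · exact Or.inr h
    have h4 := Submodule.finrank_mono (Submodule.span_mono (R := ℝ) h3)
    omega
  · obtain ⟨i, hi⟩ := fch_wmin_mem a (v (n - (p + 1))) hr
    exact ⟨i, hi, fun h => absurd hp' (by omega)⟩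

theorem fch_prop (a : Fin r → (Fin n →₀ ℕ)) (w : Fin n → ℕ) (β : Fin m → Fin n → ℤ) (M : ℤ)
    (hM : 0 < M) (v : ℕ → Fin n → ℕ) (hv : IsFlag a w β v) (hr : Nonempty (Fin r))
    (rk : Fin n → ℕ) (hrk : ∀ j, w j = 0 → rk j < n - supCard w) (p : ℕ) (hpn : p < n)
    (hp : n - supCard w ≤ p) (c : ℤ) (q : Fin n → ℤ)
    (hH : ∀ i, dt (vec c 0 q) (cA a (bbM β M) i) = 0 ↔ fchT a w v rk (n - supCard w) p i)
    (g : Lat (n + 2))
    (hg : ∀ i, fchT a w v rk (n - supCard w) p i → dt g (cA a (bbM β M) i) = 0) :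
    ∃ N k : ℤ, N ≠ 0 ∧ ∀ i, fchT a w v rk (n - supCard w) (p + 1) i →
      N * dt g (cA a (bbM β M) i) = k * dt (vec c 0 q) (cA a (bbM β M) i) := by
  classical
  obtain ⟨i0, hi0, hi0'⟩ := fch_strict a w β v hv hr p hpn hp
  obtain ⟨g0, g1, g', rfl⟩ : ∃ g0 g1 g', g = vec g0 g1 g' := ⟨_, _, _, vec_surj g⟩
  have hg1 : g1 = 0 := by
    have := hg (Sum.inr (Sum.inl none)) (by simp only [fchT]; exact hp)
    rwa [fch_val_none] at this
  subst hg1
  have hgj : ∀ j, w j = 0 → g' j = 0 := by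
    intro j hj
    have := hg (Sum.inr (Sum.inl (some j)))
      (by simp only [fchT]; exact ⟨hj, (hrk j hj).le.trans hp⟩)
    rw [fch_val_some, zero_add] at this
    rcases mul_eq_zero.mp this with h | h
    · omega
    · exact h
  have hqj : ∀ j, w j = 0 → q j = 0 := by
    intro j hj
    have := (hH (Sum.inr (Sum.inl (some j)))).2
      (by simp only [fchT]; exact ⟨hj, (hrk j hj).le.trans hp⟩)
    rw [fch_val_some, zero_add] at this
    rcases mul_eq_zero.mp this with h | h
    · omega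
    · exact h
  refine ⟨dt (vec c 0 q) (cA a (bbM β M) (Sum.inl i0)),
    dt (vec g0 0 g') (cA a (bbM β M) (Sum.inl i0)), ?_, ?_⟩
  · intro h
    have h1 := (hH _).1 h
    simp only [fchT] at h1
    exact hi0' h1.1 h1.2
  · intro i hi
    rcases i with i | ((_ | j) | k)
    · -- the main case
      have hVV : fchS a w v (n - supCard w) p ⊆ fchS a w v (n - supCard w) (p + 1) := by
        rintro y (⟨i, hi, rfl⟩ | h)
        · have h1 := fch_mono (m := m) a w β v hv rk p hpn (Sum.inl i)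
            (by simp only [fchT]; exact hi)
          simp only [fchT] at h1
          exact Or.inl ⟨i, h1, rfl⟩
        · exact Or.inr h
      have hrank1 := fch_rank a w β v hv p hp hpn.le
      have hrank2 := fch_rank a w β v hv (p + 1) (by omega) (by omega)
      have hG : ∀ x ∈ Submodule.span ℝ (fchS a w v (n - supCard w) p), fchF g0 g' x = 0 := by
        intro x hx
        have : Submodule.span ℝ (fchS a w v (n - supCard w) p) ≤ LinearMap.ker (fchF g0 g') := by
          rw [Submodule.span_le]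
          rintro y (⟨i, hi, rfl⟩ | ⟨j, hj, rfl⟩)
          · show fchF g0 g' _ = 0
            rw [fchF_row]
            have h1 := hg (Sum.inl i) (by simp only [fchT]; exact hi)
            rw [fch_val_a] at h1
            rw [h1]; simp
          · show fchF g0 g' _ = 0
            rw [fchF_single, hgj j hj]; simp
        exact this hx
      have hh : ∀ x ∈ Submodule.span ℝ (fchS a w v (n - supCard w) p), fchF c q x = 0 := by
        intro x hx
        have : Submodule.span ℝ (fchS a w v (n - supCard w) p) ≤ LinearMap.ker (fchF c q) := by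
          rw [Submodule.span_le]
          rintro y (⟨i, hi, rfl⟩ | ⟨j, hj, rfl⟩)
          · show fchF c q _ = 0
            rw [fchF_row]
            have h1 := (hH (Sum.inl i)).2 (by simp only [fchT]; exact hi)
            rw [fch_val_a] at h1
            rw [h1]; simp
          · show fchF c q _ = 0
            rw [fchF_single, hqj j hj]; simp
        exact this hx
      have hx0 : fchF c q (H22.rowR a i0) ≠ 0 := by
        rw [fchF_row]
        intro h
        have h1 : c + ∑ j, q j * (a i0 j : ℤ) = 0 := by exact_mod_cast h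
        rw [← fch_val_a a β M c 0 q i0] at h1
        have h2 := (hH _).1 h1
        simp only [fchT] at h2
        exact hi0' h2.1 h2.2
      simp only [fchT] at hi
      have key := fch_rk _ _ (Submodule.span_mono (R := ℝ) hVV) (by omega) (fchF g0 g')
        (fchF c q) hG hh (H22.rowR a i0)
        (Submodule.subset_span (Or.inl ⟨i0, ⟨by omega, hi0⟩, rfl⟩)) hx0 (H22.rowR a i)
        (Submodule.subset_span (Or.inl ⟨i, hi, rfl⟩))
      rw [fchF_row, fchF_row, fchF_row, fchF_row] at key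
      rw [fch_val_a, fch_val_a, fch_val_a, fch_val_a]
      exact_mod_cast key
    · rw [fch_val_none, fch_val_none]; ring
    · have h1 : w j = 0 := by simp only [fchT] at hi; exact hi.1
      rw [fch_val_some, fch_val_some, hgj j h1, hqj j h1]; ring
    · simp only [fchT] at hi

theorem fch_sum_vec {α : Type} (s : Finset α) (l l2 : α → ℤ) (q : α → Fin n → ℤ) :
    ∑ x ∈ s, vec (l x) (l2 x) (q x) =
      vec (∑ x ∈ s, l x) (∑ x ∈ s, l2 x) (fun j => ∑ x ∈ s, q x j) := by
  funext i
  rw [Finset.sum_apply]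
  refine Fin.cases ?_ (fun i => Fin.cases ?_ (fun i => ?_) i) i <;> simp [vec]

theorem fch_last (a : Fin r → (Fin n →₀ ℕ)) (w : Fin n → ℕ) (hw : w ≠ 0)
    (β : Fin m → Fin n → ℤ) (M : ℤ)
    (v : ℕ → Fin n → ℕ) (hr : Nonempty (Fin r))
    (rk : Fin n → ℕ) (hrk : ∀ j, w j = 0 → rk j < n - supCard w)
    (hinj : ∀ j j', w j = 0 → w j' = 0 → rk j = rk j' → j = j')
    (i : ℕ → Fin r ⊕ (Option (Fin n) ⊕ Fin m))
    (h0 : fchT a w v rk (n - supCard w) 0 (i 0))
    (hs : ∀ p, p < n → fchT a w v rk (n - supCard w) (p + 1) (i (p + 1)) ∧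
      ¬ fchT a w v rk (n - supCard w) p (i (p + 1))) :
    ∃ q : ℕ → Fin r, IsFlagChoice a w v q ∧
      ∑ j ∈ range (n + 1), cA a (bbM β M) (i j) =
        vec (supCard w) ((1 + (n - supCard w) : ℕ) : ℤ)
          (fun j => (∑ t ∈ range (supCard w), (a (q t) j : ℤ)) + if w j = 0 then M else 0) := by
  classical
  have hsc : supCard w ≤ n := by
    unfold supCard
    exact (card_le_univ _).trans (by simp)
  have hsc0 : 0 < supCard w := by
    unfold supCard
    obtain ⟨j, hj⟩ : ∃ j, w j ≠ 0 := Function.ne_iff.mp hw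
    exact card_pos.mpr ⟨j, by simp [hj]⟩
  -- (a)
  have ha : ∀ p, p < n - supCard w → cA a (bbM β M) (i p) =
      vec 0 1 (fun j => if w j = 0 ∧ rk j = p then M else 0) := by
    intro p hp
    obtain ⟨j, hj, hwj, hrj⟩ : ∃ j, i p = Sum.inr (Sum.inl (some j)) ∧ w j = 0 ∧ rk j = p := by
      rcases p with _ | p
      · rcases hi : i 0 with i' | ((_ | j) | k)
        · rw [hi] at h0; simp only [fchT] at h0; omega
        · rw [hi] at h0; simp only [fchT] at h0; omega
        · rw [hi] at h0; simp only [fchT] at h0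
          exact ⟨j, rfl, h0.1, by omega⟩
        · rw [hi] at h0; simp only [fchT] at h0
      · have h1 := hs p (by omega)
        rcases hi : i (p + 1) with i' | ((_ | j) | k)
        · rw [hi] at h1; simp only [fchT] at h1; omega
        · rw [hi] at h1; simp only [fchT] at h1; omega
        · rw [hi] at h1; simp only [fchT] at h1
          refine ⟨j, rfl, h1.1.1, ?_⟩
          have h2 := h1.1.2
          have h3 : ¬ rk j ≤ p := fun h => h1.2 ⟨h1.1.1, h⟩
          omega
        · rw [hi] at h1; simp only [fchT] at h1; exact h1.1.elim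
    rw [hj]
    show vec 0 1 (M • ev j) = _
    congr 1
    funext j'
    by_cases hjj : j' = j
    · subst hjj
      rw [if_pos ⟨hwj, hrj⟩]
      simp [ev]
    · rw [if_neg fun h => hjj (hinj j' j h.1 hwj (h.2.trans hrj.symm))]
      simp [ev, hjj]
  -- (b)
  have hb : cA a (bbM β M) (i (n - supCard w)) = vec 0 1 0 := by
    have h1 : i (n - supCard w) = Sum.inr (Sum.inl none) := by
      rcases hz : n - supCard w with _ | p
      · rcases hi : i 0 with i' | ((_ | j) | k)
        · rw [hi] at h0; simp only [fchT] at h0; omega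
        · rfl
        · rw [hi] at h0; simp only [fchT] at h0
          have := hrk j h0.1
          omega
        · rw [hi] at h0; simp only [fchT] at h0
      · have h1 := hs p (by omega)
        rcases hi : i (p + 1) with i' | ((_ | j) | k)
        · rw [hi] at h1; simp only [fchT] at h1; omega
        · rfl
        · rw [hi] at h1; simp only [fchT] at h1
          have h2 := hrk j h1.1.1
          have h3 : ¬ rk j ≤ p := fun h => h1.2 ⟨h1.1.1, h⟩
          omega
        · rw [hi] at h1; simp only [fchT] at h1; exact h1.1.elim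
    rw [h1]; rfl
  -- (c)
  have hc : ∀ t, ∃ i' : Fin r, t < supCard w → i (n - t) = Sum.inl i' ∧
      ∑ j, a i' j * v t j = H22.wmin a (v t) ∧
      (t + 1 < supCard w → ∑ j, a i' j * v (t + 1) j ≠ H22.wmin a (v (t + 1))) := by
    intro t
    by_cases ht : t < supCard w
    · have e1 : n - t = n - (t + 1) + 1 := by omega
      have e2 : n - (n - t) = t := by omega
      have e3 : n - (n - (t + 1)) = t + 1 := by omega
      have h1 := hs (n - (t + 1)) (by omega)
      rw [← e1] at h1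
      rcases hi : i (n - t) with i' | ((_ | j) | k)
      · rw [hi] at h1
        simp only [fchT, e2, e3] at h1
        exact ⟨i', fun _ => ⟨rfl, h1.1.2, fun h h' => h1.2 ⟨by omega, h'⟩⟩⟩
      · rw [hi] at h1; simp only [fchT] at h1; omega
      · rw [hi] at h1; simp only [fchT] at h1
        have h2 := hrk j h1.1.1
        exact absurd ⟨h1.1.1, by omega⟩ h1.2
      · rw [hi] at h1; simp only [fchT] at h1; exact h1.1.elim
    · obtain ⟨i'⟩ := hr
      exact ⟨i', fun h => absurd h ht⟩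
  choose q hq using hc
  refine ⟨q, fun t ht => (hq t ht).2, ?_⟩
  have e1 : n + 1 = (n - supCard w + 1) + supCard w := by omega
  rw [e1, Finset.sum_range_add, Finset.sum_range_succ, hb,
    Finset.sum_congr rfl (fun p hp => ha p (mem_range.mp hp)),
    ← Finset.sum_range_reflect (fun x => cA a (bbM β M) (i (n - supCard w + 1 + x)))]
  have e2 : ∀ t ∈ range (supCard w),
      cA a (bbM β M) (i (n - supCard w + 1 + (supCard w - 1 - t))) =
        vec 1 0 (fun j => (a (q t) j : ℤ)) := by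
    intro t ht
    rw [mem_range] at ht
    have e3 : n - supCard w + 1 + (supCard w - 1 - t) = n - t := by omega
    rw [e3, (hq t ht).1]
    rfl
  rw [Finset.sum_congr rfl e2, fch_sum_vec (range (n - supCard w)) (fun _ => 0) (fun _ => 1)
    (fun p j => if w j = 0 ∧ rk j = p then M else 0),
    fch_sum_vec (range (supCard w)) (fun _ => 1) (fun _ => 0) (fun t j => (a (q t) j : ℤ)),
    vec_add, vec_add]
  have e4 : ∀ (x y x' y' : ℤ) (f f' : Fin n → ℤ), x = x' → y = y' → f = f' →
      vec x y f = vec x' y' f' := by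
    rintro x y x' y' f f' rfl rfl rfl; rfl
  apply e4
  · simp
  · simp
    ring
  · funext j
    simp only [Pi.add_apply, add_zero]
    rw [add_comm]
    congr 1
    by_cases hj : w j = 0
    · simp only [hj, true_and, if_true]
      rw [Finset.sum_ite_eq, if_pos (mem_range.mpr (hrk j hj))]
    · simp [hj]

theorem fch_one (a : Fin r → (Fin n →₀ ℕ)) (w : Fin n → ℕ)
    (v : ℕ → Fin n → ℕ)
    (rk : Fin n → ℕ) (hrk : ∀ j, w j = 0 → rk j < n - supCard w)
    (hinj : ∀ j j', w j = 0 → w j' = 0 → rk j = rk j' → j = j')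
    (hsurj : ∀ p, p < n - supCard w → ∃ j, w j = 0 ∧ rk j = p)
    (p : ℕ) (hp : p < n - supCard w) :
    ∃ i1 : Fin r ⊕ (Option (Fin n) ⊕ Fin m), fchT a w v rk (n - supCard w) (p + 1) i1 ∧
      ¬ fchT a w v rk (n - supCard w) p i1 ∧
      ∀ i, fchT a w v rk (n - supCard w) (p + 1) i →
        fchT a w v rk (n - supCard w) p i ∨ i = i1 := by
  by_cases hp1 : p + 1 < n - supCard w
  · obtain ⟨j1, hw1, hr1⟩ := hsurj (p + 1) hp1
    refine ⟨Sum.inr (Sum.inl (some j1)), ?_, ?_, ?_⟩
    · simp only [fchT]; exact ⟨hw1, by omega⟩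
    · simp only [fchT]; rintro ⟨_, h⟩; omega
    · rintro (i | ((_ | j) | k)) hi
      · simp only [fchT] at hi; omega
      · simp only [fchT] at hi; omega
      · simp only [fchT] at hi ⊢
        by_cases h : rk j ≤ p
        · exact Or.inl ⟨hi.1, h⟩
        · right
          rw [hinj j j1 hi.1 hw1 (by omega)]
      · simp only [fchT] at hi
  · refine ⟨Sum.inr (Sum.inl none), ?_, ?_, ?_⟩
    · simp only [fchT]; omega
    · simp only [fchT]; omega
    · rintro (i | ((_ | j) | k)) hi
      · simp only [fchT] at hi; omega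
      · exact Or.inr rfl
      · simp only [fchT] at hi ⊢
        have := hrk j hi.1
        exact Or.inl ⟨hi.1, by omega⟩
      · simp only [fchT] at hi

end fch

/-- FCH -/
theorem fch {n r m : ℕ} (a : Fin r → (Fin n →₀ ℕ)) (w : Fin n → ℕ) (hw : w ≠ 0)
    (hN : 0 < H22.wmin a w) (β : Fin m → Fin n → ℤ) (v : ℕ → Fin n → ℕ) (hv : IsFlag a w β v)
    (M : ℤ) (hM : 0 < M) :
    ∃ H : ℕ → Lat (n + 2),
      H n = vec (-(H22.wmin a w : ℤ)) 0 (fun j => (w j : ℤ)) ∧
      (∀ j, j ≤ n → ∀ i, 0 ≤ dt (H j) (cA a (bbM β M) i)) ∧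
      (∃ i0, dt (H 0) (cA a (bbM β M) i0) = 0 ∧
        ∀ i, dt (H 0) (cA a (bbM β M) i) = 0 → cA a (bbM β M) i = cA a (bbM β M) i0) ∧
      (∀ j, j < n → ∀ i, dt (H j) (cA a (bbM β M) i) = 0 →
        dt (H (j + 1)) (cA a (bbM β M) i) = 0) ∧
      (∀ j, j < n → ∃ i1, dt (H (j + 1)) (cA a (bbM β M) i1) = 0 ∧
        dt (H j) (cA a (bbM β M) i1) ≠ 0) ∧
      (∀ j, j < n → ∀ g : Lat (n + 2), (∀ i, dt (H j) (cA a (bbM β M) i) = 0 →
        dt g (cA a (bbM β M) i) = 0) → ∃ N k : ℤ, N ≠ 0 ∧ ∀ i,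
          dt (H (j + 1)) (cA a (bbM β M) i) = 0 →
            N * dt g (cA a (bbM β M) i) = k * dt (H j) (cA a (bbM β M) i)) ∧
      ∀ i : ℕ → Fin r ⊕ (Option (Fin n) ⊕ Fin m),
        dt (H 0) (cA a (bbM β M) (i 0)) = 0 →
        (∀ j, j < n → dt (H (j + 1)) (cA a (bbM β M) (i (j + 1))) = 0 ∧
          dt (H j) (cA a (bbM β M) (i (j + 1))) ≠ 0) →
        ∃ q : ℕ → Fin r, IsFlagChoice a w v q ∧
          ∑ j ∈ range (n + 1), cA a (bbM β M) (i j) =
            vec (supCard w) ((1 + (n - supCard w) : ℕ) : ℤ)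
              (fun j => (∑ t ∈ range (supCard w), (a (q t) j : ℤ)) +
                if w j = 0 then M else 0) := by
  classical
  have hsc : supCard w ≤ n := by
    unfold supCard
    exact (card_le_univ _).trans (by simp)
  have hsc0 : 0 < supCard w := by
    unfold supCard
    obtain ⟨j, hj⟩ : ∃ j, w j ≠ 0 := Function.ne_iff.mp hw
    exact card_pos.mpr ⟨j, by simp [hj]⟩
  have hr : Nonempty (Fin r) := by
    by_contra h
    rw [not_nonempty_iff] at h
    have : H22.wmin a w = 0 := by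
      unfold H22.wmin
      exact Nat.iInf_of_empty _
    omega
  obtain ⟨rk, jz, he1, he2, he3, he4⟩ := fch_enum w
  have hrk : ∀ j, w j = 0 → rk j < n - supCard w := fun j hj => (he1 j hj).1
  have hsurj : ∀ p, p < n - supCard w → ∃ j, w j = 0 ∧ rk j = p := by
    intro p hp
    obtain ⟨j, hj⟩ := he2 p hp
    exact ⟨j, he3 p j hj⟩
  have hβ : ∀ k, 0 < ∑ j, β k j * (w j : ℤ) := by
    intro k
    have := (hv.2.1 0 hsc0).2.1 k
    rwa [hv.1] at this
  have hT : ∀ p, p ≤ n → ∀ i : Fin r ⊕ (Option (Fin n) ⊕ Fin m),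
      0 ≤ dt (fchH a w v rk M (1 + ∑ k, ∑ j, |β k j|) (1 + ∑ i, ∑ j, (a i j : ℤ))
        (n - supCard w) p) (cA a (bbM β M) i) ∧
      (dt (fchH a w v rk M (1 + ∑ k, ∑ j, |β k j|) (1 + ∑ i, ∑ j, (a i j : ℤ))
        (n - supCard w) p) (cA a (bbM β M) i) = 0 ↔
        fchT a w v rk (n - supCard w) p i) := by
    intro p hp i
    by_cases hpz : p < n - supCard w
    · exact fch_T1 a w v rk β M hM hβ _ p hpz i
    · refine fch_T2 a w v rk β M hM _ _ _ p hrk (by omega) hβ ?_ ?_ i
      · intro h k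
        exact (hv.2.1 (n - p) (by omega)).2.1 k
      · intro h j
        exact (hv.2.1 (n - p) (by omega)).1 j
  refine ⟨fchH a w v rk M (1 + ∑ k, ∑ j, |β k j|) (1 + ∑ i, ∑ j, (a i j : ℤ))
        (n - supCard w), ?_, ?_, ?_, ?_, ?_, ?_, ?_⟩
  · unfold fchH
    rw [if_neg (by omega), if_neg (by omega), Nat.sub_self, hv.1]
  · intro p hp i
    exact (hT p hp i).1
  · by_cases hz : 0 < n - supCard w
    · obtain ⟨j0, hw0, hr0⟩ := hsurj 0 hz
      refine ⟨Sum.inr (Sum.inl (some j0)), ?_, ?_⟩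
      · rw [(hT 0 (by omega) _).2]
        simp only [fchT]; exact ⟨hw0, by omega⟩
      · intro i hi
        rw [(hT 0 (by omega) _).2] at hi
        rcases i with i | ((_ | j) | k)
        · simp only [fchT] at hi; omega
        · simp only [fchT] at hi; omega
        · simp only [fchT] at hi
          rw [he4 j j0 hi.1 hw0 (by omega)]
        · simp only [fchT] at hi
    · refine ⟨Sum.inr (Sum.inl none), ?_, ?_⟩
      · rw [(hT 0 (by omega) _).2]
        simp only [fchT]; omega
      · intro i hi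
        rw [(hT 0 (by omega) _).2] at hi
        rcases i with i | ((_ | j) | k)
        · simp only [fchT] at hi; omega
        · rfl
        · simp only [fchT] at hi
          have := hrk j hi.1
          omega
        · simp only [fchT] at hi
  · intro p hp i hi
    rw [(hT p hp.le _).2] at hi
    rw [(hT (p + 1) (by omega) _).2]
    exact fch_mono a w β v hv rk p hp i hi
  · intro p hp
    by_cases hpz : p < n - supCard w
    · obtain ⟨i1, h1, h2, _⟩ := fch_one (m := m) a w v rk hrk he4 hsurj p hpz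
      refine ⟨i1, ?_, ?_⟩
      · rw [(hT (p + 1) (by omega) _).2]; exact h1
      · rw [Ne, (hT p hp.le _).2]; exact h2
    · obtain ⟨i0, hi0, hi0'⟩ := fch_strict a w β v hv hr p hp (by omega)
      refine ⟨Sum.inl i0, ?_, ?_⟩
      · rw [(hT (p + 1) (by omega) _).2]
        simp only [fchT]
        exact ⟨by omega, hi0⟩
      · rw [Ne, (hT p hp.le _).2]
        simp only [fchT]
        rintro ⟨h1, h2⟩
        exact hi0' h1 h2
  · intro p hp g hg
    by_cases hpz : p < n - supCard w
    · obtain ⟨i1, h1, h2, h3⟩ := fch_one (m := m) a w v rk hrk he4 hsurj p hpz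
      refine ⟨dt (fchH a w v rk M (1 + ∑ k, ∑ j, |β k j|) (1 + ∑ i, ∑ j, (a i j : ℤ))
        (n - supCard w) p) (cA a (bbM β M) i1), dt g (cA a (bbM β M) i1), ?_, ?_⟩
      · rw [Ne, (hT p hp.le _).2]; exact h2
      · intro i hi
        rw [(hT (p + 1) (by omega) _).2] at hi
        rcases h3 i hi with h | h
        · have h4 := (hT p hp.le i).2.2 h
          rw [hg i h4, h4]; ring
        · rw [h]; ring
    · obtain ⟨c, q, hcq⟩ : ∃ c q, fchH a w v rk M (1 + ∑ k, ∑ j, |β k j|)
          (1 + ∑ i, ∑ j, (a i j : ℤ)) (n - supCard w) p = vec c 0 q := by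
        unfold fchH
        rw [if_neg hpz]
        split_ifs
        · exact ⟨_, _, rfl⟩
        · exact ⟨_, _, rfl⟩
      have hTp := hT p hp.le
      rw [hcq] at hTp hg
      have := fch_prop a w β M hM v hv hr rk hrk p hp (by omega) c q (fun i => (hTp i).2) g
        (fun i hi => hg i ((hTp i).2.2 hi))
      obtain ⟨N, k, hN0, hNk⟩ := this
      refine ⟨N, k, hN0, fun i hi => ?_⟩
      rw [(hT (p + 1) (by omega) _).2] at hi
      rw [hcq]
      exact hNk i hi
  · intro i h0 hs
    refine fch_last a w hw β M v hr rk hrk he4 i ((hT 0 (by omega) _).2.1 h0) ?_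
    intro p hp
    obtain ⟨h1, h2⟩ := hs p hp
    rw [(hT (p + 1) (by omega) _).2] at h1
    rw [Ne, (hT p hp.le _).2] at h2
    exact ⟨h1, h2⟩

end Pool.Agent.H56.SMC

end S_FCH
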