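import Mathlib
import Pool.Agent.H56.SMC.UDefs
import Pool.Agent.H56.SL.A3
import Pool.Agent.H56.SL.A4
import Pool.Agent.H56.SL.A5
import Pool.Agent.H56.SL.A7

/-! Strong monodromy for nondegenerate polynomials, part A9: this file joins the modules FSTEP, FLAG, FLAGB, MUX. -/

set_option autoImplicit false

section S_FSTEP

/-!
# FSTEP: a class on a facet of a face gives a class on the face

`NotIn a c H z`: `z` is not in the submodule generated by the symbols of the face `{H = 0}` in the module of its interior lattice points.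
Proof.  Faces `T' = {dt H' (a i) = 0} ⊆ T = {dt H (a i) = 0}` (`hsub`).  Choose a maximal independent family `e' : Fin s → ι` in `T'` and functionals `ℓ' : Fin s → Lat d` (e.g. suitable `ev j`) which are a basis (over `ℚ`) of the functionals
restricted to `T'` (`hℓ` of `kexg` for `T'`).  By `hrank` the functionals `ℓ'_1, …, ℓ'_s, H'` have the property `hℓ` for `T` (given `g`, subtract a combination of the `ℓ'` so that it vanishes on `T'`), and `e'` together with `i1` (`hstrict`) is independent.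
Suppose `gs a (cF a c H) H' * z = ∑_j gs a (cF a c H) (ev j) * z_j` with `z_j` supported in `Om a H`; rewrite the right side as `∑_{k<s} g_k w_k + g' w'` with `g_k = gs a (cF a c H) (ℓ'_k)`, `g' = gs a (cF a c H) H'`, `w_k`, `w'` supported in `Om a H`.
So `∑ g_k (-w_k) + g' (z - w') = 0`, a relation in the module `M = {u : m0 u + y0 ∈ Sset h, dt H u = 0}`, `y0 = -∑_{i∈T'} a i`, `m0` large: for a functional `h v` not vanishing on `T'` `dt (h v) u ≥ 1` on `Om a H` and on `Om a H'`, so `m0 dt (h v) u ≥ dt (h v) (∑_{T'} a i)`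
if `m0` is larger than all `dt (h v) (∑_{T'} a i)`; for `h v` vanishing on `T'` `dt (h v) y0 = 0`.  `kexg` gives `z - w' = ∑_{k<s} g_k y_k` (`+ g' * y` with `y` the diagonal entry, `0` by antisymmetry) with `y_k` supported in `M`.  Take the part with `dt H' u = 0`: `w'` has `dt H' u ≥ 1` (`H'` does not vanish on `T`), so
`z = ∑_k gs a (cF a c H') (ℓ'_k) * ȳ_k`, `ȳ_k` supported in `M ∩ {dt H' u = 0} ⊆ Om a H'`: let `u` be in it and `h''` any functional nonnegative on the `a i`; `hfac` (for `m0 u + y0`, and `m0 u = (m0 u + y0) - y0`) gives `N m0 u = ∑ n_i a_i` with `n_i > 0` for `i ∈ T'`, and `n_i = 0` for `i ∉ T'` because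
`dt H' u = 0`; so `dt h'' u ≥ 0`, `= 0` iff `h''` vanishes on `T'`.  Finally `gs a (cF a c H') (ℓ'_k)` is an integral combination of the `gs a (cF a c H') (ev j)`.
-/

set_option autoImplicit false

namespace Pool.Agent.H56.SMC

open Finset AddMonoidAlgebra

/-- `z` is not a combination of the symbols of the face `{H = 0}` with coefficients in its
interior module. -/
def NotIn {d : ℕ} {ι : Type} [Fintype ι] (a : ι → Lat d) (c : ι → ℂ) (H : Lat d) (z : LP ℂ d) :
    Prop :=
  ¬ ∃ y : Fin d → LP ℂ d, (∀ j, Supp {u | Om a H u} (y j)) ∧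
    z = ∑ j, gs a (cF a c H) (ev j) * y j

namespace FSTEPaux

theorem exists_max_family {d : ℕ} {ι : Type} (a : ι → Lat d) (P : ι → Prop) :
    ∃ (s : ℕ) (e : Fin s → ι), (∀ k, P (e k)) ∧ LinearIndependent ℤ (fun k => a (e k)) ∧
      ∀ i, P i → ∃ M : ℤ, M ≠ 0 ∧ ∃ m : Fin s → ℤ, M • a i = ∑ k, m k • a (e k) := by
  classical
  let Q : ℕ → Prop := fun s => ∃ e : Fin s → ι, (∀ k, P (e k)) ∧
    LinearIndependent ℤ (fun k => a (e k))
  have hQ0 : Q 0 := ⟨Fin.elim0, fun k => k.elim0, linearIndependent_empty_type⟩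
  have hbd : ∀ s, Q s → s ≤ d := by
    rintro s ⟨e, -, he⟩
    have := he.fintype_card_le_finrank
    simpa using this
  obtain ⟨s, hs, hmax⟩ : ∃ s, Q s ∧ ∀ t, Q t → t ≤ s :=
    ⟨Nat.findGreatest Q d, Nat.findGreatest_spec (Nat.zero_le d) hQ0,
      fun t ht => Nat.le_findGreatest (hbd t ht) ht⟩
  obtain ⟨e, heP, he⟩ := hs
  refine ⟨s, e, heP, he, fun i hi => ?_⟩
  by_contra hcon
  have hQ : Q (s + 1) := by
    refine ⟨Fin.cons i e, Fin.cases hi heP, ?_⟩
    have h1 : (fun k => a ((Fin.cons i e : Fin (s + 1) → ι) k)) =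
        Fin.cons (a i) (fun k => a (e k)) := by
      funext k
      refine Fin.cases ?_ (fun k => ?_) k <;> simp
    rw [h1]
    refine LinearIndependent.finCons' _ _ he ?_
    intro c y hy' hy
    by_contra hc
    apply hcon
    rw [Submodule.mem_span_range_iff_exists_fun] at hy'
    obtain ⟨m, hm⟩ := hy'
    refine ⟨c, hc, fun k => -m k, ?_⟩
    rw [← hm] at hy
    simp only [neg_smul, sum_neg_distrib]
    exact eq_neg_of_add_eq_zero_left hy
  have := hmax _ hQ
  omega

theorem dt_self {d : ℕ} (x : Lat d) (h : dt x x = 0) : x = 0 := by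
  funext j
  have h1 := (sum_eq_zero_iff_of_nonneg (fun j _ => mul_self_nonneg (x j))).1 h j (mem_univ j)
  simpa using h1

theorem gram {d s : ℕ} {ι : Type} (a : ι → Lat d) (P : ι → Prop) (e : Fin s → ι)
    (he : LinearIndependent ℤ (fun k => a (e k)))
    (hmax : ∀ i, P i → ∃ M : ℤ, M ≠ 0 ∧ ∃ m : Fin s → ℤ, M • a i = ∑ k, m k • a (e k))
    (g : Lat d) :
    ∃ N : ℤ, N ≠ 0 ∧ ∃ n : Fin s → ℤ, ∀ i, P i →
      N * dt g (a i) = ∑ k, n k * dt (a (e k)) (a i) := by
  classical
  let G : Matrix (Fin s) (Fin s) ℤ := Matrix.of (fun j k => dt (a (e j)) (a (e k)))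
  have hG : G.det ≠ 0 := by
    intro h0
    obtain ⟨v, hv, hv0⟩ := Matrix.exists_mulVec_eq_zero_iff.2 h0
    set x : Lat d := ∑ k, v k • a (e k) with hx
    have h1 : ∀ j, dt (a (e j)) x = 0 := by
      intro j
      have := congrFun hv0 j
      simp only [Matrix.mulVec, dotProduct, Pi.zero_apply, G, Matrix.of_apply] at this
      rw [hx, dt_sum, ← this]
      exact sum_congr rfl fun k _ => by rw [dt_zsmul, mul_comm]
    have h2 : dt x x = 0 := by
      nth_rw 1 [dt_comm]
      nth_rw 2 [hx]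
      rw [dt_sum]
      refine sum_eq_zero fun k _ => ?_
      rw [dt_zsmul, dt_comm, h1, mul_zero]
    have h3 : x = 0 := dt_self x h2
    exact hv (funext fun k => Fintype.linearIndependent_iff.1 he v h3 k)
  refine ⟨G.det, hG, G.adjugate.mulVec (fun j => dt g (a (e j))), fun i hi => ?_⟩
  obtain ⟨M, hM, m, hm⟩ := hmax i hi
  set n := G.adjugate.mulVec (fun j => dt g (a (e j))) with hn
  have h1 : ∀ j, ∑ k, n k * dt (a (e k)) (a (e j)) = G.det * dt g (a (e j)) := by
    intro j
    have h2 : G.mulVec n = fun j => G.det * dt g (a (e j)) := by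
      rw [hn, Matrix.mulVec_mulVec, Matrix.mul_adjugate]
      funext j
      simp
    have h3 := congrFun h2 j
    simp only [Matrix.mulVec, dotProduct, G, Matrix.of_apply] at h3
    rw [← h3]
    exact sum_congr rfl fun k _ => by rw [dt_comm (a (e k)), mul_comm]
  apply mul_left_cancel₀ hM
  have h4 : ∀ x : Lat d, M * dt x (a i) = ∑ j, m j * dt x (a (e j)) := by
    intro x
    rw [← dt_zsmul, hm, dt_sum]
    exact sum_congr rfl fun k _ => dt_zsmul _ _ _
  calc M * (G.det * dt g (a i)) = G.det * (M * dt g (a i)) := by ring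
    _ = ∑ j, m j * (G.det * dt g (a (e j))) := by
        rw [h4, mul_sum]; exact sum_congr rfl fun j _ => by ring
    _ = ∑ j, m j * ∑ k, n k * dt (a (e k)) (a (e j)) :=
        sum_congr rfl fun j _ => by rw [h1]
    _ = ∑ k, n k * (M * dt (a (e k)) (a i)) := by
        simp only [h4, mul_sum]
        rw [sum_comm]
        exact sum_congr rfl fun k _ => sum_congr rfl fun j _ => by ring
    _ = M * ∑ k, n k * dt (a (e k)) (a i) := by
        rw [mul_sum]; exact sum_congr rfl fun k _ => by ring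

/-- Linearity of the symbols in the functional. -/
theorem gs_lin {d s : ℕ} {ι : Type} [Fintype ι] (a : ι → Lat d) (c : ι → ℂ) (g : Lat d)
    (ℓ : Fin s → Lat d) (N : ℤ) (hN : N ≠ 0) (n : Fin s → ℤ)
    (h : ∀ i, c i ≠ 0 → N * dt g (a i) = ∑ k, n k * dt (ℓ k) (a i)) :
    gs a c g = ∑ k, ((n k : ℂ) / (N : ℂ)) • gs a c (ℓ k) := by
  have hN' : (N : ℂ) ≠ 0 := by exact_mod_cast hN
  unfold gs
  simp only [smul_sum]
  rw [sum_comm]
  refine sum_congr rfl fun i _ => ?_
  apply lp_ext
  intro u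
  rw [coeff_finsum]
  simp only [coeff_smul', coeff_single']
  by_cases hu : u = a i
  · simp only [hu, if_true]
    by_cases hc : c i = 0
    · simp [hc]
    · have h1 := h i hc
      have h2 : (N : ℂ) * (dt g (a i) : ℂ) = ∑ k, (n k : ℂ) * (dt (ℓ k) (a i) : ℂ) := by
        exact_mod_cast h1
      have h3 : (dt g (a i) : ℂ) = ∑ k, (n k : ℂ) / (N : ℂ) * (dt (ℓ k) (a i) : ℂ) := by
        have : ∑ k, (n k : ℂ) / (N : ℂ) * (dt (ℓ k) (a i) : ℂ) =
            (∑ k, (n k : ℂ) * (dt (ℓ k) (a i) : ℂ)) / N := by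
          rw [sum_div]; exact sum_congr rfl fun k _ => by ring
        rw [this, ← h2]
        field_simp
      rw [h3, mul_sum]
      exact sum_congr rfl fun k _ => by ring
  · simp [hu]

end FSTEPaux

open FSTEPaux in
/-- FSTEP -/
theorem fstep {d : ℕ} {ι κ : Type} [Fintype ι] [Fintype κ] (a : ι → Lat d) (c : ι → ℂ)
    (h : κ → Lat d) (δ : Lat d) (hδ : ∀ i, dt δ (a i) = 1) (hh : ∀ v i, 0 ≤ dt (h v) (a i))
    (hfac : ∀ u ∈ Sset h, ∃ N : ℕ, 0 < N ∧ ∃ n : ι → ℕ, N • u = ∑ i, n i • a i)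
    (hnd : TorusND a c) (H H' : Lat d) (hH : ∀ i, 0 ≤ dt H (a i)) (hH' : ∀ i, 0 ≤ dt H' (a i))
    (hsub : ∀ i, dt H' (a i) = 0 → dt H (a i) = 0)
    (hstrict : ∃ i1, dt H (a i1) = 0 ∧ dt H' (a i1) ≠ 0)
    (hrank : ∀ g : Lat d, (∀ i, dt H' (a i) = 0 → dt g (a i) = 0) →
      ∃ N n : ℤ, N ≠ 0 ∧ ∀ i, dt H (a i) = 0 → N * dt g (a i) = n * dt H' (a i))
    (z : LP ℂ d) (hz : Supp {u | Om a H' u} z) (hno : NotIn a c H' z) :
    NotIn a c H (gs a (cF a c H) H' * z) := by
  classical
  rintro ⟨zz, hzz, hrel⟩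
  apply hno
  obtain ⟨s, e, heP, he, hmax⟩ := exists_max_family a (fun i => dt H' (a i) = 0)
  obtain ⟨i1, hi1, hi1'⟩ := hstrict
  -- the functionals on `T'`
  have hg1 := gram a (fun i => dt H' (a i) = 0) e he hmax
  set ℓ' : Fin s → Lat d := fun k => a (e k) with hℓ'
  -- the functionals on `T`
  have hg2 : ∀ g : Lat d, ∃ N : ℤ, N ≠ 0 ∧ ∃ n : Fin (s + 1) → ℤ, ∀ i, dt H (a i) = 0 →
      N * dt g (a i) = ∑ k, n k * dt ((Fin.cons H' ℓ' : Fin (s + 1) → Lat d) k) (a i) := by
    intro g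
    obtain ⟨N, hN, n, hn⟩ := hg1 g
    have hdt : ∀ u, dt (N • g - ∑ k, n k • ℓ' k) u = N * dt g u - ∑ k, n k * dt (ℓ' k) u := by
      intro u
      rw [dt_comm, dt_sub, dt_zsmul, dt_sum, dt_comm u g]
      congr 1
      exact sum_congr rfl fun k _ => by rw [dt_zsmul, dt_comm]
    obtain ⟨N2, n2, hN2, h2⟩ := hrank (N • g - ∑ k, n k • ℓ' k) (fun i hi => by
      rw [hdt, hn i hi, sub_self])
    refine ⟨N2 * N, mul_ne_zero hN2 hN, Fin.cons n2 (fun k => N2 * n k), fun i hi => ?_⟩
    have h3 := h2 i hi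
    rw [hdt] at h3
    rw [Fin.sum_univ_succ]
    simp only [Fin.cons_zero, Fin.cons_succ]
    rw [← h3]
    have : ∑ k, N2 * n k * dt (ℓ' k) (a i) = N2 * ∑ k, n k * dt (ℓ' k) (a i) := by
      rw [mul_sum]; exact sum_congr rfl fun k _ => by ring
    rw [this]
    ring
  -- independence
  have hind : LinearIndependent ℤ (fun k => a ((Fin.cons i1 e : Fin (s + 1) → ι) k)) := by
    have h1 : (fun k => a ((Fin.cons i1 e : Fin (s + 1) → ι) k)) =
        Fin.cons (a i1) (fun k => a (e k)) := by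
      funext k
      refine Fin.cases ?_ (fun k => ?_) k <;> simp
    rw [h1]
    refine LinearIndependent.finCons' _ _ he ?_
    intro c' y hy' hy
    rw [Submodule.mem_span_range_iff_exists_fun] at hy'
    obtain ⟨m, hm⟩ := hy'
    have h2 := congrArg (dt H') hy
    rw [dt_add, dt_zsmul, dt_zero, ← hm, dt_sum, sum_eq_zero, add_zero] at h2
    · exact (mul_eq_zero.1 h2).resolve_right hi1'
    · intro k _
      rw [dt_zsmul, heP k, mul_zero]
  -- the level
  set Y : Lat d := ∑ i with dt H' (a i) = 0, a i with hY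
  obtain ⟨m0, hm0, hm0'⟩ : ∃ m0 : ℤ, 0 < m0 ∧ ∀ v, dt (h v) Y ≤ m0 := by
    refine ⟨1 + ∑ v, |dt (h v) Y|, ?_, fun v => ?_⟩
    · have : 0 ≤ ∑ v, |dt (h v) Y| := sum_nonneg fun v _ => abs_nonneg _
      omega
    · have h1 : |dt (h v) Y| ≤ ∑ v, |dt (h v) Y| :=
        single_le_sum (f := fun v => |dt (h v) Y|) (fun v _ => abs_nonneg _) (mem_univ v)
      have h2 := le_abs_self (dt (h v) Y)
      omega
  have hHY : dt H Y = 0 := by
    rw [hY, dt_sum]
    exact sum_eq_zero fun i hi => hsub i (mem_filter.1 hi).2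
  have hH'Y : dt H' Y = 0 := by
    rw [hY, dt_sum]
    exact sum_eq_zero fun i hi => (mem_filter.1 hi).2
  have hgsl : ∀ j, ∃ (n : Fin s → ℂ) (n0 : ℂ),
      gs a (cF a c H) (ev j) = n0 • gs a (cF a c H) H' +
        ∑ k, n k • gs a (cF a c H) (ℓ' k) := by
    intro j
    obtain ⟨N, hN, n, hn⟩ := hg2 (ev j)
    refine ⟨fun k => (n k.succ : ℂ) / N, (n 0 : ℂ) / N, ?_⟩
    rw [gs_lin a (cF a c H) (ev j) (Fin.cons H' ℓ') N hN n, Fin.sum_univ_succ]
    · simp only [Fin.cons_zero, Fin.cons_succ]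
    · intro i hi
      apply hn
      by_contra hne
      exact hi (by simp [cF, hne])
  choose nn n0 hgj using hgsl
  -- members of `Om a H` and `Om a H'`
  have hOmM : ∀ (K : Lat d), (∀ i, dt H' (a i) = 0 → dt K (a i) = 0) →
      (∀ i, dt K (a i) = 0 → dt H (a i) = 0) →
      ∀ u, Om a K u → m0 • u + -Y ∈ Sset h ∧ dt H u = 0 := by
    intro K hK1 hK2 u hu
    refine ⟨fun v => ?_, ?_⟩
    · rw [dt_add, dt_zsmul, dt_neg]
      obtain ⟨h1, h2⟩ := hu (h v) (hh v)
      by_cases h3 : dt (h v) u = 0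
      · have h4 : dt (h v) Y = 0 := by
          rw [hY, dt_sum]
          exact sum_eq_zero fun i hi => h2.1 h3 i (hK1 i (mem_filter.1 hi).2)
        rw [h3, h4]; simp
      · have h4 : 1 ≤ dt (h v) u := by omega
        have h5 := hm0' v
        nlinarith
    · exact (hu H hH).2.2 hK2
  set x0 : LP ℂ d := z - ∑ j, n0 j • zz j with hx0
  set xs : Fin s → LP ℂ d := fun k => -∑ j, nn j k • zz j with hxs
  obtain ⟨y, hy, hanti, hyx⟩ := kexg a c h δ hδ hh hfac hnd H hH
    (Fin.cons H' ℓ' : Fin (s + 1) → Lat d) hg2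
    (Fin.cons i1 e : Fin (s + 1) → ι) (Fin.cases hi1 (fun k => hsub _ (heP k))) hind m0 hm0 (-Y)
    (by rw [dt_neg, hHY, neg_zero]) (Fin.cons x0 xs : Fin (s + 1) → LP ℂ d)
    (by
      refine Fin.cases ?_ (fun k => ?_)
      · rw [Fin.cons_zero]
        refine Supp.sub (hz.mono fun u hu => hOmM H' (fun _ h => h) hsub u hu)
          (Supp.sum _ fun j _ => Supp.smul _ ((hzz j).mono fun u hu => hOmM H hsub (fun _ h => h) u hu))
      · rw [Fin.cons_succ]
        exact Supp.neg
          (Supp.sum _ fun j _ => Supp.smul _ ((hzz j).mono fun u hu => hOmM H hsub (fun _ h => h) u hu)))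
    (by
      rw [Fin.sum_univ_succ]
      simp only [Fin.cons_zero, Fin.cons_succ, hx0, hxs]
      rw [mul_sub, hrel]
      have h1 : ∀ j, gs a (cF a c H) (ev j) * zz j = gs a (cF a c H) H' * (n0 j • zz j) +
          ∑ k, gs a (cF a c H) (ℓ' k) * (nn j k • zz j) := by
        intro j
        rw [hgj j, add_mul, sum_mul]
        congr 1
        · rw [Algebra.smul_mul_assoc, Algebra.mul_smul_comm]
        · exact sum_congr rfl fun k _ => by rw [Algebra.smul_mul_assoc, Algebra.mul_smul_comm]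
      rw [sum_congr rfl (fun j _ => h1 j), sum_add_distrib, mul_sum, sum_comm]
      have h2 : ∑ k, gs a (cF a c H) (ℓ' k) * -∑ j, nn j k • zz j =
          -∑ k, ∑ j, gs a (cF a c H) (ℓ' k) * (nn j k • zz j) := by
        rw [← sum_neg_distrib]
        exact sum_congr rfl fun k _ => by rw [mul_neg, mul_sum]
      rw [h2]
      abel)
  have hy00 : y 0 0 = 0 := by
    have h1 := hanti 0 0
    exact lp_eq_neg_self _ h1
  have hx0' : x0 = ∑ k : Fin s, gs a (cF a c H) (ℓ' k) * y 0 k.succ := by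
    have h1 := hyx 0
    rw [Fin.sum_univ_succ] at h1
    simp only [Fin.cons_zero, Fin.cons_succ, hy00, mul_zero, zero_add] at h1
    exact h1
  -- the projection
  set π : LP ℂ d → LP ℂ d := fun x => dg (fun u => if dt H' u = 0 then 1 else 0) x with hπ
  have hπc : ∀ x u, (π x).coeff u = if dt H' u = 0 then x.coeff u else 0 := by
    intro x u
    simp only [hπ, dg_coeff]
    split_ifs <;> simp
  -- members of `M`
  have hM0 : ∀ u, m0 • u + -Y ∈ Sset h → 0 ≤ dt H' u := by
    intro u hu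
    obtain ⟨N, hN, n, hn⟩ := hfac _ hu
    have h1 := congrArg (dt H') hn
    rw [dt_nsmul, dt_add, dt_zsmul, dt_neg, hH'Y, neg_zero, add_zero, dt_sum] at h1
    have h2 : 0 ≤ ∑ i, dt H' (n i • a i) := sum_nonneg fun i _ => by
      rw [dt_nsmul]; exact mul_nonneg (by positivity) (hH' i)
    rw [← h1] at h2
    have hN' : (0 : ℤ) < N := by exact_mod_cast hN
    have h3 : 0 ≤ m0 * dt H' u := nonneg_of_mul_nonneg_right h2 hN'
    exact nonneg_of_mul_nonneg_right h3 hm0
  have hMOm : ∀ u, m0 • u + -Y ∈ Sset h → dt H' u = 0 → Om a H' u := by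
    intro u hu hu0 h'' hh''
    obtain ⟨N, hN, n, hn⟩ := hfac _ hu
    have hN' : (0 : ℤ) < N := by exact_mod_cast hN
    have h1 := congrArg (dt H') hn
    rw [dt_nsmul, dt_add, dt_zsmul, dt_neg, hH'Y, hu0, dt_sum] at h1
    have h1' : ∑ i, dt H' (n i • a i) = 0 := by rw [← h1]; ring
    have h2 : ∀ i, dt H' (a i) ≠ 0 → n i = 0 := by
      intro i hi
      have h3 := (sum_eq_zero_iff_of_nonneg (fun i _ => by
        rw [dt_nsmul]; exact mul_nonneg (by positivity) (hH' i))).1 h1' i (mem_univ i)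
      rw [dt_nsmul] at h3
      exact_mod_cast (mul_eq_zero.1 h3).resolve_right hi
    have h4 := congrArg (dt h'') hn
    rw [dt_nsmul, dt_add, dt_zsmul, dt_neg, dt_sum univ] at h4
    have h5 : (N : ℤ) * m0 * dt h'' u = ∑ i with dt H' (a i) = 0, ((n i : ℤ) + N) * dt h'' (a i) := by
      have h6 : ∑ i, dt h'' (n i • a i) = ∑ i with dt H' (a i) = 0, (n i : ℤ) * dt h'' (a i) := by
        rw [sum_filter]
        refine sum_congr rfl fun i _ => ?_
        rw [dt_nsmul]
        split_ifs with h7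
        · rfl
        · rw [h2 i h7]; simp
      have h7 : dt h'' Y = ∑ i with dt H' (a i) = 0, dt h'' (a i) := by rw [hY, dt_sum]
      rw [h6, h7] at h4
      simp only [add_mul, sum_add_distrib]
      rw [← h4, ← mul_sum]
      ring
    have h6 : 0 < (N : ℤ) * m0 := mul_pos hN' hm0
    have h7 : ∀ i ∈ univ.filter (fun i => dt H' (a i) = 0), 0 ≤ ((n i : ℤ) + N) * dt h'' (a i) :=
      fun i _ => mul_nonneg (by positivity) (hh'' i)
    refine ⟨?_, ?_, ?_⟩
    · have h8 : 0 ≤ (N : ℤ) * m0 * dt h'' u := by rw [h5]; exact sum_nonneg h7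
      exact nonneg_of_mul_nonneg_right h8 h6
    · intro h8 i hi
      rw [h8, mul_zero] at h5
      have h9 := (sum_eq_zero_iff_of_nonneg h7).1 h5.symm i (mem_filter.2 ⟨mem_univ _, hi⟩)
      exact (mul_eq_zero.1 h9).resolve_left (by positivity)
    · intro h8
      have h9 : (N : ℤ) * m0 * dt h'' u = 0 := by
        rw [h5]
        exact sum_eq_zero fun i hi => by rw [h8 i (mem_filter.1 hi).2, mul_zero]
      exact (mul_eq_zero.1 h9).resolve_left h6.ne'
  have hπgs : ∀ k : Fin s, π (gs a (cF a c H) (ℓ' k) * y 0 k.succ) =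
      gs a (cF a c H') (ℓ' k) * π (y 0 k.succ) := by
    intro k
    apply lp_ext
    intro u
    rw [hπc, gs_mul_coeff, gs_mul_coeff]
    by_cases hu : dt H' u = 0
    · rw [if_pos hu]
      refine sum_congr rfl fun i _ => ?_
      by_cases hi : dt H' (a i) = 0
      · rw [hπc, dt_sub, hu, hi]
        simp [cF, hi, hsub i hi]
      · have h1 : (y 0 k.succ).coeff (u - a i) = 0 := by
          by_contra hne
          have h2 := hM0 _ (hy 0 k.succ _ hne).1
          rw [dt_sub, hu] at h2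
          have h3 := hH' i
          omega
        rw [h1]
        simp [cF, hi]
    · rw [if_neg hu]
      symm
      refine sum_eq_zero fun i _ => ?_
      by_cases hi : dt H' (a i) = 0
      · rw [hπc, dt_sub, hi, sub_zero, if_neg hu, mul_zero]
      · simp [cF, hi]
  have hπadd : ∀ (f : Fin s → LP ℂ d), π (∑ k, f k) = ∑ k, π (f k) := by
    intro f
    apply lp_ext
    intro u
    rw [hπc, coeff_finsum, coeff_finsum]
    simp only [hπc]
    split_ifs <;> simp
  have hzπ : π x0 = z := by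
    apply lp_ext
    intro u
    rw [hπc, hx0, coeff_sub', coeff_finsum]
    simp only [coeff_smul']
    split_ifs with hu
    · have h1 : ∀ j, (zz j).coeff u = 0 := by
        intro j
        by_contra hne
        have h2 := (hzz j u hne) H' hH'
        exact hi1' (h2.2.1 hu i1 hi1)
      simp [h1]
    · symm
      by_contra hne
      exact hu (((hz u hne) H' hH').2.2 (fun _ h => h))
  have hfin : z = ∑ k, gs a (cF a c H') (ℓ' k) * π (y 0 k.succ) := by
    rw [← hzπ, hx0', hπadd]
    exact sum_congr rfl fun k _ => hπgs k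
  refine ⟨fun j => ∑ k, ((ℓ' k j : ℤ) : ℂ) • π (y 0 k.succ), fun j => ?_, ?_⟩
  · refine Supp.sum _ fun k _ => Supp.smul _ ?_
    intro u hu
    rw [hπc] at hu
    by_cases hu0 : dt H' u = 0
    · rw [if_pos hu0] at hu
      exact hMOm u (hy 0 k.succ u hu).1 hu0
    · rw [if_neg hu0] at hu
      exact absurd rfl hu
  · have h1 : ∀ k, gs a (cF a c H') (ℓ' k) =
        ∑ j, ((ℓ' k j : ℤ) : ℂ) • gs a (cF a c H') (ev j) := by
      intro k
      have := gs_lin a (cF a c H') (ℓ' k) (fun j : Fin d => ev j) 1 one_ne_zero (ℓ' k)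
        (fun i _ => by rw [one_mul]; exact dt_left _ _)
      simpa using this
    rw [hfin]
    simp only [h1, sum_mul, mul_sum, Algebra.smul_mul_assoc, Algebra.mul_smul_comm]
    rw [sum_comm]

end Pool.Agent.H56.SMC

end S_FSTEP

section S_FLAG

/-!
# FLAG: flags of faces give nonzero classes

Proof.  Induction on `s`.  `s = 1`: `i 0 = i0`, `α = a i0`; all `a i` in the face `T_0` equal `α`.  `Om a (H 0) α`: clear.  `NotIn`: if `single α 1 = ∑_j gs a (cF a c (H 0)) (ev j) * y_j`, then some `y_j` has an exponent `u` with `Om a (H 0) u` and `u = α - α = 0`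
(the exponents of the symbols are `α`), but `dt δ u ≥ 1` for `Om a (H 0) u` (apply the definition with `h = δ`: nonnegative and zero iff `δ` vanishes on `T_0`, impossible since `dt δ α = 1`), a contradiction.
Step: `μ = ∑_{j<s} a (i j)`, `z = single μ 1`; `fstep` with `H' = H (s-1)`, `H = H s`: `NotIn a c (H s) (gs a (cF a c (H s)) (H (s-1)) * single μ 1)`.  The element is `∑_{i' : dt (H s) (a i') = 0} c_{i'} dt (H (s-1)) (a i') single (a i' + μ) 1`, so one `i'` with
`dt (H s) (a i') = 0`, `dt (H (s-1)) (a i') ≠ 0` has `NotIn a c (H s) (single (a i' + μ) 1)` (otherwise, by linearity, the sum would be a combination).  `Om a (H s) (μ + a i')`: for `h''` nonnegative: `dt h'' ≥ 0`; if it is `0` then `dt h'' μ = 0`, so `h''` vanishes on `T_{s-1}`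
and by the rank condition `N h'' = n H (s-1)` on `T_s`; at `i'`: `n = 0`, so `h''` vanishes on `T_s`; conversely clear.
-/

set_option autoImplicit false

namespace Pool.Agent.H56.SMC

open Finset AddMonoidAlgebra

/-- the submodule property: combinations of the symbols -/
theorem flag_smul_sum {d : ℕ} {ι : Type} [Fintype ι] (a : ι → Lat d) (c : ι → ℂ) (H : Lat d)
    {α : Type} (t : Finset α) (r : α → ℂ) (z : α → LP ℂ d)
    (hz : ∀ i ∈ t, r i ≠ 0 → ¬ NotIn a c H (z i)) : ¬ NotIn a c H (∑ i ∈ t, r i • z i) := by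
  classical
  simp only [NotIn, not_not] at hz ⊢
  have hz' : ∀ i, ∃ y : Fin d → LP ℂ d, (∀ j, Supp {u | Om a H u} (y j)) ∧
      (i ∈ t → r i • z i = ∑ j, gs a (cF a c H) (ev j) * y j) := by
    intro i
    by_cases hi : i ∈ t
    · by_cases hr : r i = 0
      · exact ⟨fun _ => 0, fun _ => Supp.zero _, fun _ => by simp [hr]⟩
      · obtain ⟨y, hy, he⟩ := hz i hi hr
        refine ⟨fun j => r i • y j, fun j => (hy j).smul _, fun _ => ?_⟩
        rw [he, smul_sum]
        exact sum_congr rfl fun j _ => by rw [mul_smul_comm]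
    · exact ⟨fun _ => 0, fun _ => Supp.zero _, fun h => absurd h hi⟩
  choose y hy he using hz'
  refine ⟨fun j => ∑ i ∈ t, y i j, fun j => Supp.sum _ fun i _ => hy i j, ?_⟩
  rw [sum_congr rfl fun i hi => he i hi, sum_comm]
  exact sum_congr rfl fun j _ => by rw [mul_sum]

/-- the base of the induction -/
theorem flag_base {d : ℕ} {ι : Type} [Fintype ι] (a : ι → Lat d) (c : ι → ℂ)
    (δ : Lat d) (hδ : ∀ i, dt δ (a i) = 1) (H : Lat d) (i0 : ι)
    (h0 : dt H (a i0) = 0) (h1 : ∀ i, dt H (a i) = 0 → a i = a i0) :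
    Om a H (a i0) ∧ NotIn a c H (single (a i0) 1) := by
  classical
  refine ⟨fun g hg => ⟨hg i0, fun hz i hi => by rw [h1 i hi, hz], fun hz => hz i0 h0⟩, ?_⟩
  rintro ⟨y, hy, he⟩
  have hy0 : ∀ j, (y j).coeff 0 = 0 := by
    intro j
    by_contra hne
    have hOm : Om a H 0 := hy j 0 hne
    have h2 := (hOm δ (fun i => by rw [hδ i]; norm_num)).2.1 (dt_zero δ) i0 h0
    rw [hδ i0] at h2
    exact one_ne_zero h2
  have h3 := congrArg (fun z : LP ℂ d => z.coeff (a i0)) he
  simp only [coeff_single', if_true] at h3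
  rw [coeff_finsum] at h3
  rw [Finset.sum_eq_zero] at h3
  · exact one_ne_zero h3
  · intro j _
    rw [gs_mul_coeff]
    refine Finset.sum_eq_zero fun i _ => ?_
    by_cases hi : dt H (a i) = 0
    · rw [h1 i hi, sub_self, hy0 j, mul_zero]
    · simp [cF, hi]

/-- the interior of the larger face -/
theorem flag_om {d : ℕ} {ι : Type} [Fintype ι] (a : ι → Lat d) (H H' : Lat d)
    (hsub : ∀ i, dt H' (a i) = 0 → dt H (a i) = 0)
    (hrank : ∀ g : Lat d, (∀ i, dt H' (a i) = 0 → dt g (a i) = 0) →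
      ∃ N n : ℤ, N ≠ 0 ∧ ∀ i, dt H (a i) = 0 → N * dt g (a i) = n * dt H' (a i))
    (μ : Lat d) (hμ : Om a H' μ) (i1 : ι) (h1 : dt H (a i1) = 0) (h2 : dt H' (a i1) ≠ 0) :
    Om a H (μ + a i1) := by
  intro g hg
  obtain ⟨h3, h4⟩ := hμ g hg
  rw [dt_add]
  refine ⟨add_nonneg h3 (hg i1), fun hz i hi => ?_, fun hz => ?_⟩
  · have h5 : dt g μ = 0 := le_antisymm (by have := hg i1; linarith) h3
    have h6 : dt g (a i1) = 0 := by rw [h5, zero_add] at hz; exact hz
    obtain ⟨N, n, hN, hNn⟩ := hrank g (h4.1 h5)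
    have h7 := hNn i1 h1
    rw [h6, mul_zero] at h7
    have h8 : n = 0 := (mul_eq_zero.1 h7.symm).resolve_right h2
    have h9 := hNn i hi
    rw [h8, zero_mul] at h9
    exact (mul_eq_zero.1 h9).resolve_left hN
  · rw [h4.2 fun i hi => hz i (hsub i hi), hz i1 h1, add_zero]

/-- FLAG -/
theorem flag {d : ℕ} {ι κ : Type} [Fintype ι] [Fintype κ] (a : ι → Lat d) (c : ι → ℂ)
    (h : κ → Lat d) (δ : Lat d) (hδ : ∀ i, dt δ (a i) = 1) (hh : ∀ v i, 0 ≤ dt (h v) (a i))
    (hfac : ∀ u ∈ Sset h, ∃ N : ℕ, 0 < N ∧ ∃ n : ι → ℕ, N • u = ∑ i, n i • a i)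
    (hnd : TorusND a c) (s : ℕ) (H : ℕ → Lat d) (hH : ∀ j, j ≤ s → ∀ i, 0 ≤ dt (H j) (a i))
    (h0 : ∃ i0, dt (H 0) (a i0) = 0 ∧ ∀ i, dt (H 0) (a i) = 0 → a i = a i0)
    (hsub : ∀ j, j < s → ∀ i, dt (H j) (a i) = 0 → dt (H (j + 1)) (a i) = 0)
    (hstrict : ∀ j, j < s → ∃ i1, dt (H (j + 1)) (a i1) = 0 ∧ dt (H j) (a i1) ≠ 0)
    (hrank : ∀ j, j < s → ∀ g : Lat d, (∀ i, dt (H j) (a i) = 0 → dt g (a i) = 0) →
      ∃ N n : ℤ, N ≠ 0 ∧ ∀ i, dt (H (j + 1)) (a i) = 0 → N * dt g (a i) = n * dt (H j) (a i)) :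
    ∃ i : ℕ → ι, dt (H 0) (a (i 0)) = 0 ∧
      (∀ j, j < s → dt (H (j + 1)) (a (i (j + 1))) = 0 ∧ dt (H j) (a (i (j + 1))) ≠ 0) ∧
      Om a (H s) (∑ j ∈ range (s + 1), a (i j)) ∧
      NotIn a c (H s) (single (∑ j ∈ range (s + 1), a (i j)) 1) := by
  classical
  induction s with
  | zero =>
    obtain ⟨i0, h1, h2⟩ := h0
    obtain ⟨h3, h4⟩ := flag_base a c δ hδ (H 0) i0 h1 h2
    refine ⟨fun _ => i0, h1, fun j hj => absurd hj (Nat.not_lt_zero j), ?_, ?_⟩
    · simpa using h3
    · simpa using h4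
  | succ s ih =>
    obtain ⟨i, hi0, hi1, hOm, hNot⟩ := ih (fun j hj => hH j (by omega))
      (fun j hj => hsub j (by omega)) (fun j hj => hstrict j (by omega))
      (fun j hj => hrank j (by omega))
    set μ : Lat d := ∑ j ∈ range (s + 1), a (i j) with hμ
    have hst := fstep a c h δ hδ hh hfac hnd (H (s + 1)) (H s) (hH (s + 1) le_rfl)
      (hH s (by omega)) (hsub s (by omega)) (hstrict s (by omega)) (hrank s (by omega))
      (single μ 1) (Supp.single (S := {u | Om a (H s) u}) hOm 1) hNot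
    have hex : ∃ i1, dt (H (s + 1)) (a i1) = 0 ∧ dt (H s) (a i1) ≠ 0 ∧
        NotIn a c (H (s + 1)) (single (μ + a i1) 1) := by
      by_contra hcon
      push Not at hcon
      refine flag_smul_sum a c (H (s + 1)) Finset.univ
        (fun i' => cF a c (H (s + 1)) i' * (dt (H s) (a i') : ℂ))
        (fun i' => single (μ + a i') (1 : ℂ)) ?_ ?_
      · intro i' _ hne
        have h1 : dt (H (s + 1)) (a i') = 0 := by
          by_contra h2
          exact hne (by simp [cF, h2])
        have h2 : dt (H s) (a i') ≠ 0 := by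
          intro h3
          exact hne (by simp [h3])
        exact hcon i' h1 h2
      · have he : gs a (cF a c (H (s + 1))) (H s) * single μ (1 : ℂ) =
            ∑ i', (cF a c (H (s + 1)) i' * (dt (H s) (a i') : ℂ)) •
              single (μ + a i') (1 : ℂ) := by
          rw [gs, sum_mul]
          refine sum_congr rfl fun i' _ => ?_
          rw [AddMonoidAlgebra.single_mul_single, add_comm, mul_one,
            AddMonoidAlgebra.smul_single, smul_eq_mul, mul_one]
        rw [← he]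
        exact hst
    obtain ⟨i1, h1, h2, h3⟩ := hex
    have hlt : ∀ j, j < s + 1 → Function.update i (s + 1) i1 j = i j := fun j hj =>
      Function.update_of_ne (by omega) _ _
    have hsum : ∑ j ∈ range (s + 1 + 1), a (Function.update i (s + 1) i1 j) = μ + a i1 := by
      rw [sum_range_succ, Function.update_self, hμ]
      congr 1
      exact sum_congr rfl fun j hj => by rw [hlt j (Finset.mem_range.1 hj)]
    refine ⟨Function.update i (s + 1) i1, ?_, ?_, ?_, ?_⟩
    · rw [hlt 0 (by omega)]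
      exact hi0
    · intro j hj
      rcases Nat.lt_succ_iff_lt_or_eq.1 hj with hj' | rfl
      · rw [hlt (j + 1) (by omega)]
        exact hi1 j hj'
      · rw [Function.update_self]
        exact ⟨h1, h2⟩
    · rw [hsum]
      exact flag_om a (H (s + 1)) (H s) (hsub s (by omega)) (hrank s (by omega)) μ hOm i1 h1 h2
    · rw [hsum]
      exact h3

end Pool.Agent.H56.SMC

end S_FLAG

section S_FLAGB

/-!
# FLAGB: flags of faces give nonzero classes (stronger form; adapt the proof in FLAG.lean)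

Proof.  Induction on `s`.  `s = 0`: `i 0 = i0`, `α = a i0`; all `a i` in the face `T_0` equal `α`.  `Om a (H 0) α`: clear.  `NotIn`: if `single α 1 = ∑_j gs a (cF a c (H 0)) (ev j) * y_j`, then some `y_j` has an exponent `u` with `Om a (H 0) u` and `u = α - α = 0`
(the exponents of the symbols are `α`), but `dt δ u ≥ 1` for `Om a (H 0) u` (apply the definition with `h = δ`: nonnegative and zero iff `δ` vanishes on `T_0`, impossible since `dt δ α = 1`), a contradiction.
Step: `μ = ∑_{l<s} a (i l)`, `z = single μ 1`; `fstep` with `H' = H (s-1)`, `H = H s`: `NotIn a c (H s) (gs a (cF a c (H s)) (H (s-1)) * single μ 1)`.  The element is `∑_{i' : dt (H s) (a i') = 0} c_{i'} dt (H (s-1)) (a i') single (a i' + μ) 1`, so one `i'` with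
`dt (H s) (a i') = 0`, `dt (H (s-1)) (a i') ≠ 0` has `NotIn a c (H s) (single (a i' + μ) 1)` (otherwise, by linearity, the sum would be a combination).  `Om a (H s) (μ + a i')`: for `h''` nonnegative: `dt h'' ≥ 0`; if it is `0` then `dt h'' μ = 0`, so `h''` vanishes on `T_{s-1}`
and by the rank condition `N h'' = n H (s-1)` on `T_s`; at `i'`: `n = 0`, so `h''` vanishes on `T_s`; conversely clear.
Independence: `a (i l) ∈ T_l`, `dt (H (l-1)) (a (i l)) ≠ 0`: in a relation look at the largest index with nonzero coefficient and apply `H (l-1)` (for `l = 0` `δ`).  Spanning: if `g` vanishes on the `a (i l)`, then on `T_0`, and if it vanishes on `T_j` then `N g = n H_j` on `T_{j+1}`, at `a (i (j+1))`: `n = 0`, so it vanishes on `T_{j+1}`.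
-/

set_option autoImplicit false

namespace Pool.Agent.H56.SMC

open Finset AddMonoidAlgebra

/-- FLAGB -/
theorem flagb {d : ℕ} {ι κ : Type} [Fintype ι] [Fintype κ] (a : ι → Lat d) (c : ι → ℂ)
    (h : κ → Lat d) (δ : Lat d) (hδ : ∀ i, dt δ (a i) = 1) (hh : ∀ v i, 0 ≤ dt (h v) (a i))
    (hfac : ∀ u ∈ Sset h, ∃ N : ℕ, 0 < N ∧ ∃ n : ι → ℕ, N • u = ∑ i, n i • a i)
    (hnd : TorusND a c) (s : ℕ) (H : ℕ → Lat d) (hH : ∀ j, j ≤ s → ∀ i, 0 ≤ dt (H j) (a i))
    (h0 : ∃ i0, dt (H 0) (a i0) = 0 ∧ ∀ i, dt (H 0) (a i) = 0 → a i = a i0)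
    (hsub : ∀ j, j < s → ∀ i, dt (H j) (a i) = 0 → dt (H (j + 1)) (a i) = 0)
    (hstrict : ∀ j, j < s → ∃ i1, dt (H (j + 1)) (a i1) = 0 ∧ dt (H j) (a i1) ≠ 0)
    (hrank : ∀ j, j < s → ∀ g : Lat d, (∀ i, dt (H j) (a i) = 0 → dt g (a i) = 0) →
      ∃ N n : ℤ, N ≠ 0 ∧ ∀ i, dt (H (j + 1)) (a i) = 0 → N * dt g (a i) = n * dt (H j) (a i)) :
    ∃ i : ℕ → ι, (∀ j, j ≤ s → dt (H j) (a (i j)) = 0) ∧
      (∀ j, j < s → dt (H j) (a (i (j + 1))) ≠ 0) ∧
      (∀ j, j ≤ s → Om a (H j) (∑ l ∈ range (j + 1), a (i l))) ∧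
      LinearIndependent ℤ (fun l : Fin (s + 1) => a (i l)) ∧
      (∀ g : Lat d, (∀ l, l ≤ s → dt g (a (i l)) = 0) → ∀ i', dt (H s) (a i') = 0 →
        dt g (a i') = 0) ∧
      NotIn a c (H s) (single (∑ l ∈ range (s + 1), a (i l)) 1) := by
  classical
  obtain ⟨i, hi0, hi1, -, hNot⟩ := flag a c h δ hδ hh hfac hnd s H hH h0 hsub hstrict hrank
  have hi : ∀ j, j ≤ s → dt (H j) (a (i j)) = 0 := by
    intro j hj
    cases j with
    | zero => exact hi0
    | succ j => exact (hi1 j (by omega)).1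
  have hi' : ∀ j, j < s → dt (H j) (a (i (j + 1))) ≠ 0 := fun j hj => (hi1 j hj).2
  -- the faces are increasing
  have hmono : ∀ k j, j ≤ k → k ≤ s → ∀ i', dt (H j) (a i') = 0 → dt (H k) (a i') = 0 := by
    intro k
    induction k with
    | zero =>
      intro j hj _ i' h1
      obtain rfl : j = 0 := by omega
      exact h1
    | succ k ih =>
      intro j hj hk i' h1
      rcases Nat.lt_or_ge k j with hlt | hge
      · obtain rfl : j = k + 1 := by omega
        exact h1
      · exact hsub k (by omega) i' (ih j hge (by omega) i' h1)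
  refine ⟨i, hi, hi', ?_, ?_, ?_, hNot⟩
  · intro j
    induction j with
    | zero =>
      intro _
      obtain ⟨i0, h1, h2⟩ := h0
      have h3 := (flag_base a c δ hδ (H 0) i0 h1 h2).1
      simpa [h2 (i 0) hi0] using h3
    | succ j ih =>
      intro hj
      rw [sum_range_succ]
      exact flag_om a (H (j + 1)) (H j) (hsub j (by omega)) (hrank j (by omega)) _
        (ih (by omega)) (i (j + 1)) (hi (j + 1) hj) (hi' j (by omega))
  · have key : ∀ k, k ≤ s → LinearIndependent ℤ (fun l : Fin (k + 1) => a (i l)) := by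
      intro k
      induction k with
      | zero =>
        intro _
        rw [Fintype.linearIndependent_iff]
        intro g hg l
        have h1 := congrArg (dt δ) hg
        rw [Fin.sum_univ_one, dt_zsmul, dt_zero, hδ, mul_one] at h1
        obtain rfl : l = 0 := Fin.ext (by have := l.2; simp at this ⊢)
        exact h1
      | succ k ih =>
        intro hk
        have ih' := ih (by omega)
        rw [Fintype.linearIndependent_iff] at ih' ⊢
        intro g hg
        rw [Fin.sum_univ_castSucc] at hg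
        have h1 := congrArg (dt (H k)) hg
        rw [dt_add, dt_sum, dt_zero, dt_zsmul] at h1
        have h2 : ∑ l : Fin (k + 1), dt (H k) (g l.castSucc • a (i ((l.castSucc : Fin (k + 2)) : ℕ))) = 0 := by
          refine sum_eq_zero fun l _ => ?_
          rw [dt_zsmul]
          have h3 : dt (H k) (a (i (l : ℕ))) = 0 :=
            hmono k l (by omega) (by omega) _ (hi l (by omega))
          rw [Fin.val_castSucc, h3, mul_zero]
        rw [h2, zero_add, Fin.val_last] at h1
        have h4 : g (Fin.last (k + 1)) = 0 := (mul_eq_zero.1 h1).resolve_right (hi' k (by omega))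
        rw [h4, zero_smul, add_zero] at hg
        have h5 := ih' (fun l => g l.castSucc) (by simpa using hg)
        intro l
        refine Fin.lastCases h4 (fun l => h5 l) l
    exact key s le_rfl
  · intro g hg
    have key : ∀ j, j ≤ s → ∀ i', dt (H j) (a i') = 0 → dt g (a i') = 0 := by
      intro j
      induction j with
      | zero =>
        intro _ i' h1
        obtain ⟨i0, h2, h3⟩ := h0
        rw [h3 i' h1, ← h3 (i 0) hi0]
        exact hg 0 (by omega)
      | succ j ih =>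
        intro hj i' h1
        obtain ⟨N, n, hN, hNn⟩ := hrank j (by omega) g (ih (by omega))
        have h2 := hNn (i (j + 1)) (hi (j + 1) hj)
        rw [hg (j + 1) hj, mul_zero] at h2
        have h3 : n = 0 := (mul_eq_zero.1 h2.symm).resolve_right (hi' j (by omega))
        have h4 := hNn i' h1
        rw [h3, zero_mul] at h4
        exact (mul_eq_zero.1 h4).resolve_left hN
    exact key s le_rfl

end Pool.Agent.H56.SMC

end S_FLAGB

section S_MUX

/-!
# MUX: classes with large coordinates in the good directions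

Write `A = cA a (bbM β M)` with `m = 0`, `β = Fin.elim0`, `M ≥ 2`, `h0 = vec (-N) 0 w`, `T = {i : dt h0 (A i) = 0}` = `{(1,0;a_i) : i on the face of w}`, `(0,1;0)`, `(0,1;M e_j)` with `w_j = 0`.
Proof.  `0 < r` (`hN`), `fspan`, `fac` (`d + 1 = n + 2`): `h`, `hh`, `hfac`; `ndg`.  `flex` with `H = h0`, `H'`: the chain `Hs`, `s`, `j0`; `flagb`: the family `i_0, …, i_s`, `μ = ∑ A (i l)`.  `Om`, `NotIn`: the conclusion of `flagb`.  The elements `i_0, …, i_{j0}` lie in the face of `H'` (`dt (Hs j) (A (i j)) = 0`, the faces increase).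
(P1) `s = n`: the family is independent and spans the same space as `T`, which has rank `n + 1` (`fns` gives `n+1` independent vectors in `T`; more are impossible because all vectors of `T` are killed by `h0 ≠ 0` in `ℤ^{n+2}`).
(P2) For every `k` the functional `vec 0 0 (e_k)` is nonnegative on `A` and does not vanish on `T`: for `w_k = 0` it has the value `M` at `(0,1;M e_k)`; for `w_k ≠ 0`, if all `a_ik = 0` for `i` on the face, then all vectors of `FacetNormal` would be killed by the two independent functionals `(-N; w)` and `(0; e_k)` of `ℝ^{1+n}`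
(`N > 0`), so the rank would be `≤ n - 1`, a contradiction.  So `dt (vec 0 0 e_k) μ > 0` by `Om`.
(P3) `w_k ≠ 0`, `¬ HasB1 a w k`, `x_k ∤ f`: `μ_k ≥ 2`: otherwise `μ_k = ∑_l A(i l)_k = 1`: exactly one `l0` has `A(i l0)_k = 1`, the others `0`; `i l0 = inl i1`, `i1` on the face, `a_{i1 k} = 1` (`M ≥ 2`).  The other `n` independent vectors lie in `T ∩ {x_k = 0}`; forgetting the second coordinate (kernel spanned by `(0,1;0)`) they span a space of
dimension `≥ n - 1`, contained in the span in `HasB1`, which has dimension `≤ n - 1` (killed by `(-N; w)` and `(0; e_k)`): so `HasB1 a w k`.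
(P4) `w_k = 0` and no exponent on the face has `a_ik = 1`: all `A(i l)_k` are `0` or `≥ 2` and the sum is positive: `μ_k ≥ 2`.
-/

set_option autoImplicit false

namespace Pool.Agent.H56.SMC

open Finset AddMonoidAlgebra

theorem mux_rank_lower {n N : ℕ} (x : Fin N → Lat (n + 2)) (hx : LinearIndependent ℤ x)
    (S : Set (Unit ⊕ Fin n → ℝ))
    (hS : ∀ k, (fun y => ((x k (H11.fgt n y) : ℤ) : ℝ)) ∈ Submodule.span ℝ S) :
    N ≤ Module.finrank ℝ (Submodule.span ℝ S) + 1 := by
  set xr : Fin N → Fin (n + 2) → ℝ := fun k j => ((x k j : ℤ) : ℝ) with hxr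
  have h1 : LinearIndependent ℝ xr := H11.li_cast x hx
  set W := Submodule.span ℝ (Set.range xr) with hW
  have h2 : Module.finrank ℝ W = N := by
    rw [finrank_span_eq_card h1, Fintype.card_fin]
  set Φ : (Fin (n + 2) → ℝ) →ₗ[ℝ] (Unit ⊕ Fin n → ℝ) := LinearMap.funLeft ℝ ℝ (H11.fgt n) with hΦ
  have h3 := LinearMap.finrank_range_add_finrank_ker (Φ.domRestrict W)
  have h4 : LinearMap.range (Φ.domRestrict W) ≤ Submodule.span ℝ S := by
    rintro _ ⟨⟨w, hw⟩, rfl⟩
    have : W ≤ (Submodule.span ℝ S).comap Φ := by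
      rw [hW, Submodule.span_le]
      rintro _ ⟨k, rfl⟩
      exact hS k
    exact this hw
  have h5 : Module.finrank ℝ (LinearMap.ker (Φ.domRestrict W)) ≤ 1 := by
    have hinj : Function.Injective (((LinearMap.proj (R := ℝ) (φ := fun _ : Fin (n + 2) => ℝ)
        (Fin.succ 0)).comp W.subtype).comp (LinearMap.ker (Φ.domRestrict W)).subtype) := by
      refine (injective_iff_map_eq_zero _).2 ?_
      rintro ⟨⟨w, hw⟩, hw'⟩ hw1
      have h6 : ∀ y, w (H11.fgt n y) = 0 := fun y => congrFun hw' y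
      have h7 : w (Fin.succ 0) = 0 := hw1
      have h8 : w = 0 := by
        funext i
        refine Fin.cases ?_ (fun i => Fin.cases ?_ (fun i => ?_) i) i
        · exact h6 (Sum.inl ())
        · exact h7
        · exact h6 (Sum.inr i)
      subst h8
      rfl
    have := LinearMap.finrank_le_finrank_of_injective hinj
    simpa using this
  have h6 := Submodule.finrank_mono h4
  omega

theorem mux_rank_upper {n : ℕ} (S : Set (Unit ⊕ Fin n → ℝ)) (N : ℝ) (hN : N ≠ 0)
    (w : Fin n → ℝ) (k : Fin n)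
    (h1 : ∀ y ∈ S, -N * y (Sum.inl ()) + ∑ j, w j * y (Sum.inr j) = 0)
    (h2 : ∀ y ∈ S, y (Sum.inr k) = 0) : Module.finrank ℝ (Submodule.span ℝ S) ≤ n - 1 := by
  classical
  let L : (Unit ⊕ Fin n → ℝ) →ₗ[ℝ] ℝ × ℝ := LinearMap.prod
    ((-N) • LinearMap.proj (Sum.inl ()) + ∑ j, w j • LinearMap.proj (Sum.inr j))
    (LinearMap.proj (Sum.inr k))
  have hL : ∀ y, L y = (-N * y (Sum.inl ()) + ∑ j, w j * y (Sum.inr j), y (Sum.inr k)) := by
    intro y
    simp [L]
  have hsurj : Function.Surjective L := by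
    rintro ⟨p, q⟩
    refine ⟨Sum.elim (fun _ => (w k * q - p) / N) (Pi.single k q), ?_⟩
    rw [hL]
    simp only [Sum.elim_inl, Sum.elim_inr, Pi.single_eq_same, Prod.mk.injEq, and_true]
    rw [Finset.sum_eq_single k (fun j _ hj => by rw [Pi.single_eq_of_ne hj, mul_zero])
      (fun h => absurd (mem_univ k) h), Pi.single_eq_same]
    field_simp
    ring
  have h3 := L.finrank_range_add_finrank_ker
  rw [LinearMap.range_eq_top.2 hsurj, finrank_top] at h3
  have h4 : Module.finrank ℝ (ℝ × ℝ) = 2 := by simp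
  have h5 : Module.finrank ℝ (Unit ⊕ Fin n → ℝ) = n + 1 := by simp [add_comm]
  have hle : Submodule.span ℝ S ≤ LinearMap.ker L := by
    rw [Submodule.span_le]
    intro y hy
    rw [SetLike.mem_coe, LinearMap.mem_ker, hL, h1 y hy, h2 y hy]
    rfl
  have h6 := Submodule.finrank_mono hle
  omega

theorem mux_le {d N : ℕ} (x : Fin N → Lat d) (hx : LinearIndependent ℤ x) (h : Lat d)
    (h0 : h ≠ 0) (hh : ∀ k, dt h (x k) = 0) : N + 1 ≤ d := by
  have li1 : LinearIndependent ℤ (Fin.cons h x : Fin (N + 1) → Lat d) := by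
    refine LinearIndependent.finCons' _ _ hx ?_
    intro c y hy hcy
    have h5 : dt h y = 0 := by
      rw [Submodule.mem_span_range_iff_exists_fun] at hy
      obtain ⟨c, rfl⟩ := hy
      rw [dt_sum]
      exact sum_eq_zero fun k _ => by rw [dt_zsmul, hh, mul_zero]
    have h3 := congrArg (dt h) hcy
    rw [dt_add, dt_zsmul, dt_zero, h5, add_zero] at h3
    exact (mul_eq_zero.1 h3).resolve_right (fun h' => h0 (H11.dt_self _ h'))
  have h7 := li1.fintype_card_le_finrank
  rw [Fintype.card_fin, Module.finrank_pi, Fintype.card_fin] at h7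
  exact h7

theorem mux_ge {d N K : ℕ} (x : Fin N → Lat d) (y : Fin K → Lat d) (hy : LinearIndependent ℤ y)
    (hg : ∀ g : Lat d, (∀ k, dt g (x k) = 0) → ∀ k, dt g (y k) = 0) : K ≤ N := by
  classical
  set U := Submodule.span ℚ (Set.range fun k => facV (x k)) with hU
  have h1 : ∀ k, facV (y k) ∈ U := by
    intro k
    by_contra hcon
    obtain ⟨φ, hφ, hφU⟩ := Submodule.exists_dual_map_eq_bot_of_notMem hcon inferInstance
    have hφ0 : φ ≠ 0 := by
      rintro rfl
      exact hφ rfl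
    obtain ⟨h, γ, hγ, hφh, -⟩ := fac_scale φ hφ0
    have h2 : ∀ k, dt h (x k) = 0 := by
      intro k
      have h3 : φ (facV (x k)) = 0 := by
        have h4 : φ (facV (x k)) ∈ Submodule.map φ U :=
          Submodule.mem_map_of_mem (Submodule.subset_span ⟨k, rfl⟩)
        rw [hφU] at h4
        exact (Submodule.mem_bot ℚ).1 h4
      rw [hφh, LinearMap.smul_apply, facL_facV, smul_eq_mul] at h3
      exact_mod_cast (mul_eq_zero.1 h3).resolve_left hγ.ne'
    apply hφ
    rw [hφh, LinearMap.smul_apply, facL_facV, hg h h2 k]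
    simp
  have h2 : Submodule.span ℚ (Set.range fun k => facV (y k)) ≤ U := by
    rw [Submodule.span_le]
    rintro _ ⟨k, rfl⟩
    exact h1 k
  have h3 := Submodule.finrank_mono h2
  rw [finrank_span_eq_card ((fac_li y).1 hy), Fintype.card_fin] at h3
  have h4 : Module.finrank ℚ U ≤ N := by
    have := finrank_range_le_card (R := ℚ) (fun k => facV (x k))
    rw [Fintype.card_fin] at this
    exact this
  omega

theorem mux_sum_one {α : Type*} (s : Finset α) (f : α → ℤ) (hf : ∀ l ∈ s, 0 ≤ f l)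
    (h : ∑ l ∈ s, f l = 1) : ∃ l0 ∈ s, f l0 = 1 ∧ ∀ l ∈ s, l ≠ l0 → f l = 0 := by
  classical
  obtain ⟨l0, hl0, hne⟩ := exists_ne_zero_of_sum_ne_zero (by rw [h]; exact one_ne_zero)
  have h1 := Finset.add_sum_erase s f hl0
  have h2 : 0 ≤ ∑ l ∈ s.erase l0, f l := sum_nonneg fun l hl => hf l (mem_of_mem_erase hl)
  have h3 := hf l0 hl0
  have h4 : f l0 = 1 := by omega
  refine ⟨l0, hl0, h4, fun l hl hll => ?_⟩
  have h5 : ∑ l ∈ s.erase l0, f l = 0 := by omega
  exact (sum_eq_zero_iff_of_nonneg fun l hl => hf l (mem_of_mem_erase hl)).1 h5 l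
    (mem_erase.2 ⟨hll, hl⟩)

/-- MUX -/
theorem mux {n r : ℕ} (a : Fin r → (Fin n →₀ ℕ)) (κ : Fin r → ℂ) (hnd : Nondeg a κ)
    (w : Fin n → ℕ) (hw : FacetNormal a w) (hN : 0 < H22.wmin a w) (M : ℤ) (hM : 2 ≤ M)
    (lam : Option (Fin n) ⊕ Fin 0 → ℂ)
    (hlam : AlgebraicIndependent (Algebra.adjoin ℚ (Set.range κ)) lam)
    (H' : Lat (n + 2)) (hH' : ∀ i, 0 ≤ dt H' (cA a (bbM (Fin.elim0 : Fin 0 → Lat n) M) i))
    (hne : ∃ i, dt H' (cA a (bbM (Fin.elim0 : Fin 0 → Lat n) M) i) = 0)
    (hsub : ∀ i, dt H' (cA a (bbM (Fin.elim0 : Fin 0 → Lat n) M) i) = 0 →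
      dt (vec (-(H22.wmin a w : ℤ)) 0 (fun j => (w j : ℤ)))
        (cA a (bbM (Fin.elim0 : Fin 0 → Lat n) M) i) = 0) :
    ∃ (μ : Lat (n + 2)) (i : ℕ → Fin r ⊕ (Option (Fin n) ⊕ Fin 0)) (j0 : ℕ), j0 ≤ n ∧
      μ = ∑ l ∈ range (n + 1), cA a (bbM (Fin.elim0 : Fin 0 → Lat n) M) (i l) ∧
      (∀ l, l ≤ j0 → dt H' (cA a (bbM (Fin.elim0 : Fin 0 → Lat n) M) (i l)) = 0) ∧
      Om (cA a (bbM (Fin.elim0 : Fin 0 → Lat n) M)) H'
        (∑ l ∈ range (j0 + 1), cA a (bbM (Fin.elim0 : Fin 0 → Lat n) M) (i l)) ∧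
      ((∃ i1 i2, dt H' (cA a (bbM (Fin.elim0 : Fin 0 → Lat n) M) i1) = 0 ∧
        dt H' (cA a (bbM (Fin.elim0 : Fin 0 → Lat n) M) i2) = 0 ∧
        cA a (bbM (Fin.elim0 : Fin 0 → Lat n) M) i1 ≠
          cA a (bbM (Fin.elim0 : Fin 0 → Lat n) M) i2) → 1 ≤ j0) ∧
      (∀ l k, 0 ≤ (cA a (bbM (Fin.elim0 : Fin 0 → Lat n) M) (i l)) (Fin.succ (Fin.succ k))) ∧
      Om (cA a (bbM (Fin.elim0 : Fin 0 → Lat n) M))
        (vec (-(H22.wmin a w : ℤ)) 0 (fun j => (w j : ℤ))) μ ∧
      NotIn (cA a (bbM (Fin.elim0 : Fin 0 → Lat n) M)) (cC κ lam)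
        (vec (-(H22.wmin a w : ℤ)) 0 (fun j => (w j : ℤ))) (single μ 1) ∧
      (∀ k, w k ≠ 0 → (∃ i, a i k = 0) → ¬ HasB1 a w k → 2 ≤ μ (Fin.succ (Fin.succ k))) ∧
      (∀ k, w k = 0 → (∀ i, ∑ j, a i j * w j = H22.wmin a w → a i k ≠ 1) →
        2 ≤ μ (Fin.succ (Fin.succ k))) := by
  classical
  have hM0 : 0 < M := by linarith
  have hr : 0 < r := by
    rcases Nat.eq_zero_or_pos r with h | h
    · subst h
      have : H22.wmin a w = 0 := by
        unfold H22.wmin
        exact Nat.iInf_of_empty _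
      omega
    · exact h
  set A := cA a (bbM (Fin.elim0 : Fin 0 → Lat n) M) with hA
  set h0 : Lat (n + 2) := vec (-(H22.wmin a w : ℤ)) 0 (fun j => (w j : ℤ)) with hh0
  -- the coordinates
  have hAinl : ∀ i k, A (Sum.inl i) (Fin.succ (Fin.succ k)) = a i k := fun i k => rfl
  have hAnone : ∀ k, A (Sum.inr (Sum.inl none)) (Fin.succ (Fin.succ k)) = 0 := fun k => rfl
  have hAsome : ∀ j k, A (Sum.inr (Sum.inl (some j))) (Fin.succ (Fin.succ k)) =
      if k = j then M else 0 := by
    intro j k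
    show (M • ev j) k = _
    rw [Pi.smul_apply, smul_eq_mul, ev, Pi.single_apply]
    split_ifs <;> simp
  have hAnn : ∀ i k, 0 ≤ A i (Fin.succ (Fin.succ k)) := by
    rintro (i | (_ | j) | x) k
    · rw [hAinl]; positivity
    · rw [hAnone]
    · rw [hAsome]; split_ifs
      · exact hM0.le
      · exact le_refl _
    · exact x.elim0
  have hA1 : ∀ i k, A i (Fin.succ (Fin.succ k)) = 1 → ∃ i1, i = Sum.inl i1 ∧ a i1 k = 1 := by
    rintro (i | (_ | j) | x) k h
    · rw [hAinl] at h
      exact ⟨i, rfl, by exact_mod_cast h⟩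
    · rw [hAnone] at h
      exact absurd h zero_ne_one
    · rw [hAsome] at h
      split_ifs at h
      · omega
      · exact absurd h zero_ne_one
    · exact x.elim0
  -- the values of h0
  have h0inl : ∀ i, dt h0 (A (Sum.inl i)) =
      -(H22.wmin a w : ℤ) + ((∑ j, a i j * w j : ℕ) : ℤ) := by
    intro i
    rw [hh0, hA]
    simp only [cA]
    rw [dt_vec]
    push_cast
    simp only [mul_one, zero_mul, add_zero, mul_zero]
    congr 1
    exact sum_congr rfl fun j _ => mul_comm _ _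
  have h0some : ∀ j, dt h0 (A (Sum.inr (Sum.inl (some j)))) = M * w j := by
    intro j
    rw [hh0, hA]
    simp only [cA, bbM]
    rw [dt_vec]
    simp only [mul_zero, mul_one, zero_add, Pi.smul_apply, smul_eq_mul, ev, Pi.single_apply]
    rw [Finset.sum_eq_single j (fun k _ hk => by simp [hk]) (fun h => absurd (mem_univ j) h)]
    simp [mul_comm]
  have h0none : dt h0 (A (Sum.inr (Sum.inl none))) = 0 := by
    rw [hh0, hA]
    simp only [cA, bbM]
    rw [dt_vec]
    simp
  have h0face : ∀ i, dt h0 (A (Sum.inl i)) = 0 ↔ ∑ j, a i j * w j = H22.wmin a w := by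
    intro i
    rw [h0inl]
    omega
  have h0nn : ∀ i, 0 ≤ dt h0 (A i) := by
    rintro (i | (_ | j) | x)
    · rw [h0inl]
      have := H11.wmin_le a w i
      omega
    · rw [h0none]
    · rw [h0some]; positivity
    · exact x.elim0
  have h0ne : h0 ≠ 0 := by
    intro h
    have := congrFun h 0
    simp only [hh0, vec, Fin.cons_zero, Pi.zero_apply] at this
    omega
  have hδ : ∀ i, dt (vec 1 1 0 : Lat (n + 2)) (A i) = 1 := by
    rintro (i | k)
    · rw [hA]; simp only [cA]; rw [dt_vec]; simp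
    · rw [hA]; simp only [cA]; rw [dt_vec]; simp
  obtain ⟨s, j0, Hs, hj0, hHs, hHj, hnn, hz, hmono, hstrict, hrank⟩ :=
    flex A (vec 1 1 0) hδ h0 H' h0nn hH' hsub hne
  obtain ⟨m, h, hh, -, -, hfac⟩ := fac A (vec 1 1 0) hδ (fspan hr a _ M hM0)
  have hnd' := ndg a κ hnd (bbM (Fin.elim0 : Fin 0 → Lat n) M) lam hlam
  obtain ⟨i, hi1, hi2, hi3, hi4, hi5, hi6⟩ := flagb A (cC κ lam) h (vec 1 1 0) hδ hh hfac hnd'
    s Hs hnn hz hmono hstrict hrank
  have hmono' : ∀ l j, l ≤ j → j ≤ s → ∀ x, dt (Hs l) (A x) = 0 → dt (Hs j) (A x) = 0 := by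
    intro l j hlj
    induction j, hlj using Nat.le_induction with
    | base => exact fun _ x hx => hx
    | succ j hlj ih => exact fun hjs x hx => hmono j (by omega) x (ih (by omega) x hx)
  have hiT : ∀ l, l ≤ s → dt h0 (A (i l)) = 0 := by
    intro l hl
    rw [← hHs]
    exact hmono' l s hl le_rfl _ (hi1 l hl)
  -- the length of the chain
  have hsn : s = n := by
    obtain ⟨e, he0, he⟩ := fns a (Fin.elim0 : Fin 0 → Lat n) M hM0 w hw
    have h1 := mux_le (fun l : Fin (s + 1) => A (i l)) hi4 h0 h0ne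
      (fun l => hiT l (by omega))
    have h2 := mux_ge (fun l : Fin (s + 1) => A (i l)) _ he (by
      intro g hg k
      refine hi5 g (fun l hl => hg ⟨l, by omega⟩) _ ?_
      rw [hHs]
      exact he0 k)
    omega
  have hrg : range (s + 1) = range (n + 1) := by rw [hsn]
  -- the sum
  have hOm : Om A h0 (∑ l ∈ range (n + 1), A (i l)) := by
    have := hi3 s le_rfl
    rwa [hHs, hrg] at this
  have hNot : NotIn A (cC κ lam) h0 (single (∑ l ∈ range (n + 1), A (i l)) 1) := by
    rwa [hHs, hrg] at hi6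
  have hμ : ∀ k, (∑ l ∈ range (n + 1), A (i l)) (Fin.succ (Fin.succ k)) =
      ∑ l ∈ range (n + 1), A (i l) (Fin.succ (Fin.succ k)) := fun k => Finset.sum_apply _ _ _
  have hdtk : ∀ (k : Fin n) (u : Lat (n + 2)),
      dt (vec 0 0 (ev k)) u = u (Fin.succ (Fin.succ k)) := by
    intro k u
    rw [vec_surj u, dt_vec]
    simp only [zero_mul, zero_add]
    have := dt_ev k (fun j => u j.succ.succ)
    rw [dt] at this
    rw [this]
    rfl
  have hμ1 : ∀ k, 1 ≤ (∑ l ∈ range (n + 1), A (i l)) (Fin.succ (Fin.succ k)) := by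
    intro k
    have h1 := hOm (vec 0 0 (ev k)) (fun i => by rw [hdtk]; exact hAnn i k)
    rw [hdtk] at h1
    have h2 : (∑ l ∈ range (n + 1), A (i l)) (Fin.succ (Fin.succ k)) ≠ 0 := by
      intro hzero
      have h3 := h1.2.1 hzero
      by_cases hwk : w k = 0
      · have h4 := h3 (Sum.inr (Sum.inl (some k))) (by rw [h0some, hwk]; simp)
        rw [hdtk, hAsome, if_pos rfl] at h4
        omega
      · have h5 : ∀ i, ∑ j, a i j * w j = H22.wmin a w → a i k = 0 := by
          intro i hi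
          have h4 := h3 (Sum.inl i) ((h0face i).2 hi)
          rw [hdtk, hAinl] at h4
          exact_mod_cast h4
        have h6 := mux_rank_upper ({y | ∃ i, ∑ j, a i j * w j = H22.wmin a w ∧
            y = H22.rowR a i} ∪ {y | ∃ j, w j = 0 ∧ y = Sum.elim (fun _ => 0) (Pi.single j 1)} :
              Set (Unit ⊕ Fin n → ℝ)) (H22.wmin a w : ℝ) (by exact_mod_cast hN.ne')
          (fun j => (w j : ℝ)) k (by
            rintro y (⟨i, hi, rfl⟩ | ⟨j, hj, rfl⟩)
            · simp only [H22.rowR, Sum.elim_inl, Sum.elim_inr, mul_one]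
              rw [← hi]
              push_cast
              rw [neg_add_eq_zero]
              exact sum_congr rfl fun j _ => mul_comm _ _
            · simp only [Sum.elim_inl, Sum.elim_inr, mul_zero, zero_add]
              refine sum_eq_zero fun j' _ => ?_
              by_cases hjj : j' = j
              · rw [hjj, hj]; simp
              · rw [Pi.single_eq_of_ne hjj, mul_zero]) (by
            rintro y (⟨i, hi, rfl⟩ | ⟨j, hj, rfl⟩)
            · simp only [H22.rowR, Sum.elim_inr]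
              rw [h5 i hi]; simp
            · simp only [Sum.elim_inr]
              exact Pi.single_eq_of_ne (fun h => hwk (by rw [h]; exact hj)) _)
        rw [hw.2] at h6
        have := k.2
        omega
    omega
  refine ⟨∑ l ∈ range (n + 1), A (i l), i, j0, by omega, rfl, ?_, ?_, ?_,
    fun l k => hAnn _ _, hOm, hNot, ?_, ?_⟩
  · intro l hl
    exact (hHj _).1 (hmono' l j0 hl hj0 _ (hi1 l (by omega)))
  · intro g hg
    have h1 := hi3 j0 hj0 g hg
    simp only [hHj] at h1
    exact h1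
  · rintro ⟨i1, i2, h1, h2, h12⟩
    by_contra hcon
    have hj00 : j0 = 0 := by omega
    subst hj00
    obtain ⟨i0, -, hi0⟩ := hz
    exact h12 ((hi0 i1 ((hHj _).2 h1)).trans (hi0 i2 ((hHj _).2 h2)).symm)
  · -- (P3)
    intro k hwk _ hB
    by_contra hcon
    have h1 := hμ1 k
    have h2 : (∑ l ∈ range (n + 1), A (i l)) (Fin.succ (Fin.succ k)) = 1 := by omega
    rw [hμ] at h2
    obtain ⟨l0, hl0, hl1, hl2⟩ := mux_sum_one _ _ (fun l _ => hAnn _ _) h2
    obtain ⟨i1, hi1', hi1k⟩ := hA1 _ _ hl1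
    apply hB
    have hface : ∑ j, a i1 j * w j = H22.wmin a w := by
      rw [← h0face, ← hi1']
      exact hiT l0 (by rw [mem_range] at hl0; omega)
    refine ⟨?_, i1, hface, hi1k⟩
    rw [mem_range] at hl0
    have hli : LinearIndependent ℤ (fun l : Fin (n + 1) => A (i l)) := by
      have h3 := hi4.comp (Fin.cast (by rw [hsn]) : Fin (n + 1) → Fin (s + 1))
        (Fin.cast_injective _)
      exact h3
    have hli2 := hli.comp (Fin.succAbove ⟨l0, hl0⟩) Fin.succAbove_right_injective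
    have h4 := mux_rank_lower _ hli2 ({y | ∃ i, ∑ j, a i j * w j = H22.wmin a w ∧ a i k = 0 ∧
        y = H22.rowR a i} ∪ {y | ∃ j, w j = 0 ∧ y = Sum.elim (fun _ => 0) (Pi.single j 1)} :
          Set (Unit ⊕ Fin n → ℝ)) (by
      intro l
      have h5 : ((Fin.succAbove ⟨l0, hl0⟩ l : Fin (n + 1)) : ℕ) ≠ l0 := by
        intro h
        exact Fin.succAbove_ne ⟨l0, hl0⟩ l (Fin.ext h)
      have h6 : A (i ((Fin.succAbove ⟨l0, hl0⟩ l : Fin (n + 1)) : ℕ)) (Fin.succ (Fin.succ k)) = 0 :=
        hl2 _ (mem_range.2 (Fin.is_lt _)) h5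
      have h7 : dt h0 (A (i ((Fin.succAbove ⟨l0, hl0⟩ l : Fin (n + 1)) : ℕ))) = 0 :=
        hiT _ (by have := (Fin.succAbove ⟨l0, hl0⟩ l : Fin (n + 1)).2; omega)
      show (fun y => ((A (i ((Fin.succAbove ⟨l0, hl0⟩ l : Fin (n + 1)) : ℕ)) (H11.fgt n y) : ℤ) : ℝ))
        ∈ _
      generalize i ((Fin.succAbove ⟨l0, hl0⟩ l : Fin (n + 1)) : ℕ) = x at h6 h7
      rcases x with i' | (_ | j) | x
      · apply Submodule.subset_span
        left
        refine ⟨i', (h0face i').1 h7, by rw [hAinl] at h6; exact_mod_cast h6, ?_⟩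
        funext y
        rcases y with y | y
        · simp [hA, cA, H11.fgt, vec, H22.rowR]
        · simp only [H11.fgt, Sum.elim_inr, H22.rowR]
          rw [hAinl]
          simp
      · have : (fun y => ((A (Sum.inr (Sum.inl none)) (H11.fgt n y) : ℤ) : ℝ)) = 0 := by
          funext y
          rcases y with y | y
          · simp [hA, cA, H11.fgt, vec]
          · simp only [H11.fgt, Sum.elim_inr]
            rw [hAnone]
            simp
        rw [this]
        exact Submodule.zero_mem _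
      · have hwj : w j = 0 := by
          rw [h0some] at h7
          have := (mul_eq_zero.1 h7).resolve_left hM0.ne'
          exact_mod_cast this
        have : (fun y => ((A (Sum.inr (Sum.inl (some j))) (H11.fgt n y) : ℤ) : ℝ)) =
            (M : ℝ) • (Sum.elim (fun _ => 0) (Pi.single j 1) : Unit ⊕ Fin n → ℝ) := by
          funext y
          rcases y with y | y
          · simp [hA, cA, H11.fgt, vec]
          · simp only [H11.fgt, Sum.elim_inr, Pi.smul_apply, smul_eq_mul]
            rw [hAsome, Pi.single_apply]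
            split_ifs <;> simp
        rw [this]
        exact Submodule.smul_mem _ _ (Submodule.subset_span (Or.inr ⟨j, hwj, rfl⟩))
      · exact x.elim0)
    have h8 := mux_rank_upper ({y | ∃ i, ∑ j, a i j * w j = H22.wmin a w ∧ a i k = 0 ∧
        y = H22.rowR a i} ∪ {y | ∃ j, w j = 0 ∧ y = Sum.elim (fun _ => 0) (Pi.single j 1)} :
          Set (Unit ⊕ Fin n → ℝ)) (H22.wmin a w : ℝ) (by exact_mod_cast hN.ne')
      (fun j => (w j : ℝ)) k (by
        rintro y (⟨i, hi, hik, rfl⟩ | ⟨j, hj, rfl⟩)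
        · simp only [H22.rowR, Sum.elim_inl, Sum.elim_inr, mul_one]
          rw [← hi]
          push_cast
          rw [neg_add_eq_zero]
          exact sum_congr rfl fun j _ => mul_comm _ _
        · simp only [Sum.elim_inl, Sum.elim_inr, mul_zero, zero_add]
          refine sum_eq_zero fun j' _ => ?_
          by_cases hjj : j' = j
          · rw [hjj, hj]; simp
          · rw [Pi.single_eq_of_ne hjj, mul_zero]) (by
        rintro y (⟨i, hi, hik, rfl⟩ | ⟨j, hj, rfl⟩)
        · simp only [H22.rowR, Sum.elim_inr]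
          rw [hik]; simp
        · simp only [Sum.elim_inr]
          exact Pi.single_eq_of_ne (fun h => hwk (by rw [h]; exact hj)) _)
    have := k.2
    omega
  · -- (P4)
    intro k hwk hno
    by_contra hcon
    have h1 := hμ1 k
    have h2 : (∑ l ∈ range (n + 1), A (i l)) (Fin.succ (Fin.succ k)) = 1 := by omega
    rw [hμ] at h2
    obtain ⟨l0, hl0, hl1, hl2⟩ := mux_sum_one _ _ (fun l _ => hAnn _ _) h2
    obtain ⟨i1, hi1', hi1k⟩ := hA1 _ _ hl1
    refine hno i1 ?_ hi1k
    rw [← h0face, ← hi1']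
    exact hiT l0 (by rw [mem_range] at hl0; omega)

end Pool.Agent.H56.SMC

end S_MUX
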