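import Mathlib
import Pool.Agent.H56.SL.A1
import Pool.Agent.H56.SL.A4
import Pool.Agent.H56.SL.A5
import Pool.Agent.H56.SL.A6
import Pool.Agent.H56.SL.A7
import Pool.Agent.H56.SL.A8
import Pool.Agent.H56.SL.A9

/-! Strong monodromy for nondegenerate polynomials, part A10: this file joins the modules APPG, APPC, APPT, APPF. -/

set_option autoImplicit false

section S_APPG

/-!
# APPG: the general criterion, abstract form

Write `A = cA a (bbM β M)`, `c = cC κ lam`, `h0 = vec (-N) 0 w`, `N = wmin a w`, `δ = vec 1 1 0`, `s0 = -|w|/N`.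
Proof.  (0) `0 < r` (`hN`: for `r = 0` `wmin` is an infimum over the empty set, `0`), `n > 0` (`w ≠ 0`).
(1) `fspan`, `fac` (with `d + 1 = n + 2`): the functionals `h_v`, `hfac`.  `Sset h = {u : InC A u}` (by `hfac` and `hh`).  `l = lev h m0 y0`; `l v ≤ 0` since `dt (h v) y0 ≥ 0` (`hy0c`).
(2) `u ∈ Sc h l` iff `m0 u + y0 ∈ Sset h` (`mem_Sc_lev`); so `InC A (m0 u + y0)`: `0 ≤ m0 dt δ u + dt δ y0` gives a lower bound `C` for `dt δ u`; `0 ≤ dt h0 (m0 u + y0) = m0 dt h0 u`.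
(3) For every index `v`: either `h_v` has second coordinate `≠ 0`, or `fnr` applies: `h_v = vec 1 0 0` or `h_v = vec (-wmin a v') 0 v'` with `v'` a primitive ray; in the last case
`hA`, `hB` give the hypotheses of `appn`, `appu` for `L = l v` (`m0 q ≤ dt (h_v) y0` gives `l v = -⌊dt (h_v) y0 / m0⌋ ≤ -q`).
(4) `good v` iff `h_v = vec 1 0 0` or `h_v = vec (-wmin a v') 0 v'` with `v'` a primitive ray and `β_k·v' ≠ 0` for all `k`.  Bad `v`: `appu`.  All `v`: `appn`.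
`x`, `R` from `mrel` (`t0 = I`, not an integer): an exponent of `x` is `u = vec 0 R (ρ + a_i)`; for `vec 1 0 0`: `dt = 0 ≥ l v`; for a good ray:
`dt (h v) u = v'·ρ + v'·a_i ≥ 0 ≥ l v` by the last part of `mrel` (`β_k·v' ≥ 1`, so `M ≤ M β_k·v'`; `D v'_j ≤ M` by `hMv`); `dt h0 u = w·ρ + w·a_i ≥ 0 + N > 0` (the same with `v' = w`, `hβw`, `hMw`).
(5) `core` with `kexa`, `kexf` (`hh0`; `fns`), `ndg`: `single 0 (b.eval s0) = ∑_j gs A (cF A c h0) (ev j) * t_j` (`constantCoeff (aeval (C s0 + X) b) = b.eval s0`).  If `b.eval s0 ≠ 0` divide by it: contradicts `hno`.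
-/

set_option autoImplicit false

namespace Pool.Agent.H56.SMC

open Finset AddMonoidAlgebra

/-- The value of `wmin` is a lower bound. -/
theorem appg_wmin_le {n r : ℕ} (a : Fin r → (Fin n →₀ ℕ)) (w : Fin n → ℕ) (i : Fin r) :
    (H22.wmin a w : ℤ) ≤ ∑ j, (w j : ℤ) * (a i j : ℤ) := by
  have h : H22.wmin a w ≤ ∑ j, a i j * w j := by
    unfold H22.wmin
    exact ciInf_le ⟨0, by rintro _ ⟨i, rfl⟩; exact Nat.zero_le _⟩ i
  calc (H22.wmin a w : ℤ) ≤ ((∑ j, a i j * w j : ℕ) : ℤ) := by exact_mod_cast h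
    _ = ∑ j, (w j : ℤ) * (a i j : ℤ) := by
      push_cast
      exact sum_congr rfl fun j _ => mul_comm _ _

theorem appg_pos {n r : ℕ} (a : Fin r → (Fin n →₀ ℕ)) (w : Fin n → ℕ)
    (hN : 0 < H22.wmin a w) : 0 < r := by
  rcases Nat.eq_zero_or_pos r with h | h
  · subst h
    exfalso
    have : H22.wmin a w = 0 := by
      unfold H22.wmin
      exact Nat.iInf_of_empty _
    omega
  · exact h

theorem appg_delta {n r m : ℕ} (a : Fin r → (Fin n →₀ ℕ)) (β : Fin m → Fin n → ℤ) (M : ℤ)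
    (i : Fin r ⊕ (Option (Fin n) ⊕ Fin m)) : dt (vec 1 1 0) (cA a (bbM β M) i) = 1 := by
  rcases i with i | k
  · simp [cA, dt_vec]
  · simp [cA, dt_vec]

theorem appg_beta {n m : ℕ} (β : Fin m → Fin n → ℤ) (M : ℤ) (v : Fin n → ℕ) (k : Fin m) :
    dt (fun j => (v j : ℤ)) (bbM β M (Sum.inr k)) = M * ∑ j, β k j * v j := by
  simp only [bbM, dt]
  rw [mul_sum]
  refine sum_congr rfl fun j' _ => ?_
  simp only [Pi.smul_apply, smul_eq_mul]
  ring

theorem appg_bbM_nonneg {n m : ℕ} (β : Fin m → Fin n → ℤ) (M : ℤ) (hM : 0 < M)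
    (o : Option (Fin n)) (j : Fin n) : 0 ≤ bbM β M (Sum.inl o) j := by
  rcases o with _ | j'
  · simp [bbM]
  · simp only [bbM, ev, Pi.smul_apply, smul_eq_mul, Pi.single_apply]
    split_ifs
    · linarith
    · simp

theorem appg_h0 {n r m : ℕ} (a : Fin r → (Fin n →₀ ℕ)) (β : Fin m → Fin n → ℤ) (M : ℤ)
    (hM : 0 < M) (w : Fin n → ℕ) (hβw : ∀ k, 0 ≤ ∑ j, β k j * w j)
    (i : Fin r ⊕ (Option (Fin n) ⊕ Fin m)) :
    0 ≤ dt (vec (-(H22.wmin a w : ℤ)) 0 (fun j => (w j : ℤ))) (cA a (bbM β M) i) := by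
  rcases i with i | (o | k)
  · simp only [cA, dt_vec]
    have h' := appg_wmin_le a w i
    linarith
  · simp only [cA, dt_vec]
    have : 0 ≤ ∑ j', (w j' : ℤ) * bbM β M (Sum.inl o) j' :=
      sum_nonneg fun j' _ => mul_nonneg (by positivity) (appg_bbM_nonneg β M hM o j')
    linarith
  · simp only [cA, dt_vec]
    have h1 := appg_beta β M w k
    simp only [dt] at h1
    rw [h1]
    have := mul_nonneg hM.le (hβw k)
    linarith

/-- Nonnegativity at the exponents of the right side. -/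
theorem appg_exp {n r m : ℕ} (a : Fin r → (Fin n →₀ ℕ)) (β : Fin m → Fin n → ℤ) (M : ℤ)
    (hM : 0 < M) (D : ℕ) (w : Fin n → ℕ) (hβw : ∀ k, 0 < ∑ j, β k j * w j)
    (hMw : ∀ j, (D : ℤ) * w j ≤ M) (ρ : Lat n) (i : Fin r) (R : ℤ)
    (H : ∀ (v : Lat n) (M' : ℤ), (∀ j, 0 ≤ v j ∧ D * v j ≤ M') →
          (∀ k, (∀ j, 0 ≤ bbM β M k j) ∨ M' ≤ dt v (bbM β M k)) → 0 ≤ dt v ρ) :
    (H22.wmin a w : ℤ) ≤ dt (vec (-(H22.wmin a w : ℤ)) 0 (fun j => (w j : ℤ)))
      (vec 0 R (ρ + fun j => (a i j : ℤ))) := by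
  rw [dt_vec]
  have h1 : 0 ≤ dt (fun j => (w j : ℤ)) ρ := by
    refine H _ M (fun j => ⟨by positivity, hMw j⟩) ?_
    rintro (o | k)
    · exact Or.inl (appg_bbM_nonneg β M hM o)
    · right
      rw [appg_beta]
      have := hβw k
      nlinarith
  have h2 := appg_wmin_le a w i
  have h3 : ∑ j, (w j : ℤ) * (ρ + fun j => (a i j : ℤ)) j =
      dt (fun j => (w j : ℤ)) ρ + ∑ j, (w j : ℤ) * (a i j : ℤ) := by
    simp only [Pi.add_apply, mul_add, sum_add_distrib, dt]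
  rw [h3]
  linarith

theorem appg_lev {d : ℕ} {κ : Type} (h : κ → Lat d) (m0 : ℤ) (hm0 : 0 < m0) (y0 : Lat d)
    (v : κ) (q : ℤ) (hq : m0 * q ≤ dt (h v) y0) : lev h m0 y0 v ≤ -q := by
  unfold lev
  have : q ≤ dt (h v) y0 / m0 := by
    rw [Int.le_ediv_iff_mul_le hm0]
    linarith
  linarith

theorem appg_sset {d : ℕ} {ι κ : Type} [Fintype ι] (a : ι → Lat d) (h : κ → Lat d)
    (hh : ∀ v i, 0 ≤ dt (h v) (a i))
    (hfac : ∀ u ∈ Sset h, ∃ N : ℕ, 0 < N ∧ ∃ n : ι → ℕ, N • u = ∑ i, n i • a i) (u : Lat d) :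
    u ∈ Sset h ↔ InC a u := by
  constructor
  · intro hu h' hh'
    obtain ⟨N, hN, n, hn⟩ := hfac u hu
    have h1 : dt h' (N • u) = ∑ i, (n i : ℤ) * dt h' (a i) := by
      rw [hn, dt_sum]
      exact sum_congr rfl fun i _ => dt_nsmul _ _ _
    rw [dt_nsmul] at h1
    have h2 : 0 ≤ (N : ℤ) * dt h' u := by
      rw [h1]
      exact sum_nonneg fun i _ => mul_nonneg (by positivity) (hh' i)
    have h3 : (0 : ℤ) < N := by exact_mod_cast hN
    exact nonneg_of_mul_nonneg_right h2 h3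
  · intro hu v
    exact hu (h v) (hh v)

theorem appg_aeval (s : ℂ) (b : Polynomial ℂ) :
    PowerSeries.constantCoeff (Polynomial.aeval (PowerSeries.C s + PowerSeries.X : PA) b) =
      b.eval s := by
  rw [Polynomial.aeval_def, Polynomial.hom_eval₂]
  have h1 : (PowerSeries.constantCoeff (R := ℂ)) (PowerSeries.C s + PowerSeries.X) = s := by
    simp
  rw [h1, Polynomial.eval]
  congr 1

/-- APPG -/
theorem appg {n r m : ℕ} (a : Fin r → (Fin n →₀ ℕ)) (κ : Fin r → ℂ)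
    (hnd : Nondeg a κ) (b : Polynomial ℂ) (P : H22.WeylS n)
    (hfe : H22.FunctionalEquation (fpoly a κ) b P) (w : Fin n → ℕ) (hw : FacetNormal a w)
    (hN : 0 < H22.wmin a w) (β : Fin m → Fin n → ℤ) (hβw : ∀ k, 0 < ∑ j, β k j * w j)
    (D : ℕ) (hD : ∀ α ∈ P.support, ∑ j, α j ≤ D) (M : ℤ) (hM : 0 < M)
    (hMw : ∀ j, (D : ℤ) * w j ≤ M)
    (hMv : ∀ v : Fin n → ℕ, RayNormal a β v → univ.gcd v = 1 → ∀ j, (D : ℤ) * v j ≤ M)
    (m0 : ℤ) (hm0 : 0 < m0) (y0 : Lat (n + 2)) (hy0c : InC (cA a (bbM β M)) y0)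
    (hy0 : dt (vec (-(H22.wmin a w : ℤ)) 0 (fun j => (w j : ℤ))) y0 = 0)
    (hA : ∀ v : Fin n → ℕ, RayNormal a β v → univ.gcd v = 1 → H22.wmin a v = 0 →
      m0 * H22.wsum v ≤ dt (vec (-(H22.wmin a v : ℤ)) 0 (fun j => (v j : ℤ))) y0)
    (hB : ∀ v : Fin n → ℕ, RayNormal a β v → univ.gcd v = 1 → (∃ k, ∑ j, β k j * v j = 0) →
      ∀ l : ℕ, 0 < l →
        H22.wsum v * H22.wmin a w = l * H22.wmin a w + H22.wmin a v * H22.wsum w →
        m0 * l ≤ dt (vec (-(H22.wmin a v : ℤ)) 0 (fun j => (v j : ℤ))) y0)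
    (lam : Option (Fin n) ⊕ Fin m → ℂ)
    (hlam : AlgebraicIndependent (Algebra.adjoin ℚ (Set.range κ)) lam)
    (hno : ¬ ∃ t : Fin (n + 2) → LP ℂ (n + 2),
      (∀ j, Supp {u | InC (cA a (bbM β M)) (m0 • u + y0) ∧
        dt (vec (-(H22.wmin a w : ℤ)) 0 (fun j => (w j : ℤ))) u = 0 ∧
        dt (vec 1 1 0) u = -1} (t j)) ∧
      (single 0 1 : LP ℂ (n + 2)) = ∑ j, gs (cA a (bbM β M))
        (cF (cA a (bbM β M)) (cC κ lam) (vec (-(H22.wmin a w : ℤ)) 0 (fun j => (w j : ℤ))))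
        (ev j) * t j) :
    b.IsRoot (-(H22.wsum w : ℂ) / (H22.wmin a w : ℂ)) := by
  classical
  have hr := appg_pos a w hN
  have hδ := appg_delta a β M
  obtain ⟨e, he⟩ := fspan hr a β M hM
  obtain ⟨mf, h, hh, hprim, hfacet, hfac⟩ := fac (cA a (bbM β M)) (vec 1 1 0) hδ ⟨e, he⟩
  have hS := appg_sset (cA a (bbM β M)) h hh hfac
  have hndA : TorusND (cA a (bbM β M)) (cC κ lam) := ndg a κ hnd (bbM β M) lam hlam
  have hSc : ∀ u, u ∈ Sc h (lev h m0 y0) ↔ InC (cA a (bbM β M)) (m0 • u + y0) := by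
    intro u
    rw [mem_Sc_lev h hm0, hS]
  have hl0 : ∀ v, lev h m0 y0 v ≤ 0 := by
    intro v
    have := appg_lev h m0 hm0 y0 v 0 (by rw [mul_zero]; exact hy0c (h v) (hh v))
    linarith
  have hSδ : ∀ u ∈ Sc h (lev h m0 y0), -|dt (vec 1 1 0) y0| ≤ dt (vec 1 1 0) u := by
    intro u hu
    rw [hSc] at hu
    have h1 := hu (vec 1 1 0) (fun i => by rw [hδ i]; norm_num)
    rw [dt_add, dt_zsmul] at h1
    have h2 := le_abs_self (dt (vec 1 1 0) y0)
    have h3 := abs_nonneg (dt (vec 1 1 0) y0)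
    by_contra hcon
    push Not at hcon
    nlinarith
  have hh0 := appg_h0 a β M hM w (fun k => (hβw k).le)
  have hS0 : ∀ u ∈ Sc h (lev h m0 y0),
      0 ≤ dt (vec (-(H22.wmin a w : ℤ)) 0 (fun j => (w j : ℤ))) u := by
    intro u hu
    rw [hSc] at hu
    have h1 := hu _ hh0
    rw [dt_add, dt_zsmul, hy0, add_zero] at h1
    exact nonneg_of_mul_nonneg_right h1 hm0
  have hcases : ∀ v, h v (Fin.succ 0) ≠ 0 ∨ h v = vec 1 0 0 ∨
      ∃ v' : Fin n → ℕ, RayNormal a β v' ∧ univ.gcd v' = 1 ∧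
        h v = vec (-(H22.wmin a v' : ℤ)) 0 (fun j => (v' j : ℤ)) := by
    intro v
    by_cases h1 : h v (Fin.succ 0) = 0
    · exact Or.inr (fnr hr a β M hM (h v) (hh v) (hprim v) (hfacet v) h1)
    · exact Or.inl h1
  have hnr : ∀ v, ∀ mm : ℤ, mm < lev h m0 y0 v →
      pv (pp (PowerSeries.C (-(H22.wsum w : ℂ) / (H22.wmin a w : ℂ)) + PowerSeries.X)
        (PowerSeries.C Complex.I)) (h v) + (mm : PA) ≠ 0 := by
    intro v mm hmm
    refine appn a w hN (h v) (lev h m0 y0 v) ?_ mm hmm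
    rcases hcases v with h1 | h1 | ⟨v', hray, hg, hv'⟩
    · exact Or.inl h1
    · exact Or.inr (Or.inl h1)
    · refine Or.inr (Or.inr ⟨v', hv', fun h0 => ?_⟩)
      have := hA v' hray hg h0
      rw [← hv'] at this
      exact appg_lev h m0 hm0 y0 v _ this
  have hbad : ∀ v, ¬ (h v = vec 1 0 0 ∨ ∃ v' : Fin n → ℕ, RayNormal a β v' ∧ univ.gcd v' = 1 ∧
        h v = vec (-(H22.wmin a v' : ℤ)) 0 (fun j => (v' j : ℤ)) ∧
        ∀ k, ∑ j, β k j * v' j ≠ 0) → ∀ mm : ℤ, mm < lev h m0 y0 v →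
      IsUnit (pv (pp (PowerSeries.C (-(H22.wsum w : ℂ) / (H22.wmin a w : ℂ)) + PowerSeries.X)
        (PowerSeries.C Complex.I)) (h v) + (mm : PA)) := by
    intro v hng mm hmm
    refine appu a w hN (h v) (lev h m0 y0 v) (hl0 v) ?_ mm hmm
    rcases hcases v with h1 | h1 | ⟨v', hray, hg, hv'⟩
    · exact Or.inl h1
    · exact absurd (Or.inl h1) hng
    · refine Or.inr ⟨v', hv', fun l hl heq => ?_⟩
      have hex : ∃ k, ∑ j, β k j * v' j = 0 := by
        by_contra hcon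
        push Not at hcon
        exact hng (Or.inr ⟨v', hray, hg, hv', hcon⟩)
      have := hB v' hray hg hex l hl heq
      rw [← hv'] at this
      exact appg_lev h m0 hm0 y0 v _ this
  have hp0 : PowerSeries.constantCoeff
      (pv (pp (PowerSeries.C (-(H22.wsum w : ℂ) / (H22.wmin a w : ℂ)) + PowerSeries.X)
        (PowerSeries.C Complex.I)) (vec (-(H22.wmin a w : ℤ)) 0 (fun j => (w j : ℤ))) : PA) = 0 := by
    have hNC : (H22.wmin a w : ℂ) ≠ 0 := by exact_mod_cast hN.ne'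
    rw [pv_pp]
    simp only [map_add, map_sub, map_neg, map_mul, PowerSeries.constantCoeff_X, map_intCast,
      PowerSeries.constantCoeff_C]
    simp only [H22.wsum]
    push_cast
    field_simp
    ring
  have hK := kexa (cA a (bbM β M)) (cC κ lam) h (vec 1 1 0) hδ hh hfac hndA ⟨e, he⟩ m0 hm0 y0
  have hne : (vec (-(H22.wmin a w : ℤ)) 0 (fun j => (w j : ℤ)) : Lat (n + 2)) ≠ 0 := by
    intro hcon
    have h1 := congrFun hcon 0
    simp only [vec, Fin.cons_zero, Pi.zero_apply] at h1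
    have : (H22.wmin a w : ℤ) = 0 := by linarith
    have h2 : H22.wmin a w = 0 := by exact_mod_cast this
    omega
  have hKF := kexf (cA a (bbM β M)) (cC κ lam) h (vec 1 1 0) hδ hh hfac hndA
    (vec (-(H22.wmin a w : ℤ)) 0 (fun j => (w j : ℤ))) hne hh0 (fns a β M hM w hw) m0 hm0 y0 hy0
  obtain ⟨R, x, hex, hx⟩ := mrel a κ (bbM β M) lam b P hfe D hD
    (-(H22.wsum w : ℂ) / (H22.wmin a w : ℂ)) Complex.I (by
      intro m hm
      have := congrArg Complex.im hm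
      simp at this)
  have hxS : Supp {u | (∀ v, (h v = vec 1 0 0 ∨ ∃ v' : Fin n → ℕ, RayNormal a β v' ∧
        univ.gcd v' = 1 ∧ h v = vec (-(H22.wmin a v' : ℤ)) 0 (fun j => (v' j : ℤ)) ∧
        ∀ k, ∑ j, β k j * v' j ≠ 0) → lev h m0 y0 v ≤ dt (h v) u) ∧
        0 < dt (vec (-(H22.wmin a w : ℤ)) 0 (fun j => (w j : ℤ))) u} x := by
    intro u hu
    obtain ⟨ρ, i, rfl, H⟩ := hx u hu
    refine ⟨fun v hgood => ?_, ?_⟩
    · refine (hl0 v).trans ?_
      rcases hgood with h1 | ⟨v', hray, hg, hv', hne'⟩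
      · rw [h1, dt_vec]
        simp
      · rw [hv']
        have := appg_exp a β M hM D v' (fun k => lt_of_le_of_ne (hray.2.1 k) (hne' k).symm)
          (hMv v' hray hg) ρ i R H
        exact le_trans (by positivity) this
    · have := appg_exp a β M hM D w hβw hMw ρ i R H
      have hN' : (0 : ℤ) < H22.wmin a w := by exact_mod_cast hN
      exact lt_of_lt_of_le hN' this
  obtain ⟨t, ht, hsum⟩ := core (cA a (bbM β M)) (cC κ lam) _ h (lev h m0 y0) hl0
    (fun v => h v = vec 1 0 0 ∨ ∃ v' : Fin n → ℕ, RayNormal a β v' ∧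
        univ.gcd v' = 1 ∧ h v = vec (-(H22.wmin a v' : ℤ)) 0 (fun j => (v' j : ℤ)) ∧
        ∀ k, ∑ j, β k j * v' j ≠ 0) (vec 1 1 0)
    (vec (-(H22.wmin a w : ℤ)) 0 (fun j => (w j : ℤ))) hδ _ hSδ hh hh0 hS0 hnr hbad hp0 hK hKF
    _ x hxS hex
  rw [appg_aeval] at hsum
  by_contra hroot
  have hb : b.eval (-(H22.wsum w : ℂ) / (H22.wmin a w : ℂ)) ≠ 0 := hroot
  apply hno
  refine ⟨fun j => (b.eval (-(H22.wsum w : ℂ) / (H22.wmin a w : ℂ)))⁻¹ • t j,
    fun j => Supp.smul _ ?_, ?_⟩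
  · intro u hu
    obtain ⟨h1, h2, h3⟩ := ht j u hu
    exact ⟨(hSc u).1 h1, h2, h3⟩
  · have h1 : (single 0 1 : LP ℂ (n + 2)) =
        (b.eval (-(H22.wsum w : ℂ) / (H22.wmin a w : ℂ)))⁻¹ •
          (single 0 (b.eval (-(H22.wsum w : ℂ) / (H22.wmin a w : ℂ))) : LP ℂ (n + 2)) := by
      apply lp_ext
      intro u
      rw [coeff_smul', coeff_single', coeff_single']
      split_ifs
      · rw [inv_mul_cancel₀ hb]
      · rw [mul_zero]
    rw [h1, hsum, smul_sum]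
    exact sum_congr rfl fun j _ => (mul_smul_comm _ _ _).symm

end Pool.Agent.H56.SMC

end S_APPG

section S_APPC

/-!
# APPC: the criterion from a nonzero class (adapt the proof in APPF.lean)

Proof.  Write `A = cA a (bbM β M)`, `h0 = vec (-N) 0 w`.  (1) `D` = a bound for `∑ α_j`, `α ∈ P.support`; choose `M ≥ 2` with `M ≥ D w_j` and `M ≥ D v_j` for all `v` in the finite set `rfin a β`.  `lam` from `lam_exists`.  `hmu` gives `μ`.  Choose `m0 ≥ 2` with `m0 > |v|` for all `v` in the finite set.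
(2) `y0 = (m0 - 1) • μ`; `InC A y0` (`Om` gives `0 ≤ dt h μ`); `dt h0 y0 = 0` (`Om` with `h = h0`, which is nonnegative on `A`).  `hA`: `dt (vec ..) y0 = (m0 - 1) dt (vec ..) μ ≥ (m0 - 1)(|v| + 1) ≥ m0 |v|`.  `hB`: the same with `l ≤ |v|` (from `|v| N(w) = l N(w) + N(v) |w| ≥ l N(w)`).
(3) `hno` of `appg`: if `single 0 1 = ∑_j g_j t_j` then `single μ 1 = ∑_j g_j (single μ 1 * t_j)`; the exponents of `single μ 1 * t_j` are `u + μ` with `InC A (m0 u + y0)`, `dt h0 u = 0`; claim `Om A h0 (u + μ)`, contradicting `NotIn`.  Let `h''` be nonnegative on `A`.  `m0 dt h'' (u + μ) = dt h'' (m0 u + y0) + dt h'' μ ≥ dt h'' μ ≥ 0`.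
If `dt h'' (u + μ) = 0` then `dt h'' μ = 0`, so `h''` vanishes on the face (`Om A h0 μ`).  Conversely let `h''` vanish on the face `{dt h0 (A i) = 0}`: `dt h'' μ = 0` (`Om`).  For `L` large the functional `L h0 - h''` is nonnegative on `A` (zero on the face, `dt h0 (A i) ≥ 1` off it), so `InC` for `m0 u + y0` gives
`0 ≤ dt (L h0 - h'') (m0 u + y0) = -dt h'' (m0 u + y0)`, and `0 ≤ dt h'' (m0 u + y0)`: it is `0`, and `dt h'' y0 = 0`, so `dt h'' u = 0`.
-/

set_option autoImplicit false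

namespace Pool.Agent.H56.SMC

open Finset AddMonoidAlgebra

/-- arithmetic at the end of `hA`, `hB` -/
theorem appc_arith {m0 V X : ℤ} (h1 : V + 1 ≤ X) (h2 : V < m0) (hm : 1 ≤ m0) :
    m0 * V ≤ (m0 - 1) * X := by
  have h3 : (m0 - 1) * (V + 1) ≤ (m0 - 1) * X := mul_le_mul_of_nonneg_left h1 (by linarith)
  nlinarith

theorem appc_dt_left {d : ℕ} (L : ℤ) (h g u : Lat d) :
    dt (L • h - g) u = L * dt h u - dt g u := by
  rw [dt_comm, dt_sub, dt_zsmul, dt_comm u h, dt_comm u g]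

/-- Multiplication by `μ` maps the conic module of the face into its interior. -/
theorem appc_om {d : ℕ} {ι : Type} [Fintype ι] (A : ι → Lat d)
    (h0 : Lat d) (hh0 : ∀ i, 0 ≤ dt h0 (A i)) (μ : Lat d) (hμ : Om A h0 μ) (m0 : ℤ) (hm0 : 0 < m0)
    (u : Lat d) (hu : InC A (m0 • u + (m0 - 1) • μ)) (hu0 : dt h0 u = 0) :
    Om A h0 (u + μ) := by
  intro g hg
  obtain ⟨hμ1, hμ2⟩ := hμ g hg
  have hid : m0 * dt g (u + μ) = dt g (m0 • u + (m0 - 1) • μ) + dt g μ := by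
    rw [dt_add, dt_add, dt_zsmul, dt_zsmul]; ring
  have h1 := hu g hg
  have h2 : 0 ≤ dt g (u + μ) := by
    by_contra hcon
    push Not at hcon
    have : m0 * dt g (u + μ) < 0 := mul_neg_of_pos_of_neg hm0 hcon
    linarith
  refine ⟨h2, ?_, ?_⟩
  · intro h3
    rw [h3, mul_zero] at hid
    exact hμ2.1 (by linarith)
  · intro h3
    have hμ0 : dt g μ = 0 := hμ2.2 h3
    have hμ00 : dt h0 μ = 0 := (hμ h0 hh0).2.2 (fun i hi => hi)
    set L : ℤ := ∑ i, dt g (A i) with hL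
    have hL' : ∀ i, dt g (A i) ≤ L := fun i =>
      Finset.single_le_sum (f := fun i => dt g (A i)) (fun i _ => hg i) (Finset.mem_univ i)
    have hnn : ∀ i, 0 ≤ dt (L • h0 - g) (A i) := by
      intro i
      rw [appc_dt_left]
      rcases (hh0 i).eq_or_lt with h4 | h4
      · rw [h3 i h4.symm, ← h4]
        simp
      · have h5 : 0 ≤ L := (hg i).trans (hL' i)
        have h6 : L * 1 ≤ L * dt h0 (A i) := mul_le_mul_of_nonneg_left (by omega) h5
        have h7 := hL' i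
        linarith
    have h4 := hu _ hnn
    rw [appc_dt_left] at h4
    have h5 : dt h0 (m0 • u + (m0 - 1) • μ) = 0 := by
      rw [dt_add, dt_zsmul, dt_zsmul, hu0, hμ00]; ring
    rw [h5] at h4
    have e3 : dt g (m0 • u + (m0 - 1) • μ) = 0 := by
      apply le_antisymm _ h1
      linarith
    rw [e3, hμ0, add_zero] at hid
    rcases mul_eq_zero.1 hid with h4 | h4
    · exact absurd h4 hm0.ne'
    · exact h4

/-- APPC -/
theorem appc {n r m : ℕ} (a : Fin r → (Fin n →₀ ℕ)) (κ : Fin r → ℂ)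
    (hnd : Nondeg a κ) (b : Polynomial ℂ) (P : H22.WeylS n)
    (hfe : H22.FunctionalEquation (fpoly a κ) b P) (w : Fin n → ℕ) (hw : FacetNormal a w)
    (hN : 0 < H22.wmin a w) (β : Fin m → Fin n → ℤ) (hβw : ∀ k, 0 < ∑ j, β k j * w j)
    (hmu : ∀ (M : ℤ), 2 ≤ M → ∀ lam : Option (Fin n) ⊕ Fin m → ℂ,
      AlgebraicIndependent (Algebra.adjoin ℚ (Set.range κ)) lam → ∃ μ : Lat (n + 2),
        Om (cA a (bbM β M)) (vec (-(H22.wmin a w : ℤ)) 0 (fun j => (w j : ℤ))) μ ∧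
        NotIn (cA a (bbM β M)) (cC κ lam) (vec (-(H22.wmin a w : ℤ)) 0 (fun j => (w j : ℤ)))
          (single μ 1) ∧
        ∀ v : Fin n → ℕ, RayNormal a β v → univ.gcd v = 1 →
          (H22.wmin a v = 0 →
            (H22.wsum v : ℤ) < dt (vec (-(H22.wmin a v : ℤ)) 0 (fun j => (v j : ℤ))) μ) ∧
          ((∃ k, ∑ j, β k j * v j = 0) → ∀ l : ℕ, 0 < l →
            H22.wsum v * H22.wmin a w = l * H22.wmin a w + H22.wmin a v * H22.wsum w →
            (l : ℤ) < dt (vec (-(H22.wmin a v : ℤ)) 0 (fun j => (v j : ℤ))) μ)) :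
    b.IsRoot (-(H22.wsum w : ℂ) / (H22.wmin a w : ℂ)) := by
  classical
  -- the constants
  set D : ℕ := P.support.sup (fun α => ∑ j, α j) with hDdef
  have hD : ∀ α ∈ P.support, ∑ j, α j ≤ D := fun α hα =>
    Finset.le_sup (f := fun α : Fin n →₀ ℕ => ∑ j, α j) hα
  set F : Finset (Fin n → ℕ) := (rfin a β).toFinset with hF
  have hmemF : ∀ v', RayNormal a β v' → univ.gcd v' = 1 → v' ∈ F := by
    intro v' h1 h2
    rw [hF, Set.Finite.mem_toFinset]
    exact ⟨h1, h2⟩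
  set M0 : ℕ := 2 + D * ∑ j, w j + ∑ v' ∈ F, D * ∑ j, v' j with hM0
  have hFle : ∀ v' ∈ F, D * ∑ j, v' j ≤ ∑ v' ∈ F, D * ∑ j, v' j := fun v' hv' =>
    Finset.single_le_sum (f := fun v' : Fin n → ℕ => D * ∑ j, v' j)
      (fun _ _ => Nat.zero_le _) hv'
  have hM2 : (2 : ℤ) ≤ (M0 : ℤ) := by
    have : 2 ≤ M0 := by omega
    exact_mod_cast this
  have hMpos : (0 : ℤ) < (M0 : ℤ) := by linarith
  have hMw : ∀ j, (D : ℤ) * w j ≤ (M0 : ℤ) := by
    intro j
    have h1 : w j ≤ ∑ j, w j := Finset.single_le_sum (fun _ _ => Nat.zero_le _) (Finset.mem_univ j)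
    have h2 : D * w j ≤ D * ∑ j, w j := Nat.mul_le_mul_left D h1
    have h3 : D * w j ≤ M0 := by omega
    exact_mod_cast h3
  have hMv : ∀ v' : Fin n → ℕ, RayNormal a β v' → univ.gcd v' = 1 →
      ∀ j, (D : ℤ) * v' j ≤ (M0 : ℤ) := by
    intro v' hv1 hv2 j
    have h0 := hFle v' (hmemF v' hv1 hv2)
    have h1 : v' j ≤ ∑ j, v' j :=
      Finset.single_le_sum (fun _ _ => Nat.zero_le _) (Finset.mem_univ j)
    have h2 : D * v' j ≤ D * ∑ j, v' j := Nat.mul_le_mul_left D h1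
    have h3 : D * v' j ≤ M0 := by omega
    exact_mod_cast h3
  set m1 : ℕ := 1 + ∑ v' ∈ F, (∑ j, v' j) with hm1
  have hm1pos : (0 : ℤ) < (m1 : ℤ) := by
    have : 0 < m1 := by omega
    exact_mod_cast this
  have hm1v : ∀ v' : Fin n → ℕ, RayNormal a β v' → univ.gcd v' = 1 →
      (H22.wsum v' : ℤ) < (m1 : ℤ) := by
    intro v' hv1 hv2
    have h0 : (∑ j, v' j) ≤ ∑ v' ∈ F, (∑ j, v' j) :=
      Finset.single_le_sum (f := fun v' : Fin n → ℕ => ∑ j, v' j)
        (fun _ _ => Nat.zero_le _) (hmemF v' hv1 hv2)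
    have h3 : H22.wsum v' < m1 := by
      unfold H22.wsum
      omega
    exact_mod_cast h3
  have hm1one : (1 : ℤ) ≤ (m1 : ℤ) := by linarith
  -- the coefficients of `H`
  obtain ⟨lam, hlam'⟩ := lam_exists (Finset.univ.image κ) (Option (Fin n) ⊕ Fin m)
  have hlam : AlgebraicIndependent (Algebra.adjoin ℚ (Set.range κ)) lam := by
    have e : ((Finset.univ.image κ : Finset ℂ) : Set ℂ) = Set.range κ := by
      rw [Finset.coe_image, Finset.coe_univ, Set.image_univ]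
    rw [e] at hlam'
    exact hlam'
  obtain ⟨μ, hOm, hNot, hval⟩ := hmu (M0 : ℤ) hM2 lam hlam
  have hh0 : ∀ i, 0 ≤ dt (vec (-(H22.wmin a w : ℤ)) 0 (fun j => (w j : ℤ)))
      (cA a (bbM β (M0 : ℤ)) i) :=
    appg_h0 a β (M0 : ℤ) hMpos w (fun k => (hβw k).le)
  have hμ0 : dt (vec (-(H22.wmin a w : ℤ)) 0 (fun j => (w j : ℤ))) μ = 0 :=
    (hOm _ hh0).2.2 (fun i hi => hi)
  refine appg a κ hnd b P hfe w hw hN β hβw D hD (M0 : ℤ) hMpos hMw hMv (m1 : ℤ) hm1pos
    (((m1 : ℤ) - 1) • μ) ?_ ?_ ?_ ?_ lam hlam ?_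
  · intro g hg
    rw [dt_zsmul]
    exact mul_nonneg (by linarith) (hOm g hg).1
  · rw [dt_zsmul, hμ0, mul_zero]
  · intro v' hv1 hv2 hv3
    rw [dt_zsmul]
    refine appc_arith ?_ (hm1v v' hv1 hv2) hm1one
    have := (hval v' hv1 hv2).1 hv3
    linarith
  · intro v' hv1 hv2 hv3 l hl hle
    rw [dt_zsmul]
    have hlv : l ≤ H22.wsum v' := by
      have h1 : l * H22.wmin a w ≤ H22.wsum v' * H22.wmin a w := by
        rw [hle]; exact Nat.le_add_right _ _
      exact Nat.le_of_mul_le_mul_right h1 hN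
    have hlv' : (l : ℤ) ≤ (H22.wsum v' : ℤ) := by exact_mod_cast hlv
    refine appc_arith ?_ (lt_of_le_of_lt hlv' (hm1v v' hv1 hv2)) hm1one
    have := (hval v' hv1 hv2).2 hv3 l hl hle
    linarith
  · rintro ⟨t, ht, hs⟩
    apply hNot
    refine ⟨fun j => single μ 1 * t j, ?_, ?_⟩
    · intro j u hu
      rw [single_mul_coeff] at hu
      have h1 : (t j).coeff (u - μ) ≠ 0 := fun h0 => hu (by rw [h0, mul_zero])
      have h2 := ht j _ h1
      have h3 := appc_om (cA a (bbM β (M0 : ℤ))) _ hh0 μ hOm (m1 : ℤ) hm1pos (u - μ)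
        h2.1 h2.2.1
      rw [sub_add_cancel] at h3
      exact h3
    · have h1 : (single μ 1 : LP ℂ (n + 2)) = single μ 1 * single 0 1 := by
        rw [AddMonoidAlgebra.single_mul_single, add_zero, mul_one]
      refine h1.trans ?_
      rw [hs, Finset.mul_sum]
      refine Finset.sum_congr rfl fun j _ => ?_
      beta_reduce
      ring

end Pool.Agent.H56.SMC

end S_APPC

section S_APPT

/-!
# APPT: the criterion with `θ`

Proof.  `Z = {j : w_j = 0}`, `z = |Z|`.  (1) Choose `m0 > 0` with `m0 θ_i ∈ ℕ` for all `i` and `m0 (1 - ∑ θ_i) > z` (a large multiple of the common denominator).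
(2) `D` = a bound for `∑ α_j`, `α ∈ P.support`.  Choose `M > 0` with `M ≥ D w_j`, and `M ≥ D v_j`, `M ≥ m0 |v|` for all `v` in the finite set `rfin a β`.
(3) `lam` from `lam_exists` (`T` = the image of `κ`).  `y0 = ∑_i (m0 θ_i) (1,0;a_i) + ∑_{j∈Z} (0,1;M e_j)` (natural coefficients, so `InC`); `dt h0 y0 = 0` (`θ_i ≠ 0` only on the face; `w_j = 0` on `Z`), `dt δ y0 = m0 ∑ θ_i + z < m0`.
For a primitive ray `v`: `dt (vec (-N(v)) 0 v) y0 = ∑_i m0 θ_i (v·a_i - N(v)) + M ∑_{j∈Z} v_j`.  If `v_j ≠ 0` for some `j ∈ Z` it is `≥ M ≥ m0 |v|`, and `l ≤ |v|` in `hB` (from `|v| N(w) = l N(w) + N(v) |w| ≥ l N(w)`).  If `v_j = 0` on `Z`: `Crit`.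
(4) `hno`: an exponent `u` of `t_j` would satisfy (`InC` with the functional `δ`) `0 ≤ m0 dt δ u + dt δ y0 = -m0 + dt δ y0 < 0`; so all `t_j = 0` and `single 0 1 = 0`, a contradiction.
-/

set_option autoImplicit false

namespace Pool.Agent.H56.SMC

open Finset AddMonoidAlgebra

/-- the vector `y0` -/
def APPT_y {n r : ℕ} (a : Fin r → (Fin n →₀ ℕ)) (t : Fin r → ℕ) (Z : Finset (Fin n)) (M : ℤ) :
    Lat (n + 2) :=
  ∑ i, (t i : ℤ) • vec 1 0 (fun j => (a i j : ℤ)) + ∑ j ∈ Z, vec 0 1 (M • ev j)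

theorem APPT_dt {n r : ℕ} (a : Fin r → (Fin n →₀ ℕ)) (t : Fin r → ℕ) (Z : Finset (Fin n)) (M : ℤ)
    (c e : ℤ) (q : Fin n → ℤ) :
    dt (vec c e q) (APPT_y a t Z M) =
      ∑ i, (t i : ℤ) * (c + ∑ j, q j * (a i j : ℤ)) + ∑ j ∈ Z, (e + M * q j) := by
  unfold APPT_y
  rw [dt_add, dt_sum, dt_sum]
  congr 1
  · refine sum_congr rfl fun i _ => ?_
    rw [dt_zsmul, dt_vec]
    ring
  · refine sum_congr rfl fun j _ => ?_
    rw [dt_vec]
    have : ∑ k, q k * (M • ev j : Lat n) k = M * q j := by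
      rw [Finset.sum_eq_single j]
      · simp only [Pi.smul_apply, ev, Pi.single_eq_same, smul_eq_mul, mul_one]
        ring
      · intro k _ hk
        simp only [Pi.smul_apply, ev, smul_eq_mul]
        rw [Pi.single_eq_of_ne hk, mul_zero, mul_zero]
      · intro h
        exact absurd (mem_univ j) h
    rw [this]
    ring

theorem APPT_inC {n r m : ℕ} (a : Fin r → (Fin n →₀ ℕ)) (β : Fin m → Fin n → ℤ) (t : Fin r → ℕ)
    (Z : Finset (Fin n)) (M : ℤ) : InC (cA a (bbM β M)) (APPT_y a t Z M) := by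
  intro h hh
  unfold APPT_y
  rw [dt_add, dt_sum, dt_sum]
  apply add_nonneg
  · refine sum_nonneg fun i _ => ?_
    rw [dt_zsmul]
    exact mul_nonneg (Int.natCast_nonneg _) (hh (Sum.inl i))
  · refine sum_nonneg fun j _ => ?_
    exact hh (Sum.inr (Sum.inl (some j)))

theorem APPT_wmin_le {n r : ℕ} (a : Fin r → (Fin n →₀ ℕ)) (v : Fin n → ℕ) (i : Fin r) :
    H22.wmin a v ≤ ∑ j, a i j * v j := by
  unfold H22.wmin
  exact ciInf_le (OrderBot.bddBelow _) i

/-- common denominator -/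
theorem APPT_den {r : ℕ} (θ : Fin r → ℚ) (h0 : ∀ i, 0 ≤ θ i) (h1 : ∑ i, θ i < 1) (z : ℕ) :
    ∃ (m0 : ℕ) (t : Fin r → ℕ), 0 < m0 ∧ (∀ i, (t i : ℚ) = m0 * θ i) ∧ ∑ i, t i + z < m0 := by
  classical
  set dn : ℕ := ∏ i, (θ i).den with hdn
  have hdn0 : 0 < dn := Finset.prod_pos fun i _ => (θ i).den_pos
  have hc : ∀ i, ∃ c : ℕ, (c : ℚ) = dn * θ i := by
    intro i
    obtain ⟨k, hk⟩ : (θ i).den ∣ dn := Finset.dvd_prod_of_mem _ (mem_univ i)
    refine ⟨k * (θ i).num.toNat, ?_⟩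
    have hnum : ((θ i).num.toNat : ℤ) = (θ i).num :=
      Int.toNat_of_nonneg (Rat.num_nonneg.2 (h0 i))
    have hnum' : (((θ i).num.toNat : ℕ) : ℚ) = ((θ i).num : ℚ) := by
      exact_mod_cast hnum
    push_cast
    rw [hnum', hk]
    push_cast
    have h3 : ((θ i).den : ℚ) * θ i = (θ i).num := by
      rw [mul_comm]
      exact Rat.mul_den_eq_num (θ i)
    linear_combination (-(k : ℚ)) * h3
  choose c hc using hc
  refine ⟨(z + 1) * dn, fun i => (z + 1) * c i, by positivity, fun i => ?_, ?_⟩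
  · push_cast
    rw [hc i]
    ring
  · have hs : ((∑ i, c i : ℕ) : ℚ) < (dn : ℚ) := by
      push_cast
      rw [sum_congr rfl fun i _ => hc i, ← mul_sum]
      have : (0 : ℚ) < dn := by exact_mod_cast hdn0
      nlinarith
    have hs' : ∑ i, c i + 1 ≤ dn := by exact_mod_cast hs
    rw [← mul_sum]
    nlinarith

/-- APPT -/
theorem appt {n r m : ℕ} (a : Fin r → (Fin n →₀ ℕ)) (κ : Fin r → ℂ)
    (hnd : Nondeg a κ) (b : Polynomial ℂ) (P : H22.WeylS n)
    (hfe : H22.FunctionalEquation (fpoly a κ) b P) (w : Fin n → ℕ) (hw : FacetNormal a w)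
    (hN : 0 < H22.wmin a w) (β : Fin m → Fin n → ℤ) (θ : Fin r → ℚ) (hc : Crit a w β θ) :
    b.IsRoot (-(H22.wsum w : ℂ) / (H22.wmin a w : ℂ)) := by
  classical
  obtain ⟨hβw, hθ0, hθw, hθ1, hray⟩ := hc
  set Z : Finset (Fin n) := univ.filter fun j => w j = 0 with hZ
  obtain ⟨m0, t, hm0, ht, htz⟩ := APPT_den θ hθ0 hθ1 Z.card
  set D : ℕ := P.support.sup fun α => ∑ j, α j with hD
  set F : Finset (Fin n → ℕ) := (rfin a β).toFinset with hF
  set M : ℕ := 1 + D * ∑ j, w j + ∑ v ∈ F, (D + m0) * H22.wsum v with hM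
  have hMpos : 0 < M := by omega
  have hle_sum : ∀ (v : Fin n → ℕ) (j : Fin n), v j ≤ H22.wsum v := fun v j =>
    Finset.single_le_sum (fun _ _ => Nat.zero_le _) (mem_univ j)
  have hMw : ∀ j, (D : ℤ) * w j ≤ (M : ℤ) := by
    intro j
    have h1 : D * w j ≤ D * ∑ j, w j := Nat.mul_le_mul_left _ (hle_sum w j)
    have h2 : D * w j ≤ M := by omega
    exact_mod_cast h2
  have hMF : ∀ v : Fin n → ℕ, RayNormal a β v → univ.gcd v = 1 → (D + m0) * H22.wsum v ≤ M := by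
    intro v hv hg
    have h1 : v ∈ F := by
      rw [hF, Set.Finite.mem_toFinset]
      exact ⟨hv, hg⟩
    have h2 := Finset.single_le_sum (f := fun v => (D + m0) * H22.wsum v)
      (fun _ _ => Nat.zero_le _) h1
    have h3 : (D + m0) * H22.wsum v ≤ ∑ v ∈ F, (D + m0) * H22.wsum v := h2
    omega
  have hMv : ∀ v : Fin n → ℕ, RayNormal a β v → univ.gcd v = 1 → ∀ j, (D : ℤ) * v j ≤ (M : ℤ) := by
    intro v hv hg j
    have h1 := hMF v hv hg
    have h2 := hle_sum v j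
    have h3 : D * v j ≤ M := by nlinarith
    exact_mod_cast h3
  have hMm : ∀ v : Fin n → ℕ, RayNormal a β v → univ.gcd v = 1 → m0 * H22.wsum v ≤ M := by
    intro v hv hg
    have h1 := hMF v hv hg
    nlinarith [Nat.zero_le (D * H22.wsum v)]
  obtain ⟨lam, hlam⟩ := lam_exists (univ.image κ) (Option (Fin n) ⊕ Fin m)
  have hcoe : ((univ.image κ : Finset ℂ) : Set ℂ) = Set.range κ := by
    rw [coe_image, coe_univ, Set.image_univ]
  rw [hcoe] at hlam
  set y0 : Lat (n + 2) := APPT_y a t Z (M : ℤ) with hy0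
  -- the value on the rays
  have hval : ∀ v : Fin n → ℕ, dt (vec (-(H22.wmin a v : ℤ)) 0 (fun j => (v j : ℤ))) y0 =
      ∑ i, (t i : ℤ) * ((∑ j, a i j * v j : ℕ) - (H22.wmin a v : ℤ)) +
        (M : ℤ) * ∑ j ∈ Z, (v j : ℤ) := by
    intro v
    rw [hy0, APPT_dt]
    congr 1
    · refine sum_congr rfl fun i _ => ?_
      push_cast
      rw [neg_add_eq_sub]
      congr 2
      exact sum_congr rfl fun j _ => mul_comm _ _
    · rw [mul_sum]
      exact sum_congr rfl fun j _ => by ring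
  have hnn : ∀ v : Fin n → ℕ, ∀ i,
      0 ≤ (t i : ℤ) * ((∑ j, a i j * v j : ℕ) - (H22.wmin a v : ℤ)) := by
    intro v i
    apply mul_nonneg (Int.natCast_nonneg _)
    have := APPT_wmin_le a v i
    rw [sub_nonneg]
    exact_mod_cast this
  -- rays with a nonzero coordinate in `Z`
  have hbig : ∀ v : Fin n → ℕ, (∃ j, w j = 0 ∧ v j ≠ 0) →
      (M : ℤ) ≤ dt (vec (-(H22.wmin a v : ℤ)) 0 (fun j => (v j : ℤ))) y0 := by
    rintro v ⟨j, hj, hvj⟩
    rw [hval]
    have h1 : 0 ≤ ∑ i, (t i : ℤ) * ((∑ j, a i j * v j : ℕ) - (H22.wmin a v : ℤ)) :=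
      sum_nonneg fun i _ => hnn v i
    have h2 : (1 : ℤ) ≤ ∑ j ∈ Z, (v j : ℤ) := by
      have h3 : (v j : ℤ) ≤ ∑ j ∈ Z, (v j : ℤ) :=
        Finset.single_le_sum (f := fun j => (v j : ℤ)) (fun _ _ => Int.natCast_nonneg _)
          (mem_filter.2 ⟨mem_univ j, hj⟩)
      have h4 : 1 ≤ v j := Nat.one_le_iff_ne_zero.2 hvj
      have h5 : (1 : ℤ) ≤ v j := by exact_mod_cast h4
      linarith
    have h6 : (M : ℤ) * 1 ≤ (M : ℤ) * ∑ j ∈ Z, (v j : ℤ) :=
      mul_le_mul_of_nonneg_left h2 (Int.natCast_nonneg _)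
    linarith
  -- the other rays
  have hsmall : ∀ v : Fin n → ℕ, (∀ j, w j = 0 → v j = 0) →
      ((dt (vec (-(H22.wmin a v : ℤ)) 0 (fun j => (v j : ℤ))) y0 : ℤ) : ℚ) =
        m0 * ∑ i, θ i * ((∑ j, a i j * v j : ℕ) - (H22.wmin a v : ℚ)) := by
    intro v hv
    rw [hval]
    have h1 : ∑ j ∈ Z, (v j : ℤ) = 0 := by
      refine sum_eq_zero fun j hj => ?_
      rw [hv j (mem_filter.1 hj).2]
      rfl
    rw [h1, mul_zero, add_zero, mul_sum]
    push_cast
    refine sum_congr rfl fun i _ => ?_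
    rw [ht i]
    ring
  refine appg a κ hnd b P hfe w hw hN β hβw D ?_ (M : ℤ) (by exact_mod_cast hMpos) hMw hMv
    (m0 : ℤ) (by exact_mod_cast hm0) y0 (APPT_inC a β t Z _) ?_ ?_ ?_ lam hlam ?_
  · intro α hα
    exact Finset.le_sup (f := fun α : Fin n →₀ ℕ => ∑ j, α j) hα
  · rw [hval]
    have h1 : ∑ j ∈ Z, (w j : ℤ) = 0 := by
      refine sum_eq_zero fun j hj => ?_
      rw [(mem_filter.1 hj).2]
      rfl
    rw [h1, mul_zero, add_zero]
    refine sum_eq_zero fun i _ => ?_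
    by_cases hi : θ i = 0
    · have h2 := ht i
      rw [hi, mul_zero] at h2
      have h3 : t i = 0 := by exact_mod_cast h2
      rw [h3]
      simp
    · rw [hθw i hi, sub_self, mul_zero]
  · intro v hv hg hv0
    by_cases hcase : ∃ j, w j = 0 ∧ v j ≠ 0
    · have h1 := hbig v hcase
      have h2 : ((m0 * H22.wsum v : ℕ) : ℤ) ≤ (M : ℤ) := by exact_mod_cast hMm v hv hg
      push_cast at h2
      linarith
    · push Not at hcase
      have h1 := (hray v hv hg hcase).1 hv0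
      have h2 := hsmall v hcase
      have h3 : ((m0 : ℤ) * H22.wsum v : ℤ) ≤
          dt (vec (-(H22.wmin a v : ℤ)) 0 (fun j => (v j : ℤ))) y0 := by
        have h4 : (((m0 : ℤ) * H22.wsum v : ℤ) : ℚ) ≤
            ((dt (vec (-(H22.wmin a v : ℤ)) 0 (fun j => (v j : ℤ))) y0 : ℤ) : ℚ) := by
          rw [h2]
          push_cast
          apply mul_le_mul_of_nonneg_left _ (Nat.cast_nonneg _)
          refine h1.trans (le_of_eq ?_)
          refine sum_congr rfl fun i _ => ?_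
          rw [hv0]
          push_cast
          ring
        exact_mod_cast h4
      exact h3
  · intro v hv hg hk l hl heq
    by_cases hcase : ∃ j, w j = 0 ∧ v j ≠ 0
    · have h1 := hbig v hcase
      have h2 := hMm v hv hg
      have h3 : l ≤ H22.wsum v := by
        have h4 : l * H22.wmin a w ≤ H22.wsum v * H22.wmin a w := by
          rw [heq]
          exact Nat.le_add_right _ _
        exact Nat.le_of_mul_le_mul_right h4 hN
      have h5 : m0 * l ≤ M := (Nat.mul_le_mul_left m0 h3).trans h2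
      have h6 : ((m0 * l : ℕ) : ℤ) ≤ (M : ℤ) := by exact_mod_cast h5
      push_cast at h6
      linarith
    · push Not at hcase
      have h1 := (hray v hv hg hcase).2 hk l hl heq
      have h2 := hsmall v hcase
      have h4 : (((m0 : ℤ) * l : ℤ) : ℚ) ≤
          ((dt (vec (-(H22.wmin a v : ℤ)) 0 (fun j => (v j : ℤ))) y0 : ℤ) : ℚ) := by
        rw [h2]
        push_cast
        apply mul_le_mul_of_nonneg_left _ (Nat.cast_nonneg _)
        push_cast at h1
        exact h1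
      exact_mod_cast h4
  · rintro ⟨T, hT, hTe⟩
    have hδ : dt (vec 1 1 0) y0 < (m0 : ℤ) := by
      rw [hy0, APPT_dt]
      simp only [Pi.zero_apply, zero_mul, sum_const_zero, add_zero, mul_one, mul_zero,
        sum_const, nsmul_eq_mul]
      exact_mod_cast htz
    have hT0 : ∀ j, T j = 0 := by
      intro j
      apply lp_ext
      intro u
      by_contra hne
      obtain ⟨h1, _, h3⟩ := hT j u hne
      have h4 := h1 (vec 1 1 0) (by
        rintro (i | k)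
        · show 0 ≤ dt (vec 1 1 0) (vec 1 0 (fun j => (a i j : ℤ)))
          rw [dt_vec]
          simp
        · show 0 ≤ dt (vec 1 1 0) (vec 0 1 (bbM β (M : ℤ) k))
          rw [dt_vec]
          simp)
      rw [dt_add, dt_zsmul, h3] at h4
      linarith
    have h5 : (single 0 1 : LP ℂ (n + 2)) = 0 := by
      rw [hTe]
      refine sum_eq_zero fun j _ => ?_
      rw [hT0 j, mul_zero]
    have h6 := congrArg (fun x : LP ℂ (n + 2) => x.coeff 0) h5
    simp only [coeff_single', if_true, coeff_zero'] at h6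
    exact one_ne_zero h6

end Pool.Agent.H56.SMC

end S_APPT

section S_APPF

/-!
# APPF: the criterion with a flag

Proof.  `A = cA a (bbM β M)`, `n' = supCard w`.  (1) `D` = a bound for `∑ α_j`, `α ∈ P.support`; choose `M > 0` with `M ≥ D w_j` and `M ≥ D v_j`, `M ≥ |v| + 1` for all `v` in the finite set `rfin a β`; `m0 > |v|` for all these `v`, `m0 ≥ 1`.
(2) `fspan`, `fac`: functionals `h`, `hfac`; `ndg`; `fch` and `flag` (`s = n`) give `i`, `μ = ∑_{j≤n} A (i j)` with `Om A h0 μ`, `NotIn A c h0 (single μ 1)`, and `q` with `μ = vec n' _ (∑_t a_{q t} + M 1_Z)`.  `y0 = (m0 - 1) • μ`; `InC A y0`; `dt h0 y0 = 0` (`Om` with `h = h0`).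
For a primitive ray `v`: `dt (vec (-N(v)) 0 v) μ = ∑_{t<n'} (v·a_{q t} - N(v)) + M ∑_{j∈Z} v_j`; if `v_j ≠ 0` for some `j ∈ Z` it is `≥ M ≥ |v| + 1`; otherwise `CritF` gives `≥ |v| + 1` (if `N(v) = 0`), `≥ l + 1` (in the situation of `hB`).  In `hB` `l ≤ |v|`.  With `V ∈ {|v|, l}`, `V ≤ |v| < m0`:
`(m0 - 1)(V + 1) ≥ m0 V`.  So `hA`, `hB`.
(3) `hno`: if `single 0 1 = ∑_j g_j t_j` then `single μ 1 = ∑_j g_j (single μ 1 * t_j)`; the exponents of `single μ 1 * t_j` are `u + μ` with `InC A (m0 u + y0)`, `dt h0 u = 0`; claim `Om A h0 (u + μ)`, contradicting `NotIn`.  Let `h''` be nonnegative on `A`.  `m0 dt h'' (u + μ) = dt h'' (m0 u + y0) + dt h'' μ ≥ dt h'' μ ≥ 0`.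
If `dt h'' (u + μ) = 0` then `dt h'' μ = 0`, so `h''` vanishes on the face (`Om A h0 μ`).  Conversely let `h''` vanish on the face `{dt h0 (A i) = 0}`: `dt h'' μ = 0` (`Om`), and `m0 u + y0 ∈ Sset h`, `N (m0 u + y0) = ∑ n_i A_i` (`hfac`) with `n_i = 0` off the face (`dt h0 = 0`), so `dt h'' (m0 u + y0) = 0`, `dt h'' u = 0`.
-/

set_option autoImplicit false

namespace Pool.Agent.H56.SMC

open Finset AddMonoidAlgebra

/-- arithmetic at the end of `hA`, `hB` -/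
theorem appf_arith {m0 V X : ℤ} (h1 : V + 1 ≤ X) (h2 : V < m0) (hm : 1 ≤ m0) :
    m0 * V ≤ (m0 - 1) * X := by
  have h3 : (m0 - 1) * (V + 1) ≤ (m0 - 1) * X := mul_le_mul_of_nonneg_left h1 (by linarith)
  nlinarith

theorem appf_wmin_le {n r : ℕ} (a : Fin r → (Fin n →₀ ℕ)) (v : Fin n → ℕ) (i : Fin r) :
    H22.wmin a v ≤ ∑ j, a i j * v j := by
  unfold H22.wmin
  exact ciInf_le (OrderBot.bddBelow _) i

theorem appf_rpos {n r : ℕ} (a : Fin r → (Fin n →₀ ℕ)) (w : Fin n → ℕ)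
    (hN : 0 < H22.wmin a w) : 0 < r := by
  rcases Nat.eq_zero_or_pos r with h | h
  · subst h
    unfold H22.wmin at hN
    simp at hN
  · exact h

theorem appf_delta {n r m : ℕ} (a : Fin r → (Fin n →₀ ℕ)) (β : Fin m → Fin n → ℤ) (M : ℤ)
    (i : Fin r ⊕ (Option (Fin n) ⊕ Fin m)) :
    dt (vec 1 1 0) (cA a (bbM β M) i) = 1 := by
  rcases i with i | k
  · simp [cA, dt_vec]
  · simp [cA, dt_vec]

/-- The interior of the face from the conic module. -/
theorem appf_om {d : ℕ} {ι κ : Type} [Fintype ι] [Fintype κ] (A : ι → Lat d) (h : κ → Lat d)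
    (hh : ∀ v i, 0 ≤ dt (h v) (A i))
    (hfac : ∀ u ∈ Sset h, ∃ N : ℕ, 0 < N ∧ ∃ n : ι → ℕ, N • u = ∑ i, n i • A i)
    (h0 : Lat d) (hh0 : ∀ i, 0 ≤ dt h0 (A i)) (μ : Lat d) (hμ : Om A h0 μ) (m0 : ℤ) (hm0 : 0 < m0)
    (u : Lat d) (hu : InC A (m0 • u + (m0 - 1) • μ)) (hu0 : dt h0 u = 0) :
    Om A h0 (u + μ) := by
  intro g hg
  obtain ⟨hμ1, hμ2⟩ := hμ g hg
  have hid : m0 * dt g (u + μ) = dt g (m0 • u + (m0 - 1) • μ) + dt g μ := by
    rw [dt_add, dt_add, dt_zsmul, dt_zsmul]; ring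
  have h1 := hu g hg
  have h2 : 0 ≤ dt g (u + μ) := by
    by_contra hcon
    push Not at hcon
    have : m0 * dt g (u + μ) < 0 := mul_neg_of_pos_of_neg hm0 hcon
    linarith
  refine ⟨h2, ?_, ?_⟩
  · intro h3
    rw [h3, mul_zero] at hid
    exact hμ2.1 (by linarith)
  · intro h3
    have hμ0 : dt g μ = 0 := hμ2.2 h3
    have hμ00 : dt h0 μ = 0 := (hμ h0 hh0).2.2 (fun i hi => hi)
    obtain ⟨N, hN, nn, hn⟩ := hfac (m0 • u + (m0 - 1) • μ) (fun v => hu (h v) (hh v))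
    have e0 : ∑ i, (nn i : ℤ) * dt h0 (A i) = 0 := by
      have e := congrArg (dt h0) hn
      rw [dt_nsmul, dt_sum, dt_add, dt_zsmul, dt_zsmul, hu0, hμ00] at e
      simp only [dt_nsmul, mul_zero, add_zero] at e
      exact e.symm
    have e1 : ∀ i, (nn i : ℤ) * dt h0 (A i) = 0 := by
      intro i
      exact (Finset.sum_eq_zero_iff_of_nonneg
        (fun i _ => mul_nonneg (Int.natCast_nonneg _) (hh0 i))).1 e0 i (Finset.mem_univ i)
    have e2 : (N : ℤ) * dt g (m0 • u + (m0 - 1) • μ) = 0 := by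
      have e := congrArg (dt g) hn
      rw [dt_nsmul, dt_sum] at e
      rw [e]
      refine Finset.sum_eq_zero fun i _ => ?_
      rw [dt_nsmul]
      rcases mul_eq_zero.1 (e1 i) with h4 | h4
      · rw [h4, zero_mul]
      · rw [h3 i h4, mul_zero]
    have e3 : dt g (m0 • u + (m0 - 1) • μ) = 0 := by
      rcases mul_eq_zero.1 e2 with h4 | h4
      · exact absurd h4 (by exact_mod_cast hN.ne')
      · exact h4
    rw [e3, hμ0, add_zero] at hid
    rcases mul_eq_zero.1 hid with h4 | h4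
    · exact absurd h4 hm0.ne'
    · exact h4

/-- APPF -/
theorem appf {n r m : ℕ} (a : Fin r → (Fin n →₀ ℕ)) (κ : Fin r → ℂ)
    (hnd : Nondeg a κ) (b : Polynomial ℂ) (P : H22.WeylS n)
    (hfe : H22.FunctionalEquation (fpoly a κ) b P) (w : Fin n → ℕ) (hw : FacetNormal a w)
    (hN : 0 < H22.wmin a w) (β : Fin m → Fin n → ℤ) (v : ℕ → Fin n → ℕ)
    (hc : CritF a w β v) :
    b.IsRoot (-(H22.wsum w : ℂ) / (H22.wmin a w : ℂ)) := by
  classical
  obtain ⟨hflag, hcrit⟩ := hc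
  have hw0 : w ≠ 0 := hw.1
  have hr : 0 < r := appf_rpos a w hN
  -- the cardinality of the support of `w` is positive
  have hsup : 0 < supCard w := by
    unfold supCard
    rw [Finset.card_pos]
    by_contra hcon
    rw [Finset.not_nonempty_iff_eq_empty] at hcon
    apply hw0
    funext j
    by_contra hj
    have : j ∈ univ.filter (fun j => w j ≠ 0) := by
      rw [Finset.mem_filter]; exact ⟨Finset.mem_univ j, hj⟩
    rw [hcon] at this
    exact absurd this (Finset.notMem_empty j)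
  have hβw : ∀ k, 0 < ∑ j, β k j * w j := by
    have h1 := (hflag.2.1 0 hsup).2.1
    rw [hflag.1] at h1
    exact h1
  -- the constants
  set D : ℕ := P.support.sup (fun α => ∑ j, α j) with hDdef
  have hD : ∀ α ∈ P.support, ∑ j, α j ≤ D := fun α hα =>
    Finset.le_sup (f := fun α : Fin n →₀ ℕ => ∑ j, α j) hα
  set F : Finset (Fin n → ℕ) := (rfin a β).toFinset with hF
  have hmemF : ∀ v', RayNormal a β v' → univ.gcd v' = 1 → v' ∈ F := by
    intro v' h1 h2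
    rw [hF, Set.Finite.mem_toFinset]
    exact ⟨h1, h2⟩
  set M0 : ℕ := 1 + D * ∑ j, w j + ∑ v' ∈ F, (D * ∑ j, v' j + (∑ j, v' j + 1)) with hM0
  have hFle : ∀ v' ∈ F, D * ∑ j, v' j + (∑ j, v' j + 1) ≤
      ∑ v' ∈ F, (D * ∑ j, v' j + (∑ j, v' j + 1)) := fun v' hv' =>
    Finset.single_le_sum (f := fun v' : Fin n → ℕ => D * ∑ j, v' j + (∑ j, v' j + 1))
      (fun _ _ => Nat.zero_le _) hv'
  have hMpos : (0 : ℤ) < (M0 : ℤ) := by
    have : 0 < M0 := by omega
    exact_mod_cast this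
  have hMw : ∀ j, (D : ℤ) * w j ≤ (M0 : ℤ) := by
    intro j
    have h1 : w j ≤ ∑ j, w j := Finset.single_le_sum (fun _ _ => Nat.zero_le _) (Finset.mem_univ j)
    have h2 : D * w j ≤ D * ∑ j, w j := Nat.mul_le_mul_left D h1
    have h3 : D * w j ≤ M0 := by omega
    exact_mod_cast h3
  have hMv : ∀ v' : Fin n → ℕ, RayNormal a β v' → univ.gcd v' = 1 →
      ∀ j, (D : ℤ) * v' j ≤ (M0 : ℤ) := by
    intro v' hv1 hv2 j
    have h0 := hFle v' (hmemF v' hv1 hv2)
    have h1 : v' j ≤ ∑ j, v' j :=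
      Finset.single_le_sum (fun _ _ => Nat.zero_le _) (Finset.mem_univ j)
    have h2 : D * v' j ≤ D * ∑ j, v' j := Nat.mul_le_mul_left D h1
    have h3 : D * v' j ≤ M0 := by omega
    exact_mod_cast h3
  have hMs : ∀ v' : Fin n → ℕ, RayNormal a β v' → univ.gcd v' = 1 →
      (H22.wsum v' : ℤ) + 1 ≤ (M0 : ℤ) := by
    intro v' hv1 hv2
    have h0 := hFle v' (hmemF v' hv1 hv2)
    have h3 : H22.wsum v' + 1 ≤ M0 := by
      unfold H22.wsum
      omega
    exact_mod_cast h3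
  set m1 : ℕ := 1 + ∑ v' ∈ F, (∑ j, v' j) with hm1
  have hm1pos : (0 : ℤ) < (m1 : ℤ) := by
    have : 0 < m1 := by omega
    exact_mod_cast this
  have hm1v : ∀ v' : Fin n → ℕ, RayNormal a β v' → univ.gcd v' = 1 →
      (H22.wsum v' : ℤ) < (m1 : ℤ) := by
    intro v' hv1 hv2
    have h0 : (∑ j, v' j) ≤ ∑ v' ∈ F, (∑ j, v' j) :=
      Finset.single_le_sum (f := fun v' : Fin n → ℕ => ∑ j, v' j)
        (fun _ _ => Nat.zero_le _) (hmemF v' hv1 hv2)
    have h3 : H22.wsum v' < m1 := by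
      unfold H22.wsum
      omega
    exact_mod_cast h3
  -- the coefficients of `H`
  obtain ⟨lam, hlam'⟩ := lam_exists (Finset.univ.image κ) (Option (Fin n) ⊕ Fin m)
  have hlam : AlgebraicIndependent (Algebra.adjoin ℚ (Set.range κ)) lam := by
    have e : ((Finset.univ.image κ : Finset ℂ) : Set ℂ) = Set.range κ := by
      rw [Finset.coe_image, Finset.coe_univ, Set.image_univ]
    rw [e] at hlam'
    exact hlam'
  -- the facets
  obtain ⟨mm, h, hh, -, -, hfac⟩ := fac (d := n + 1) (cA a (bbM β (M0 : ℤ))) (vec 1 1 0)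
    (appf_delta a β (M0 : ℤ)) (fspan hr a β (M0 : ℤ) hMpos)
  have hndg : TorusND (cA a (bbM β (M0 : ℤ))) (cC κ lam) := ndg a κ hnd (bbM β (M0 : ℤ)) lam hlam
  -- the flag
  obtain ⟨H, hHn, hHnn, hH0, hHsub, hHstr, hHrk, hHq⟩ := fch a w hw0 hN β v hflag (M0 : ℤ) hMpos
  obtain ⟨i, hi0, hi, hOm, hNot⟩ := flag (cA a (bbM β (M0 : ℤ))) (cC κ lam) h (vec 1 1 0)
    (appf_delta a β (M0 : ℤ)) hh hfac hndg n H hHnn hH0 hHsub hHstr hHrk
  obtain ⟨q, hq, hμ⟩ := hHq i hi0 hi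
  set μ : Lat (n + 2) := ∑ j ∈ range (n + 1), cA a (bbM β (M0 : ℤ)) (i j) with hμdef
  rw [hHn] at hOm hNot
  have hh0 : ∀ i, 0 ≤ dt (vec (-(H22.wmin a w : ℤ)) 0 (fun j => (w j : ℤ)))
      (cA a (bbM β (M0 : ℤ)) i) := by
    have := hHnn n le_rfl
    rw [hHn] at this
    exact this
  have hμ0 : dt (vec (-(H22.wmin a w : ℤ)) 0 (fun j => (w j : ℤ))) μ = 0 :=
    (hOm _ hh0).2.2 (fun i hi => hi)
  -- the value of a ray at `μ`
  have hval : ∀ v' : Fin n → ℕ, dt (vec (-(H22.wmin a v' : ℤ)) 0 (fun j => (v' j : ℤ))) μ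
      = (∑ t ∈ range (supCard w), ∑ j, ((a (q t) j : ℤ) * v' j)) - supCard w * H22.wmin a v'
        + (M0 : ℤ) * ∑ j, (if w j = 0 then (v' j : ℤ) else 0) := by
    intro v'
    rw [hμ, dt_vec]
    have e1 : ∑ j, (v' j : ℤ) * ((∑ t ∈ range (supCard w), (a (q t) j : ℤ))
        + if w j = 0 then (M0 : ℤ) else 0)
        = (∑ t ∈ range (supCard w), ∑ j, ((a (q t) j : ℤ) * v' j))
          + (M0 : ℤ) * ∑ j, (if w j = 0 then (v' j : ℤ) else 0) := by
      rw [Finset.sum_comm, Finset.mul_sum, ← Finset.sum_add_distrib]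
      refine Finset.sum_congr rfl fun j _ => ?_
      rw [mul_add, Finset.mul_sum]
      congr 1
      · exact Finset.sum_congr rfl fun t _ => mul_comm _ _
      · split_ifs <;> ring
    rw [e1]
    ring
  have hge : ∀ v' : Fin n → ℕ, ((supCard w * H22.wmin a v' : ℕ) : ℤ)
      ≤ ∑ t ∈ range (supCard w), ∑ j, ((a (q t) j : ℤ) * v' j) := by
    intro v'
    have h1 : supCard w * H22.wmin a v' ≤ ∑ t ∈ range (supCard w), ∑ j, (a (q t) j * v' j) := by
      calc supCard w * H22.wmin a v' = ∑ t ∈ range (supCard w), H22.wmin a v' := by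
            rw [Finset.sum_const, Finset.card_range, smul_eq_mul]
        _ ≤ _ := Finset.sum_le_sum fun t _ => appf_wmin_le a v' (q t)
    have h2 : ((supCard w * H22.wmin a v' : ℕ) : ℤ)
        ≤ ((∑ t ∈ range (supCard w), ∑ j, (a (q t) j * v' j) : ℕ) : ℤ) := by exact_mod_cast h1
    refine h2.trans (le_of_eq ?_)
    push_cast
    rfl
  have hzpos : ∀ v' : Fin n → ℕ, 0 ≤ ∑ j, (if w j = 0 then (v' j : ℤ) else 0) := by
    intro v'
    refine Finset.sum_nonneg fun j _ => ?_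
    split_ifs
    · exact Int.natCast_nonneg _
    · exact le_rfl
  have hcase1 : ∀ v' : Fin n → ℕ, RayNormal a β v' → univ.gcd v' = 1 →
      (¬ ∀ j, w j = 0 → v' j = 0) →
      (H22.wsum v' : ℤ) + 1 ≤ dt (vec (-(H22.wmin a v' : ℤ)) 0 (fun j => (v' j : ℤ))) μ := by
    intro v' hv1 hv2 hne
    push Not at hne
    obtain ⟨j0, hj0, hj1⟩ := hne
    have h1 : (1 : ℤ) ≤ ∑ j, (if w j = 0 then (v' j : ℤ) else 0) := by
      have h2 : (if w j0 = 0 then (v' j0 : ℤ) else 0)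
          ≤ ∑ j, (if w j = 0 then (v' j : ℤ) else 0) := by
        refine Finset.single_le_sum (f := fun j => (if w j = 0 then (v' j : ℤ) else 0))
          (fun j _ => ?_) (Finset.mem_univ j0)
        beta_reduce
        split_ifs
        · exact Int.natCast_nonneg _
        · exact le_rfl
      rw [if_pos hj0] at h2
      have h3 : (1 : ℤ) ≤ (v' j0 : ℤ) := by
        have : 1 ≤ v' j0 := Nat.one_le_iff_ne_zero.2 hj1
        exact_mod_cast this
      linarith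
    have h4 : (M0 : ℤ) * 1 ≤ (M0 : ℤ) * ∑ j, (if w j = 0 then (v' j : ℤ) else 0) :=
      mul_le_mul_of_nonneg_left h1 hMpos.le
    have h5 := hge v'
    have h6 := hMs v' hv1 hv2
    rw [hval v']
    push_cast at h5
    linarith
  have hcast : ∀ v' : Fin n → ℕ,
      ((∑ t ∈ range (supCard w), ∑ j, a (q t) j * v' j : ℕ) : ℤ)
        = ∑ t ∈ range (supCard w), ∑ j, ((a (q t) j : ℤ) * v' j) := by
    intro v'
    push_cast
    rfl
  have hm1one : (1 : ℤ) ≤ (m1 : ℤ) := by linarith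
  refine appg a κ hnd b P hfe w hw hN β hβw D hD (M0 : ℤ) hMpos hMw hMv (m1 : ℤ) hm1pos
    (((m1 : ℤ) - 1) • μ) ?_ ?_ ?_ ?_ lam hlam ?_
  · intro g hg
    rw [dt_zsmul]
    exact mul_nonneg (by linarith) (hOm g hg).1
  · rw [dt_zsmul, hμ0, mul_zero]
  · intro v' hv1 hv2 hv3
    rw [dt_zsmul]
    refine appf_arith ?_ (hm1v v' hv1 hv2) hm1one
    by_cases hz : ∀ j, w j = 0 → v' j = 0
    · have h1 := (hcrit q hq v' hv1 hv2 hz).1 hv3
      have h2 : (H22.wsum v' : ℤ) + 1 ≤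
          ((∑ t ∈ range (supCard w), ∑ j, a (q t) j * v' j : ℕ) : ℤ) := by exact_mod_cast h1
      rw [hcast v'] at h2
      have h3 : 0 ≤ (M0 : ℤ) * ∑ j, (if w j = 0 then (v' j : ℤ) else 0) :=
        mul_nonneg hMpos.le (hzpos v')
      rw [hval v', hv3]
      push_cast
      linarith
    · exact hcase1 v' hv1 hv2 hz
  · intro v' hv1 hv2 hv3 l hl hle
    rw [dt_zsmul]
    have hlv : l ≤ H22.wsum v' := by
      have h1 : l * H22.wmin a w ≤ H22.wsum v' * H22.wmin a w := by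
        rw [hle]; exact Nat.le_add_right _ _
      exact Nat.le_of_mul_le_mul_right h1 hN
    have hlv' : (l : ℤ) ≤ (H22.wsum v' : ℤ) := by exact_mod_cast hlv
    refine appf_arith ?_ (lt_of_le_of_lt hlv' (hm1v v' hv1 hv2)) hm1one
    by_cases hz : ∀ j, w j = 0 → v' j = 0
    · have h1 := (hcrit q hq v' hv1 hv2 hz).2 hv3 l hl hle
      have h2 : (l : ℤ) + supCard w * H22.wmin a v' + 1 ≤
          ((∑ t ∈ range (supCard w), ∑ j, a (q t) j * v' j : ℕ) : ℤ) := by exact_mod_cast h1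
      rw [hcast v'] at h2
      have h3 : 0 ≤ (M0 : ℤ) * ∑ j, (if w j = 0 then (v' j : ℤ) else 0) :=
        mul_nonneg hMpos.le (hzpos v')
      rw [hval v']
      linarith
    · have := hcase1 v' hv1 hv2 hz
      linarith
  · rintro ⟨t, ht, hs⟩
    apply hNot
    refine ⟨fun j => single μ 1 * t j, ?_, ?_⟩
    · intro j u hu
      rw [single_mul_coeff] at hu
      have h1 : (t j).coeff (u - μ) ≠ 0 := fun h0 => hu (by rw [h0, mul_zero])
      have h2 := ht j _ h1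
      have h3 := appf_om (cA a (bbM β (M0 : ℤ))) h hh hfac _ hh0 μ hOm (m1 : ℤ) hm1pos (u - μ)
        h2.1 h2.2.1
      rw [sub_add_cancel] at h3
      exact h3
    · have h1 : (single μ 1 : LP ℂ (n + 2)) = single μ 1 * single 0 1 := by
        rw [AddMonoidAlgebra.single_mul_single, add_zero, mul_one]
      refine h1.trans ?_
      rw [hs, Finset.mul_sum]
      refine Finset.sum_congr rfl fun j _ => ?_
      beta_reduce
      ring

end Pool.Agent.H56.SMC

end S_APPF
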