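import Mathlib
import Pool.Agent.H56.SMC.CfgDefs
import Pool.Agent.H60.ConeExist
import Pool.Agent.H56.SMC.ZTB

/-! Strong monodromy for nondegenerate polynomials, part Z1: this file joins the modules ZTA, ZTC. -/

set_option autoImplicit false

section S_ZTA

/-!
# ZTA: cone decompositions with facet normals as generators

Proof.  Adapt `Pool.Agent.H60.ConeExist`: `exists_cone_generators` gives generators `w_j ≠ 0` in `ℕ^n` of `D_τ = minCone a τ`; remove redundant ones until the family is minimal (no generator is a nonnegative combination of the others).  Claim: then every generator `w` is a `FacetNormal`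
(`τ` nonempty; if `τ` is empty or the decomposition has no cones there is nothing to prove, take `m = 0` as in `exists_cones_aux` when `D_τ` has no `d` independent vectors).  `D_τ` is defined by `k_j ≥ 0` and `k·(a_l - a_i) ≥ 0` (`i ∈ τ`, all `l`).  If the active constraints at `w` had a common solution `k'` not
proportional to `w`, then `w ± t k' ∈ D_τ` for small `t > 0` (finitely many constraints), `w = ½(w + t k') + ½(w - t k')`, each of the two is a combination `∑ c_j w_j`, `∑ c'_j w_j`, so `w (1 - (c+c')/2) = ∑ (others)` with `c`, `c'` the coefficients of `w` itself; if `(c + c')/2 < 1` this contradicts minimality;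
if `(c+c')/2 ≥ 1` then all other terms vanish (entries are nonnegative) and `w + t k'`, `w - t k'` are multiples of `w` (or: the other coefficients are zero), so `k'` is proportional to `w`.  So the solutions of the active constraints are the multiples of `w`.
The annihilator in `ℝ^{1+n}` of the vectors in `FacetNormal a w`: `(c,k)` with `c + a_i·k = 0` for all `i` on the face of `w` (this contains `τ`), `k_j = 0` for `w_j = 0`; then `k` solves the active constraints, `k = t w` and `c = -t wmin a w`: one dimensional, so the span has dimension `n`.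
Then run the proof of `exists_cones_aux` with these generators.
-/

set_option autoImplicit false

namespace Pool.Agent.H56.SMC

open Finset AddMonoidAlgebra

/-- Minimal generating families of `D_τ`. -/
theorem zta_gen {n r : ℕ} (a : Fin r → (Fin n →₀ ℕ)) (τ : Finset (Fin r)) :
    ∃ (J : Type) (_ : Fintype J) (_ : DecidableEq J) (w : J → Fin n → ℕ),
      (∀ j, H22.toReal (w j) ∈ H22.minCone a τ) ∧ (∀ j, w j ≠ 0) ∧
      (∀ k ∈ H22.minCone a τ, ∃ c : J → ℝ, (∀ j, 0 ≤ c j) ∧ k = ∑ j, c j • H22.toReal (w j)) ∧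
      ∀ j₀ : J, ¬ ∃ c : J → ℝ, (∀ j, 0 ≤ c j) ∧ c j₀ = 0 ∧
        H22.toReal (w j₀) = ∑ j, c j • H22.toReal (w j) := by
  classical
  obtain ⟨J, hJ1, hJ2, w, hwmem, hw0, hwgen⟩ := H60.ConeExist.exists_cone_generators a τ
  -- minimal subset
  let P : ℕ → Prop := fun N => ∃ T : Finset J, T.card = N ∧ ∀ k ∈ H22.minCone a τ,
    ∃ c : J → ℝ, (∀ j, 0 ≤ c j) ∧ (∀ j, j ∉ T → c j = 0) ∧ k = ∑ j, c j • H22.toReal (w j)
  have hP : ∃ N, P N := ⟨_, univ, rfl, fun k hk => by
    obtain ⟨c, hc0, hc⟩ := hwgen k hk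
    exact ⟨c, hc0, fun j hj => absurd (mem_univ j) hj, hc⟩⟩
  obtain ⟨T, hTc, hT⟩ := Nat.find_spec hP
  refine ⟨T, inferInstance, inferInstance, fun j => w j, fun j => hwmem j, fun j => hw0 j, ?_, ?_⟩
  · intro k hk
    obtain ⟨c, hc0, hcT, hc⟩ := hT k hk
    refine ⟨fun j => c j, fun j => hc0 j, ?_⟩
    rw [hc]
    rw [Finset.sum_coe_sort T (fun j => c j • H22.toReal (w j))]
    symm
    apply Finset.sum_subset (Finset.subset_univ T)
    intro j _ hj
    rw [hcT j hj, zero_smul]
  · rintro j₀ ⟨c, hc0, hcj, hc⟩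
    have hlt : (T.erase j₀).card < Nat.find hP := by
      rw [← hTc]; exact Finset.card_erase_lt_of_mem j₀.2
    apply Nat.find_min hP hlt
    refine ⟨_, rfl, fun k hk => ?_⟩
    obtain ⟨b, hb0, hbT, hb⟩ := hT k hk
    let c' : J → ℝ := fun j => if h : j ∈ T then c ⟨j, h⟩ else 0
    have hc' : ∀ j, 0 ≤ c' j := by
      intro j
      simp only [c']
      split_ifs with h
      · exact hc0 _
      · exact le_rfl
    have hcs : H22.toReal (w j₀) = ∑ j, c' j • H22.toReal (w j) := by
      rw [hc]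
      have h1 : ∀ j : T, c j • H22.toReal (w j) = (fun j => c' j • H22.toReal (w j)) j := by
        intro j
        simp [c']
      rw [Finset.sum_congr rfl (fun j _ => h1 j), Finset.sum_coe_sort T
        (fun j => c' j • H22.toReal (w j))]
      apply Finset.sum_subset (Finset.subset_univ T)
      intro j _ hj
      simp [c', hj]
    refine ⟨fun j => (if j = j₀ then 0 else b j) + b j₀ * c' j, fun j => ?_, fun j hj => ?_, ?_⟩
    · have h1 := mul_nonneg (hb0 j₀) (hc' j)
      have h2 := hb0 j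
      dsimp only
      split_ifs <;> linarith
    · rw [Finset.mem_erase, not_and_or, not_not] at hj
      by_cases hjj : j = j₀
      · have h3 : c' j = 0 := by
          subst hjj
          simp [c', hcj]
        simp only [hjj, if_true]
        rw [← hjj, h3]; ring
      · have h4 : j ∉ T := by
          rcases hj with h | h
          · exact absurd h hjj
          · exact h
        simp [hjj, hbT j h4, c', h4]
    · simp only [add_smul, Finset.sum_add_distrib, mul_smul]
      rw [← Finset.smul_sum, ← hcs, hb, ← Finset.add_sum_erase univ _ (mem_univ (j₀ : J)),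
        ← Finset.add_sum_erase univ (fun x => (if x = (j₀ : J) then 0 else b x) •
          H22.toReal (w x)) (mem_univ (j₀ : J))]
      simp only [if_true, zero_smul, zero_add]
      rw [add_comm]
      congr 1
      refine Finset.sum_congr rfl fun j hj => ?_
      rw [if_neg (Finset.ne_of_mem_erase hj)]

/-- The solutions of the active constraints at a generator of a minimal family. -/
theorem zta_ray {n r : ℕ} (a : Fin r → (Fin n →₀ ℕ)) (τ : Finset (Fin r)) {J : Type} [Fintype J]
    [DecidableEq J] (w : J → Fin n → ℕ)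
    (hwmem : ∀ j, H22.toReal (w j) ∈ H22.minCone a τ)
    (hwgen : ∀ k ∈ H22.minCone a τ, ∃ c : J → ℝ, (∀ j, 0 ≤ c j) ∧
      k = ∑ j, c j • H22.toReal (w j))
    (hmin : ∀ j₀ : J, ¬ ∃ c : J → ℝ, (∀ j, 0 ≤ c j) ∧ c j₀ = 0 ∧
        H22.toReal (w j₀) = ∑ j, c j • H22.toReal (w j)) (j₀ : J) (k' : Fin n → ℝ)
    (h1 : ∀ j, w j₀ j = 0 → k' j = 0)
    (h2 : ∀ i ∈ τ, ∀ l, ∑ j, a l j * w j₀ j = ∑ j, a i j * w j₀ j →
      ∑ j, (a l j : ℝ) * k' j = ∑ j, (a i j : ℝ) * k' j) :
    ∃ t : ℝ, k' = t • H22.toReal (w j₀) := by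
  classical
  let B : ℝ := 1 + ∑ j, |k' j| + ∑ i, ∑ l, |∑ j, (a l j : ℝ) * k' j - ∑ j, (a i j : ℝ) * k' j|
  have hB1 : ∀ j, |k' j| ≤ B := by
    intro j
    have e1 : |k' j| ≤ ∑ j, |k' j| :=
      Finset.single_le_sum (f := fun j => |k' j|) (fun j _ => abs_nonneg _) (mem_univ j)
    have e2 : (0 : ℝ) ≤ ∑ i, ∑ l, |∑ j, (a l j : ℝ) * k' j - ∑ j, (a i j : ℝ) * k' j| :=
      Finset.sum_nonneg fun i _ => Finset.sum_nonneg fun l _ => abs_nonneg _
    simp only [B]; linarith
  have hB2 : ∀ i l, |∑ j, (a l j : ℝ) * k' j - ∑ j, (a i j : ℝ) * k' j| ≤ B := by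
    intro i l
    have e1 : |∑ j, (a l j : ℝ) * k' j - ∑ j, (a i j : ℝ) * k' j| ≤
        ∑ l, |∑ j, (a l j : ℝ) * k' j - ∑ j, (a i j : ℝ) * k' j| :=
      Finset.single_le_sum (f := fun l => |∑ j, (a l j : ℝ) * k' j - ∑ j, (a i j : ℝ) * k' j|)
        (fun j _ => abs_nonneg _) (mem_univ l)
    have e2 : ∑ l, |∑ j, (a l j : ℝ) * k' j - ∑ j, (a i j : ℝ) * k' j| ≤
        ∑ i, ∑ l, |∑ j, (a l j : ℝ) * k' j - ∑ j, (a i j : ℝ) * k' j| :=
      Finset.single_le_sum
        (f := fun i => ∑ l, |∑ j, (a l j : ℝ) * k' j - ∑ j, (a i j : ℝ) * k' j|)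
        (fun j _ => Finset.sum_nonneg fun l _ => abs_nonneg _) (mem_univ i)
    have e3 : (0 : ℝ) ≤ ∑ j, |k' j| := Finset.sum_nonneg fun l _ => abs_nonneg _
    simp only [B]; linarith
  have hBpos : 0 < B := by
    have e3 : (0 : ℝ) ≤ ∑ j, |k' j| := Finset.sum_nonneg fun l _ => abs_nonneg _
    have e2 : (0 : ℝ) ≤ ∑ i, ∑ l, |∑ j, (a l j : ℝ) * k' j - ∑ j, (a i j : ℝ) * k' j| :=
      Finset.sum_nonneg fun i _ => Finset.sum_nonneg fun l _ => abs_nonneg _
    simp only [B]; linarith
  have key : ∀ s : ℝ, |s| ≤ B⁻¹ → H22.toReal (w j₀) + s • k' ∈ H22.minCone a τ := by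
    intro s hs
    have hsm : ∀ x : ℝ, |x| ≤ B → |s * x| ≤ 1 := by
      intro x hx
      rw [abs_mul]
      calc |s| * |x| ≤ B⁻¹ * B := mul_le_mul hs hx (abs_nonneg _) (inv_nonneg.mpr hBpos.le)
        _ = 1 := inv_mul_cancel₀ hBpos.ne'
    refine ⟨fun j => ?_, fun i hi l => ?_⟩
    · simp only [Pi.add_apply, Pi.smul_apply, smul_eq_mul, H22.toReal]
      by_cases hj : w j₀ j = 0
      · rw [hj, h1 j hj]; simp
      · have e1 : (1 : ℝ) ≤ (w j₀ j : ℝ) := by exact_mod_cast Nat.one_le_iff_ne_zero.mpr hj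
        have e2 := (abs_le.mp (hsm _ (hB1 j))).1
        linarith
    · have hexp : ∀ l, ∑ j, (a l j : ℝ) * (H22.toReal (w j₀) + s • k') j =
          ((∑ j, a l j * w j₀ j : ℕ) : ℝ) + s * ∑ j, (a l j : ℝ) * k' j := by
        intro l
        simp only [Pi.add_apply, Pi.smul_apply, smul_eq_mul, H22.toReal, mul_add,
          Finset.sum_add_distrib]
        push_cast
        congr 1
        rw [Finset.mul_sum]
        exact Finset.sum_congr rfl fun j _ => by ring
      rw [hexp, hexp]
      have hle : ∑ j, a i j * w j₀ j ≤ ∑ j, a l j * w j₀ j := by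
        have := (hwmem j₀).2 i hi l
        simp only [H22.toReal] at this
        exact_mod_cast this
      rcases hle.eq_or_lt with he | hlt
      · rw [h2 i hi l he.symm, he]
      · have e1 : ((∑ j, a i j * w j₀ j : ℕ) : ℝ) + 1 ≤ ((∑ j, a l j * w j₀ j : ℕ) : ℝ) := by
          exact_mod_cast hlt
        have e2 := (abs_le.mp (hsm _ (hB2 i l))).1
        have e3 : s * (∑ j, (a l j : ℝ) * k' j - ∑ j, (a i j : ℝ) * k' j) =
          s * ∑ j, (a l j : ℝ) * k' j - s * ∑ j, (a i j : ℝ) * k' j := by ring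
        rw [e3] at e2
        linarith
  obtain ⟨c, hc0, hc⟩ := hwgen _ (key B⁻¹ (by rw [abs_of_pos (inv_pos.mpr hBpos)]))
  obtain ⟨c', hc0', hc'⟩ := hwgen _ (key (-B⁻¹) (by rw [abs_neg, abs_of_pos (inv_pos.mpr hBpos)]))
  let s : ℝ := 2 - c j₀ - c' j₀
  have hsum : s • H22.toReal (w j₀) = ∑ j ∈ univ.erase j₀, (c j + c' j) • H22.toReal (w j) := by
    have e1 : (2 : ℝ) • H22.toReal (w j₀) = ∑ j, (c j + c' j) • H22.toReal (w j) := by
      simp only [add_smul, Finset.sum_add_distrib]
      rw [← hc, ← hc']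
      rw [two_smul, neg_smul]
      abel
    rw [← Finset.add_sum_erase univ _ (mem_univ j₀)] at e1
    have e2 : s • H22.toReal (w j₀) = (2 : ℝ) • H22.toReal (w j₀) -
        (c j₀ + c' j₀) • H22.toReal (w j₀) := by
      rw [← sub_smul]; congr 1; simp only [s]; ring
    rw [e2, e1]
    abel
  rcases lt_or_ge 0 s with hs | hs
  · exfalso
    apply hmin j₀
    refine ⟨fun j => if j = j₀ then 0 else s⁻¹ * (c j + c' j), fun j => ?_, by simp, ?_⟩
    · dsimp only
      split_ifs
      · exact le_rfl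
      · exact mul_nonneg (inv_nonneg.mpr hs.le) (add_nonneg (hc0 j) (hc0' j))
    · rw [← Finset.add_sum_erase univ _ (mem_univ j₀)]
      simp only [if_true, zero_smul, zero_add]
      have e1 : ∑ j ∈ univ.erase j₀, (if j = j₀ then 0 else s⁻¹ * (c j + c' j)) •
          H22.toReal (w j) = s⁻¹ • ∑ j ∈ univ.erase j₀, (c j + c' j) • H22.toReal (w j) := by
        rw [Finset.smul_sum]
        refine Finset.sum_congr rfl fun j hj => ?_
        rw [if_neg (Finset.ne_of_mem_erase hj), smul_smul]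
      rw [e1, ← hsum, smul_smul, inv_mul_cancel₀ hs.ne', one_smul]
  · -- all other terms vanish
    have hz : ∀ i, ∀ j ∈ univ.erase j₀, (c j + c' j) * H22.toReal (w j) i = 0 := by
      intro i
      have e1 := congrFun hsum i
      rw [Finset.sum_apply] at e1
      simp only [Pi.smul_apply, smul_eq_mul] at e1
      have e2 : s * H22.toReal (w j₀) i ≤ 0 :=
        mul_nonpos_of_nonpos_of_nonneg hs (Nat.cast_nonneg _)
      have e3 : ∀ j ∈ univ.erase j₀, 0 ≤ (c j + c' j) * H22.toReal (w j) i := fun j _ =>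
        mul_nonneg (add_nonneg (hc0 j) (hc0' j)) (Nat.cast_nonneg _)
      have e4 := Finset.sum_nonneg e3
      exact (Finset.sum_eq_zero_iff_of_nonneg e3).mp (by linarith)
    have hcz : ∀ j ∈ univ.erase j₀, c j • H22.toReal (w j) = 0 := by
      intro j hj
      funext i
      have e1 := hz i j hj
      have e2 : 0 ≤ c j * H22.toReal (w j) i := mul_nonneg (hc0 j) (Nat.cast_nonneg _)
      have e3 : 0 ≤ c' j * H22.toReal (w j) i := mul_nonneg (hc0' j) (Nat.cast_nonneg _)
      have e4 : c j * H22.toReal (w j) i = 0 := by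
        rw [add_mul] at e1; linarith
      simpa using e4
    rw [← Finset.add_sum_erase univ _ (mem_univ j₀), Finset.sum_eq_zero hcz, add_zero] at hc
    refine ⟨B * (c j₀ - 1), ?_⟩
    have e5 : B⁻¹ • k' = (c j₀ - 1) • H22.toReal (w j₀) := by
      rw [sub_smul, one_smul, ← hc]; abel
    rw [mul_smul, ← e5, smul_smul, mul_inv_cancel₀ hBpos.ne', one_smul]

/-- The generators of a minimal family are facet normals. -/
theorem zta_facet {n r : ℕ} (a : Fin r → (Fin n →₀ ℕ)) (τ : Finset (Fin r)) (hτ : τ.Nonempty)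
    (w : Fin n → ℕ) (hwmem : H22.toReal w ∈ H22.minCone a τ) (hw0 : w ≠ 0)
    (hray : ∀ k' : Fin n → ℝ, (∀ j, w j = 0 → k' j = 0) →
      (∀ i ∈ τ, ∀ l, ∑ j, a l j * w j = ∑ j, a i j * w j →
        ∑ j, (a l j : ℝ) * k' j = ∑ j, (a i j : ℝ) * k' j) →
      ∃ t : ℝ, k' = t • H22.toReal w) : FacetNormal a w := by
  classical
  refine ⟨hw0, ?_⟩
  obtain ⟨i₀, hi₀⟩ := hτ
  have hle : ∀ i ∈ τ, ∀ l, ∑ j, a i j * w j ≤ ∑ j, a l j * w j := by
    intro i hi l
    have := hwmem.2 i hi l
    simp only [H22.toReal] at this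
    exact_mod_cast this
  have hwm : ∀ i ∈ τ, H22.wmin a w = ∑ j, a i j * w j := by
    intro i hi
    have : Nonempty (Fin r) := ⟨i⟩
    apply le_antisymm
    · exact ciInf_le (OrderBot.bddBelow _) i
    · exact le_ciInf fun l => hle i hi l
  set G : Set (Unit ⊕ Fin n → ℝ) := {y | ∃ i, ∑ j, a i j * w j = H22.wmin a w ∧ y = H22.rowR a i} ∪
      {y | ∃ j, w j = 0 ∧ y = Sum.elim (fun _ => 0) (Pi.single j 1)} with hG
  set R := Submodule.span ℝ G with hR
  have h1 := Subspace.finrank_add_finrank_dualAnnihilator_eq R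
  have h2 : Module.finrank ℝ (Unit ⊕ Fin n → ℝ) = n + 1 := by
    rw [Module.finrank_fintype_fun_eq_card]
    simp [add_comm]
  rw [h2] at h1
  let Ψ : Module.Dual ℝ (Unit ⊕ Fin n → ℝ) :=
    (-(H22.wmin a w : ℝ)) • (LinearMap.proj (Sum.inl ()))
        + ∑ j, (w j : ℝ) • (LinearMap.proj (Sum.inr j))
  have hΨ : ∀ y, Ψ y = (-(H22.wmin a w : ℝ)) * y (Sum.inl ()) +
      ∑ j, (w j : ℝ) * y (Sum.inr j) := by
    intro y
    simp only [Ψ, LinearMap.add_apply, LinearMap.smul_apply,
      LinearMap.sum_apply, LinearMap.proj_apply, smul_eq_mul]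
  have hΨ0 : Ψ ≠ 0 := by
    intro h
    apply hw0
    funext j
    have h3 := congrArg (fun φ => φ (Pi.single (Sum.inr j) 1)) h
    simp only [hΨ, LinearMap.zero_apply] at h3
    rw [Pi.single_eq_of_ne (by simp), mul_zero, zero_add, Finset.sum_eq_single j] at h3
    · simpa using h3
    · intro b _ hb
      rw [Pi.single_eq_of_ne (by simpa using hb), mul_zero]
    · intro h; exact absurd (Finset.mem_univ j) h
  have hann : R.dualAnnihilator = Submodule.span ℝ {Ψ} := by
    apply le_antisymm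
    · intro φ hφ
      rw [Submodule.mem_dualAnnihilator] at hφ
      let c : ℝ := φ (Pi.single (Sum.inl ()) 1)
      let k' : Fin n → ℝ := fun j => φ (Pi.single (Sum.inr j) 1)
      have hexp : ∀ y, φ y = c * y (Sum.inl ()) + ∑ j, k' j * y (Sum.inr j) := by
        intro y
        have e1 : y = y (Sum.inl ()) • (Pi.single (Sum.inl ()) 1 : Unit ⊕ Fin n → ℝ) +
            ∑ j, y (Sum.inr j) • (Pi.single (Sum.inr j) 1 : Unit ⊕ Fin n → ℝ) := by
          funext x
          rcases x with u | j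
          · simp [Finset.sum_apply]
          · rw [Pi.add_apply, Finset.sum_apply, Finset.sum_eq_single j]
            · simp
            · intro b _ hb
              rw [Pi.smul_apply, Pi.single_eq_of_ne (by simpa using hb.symm), smul_zero]
            · intro h; exact absurd (Finset.mem_univ j) h
        conv_lhs => rw [e1]
        rw [map_add, map_sum, map_smul, smul_eq_mul, mul_comm]
        congr 1
        refine Finset.sum_congr rfl fun j _ => ?_
        rw [map_smul, smul_eq_mul, mul_comm]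
      have hk0 : ∀ j, w j = 0 → k' j = 0 := by
        intro j hj
        have e1 := hφ (Sum.elim (fun _ => 0) (Pi.single j 1))
          (Submodule.subset_span (Or.inr ⟨j, hj, rfl⟩))
        rw [hexp] at e1
        simp only [Sum.elim_inl, mul_zero, Sum.elim_inr, zero_add] at e1
        rw [Finset.sum_eq_single j] at e1
        · simpa using e1
        · intro b _ hb
          rw [Pi.single_eq_of_ne hb, mul_zero]
        · intro h; exact absurd (Finset.mem_univ j) h
      have hki : ∀ i, ∑ j, a i j * w j = H22.wmin a w → ∑ j, (a i j : ℝ) * k' j = -c := by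
        intro i hi
        have e1 := hφ (H22.rowR a i) (Submodule.subset_span (Or.inl ⟨i, hi, rfl⟩))
        rw [hexp] at e1
        simp only [H22.rowR, Sum.elim_inl, Sum.elim_inr, mul_one] at e1
        have e2 : ∑ j, (a i j : ℝ) * k' j = ∑ j, k' j * (a i j : ℝ) :=
          Finset.sum_congr rfl fun j _ => mul_comm _ _
        rw [e2]; linarith
      obtain ⟨t, ht⟩ := hray k' hk0 (fun i hi l hl => by
        rw [hki i (hwm i hi).symm, hki l (by rw [hl]; exact (hwm i hi).symm)])
      rw [Submodule.mem_span_singleton]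
      refine ⟨t, ?_⟩
      apply LinearMap.ext
      intro y
      rw [LinearMap.smul_apply, hΨ, hexp, ht, smul_eq_mul]
      have e3 := hki i₀ (hwm i₀ hi₀).symm
      rw [ht] at e3
      have e4 : ∑ j, (a i₀ j : ℝ) * (t • H22.toReal w) j = t * (H22.wmin a w : ℝ) := by
        rw [hwm i₀ hi₀]
        push_cast
        rw [Finset.mul_sum]
        refine Finset.sum_congr rfl fun j _ => ?_
        simp only [Pi.smul_apply, smul_eq_mul, H22.toReal]
        ring
      rw [e4] at e3
      have e5 : c = -(t * (H22.wmin a w : ℝ)) := by linarith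
      rw [e5, mul_add, Finset.mul_sum]
      congr 1
      · ring
      · refine Finset.sum_congr rfl fun j _ => ?_
        simp only [Pi.smul_apply, smul_eq_mul, H22.toReal]
        ring
    · rw [Submodule.span_le]
      rintro _ rfl
      rw [SetLike.mem_coe, Submodule.mem_dualAnnihilator]
      intro y hy
      rw [hR] at hy
      refine Submodule.span_induction (p := fun y _ => Ψ y = 0) ?_ ?_ ?_ ?_ hy
      · rintro _ (⟨i, hi, rfl⟩ | ⟨j, hj, rfl⟩)
        · rw [hΨ]
          simp only [H22.rowR, Sum.elim_inl, Sum.elim_inr, mul_one]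
          rw [← hi]
          push_cast
          rw [neg_add_eq_zero]
          exact Finset.sum_congr rfl fun j _ => mul_comm _ _
        · rw [hΨ]
          simp only [Sum.elim_inl, Sum.elim_inr, mul_zero, zero_add]
          rw [Finset.sum_eq_single j]
          · simp [hj]
          · intro b _ hb
            rw [Pi.single_eq_of_ne hb, mul_zero]
          · intro h; exact absurd (Finset.mem_univ j) h
      · exact map_zero _
      · intro x y _ _ hx hy
        rw [map_add, hx, hy, add_zero]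
      · intro c x _ hx
        rw [map_smul, hx, smul_zero]
  rw [hann, finrank_span_singleton hΨ0] at h1
  omega

/-- The construction of `exists_cones_aux` with given generators. -/
theorem zta_cones {n r : ℕ} (a : Fin r → (Fin n →₀ ℕ)) (τ : Finset (Fin r)) (hτ : τ.Nonempty)
    (d : ℕ) (hd : d = n + 1 - H22.faceRank a τ) (P : (Fin n → ℕ) → Prop)
    {J : Type} [Fintype J] [DecidableEq J] (w : J → Fin n → ℕ)
    (hwmem : ∀ j, H22.toReal (w j) ∈ H22.minCone a τ) (hw0 : ∀ j, w j ≠ 0)
    (hwgen : ∀ k ∈ H22.minCone a τ, ∃ c : J → ℝ, (∀ j, 0 ≤ c j) ∧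
      k = ∑ j, c j • H22.toReal (w j)) (hP : ∀ j, P (w j)) :
    ∃ (m : ℕ) (w : Fin m → Fin d → Fin n → ℕ),
      (∀ C c, H22.toReal (w C c) ∈ H22.minCone a τ) ∧
      (∀ C, LinearIndependent ℝ (fun c => H22.toReal (w C c))) ∧
      (∀ C C', C ≠ C' →
        Disjoint (H22.openCone fun c => H22.toReal (w C c))
          (H22.openCone fun c => H22.toReal (w C' c))) ∧
      ((∃ v : Fin d → Fin n → ℝ, LinearIndependent ℝ v ∧ ∀ c, v c ∈ H22.minCone a τ) →
        ∀ k ∈ H22.minCone a τ, ∃ C, k ∈ H22.closedCone fun c => H22.toReal (w C c)) ∧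
      ∀ C c, P (w C c) := by
  classical
  by_cases hfull : ∃ v : Fin d → Fin n → ℝ, LinearIndependent ℝ v ∧ ∀ c, v c ∈ H22.minCone a τ
  swap
  · exact ⟨0, fun C => C.elim0, fun C => C.elim0, fun C => C.elim0, fun C => C.elim0,
      fun h => absurd h hfull, fun C => C.elim0⟩
  obtain ⟨v₀, hv₀ind, hv₀⟩ := hfull
  let v : J → Fin n → ℝ := fun j => H22.toReal (w j)
  obtain ⟨S, -, hind, hspan, hdisj, hcov⟩ := H60.RegTri.exists_triangulation v univ
    (∑ i, LinearMap.proj i) (fun j _ => by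
      have h1 : (∑ i, (LinearMap.proj i : (Fin n → ℝ) →ₗ[ℝ] ℝ)) (v j) = ∑ i, (w j i : ℝ) := by
        rw [LinearMap.sum_apply]; rfl
      rw [h1]
      obtain ⟨i, hi⟩ : ∃ i, w j i ≠ 0 := by
        by_contra hno
        push Not at hno
        exact hw0 j (funext hno)
      exact Finset.sum_pos' (fun _ _ => Nat.cast_nonneg _)
        ⟨i, Finset.mem_univ i, by exact_mod_cast Nat.pos_of_ne_zero hi⟩)
  -- the rank of the generators
  have hspanv : Submodule.span ℝ (v '' ((univ : Finset J) : Set J))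
      = Submodule.span ℝ (H22.minCone a τ) := by
    apply le_antisymm
    · apply Submodule.span_mono
      rintro _ ⟨j, -, rfl⟩
      exact hwmem j
    · rw [Submodule.span_le]
      intro k hk
      obtain ⟨c, -, hc⟩ := hwgen k hk
      rw [hc]
      exact Submodule.sum_mem _ fun j _ => Submodule.smul_mem _ _
        (Submodule.subset_span ⟨j, by simp, rfl⟩)
  have hrank' : d ≤ Module.finrank ℝ (Submodule.span ℝ (H22.minCone a τ)) := by
    have h1 := finrank_span_eq_card hv₀ind
    rw [Fintype.card_fin] at h1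
    refine h1.symm.le.trans ?_
    apply Submodule.finrank_mono
    apply Submodule.span_mono
    rintro _ ⟨c, rfl⟩
    exact hv₀ c
  have hrank : Module.finrank ℝ (Submodule.span ℝ (H22.minCone a τ)) = d :=
    le_antisymm (hd ▸ H60.ConeExist.finrank_span_minCone_le a τ hτ) hrank'
  have hcard : ∀ σ ∈ S, σ.card = d := by
    intro σ hσ
    rw [H60.ConeExist.card_eq_finrank v σ (hind σ hσ), hspan σ hσ, hspanv, hrank]
  let e : (C : Fin S.card) → ((S.equivFin.symm C).1 : Finset J) ≃ Fin d := fun C =>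
    Finset.equivFinOfCardEq (hcard _ (S.equivFin.symm C).2)
  let W : (C : Fin S.card) → Fin d → J := fun C c => ((e C).symm c).1
  have hsumW : ∀ (C : Fin S.card) (x : J → ℝ),
      ∑ c, x (W C c) • v (W C c) = ∑ i ∈ (S.equivFin.symm C).1, x i • v i := by
    intro C x
    exact (Fintype.sum_equiv (e C).symm (fun c => x (W C c) • v (W C c))
      (fun i : ((S.equivFin.symm C).1 : Finset J) => x i • v i) (fun c => rfl)).trans
      (Finset.sum_coe_sort _ (fun i => x i • v i))
  refine ⟨S.card, fun C c => w (W C c), fun C c => hwmem _, ?_, ?_, ?_, fun C c => hP _⟩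
  · intro C
    have h1 : LinearIndependent ℝ (fun i : ((S.equivFin.symm C).1 : Finset J) => v i) :=
      hind _ (S.equivFin.symm C).2
    exact h1.comp _ (e C).symm.injective
  · intro C C' hne
    have h1 := hdisj _ (S.equivFin.symm C).2 _ (S.equivFin.symm C').2 (by
      intro h
      exact hne (S.equivFin.symm.injective (Subtype.ext h)))
    have h2 : ∀ C, H22.openCone (fun c => H22.toReal (w (W C c))) ⊆
        H60.RegTri.oCone v (S.equivFin.symm C).1 := by
      rintro C _ ⟨x, hx, rfl⟩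
      refine ⟨fun i => if h : i ∈ (S.equivFin.symm C).1 then x (e C ⟨i, h⟩) else 0,
        fun i hi => ?_, ?_⟩
      · simp only [hi, dif_pos]; exact hx _
      · rw [← hsumW C]
        refine Finset.sum_congr rfl fun c _ => ?_
        have h3 : W C c ∈ (S.equivFin.symm C).1 := ((e C).symm c).2
        have h4 : e C ⟨W C c, h3⟩ = c := by
          have : (⟨W C c, h3⟩ : ((S.equivFin.symm C).1 : Finset J)) = (e C).symm c := rfl
          rw [this, Equiv.apply_symm_apply]
        rw [dif_pos h3, h4]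
    exact Disjoint.mono (h2 C) (h2 C') h1
  · intro _ k hk
    obtain ⟨c, hc0, hc⟩ := hwgen k hk
    obtain ⟨σ, hσ, x, hx, hxe⟩ := hcov k ⟨c, fun j _ => hc0 j, hc⟩
    refine ⟨S.equivFin ⟨σ, hσ⟩, fun c => x (W (S.equivFin ⟨σ, hσ⟩) c), fun c => ?_, ?_⟩
    · apply hx
      have h3 : W (S.equivFin ⟨σ, hσ⟩) c ∈ (S.equivFin.symm (S.equivFin ⟨σ, hσ⟩)).1 :=
        ((e (S.equivFin ⟨σ, hσ⟩)).symm c).2
      rwa [Equiv.symm_apply_apply] at h3
    · rw [hxe]
      have h4 := hsumW (S.equivFin ⟨σ, hσ⟩) x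
      rw [Equiv.symm_apply_apply] at h4
      exact h4.symm

/-- ZTA -/
theorem zta {n r : ℕ} (a : Fin r → (Fin n →₀ ℕ)) (τ : Finset (Fin r)) (hτ : τ.Nonempty) :
    ∃ 𝒟 : H22.FaceCones a τ, ∀ C c, FacetNormal a (𝒟.w C c) := by
  obtain ⟨J, hJ1, hJ2, w, hwmem, hw0, hwgen, hmin⟩ := zta_gen a τ
  have hP : ∀ j, FacetNormal a (w j) := fun j =>
    zta_facet a τ hτ (w j) (hwmem j) (hw0 j) fun k' h1 h2 =>
      zta_ray a τ w hwmem hwgen hmin j k' h1 h2
  obtain ⟨m, w', h1, h2, h3, h4, h5⟩ := zta_cones a τ hτ _ rfl (FacetNormal a) w hwmem hw0 hwgen hP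
  exact ⟨⟨m, w', h1, h2, h3, h4⟩, h5⟩

end Pool.Agent.H56.SMC

end S_ZTA

section S_ZTC

/-!
# ZTC: the candidate poles

Proof.  `τ` with `IsFace a τ` and `faceRank ≥ 1` is nonempty.  By `ztb` replace `𝒟 τ` by the decomposition of `zta`.  Then `topZetaG = p / ((X+1) ∏ (|w| + N(w) X))`, the product over finitely many facet normals `w`: a root `s0` of the denominator is a root of
`(X+1) ∏ (|w| + N(w) X)`: `s0 = -1`, or `|w| + N(w) s0 = 0` for a facet normal `w`; since `|w| > 0` (`w ≠ 0`) we get `N(w) ≠ 0`.  (`RatFunc`: the set of all rational functions whose denominator divides a product of such factors is closed under sums and products; `RatFunc.denom_dvd`.)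
-/

set_option autoImplicit false

namespace Pool.Agent.H56.SMC

open Finset AddMonoidAlgebra

/-- no pole at `s0` -/
private def ztcReg (s0 : ℂ) (R : RatFunc ℂ) : Prop := ∃ p q : Polynomial ℂ, q.eval s0 ≠ 0 ∧
    R = algebraMap (Polynomial ℂ) (RatFunc ℂ) p / algebraMap (Polynomial ℂ) (RatFunc ℂ) q

section
variable {s0 : ℂ}

private theorem ztc_denom {R : RatFunc ℂ} (h : ztcReg s0 R) : R.denom.eval s0 ≠ 0 := by
  obtain ⟨p, q, hq, rfl⟩ := h
  intro h0
  obtain ⟨c, hc⟩ := RatFunc.denom_div_dvd p q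
  apply hq
  rw [hc, Polynomial.eval_mul, h0, zero_mul]

private theorem ztc_ne {q : Polynomial ℂ} (hq : q.eval s0 ≠ 0) :
    algebraMap (Polynomial ℂ) (RatFunc ℂ) q ≠ 0 := by
  intro h
  have h1 : q = 0 := RatFunc.algebraMap_injective ℂ (by rw [h, map_zero])
  rw [h1, Polynomial.eval_zero] at hq
  exact hq rfl

private theorem ztc_natCast (n : ℕ) : ztcReg s0 (n : RatFunc ℂ) := by
  refine ⟨(n : Polynomial ℂ), 1, by simp, ?_⟩
  rw [map_natCast, map_one, div_one]

private theorem ztc_add {R S : RatFunc ℂ} (hR : ztcReg s0 R) (hS : ztcReg s0 S) :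
    ztcReg s0 (R + S) := by
  obtain ⟨p, q, hq, rfl⟩ := hR
  obtain ⟨p', q', hq', rfl⟩ := hS
  refine ⟨p * q' + q * p', q * q', ?_, ?_⟩
  · rw [Polynomial.eval_mul]
    exact mul_ne_zero hq hq'
  · rw [div_add_div _ _ (ztc_ne hq) (ztc_ne hq')]
    simp only [map_add, map_mul]

private theorem ztc_neg {R : RatFunc ℂ} (hR : ztcReg s0 R) : ztcReg s0 (-R) := by
  obtain ⟨p, q, hq, rfl⟩ := hR
  refine ⟨-p, q, hq, ?_⟩
  rw [map_neg]
  ring

private theorem ztc_mul {R S : RatFunc ℂ} (hR : ztcReg s0 R) (hS : ztcReg s0 S) :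
    ztcReg s0 (R * S) := by
  obtain ⟨p, q, hq, rfl⟩ := hR
  obtain ⟨p', q', hq', rfl⟩ := hS
  refine ⟨p * p', q * q', ?_, ?_⟩
  · rw [Polynomial.eval_mul]
    exact mul_ne_zero hq hq'
  · rw [div_mul_div_comm]
    simp only [map_mul]

private theorem ztc_sum {ι : Type*} (T : Finset ι) (f : ι → RatFunc ℂ)
    (h : ∀ i ∈ T, ztcReg s0 (f i)) : ztcReg s0 (∑ i ∈ T, f i) := by
  classical
  induction T using Finset.induction_on with
  | empty =>
    rw [Finset.sum_empty]
    have h := ztc_natCast (s0 := s0) 0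
    rwa [Nat.cast_zero] at h
  | insert i T hi ih =>
    rw [Finset.sum_insert hi]
    exact ztc_add (h i (Finset.mem_insert_self i T))
      (ih fun j hj => h j (Finset.mem_insert_of_mem hj))

private theorem ztc_prod {ι : Type*} (T : Finset ι) (f : ι → RatFunc ℂ)
    (h : ∀ i ∈ T, ztcReg s0 (f i)) : ztcReg s0 (∏ i ∈ T, f i) := by
  classical
  induction T using Finset.induction_on with
  | empty =>
    rw [Finset.prod_empty]
    have h := ztc_natCast (s0 := s0) 1
    rwa [Nat.cast_one] at h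
  | insert i T hi ih =>
    rw [Finset.prod_insert hi]
    exact ztc_mul (h i (Finset.mem_insert_self i T))
      (ih fun j hj => h j (Finset.mem_insert_of_mem hj))

private theorem ztc_sign (k : ℕ) : ztcReg s0 ((-1) ^ k : RatFunc ℂ) := by
  induction k with
  | zero =>
    rw [pow_zero]
    have h := ztc_natCast (s0 := s0) 1
    rwa [Nat.cast_one] at h
  | succ k ih =>
    rw [pow_succ, mul_neg_one]
    exact ztc_neg ih

/-- the inverse of a linear form that does not vanish at `s0` -/
private theorem ztc_inv_linear (A B : ℕ) (h : (A : ℂ) + (B : ℂ) * s0 ≠ 0) :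
    ztcReg s0 ((A : RatFunc ℂ) + (B : RatFunc ℂ) * RatFunc.X)⁻¹ := by
  refine ⟨1, (A : Polynomial ℂ) + (B : Polynomial ℂ) * Polynomial.X, ?_, ?_⟩
  · simpa using h
  · rw [map_one, map_add, map_mul, map_natCast, map_natCast, RatFunc.algebraMap_X, one_div]

private theorem ztc_X_div (h : s0 ≠ -1) : ztcReg s0 (RatFunc.X / (RatFunc.X + 1)) := by
  refine ⟨Polynomial.X, Polynomial.X + 1, ?_, ?_⟩
  · intro h0
    apply h
    rw [Polynomial.eval_add, Polynomial.eval_X, Polynomial.eval_one] at h0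
    linear_combination h0
  · rw [map_add, RatFunc.algebraMap_X, map_one]

end

/-- ZTC -/
theorem ztc {n r : ℕ} (a : Fin r → (Fin n →₀ ℕ)) (𝒟 : ∀ τ, H22.FaceCones a τ)
    (𝒯 : ∀ τ, H22.FaceTriang a τ) (s0 : ℂ) (hs : (H22.topZetaG a 𝒟 𝒯).denom.IsRoot s0) :
    s0 = -1 ∨ ∃ w, FacetNormal a w ∧ 0 < H22.wmin a w ∧
      s0 = -(H22.wsum w : ℂ) / (H22.wmin a w : ℂ) := by
  classical
  by_contra hcon
  push Not at hcon
  obtain ⟨hs1, hcon⟩ := hcon
  -- linear forms of facet normals
  have hlin : ∀ w, FacetNormal a w → (H22.wsum w : ℂ) + (H22.wmin a w : ℂ) * s0 ≠ 0 := by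
    intro w hw h0
    have hws : 0 < H22.wsum w := by
      rw [Nat.pos_iff_ne_zero]
      intro h1
      apply hw.1
      unfold H22.wsum at h1
      rw [Finset.sum_eq_zero_iff] at h1
      funext j
      exact h1 j (Finset.mem_univ j)
    have hwsC : (H22.wsum w : ℂ) ≠ 0 := by exact_mod_cast hws.ne'
    have hwm : (H22.wmin a w : ℂ) ≠ 0 := by
      intro h1
      rw [h1, zero_mul, add_zero] at h0
      exact hwsC h0
    have hwm' : 0 < H22.wmin a w := by
      rw [Nat.pos_iff_ne_zero]
      intro h1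
      apply hwm
      rw [h1, Nat.cast_zero]
    apply hcon w hw hwm'
    rw [eq_div_iff hwm]
    linear_combination h0
  -- the functions J
  have hJ : ∀ τ : Finset (Fin r), H22.IsFace a τ → 1 ≤ H22.faceRank a τ →
      ztcReg s0 (H22.JfunG a τ (𝒟 τ)) := by
    intro τ hτ hr
    have hne : τ.Nonempty := by
      rw [Finset.nonempty_iff_ne_empty]
      rintro rfl
      unfold H22.faceRank at hr
      rw [Finset.coe_empty, Set.image_empty, Submodule.span_empty, finrank_bot] at hr
      omega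
    obtain ⟨𝒟', h𝒟'⟩ := zta a τ hne
    rw [ztb a τ hne hτ (𝒟 τ) 𝒟']
    unfold H22.JfunG
    exact ztc_sum _ _ fun C _ => ztc_mul (ztc_natCast _)
      (ztc_prod _ _ fun c _ => ztc_inv_linear _ _ (hlin _ (h𝒟' C c)))
  have hreg : ztcReg s0 (H22.topZetaG a 𝒟 𝒯) := by
    unfold H22.topZetaG
    refine ztc_add (ztc_sum _ _ fun τ hτ => ?_) (ztc_mul (ztc_X_div hs1)
      (ztc_sum _ _ fun τ hτ => ztc_mul (ztc_mul (ztc_sign _) (ztc_natCast _)) ?_))
    · rw [Finset.mem_filter] at hτ
      exact hJ τ hτ.2.1 hτ.2.2.ge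
    · rw [Finset.mem_filter] at hτ
      exact hJ τ hτ.2.1 (by omega)
  exact ztc_denom hreg hs

end Pool.Agent.H56.SMC

end S_ZTC
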