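import Mathlib
import Pool.Agent.H56.SMC.ZNDefs
import Pool.Agent.H60.ConeExist
import Pool.Agent.H22.G9
import Pool.Agent.H56.SL.Z1

/-! Strong monodromy for nondegenerate polynomials, part Z2: this file joins the modules ZNR, ZNQ, ZNJ, ZNP, ZNH, ZNJT, ZNI. -/

set_option autoImplicit false

section S_ZNR

/-!
# ZNR: a finite set of facet normals which generates all cones `D_τ`

Proof.  `unit_facet`: the exponents with `a_i k` minimal and the `e_j`, `j ≠ k`: all these vectors lie in the hyperplane `y_k = (wmin) y_0`, and one `(1, a_i)` together with the `n - 1` vectors `(0, e_j)`, `j ≠ k`, is independent: dimension `n`.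
`exists_raySet`: for every nonempty `τ` take the family `w` of `zta_gen a τ`; its members are facet normals by `zta_ray` and `zta_facet`.  `R` is the union of the images of these families over all nonempty `τ`, and of the `eN k`.  `gen`: a vector of `D_τ` is a nonnegative combination of the members of the family of `τ`, which are elements of `raysIn a R τ`.
-/

set_option autoImplicit false

namespace Pool.Agent.H56.SMC

open Finset H60.RegTri

theorem znr_wmin_le {n r : ℕ} (a : Fin r → (Fin n →₀ ℕ)) (v : Fin n → ℕ) (i : Fin r) :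
    H22.wmin a v ≤ ∑ j, a i j * v j := ciInf_le (OrderBot.bddBelow _) i

theorem znr_sum_eN {n : ℕ} (b : Fin n →₀ ℕ) (k : Fin n) : ∑ j, b j * eN k j = b k := by
  rw [Finset.sum_eq_single k]
  · simp [eN]
  · intro j _ hj; simp [eN, hj]
  · simp

/-- unit vectors are facet normals -/
theorem unit_facet {n r : ℕ} (a : Fin r → (Fin n →₀ ℕ)) (hr : 0 < r) (k : Fin n) :
    FacetNormal a (eN k) := by
  classical
  refine ⟨fun h => ?_, ?_⟩
  · have := congrFun h k
    simp [eN] at this
  haveI : Nonempty (Fin r) := ⟨⟨0, hr⟩⟩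
  obtain ⟨i0, hi0⟩ : ∃ i, ∑ j, a i j * eN k j = H22.wmin a (eN k) := by
    obtain ⟨i, hi⟩ := ciInf_mem (fun i : Fin r => ∑ j, a i j * eN k j)
    exact ⟨i, hi⟩
  set m : ℕ := H22.wmin a (eN k) with hm
  set G : Set (Unit ⊕ Fin n → ℝ) := {y | ∃ i, ∑ j, a i j * eN k j = m ∧ y = H22.rowR a i} ∪
      {y | ∃ j, eN k j = 0 ∧ y = Sum.elim (fun _ => 0) (Pi.single j 1)} with hG
  set R := Submodule.span ℝ G with hR
  have h1 := Subspace.finrank_add_finrank_dualAnnihilator_eq R
  have h2 : Module.finrank ℝ (Unit ⊕ Fin n → ℝ) = n + 1 := by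
    rw [Module.finrank_fintype_fun_eq_card]
    simp [add_comm]
  let φ : Module.Dual ℝ (Unit ⊕ Fin n → ℝ) :=
    LinearMap.proj (Sum.inr k) - (m : ℝ) • LinearMap.proj (Sum.inl ())
  have hφ : ∀ y, φ y = y (Sum.inr k) - m * y (Sum.inl ()) := fun y => rfl
  have hφ0 : φ ≠ 0 := by
    intro h
    have h3 := hφ (Pi.single (Sum.inr k) 1)
    rw [h] at h3
    simp at h3
  have hann : R.dualAnnihilator = Submodule.span ℝ {φ} := by
    apply le_antisymm
    · intro f hf
      rw [Submodule.mem_dualAnnihilator] at hf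
      rw [Submodule.mem_span_singleton]
      refine ⟨f (Pi.single (Sum.inr k) 1), ?_⟩
      -- value on unit vectors
      have e1 : ∀ j, j ≠ k → f (Pi.single (Sum.inr j) 1) = 0 := by
        intro j hj
        refine hf _ (Submodule.subset_span (Or.inr ⟨j, by simp [eN, hj], ?_⟩))
        funext y
        rcases y with y | y
        · simp
        · by_cases hy : y = j
          · subst hy; simp
          · simp [hy]
      have e2 : f (H22.rowR a i0) = 0 := hf _ (Submodule.subset_span (Or.inl ⟨i0, hi0, rfl⟩))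
      have e3 : ∀ y : Unit ⊕ Fin n → ℝ, y = y (Sum.inl ()) • Pi.single (Sum.inl ()) 1 +
          ∑ j, y (Sum.inr j) • Pi.single (Sum.inr j) (1 : ℝ) := by
        intro y
        funext z
        rcases z with z | z
        · simp [Finset.sum_apply]
        · simp only [Pi.add_apply, Pi.smul_apply, Finset.sum_apply, smul_eq_mul]
          rw [Finset.sum_eq_single z]
          · simp
          · intro b _ hb
            simp [Ne.symm hb]
          · simp
      have e4 : ∀ y, f y = y (Sum.inl ()) * f (Pi.single (Sum.inl ()) 1) +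
          y (Sum.inr k) * f (Pi.single (Sum.inr k) 1) := by
        intro y
        conv_lhs => rw [e3 y]
        rw [map_add, map_smul, map_sum]
        congr 1
        rw [Finset.sum_eq_single k]
        · simp
        · intro b _ hb
          rw [map_smul, e1 b hb, smul_zero]
        · simp
      have e5 := e4 (H22.rowR a i0)
      rw [e2] at e5
      have e6 : a i0 k = m := by rw [← hi0, znr_sum_eN]
      simp only [H22.rowR, Sum.elim_inl, Sum.elim_inr, one_mul, e6] at e5
      apply LinearMap.ext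
      intro y
      rw [LinearMap.smul_apply, hφ, e4 y, smul_eq_mul]
      linear_combination (y (Sum.inl ())) * e5
    · rw [Submodule.span_singleton_le_iff_mem, Submodule.mem_dualAnnihilator]
      intro y hy
      have hle : R ≤ LinearMap.ker φ := by
        rw [hR, Submodule.span_le]
        rintro y (⟨i, hi, rfl⟩ | ⟨j, hj, rfl⟩)
        · rw [SetLike.mem_coe, LinearMap.mem_ker, hφ]
          rw [znr_sum_eN] at hi
          simp [H22.rowR, hi]
        · rw [SetLike.mem_coe, LinearMap.mem_ker, hφ]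
          have : j ≠ k := by
            rintro rfl
            simp [eN] at hj
          simp [Ne.symm this]
      exact LinearMap.mem_ker.1 (hle hy)
  rw [hann, finrank_span_singleton hφ0, h2] at h1
  show Module.finrank ℝ R = n
  omega

/-- the generators of one cone -/
theorem znr_gen {n r : ℕ} (a : Fin r → (Fin n →₀ ℕ)) (τ : Finset (Fin r)) (hτ : τ.Nonempty) :
    ∃ S : Finset (Fin n → ℕ), (∀ w ∈ S, FacetNormal a w) ∧
      (∀ w ∈ S, H22.toReal w ∈ H22.minCone a τ) ∧
      ∀ k ∈ H22.minCone a τ, ∃ c : (Fin n → ℕ) → ℝ, (∀ w ∈ S, 0 ≤ c w) ∧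
        k = ∑ w ∈ S, c w • H22.toReal w := by
  classical
  obtain ⟨J, hJ1, hJ2, w, hwmem, hw0, hwgen, hmin⟩ := zta_gen a τ
  refine ⟨univ.image w, ?_, ?_, ?_⟩
  · intro v hv
    obtain ⟨j, -, rfl⟩ := mem_image.1 hv
    exact zta_facet a τ hτ (w j) (hwmem j) (hw0 j)
      (fun k' h1 h2 => zta_ray a τ w hwmem hwgen hmin j k' h1 h2)
  · intro v hv
    obtain ⟨j, -, rfl⟩ := mem_image.1 hv
    exact hwmem j
  · intro k hk
    obtain ⟨c, hc, hkc⟩ := hwgen k hk
    refine ⟨fun v => ∑ j with w j = v, c j, fun v _ => sum_nonneg fun j _ => hc j, ?_⟩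
    rw [hkc, ← Finset.sum_fiberwise_of_maps_to (s := univ) (t := univ.image w) (g := w)
      (fun j _ => mem_image_of_mem w (mem_univ j))]
    refine sum_congr rfl fun v _ => ?_
    rw [sum_smul]
    refine sum_congr rfl fun j hj => ?_
    rw [(mem_filter.1 hj).2]

/-- ZNR -/
theorem exists_raySet {n r : ℕ} (a : Fin r → (Fin n →₀ ℕ)) (hr : 0 < r) : ∃ R, RaySet a R := by
  classical
  have hex : ∀ τ : Finset (Fin r), ∃ S : Finset (Fin n → ℕ), (∀ w ∈ S, FacetNormal a w) ∧
      (∀ w ∈ S, H22.toReal w ∈ H22.minCone a τ) ∧ (τ.Nonempty →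
      ∀ k ∈ H22.minCone a τ, ∃ c : (Fin n → ℕ) → ℝ, (∀ w ∈ S, 0 ≤ c w) ∧
        k = ∑ w ∈ S, c w • H22.toReal w) := by
    intro τ
    by_cases hτ : τ.Nonempty
    · obtain ⟨S, h1, h2, h3⟩ := znr_gen a τ hτ
      exact ⟨S, h1, h2, fun _ => h3⟩
    · exact ⟨∅, by simp, by simp, fun h => absurd h hτ⟩
  choose S h1 h2 h3 using hex
  refine ⟨univ.biUnion S ∪ univ.image eN, ?_, ?_, ?_⟩
  · intro k
    exact mem_union_right _ (mem_image_of_mem eN (mem_univ k))
  · intro w hw
    rcases mem_union.1 hw with hw | hw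
    · obtain ⟨τ, -, hτ⟩ := mem_biUnion.1 hw
      exact h1 τ w hτ
    · obtain ⟨k, -, rfl⟩ := mem_image.1 hw
      exact unit_facet a hr k
  · intro τ hτ k hk
    obtain ⟨c, hc, hkc⟩ := h3 τ hτ k hk
    set R : Finset (Fin n → ℕ) := univ.biUnion S ∪ univ.image eN with hR
    have hSR : S τ ⊆ R := fun w hw => mem_union_left _ (mem_biUnion.2 ⟨τ, mem_univ _, hw⟩)
    refine ⟨fun w => if w.1 ∈ S τ then c w.1 else 0, fun w _ => ?_, ?_⟩
    · dsimp only
      split_ifs with h
      · exact hc _ h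
      · exact le_rfl
    · have e1 : ∑ w ∈ raysIn a R τ, (if w.1 ∈ S τ then c w.1 else 0) • rv R w =
          ∑ w : R, (if w.1 ∈ S τ then c w.1 else 0) • rv R w := by
        apply sum_subset (subset_univ _)
        intro w _ hw
        rw [mem_raysIn] at hw
        rw [if_neg, zero_smul]
        intro h
        exact hw (h2 τ _ h)
      rw [e1, hkc]
      have e2 : ∑ w : R, (if w.1 ∈ S τ then c w.1 else 0) • rv R w =
          ∑ w ∈ R, (if w ∈ S τ then c w else 0) • H22.toReal w :=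
        Finset.sum_coe_sort R (fun w => (if w ∈ S τ then c w else 0) • H22.toReal w)
      rw [e2]
      symm
      rw [← sum_subset hSR]
      · exact sum_congr rfl fun w hw => by rw [if_pos hw]
      · intro w _ hw
        rw [if_neg hw, zero_smul]

end Pool.Agent.H56.SMC

end S_ZNR

section S_ZNQ

/-!
# ZNQ: faces in the hyperplane `x_k0 = 0` and pyramids over them

Notation: `e = eN k0`.  `B1 a w k0`: all exponents on the face of `w` have `a_k0 = 0`, except one, `p_w`, which has `a_k0 = 1`; `w k0 ≠ 0`.  If `toReal w ∈ minCone a τ` then every `i ∈ τ` is on the face of `w` (`H22.wmin_eq`).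
`tm_reg`: a facet normal `w` has `wsum w > 0`, and `(wsum w) + (wmin a w) s0 = 0` would make it critical; `Reg.mul`, `Reg` of products by induction on the finset, `reg_inv_linear`, `reg_natCast`.
`pp_apex`: `τ` is contained in the face of a critical `w`; so exactly one element of `τ` has `a_k0 ≠ 0`, and it has `a_k0 = 1`.
`pp_base`: if `k` is a weight vector with minimal set exactly `τ`, then `k + e` has the minimal set `τ.filter (a_k0 = 0)`: the values are `m` on it, `m + 1` at the apex, and `> m` for `i ∉ τ`.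
`pp_vertex`: `τ = {p, q}` with `a_p k0 = 1`, `a_q k0 = 0`, `w` critical with `p, q` on its face: `a_p·w = a_q·w` and `w k0 > 0`, so there is `j` with `a_q j > a_p j`; if `k` has minimal set `{p, q}` then `k + ε e_j` has the minimal set `{p}` for small `ε > 0`.
-/

set_option autoImplicit false

namespace Pool.Agent.H56.SMC

open Finset H60.RegTri

theorem tm_reg {n r : ℕ} (a : Fin r → (Fin n →₀ ℕ)) (R : Finset (Fin n → ℕ)) (hR : RaySet a R)
    (s0 : ℂ) (σ : Finset R) (h : ∀ w ∈ σ, ¬ CritW a s0 w.1) : H37.SM.Reg s0 (tm a σ) := by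
  classical
  have hprod : ∀ T : Finset R, (∀ w ∈ T, ¬ CritW a s0 w.1) →
      H37.SM.Reg s0 (∏ w ∈ T, (WW a w.1)⁻¹) := by
    intro T
    induction T using Finset.induction_on with
    | empty =>
      intro _
      rw [Finset.prod_empty]
      have := H37.SM.reg_natCast (s0 := s0) 1
      rwa [Nat.cast_one] at this
    | insert w T hw ih =>
      intro hT
      rw [Finset.prod_insert hw]
      refine H37.SM.Reg.mul ?_ (ih fun u hu => hT u (Finset.mem_insert_of_mem hu))
      refine H37.SM.reg_inv_linear _ _ ?_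
      intro h0
      have hf : FacetNormal a w.1 := hR.facet w.1 w.2
      have hpos : 0 < H22.wsum w.1 := by
        obtain ⟨j, hj⟩ := Function.ne_iff.1 hf.1
        have hj' : 0 < w.1 j := Nat.pos_of_ne_zero hj
        exact lt_of_lt_of_le hj' (Finset.single_le_sum (f := w.1) (fun _ _ => Nat.zero_le _)
          (Finset.mem_univ j))
      have hmin : 0 < H22.wmin a w.1 := by
        rcases Nat.eq_zero_or_pos (H22.wmin a w.1) with h1 | h1
        · exfalso
          rw [h1] at h0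
          simp at h0
          omega
        · exact h1
      refine hT w (Finset.mem_insert_self w T) ⟨hf, hmin, ?_⟩
      have hne : (H22.wmin a w.1 : ℂ) ≠ 0 := by exact_mod_cast hmin.ne'
      rw [eq_div_iff hne]
      linear_combination h0
  exact H37.SM.Reg.mul (H37.SM.reg_natCast _) (hprod σ h)

theorem pp_apex {n r : ℕ} (a : Fin r → (Fin n →₀ ℕ)) (R : Finset (Fin n → ℕ)) (s0 : ℂ)
    (k0 : Fin n) (τ : Finset (Fin r)) (hτ : τ ∈ PP a R s0 k0)
    (hcrit : ∀ w ∈ R, CritW a s0 w → H22.toReal w ∈ H22.minCone a τ → B1 a w k0) :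
    ∃ p ∈ τ, a p k0 = 1 ∧ ∀ i ∈ τ, i ≠ p → a i k0 = 0 := by
  obtain ⟨-, ⟨w, hw, hc, hm⟩, i0, hi0, hne⟩ := mem_PP.1 hτ
  obtain ⟨-, i1, -, h2, h3⟩ := hcrit w hw hc hm
  have hon : ∀ i ∈ τ, ∑ j, a i j * w j = H22.wmin a w := fun i hi => (H22.wmin_eq hm hi).symm
  have e : i0 = i1 := by
    by_contra hc'
    exact hne (h3 i0 (hon i0 hi0) hc')
  subst e
  exact ⟨i0, hi0, h2, fun i hi hn => h3 i (hon i hi) hn⟩

theorem pp_base {n r : ℕ} (a : Fin r → (Fin n →₀ ℕ)) (R : Finset (Fin n → ℕ)) (s0 : ℂ)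
    (k0 : Fin n) (τ : Finset (Fin r)) (hτ : τ ∈ PP a R s0 k0)
    (hne : (τ.filter (fun i => a i k0 = 0)).Nonempty) :
    H22.IsFace a (τ.filter (fun i => a i k0 = 0)) := by
  classical
  obtain ⟨⟨k, hk0, hk⟩, -, -⟩ := mem_PP.1 hτ
  obtain ⟨i0, hi0⟩ := hne
  rw [Finset.mem_filter] at hi0
  have hsum : ∀ l, ∑ j, (a l j : ℝ) * (k j + (Pi.single k0 1 : Fin n → ℝ) j) =
      ∑ j, (a l j : ℝ) * k j + (a l k0 : ℝ) := by
    intro l
    simp only [mul_add, Finset.sum_add_distrib]
    congr 1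
    rw [Finset.sum_eq_single k0]
    · simp
    · intro b _ hb
      rw [Pi.single_eq_of_ne hb, mul_zero]
    · intro h
      exact absurd (Finset.mem_univ _) h
  refine ⟨fun j => k j + (Pi.single k0 1 : Fin n → ℝ) j, fun j => ?_, fun l => ?_⟩
  · have h1 : (0 : ℝ) ≤ (Pi.single k0 1 : Fin n → ℝ) j := by
      by_cases h : j = k0
      · subst h
        simp
      · rw [Pi.single_eq_of_ne h]
    have := hk0 j
    positivity
  · simp only [hsum]
    rw [Finset.mem_filter]
    constructor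
    · rintro ⟨h1, h2⟩ l'
      have h3 := (hk l).1 h1 l'
      have h4 : (0 : ℝ) ≤ a l' k0 := Nat.cast_nonneg _
      rw [h2]
      push_cast
      linarith
    · intro h
      have h3 := h i0
      have h5 := (hk i0).1 hi0.1 l
      rw [hi0.2] at h3
      push_cast at h3
      have h6 : (0 : ℝ) ≤ a l k0 := Nat.cast_nonneg _
      have h7 : (a l k0 : ℝ) = 0 := by linarith
      have h8 : a l k0 = 0 := by exact_mod_cast h7
      refine ⟨(hk l).2 fun l' => ?_, h8⟩
      have := (hk i0).1 hi0.1 l'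
      linarith

theorem pp_vertex {n r : ℕ} (a : Fin r → (Fin n →₀ ℕ)) (s0 : ℂ)
    (k0 : Fin n) (p q : Fin r) (hF : H22.IsFace a {p, q}) (w : Fin n → ℕ)
    (hw : H22.toReal w ∈ H22.minCone a {p, q}) (hk : w k0 ≠ 0) (hp : a p k0 = 1)
    (hq : a q k0 = 0) : H22.IsFace a {p} := by
  classical
  obtain ⟨k, hk0, hkk⟩ := hF
  have hpq : p ≠ q := by
    rintro rfl
    omega
  have e1 : ∑ j, a p j * w j = ∑ j, a q j * w j := by
    have h1 := H22.wmin_eq hw (i := p) (by simp)
    have h2 := H22.wmin_eq hw (i := q) (by simp)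
    rw [← h1, ← h2]
  obtain ⟨j, hj⟩ : ∃ j, a p j < a q j := by
    by_contra hcon
    push Not at hcon
    have h3 : ∑ j, a q j * w j < ∑ j, a p j * w j := by
      refine Finset.sum_lt_sum (fun j _ => Nat.mul_le_mul_right _ (hcon j)) ⟨k0, Finset.mem_univ _, ?_⟩
      rw [hp, hq]
      have := Nat.pos_of_ne_zero hk
      omega
    omega
  have hpm : ∀ l', ∑ i, (a p i : ℝ) * k i ≤ ∑ i, (a l' i : ℝ) * k i := (hkk p).1 (by simp)
  have hqm : ∀ l', ∑ i, (a q i : ℝ) * k i ≤ ∑ i, (a l' i : ℝ) * k i := (hkk q).1 (by simp)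
  have hlt : ∀ l, l ≠ p → l ≠ q → ∑ i, (a p i : ℝ) * k i < ∑ i, (a l i : ℝ) * k i := by
    intro l h1 h2
    refine lt_of_le_of_ne (hpm l) fun h3 => ?_
    have h4 : l ∈ ({p, q} : Finset (Fin r)) := (hkk l).2 fun l' => by
      rw [← h3]
      exact hpm l'
    simp at h4
    tauto
  obtain ⟨ε, hε0, hε⟩ : ∃ ε : ℝ, 0 < ε ∧ ∀ l, l ≠ p → l ≠ q →
      ∑ i, (a p i : ℝ) * k i + ε * a p j < ∑ i, (a l i : ℝ) * k i := by
    have hev : ∀ l, ∀ᶠ ε : ℝ in nhdsWithin 0 (Set.Ioi 0), l ≠ p → l ≠ q →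
        ∑ i, (a p i : ℝ) * k i + ε * a p j < ∑ i, (a l i : ℝ) * k i := by
      intro l
      by_cases h1 : l = p
      · exact Filter.Eventually.of_forall fun _ h => absurd h1 h
      by_cases h2 : l = q
      · exact Filter.Eventually.of_forall fun _ _ h => absurd h2 h
      have h3 : Filter.Tendsto (fun ε : ℝ => ∑ i, (a p i : ℝ) * k i + ε * a p j)
          (nhdsWithin 0 (Set.Ioi 0)) (nhds (∑ i, (a p i : ℝ) * k i + 0 * a p j)) :=
        ((continuous_const.add (continuous_id.mul continuous_const)).tendsto 0).mono_left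
          nhdsWithin_le_nhds
      rw [zero_mul, add_zero] at h3
      filter_upwards [h3.eventually (gt_mem_nhds (hlt l h1 h2))] with ε h4 _ _
      exact h4
    have hall := Filter.eventually_all.2 hev
    obtain ⟨ε, h1, h2⟩ := (hall.and self_mem_nhdsWithin).exists
    exact ⟨ε, h2, h1⟩
  have hsum : ∀ l, ∑ i, (a l i : ℝ) * (k i + (Pi.single j ε : Fin n → ℝ) i) =
      ∑ i, (a l i : ℝ) * k i + ε * (a l j : ℝ) := by
    intro l
    simp only [mul_add, Finset.sum_add_distrib]
    congr 1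
    rw [Finset.sum_eq_single j]
    · simp [mul_comm]
    · intro b _ hb
      rw [Pi.single_eq_of_ne hb, mul_zero]
    · intro h
      exact absurd (Finset.mem_univ _) h
  have hjR : (a p j : ℝ) < a q j := by exact_mod_cast hj
  refine ⟨fun i => k i + (Pi.single j ε : Fin n → ℝ) i, fun i => ?_, fun l => ?_⟩
  · have h1 : (0 : ℝ) ≤ (Pi.single j ε : Fin n → ℝ) i := by
      by_cases h : i = j
      · subst h
        simp [hε0.le]
      · rw [Pi.single_eq_of_ne h]
    have := hk0 i
    positivity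
  · simp only [hsum]
    rw [Finset.mem_singleton]
    constructor
    · rintro rfl l'
      by_cases h1 : l' = l
      · subst h1
        exact le_rfl
      by_cases h2 : l' = q
      · subst h2
        have h3 := hpm l'
        have h4 : ε * (a l j : ℝ) ≤ ε * (a l' j : ℝ) := mul_le_mul_of_nonneg_left hjR.le hε0.le
        linarith
      · have h3 := hε l' h1 h2
        have h4 : (0 : ℝ) ≤ ε * (a l' j : ℝ) := by positivity
        linarith
    · intro h
      by_contra hlp
      have h3 := h p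
      by_cases h2 : l = q
      · subst h2
        have h4 := hqm p
        have h5 := hpm l
        have h6 : ε * (a p j : ℝ) < ε * (a l j : ℝ) := mul_lt_mul_of_pos_left hjR hε0
        linarith
      · have h4 := hε l hlp h2
        have h5 : (0 : ℝ) ≤ ε * (a l j : ℝ) := by positivity
        linarith

end Pool.Agent.H56.SMC

end S_ZNQ

section S_ZNJ

/-!
# ZNJ: the upper simplices of `D_τ`

Proof.  `upT_span`: `σ` is independent with `n + 1 - faceRank a τ` elements in `D_τ`, and `span D_τ` has at most this dimension (`H60.ConeExist.finrank_span_minCone_le`), so the spans agree.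
`upT_cover`: `cover_upper` (with `ℓ = ∑ proj`, positive on `R` since facet normals are nonzero) for `raysIn a R τ` and `k` (in `cCone` by `hR.gen`) gives `σ'` upper with `k ∈ cCone σ'` whose span contains all rays of `D_τ`, hence `σ` (independent with `n + 1 - faceRank a τ` elements), so `σ'` has at least, and by `finrank_span_minCone_le` at most, this number of elements.
-/

set_option autoImplicit false

namespace Pool.Agent.H56.SMC

open Finset H60.RegTri

theorem znj_span_le {n r : ℕ} (a : Fin r → (Fin n →₀ ℕ)) (R : Finset (Fin n → ℕ))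
    (τ : Finset (Fin r)) (σ : Finset R) (hσ : σ ⊆ raysIn a R τ) :
    Submodule.span ℝ (rv R '' (σ : Set R)) ≤ Submodule.span ℝ (H22.minCone a τ) := by
  apply Submodule.span_mono
  rintro _ ⟨w, hw, rfl⟩
  exact mem_raysIn.1 (hσ hw)

/-- a simplex with the right number of elements spans -/
theorem upT_span {n r : ℕ} (a : Fin r → (Fin n →₀ ℕ)) (R : Finset (Fin n → ℕ))
    (τ : Finset (Fin r)) (hτ : τ.Nonempty) (σ : Finset R) (hσ : σ ⊆ raysIn a R τ)
    (hind : LinearIndepOn ℝ (rv R) (σ : Set R)) (hcard : σ.card = n + 1 - H22.faceRank a τ)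
    (k : Fin n → ℝ) (hk : k ∈ H22.minCone a τ) :
    k ∈ Submodule.span ℝ (rv R '' (σ : Set R)) := by
  classical
  have h1 := znj_span_le a R τ σ hσ
  have h2 := H60.ConeExist.finrank_span_minCone_le a τ hτ
  have h3 := H60.ConeExist.card_eq_finrank (rv R) σ hind
  have h4 := Submodule.eq_of_le_of_finrank_le h1 (by rw [← h3, hcard]; exact h2)
  rw [h4]
  exact Submodule.subset_span hk

/-- the upper simplices cover `D_τ` -/
theorem upT_cover {n r : ℕ} (a : Fin r → (Fin n →₀ ℕ)) (R : Finset (Fin n → ℕ))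
    (hR : RaySet a R) (h : R → ℝ) (hh : ∀ τ, GenericOn (rv R) h τ) (τ : Finset (Fin r))
    (hτ : τ.Nonempty) (σ : Finset R) (hσ : σ ⊆ raysIn a R τ)
    (hind : LinearIndepOn ℝ (rv R) (σ : Set R)) (hcard : σ.card = n + 1 - H22.faceRank a τ)
    (k : Fin n → ℝ) (hk : k ∈ H22.minCone a τ) :
    ∃ σ' ∈ upT R h (raysIn a R τ) (n + 1 - H22.faceRank a τ), k ∈ cCone (rv R) σ' := by
  classical
  let ℓ : (Fin n → ℝ) →ₗ[ℝ] ℝ := ∑ j, LinearMap.proj j
  have hℓe : ∀ y, ℓ y = ∑ j, y j := by
    intro y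
    simp [ℓ, LinearMap.sum_apply]
  have hℓ : ∀ w ∈ raysIn a R τ, 0 < ℓ (rv R w) := by
    intro w _
    rw [hℓe]
    have hw0 := (hR.facet w.1 w.2).1
    obtain ⟨j, hj⟩ : ∃ j, w.1 j ≠ 0 := by
      by_contra hall
      push Not at hall
      exact hw0 (funext hall)
    refine sum_pos' (fun i _ => ?_) ⟨j, mem_univ _, ?_⟩
    · simp [rv, H22.toReal]
    · simp only [rv, H22.toReal]
      exact_mod_cast Nat.pos_of_ne_zero hj
  obtain ⟨σ', hup, hsp, hkσ⟩ := cover_upper (rv R) h (raysIn a R τ) ℓ hℓ (hh _) k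
    (hR.gen τ hτ k hk)
  refine ⟨σ', ?_, hkσ⟩
  rw [mem_upT]
  refine ⟨hup, ?_⟩
  have h2 := H60.ConeExist.finrank_span_minCone_le a τ hτ
  have h3 := H60.ConeExist.card_eq_finrank (rv R) σ hind
  have h4 := H60.ConeExist.card_eq_finrank (rv R) σ' hup.2.1
  have h5 : Submodule.span ℝ (rv R '' (σ : Set R)) ≤ Submodule.span ℝ (rv R '' (σ' : Set R)) := by
    rw [Submodule.span_le]
    rintro _ ⟨w, hw, rfl⟩
    exact hsp w (hσ hw)
  have h6 := Submodule.finrank_mono h5
  have h7 := Submodule.finrank_mono (znj_span_le a R τ σ' hup.1)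
  omega

end Pool.Agent.H56.SMC

end S_ZNJ

section S_ZNP

/-!
# ZNP: lower and upper points

Proof.  `low_mem`: otherwise `v e = ∑_{σ} β_i v_i` (span), `UpperOn` gives `hp e < ∑ β_i hp_i`, against `top`.
`low_pt`: let `x = ∑_{i ∈ σ.erase e} v i` and suppose `x - ε v_e ∈ cCone v G`.  `cover_upper` gives an upper `σ'` whose span contains all `v l`, with `x - ε v_e = ∑_{σ'} y_i v_i`, `y_i ≥ 0`; `e ∈ σ'` by `low_mem`.  So `x = ∑_{σ'} y'_i v_i` with `y'_e = y_e + ε > 0`, `y'_i = y_i` otherwise.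
`height_le` for `σ` (coefficients `1` on `σ.erase e`, `0` at `e`) and the support of `y'`, and for `σ'` and `σ.erase e` (coefficients `1`), give both inequalities between the heights, so the support of `y'` is contained in `σ`, and `coeff_unique` for `σ` gives `y'_e = 0`: contradiction.
`up_pt`: suppose `x + ε v_e ∈ cCone v G`.  `cover_upper` for `G` and `hm`: `σ' ⊆ G` upper in `G`, spanning, with `x + ε v_e = ∑_{σ'} y_i v_i`; `σ'` is upper in `insert e G` by `bot`.  `x + ε v_e = ∑_{σ} x_i v_i` with `x_i = 1` (`i ≠ e`), `x_e = ε`.  `height_le` for `σ'` and `σ`, and for `σ` and the support of `y`: the heights are equal and `σ ⊆ σ'`, so `e ∈ G`: contradiction.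
-/

set_option autoImplicit false

namespace Pool.Agent.H56.SMC

open Finset H60.RegTri

/-- restriction to the support -/
theorem znp_supp {ι κ : Type*} [DecidableEq ι] (v : ι → κ → ℝ) (h : ι → ℝ) (σ : Finset ι)
    (y : ι → ℝ) (hy : ∀ i ∈ σ, 0 ≤ y i) :
    ∑ i ∈ σ.filter (fun i => 0 < y i), y i • v i = ∑ i ∈ σ, y i • v i ∧
      ∑ i ∈ σ.filter (fun i => 0 < y i), y i * h i = ∑ i ∈ σ, y i * h i := by
  have h0 : ∀ i ∈ σ, i ∉ σ.filter (fun i => 0 < y i) → y i = 0 := by
    intro i hi hn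
    rw [Finset.mem_filter, not_and] at hn
    exact le_antisymm (not_lt.1 (hn hi)) (hy i hi)
  constructor
  · refine Finset.sum_subset (Finset.filter_subset _ _) fun i hi hn => ?_
    rw [h0 i hi hn, zero_smul]
  · refine Finset.sum_subset (Finset.filter_subset _ _) fun i hi hn => ?_
    rw [h0 i hi hn, zero_mul]

theorem low_mem {ι κ : Type*} [Fintype ι] [DecidableEq ι] [Fintype κ] (v : ι → κ → ℝ)
    (e : ι) (hp hm : ι → ℝ) (ht : TopBot v e hp hm) (G : Finset ι) (he : e ∈ G) (σ : Finset ι)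
    (hσ : UpperOn v hp G σ) (hfull : v e ∈ Submodule.span ℝ (v '' (σ : Set ι))) : e ∈ σ := by
  by_contra hn
  obtain ⟨β, hβ⟩ := (mem_span_iff v σ (v e)).1 hfull
  have h1 := hσ.2.2 e he hn β hβ
  have h2 := ht.top σ hn hσ.2.1 β hβ
  exact lt_irrefl _ (h1.trans h2)

theorem low_pt {ι κ : Type*} [Fintype ι] [DecidableEq ι] [Fintype κ] (v : ι → κ → ℝ)
    (e : ι) (hp hm : ι → ℝ) (ht : TopBot v e hp hm) (G : Finset ι) (he : e ∈ G)
    (ℓ : (κ → ℝ) →ₗ[ℝ] ℝ) (hℓ : ∀ i ∈ G, 0 < ℓ (v i)) (σ : Finset ι)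
    (hσ : UpperOn v hp G σ) (hfull : ∀ l ∈ G, v l ∈ Submodule.span ℝ (v '' (σ : Set ι)))
    (ε : ℝ) (hε : 0 < ε) : (∑ i ∈ σ.erase e, v i) - ε • v e ∉ cCone v G := by
  intro hmem
  have heσ := low_mem v e hp hm ht G he σ hσ (hfull e he)
  obtain ⟨σ', hσ', hfull', y, hy, hyeq⟩ := cover_upper v hp G ℓ hℓ (ht.genp G) _ hmem
  have heσ' := low_mem v e hp hm ht G he σ' hσ' (hfull' e he)
  set y' : ι → ℝ := fun i => y i + if i = e then ε else 0 with hy'
  have hy'0 : ∀ i ∈ σ', 0 ≤ y' i := by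
    intro i hi
    have := hy i hi
    simp only [hy']
    split_ifs <;> linarith
  have hy'e : 0 < y' e := by
    have := hy e heσ'
    simp only [hy', if_true]
    linarith
  have hx' : ∑ i ∈ σ', y' i • v i = ∑ i ∈ σ.erase e, v i := by
    simp only [hy', add_smul, Finset.sum_add_distrib, ite_smul, zero_smul]
    rw [Finset.sum_ite_eq' σ' e, if_pos heσ', ← hyeq]
    abel
  set c : ι → ℝ := fun i => if i = e then 0 else 1 with hc
  have hcx : ∑ i ∈ σ, c i • v i = ∑ i ∈ σ.erase e, v i := by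
    rw [← Finset.add_sum_erase _ _ heσ]
    simp only [hc, if_true, zero_smul, zero_add]
    refine Finset.sum_congr rfl fun i hi => ?_
    rw [if_neg (Finset.ne_of_mem_erase hi), one_smul]
  have hch : ∑ i ∈ σ, c i * hp i = ∑ i ∈ σ.erase e, 1 * hp i := by
    rw [← Finset.add_sum_erase _ _ heσ]
    simp only [hc, if_true, zero_mul, zero_add]
    refine Finset.sum_congr rfl fun i hi => ?_
    rw [if_neg (Finset.ne_of_mem_erase hi)]
  obtain ⟨s1, s2⟩ := znp_supp v hp σ' y' hy'0
  have hS2 : σ'.filter (fun i => 0 < y' i) ⊆ G := (Finset.filter_subset _ _).trans hσ'.1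
  obtain ⟨k1, k2⟩ := height_le v hp G σ (σ'.filter (fun i => 0 < y' i)) hσ hfull hS2 c y'
    (fun i hi => (Finset.mem_filter.1 hi).2) (by rw [hcx, s1, hx'])
  obtain ⟨k3, -⟩ := height_le v hp G σ' (σ.erase e) hσ' hfull'
    ((Finset.erase_subset _ _).trans hσ.1) y' (fun _ => 1) (fun _ _ => one_pos)
    (by rw [hx']; simp only [one_smul])
  have hsub := k2 (by rw [hch, s2]; exact k3)
  have heS : e ∈ σ'.filter (fun i => 0 < y' i) := Finset.mem_filter.2 ⟨heσ', hy'e⟩
  have huniq := coeff_unique v σ hσ.2.1 c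
    (fun i => if i ∈ σ'.filter (fun i => 0 < y' i) then y' i else 0) (by
      rw [hcx, ← hx', ← s1]
      simp only [ite_smul, zero_smul]
      rw [← Finset.sum_filter, Finset.filter_mem_eq_inter, Finset.inter_eq_right.2 hsub]) e heσ
  simp only [hc, if_true, if_pos heS] at huniq
  linarith

/-- ZNP -/
theorem up_pt {ι κ : Type*} [Fintype ι] [DecidableEq ι] [Fintype κ] (v : ι → κ → ℝ)
    (e : ι) (hp hm : ι → ℝ) (ht : TopBot v e hp hm) (G : Finset ι) (he : e ∉ G)
    (ℓ : (κ → ℝ) →ₗ[ℝ] ℝ) (hℓ : ∀ i ∈ G, 0 < ℓ (v i))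
    (heG : v e ∈ Submodule.span ℝ (v '' (G : Set ι))) (σ : Finset ι)
    (hσ : UpperOn v hm (insert e G) σ) (heσ : e ∈ σ)
    (hfull : ∀ l ∈ insert e G, v l ∈ Submodule.span ℝ (v '' (σ : Set ι)))
    (ε : ℝ) (hε : 0 < ε) : (∑ i ∈ σ.erase e, v i) + ε • v e ∉ cCone v G := by
  intro hmem
  obtain ⟨σ', hσ', hfull', y, hy, hyeq⟩ := cover_upper v hm G ℓ hℓ (ht.genm G) _ hmem
  have heσ' : e ∉ σ' := fun h => he (hσ'.1 h)
  have hup : UpperOn v hm (insert e G) σ' := by
    refine ⟨hσ'.1.trans (Finset.subset_insert _ _), hσ'.2.1, ?_⟩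
    intro l hl hln β hβ
    rcases Finset.mem_insert.1 hl with rfl | hl
    · exact ht.bot σ' heσ' hσ'.2.1 β hβ
    · exact hσ'.2.2 l hl hln β hβ
  have hspan : Submodule.span ℝ (v '' (G : Set ι)) ≤ Submodule.span ℝ (v '' (σ' : Set ι)) := by
    rw [Submodule.span_le]
    rintro _ ⟨i, hi, rfl⟩
    exact hfull' i hi
  have hfull'' : ∀ l ∈ insert e G, v l ∈ Submodule.span ℝ (v '' (σ' : Set ι)) := by
    intro l hl
    rcases Finset.mem_insert.1 hl with rfl | hl
    · exact hspan heG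
    · exact hfull' l hl
  set c : ι → ℝ := fun i => if i = e then ε else 1 with hc
  have hc0 : ∀ i ∈ σ, 0 < c i := by
    intro i _
    simp only [hc]
    split_ifs
    · exact hε
    · exact one_pos
  have hcx : ∑ i ∈ σ, c i • v i = (∑ i ∈ σ.erase e, v i) + ε • v e := by
    rw [← Finset.add_sum_erase _ _ heσ]
    simp only [hc, if_true]
    rw [add_comm]
    congr 1
    refine Finset.sum_congr rfl fun i hi => ?_
    rw [if_neg (Finset.ne_of_mem_erase hi), one_smul]
  obtain ⟨s1, s2⟩ := znp_supp v hm σ' y hy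
  obtain ⟨-, k2⟩ := height_le v hm (insert e G) σ' σ hup hfull'' hσ.1 y c hc0 (by rw [hcx, hyeq])
  obtain ⟨k3, -⟩ := height_le v hm (insert e G) σ (σ'.filter (fun i => 0 < y i)) hσ hfull
    ((Finset.filter_subset _ _).trans hup.1) c y (fun i hi => (Finset.mem_filter.1 hi).2)
    (by rw [hcx, s1, hyeq])
  exact heσ' (k2 (by rw [← s2]; exact k3) heσ)

end Pool.Agent.H56.SMC

end S_ZNP

section S_ZNH

/-!
# ZNH: heights

Proof.  Take generic heights `h` (`H60.RegTri.exists_generic`) and put `hp i = hm i = h i` for `i ≠ e`, `hp e = H`, `hm e = -H` with `H` large.  For an independent `σ` and `l ∉ σ` with `v l ∈ span (v '' σ)` the coefficients `β i`, `i ∈ σ`, are unique (`coeff_unique`), and there are finitely many pairs `(σ, l)`; each of the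
conditions below is a strict inequality which holds for `H` larger than a bound depending on `(σ, l, β)`: `top`: `H > ∑ β_i h_i`; `bot`: `-H < ∑ β_i h_i`; `topl`: `β_e H > h_l - ∑_{i ≠ e} β_i h_i` (`β_e > 0`); `botl`: `β_e (-H) = |β_e| H > h_l - ∑_{i≠e}`.  Genericity of `hp` for `(σ, l)`: if `l = e`: by `top`; if `e ∉ σ`, `l ≠ e`: genericity of `h`;
if `e ∈ σ` and `β_e = 0`: genericity of `h` for `σ.erase e`; if `β_e > 0`: `topl`; if `β_e < 0`: the same with the opposite inequality for `H` large.  The same for `hm`.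
-/

set_option autoImplicit false

namespace Pool.Agent.H56.SMC

open Finset H60.RegTri

/-- A common bound for the finitely many bad pairs. -/
theorem ZNH_bound {ι κ : Type*} [Fintype ι] [DecidableEq ι] (v : ι → κ → ℝ)
    (e : ι) (h : ι → ℝ) : ∃ H : ℝ, 0 < H ∧ ∀ σ : Finset ι, LinearIndepOn ℝ v (σ : Set ι) →
      ∀ l, l ∉ σ → ∀ β : ι → ℝ, v l = ∑ i ∈ σ, β i • v i →
        |∑ i ∈ σ.erase e, β i * h i| < H ∧
        (e ∈ σ → β e ≠ 0 → |∑ i ∈ σ.erase e, β i * h i - h l| < H * |β e|) := by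
  classical
  let Bad : Finset ι × ι → Prop := fun p => LinearIndepOn ℝ v (p.1 : Set ι) ∧ p.2 ∉ p.1 ∧
    ∃ β : ι → ℝ, v p.2 = ∑ i ∈ p.1, β i • v i
  have hex : ∀ p : {p // Bad p}, ∃ β : ι → ℝ, v p.1.2 = ∑ i ∈ p.1.1, β i • v i := fun p => p.2.2.2
  choose β₀ hβ₀ using hex
  let B1 : {p // Bad p} → ℝ := fun p => |∑ i ∈ p.1.1.erase e, β₀ p i * h i|
  let B2 : {p // Bad p} → ℝ := fun p => |∑ i ∈ p.1.1.erase e, β₀ p i * h i - h p.1.2| / |β₀ p e|
  have hB1 : ∀ p, 0 ≤ B1 p := fun p => abs_nonneg _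
  have hB2 : ∀ p, 0 ≤ B2 p := fun p => div_nonneg (abs_nonneg _) (abs_nonneg _)
  refine ⟨1 + ∑ p, (B1 p + B2 p), ?_, ?_⟩
  · have : 0 ≤ ∑ p, (B1 p + B2 p) := Finset.sum_nonneg fun p _ => add_nonneg (hB1 p) (hB2 p)
    linarith
  · intro σ hσ l hl β hβ
    have hbad : Bad (σ, l) := ⟨hσ, hl, β, hβ⟩
    let p : {p // Bad p} := ⟨(σ, l), hbad⟩
    have hco : ∀ i ∈ σ, β₀ p i = β i :=
      coeff_unique v σ hσ _ _ (by rw [← hβ₀ p, ← hβ])
    have hle : B1 p + B2 p ≤ ∑ p, (B1 p + B2 p) :=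
      Finset.single_le_sum (f := fun p => B1 p + B2 p)
        (fun p _ => add_nonneg (hB1 p) (hB2 p)) (Finset.mem_univ p)
    have hsum : ∑ i ∈ σ.erase e, β₀ p i * h i = ∑ i ∈ σ.erase e, β i * h i :=
      Finset.sum_congr rfl fun i hi => by rw [hco i (Finset.mem_of_mem_erase hi)]
    have e1 : B1 p = |∑ i ∈ σ.erase e, β i * h i| := by
      change |∑ i ∈ σ.erase e, β₀ p i * h i| = _
      rw [hsum]
    refine ⟨?_, ?_⟩
    · rw [← e1]
      have := hB2 p
      linarith
    · intro he hne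
      have e2 : B2 p = |∑ i ∈ σ.erase e, β i * h i - h l| / |β e| := by
        change |∑ i ∈ σ.erase e, β₀ p i * h i - h l| / |β₀ p e| = _
        rw [hsum, hco e he]
      have hpos : 0 < |β e| := abs_pos.mpr hne
      rw [← div_lt_iff₀ hpos, ← e2]
      have := hB1 p
      linarith

theorem ZNH_sum_mem {ι : Type*} [DecidableEq ι] (e : ι) (h : ι → ℝ) (x : ℝ)
    (σ : Finset ι) (β : ι → ℝ) (he : e ∈ σ) :
    ∑ i ∈ σ, β i * Function.update h e x i = β e * x + ∑ i ∈ σ.erase e, β i * h i := by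
  rw [← Finset.add_sum_erase σ _ he, Function.update_self]
  congr 1
  refine Finset.sum_congr rfl fun i hi => ?_
  rw [Function.update_of_ne (Finset.ne_of_mem_erase hi)]

theorem ZNH_sum_notMem {ι : Type*} [DecidableEq ι] (e : ι) (h : ι → ℝ) (x : ℝ)
    (σ : Finset ι) (β : ι → ℝ) (he : e ∉ σ) :
    ∑ i ∈ σ, β i * Function.update h e x i = ∑ i ∈ σ, β i * h i := by
  refine Finset.sum_congr rfl fun i hi => ?_
  have hne : i ≠ e := fun hh => he (by rw [← hh]; exact hi)
  rw [Function.update_of_ne hne]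

theorem ZNH_generic {ι κ : Type*} [Fintype ι] [DecidableEq ι] (v : ι → κ → ℝ)
    (e : ι) (h : ι → ℝ) (hg : ∀ τ, GenericOn v h τ) (H : ℝ)
    (hH : ∀ σ : Finset ι, LinearIndepOn ℝ v (σ : Set ι) →
      ∀ l, l ∉ σ → ∀ β : ι → ℝ, v l = ∑ i ∈ σ, β i • v i →
        |∑ i ∈ σ.erase e, β i * h i| < H ∧
        (e ∈ σ → β e ≠ 0 → |∑ i ∈ σ.erase e, β i * h i - h l| < H * |β e|))
    (x : ℝ) (hx : |x| = H) (τ : Finset ι) : GenericOn v (Function.update h e x) τ := by
  intro σ hστ hσ l hlτ hl β hβ heq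
  obtain ⟨h1, h2⟩ := hH σ hσ l hl β hβ
  by_cases hle : l = e
  · subst hle
    rw [Function.update_self, ZNH_sum_notMem l h x σ β hl] at heq
    rw [Finset.erase_eq_of_notMem hl, ← heq, hx] at h1
    exact lt_irrefl _ h1
  · rw [Function.update_of_ne hle] at heq
    by_cases he : e ∈ σ
    · rw [ZNH_sum_mem e h x σ β he] at heq
      by_cases hb : β e = 0
      · refine hg τ (σ.erase e) ((Finset.erase_subset _ _).trans hστ)
          (hσ.mono (by exact_mod_cast Finset.erase_subset e σ)) l hlτ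
          (fun hh => hl (Finset.mem_of_mem_erase hh)) β ?_ ?_
        · rw [hβ, ← Finset.add_sum_erase σ _ he, hb, zero_smul, zero_add]
        · rw [heq, hb, zero_mul, zero_add]
      · have h3 := h2 he hb
        have h4 : ∑ i ∈ σ.erase e, β i * h i - h l = - (β e * x) := by rw [heq]; ring
        rw [h4, abs_neg, abs_mul, hx, mul_comm] at h3
        exact lt_irrefl _ h3
    · rw [ZNH_sum_notMem e h x σ β he] at heq
      exact hg τ σ hστ hσ l hlτ hl β hβ heq

/-- ZNH -/
theorem exists_topBot {ι κ : Type*} [Fintype ι] [DecidableEq ι] [Fintype κ] (v : ι → κ → ℝ)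
    (e : ι) : ∃ hp hm : ι → ℝ, TopBot v e hp hm := by
  obtain ⟨h, hg⟩ := exists_generic v
  obtain ⟨H, hH0, hH⟩ := ZNH_bound v e h
  refine ⟨Function.update h e H, Function.update h e (-H), ?_, ?_, ?_, ?_, ?_, ?_, ?_⟩
  · intro i hi
    rw [Function.update_of_ne hi, Function.update_of_ne hi]
  · exact ZNH_generic v e h hg H hH H (abs_of_pos hH0)
  · exact ZNH_generic v e h hg H hH (-H) (by rw [abs_neg, abs_of_pos hH0])
  · intro σ he hσ β hβ
    rw [Function.update_self, ZNH_sum_notMem e h H σ β he]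
    have h1 := (hH σ hσ e he β hβ).1
    rw [Finset.erase_eq_of_notMem he] at h1
    exact (abs_lt.mp h1).2
  · intro σ he hσ β hβ
    rw [Function.update_self, ZNH_sum_notMem e h (-H) σ β he]
    have h1 := (hH σ hσ e he β hβ).1
    rw [Finset.erase_eq_of_notMem he] at h1
    exact (abs_lt.mp h1).1
  · intro σ he hσ l hl β hβ hpos
    have hle : l ≠ e := fun hh => hl (hh ▸ he)
    rw [Function.update_of_ne hle, ZNH_sum_mem e h H σ β he]
    have h1 := (hH σ hσ l hl β hβ).2 he hpos.ne'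
    rw [abs_of_pos hpos] at h1
    have h2 := (abs_lt.mp h1).1
    nlinarith
  · intro σ he hσ l hl β hβ hneg
    have hle : l ≠ e := fun hh => hl (hh ▸ he)
    rw [Function.update_of_ne hle, ZNH_sum_mem e h (-H) σ β he]
    have h1 := (hH σ hσ l hl β hβ).2 he hneg.ne
    rw [abs_of_neg hneg] at h1
    have h2 := (abs_lt.mp h1).1
    nlinarith

end Pool.Agent.H56.SMC

end S_ZNH

section S_ZNJT

/-!
# ZNJT: `J_τ` through the upper simplices

`jf_tri`: as in `H60.ConeExist.exists_cones_aux` the simplices of `upT` (enumerated by `Fin`, with `Finset.equivFinOfCardEq`) form a `FaceCones a τ` (disjointness `disjoint_oCone`; `cover` by `upT_cover`-like argument: if `D_τ` contains `d` independent vectors then `cover_upper` gives simplices with `d` elements); `ztb` gives `JfunG a τ 𝒟 = JfunG a τ` of this decomposition, and the sum is reindexed: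
`coneMult` of the enumerated cone is `mulS σ` (same range of generators), the product over `Fin d` is the product over `σ`.
-/

set_option autoImplicit false

namespace Pool.Agent.H56.SMC

open Finset H60.RegTri

/-- the positive linear form -/
theorem znjt_form_pos {n r : ℕ} (a : Fin r → (Fin n →₀ ℕ)) (R : Finset (Fin n → ℕ))
    (hR : RaySet a R) (w : R) :
    0 < (∑ i, (LinearMap.proj i : (Fin n → ℝ) →ₗ[ℝ] ℝ)) (rv R w) := by
  have h1 : (∑ i, (LinearMap.proj i : (Fin n → ℝ) →ₗ[ℝ] ℝ)) (rv R w) = ∑ i, (w.1 i : ℝ) := by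
    rw [LinearMap.sum_apply]; rfl
  rw [h1]
  have hw0 : w.1 ≠ 0 := (hR.facet w.1 w.2).1
  obtain ⟨i, hi⟩ : ∃ i, w.1 i ≠ 0 := by
    by_contra hno
    push Not at hno
    exact hw0 (funext hno)
  exact Finset.sum_pos' (fun _ _ => Nat.cast_nonneg _)
    ⟨i, Finset.mem_univ i, by exact_mod_cast Nat.pos_of_ne_zero hi⟩

/-- cover by simplices with `d` elements if `D_τ` contains `d` independent vectors -/
theorem znjt_cover {n r : ℕ} (a : Fin r → (Fin n →₀ ℕ)) (R : Finset (Fin n → ℕ))
    (hR : RaySet a R) (h : R → ℝ) (hh : ∀ τ, GenericOn (rv R) h τ) (τ : Finset (Fin r))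
    (hτ : τ.Nonempty)
    (hv : ∃ v : Fin (n + 1 - H22.faceRank a τ) → Fin n → ℝ, LinearIndependent ℝ v ∧
      ∀ c, v c ∈ H22.minCone a τ)
    (k : Fin n → ℝ) (hk : k ∈ H22.minCone a τ) :
    ∃ σ ∈ upT R h (raysIn a R τ) (n + 1 - H22.faceRank a τ), k ∈ cCone (rv R) σ := by
  classical
  obtain ⟨σ, hup, hfull, hkσ⟩ := cover_upper (rv R) h (raysIn a R τ)
    (∑ i, (LinearMap.proj i : (Fin n → ℝ) →ₗ[ℝ] ℝ)) (fun w _ => znjt_form_pos a R hR w)
    (hh _) k (hR.gen τ hτ k hk)
  refine ⟨σ, mem_upT.2 ⟨hup, ?_⟩, hkσ⟩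
  obtain ⟨v, hvind, hvmem⟩ := hv
  have hspan : Submodule.span ℝ (rv R '' (σ : Set R)) = Submodule.span ℝ (H22.minCone a τ) := by
    apply le_antisymm
    · apply Submodule.span_mono
      rintro _ ⟨w, hw, rfl⟩
      exact mem_raysIn.1 (hup.1 hw)
    · rw [Submodule.span_le]
      intro y hy
      obtain ⟨x, -, hx⟩ := hR.gen τ hτ y hy
      rw [hx]
      exact Submodule.sum_mem _ fun w hw => Submodule.smul_mem _ _ (hfull w hw)
  rw [H60.ConeExist.card_eq_finrank (rv R) σ hup.2.1, hspan]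
  apply le_antisymm (H60.ConeExist.finrank_span_minCone_le a τ hτ)
  have h1 := finrank_span_eq_card hvind
  rw [Fintype.card_fin] at h1
  refine h1.symm.le.trans ?_
  apply Submodule.finrank_mono
  apply Submodule.span_mono
  rintro _ ⟨c, rfl⟩
  exact hvmem c

/-- the multiplicity depends only on the set of generators -/
theorem znjt_latIndex {κ ι ι' : Type*} (v : ι → κ → ℤ) (v' : ι' → κ → ℤ)
    (h : Set.range v = Set.range v') : H22.latIndex v = H22.latIndex v' := by
  unfold H22.latIndex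
  rw [h]

/-- ZNJ -/
theorem jf_tri {n r : ℕ} (a : Fin r → (Fin n →₀ ℕ)) (R : Finset (Fin n → ℕ))
    (hR : RaySet a R) (h : R → ℝ) (hh : ∀ τ, GenericOn (rv R) h τ) (τ : Finset (Fin r))
    (hτ : τ.Nonempty) (hF : H22.IsFace a τ) (𝒟 : H22.FaceCones a τ) :
    H22.JfunG a τ 𝒟 = ∑ σ ∈ upT R h (raysIn a R τ) (n + 1 - H22.faceRank a τ), tm a σ := by
  classical
  set S : Finset (Finset R) := upT R h (raysIn a R τ) (n + 1 - H22.faceRank a τ) with hS
  have hup : ∀ σ ∈ S, UpperOn (rv R) h (raysIn a R τ) σ := fun σ hσ => (mem_upT.1 hσ).1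
  have hcard : ∀ σ ∈ S, σ.card = n + 1 - H22.faceRank a τ := fun σ hσ => (mem_upT.1 hσ).2
  let e : (C : Fin S.card) → ((S.equivFin.symm C).1 : Finset R) ≃
      Fin (n + 1 - H22.faceRank a τ) := fun C =>
    Finset.equivFinOfCardEq (hcard _ (S.equivFin.symm C).2)
  let W : (C : Fin S.card) → Fin (n + 1 - H22.faceRank a τ) → R := fun C c => ((e C).symm c).1
  have hWmem : ∀ C c, W C c ∈ (S.equivFin.symm C).1 := fun C c => ((e C).symm c).2
  have hsumW : ∀ (C : Fin S.card) (x : R → ℝ),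
      ∑ c, x (W C c) • rv R (W C c) = ∑ i ∈ (S.equivFin.symm C).1, x i • rv R i := by
    intro C x
    exact (Fintype.sum_equiv (e C).symm (fun c => x (W C c) • rv R (W C c))
      (fun i : ((S.equivFin.symm C).1 : Finset R) => x i • rv R i) (fun c => rfl)).trans
      (Finset.sum_coe_sort _ (fun i => x i • rv R i))
  have hfull : ∀ σ ∈ S, ∀ l ∈ raysIn a R τ,
      rv R l ∈ Submodule.span ℝ (rv R '' (σ : Set R)) := by
    intro σ hσ l hl
    exact upT_span a R τ hτ σ (hup σ hσ).1 (hup σ hσ).2.1 (hcard σ hσ) _ (mem_raysIn.1 hl)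
  let 𝒟' : H22.FaceCones a τ :=
    { m := S.card
      w := fun C c => (W C c).1
      mem := fun C c => mem_raysIn.1 ((hup _ (S.equivFin.symm C).2).1 (hWmem C c))
      indep := by
        intro C
        have h1 : LinearIndependent ℝ
            (fun i : ((S.equivFin.symm C).1 : Finset R) => rv R i) :=
          (hup _ (S.equivFin.symm C).2).2.1
        exact h1.comp _ (e C).symm.injective
      disj := by
        intro C C' hne
        have h1 := disjoint_oCone (rv R) h (raysIn a R τ) _ _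
          (hup _ (S.equivFin.symm C).2) (hfull _ (S.equivFin.symm C).2)
          (hup _ (S.equivFin.symm C').2) (hfull _ (S.equivFin.symm C').2) (by
            intro h
            exact hne (S.equivFin.symm.injective (Subtype.ext h)))
        have h2 : ∀ C, H22.openCone (fun c => H22.toReal (W C c).1) ⊆
            oCone (rv R) (S.equivFin.symm C).1 := by
          rintro C _ ⟨x, hx, rfl⟩
          refine ⟨fun i => if h : i ∈ (S.equivFin.symm C).1 then x (e C ⟨i, h⟩) else 0,
            fun i hi => ?_, ?_⟩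
          · simp only [hi, dif_pos]; exact hx _
          · rw [← hsumW C]
            refine Finset.sum_congr rfl fun c _ => ?_
            have h3 : W C c ∈ (S.equivFin.symm C).1 := hWmem C c
            have h4 : e C ⟨W C c, h3⟩ = c := by
              have : (⟨W C c, h3⟩ : ((S.equivFin.symm C).1 : Finset R)) = (e C).symm c := rfl
              rw [this, Equiv.apply_symm_apply]
            rw [dif_pos h3, h4]
            rfl
        exact Disjoint.mono (h2 C) (h2 C') h1
      cover := by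
        intro hv k hk
        obtain ⟨σ, hσ, x, hx, hxe⟩ := znjt_cover a R hR h hh τ hτ hv k hk
        refine ⟨S.equivFin ⟨σ, hσ⟩, fun c => x (W (S.equivFin ⟨σ, hσ⟩) c), fun c => ?_, ?_⟩
        · apply hx
          have h3 : W (S.equivFin ⟨σ, hσ⟩) c ∈ (S.equivFin.symm (S.equivFin ⟨σ, hσ⟩)).1 :=
            hWmem _ c
          rwa [Equiv.symm_apply_apply] at h3
        · rw [hxe]
          have h4 := hsumW (S.equivFin ⟨σ, hσ⟩) x
          rw [Equiv.symm_apply_apply] at h4
          exact h4.symm }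
  rw [ztb a τ hτ hF 𝒟 𝒟']
  have hR1 : ∑ σ ∈ S, tm a σ = ∑ C : Fin S.card, tm a (S.equivFin.symm C).1 := by
    rw [← Finset.sum_coe_sort S (fun σ => tm a σ)]
    exact (Equiv.sum_comp S.equivFin.symm (fun σ : S => tm a σ.1)).symm
  rw [hR1]
  unfold H22.JfunG
  refine Finset.sum_congr rfl fun C _ => ?_
  have hmul : H22.coneMult (𝒟'.w C) = mulS (S.equivFin.symm C).1 := by
    unfold H22.coneMult mulS
    apply znjt_latIndex
    ext y
    constructor
    · rintro ⟨c, rfl⟩
      exact ⟨(e C).symm c, rfl⟩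
    · rintro ⟨i, rfl⟩
      refine ⟨e C i, ?_⟩
      show (fun j => (((((e C).symm (e C i)).1).1 j : ℕ) : ℤ)) = _
      rw [Equiv.symm_apply_apply]
  have hprod : ∏ c, ((H22.wsum (𝒟'.w C c) : RatFunc ℂ) +
      (H22.wmin a (𝒟'.w C c) : RatFunc ℂ) * RatFunc.X)⁻¹ =
      ∏ w ∈ (S.equivFin.symm C).1, (WW a w.1)⁻¹ := by
    rw [← Finset.prod_coe_sort (S.equivFin.symm C).1 (fun w => (WW a w.1)⁻¹)]
    exact Fintype.prod_equiv (e C).symm
      (fun c => ((H22.wsum (𝒟'.w C c) : RatFunc ℂ) +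
        (H22.wmin a (𝒟'.w C c) : RatFunc ℂ) * RatFunc.X)⁻¹)
      (fun i : ((S.equivFin.symm C).1 : Finset R) => (WW a i.1.1)⁻¹) (fun c => rfl)
  unfold tm
  rw [hmul, hprod]

end Pool.Agent.H56.SMC

end S_ZNJT

section S_ZNI

/-!
# ZNI: the integral of a linear form does not depend on the triangulation

Proof.  Both sides are rational functions (`H22.GoodR`, see `JfunG_good` in `Pool.Agent.H22.G9`: `GoodR.sum`, `GoodR.natCast`, `GoodR.prod`, `GoodR.inv_linear`), it suffices that the values at all real `s > 0` agree (`goodR_unique` in `Pool.Agent.H37.SM.ZUN`, or `ztb_goodR_unique` in `ZTB`, copy it).  For real `s > 0`, `V(k) = ∑_j (1 + s c_j) k_j`: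
for an independent `σ` with `n` elements `mulS σ * ∏_{w ∈ σ} 1 / (|w| + s (c·w)) = ∫ over oCone (rv R) σ of exp (-V k) dk`: enumerate `σ` by `Fin n`, `Q` the matrix with these columns, `mulS σ = |det Q|` (`latIndex_eq_det` in `Pool.Agent.H22.Lattice`, used with `N = ⊤` and the standard basis as in `coneMult_three` of `Pool.Agent.H37.SM.ZMU`),
change of variables `H22.change_var_real` and `integral_fintype_prod_volume_eq_prod`, `H22.integral_exp_pos`, exactly as at the end of the proof of `H22.cone_integral` (`Pool.Agent.H22.Cones`).  The open cones of one family are pairwise disjoint, and each differs from the closed cone by a null set (the hyperplanes where a coordinate vanishes), so the sum of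
the integrals is the integral over the union of the closed cones, the same set for both families.
-/

set_option autoImplicit false

namespace Pool.Agent.H56.SMC

open Finset H60.RegTri MeasureTheory

theorem ZNI_goodR_unique {Z Z' : RatFunc ℂ} {G : ℝ → ℂ} (h : H22.GoodR Z G)
    (h' : H22.GoodR Z' G) : Z = Z' := by
  obtain ⟨p, q, hq, hZ, hF⟩ := h
  obtain ⟨p', q', hq', hZ', hF'⟩ := h'
  have key : p * q' = p' * q := by
    apply Polynomial.eq_of_infinite_eval_eq
    refine Set.Infinite.mono (s := (fun s : ℝ => (s : ℂ)) '' Set.Ioi (0 : ℝ)) ?_ ?_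
    · rintro _ ⟨s, hs, rfl⟩
      have hs' : 0 < s := hs
      show Polynomial.eval (s : ℂ) (p * q') = Polynomial.eval (s : ℂ) (p' * q)
      have h1 := hF s hs'
      rw [hF' s hs', div_eq_div_iff (hq'.eval_ne hs') (hq.eval_ne hs')] at h1
      rw [Polynomial.eval_mul, Polynomial.eval_mul]
      exact h1.symm
    · refine Set.Infinite.image ?_ (Set.Ioi_infinite 0)
      intro x _ y _ hxy
      have : (x : ℂ) = (y : ℂ) := hxy
      exact_mod_cast this
  rw [hZ, hZ', div_eq_div_iff (H22.algMap_ne hq.1) (H22.algMap_ne hq'.1), ← map_mul, ← map_mul, key]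

/-- the lattice index of a full family is the determinant -/
theorem ZNI_mul {n : ℕ} {R : Finset (Fin n → ℕ)} {σ : Finset R} (e : Fin n ≃ σ)
    (Q : Matrix (Fin n) (Fin n) ℤ) (hQ : ∀ j c, Q j c = (((e c).1.1 j : ℕ) : ℤ))
    (hdet : Q.det ≠ 0) : mulS σ = Q.det.natAbs := by
  classical
  have h1 : mulS σ = H22.latIndex (fun (c : Fin n) (j : Fin n) => (((e c).1.1 j : ℕ) : ℤ)) := by
    unfold mulS H22.latIndex
    have : Set.range (fun (w : σ) (j : Fin n) => ((w.1.1 j : ℕ) : ℤ)) =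
        Set.range (fun (c : Fin n) (j : Fin n) => (((e c).1.1 j : ℕ) : ℤ)) := by
      ext v
      constructor
      · rintro ⟨w, rfl⟩
        exact ⟨e.symm w, by simp⟩
      · rintro ⟨c, rfl⟩
        exact ⟨e c, rfl⟩
    rw [this]
  rw [h1]
  let b : Module.Basis (Fin n) ℤ (⊤ : Submodule ℤ (Fin n → ℤ)) :=
    (Pi.basisFun ℤ (Fin n)).map Submodule.topEquiv.symm
  have hb : ∀ c, ((b c : (⊤ : Submodule ℤ (Fin n → ℤ))) : Fin n → ℤ) = Pi.single c 1 := by
    intro c
    simp only [b, Module.Basis.map_apply, Pi.basisFun_apply]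
    rfl
  refine H22.latIndex_eq_det (⊤ : Submodule ℤ (Fin n → ℤ)) (fun _ _ _ _ => trivial) b _ Q ?_ hdet
  intro c
  ext j
  simp only [hb, Finset.sum_apply, Pi.smul_apply, smul_eq_mul]
  rw [← hQ]
  simp [Pi.single_apply]

/-- the integral over one open cone -/
theorem ZNI_cone {n : ℕ} (R : Finset (Fin n → ℕ)) (hR : ∀ w ∈ R, w ≠ 0) (c : Fin n → ℕ)
    (σ : Finset R) (hσ : LinearIndepOn ℝ (rv R) (σ : Set R)) (hn : σ.card = n) :
    MeasurableSet (oCone (rv R) σ) ∧
    (∀ᵐ k : Fin n → ℝ, k ∈ cCone (rv R) σ → k ∈ oCone (rv R) σ) ∧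
    ∀ s : ℝ, 0 < s →
      ∫ k : Fin n → ℝ, (oCone (rv R) σ).indicator
        (fun k => Real.exp (-∑ j, (1 + s * c j) * k j)) k =
      (mulS σ : ℝ) * ∏ w ∈ σ, (1 / ((H22.wsum w.1 : ℝ) + s * ((∑ j, c j * w.1 j : ℕ) : ℝ))) ∧
      0 < (mulS σ : ℝ) *
        ∏ w ∈ σ, (1 / ((H22.wsum w.1 : ℝ) + s * ((∑ j, c j * w.1 j : ℕ) : ℝ))) := by
  classical
  have e : Fin n ≃ σ := (σ.equivFinOfCardEq hn).symm
  set Q : Matrix (Fin n) (Fin n) ℤ := fun j c' => (((e c').1.1 j : ℕ) : ℤ) with hQ
  set A : Matrix (Fin n) (Fin n) ℝ := fun j c' => rv R (e c').1 j with hA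
  have hAQ : A = Q.map (Int.castRingHom ℝ) := by
    ext j c'
    rw [Matrix.map_apply]
    simp [hA, hQ, rv, H22.toReal]
  have hdetAQ : A.det = (Q.det : ℝ) := by
    rw [hAQ]
    exact (RingHom.map_det (Int.castRingHom ℝ) Q).symm
  have hsumσ : ∀ x : R → ℝ, ∑ i ∈ σ, x i • rv R i = A.mulVec (fun c' => x (e c').1) := by
    intro x
    rw [← Finset.sum_coe_sort σ (fun i => x i • rv R i), ← Equiv.sum_comp e]
    ext j
    simp only [Finset.sum_apply, Pi.smul_apply, smul_eq_mul, Matrix.mulVec, dotProduct, hA]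
    exact Finset.sum_congr rfl fun c' _ => mul_comm _ _
  have hAdet : A.det ≠ 0 := by
    intro h0
    obtain ⟨x, hx0, hx⟩ := Matrix.exists_mulVec_eq_zero_iff.mpr h0
    apply hx0
    rw [linearIndepOn_finset_iff] at hσ
    set x' : R → ℝ := fun i => if h : i ∈ σ then x (e.symm ⟨i, h⟩) else 0 with hx'
    have h1 : (fun c' => x' (e c').1) = x := by
      funext c'
      simp [hx', (e c').2]
    have h2 := hσ x' (by rw [hsumσ, h1, hx])
    funext c'
    have h3 := h2 (e c').1 (e c').2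
    have h4 := congrFun h1 c'
    rw [← h4]
    exact h3
  have hQdet : Q.det ≠ 0 := by
    intro h0
    apply hAdet
    rw [hdetAQ, h0]; simp
  have hmul : (mulS σ : ℝ) = |A.det| := by
    rw [ZNI_mul e Q (fun _ _ => rfl) hQdet, hdetAQ, Nat.cast_natAbs]
    push_cast
    rfl
  have hinv : ∀ p, A.mulVec (A⁻¹.mulVec p) = p := by
    intro p
    rw [Matrix.mulVec_mulVec, Matrix.mul_nonsing_inv _ (isUnit_iff_ne_zero.mpr hAdet),
      Matrix.one_mulVec]
  have hinv' : ∀ x, A⁻¹.mulVec (A.mulVec x) = x := by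
    intro p
    rw [Matrix.mulVec_mulVec, Matrix.nonsing_inv_mul _ (isUnit_iff_ne_zero.mpr hAdet),
      Matrix.one_mulVec]
  have hset : oCone (rv R) σ = {p | ∀ c', 0 < (A⁻¹.mulVec p) c'} := by
    ext p
    constructor
    · rintro ⟨x, hx, rfl⟩ c'
      rw [hsumσ, hinv']
      exact hx _ (e c').2
    · intro hp
      set x' : R → ℝ := fun i => if h : i ∈ σ then (A⁻¹.mulVec p) (e.symm ⟨i, h⟩) else 0 with hx'
      have h1 : (fun c' => x' (e c').1) = A⁻¹.mulVec p := by
        funext c'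
        simp [hx', (e c').2]
      refine ⟨x', ?_, ?_⟩
      · intro i hi
        simp only [hx', dif_pos hi]
        exact hp _
      · rw [hsumσ, h1, hinv]
  have hmeas : MeasurableSet (oCone (rv R) σ) := by
    rw [hset]
    have h1 : {p : Fin n → ℝ | ∀ c', 0 < (A⁻¹.mulVec p) c'} =
        ⋂ c', {p | 0 < (A⁻¹.mulVec p) c'} := by
      ext p; simp
    rw [h1]
    refine MeasurableSet.iInter fun c' => ?_
    exact measurableSet_lt measurable_const
      ((measurable_pi_apply c').comp (Continuous.matrix_mulVec continuous_const continuous_id).measurable)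
  refine ⟨hmeas, ?_, ?_⟩
  · have hne : ∀ᵐ p : Fin n → ℝ, ∀ c', (A⁻¹.mulVec p) c' ≠ 0 := by
      rw [ae_all_iff]; intro c'
      have hB : (fun c'' => A⁻¹ c' c'') ≠ 0 := by
        intro h0
        have h1 := hinv' (Pi.single c' 1)
        have h2 := congrFun h1 c'
        simp only [Matrix.mulVec, dotProduct, Pi.single_eq_same] at h2
        have h3 : ∀ c'', A⁻¹ c' c'' = 0 := fun c'' => congrFun h0 c''
        simp [h3] at h2
      exact H22.ae_form_ne _ hB
    filter_upwards [hne] with p hp hpc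
    rw [hset]
    obtain ⟨x, hx0, hx⟩ := hpc
    intro c'
    have h1 := hp c'
    rw [hx, hsumσ, hinv'] at h1 ⊢
    exact lt_of_le_of_ne (hx0 _ (e c').2) (Ne.symm h1)
  · intro s hs
    have hw1 : ∀ w : R, (1 : ℝ) ≤ H22.wsum w.1 := by
      intro w
      have h1 : 0 < H22.wsum w.1 := by
        rw [Nat.pos_iff_ne_zero]
        intro h0
        unfold H22.wsum at h0
        rw [Finset.sum_eq_zero_iff] at h0
        exact hR w.1 w.2 (funext fun j => h0 j (Finset.mem_univ _))
      exact_mod_cast h1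
    have hβ : ∀ w : R, (0 : ℝ) < (H22.wsum w.1 : ℝ) + s * ((∑ j, c j * w.1 j : ℕ) : ℝ) := by
      intro w
      have h1 := hw1 w
      have h2 : (0 : ℝ) ≤ ((∑ j, c j * w.1 j : ℕ) : ℝ) := Nat.cast_nonneg _
      have h3 := mul_nonneg hs.le h2
      linarith
    have hpos : 0 < (mulS σ : ℝ) *
        ∏ w ∈ σ, (1 / ((H22.wsum w.1 : ℝ) + s * ((∑ j, c j * w.1 j : ℕ) : ℝ))) := by
      apply mul_pos
      · rw [hmul]; exact abs_pos.2 hAdet
      · exact Finset.prod_pos fun w _ => one_div_pos.2 (hβ w)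
    refine ⟨?_, hpos⟩
    have hrefl : (A.submatrix id (Equiv.refl (Fin n))).det = A.det := rfl
    rw [H22.change_var_real A (Equiv.refl _) (by rw [hrefl]; exact hAdet), hrefl, ← hmul]
    congr 1
    have hpt : ∀ x : Fin n → ℝ, (oCone (rv R) σ).indicator
        (fun k => Real.exp (-∑ j, (1 + s * c j) * k j)) (A.mulVec x) =
        ∏ c', (if 0 < x c' then Real.exp (-(x c' *
          ((H22.wsum (e c').1.1 : ℝ) + s * ((∑ j, c j * (e c').1.1 j : ℕ) : ℝ)))) else 0) := by
      intro x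
      by_cases hx : ∀ c', 0 < x c'
      · have hmemV : A.mulVec x ∈ oCone (rv R) σ := by
          rw [hset]
          intro c'; rw [hinv']; exact hx c'
        rw [Set.indicator_of_mem hmemV]
        have e3 : ∏ c', (if 0 < x c' then Real.exp (-(x c' *
          ((H22.wsum (e c').1.1 : ℝ) + s * ((∑ j, c j * (e c').1.1 j : ℕ) : ℝ)))) else 0) =
            Real.exp (∑ c', -(x c' *
          ((H22.wsum (e c').1.1 : ℝ) + s * ((∑ j, c j * (e c').1.1 j : ℕ) : ℝ)))) := by
          rw [Real.exp_sum]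
          exact Finset.prod_congr rfl fun c' _ => if_pos (hx c')
        rw [e3]
        congr 1
        rw [← Finset.sum_neg_distrib]
        have e4 : ∀ j, -((1 + s * (c j : ℝ)) * (A.mulVec x) j) =
            ∑ c', -((1 + s * (c j : ℝ)) * (((e c').1.1 j : ℝ) * x c')) := by
          intro j
          rw [Finset.sum_neg_distrib, ← Finset.mul_sum]
          rfl
        simp only [e4]
        rw [Finset.sum_comm]
        refine Finset.sum_congr rfl fun c' _ => ?_
        rw [Finset.sum_neg_distrib]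
        congr 1
        unfold H22.wsum
        push_cast
        rw [mul_add, Finset.mul_sum, Finset.mul_sum, Finset.mul_sum, ← Finset.sum_add_distrib]
        exact Finset.sum_congr rfl fun j _ => by ring
      · have hnm : A.mulVec x ∉ oCone (rv R) σ := by
          intro h
          apply hx
          intro c'
          rw [hset] at h
          have := h c'
          rwa [hinv'] at this
        rw [Set.indicator_of_notMem hnm]
        push Not at hx
        obtain ⟨c', hc'⟩ := hx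
        exact (Finset.prod_eq_zero (Finset.mem_univ c') (if_neg (not_lt.mpr hc'))).symm
    simp only [hpt]
    rw [integral_fintype_prod_volume_eq_prod (fun (c' : Fin n) (u : ℝ) =>
      if 0 < u then Real.exp (-(u * ((H22.wsum (e c').1.1 : ℝ) +
        s * ((∑ j, c j * (e c').1.1 j : ℕ) : ℝ)))) else 0)]
    rw [Finset.prod_congr rfl fun c' _ => H22.integral_exp_pos (hβ (e c').1)]
    rw [← Finset.prod_coe_sort σ (fun w : R =>
      1 / ((H22.wsum w.1 : ℝ) + s * ((∑ j, c j * w.1 j : ℕ) : ℝ)))]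
    exact Equiv.prod_comp e (fun w : σ =>
      1 / ((H22.wsum w.1.1 : ℝ) + s * ((∑ j, c j * w.1.1 j : ℕ) : ℝ)))

/-- the sum over one family -/
theorem ZNI_sum {n : ℕ} (R : Finset (Fin n → ℕ)) (hR : ∀ w ∈ R, w ≠ 0) (c : Fin n → ℕ)
    (S : Finset (Finset R))
    (hi : ∀ σ ∈ S, LinearIndepOn ℝ (rv R) (σ : Set R) ∧ σ.card = n)
    (hd : ∀ σ ∈ S, ∀ σ' ∈ S, σ ≠ σ' → Disjoint (oCone (rv R) σ) (oCone (rv R) σ'))
    (s : ℝ) (hs : 0 < s) :
    ∑ σ ∈ S, (mulS σ : ℝ) *
        ∏ w ∈ σ, (1 / ((H22.wsum w.1 : ℝ) + s * ((∑ j, c j * w.1 j : ℕ) : ℝ))) =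
      ∫ k : Fin n → ℝ, {y | ∃ σ ∈ S, y ∈ cCone (rv R) σ}.indicator
        (fun k => Real.exp (-∑ j, (1 + s * c j) * k j)) k := by
  classical
  rw [← Finset.sum_congr rfl fun σ hσ =>
    ((ZNI_cone R hR c σ (hi σ hσ).1 (hi σ hσ).2).2.2 s hs).1]
  rw [← integral_finsetSum]
  · apply integral_congr_ae
    have hae : ∀ᵐ k : Fin n → ℝ, ∀ σ ∈ S, k ∈ cCone (rv R) σ → k ∈ oCone (rv R) σ := by
      rw [Filter.eventually_all_finset]
      intro σ hσ
      exact (ZNI_cone R hR c σ (hi σ hσ).1 (hi σ hσ).2).2.1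
    filter_upwards [hae] with k hk
    by_cases h : ∃ σ ∈ S, k ∈ cCone (rv R) σ
    · have hm : k ∈ {y | ∃ σ ∈ S, y ∈ cCone (rv R) σ} := h
      rw [Set.indicator_of_mem hm]
      obtain ⟨σ, hσ, hkσ⟩ := h
      rw [Finset.sum_eq_single σ, Set.indicator_of_mem (hk σ hσ hkσ)]
      · intro σ' hσ' hne
        apply Set.indicator_of_notMem
        intro hk'
        exact (Set.disjoint_left.mp (hd σ hσ σ' hσ' (Ne.symm hne))) (hk σ hσ hkσ) hk'
      · intro h'; exact absurd hσ h'
    · have hm : k ∉ {y | ∃ σ ∈ S, y ∈ cCone (rv R) σ} := h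
      rw [Set.indicator_of_notMem hm]
      apply Finset.sum_eq_zero
      intro σ hσ
      apply Set.indicator_of_notMem
      rintro ⟨x, hx, hx'⟩
      exact h ⟨σ, hσ, x, fun i hi => (hx i hi).le, hx'⟩
  · intro σ hσ
    have h1 := (ZNI_cone R hR c σ (hi σ hσ).1 (hi σ hσ).2).2.2 s hs
    by_contra h2
    have h3 := integral_undef h2
    rw [h1.1] at h3
    exact absurd h3 h1.2.ne'

/-- ZNI -/
theorem lin_eq {n : ℕ} (R : Finset (Fin n → ℕ)) (hR : ∀ w ∈ R, w ≠ 0) (c : Fin n → ℕ)
    (S S' : Finset (Finset R))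
    (hi : ∀ σ ∈ S, LinearIndepOn ℝ (rv R) (σ : Set R) ∧ σ.card = n)
    (hi' : ∀ σ ∈ S', LinearIndepOn ℝ (rv R) (σ : Set R) ∧ σ.card = n)
    (hd : ∀ σ ∈ S, ∀ σ' ∈ S, σ ≠ σ' → Disjoint (oCone (rv R) σ) (oCone (rv R) σ'))
    (hd' : ∀ σ ∈ S', ∀ σ' ∈ S', σ ≠ σ' → Disjoint (oCone (rv R) σ) (oCone (rv R) σ'))
    (hcov : ∀ y, (∃ σ ∈ S, y ∈ cCone (rv R) σ) ↔ ∃ σ ∈ S', y ∈ cCone (rv R) σ) :
    ∑ σ ∈ S, tmV c σ = ∑ σ ∈ S', tmV c σ := by
  classical
  have hw : ∀ w : R, 0 < H22.wsum w.1 := by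
    intro w
    rw [Nat.pos_iff_ne_zero]
    intro h0
    unfold H22.wsum at h0
    rw [Finset.sum_eq_zero_iff] at h0
    exact hR w.1 w.2 (funext fun j => h0 j (Finset.mem_univ _))
  have hgood : ∀ T : Finset (Finset R), H22.GoodR (∑ σ ∈ T, tmV c σ)
      (fun s => ((∑ σ ∈ T, (mulS σ : ℝ) *
        ∏ w ∈ σ, (1 / ((H22.wsum w.1 : ℝ) + s * ((∑ j, c j * w.1 j : ℕ) : ℝ))) : ℝ) : ℂ)) := by
    intro T
    refine H22.GoodR.congr (H22.GoodR.sum _ fun σ _ => (H22.GoodR.natCast _).mul
      (H22.GoodR.prod _ fun w _ => H22.GoodR.inv_linear (hw w))) ?_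
    intro s _
    push_cast
    rfl
  refine ZNI_goodR_unique (hgood S) (H22.GoodR.congr (hgood S') ?_)
  intro s hs
  rw [ZNI_sum R hR c S hi hd s hs, ZNI_sum R hR c S' hi' hd' s hs]
  congr 2
  funext k
  congr 1
  ext y
  exact hcov y

end Pool.Agent.H56.SMC

end S_ZNI
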