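import Mathlib
import Pool.Agent.H56.SMC.ZNDefs
import Pool.Agent.H37.SM.ZMU
import Pool.Agent.H22.VolAdd

/-! Strong monodromy for nondegenerate polynomials, part Z3: this file joins the modules ZNL, ZNLV. -/

set_option autoImplicit false

section S_ZNL

/-!
# ZNL: multiplicities, volumes and ranks of pyramids of height one

Proof.  `mulS_insert`: `latIndex_insert` (`Pool.Agent.H37.SM.ZMU`) for the family indexed by `Option B`, as in `faceVol_insert` of `Pool.Agent.H37.SM.ZTR` (there for `n = 3`).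
`faceVol_pyr`: the same proof as `faceVol_insert` of `ZTR`.  `faceRank_pyr`: the coordinate `k` vanishes on the span of the rows of `τ`, and not on the row of `p`.
`faceRank_single`: the span of one nonzero vector.  `rank_one`: two rows `(1, a_i)`, `(1, a_l)` in a line are equal.  `nvol_single`: the simplices of `𝒯` are subsets of `{q}` with one element, there is exactly one by `cover`; `faceVol a {q} = 1` (`faceVol_pyr`-like argument for the empty set, see `faceVol_pair` in `ZTR`; it is `latIndex` of one primitive vector `(1, a_q)`: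
`latIndex_insert` with the functional `y ↦ y_0`).
-/

set_option autoImplicit false

namespace Pool.Agent.H56.SMC

open Finset H60.RegTri

/-- multiplicity of a cone with one generator at height one over the others -/
theorem mulS_insert {n : ℕ} {R : Finset (Fin n → ℕ)} (B : Finset R) (e : R) (he : e ∉ B)
    (φ : Fin n → ℤ) (hB : ∀ w ∈ B, ∑ j, φ j * ((w.1 j : ℕ) : ℤ) = 0)
    (h1 : ∑ j, φ j * ((e.1 j : ℕ) : ℤ) = 1 ∨ ∑ j, φ j * ((e.1 j : ℕ) : ℤ) = -1) :
    mulS (insert e B) = mulS B := by
  classical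
  have _ := he
  set v : Option B → (Fin n → ℤ) := fun o =>
    o.elim (fun j => ((e.1 j : ℕ) : ℤ)) (fun w j => ((w.1.1 j : ℕ) : ℤ)) with hv
  have h2 : mulS (insert e B) = H22.latIndex v := by
    unfold mulS H22.latIndex
    have h3 : Set.range (fun (w : (insert e B : Finset R)) (j : Fin n) => ((w.1.1 j : ℕ) : ℤ)) =
        Set.range v := by
      ext z
      simp only [Set.mem_range]
      constructor
      · rintro ⟨⟨l, hl⟩, rfl⟩
        rcases Finset.mem_insert.1 hl with rfl | hl'
        · exact ⟨none, rfl⟩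
        · exact ⟨some ⟨l, hl'⟩, rfl⟩
      · rintro ⟨o, rfl⟩
        cases o with
        | none => exact ⟨⟨e, Finset.mem_insert_self _ _⟩, rfl⟩
        | some l => exact ⟨⟨l.1, Finset.mem_insert_of_mem l.2⟩, rfl⟩
    rw [h3]
  rw [h2]
  let Φ : (Fin n → ℤ) →ₗ[ℤ] ℤ := ∑ j, φ j • LinearMap.proj j
  have hΦ : ∀ z, Φ z = ∑ j, φ j * z j := by
    intro z
    simp [Φ, LinearMap.sum_apply]
  exact H37.SM.latIndex_insert v Φ (fun l => by rw [hΦ]; exact hB l.1 l.2) (by rw [hΦ]; exact h1)

theorem faceVol_pyr {n r : ℕ} (a : Fin r → (Fin n →₀ ℕ)) (σ : Finset (Fin r)) (p : Fin r)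
    (hp : p ∉ σ) (k : Fin n) (h0 : ∀ i ∈ σ, a i k = 0) (h1 : a p k = 1) :
    H22.faceVol a (insert p σ) = H22.faceVol a σ := by
  classical
  have _ := hp
  set v : Option σ → (Unit ⊕ Fin n → ℤ) := fun o =>
    o.elim (H22.homRow a p) (fun l => H22.homRow a l) with hv
  have h2 : H22.faceVol a (insert p σ) = H22.latIndex v := by
    unfold H22.faceVol H22.latIndex
    have h3 : Set.range (fun l : (insert p σ : Finset (Fin r)) => H22.homRow a l) =
        Set.range v := by
      ext z
      simp only [Set.mem_range]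
      constructor
      · rintro ⟨⟨l, hl⟩, rfl⟩
        rcases Finset.mem_insert.1 hl with rfl | hl'
        · exact ⟨none, rfl⟩
        · exact ⟨some ⟨l, hl'⟩, rfl⟩
      · rintro ⟨o, rfl⟩
        cases o with
        | none => exact ⟨⟨p, Finset.mem_insert_self _ _⟩, rfl⟩
        | some l => exact ⟨⟨l, Finset.mem_insert_of_mem l.2⟩, rfl⟩
    rw [h3]
  rw [h2]
  let Φ : (Unit ⊕ Fin n → ℤ) →ₗ[ℤ] ℤ := LinearMap.proj (Sum.inr k)
  refine H37.SM.latIndex_insert v Φ ?_ ?_
  · intro l
    simp [Φ, v, H22.homRow, h0 l l.2]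
  · left
    simp [Φ, v, H22.homRow, h1]

theorem faceRank_pyr {n r : ℕ} (a : Fin r → (Fin n →₀ ℕ)) (τ : Finset (Fin r)) (p : Fin r)
    (k : Fin n) (h0 : ∀ i ∈ τ, a i k = 0) (h1 : a p k ≠ 0) :
    H22.faceRank a (insert p τ) = H22.faceRank a τ + 1 := by
  classical
  unfold H22.faceRank
  set S := Submodule.span ℝ (H22.rowR a '' (τ : Set (Fin r))) with hS
  set T := Submodule.span ℝ {H22.rowR a p} with hT
  have e1 : Submodule.span ℝ (H22.rowR a '' ((insert p τ : Finset (Fin r)) : Set (Fin r))) =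
      S ⊔ T := by
    rw [Finset.coe_insert, Set.image_insert_eq, Submodule.span_insert, sup_comm]
  let f : (Unit ⊕ Fin n → ℝ) →ₗ[ℝ] ℝ := LinearMap.proj (Sum.inr k)
  have hfS : ∀ z ∈ S, f z = 0 := by
    intro z hz
    have : S ≤ LinearMap.ker f := by
      apply Submodule.span_le.2
      rintro _ ⟨i, hi, rfl⟩
      have := h0 i hi
      simp [f, H22.rowR, this]
    exact this hz
  have hfp : f (H22.rowR a p) ≠ 0 := by
    simpa [f, H22.rowR] using h1
  have hp0 : H22.rowR a p ≠ 0 := by
    intro h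
    rw [h, map_zero] at hfp
    exact hfp rfl
  have hinf : S ⊓ T = ⊥ := by
    rw [eq_bot_iff]
    rintro z ⟨hz1, hz2⟩
    obtain ⟨c, rfl⟩ := Submodule.mem_span_singleton.1 hz2
    have := hfS _ hz1
    rw [map_smul, smul_eq_mul] at this
    rw [(mul_eq_zero.1 this).resolve_right hfp, zero_smul]
    exact Submodule.zero_mem _
  have h3 := Submodule.finrank_sup_add_finrank_inf_eq S T
  rw [hinf, finrank_bot, add_zero, hT, finrank_span_singleton hp0] at h3
  rw [e1]
  exact h3

theorem ZNL_row_ne {n r : ℕ} (a : Fin r → (Fin n →₀ ℕ)) (p : Fin r) : H22.rowR a p ≠ 0 := by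
  intro h
  have := congrFun h (Sum.inl ())
  simp [H22.rowR] at this

theorem faceRank_single {n r : ℕ} (a : Fin r → (Fin n →₀ ℕ)) (p : Fin r) :
    H22.faceRank a {p} = 1 := by
  unfold H22.faceRank
  rw [Finset.coe_singleton, Set.image_singleton, finrank_span_singleton (ZNL_row_ne a p)]

theorem rank_one {n r : ℕ} (a : Fin r → (Fin n →₀ ℕ)) (ha : Function.Injective a)
    (τ : Finset (Fin r)) (hτ : τ.Nonempty) (h1 : H22.faceRank a τ = 1) : ∃ p, τ = {p} := by
  obtain ⟨p, hp⟩ := hτ
  refine ⟨p, Finset.eq_singleton_iff_unique_mem.2 ⟨hp, fun l hl => ?_⟩⟩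
  unfold H22.faceRank at h1
  have hle : Submodule.span ℝ {H22.rowR a p} ≤
      Submodule.span ℝ (H22.rowR a '' (τ : Set (Fin r))) := by
    apply Submodule.span_mono
    rintro _ rfl
    exact ⟨p, hp, rfl⟩
  have heq := Submodule.eq_of_le_of_finrank_eq hle (by
    rw [finrank_span_singleton (ZNL_row_ne a p), h1])
  have hl2 : H22.rowR a l ∈ Submodule.span ℝ {H22.rowR a p} := by
    rw [heq]
    exact Submodule.subset_span ⟨l, hl, rfl⟩
  obtain ⟨c, hc⟩ := Submodule.mem_span_singleton.1 hl2
  have hc1 : c = 1 := by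
    have := congrFun hc (Sum.inl ())
    simpa [H22.rowR] using this
  rw [hc1, one_smul] at hc
  apply ha
  ext j
  have := congrFun hc (Sum.inr j)
  simp only [H22.rowR, Sum.elim_inr, Nat.cast_inj] at this
  exact this.symm

theorem ZNL_faceVol_single {n r : ℕ} (a : Fin r → (Fin n →₀ ℕ)) (p : Fin r) :
    H22.faceVol a {p} = 1 := by
  classical
  unfold H22.faceVol H22.latIndex
  rw [Nat.card_eq_one_iff_unique]
  refine ⟨⟨?_⟩, ⟨0⟩⟩
  have hr : Set.range (fun i : ({p} : Finset (Fin r)) => H22.homRow a i) = {H22.homRow a p} := by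
    ext z
    simp only [Set.mem_range, Set.mem_singleton_iff]
    constructor
    · rintro ⟨⟨l, hl⟩, rfl⟩
      have h5 := Finset.mem_singleton.1 hl
      subst h5
      rfl
    · rintro rfl
      exact ⟨⟨p, Finset.mem_singleton_self _⟩, rfl⟩
  have key : ∀ q : Submodule.torsion ℤ ((Unit ⊕ Fin n → ℤ) ⧸
      Submodule.span ℤ (Set.range (fun l : ({p} : Finset (Fin r)) => H22.homRow a l))),
      q = 0 := by
    rintro ⟨q, hq⟩
    obtain ⟨z, rfl⟩ := Submodule.mkQ_surjective _ q
    rw [Submodule.mem_torsion_iff] at hq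
    obtain ⟨⟨m, hm⟩, h⟩ := hq
    have hm0 : m ≠ 0 := nonZeroDivisors.ne_zero hm
    have h2 : Submodule.mkQ (Submodule.span ℤ (Set.range
        (fun l : ({p} : Finset (Fin r)) => H22.homRow a l))) (m • z) = 0 := by
      rw [map_smul]; exact h
    rw [Submodule.mkQ_apply, Submodule.Quotient.mk_eq_zero, hr,
      Submodule.mem_span_singleton] at h2
    obtain ⟨c, hc⟩ := h2
    apply Subtype.ext
    change Submodule.mkQ _ z = 0
    rw [Submodule.mkQ_apply, Submodule.Quotient.mk_eq_zero, hr, Submodule.mem_span_singleton]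
    have hc0 : c = m * z (Sum.inl ()) := by
      have := congrFun hc (Sum.inl ())
      simpa [H22.homRow] using this
    refine ⟨z (Sum.inl ()), ?_⟩
    have h3 : m • (z (Sum.inl ()) • H22.homRow a p) = m • z := by
      rw [← hc, hc0, smul_smul]
    exact smul_right_injective _ hm0 h3
  intro q q'
  rw [key q, key q']

theorem nvol_single {n r : ℕ} (a : Fin r → (Fin n →₀ ℕ)) (p : Fin r)
    (𝒯 : H22.FaceTriang a {p}) : H22.nvol 𝒯 = 1 := by
  classical
  have hall : ∀ σ ∈ 𝒯.S, σ = {p} := by
    intro σ hσ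
    apply Finset.eq_of_subset_of_card_le (𝒯.sub σ hσ)
    rw [𝒯.card σ hσ, faceRank_single, Finset.card_singleton]
  obtain ⟨σ, hσ, -⟩ := 𝒯.cover (H22.pointR a p) (subset_convexHull ℝ _ ⟨p, by simp, rfl⟩)
  have hS : 𝒯.S = {{p}} := by
    apply Finset.eq_singleton_iff_unique_mem.2
    exact ⟨hall σ hσ ▸ hσ, hall⟩
  unfold H22.nvol
  rw [hS, Finset.sum_singleton, ZNL_faceVol_single]

end Pool.Agent.H56.SMC

end S_ZNL

section S_ZNLV

/-!
# ZNLV: the normalised volume of a pyramid of height one

`nvol_pyr`: every simplex `σ` of `𝒯` contains `p` (otherwise `σ ⊆ τ`, its rank is at most `faceRank a τ < faceRank a (insert p τ)`).  The family of the `σ.erase p` is a `GoodFam a τ` (`Pool.Agent.H22.VolAdd`; `FaceTriang.goodFam` there gives the `GoodFam` of `𝒯` and of `𝒯'`; the open cones of `σ.erase p`, `σ'.erase p` are disjoint because adding `(1, a_p)` to a common point gives a common point of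
the open cones of `σ`, `σ'`; `cover`: for `x` on `τ` generic apply `cover` of the `GoodFam` of `𝒯` to `x` extended by `1` at `p`: genericity: if `y + (1,a_p)` is in the span of the rows of `s`, `s.card < rank`, then, by the coordinate `k`, `p ∈ s` and `y` is in the span of `s.erase p`; the coefficient at `p` of the representation in `posCone σ` is `1` by the coordinate `k`).  So
`nvol 𝒯' = ∑ faceVol (σ.erase p) = ∑ faceVol σ = nvol 𝒯` by `GoodFam.sum_eq` and `faceVol_pyr`.
-/

set_option autoImplicit false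

namespace Pool.Agent.H56.SMC

open Finset H60.RegTri

theorem znlv_coord {n r : ℕ} (a : Fin r → (Fin n →₀ ℕ)) (k : Fin n) (s : Finset (Fin r))
    (x : Fin r → ℝ) :
    (∑ i ∈ s, x i • H22.rowR a i) (Sum.inr k) = ∑ i ∈ s, x i * (a i k : ℝ) := by
  simp [Finset.sum_apply, H22.rowR]

/-- the coordinate `k` of a combination of the rows of a subset of `insert p τ` -/
theorem znlv_coord' {n r : ℕ} (a : Fin r → (Fin n →₀ ℕ)) (τ : Finset (Fin r))
    (p : Fin r) (k : Fin n) (h0 : ∀ i ∈ τ, a i k = 0) (h1 : a p k = 1) (s : Finset (Fin r))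
    (hs : s ⊆ insert p τ) (x : Fin r → ℝ) :
    (∑ i ∈ s, x i • H22.rowR a i) (Sum.inr k) = if p ∈ s then x p else 0 := by
  classical
  rw [znlv_coord]
  have h : ∀ i ∈ s, x i * (a i k : ℝ) = if i = p then x p else 0 := by
    intro i hi
    by_cases hip : i = p
    · subst hip
      rw [h1, if_pos rfl]
      simp
    · rw [if_neg hip, h0 i]
      · simp
      · rcases Finset.mem_insert.1 (hs hi) with h | h
        · exact absurd h hip
        · exact h
  rw [Finset.sum_congr rfl h, Finset.sum_ite_eq']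

theorem znlv_add {n r : ℕ} (a : Fin r → (Fin n →₀ ℕ)) (σ : Finset (Fin r)) (p : Fin r)
    (hp : p ∈ σ) (x : Fin r → ℝ) (hx : x p = 1) :
    ∑ i ∈ σ, x i • H22.rowR a i = H22.rowR a p + ∑ i ∈ σ.erase p, x i • H22.rowR a i := by
  rw [← Finset.add_sum_erase σ _ hp, hx, one_smul]

/-- ZNL -/
theorem nvol_pyr {n r : ℕ} (a : Fin r → (Fin n →₀ ℕ)) (τ : Finset (Fin r)) (hτ : τ.Nonempty)
    (p : Fin r) (k : Fin n) (h0 : ∀ i ∈ τ, a i k = 0) (h1 : a p k = 1)
    (𝒯 : H22.FaceTriang a (insert p τ)) (𝒯' : H22.FaceTriang a τ) :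
    H22.nvol 𝒯 = H22.nvol 𝒯' := by
  classical
  have hpτ : p ∉ τ := fun h => by
    have := h0 p h
    omega
  have hrk : H22.faceRank a (insert p τ) = H22.faceRank a τ + 1 :=
    faceRank_pyr a τ p k h0 (by omega)
  have hG := 𝒯.goodFam (Finset.insert_nonempty p τ)
  -- every simplex contains `p`
  have hmem : ∀ σ ∈ 𝒯.S, p ∈ σ := by
    intro σ hσ
    by_contra hps
    have hsub : σ ⊆ τ := fun i hi => by
      rcases Finset.mem_insert.1 (𝒯.sub σ hσ hi) with h | h
      · exact absurd (h ▸ hi) hps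
      · exact h
    have hc := 𝒯.card σ hσ
    rw [hrk] at hc
    have h4 : H22.rowR a '' (σ : Set (Fin r)) = Set.range (fun i : σ => H22.rowR a i) := by
      ext y
      simp
    have h5 : Module.finrank ℝ (Submodule.span ℝ (H22.rowR a '' (σ : Set (Fin r)))) = σ.card := by
      rw [h4, finrank_span_eq_card (𝒯.indep σ hσ), Fintype.card_coe]
    have h6 : σ.card ≤ H22.faceRank a τ := by
      rw [← h5]
      exact Submodule.finrank_mono (Submodule.span_mono (Set.image_mono (by exact_mod_cast hsub)))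
    omega
  have hsubE : ∀ σ ∈ 𝒯.S, σ.erase p ⊆ τ := by
    intro σ hσ i hi
    rcases Finset.mem_insert.1 (𝒯.sub σ hσ (Finset.mem_of_mem_erase hi)) with h | h
    · exact absurd h (Finset.ne_of_mem_erase hi)
    · exact h
  have hinj : Set.InjOn (fun σ : Finset (Fin r) => σ.erase p) (𝒯.S : Set (Finset (Fin r))) := by
    intro σ hσ σ' hσ' h
    have h' : σ.erase p = σ'.erase p := h
    rw [← Finset.insert_erase (hmem σ hσ), ← Finset.insert_erase (hmem σ' hσ'), h']
  set F' : Finset (Finset (Fin r)) := 𝒯.S.image fun σ => σ.erase p with hF'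
  have hmemF' : ∀ σ', σ' ∈ F' ↔ ∃ σ ∈ 𝒯.S, σ.erase p = σ' := by
    intro σ'
    rw [hF', Finset.mem_image]
  -- `y + (1, a_p)` in the open cone of `σ`
  have hcone : ∀ σ ∈ 𝒯.S, ∀ y, y ∈ H22.posCone (H22.rowR a) (σ.erase p) →
      H22.rowR a p + y ∈ H22.posCone (H22.rowR a) σ := by
    rintro σ hσ y ⟨x, hx, rfl⟩
    refine ⟨Function.update x p 1, fun i hi => ?_, ?_⟩
    · by_cases hip : i = p
      · subst hip
        rw [Function.update_self]
        exact one_pos
      · rw [Function.update_of_ne hip]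
        exact hx i (Finset.mem_erase.2 ⟨hip, hi⟩)
    · rw [znlv_add a σ p (hmem σ hσ) _ (Function.update_self _ _ _)]
      congr 1
      refine Finset.sum_congr rfl fun i hi => ?_
      rw [Function.update_of_ne (Finset.ne_of_mem_erase hi)]
  have hGF' : H22.GoodFam a τ F' := by
    refine ⟨?_, ?_, ?_, ?_, ?_⟩
    · intro σ' hσ'
      obtain ⟨σ, hσ, rfl⟩ := (hmemF' σ').1 hσ'
      exact hsubE σ hσ
    · intro σ' hσ'
      obtain ⟨σ, hσ, rfl⟩ := (hmemF' σ').1 hσ'
      rw [Finset.card_erase_of_mem (hmem σ hσ), 𝒯.card σ hσ, hrk]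
      rfl
    · intro σ' hσ'
      obtain ⟨σ, hσ, rfl⟩ := (hmemF' σ').1 hσ'
      have h2 : LinearIndepOn ℝ (H22.rowR a) (σ : Set (Fin r)) := 𝒯.indep σ hσ
      have h3 : LinearIndepOn ℝ (H22.rowR a) ((σ.erase p : Finset (Fin r)) : Set (Fin r)) :=
        h2.mono (by
          intro i hi
          exact Finset.mem_of_mem_erase (Finset.mem_coe.1 hi))
      exact h3
    · intro σ1 hσ1 σ2 hσ2 hne
      obtain ⟨σ, hσ, rfl⟩ := (hmemF' σ1).1 hσ1
      obtain ⟨σ', hσ', rfl⟩ := (hmemF' σ2).1 hσ2
      rw [Set.disjoint_left]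
      intro y hy hy'
      have hne' : σ ≠ σ' := fun h => hne (by rw [h])
      exact Set.disjoint_left.1 (hG.disj σ hσ σ' hσ' hne') (hcone σ hσ y hy) (hcone σ' hσ' y hy')
    · intro x hx hgen
      set y := ∑ i ∈ τ, x i • H22.rowR a i with hy
      have hyk : y (Sum.inr k) = 0 := by
        rw [hy, znlv_coord]
        exact Finset.sum_eq_zero fun i hi => by rw [h0 i hi]; simp
      have hpk : H22.rowR a p (Sum.inr k) = 1 := by
        simp [H22.rowR, h1]
      have hsum : ∑ i ∈ insert p τ, (Function.update x p 1) i • H22.rowR a i =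
          H22.rowR a p + y := by
        rw [znlv_add a _ p (Finset.mem_insert_self p τ) _ (Function.update_self _ _ _),
          Finset.erase_insert hpτ]
        congr 1
        refine Finset.sum_congr rfl fun i hi => ?_
        have hip : i ≠ p := by
          rintro rfl
          exact hpτ hi
        rw [Function.update_of_ne hip]
      obtain ⟨σ, hσ, x', hx', hyx'⟩ := hG.cover (Function.update x p 1) (fun i hi => by
        by_cases hip : i = p
        · subst hip
          rw [Function.update_self]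
          exact zero_le_one
        · rw [Function.update_of_ne hip]
          rcases Finset.mem_insert.1 hi with h | h
          · exact absurd h hip
          · exact hx i h) (by
        intro s hs hsc hspan
        rw [hsum] at hspan
        obtain ⟨b, hb⟩ := (mem_span_iff (H22.rowR a) s _).1 hspan
        have h2 := congrFun hb (Sum.inr k)
        rw [znlv_coord' a τ p k h0 h1 s hs b, Pi.add_apply, hyk, hpk, add_zero] at h2
        by_cases hps : p ∈ s
        · rw [if_pos hps] at h2
          rw [znlv_add a s p hps b h2.symm] at hb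
          have hb' := add_left_cancel hb
          refine hgen (s.erase p) ?_ ?_ ?_
          · intro i hi
            rcases Finset.mem_insert.1 (hs (Finset.mem_of_mem_erase hi)) with h | h
            · exact absurd h (Finset.ne_of_mem_erase hi)
            · exact h
          · rw [Finset.card_erase_of_mem hps]
            have : 0 < s.card := Finset.card_pos.2 ⟨p, hps⟩
            omega
          · exact (mem_span_iff (H22.rowR a) (s.erase p) _).2 ⟨b, hb'⟩
        · rw [if_neg hps] at h2
          exact one_ne_zero h2)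
      rw [hsum] at hyx'
      refine ⟨σ.erase p, (hmemF' _).2 ⟨σ, hσ, rfl⟩, x',
        fun i hi => hx' i (Finset.mem_of_mem_erase hi), ?_⟩
      have h2 := congrFun hyx' (Sum.inr k)
      rw [znlv_coord' a τ p k h0 h1 σ (𝒯.sub σ hσ) x', Pi.add_apply, hyk, hpk, add_zero,
        if_pos (hmem σ hσ)] at h2
      rw [znlv_add a σ p (hmem σ hσ) x' h2.symm] at hyx'
      exact add_left_cancel hyx'
  obtain ⟨σ₀, hσ₀, -⟩ := 𝒯.cover (H22.pointR a p)
    (subset_convexHull ℝ _ ⟨p, by simp, rfl⟩)
  have hfin := hGF'.sum_eq (𝒯'.goodFam hτ) ((hmemF' _).2 ⟨σ₀, hσ₀, rfl⟩)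
  have hsumF : ∑ σ' ∈ F', H22.faceVol a σ' = ∑ σ ∈ 𝒯.S, H22.faceVol a σ := by
    rw [hF', Finset.sum_image hinj]
    refine Finset.sum_congr rfl fun σ hσ => ?_
    have h2 := faceVol_pyr a (σ.erase p) p (Finset.notMem_erase p σ) k
      (fun i hi => h0 i (hsubE σ hσ hi)) h1
    rw [Finset.insert_erase (hmem σ hσ)] at h2
    exact h2.symm
  unfold H22.nvol
  rw [← hsumF]
  exact hfin

end Pool.Agent.H56.SMC

end S_ZNLV
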