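import Mathlib
import Pool.Agent.H56.SL.Z2
import Pool.Agent.H56.SL.Z3

/-! Strong monodromy for nondegenerate polynomials, part Z4: this file joins the modules ZNQD, ZNQU, ZNF. -/

set_option autoImplicit false

section S_ZNQD

/-!
# ZNQD: from the base to the pyramid

Notation: `e = eN k0`.  `B1 a w k0`: all exponents on the face of `w` have `a_k0 = 0`, except one, `p_w`, which has `a_k0 = 1`; `w k0 ≠ 0`.  If `toReal w ∈ minCone a τ` then every `i ∈ τ` is on the face of `w` (`H22.wmin_eq`).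
`pair_down`: `e ∈ raysIn a R τ'` as `a_i k0 = 0` on `τ'`, `e ∈ σ` by `low_mem` (span: `upT_span`).  Let `x = ∑_{i ∈ σ.erase e} rv i`.  The critical `w ∈ σ` is different from `e` (`wmin a e = 0`), so `x k0 ≥ w k0 ≥ 1`.  By `low_pt` (`ℓ = ∑ proj`) `x - ε e ∉ cCone (raysIn a R τ')`, so `x - ε e ∉ minCone a τ'` (`hR.gen`) for all `ε > 0`.
If all `l` with `a_l k0 > 0` had `a_l·x > a_q·x` (`q ∈ τ'`), then `x - ε e ∈ minCone a τ'` for small `ε`.  So there is `l` with `a_l k0 > 0` and `a_l·x = a_q·x`.  Let `τ` be the set of all exponents minimal at `x` (`IsFace` with `k = x`).  `i ∈ τ` iff `i` is minimal at all elements of `σ.erase e` (they lie in `minCone a τ'`, sum of nonnegative terms).  So `τ` is contained in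
the face of `w`, `l ∈ τ`, and `τ = insert p (τ.filter (a_k0 = 0))`, `p = l`.  `τ' ⊆ τ.filter (a_k0 = 0)`; conversely if `i ∈ τ`, `a_i k0 = 0`, then `a_i - a_q` vanishes on `σ.erase e` and on `e`, hence on the span of `σ`, which contains `minCone a τ'` (`upT_span`), in particular on the weight vector with minimal set exactly `τ'` (`hF`): `i ∈ τ'`.  `σ.erase e ⊆ raysIn a R τ`, it is upper there:
for `l ∈ raysIn a R τ` (`⊆ raysIn a R τ'`), `l ∉ σ.erase e`, we have `l ≠ e` (as `e ∉ minCone a τ`: `a_p k0 = 1 > a_q k0`), and a relation `v_l = ∑_{σ.erase e} β_i v_i` is one over `σ` with `β_e = 0`.  Cardinality: `faceRank_pyr`.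
-/

set_option autoImplicit false

namespace Pool.Agent.H56.SMC

open Finset H60.RegTri

theorem znqd_dot_add {n : ℕ} (c x y : Fin n → ℝ) :
    ∑ j, c j * (x + y) j = ∑ j, c j * x j + ∑ j, c j * y j := by
  rw [← Finset.sum_add_distrib]
  refine Finset.sum_congr rfl fun j _ => ?_
  rw [Pi.add_apply]
  ring

theorem znqd_dot_sum {n : ℕ} {ι : Type*} (c : Fin n → ℝ) (s : Finset ι) (v : ι → Fin n → ℝ) :
    ∑ j, c j * (∑ i ∈ s, v i) j = ∑ i ∈ s, ∑ j, c j * v i j := by
  rw [Finset.sum_comm]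
  refine Finset.sum_congr rfl fun j _ => ?_
  rw [Finset.sum_apply, Finset.mul_sum]

theorem znqd_rv_e {n : ℕ} (R : Finset (Fin n → ℕ)) (k0 : Fin n) (h : eN k0 ∈ R) (j : Fin n) :
    rv R ⟨eN k0, h⟩ j = if j = k0 then 1 else 0 := by
  simp only [rv, H22.toReal, eN, Pi.single_apply]
  split_ifs <;> simp

theorem znqd_dot_e {n : ℕ} (R : Finset (Fin n → ℕ)) (k0 : Fin n) (h : eN k0 ∈ R)
    (c : Fin n → ℝ) : ∑ j, c j * rv R ⟨eN k0, h⟩ j = c k0 := by
  rw [Finset.sum_eq_single k0]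
  · rw [znqd_rv_e, if_pos rfl, mul_one]
  · intro j _ hj
    rw [znqd_rv_e, if_neg hj, mul_zero]
  · intro hk
    exact absurd (Finset.mem_univ k0) hk

theorem znqd_eps {r : ℕ} (d : Fin r → ℝ) (hd : ∀ l, 0 < d l) :
    ∃ ε : ℝ, 0 < ε ∧ ε ≤ 1 ∧ ∀ l, ε ≤ d l := by
  rcases isEmpty_or_nonempty (Fin r) with hE | hN
  · exact ⟨1, one_pos, le_rfl, fun l => (IsEmpty.false l).elim⟩
  · obtain ⟨l0, hl0⟩ := Finite.exists_min d
    exact ⟨min 1 (d l0), lt_min one_pos (hd l0), min_le_left _ _,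
      fun l => (min_le_right _ _).trans (hl0 l)⟩

theorem znqd_ell {n : ℕ} {r : ℕ} (a : Fin r → (Fin n →₀ ℕ)) (R : Finset (Fin n → ℕ))
    (hR : RaySet a R) (i : R) :
    0 < (∑ j, (LinearMap.proj j : (Fin n → ℝ) →ₗ[ℝ] ℝ)) (rv R i) := by
  rw [LinearMap.sum_apply]
  have hne : i.1 ≠ 0 := (hR.facet i.1 i.2).1
  obtain ⟨j, hj⟩ := Function.ne_iff.mp hne
  refine Finset.sum_pos' (fun j _ => ?_) ⟨j, Finset.mem_univ j, ?_⟩
  · simp [rv, H22.toReal]
  · simp only [rv, H22.toReal, LinearMap.proj_apply]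
    exact_mod_cast Nat.pos_of_ne_zero hj

theorem pair_down {n r : ℕ} (a : Fin r → (Fin n →₀ ℕ)) (R : Finset (Fin n → ℕ))
    (hR : RaySet a R) (s0 : ℂ) (k0 : Fin n) (hp hm : R → ℝ)
    (ht : TopBot (rv R) ⟨eN k0, hR.unit k0⟩ hp hm) (τ' : Finset (Fin r))
    (hF : H22.IsFace a τ') (hne : τ'.Nonempty) (h0 : ∀ i ∈ τ', a i k0 = 0)
    (hcrit : ∀ w ∈ R, CritW a s0 w → H22.toReal w ∈ H22.minCone a τ' → B1 a w k0)
    (σ : Finset R) (hσ : σ ∈ upT R hp (raysIn a R τ') (n + 1 - H22.faceRank a τ'))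
    (hc : ∃ w ∈ σ, CritW a s0 w.1) :
    ⟨eN k0, hR.unit k0⟩ ∈ σ ∧ ∃ τ ∈ PP a R s0 k0, τ.filter (fun i => a i k0 = 0) = τ' ∧
      σ.erase ⟨eN k0, hR.unit k0⟩ ∈ upT R hp (raysIn a R τ) (n + 1 - H22.faceRank a τ) := by
  classical
  set e : R := ⟨eN k0, hR.unit k0⟩ with he
  have heval : ∀ c : Fin n → ℝ, ∑ j, c j * rv R e j = c k0 := fun c => znqd_dot_e R k0 _ c
  obtain ⟨hup, hcard⟩ := mem_upT.mp hσ
  obtain ⟨hsub, hind, hupper⟩ := hup
  obtain ⟨q0, hq0⟩ := hne
  have hcone : ∀ u ∈ σ, rv R u ∈ H22.minCone a τ' := fun u hu => mem_raysIn.mp (hsub hu)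
  -- `e` lies in the cone
  have heG : e ∈ raysIn a R τ' := by
    rw [mem_raysIn]
    refine ⟨fun j => ?_, fun i hi l => ?_⟩
    · rw [he, znqd_rv_e]
      split_ifs <;> norm_num
    · rw [heval, heval, h0 i hi]
      simp
  have hspan : ∀ k ∈ H22.minCone a τ', k ∈ Submodule.span ℝ (rv R '' (σ : Set R)) :=
    fun k hk => upT_span a R τ' ⟨q0, hq0⟩ σ hsub hind hcard k hk
  have heσ : e ∈ σ := low_mem (rv R) e hp hm ht (raysIn a R τ') heG σ ⟨hsub, hind, hupper⟩
    (hspan _ (mem_raysIn.mp heG))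
  refine ⟨heσ, ?_⟩
  set x : Fin n → ℝ := ∑ i ∈ σ.erase e, rv R i with hx
  have hcone0 : ∀ u ∈ σ.erase e, rv R u ∈ H22.minCone a τ' :=
    fun u hu => hcone u (Finset.mem_of_mem_erase hu)
  have hxdot : ∀ c : Fin n → ℝ, ∑ j, c j * x j = ∑ u ∈ σ.erase e, ∑ j, c j * rv R u j := by
    intro c
    rw [hx, znqd_dot_sum]
  have hxcone : x ∈ H22.minCone a τ' := by
    refine ⟨fun j => ?_, fun i hi l => ?_⟩
    · rw [hx, Finset.sum_apply]
      exact Finset.sum_nonneg fun u hu => (hcone0 u hu).1 j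
    · rw [hxdot (fun j => (a i j : ℝ)), hxdot (fun j => (a l j : ℝ))]
      exact Finset.sum_le_sum fun u hu => (hcone0 u hu).2 i hi l
  -- the critical element
  obtain ⟨w, hwσ, hw⟩ := hc
  have hwe : w ≠ e := by
    intro h
    have h1 : H22.wmin a w.1 = 0 := by
      rw [H22.wmin_eq (a := a) (σ := τ') (w := w.1) (hcone w hwσ) hq0, h]
      refine Finset.sum_eq_zero fun j _ => ?_
      rw [he]
      simp only [eN, Pi.single_apply]
      split_ifs with hj
      · rw [hj, h0 q0 hq0]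
        simp
      · simp
    exact absurd hw.2.1 (by rw [h1]; exact lt_irrefl 0)
  have hwσ0 : w ∈ σ.erase e := Finset.mem_erase.mpr ⟨hwe, hwσ⟩
  obtain ⟨hwk, i1, hi1, hi1k, hi1o⟩ := hcrit w.1 w.2 hw (hcone w hwσ)
  have hxk : 1 ≤ x k0 := by
    rw [hx, Finset.sum_apply]
    refine le_trans ?_ (Finset.single_le_sum (f := fun u => rv R u k0)
      (fun u hu => (hcone0 u hu).1 k0) hwσ0)
    simp only [rv, H22.toReal]
    exact_mod_cast Nat.one_le_iff_ne_zero.mpr hwk
  -- an exponent above the hyperplane which is minimal at `x`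
  obtain ⟨p, hpk, hpx⟩ : ∃ l, 0 < a l k0 ∧ ∀ l', ∑ j, (a l j : ℝ) * x j ≤
      ∑ j, (a l' j : ℝ) * x j := by
    by_contra hno
    push Not at hno
    have hgap : ∀ l, 0 < a l k0 → ∑ j, (a q0 j : ℝ) * x j < ∑ j, (a l j : ℝ) * x j := by
      intro l hl
      obtain ⟨l', hl'⟩ := hno l hl
      exact lt_of_le_of_lt (hxcone.2 q0 hq0 l') hl'
    obtain ⟨ε, hε, hε1, hεl⟩ := znqd_eps
      (fun l => if 0 < a l k0 then (∑ j, (a l j : ℝ) * x j - ∑ j, (a q0 j : ℝ) * x j) /
        (a l k0 : ℝ) else 1) (by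
        intro l
        split_ifs with hl
        · have h1 := hgap l hl
          have h2 : (0 : ℝ) < a l k0 := by exact_mod_cast hl
          exact div_pos (by linarith) h2
        · exact one_pos)
    have hnot := low_pt (rv R) e hp hm ht (raysIn a R τ') heG
      (∑ j, (LinearMap.proj j : (Fin n → ℝ) →ₗ[ℝ] ℝ)) (fun i _ => znqd_ell a R hR i) σ
      ⟨hsub, hind, hupper⟩ (fun l hl => hspan _ (mem_raysIn.mp hl)) ε hε
    apply hnot
    apply hR.gen τ' ⟨q0, hq0⟩
    have hdot : ∀ c : Fin n → ℝ, ∑ j, c j * (x - ε • rv R e) j = ∑ j, c j * x j - ε * c k0 := by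
      intro c
      rw [← heval c, Finset.mul_sum, ← Finset.sum_sub_distrib]
      refine Finset.sum_congr rfl fun j _ => ?_
      simp only [Pi.sub_apply, Pi.smul_apply, smul_eq_mul]
      ring
    refine ⟨fun j => ?_, fun i hi l => ?_⟩
    · simp only [Pi.sub_apply, Pi.smul_apply, smul_eq_mul]
      rw [he, znqd_rv_e]
      split_ifs with hj
      · rw [hj]
        linarith
      · have := hxcone.1 j
        linarith
    · rw [hdot (fun j => (a i j : ℝ)), hdot (fun j => (a l j : ℝ)), h0 i hi]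
      have h1 := hxcone.2 i hi q0
      by_cases hl : 0 < a l k0
      · have h2 := hεl l
        simp only [hl, if_true] at h2
        have h3 : (0 : ℝ) < a l k0 := by exact_mod_cast hl
        rw [le_div_iff₀ h3] at h2
        push_cast
        linarith
      · have h2 : a l k0 = 0 := by omega
        rw [h2]
        have h3 := hxcone.2 i hi l
        simpa using h3
  -- the face of `x`
  set τ : Finset (Fin r) := Finset.univ.filter (fun i => ∀ l', ∑ j, (a i j : ℝ) * x j ≤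
      ∑ j, (a l' j : ℝ) * x j) with hτ
  have hτm : ∀ i, i ∈ τ ↔ ∀ l', ∑ j, (a i j : ℝ) * x j ≤ ∑ j, (a l' j : ℝ) * x j := by
    intro i
    rw [hτ, Finset.mem_filter]
    simp
  have hτeq : ∀ i ∈ τ, ∀ u ∈ σ.erase e, ∑ j, (a i j : ℝ) * rv R u j =
      ∑ j, (a q0 j : ℝ) * rv R u j := by
    intro i hi u hu
    have h1 := (hτm i).mp hi q0
    rw [hxdot (fun j => (a i j : ℝ)), hxdot (fun j => (a q0 j : ℝ))] at h1
    have h2 : ∀ u ∈ σ.erase e, ∑ j, (a q0 j : ℝ) * rv R u j ≤ ∑ j, (a i j : ℝ) * rv R u j :=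
      fun u hu => (hcone0 u hu).2 q0 hq0 i
    have h3 := (Finset.sum_eq_sum_iff_of_le h2).mp (le_antisymm (Finset.sum_le_sum h2) h1)
    exact (h3 u hu).symm
  have hτcone : ∀ u ∈ σ.erase e, rv R u ∈ H22.minCone a τ := by
    intro u hu
    refine ⟨(hcone0 u hu).1, fun i hi l => ?_⟩
    rw [hτeq i hi u hu]
    exact (hcone0 u hu).2 q0 hq0 l
  have hpτ : p ∈ τ := (hτm p).mpr hpx
  have hface : ∀ i ∈ τ, ∑ j, a i j * w.1 j = H22.wmin a w.1 := fun i hi =>
    (H22.wmin_eq (a := a) (σ := τ) (w := w.1) (hτcone w hwσ0) hi).symm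
  have hpi1 : p = i1 := by
    by_contra h
    have := hi1o p (hface p hpτ) h
    omega
  have hp1 : a p k0 = 1 := by rw [hpi1, hi1k]
  have hother : ∀ i ∈ τ, i ≠ p → a i k0 = 0 := by
    intro i hi hip
    exact hi1o i (hface i hi) (by rw [← hpi1]; exact hip)
  have hsubτ : τ' ⊆ τ := by
    intro i hi
    rw [hτm]
    exact hxcone.2 i hi
  have hfil : τ.filter (fun i => a i k0 = 0) = τ' := by
    ext i
    rw [Finset.mem_filter]
    constructor
    · rintro ⟨hi, hik⟩
      obtain ⟨k1, hk1, hk1m⟩ := hF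
      have hk1c : k1 ∈ H22.minCone a τ' := ⟨hk1, fun i hi => (hk1m i).mp hi⟩
      have hlin : ∀ k ∈ Submodule.span ℝ (rv R '' (σ : Set R)),
          ∑ j, ((a i j : ℝ) - a q0 j) * k j = 0 := by
        intro k hk
        induction hk using Submodule.span_induction with
        | mem k hk =>
          obtain ⟨u, hu, rfl⟩ := hk
          by_cases hue : u = e
          · rw [hue, heval (fun j => (a i j : ℝ) - a q0 j), hik, h0 q0 hq0]
            simp
          · have h1 := hτeq i hi u (Finset.mem_erase.mpr ⟨hue, hu⟩)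
            simp only [sub_mul, Finset.sum_sub_distrib]
            linarith
        | zero => simp
        | add y z _ _ hy hz => rw [znqd_dot_add, hy, hz, add_zero]
        | smul c y _ hy =>
          have : ∑ j, ((a i j : ℝ) - a q0 j) * (c • y) j =
              c * ∑ j, ((a i j : ℝ) - a q0 j) * y j := by
            rw [Finset.mul_sum]
            refine Finset.sum_congr rfl fun j _ => ?_
            simp only [Pi.smul_apply, smul_eq_mul]
            ring
          rw [this, hy, mul_zero]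
      have h2 := hlin k1 (hspan k1 hk1c)
      simp only [sub_mul, Finset.sum_sub_distrib] at h2
      rw [hk1m]
      intro l'
      have h3 := hk1c.2 q0 hq0 l'
      linarith
    · intro hi
      exact ⟨hsubτ hi, h0 i hi⟩
  have hτins : τ = insert p τ' := by
    ext i
    rw [Finset.mem_insert]
    constructor
    · intro hi
      by_cases hip : i = p
      · exact Or.inl hip
      · right
        rw [← hfil, Finset.mem_filter]
        exact ⟨hi, hother i hi hip⟩
    · rintro (rfl | hi)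
      · exact hpτ
      · exact hsubτ hi
  refine ⟨τ, ?_, hfil, ?_⟩
  · rw [mem_PP]
    exact ⟨⟨x, hxcone.1, hτm⟩, ⟨w.1, w.2, hw, hτcone w hwσ0⟩, ⟨p, hpτ, by omega⟩⟩
  · rw [mem_upT]
    refine ⟨⟨fun u hu => mem_raysIn.mpr (hτcone u hu), hind.mono ?_, ?_⟩, ?_⟩
    · exact_mod_cast Finset.erase_subset e σ
    · intro l hl hlσ β hβ
      have hlc := mem_raysIn.mp hl
      have hle : l ≠ e := by
        intro h
        have h1 := hlc.2 p hpτ q0
        rw [h, heval (fun j => (a p j : ℝ)), heval (fun j => (a q0 j : ℝ)), hp1, h0 q0 hq0] at h1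
        norm_num at h1
      have hlσ' : l ∉ σ := fun h => hlσ (Finset.mem_erase.mpr ⟨hle, h⟩)
      have hl' : l ∈ raysIn a R τ' :=
        mem_raysIn.mpr ⟨hlc.1, fun i hi => hlc.2 i (hsubτ hi)⟩
      have h1 : rv R l = ∑ i ∈ σ, (Function.update β e 0) i • rv R i := by
        rw [← Finset.add_sum_erase σ _ heσ, Function.update_self, zero_smul, zero_add, hβ]
        refine Finset.sum_congr rfl fun i hi => ?_
        rw [Function.update_of_ne (Finset.ne_of_mem_erase hi)]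
      have h2 := hupper l hl' hlσ' _ h1
      rw [← Finset.add_sum_erase σ _ heσ, Function.update_self, zero_mul, zero_add] at h2
      refine lt_of_lt_of_eq h2 ?_
      refine Finset.sum_congr rfl fun i hi => ?_
      rw [Function.update_of_ne (Finset.ne_of_mem_erase hi)]
    · rw [Finset.card_erase_of_mem heσ, hcard, hτins, faceRank_pyr a τ' p k0 h0 (by omega)]
      omega

end Pool.Agent.H56.SMC

end S_ZNQD

section S_ZNQU

/-!
# ZNQU: from the pyramid to the base

Notation: `e = eN k0`.  `B1 a w k0`: all exponents on the face of `w` have `a_k0 = 0`, except one, `p_w`, which has `a_k0 = 1`; `w k0 ≠ 0`.  If `toReal w ∈ minCone a τ` then every `i ∈ τ` is on the face of `w` (`H22.wmin_eq`).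
`pair_up`: `e ∉ B` since `e ∉ minCone a τ`.  `insert e B ⊆ raysIn a R τ'`, independent since `a_p - a_q` (`q ∈ τ'`) vanishes on `B` and is `1` on `e`.  Upper: for `v_l = ∑ β_i v_i`, `l ∈ raysIn a R τ'`, apply `a_p - a_q`: `β_e = (a_p - a_q)·v_l ≥ 0`; if `β_e > 0` use `topl`; if `β_e = 0` then `l ∈ raysIn a R τ` and `B` is upper in it.  Cardinality: `faceRank_pyr` and
`faceRank a τ ≤ n` (`H60.ConeExist.finrank_span_minCone_le`: `minCone a τ` contains the critical `w ≠ 0`).  Multiplicity: `mulS_insert` with `φ = a_p - a_q`.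
-/

set_option autoImplicit false

namespace Pool.Agent.H56.SMC

open Finset H60.RegTri

/-- The functional `a_p - a_q`. -/
noncomputable def ZNQU_phi {n r : ℕ} (a : Fin r → (Fin n →₀ ℕ)) (p q : Fin r) :
    (Fin n → ℝ) →ₗ[ℝ] ℝ where
  toFun x := ∑ j, (a p j : ℝ) * x j - ∑ j, (a q j : ℝ) * x j
  map_add' x y := by
    simp only [Pi.add_apply, mul_add, Finset.sum_add_distrib]
    ring
  map_smul' c x := by
    simp only [Pi.smul_apply, smul_eq_mul, RingHom.id_apply, mul_sub, Finset.mul_sum]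
    congr 1 <;> exact Finset.sum_congr rfl fun j _ => by ring

theorem ZNQU_phi_apply {n r : ℕ} (a : Fin r → (Fin n →₀ ℕ)) (p q : Fin r) (x : Fin n → ℝ) :
    ZNQU_phi a p q x = ∑ j, (a p j : ℝ) * x j - ∑ j, (a q j : ℝ) * x j := rfl

theorem ZNQU_sum_eN {n : ℕ} (b : Fin n → ℝ) (k0 : Fin n) :
    ∑ j, b j * H22.toReal (eN k0) j = b k0 := by
  rw [Finset.sum_eq_single k0]
  · simp [H22.toReal, eN]
  · intro j _ hj
    simp [H22.toReal, eN, Pi.single_eq_of_ne hj]
  · intro h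
    exact absurd (Finset.mem_univ _) h

/-- ZNQ -/
theorem pair_up {n r : ℕ} (a : Fin r → (Fin n →₀ ℕ)) (R : Finset (Fin n → ℕ))
    (hR : RaySet a R) (s0 : ℂ) (k0 : Fin n) (hp hm : R → ℝ)
    (ht : TopBot (rv R) ⟨eN k0, hR.unit k0⟩ hp hm) (τ : Finset (Fin r))
    (hτ : τ ∈ PP a R s0 k0) (hne : (τ.filter (fun i => a i k0 = 0)).Nonempty)
    (hcrit : ∀ w ∈ R, CritW a s0 w → H22.toReal w ∈ H22.minCone a τ → B1 a w k0)
    (B : Finset R) (hB : B ∈ upT R hp (raysIn a R τ) (n + 1 - H22.faceRank a τ)) :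
    ⟨eN k0, hR.unit k0⟩ ∉ B ∧ insert ⟨eN k0, hR.unit k0⟩ B ∈
      upT R hp (raysIn a R (τ.filter (fun i => a i k0 = 0)))
        (n + 1 - H22.faceRank a (τ.filter (fun i => a i k0 = 0))) ∧
      mulS (insert ⟨eN k0, hR.unit k0⟩ B) = mulS B := by
  classical
  obtain ⟨p, hpτ, hp1, hp0⟩ := pp_apex a R s0 k0 τ hτ hcrit
  obtain ⟨q, hq⟩ := hne
  have hqτ : q ∈ τ := (Finset.mem_filter.mp hq).1
  have hq0 : a q k0 = 0 := (Finset.mem_filter.mp hq).2
  rw [mem_upT] at hB
  obtain ⟨hBU, hBc⟩ := hB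
  have hpF : p ∉ τ.filter (fun i => a i k0 = 0) := by
    rw [Finset.mem_filter, hp1]
    simp
  have hτins : insert p (τ.filter (fun i => a i k0 = 0)) = τ := by
    ext i
    rw [Finset.mem_insert, Finset.mem_filter]
    constructor
    · rintro (h | h)
      · rw [h]; exact hpτ
      · exact h.1
    · intro h
      by_cases hi : i = p
      · exact Or.inl hi
      · exact Or.inr ⟨h, hp0 i h hi⟩
  set e : R := ⟨eN k0, hR.unit k0⟩ with hedef
  have hrve : rv R e = H22.toReal (eN k0) := rfl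
  -- the functional
  have hφ0 : ∀ w ∈ B, ZNQU_phi a p q (rv R w) = 0 := by
    intro w hw
    have hm1 := mem_raysIn.mp (hBU.1 hw)
    rw [ZNQU_phi_apply]
    have h1 := hm1.2 p hpτ q
    have h2 := hm1.2 q hqτ p
    linarith
  have hφe : ZNQU_phi a p q (rv R e) = 1 := by
    rw [ZNQU_phi_apply, hrve, ZNQU_sum_eN (fun j => (a p j : ℝ)), ZNQU_sum_eN (fun j => (a q j : ℝ)),
      hp1, hq0]
    simp
  have heB : e ∉ B := by
    intro h
    have := hφ0 e h
    rw [hφe] at this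
    exact one_ne_zero this
  have hsub : insert e B ⊆ raysIn a R (τ.filter (fun i => a i k0 = 0)) := by
    intro w hw
    rw [mem_raysIn]
    rw [Finset.mem_insert] at hw
    rcases hw with rfl | hw
    · refine ⟨fun j => ?_, fun i hi l => ?_⟩
      · rw [hrve]; exact Nat.cast_nonneg _
      · rw [hrve, ZNQU_sum_eN (fun j => (a i j : ℝ)), ZNQU_sum_eN (fun j => (a l j : ℝ)),
          (Finset.mem_filter.mp hi).2]
        simp
    · have hm1 := mem_raysIn.mp (hBU.1 hw)
      exact ⟨hm1.1, fun i hi l => hm1.2 i (Finset.mem_filter.mp hi).1 l⟩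
  have hind : LinearIndepOn ℝ (rv R) ((insert e B : Finset R) : Set R) := by
    rw [Finset.coe_insert]
    refine (linearIndepOn_insert (by exact_mod_cast heB)).mpr ⟨hBU.2.1, ?_⟩
    intro h
    obtain ⟨β, hβ⟩ := (mem_span_iff (rv R) B (rv R e)).mp h
    have := congrArg (ZNQU_phi a p q) hβ
    rw [hφe, map_sum] at this
    rw [Finset.sum_eq_zero (fun i hi => by rw [map_smul, hφ0 i hi, smul_zero])] at this
    exact one_ne_zero this
  have hcalc : ∀ (l : R) (β : R → ℝ), rv R l = ∑ i ∈ insert e B, β i • rv R i →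
      ZNQU_phi a p q (rv R l) = β e := by
    intro l β hl
    rw [hl, map_sum, Finset.sum_insert heB, map_smul, hφe, smul_eq_mul, mul_one]
    rw [Finset.sum_eq_zero (fun i hi => by rw [map_smul, hφ0 i hi, smul_zero]), add_zero]
  refine ⟨heB, ?_, ?_⟩
  · rw [mem_upT]
    refine ⟨⟨hsub, hind, ?_⟩, ?_⟩
    · intro l hl hlB β hβ
      have hβe := hcalc l β hβ
      have hlm := mem_raysIn.mp hl
      have hnn : 0 ≤ β e := by
        rw [← hβe, ZNQU_phi_apply]
        have := hlm.2 q hq p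
        linarith
      rcases hnn.lt_or_eq with hpos | hz
      · exact ht.topl (insert e B) (Finset.mem_insert_self _ _) hind l hlB β hβ hpos
      · have hlτ : l ∈ raysIn a R τ := by
          rw [mem_raysIn, ← hτins]
          refine ⟨hlm.1, fun i hi l' => ?_⟩
          rw [Finset.mem_insert] at hi
          rcases hi with rfl | hi
          · have h1 := hlm.2 q hq l'
            rw [ZNQU_phi_apply] at hβe
            linarith
          · exact hlm.2 i hi l'
        have hlB' : l ∉ B := fun h => hlB (Finset.mem_insert_of_mem h)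
        have := hBU.2.2 l hlτ hlB' β (by
          rw [hβ, Finset.sum_insert heB, ← hz, zero_smul, zero_add])
        rw [Finset.sum_insert heB, ← hz, zero_mul, zero_add]
        exact this
    · rw [Finset.card_insert_of_notMem heB, hBc]
      have h1 := faceRank_pyr a (τ.filter (fun i => a i k0 = 0)) p k0
        (fun i hi => (Finset.mem_filter.mp hi).2) (by rw [hp1]; exact one_ne_zero)
      rw [hτins] at h1
      have h2 : H22.faceRank a τ ≤ n + 1 := by
        unfold H22.faceRank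
        refine (Submodule.finrank_le _).trans ?_
        simp [Module.finrank_fintype_fun_eq_card, add_comm]
      omega
  · refine mulS_insert B e heB (fun j => (a p j : ℤ) - (a q j : ℤ)) ?_ ?_
    · intro w hw
      have h := hφ0 w hw
      rw [ZNQU_phi_apply] at h
      have h' : ((∑ j, ((a p j : ℤ) - (a q j : ℤ)) * ((w.1 j : ℕ) : ℤ) : ℤ) : ℝ) = 0 := by
        push_cast
        rw [← h, ← Finset.sum_sub_distrib]
        exact Finset.sum_congr rfl fun j _ => by simp only [rv, H22.toReal]; ring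
      exact_mod_cast h'
    · left
      have h := hφe
      rw [ZNQU_phi_apply] at h
      have h' : ((∑ j, ((a p j : ℤ) - (a q j : ℤ)) * ((e.1 j : ℕ) : ℤ) : ℤ) : ℝ) = 1 := by
        push_cast
        rw [← h, ← Finset.sum_sub_distrib]
        exact Finset.sum_congr rfl fun j _ => by simp only [rv, H22.toReal]; ring
      exact_mod_cast h'

end Pool.Agent.H56.SMC

end S_ZNQU

section S_ZNF

/-!
# ZNF: the faces in the hyperplane `x_k0 = 0`

Proof.  Choose heights by `exists_topBot` (`v = rv R`, `e = eN k0`).  By `jf_tri` `J_τ'` and all `J_τ` are sums of `tm` over the upper simplices (heights `hp`); split them into the simplices which contain a critical ray and the others (regular by `tm_reg`).  `(τ, B) ↦ insert e B` is a bijection from the pairs `τ ∈ PP`, `τ.filter = τ'`, `B ∈ upT (raysIn a R τ)` with a critical element, onto the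
`σ ∈ upT (raysIn a R τ')` with a critical element: well defined by `pair_up`, onto by `pair_down` (`insert e (σ.erase e) = σ`; the critical element of `σ` is not `e`, since `wmin a e = 0`: some `i ∈ τ'` has `a_i k0 = 0`), injective: `B = (insert e B).erase e`, and for a critical `w ∈ B` both `τ₁`, `τ₂` are contained in the face of `w`, so by `B1` they have the same apex, `τ₁ = insert p τ' = τ₂`.
`tm (insert e B) = tm B`: `mulS` by `pair_up`, `WW a e = 1`.
-/

set_option autoImplicit false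

namespace Pool.Agent.H56.SMC

open Finset H60.RegTri

/-- the face of `w` -/
theorem ZNF_face {n r : ℕ} {a : Fin r → (Fin n →₀ ℕ)} {τ : Finset (Fin r)} {w : Fin n → ℕ}
    (hw : H22.toReal w ∈ H22.minCone a τ) {i : Fin r} (hi : i ∈ τ) :
    ∑ j, a i j * w j = H22.wmin a w := (H22.wmin_eq hw hi).symm

theorem ZNF_mono {n r : ℕ} {a : Fin r → (Fin n →₀ ℕ)} {τ' τ : Finset (Fin r)} (h : τ' ⊆ τ)
    {k : Fin n → ℝ} (hk : k ∈ H22.minCone a τ) : k ∈ H22.minCone a τ' :=
  ⟨hk.1, fun i hi l => hk.2 i (h hi) l⟩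

/-- a face with a critical ray is the base with the apex -/
theorem ZNF_apex {n r : ℕ} {a : Fin r → (Fin n →₀ ℕ)} {τ : Finset (Fin r)} {w : Fin n → ℕ}
    {k0 : Fin n} (hw : H22.toReal w ∈ H22.minCone a τ) (i1 : Fin r)
    (hi1 : ∀ i, ∑ j, a i j * w j = H22.wmin a w → i ≠ i1 → a i k0 = 0)
    (hne : ∃ i ∈ τ, a i k0 ≠ 0) (h1 : a i1 k0 = 1) :
    τ = insert i1 (τ.filter (fun i => a i k0 = 0)) := by
  classical
  ext i
  rw [Finset.mem_insert, Finset.mem_filter]
  constructor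
  · intro hi
    by_cases h : i = i1
    · exact Or.inl h
    · exact Or.inr ⟨hi, hi1 i (ZNF_face hw hi) h⟩
  · rintro (rfl | h)
    · obtain ⟨l, hl, hl0⟩ := hne
      by_cases h : l = i
      · rw [← h]; exact hl
      · exact absurd (hi1 l (ZNF_face hw hl) h) hl0
    · exact h.1

/-- ZNF -/
theorem face_reg {n r : ℕ} (a : Fin r → (Fin n →₀ ℕ)) (R : Finset (Fin n → ℕ))
    (hR : RaySet a R) (s0 : ℂ) (k0 : Fin n) (τ' : Finset (Fin r))
    (hF : H22.IsFace a τ') (hne : τ'.Nonempty) (h0 : ∀ i ∈ τ', a i k0 = 0)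
    (hcrit : ∀ w ∈ R, CritW a s0 w → H22.toReal w ∈ H22.minCone a τ' → B1 a w k0)
    (𝒟 : ∀ τ, H22.FaceCones a τ) :
    H37.SM.Reg s0 (H22.JfunG a τ' (𝒟 τ') -
      ∑ τ ∈ (PP a R s0 k0).filter (fun τ => τ.filter (fun i => a i k0 = 0) = τ'),
        H22.JfunG a τ (𝒟 τ)) := by
  classical
  obtain ⟨hp, hm, ht⟩ := exists_topBot (rv R) (⟨eN k0, hR.unit k0⟩ : R)
  set e : R := ⟨eN k0, hR.unit k0⟩ with he
  set P := (PP a R s0 k0).filter (fun τ => τ.filter (fun i => a i k0 = 0) = τ') with hP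
  set S : Finset (Fin r) → Finset (Finset R) := fun τ => upT R hp (raysIn a R τ) (n + 1 - H22.faceRank a τ) with hS
  set crit : Finset R → Prop := fun σ => ∃ w ∈ σ, CritW a s0 w.1 with hcr
  have hPm : ∀ τ ∈ P, τ ∈ PP a R s0 k0 ∧ τ.filter (fun i => a i k0 = 0) = τ' := by
    intro τ hτ
    exact Finset.mem_filter.1 hτ
  have hJ : ∀ τ, τ.Nonempty → H22.IsFace a τ → H22.JfunG a τ (𝒟 τ) =
      ∑ σ ∈ (S τ).filter crit, tm a σ + ∑ σ ∈ (S τ).filter (fun σ => ¬ crit σ), tm a σ := by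
    intro τ hτ hFτ
    rw [Finset.sum_filter_add_sum_filter_not]
    exact jf_tri a R hR hp ht.genp τ hτ hFτ (𝒟 τ)
  have hreg : ∀ τ, H37.SM.Reg s0 (∑ σ ∈ (S τ).filter (fun σ => ¬ crit σ), tm a σ) := by
    intro τ
    apply H37.SM.Reg.sum
    intro σ hσ
    rw [Finset.mem_filter] at hσ
    apply tm_reg a R hR s0 σ
    intro w hw hw2
    exact hσ.2 ⟨w, hw, hw2⟩
  -- the critical element is not the unit vector
  have hwe : H22.wmin a (eN k0) = 0 := by
    obtain ⟨i, hi⟩ := hne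
    have h1 : H22.wmin a (eN k0) ≤ ∑ j, a i j * eN k0 j := ciInf_le (OrderBot.bddBelow _) i
    have h2 : ∑ j, a i j * eN k0 j = a i k0 := by
      unfold eN
      rw [Finset.sum_eq_single k0]
      · simp
      · intro j _ hj
        rw [Pi.single_eq_of_ne hj, mul_zero]
      · intro h; exact absurd (Finset.mem_univ _) h
    rw [h2, h0 i hi] at h1
    omega
  have hse : H22.wsum (eN k0) = 1 := by
    unfold H22.wsum eN
    rw [Finset.sum_eq_single k0]
    · simp
    · intro j _ hj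
      exact Pi.single_eq_of_ne hj _
    · intro h; exact absurd (Finset.mem_univ _) h
  have hWe : WW a (eN k0) = 1 := by
    unfold WW
    rw [hwe, hse]
    simp
  have hce : ∀ w : R, CritW a s0 w.1 → w ≠ e := by
    rintro w hw rfl
    have := hw.2.1
    rw [he] at this
    simp only at this
    rw [hwe] at this
    exact lt_irrefl _ this
  have hcτ : ∀ τ ∈ P, ∀ w ∈ R, CritW a s0 w → H22.toReal w ∈ H22.minCone a τ → B1 a w k0 := by
    intro τ hτ w hw hc hwτ
    refine hcrit w hw hc (ZNF_mono ?_ hwτ)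
    rw [← (hPm τ hτ).2]
    exact Finset.filter_subset _ _
  have hneP : ∀ τ ∈ P, (τ.filter (fun i => a i k0 = 0)).Nonempty := by
    intro τ hτ
    rw [(hPm τ hτ).2]
    exact hne
  have hup : ∀ τ ∈ P, ∀ B ∈ S τ, e ∉ B ∧ insert e B ∈ S τ' ∧ mulS (insert e B) = mulS B := by
    intro τ hτ B hB
    have h := pair_up a R hR s0 k0 hp hm ht τ (hPm τ hτ).1 (hneP τ hτ) (hcτ τ hτ) B hB
    rw [(hPm τ hτ).2] at h
    exact h
  have hbij : ∑ τ ∈ P, ∑ B ∈ (S τ).filter crit, tm a B = ∑ σ ∈ (S τ').filter crit, tm a σ := by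
    rw [Finset.sum_sigma']
    refine Finset.sum_bij (fun x _ => insert e x.2) ?_ ?_ ?_ ?_
    · rintro ⟨τ, B⟩ hx
      obtain ⟨h1, hx2⟩ := Finset.mem_sigma.1 hx
      obtain ⟨h2, w, hw, hw2⟩ := Finset.mem_filter.1 hx2
      rw [Finset.mem_filter]
      exact ⟨(hup τ h1 B h2).2.1, w, Finset.mem_insert_of_mem hw, hw2⟩
    · rintro ⟨τ₁, B₁⟩ hx₁ ⟨τ₂, B₂⟩ hx₂ h12
      simp only at h12
      obtain ⟨h1, hx1⟩ := Finset.mem_sigma.1 hx₁
      obtain ⟨h2, w, hw, hw2⟩ := Finset.mem_filter.1 hx1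
      obtain ⟨h3, hx2⟩ := Finset.mem_sigma.1 hx₂
      obtain ⟨h4, _⟩ := Finset.mem_filter.1 hx2
      simp only at h1 h2 h3 h4 hw
      have hB : B₁ = B₂ := by
        rw [← Finset.erase_insert (hup τ₁ h1 B₁ h2).1, h12, Finset.erase_insert (hup τ₂ h3 B₂ h4).1]
      subst hB
      have h5 : H22.toReal w.1 ∈ H22.minCone a τ₁ := mem_raysIn.1 ((mem_upT.1 h2).1.1 hw)
      have h6 : H22.toReal w.1 ∈ H22.minCone a τ₂ := mem_raysIn.1 ((mem_upT.1 h4).1.1 hw)
      obtain ⟨_, i1, _, h7, h8⟩ := hcτ τ₁ h1 w.1 w.2 hw2 h5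
      have h9 := ZNF_apex h5 i1 h8 (mem_PP.1 (hPm τ₁ h1).1).2.2 h7
      have h10 := ZNF_apex h6 i1 h8 (mem_PP.1 (hPm τ₂ h3).1).2.2 h7
      rw [(hPm τ₁ h1).2] at h9
      rw [(hPm τ₂ h3).2] at h10
      rw [h9, h10]
    · intro σ hσ
      rw [Finset.mem_filter] at hσ
      obtain ⟨h2, τ, h3, h4, h5⟩ := pair_down a R hR s0 k0 hp hm ht τ' hF hne h0 hcrit σ hσ.1 hσ.2
      obtain ⟨w, hw, hw2⟩ := hσ.2
      refine ⟨⟨τ, σ.erase e⟩, ?_, ?_⟩
      · exact Finset.mem_sigma.2 ⟨Finset.mem_filter.2 ⟨h3, h4⟩,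
          Finset.mem_filter.2 ⟨h5, w, Finset.mem_erase.2 ⟨hce w hw2, hw⟩, hw2⟩⟩
      · exact Finset.insert_erase h2
    · rintro ⟨τ, B⟩ hx
      obtain ⟨h1, hx2⟩ := Finset.mem_sigma.1 hx
      obtain ⟨h2, _⟩ := Finset.mem_filter.1 hx2
      simp only at h1 h2 ⊢
      obtain ⟨h3, h4, h5⟩ := hup τ h1 B h2
      unfold tm
      rw [h5, Finset.prod_insert h3]
      have h6 : WW a e.1 = 1 := hWe
      rw [h6, inv_one, one_mul]
  have hsum : ∑ τ ∈ P, H22.JfunG a τ (𝒟 τ) = ∑ τ ∈ P, ∑ B ∈ (S τ).filter crit, tm a B +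
      ∑ τ ∈ P, ∑ B ∈ (S τ).filter (fun σ => ¬ crit σ), tm a B := by
    rw [← Finset.sum_add_distrib]
    apply Finset.sum_congr rfl
    intro τ hτ
    obtain ⟨h1, _, i, hi, _⟩ := mem_PP.1 (hPm τ hτ).1
    exact hJ τ ⟨i, hi⟩ h1
  rw [hJ τ' hne hF, hsum, hbij]
  have h1 : (∑ σ ∈ (S τ').filter crit, tm a σ + ∑ σ ∈ (S τ').filter (fun σ => ¬ crit σ), tm a σ) -
      (∑ σ ∈ (S τ').filter crit, tm a σ + ∑ τ ∈ P, ∑ B ∈ (S τ).filter (fun σ => ¬ crit σ), tm a B) =
      ∑ σ ∈ (S τ').filter (fun σ => ¬ crit σ), tm a σ -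
        ∑ τ ∈ P, ∑ B ∈ (S τ).filter (fun σ => ¬ crit σ), tm a B := by ring
  rw [h1]
  exact (hreg τ').sub (H37.SM.Reg.sum _ _ fun τ _ => hreg τ)

end Pool.Agent.H56.SMC

end S_ZNF
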