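import Mathlib
import Pool.Agent.H56.SL.Z2
import Pool.Agent.H56.SL.Z3

/-! Strong monodromy for nondegenerate polynomials, part Z5: this file joins the modules ZNV, ZNVD, ZNVU, ZNW. -/

set_option autoImplicit false

section S_ZNV

/-!
# ZNV: the cone of an apex

Notation: `e = eN k0`, `p` an exponent with `a_p k0 = 1` such that `{p}` is a face, `G0 = raysIn a R {p}`, `G = insert e G0`.  `e ∉ G0`, since some `i` has `a_i k0 = 0 < 1`.
`span_vertex`: a weight vector `k` with minimal set `{p}`, moved by small multiples of `(1,…,1)`, is an interior point of `minCone a {p}`; every `y` is a difference of multiples of points of `minCone a {p}`, which is generated by `G0` (`hR.gen`).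
`vert_lin`: `lin_eq` for the two families; elements of `upT R h G n` are independent with `n` elements, so they span everything, `disjoint_oCone` applies; `cover_upper` (`ℓ = ∑ proj`) shows that both families cover exactly `cCone (rv R) G` (simplices whose span contains all `v l`, `l ∈ G`, have `n` elements by `hspan`).
-/

set_option autoImplicit false

namespace Pool.Agent.H56.SMC

open Finset H60.RegTri

theorem ZNV_cCone_span {n : ℕ} {R : Finset (Fin n → ℕ)} {G : Finset R} {y : Fin n → ℝ}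
    (h : y ∈ cCone (rv R) G) : y ∈ Submodule.span ℝ (rv R '' (G : Set R)) := by
  obtain ⟨x, -, hx⟩ := h
  exact (mem_span_iff _ _ _).2 ⟨x, hx⟩

theorem ZNV_move {n r : ℕ} (a : Fin r → (Fin n →₀ ℕ)) (p : Fin r) (k : Fin n → ℝ)
    (hk0 : ∀ j, 0 ≤ k j)
    (hk : ∀ l, l ≠ p → ∑ j, (a p j : ℝ) * k j < ∑ j, (a l j : ℝ) * k j)
    (u : Fin n → ℝ) (hu : ∀ j, 0 ≤ u j) :
    ∃ ε : ℝ, 0 < ε ∧ k + ε • u ∈ H22.minCone a {p} := by
  have hev : ∀ᶠ ε : ℝ in nhds 0, ∀ l, l ≠ p →
      ∑ j, (a p j : ℝ) * (k + ε • u) j < ∑ j, (a l j : ℝ) * (k + ε • u) j := by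
    rw [Filter.eventually_all]
    intro l
    by_cases hl : l = p
    · exact Filter.Eventually.of_forall fun ε h => absurd hl h
    · have hc1 : Continuous fun ε : ℝ => ∑ j, (a p j : ℝ) * (k + ε • u) j := by
        simp only [Pi.add_apply, Pi.smul_apply, smul_eq_mul]
        fun_prop
      have hc2 : Continuous fun ε : ℝ => ∑ j, (a l j : ℝ) * (k + ε • u) j := by
        simp only [Pi.add_apply, Pi.smul_apply, smul_eq_mul]
        fun_prop
      have h0 : ∑ j, (a p j : ℝ) * (k + (0 : ℝ) • u) j <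
          ∑ j, (a l j : ℝ) * (k + (0 : ℝ) • u) j := by
        simpa using hk l hl
      exact ((hc1.continuousAt (x := 0)).eventually_lt (hc2.continuousAt (x := 0)) h0).mono
        fun ε h _ => h
  have hev2 : ∀ᶠ ε : ℝ in nhdsWithin 0 (Set.Ioi 0), ∀ l, l ≠ p →
      ∑ j, (a p j : ℝ) * (k + ε • u) j < ∑ j, (a l j : ℝ) * (k + ε • u) j :=
    nhdsWithin_le_nhds hev
  have hpos : ∀ᶠ ε : ℝ in nhdsWithin 0 (Set.Ioi 0), ε ∈ Set.Ioi (0 : ℝ) := self_mem_nhdsWithin
  obtain ⟨ε, h1, h2⟩ := (hev2.and hpos).exists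
  have hε : (0 : ℝ) < ε := h2
  refine ⟨ε, hε, fun j => ?_, ?_⟩
  · simp only [Pi.add_apply, Pi.smul_apply, smul_eq_mul]
    exact add_nonneg (hk0 j) (mul_nonneg hε.le (hu j))
  · intro i hi l
    rw [Finset.mem_singleton] at hi
    subst hi
    by_cases hl : l = i
    · rw [hl]
    · exact (h1 l hl).le

theorem span_vertex {n r : ℕ} (a : Fin r → (Fin n →₀ ℕ)) (R : Finset (Fin n → ℕ))
    (hR : RaySet a R) (p : Fin r) (hF : H22.IsFace a {p}) (y : Fin n → ℝ) :
    y ∈ Submodule.span ℝ (rv R '' (raysIn a R {p} : Set R)) := by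
  obtain ⟨k, hk0, hk⟩ := hF
  have hp : ∀ l', ∑ j, (a p j : ℝ) * k j ≤ ∑ j, (a l' j : ℝ) * k j :=
    (hk p).1 (Finset.mem_singleton_self p)
  have hlt : ∀ l, l ≠ p → ∑ j, (a p j : ℝ) * k j < ∑ j, (a l j : ℝ) * k j := by
    intro l hl
    by_contra hcon
    push Not at hcon
    exact hl (Finset.mem_singleton.1 ((hk l).2 fun l' => hcon.trans (hp l')))
  have hgen : ∀ z ∈ H22.minCone a {p},
      z ∈ Submodule.span ℝ (rv R '' (raysIn a R {p} : Set R)) := fun z hz =>
    ZNV_cCone_span (hR.gen {p} (Finset.singleton_nonempty p) z hz)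
  have hkm : k ∈ H22.minCone a {p} := by
    refine ⟨hk0, fun i hi l => ?_⟩
    rw [Finset.mem_singleton] at hi
    rw [hi]
    exact hp l
  have hnn : ∀ u : Fin n → ℝ, (∀ j, 0 ≤ u j) →
      u ∈ Submodule.span ℝ (rv R '' (raysIn a R {p} : Set R)) := by
    intro u hu
    obtain ⟨ε, hε, hm⟩ := ZNV_move a p k hk0 hlt u hu
    have h1 := Submodule.sub_mem _ (hgen _ hm) (hgen _ hkm)
    rw [add_sub_cancel_left] at h1
    have h2 := Submodule.smul_mem _ ε⁻¹ h1
    rwa [smul_smul, inv_mul_cancel₀ hε.ne', one_smul] at h2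
  have h1 := hnn (fun j => y j + |y j|) (fun j => by linarith [neg_abs_le (y j)])
  have h2 := hnn (fun j => |y j|) (fun j => abs_nonneg _)
  have h3 := Submodule.sub_mem _ h1 h2
  have h4 : (fun j => y j + |y j|) - (fun j => |y j|) = y := by
    funext j
    simp
  rwa [h4] at h3

theorem ZNV_top {n : ℕ} {R : Finset (Fin n → ℕ)} {σ : Finset R}
    (hi : LinearIndepOn ℝ (rv R) (σ : Set R)) (hc : σ.card = n) (y : Fin n → ℝ) :
    y ∈ Submodule.span ℝ (rv R '' (σ : Set R)) := by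
  have h1 : Module.finrank ℝ (Submodule.span ℝ (rv R '' (σ : Set R))) = n := by
    have h2 : LinearIndependent ℝ (fun i : (σ : Set R) => rv R i) := hi
    have h3 := finrank_span_eq_card h2
    rw [show Set.range (fun i : (σ : Set R) => rv R i) = rv R '' (σ : Set R) by
      ext z; simp] at h3
    rw [h3]
    simp [hc]
  have h4 : Submodule.span ℝ (rv R '' (σ : Set R)) = ⊤ := by
    apply Submodule.eq_top_of_finrank_eq
    rw [h1]
    simp
  rw [h4]
  trivial

theorem ZNV_card {n : ℕ} {R : Finset (Fin n → ℕ)} {σ : Finset R}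
    (hi : LinearIndepOn ℝ (rv R) (σ : Set R))
    (hs : ∀ y, y ∈ Submodule.span ℝ (rv R '' (σ : Set R))) : σ.card = n := by
  have h2 : LinearIndependent ℝ (fun i : (σ : Set R) => rv R i) := hi
  have h3 := finrank_span_eq_card h2
  rw [show Set.range (fun i : (σ : Set R) => rv R i) = rv R '' (σ : Set R) by
    ext z; simp] at h3
  have h4 : Submodule.span ℝ (rv R '' (σ : Set R)) = ⊤ := by
    rw [eq_top_iff]
    intro y _
    exact hs y
  rw [h4] at h3
  simp at h3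
  omega

theorem ZNV_cover {n : ℕ} (R : Finset (Fin n → ℕ)) (hR : ∀ w ∈ R, w ≠ 0) (h : R → ℝ)
    (hh : ∀ τ, GenericOn (rv R) h τ) (G : Finset R)
    (hspan : ∀ y, y ∈ Submodule.span ℝ (rv R '' (G : Set R))) (y : Fin n → ℝ) :
    (∃ σ ∈ upT R h G n, y ∈ cCone (rv R) σ) ↔ y ∈ cCone (rv R) G := by
  classical
  constructor
  · rintro ⟨σ, hσ, x, hx, hy⟩
    obtain ⟨hσ1, -⟩ := mem_upT.1 hσ
    refine ⟨fun i => if i ∈ σ then x i else 0, fun i _ => ?_, ?_⟩
    · by_cases hi : i ∈ σ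
      · simp only [if_pos hi]
        exact hx i hi
      · simp only [if_neg hi]
        exact le_rfl
    · rw [hy, ← Finset.sum_subset hσ1.1]
      · exact Finset.sum_congr rfl fun i hi => by simp only [if_pos hi]
      · intro i _ hi
        simp only [if_neg hi, zero_smul]
  · intro hy
    let ℓ : (Fin n → ℝ) →ₗ[ℝ] ℝ := ∑ j, LinearMap.proj j
    have hℓ : ∀ i ∈ G, 0 < ℓ (rv R i) := by
      intro i _
      have h1 : ℓ (rv R i) = ∑ j, (i.1 j : ℝ) := by
        simp [ℓ, rv, H22.toReal]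
      rw [h1]
      have h2 : ∃ j, i.1 j ≠ 0 := by
        by_contra hcon
        push Not at hcon
        exact hR i.1 i.2 (funext hcon)
      obtain ⟨j, hj⟩ := h2
      refine Finset.sum_pos' (fun j _ => Nat.cast_nonneg _) ⟨j, Finset.mem_univ j, ?_⟩
      exact_mod_cast Nat.pos_of_ne_zero hj
    obtain ⟨σ, h1, h2, h3⟩ := cover_upper (rv R) h G ℓ hℓ (hh G) y hy
    refine ⟨σ, mem_upT.2 ⟨h1, ?_⟩, h3⟩
    refine ZNV_card h1.2.1 fun z => ?_
    have h4 : Submodule.span ℝ (rv R '' (G : Set R)) ≤ Submodule.span ℝ (rv R '' (σ : Set R)) := by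
      rw [Submodule.span_le]
      rintro _ ⟨l, hl, rfl⟩
      exact h2 l hl
    exact h4 (hspan z)

theorem vert_lin {n r : ℕ} (a : Fin r → (Fin n →₀ ℕ)) (R : Finset (Fin n → ℕ))
    (hR : RaySet a R) (h h' : R → ℝ) (hh : ∀ τ, GenericOn (rv R) h τ)
    (hh' : ∀ τ, GenericOn (rv R) h' τ) (G : Finset R)
    (hspan : ∀ y, y ∈ Submodule.span ℝ (rv R '' (G : Set R))) (c : Fin n → ℕ) :
    ∑ σ ∈ upT R h G n, tmV c σ = ∑ σ ∈ upT R h' G n, tmV c σ := by
  have hR0 : ∀ w ∈ R, w ≠ 0 := fun w hw => (hR.facet w hw).1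
  have hdis : ∀ h : R → ℝ, ∀ σ ∈ upT R h G n, ∀ σ' ∈ upT R h G n, σ ≠ σ' →
      Disjoint (oCone (rv R) σ) (oCone (rv R) σ') := by
    intro h σ hσ σ' hσ' hne
    obtain ⟨h1, h2⟩ := mem_upT.1 hσ
    obtain ⟨h3, h4⟩ := mem_upT.1 hσ'
    exact disjoint_oCone (rv R) h G σ σ' h1 (fun l _ => ZNV_top h1.2.1 h2 _) h3
      (fun l _ => ZNV_top h3.2.1 h4 _) hne
  refine lin_eq R hR0 c _ _ ?_ ?_ (hdis h) (hdis h') ?_
  · intro σ hσ
    obtain ⟨h1, h2⟩ := mem_upT.1 hσ
    exact ⟨h1.2.1, h2⟩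
  · intro σ hσ
    obtain ⟨h1, h2⟩ := mem_upT.1 hσ
    exact ⟨h1.2.1, h2⟩
  · intro y
    rw [ZNV_cover R hR0 h hh G hspan y, ZNV_cover R hR0 h' hh' G hspan y]

end Pool.Agent.H56.SMC

end S_ZNV

section S_ZNVD

/-!
# ZNVD: lower and upper simplices of the cone of an apex

Notation: `e = eN k0`, `p` an exponent with `a_p k0 = 1` such that `{p}` is a face, `G0 = raysIn a R {p}`, `G = insert e G0`.  `e ∉ G0`, since some `i` has `a_i k0 = 0 < 1`.
`vlow`: `e ∈ σ` by `low_mem`.  Let `w ∈ σ` be critical, so `w ≠ e` (`wmin a e = 0` as some `a_i k0 = 0`), `w ∈ G0`, `B1 a w k0`, its apex is `p` (as `p` is on the face of `w` and `a_p k0 = 1`).  `x = ∑_{σ.erase e} rv i`: `x k0 ≥ w k0 ≥ 1`; all elements of `σ.erase e` are in `minCone a {p}`; for `a_i k0 ≤ 1`: `(a_i - a_p)·(x - ε e) ≥ 0`; for `a_i k0 ≥ 2`: `i` is not on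
the face of `w`, `(a_i - a_p)·x ≥ (a_i - a_p)·w > 0`.  So `x - ε e ∈ minCone a {p} ⊆ cCone G` for small `ε > 0`, against `low_pt`.
`vpair_down`: `x = ∑_{σ.erase e} rv i ∈ minCone a {p}`.  By `up_pt` (span: `span_vertex`) `x + ε e ∉ cCone G0`, so `x + ε e ∉ minCone a {p}` for all `ε > 0`, so there is `q` with `a_q k0 = 0` and `a_q·x = a_p·x` (otherwise `(a_i - a_p)·(x + ε e) ≥ 0` for all `i` and small `ε`).  Let `τ` be the minimal set at `x`; `p, q ∈ τ`, `τ` is contained in the face of the critical `w ∈ σ`, so `a_i k0 = 0` for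
`i ∈ τ`, `i ≠ p`; then `a_i - a_q` vanishes on `σ.erase e` and on `e`, so on everything (`n` independent vectors): `a_i = a_q`, `i = q`.  `τ = {p, q}`, rank two (`faceRank_pyr`, `faceRank_single`).  `σ.erase e ⊆ raysIn a R τ` is upper for `hm`, and `hp = hm` away from `e`.
-/

set_option autoImplicit false

namespace Pool.Agent.H56.SMC

open Finset H60.RegTri

/-- the value of the exponent `i` at `y`, as a linear form -/
noncomputable def znvdL {n r : ℕ} (a : Fin r → (Fin n →₀ ℕ)) (i : Fin r) :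
    (Fin n → ℝ) →ₗ[ℝ] ℝ := ∑ j, (a i j : ℝ) • (LinearMap.proj j : (Fin n → ℝ) →ₗ[ℝ] ℝ)

theorem znvdL_apply {n r : ℕ} (a : Fin r → (Fin n →₀ ℕ)) (i : Fin r) (y : Fin n → ℝ) :
    znvdL a i y = ∑ j, (a i j : ℝ) * y j := by
  simp [znvdL, LinearMap.sum_apply]

theorem znvd_mem {n r : ℕ} (a : Fin r → (Fin n →₀ ℕ)) (τ : Finset (Fin r)) (y : Fin n → ℝ) :
    y ∈ H22.minCone a τ ↔ (∀ j, 0 ≤ y j) ∧ ∀ i ∈ τ, ∀ l, znvdL a i y ≤ znvdL a l y := by
  simp only [znvdL_apply]
  rfl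

theorem znvdL_rv {n r : ℕ} (a : Fin r → (Fin n →₀ ℕ)) (i : Fin r) (R : Finset (Fin n → ℕ))
    (w : R) : znvdL a i (rv R w) = ((∑ j, a i j * w.1 j : ℕ) : ℝ) := by
  rw [znvdL_apply]
  push_cast
  rfl

theorem znvd_rv_e {n : ℕ} (R : Finset (Fin n → ℕ)) (k0 : Fin n) (h : eN k0 ∈ R) (j : Fin n) :
    rv R ⟨eN k0, h⟩ j = if j = k0 then 1 else 0 := by
  change ((eN k0 j : ℕ) : ℝ) = _
  unfold eN
  rw [Pi.single_apply]
  split_ifs <;> simp

theorem znvdL_e {n r : ℕ} (a : Fin r → (Fin n →₀ ℕ)) (i : Fin r) (R : Finset (Fin n → ℕ))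
    (k0 : Fin n) (h : eN k0 ∈ R) : znvdL a i (rv R ⟨eN k0, h⟩) = a i k0 := by
  rw [znvdL_apply]
  simp [znvd_rv_e]

theorem znvd_span {n : ℕ} {R : Finset (Fin n → ℕ)} (σ : Finset R)
    (h : LinearIndepOn ℝ (rv R) (σ : Set R)) (hc : σ.card = n) (y : Fin n → ℝ) :
    y ∈ Submodule.span ℝ (rv R '' (σ : Set R)) := by
  have h1 : Submodule.span ℝ (rv R '' (σ : Set R)) = ⊤ := by
    have h2 : LinearIndependent ℝ (fun w : σ => rv R w) := h
    have h3 := h2.span_eq_top_of_card_eq_finrank' (by simp [hc])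
    rw [← h3]
    congr 1
    ext z
    simp
  rw [h1]
  trivial

/-- `e` is not in the cone of `{p}` -/
theorem znvd_e_notMem {n r : ℕ} (a : Fin r → (Fin n →₀ ℕ)) (R : Finset (Fin n → ℕ)) (k0 : Fin n)
    (he : eN k0 ∈ R) (p : Fin r) (h1 : a p k0 = 1) (hex : ∃ i, a i k0 = 0)
    (τ : Finset (Fin r)) (hp : p ∈ τ) : (⟨eN k0, he⟩ : R) ∉ raysIn a R τ := by
  intro h
  rw [mem_raysIn, znvd_mem] at h
  obtain ⟨i, hi⟩ := hex
  have h2 := h.2 p hp i
  rw [znvdL_e, znvdL_e, h1, hi] at h2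
  norm_num at h2

/-- the positive linear form -/
theorem znvd_pos {n r : ℕ} (a : Fin r → (Fin n →₀ ℕ)) (R : Finset (Fin n → ℕ))
    (hR : RaySet a R) (w : R) :
    0 < (∑ j, (LinearMap.proj j : (Fin n → ℝ) →ₗ[ℝ] ℝ)) (rv R w) := by
  have h1 : w.1 ≠ 0 := (hR.facet w.1 w.2).1
  rw [LinearMap.sum_apply]
  have h2 : ∃ j, w.1 j ≠ 0 := by
    by_contra h
    push Not at h
    exact h1 (funext h)
  obtain ⟨j, hj⟩ := h2
  have h3 : (0 : ℝ) < rv R w j := by
    change (0 : ℝ) < ((w.1 j : ℕ) : ℝ)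
    exact_mod_cast Nat.pos_of_ne_zero hj
  refine Finset.sum_pos' (fun l _ => ?_) ⟨j, mem_univ j, h3⟩
  change (0 : ℝ) ≤ ((w.1 l : ℕ) : ℝ)
  positivity

theorem znvd_erase_sub {n r : ℕ} {a : Fin r → (Fin n →₀ ℕ)} {R : Finset (Fin n → ℕ)} {e : R}
    {p : Fin r} {σ : Finset R} (h : σ ⊆ insert e (raysIn a R {p})) :
    ∀ w ∈ σ.erase e, rv R w ∈ H22.minCone a {p} := by
  intro w hw
  have h1 := h (mem_of_mem_erase hw)
  rw [mem_insert] at h1
  rcases h1 with h1 | h1
  · exact absurd h1 (ne_of_mem_erase hw)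
  · exact mem_raysIn.1 h1

/-- on the face of `w`, the apex is `p` -/
theorem znvd_apex {n r : ℕ} (a : Fin r → (Fin n →₀ ℕ)) (k0 : Fin n) (p : Fin r) (h1 : a p k0 = 1)
    (w : Fin n → ℕ) (hw : H22.toReal w ∈ H22.minCone a {p}) (hB : B1 a w k0) (i : Fin r)
    (hi : ∑ j, a i j * w j = ∑ j, a p j * w j) (hip : i ≠ p) : a i k0 = 0 := by
  have h2 := H22.wmin_eq hw (mem_singleton_self p)
  obtain ⟨-, i1, h3, h4, h5⟩ := hB
  have h6 : p = i1 := by
    by_contra h
    have := h5 p h2.symm h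
    omega
  subst h6
  exact h5 i (by rw [hi, h2]) hip

theorem vlow {n r : ℕ} (a : Fin r → (Fin n →₀ ℕ)) (R : Finset (Fin n → ℕ))
    (hR : RaySet a R) (s0 : ℂ) (k0 : Fin n) (hp hm : R → ℝ)
    (ht : TopBot (rv R) ⟨eN k0, hR.unit k0⟩ hp hm) (p : Fin r) (h1 : a p k0 = 1)
    (hex : ∃ i, a i k0 = 0)
    (hcrit : ∀ w ∈ R, CritW a s0 w → H22.toReal w ∈ H22.minCone a {p} → B1 a w k0)
    (σ : Finset R) (hσ : σ ∈ upT R hp (insert ⟨eN k0, hR.unit k0⟩ (raysIn a R {p})) n) :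
    ⟨eN k0, hR.unit k0⟩ ∈ σ ∧ ∀ w ∈ σ, ¬ CritW a s0 w.1 := by
  rw [mem_upT] at hσ
  obtain ⟨hup, hcard⟩ := hσ
  have hspan := znvd_span σ hup.2.1 hcard
  set e : R := ⟨eN k0, hR.unit k0⟩ with he
  refine ⟨low_mem (rv R) e hp hm ht _ (mem_insert_self _ _) σ hup (hspan _), ?_⟩
  intro w hw hcw
  have hwe : w ≠ e := by
    rintro rfl
    obtain ⟨i, hi⟩ := hex
    have h2 : H22.wmin a e.1 ≤ 0 := by
      refine (ciInf_le (OrderBot.bddBelow _) i).trans ?_
      rw [he]
      change ∑ j, a i j * eN k0 j ≤ 0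
      unfold eN
      simp [Pi.single_apply, hi]
    have h3 := hcw.2.1
    omega
  have hmem := znvd_erase_sub hup.1
  have hwE : w ∈ σ.erase e := mem_erase.2 ⟨hwe, hw⟩
  have hwm := hmem w hwE
  have hB := hcrit w.1 w.2 hcw hwm
  have hmem' : ∀ v ∈ σ.erase e, (∀ j, 0 ≤ rv R v j) ∧ ∀ l, znvdL a p (rv R v) ≤ znvdL a l (rv R v) :=
    fun v hv => ⟨(hmem v hv).1, ((znvd_mem a _ _).1 (hmem v hv)).2 p (mem_singleton_self p)⟩
  set x : Fin n → ℝ := ∑ i ∈ σ.erase e, rv R i with hx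
  -- the value at `x` dominates the value at `w`
  have hxw : ∀ i, znvdL a i (rv R w) - znvdL a p (rv R w) ≤ znvdL a i x - znvdL a p x := by
    intro i
    rw [hx, map_sum, map_sum, ← Finset.sum_sub_distrib]
    exact Finset.single_le_sum (f := fun v => znvdL a i (rv R v) - znvdL a p (rv R v))
      (fun v hv => sub_nonneg.2 ((hmem' v hv).2 i)) hwE
  have hxk : 1 ≤ x k0 := by
    have h2 : rv R w k0 ≤ x k0 := by
      rw [hx, Finset.sum_apply]
      exact Finset.single_le_sum (f := fun v => rv R v k0) (fun v hv => (hmem' v hv).1 k0) hwE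
    have h3 : (1 : ℝ) ≤ rv R w k0 := by
      change (1 : ℝ) ≤ ((w.1 k0 : ℕ) : ℝ)
      exact_mod_cast Nat.one_le_iff_ne_zero.2 hB.1
    linarith
  have hx0 : ∀ j, 0 ≤ x j := by
    intro j
    rw [hx, Finset.sum_apply]
    exact Finset.sum_nonneg fun v hv => (hmem' v hv).1 j
  set M : ℝ := ∑ i, (a i k0 : ℝ) with hM
  have hM0 : 0 ≤ M := Finset.sum_nonneg fun i _ => Nat.cast_nonneg _
  have hMi : ∀ i, (a i k0 : ℝ) ≤ M := fun i =>
    Finset.single_le_sum (f := fun i => (a i k0 : ℝ)) (fun i _ => Nat.cast_nonneg _) (mem_univ i)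
  have hε : (0 : ℝ) < 1 / (1 + M) := by positivity
  have hcone : x - (1 / (1 + M)) • rv R e ∈ H22.minCone a {p} := by
    rw [znvd_mem]
    refine ⟨fun j => ?_, fun i hi l => ?_⟩
    · rw [Pi.sub_apply, Pi.smul_apply, he, znvd_rv_e, smul_eq_mul]
      by_cases hj : j = k0
      · rw [if_pos hj, mul_one, hj]
        have : 1 / (1 + M) ≤ 1 := by
          rw [div_le_one (by positivity)]
          linarith
        linarith
      · rw [if_neg hj, mul_zero, sub_zero]
        exact hx0 j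
    · rw [mem_singleton] at hi
      subst hi
      rw [map_sub, map_sub, map_smul, map_smul, he, znvdL_e, znvdL_e, h1, smul_eq_mul, smul_eq_mul]
      have h2 := hxw l
      have h3 := (hmem' w hwE).2 l
      push_cast
      by_cases h4 : a l k0 ≤ 1
      · have h5 : (a l k0 : ℝ) ≤ 1 := by exact_mod_cast h4
        have h6 : 1 / (1 + M) * (a l k0 : ℝ) ≤ 1 / (1 + M) * 1 :=
          mul_le_mul_of_nonneg_left h5 hε.le
        linarith
      · -- `l` is not on the face of `w`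
        have h5 : znvdL a i (rv R w) + 1 ≤ znvdL a l (rv R w) := by
          rw [znvdL_rv, znvdL_rv] at h3 ⊢
          have h6 : ∑ j, a i j * w.1 j ≤ ∑ j, a l j * w.1 j := by exact_mod_cast h3
          have h7 : ∑ j, a i j * w.1 j ≠ ∑ j, a l j * w.1 j := by
            intro h8
            have h9 : l ≠ i := by
              rintro rfl
              omega
            have := znvd_apex a k0 i h1 w.1 hwm hB l h8.symm h9
            omega
          have h8 : ∑ j, a i j * w.1 j + 1 ≤ ∑ j, a l j * w.1 j := by omega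
          exact_mod_cast h8
        have h6 : 1 / (1 + M) * (a l k0 : ℝ) ≤ 1 := by
          rw [div_mul_eq_mul_div, one_mul, div_le_one (by positivity)]
          linarith [hMi l]
        linarith
  have hgen := hR.gen {p} ⟨p, mem_singleton_self p⟩ _ hcone
  refine low_pt (rv R) e hp hm ht (insert e (raysIn a R {p})) (mem_insert_self _ _)
    (∑ j, (LinearMap.proj j : (Fin n → ℝ) →ₗ[ℝ] ℝ)) (fun i _ => znvd_pos a R hR i) σ hup
    (fun l _ => hspan _) (1 / (1 + M)) hε ?_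
  obtain ⟨y, hy, hy2⟩ := hgen
  have hne : e ∉ raysIn a R {p} :=
    znvd_e_notMem a R k0 (hR.unit k0) p h1 hex {p} (mem_singleton_self p)
  refine ⟨fun i => if i = e then 0 else y i, fun i hi => ?_, ?_⟩
  · change 0 ≤ if i = e then 0 else y i
    split_ifs with h2
    · exact le_rfl
    · exact hy i ((mem_insert.1 hi).resolve_left h2)
  · change x - (1 / (1 + M)) • rv R e = _
    rw [Finset.sum_insert hne, hy2]
    beta_reduce
    rw [if_pos rfl, zero_smul, zero_add]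
    refine Finset.sum_congr rfl fun i hi => ?_
    rw [if_neg]
    rintro rfl
    exact hne hi

theorem vpair_down {n r : ℕ} (a : Fin r → (Fin n →₀ ℕ)) (ha : Function.Injective a)
    (R : Finset (Fin n → ℕ)) (hR : RaySet a R) (s0 : ℂ) (k0 : Fin n) (hp hm : R → ℝ)
    (ht : TopBot (rv R) ⟨eN k0, hR.unit k0⟩ hp hm) (p : Fin r) (h1 : a p k0 = 1)
    (hF : H22.IsFace a {p}) (hex : ∃ i, a i k0 = 0)
    (hcrit : ∀ w ∈ R, CritW a s0 w → H22.toReal w ∈ H22.minCone a {p} → B1 a w k0)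
    (σ : Finset R) (hσ : σ ∈ upT R hm (insert ⟨eN k0, hR.unit k0⟩ (raysIn a R {p})) n)
    (he : ⟨eN k0, hR.unit k0⟩ ∈ σ) (hc : ∃ w ∈ σ, CritW a s0 w.1) :
    ∃ τ ∈ PP a R s0 k0, p ∈ τ ∧ H22.faceRank a τ = 2 ∧
      σ.erase ⟨eN k0, hR.unit k0⟩ ∈ upT R hp (raysIn a R τ) (n + 1 - H22.faceRank a τ) := by
  rw [mem_upT] at hσ
  obtain ⟨hup, hcard⟩ := hσ
  have hspan := znvd_span σ hup.2.1 hcard
  set e : R := ⟨eN k0, hR.unit k0⟩ with hedef
  obtain ⟨w, hw, hcw⟩ := hc
  have hwe : w ≠ e := by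
    rintro rfl
    obtain ⟨i, hi⟩ := hex
    have h2 : H22.wmin a e.1 ≤ 0 := by
      refine (ciInf_le (OrderBot.bddBelow _) i).trans ?_
      rw [hedef]
      change ∑ j, a i j * eN k0 j ≤ 0
      unfold eN
      simp [Pi.single_apply, hi]
    have h3 := hcw.2.1
    omega
  have hmem := znvd_erase_sub hup.1
  have hwE : w ∈ σ.erase e := mem_erase.2 ⟨hwe, hw⟩
  have hwm := hmem w hwE
  have hB := hcrit w.1 w.2 hcw hwm
  have hmem' : ∀ v ∈ σ.erase e, (∀ j, 0 ≤ rv R v j) ∧ ∀ l, znvdL a p (rv R v) ≤ znvdL a l (rv R v) :=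
    fun v hv => ⟨(hmem v hv).1, ((znvd_mem a _ _).1 (hmem v hv)).2 p (mem_singleton_self p)⟩
  set x : Fin n → ℝ := ∑ i ∈ σ.erase e, rv R i with hx
  have hx0 : ∀ j, 0 ≤ x j := by
    intro j
    rw [hx, Finset.sum_apply]
    exact Finset.sum_nonneg fun v hv => (hmem' v hv).1 j
  -- the value at `x` is the sum of the values
  have hxN : ∀ i, znvdL a i x = ((∑ v ∈ σ.erase e, ∑ j, a i j * v.1 j : ℕ) : ℝ) := by
    intro i
    rw [hx, map_sum, Nat.cast_sum]
    exact Finset.sum_congr rfl fun v _ => znvdL_rv a i R v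
  have hxp : ∀ l, znvdL a p x ≤ znvdL a l x := by
    intro l
    rw [hx, map_sum, map_sum]
    exact Finset.sum_le_sum fun v hv => (hmem' v hv).2 l
  -- equality at `x` gives equality on `σ.erase e`
  have hxeq : ∀ i, znvdL a i x = znvdL a p x → ∀ v ∈ σ.erase e,
      znvdL a i (rv R v) = znvdL a p (rv R v) := by
    intro i hi v hv
    rw [hx, map_sum, map_sum] at hi
    have h2 := (Finset.sum_eq_sum_iff_of_le fun v hv => (hmem' v hv).2 i).1 hi.symm
    exact (h2 v hv).symm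
  have hne : e ∉ raysIn a R {p} :=
    znvd_e_notMem a R k0 (hR.unit k0) p h1 hex {p} (mem_singleton_self p)
  -- the exponent `q`
  have hq : ∃ q, a q k0 = 0 ∧ znvdL a q x = znvdL a p x := by
    by_contra hcon
    push Not at hcon
    refine up_pt (rv R) e hp hm ht (raysIn a R {p}) hne
      (∑ j, (LinearMap.proj j : (Fin n → ℝ) →ₗ[ℝ] ℝ)) (fun i _ => znvd_pos a R hR i)
      (span_vertex a R hR p hF _) σ hup he (fun l _ => hspan _) 1 one_pos ?_
    refine hR.gen {p} ⟨p, mem_singleton_self p⟩ _ ?_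
    rw [znvd_mem]
    refine ⟨fun j => ?_, fun i hi l => ?_⟩
    · rw [Pi.add_apply, Pi.smul_apply, hedef, znvd_rv_e, smul_eq_mul]
      have h2 := hx0 j
      by_cases h3 : j = k0
      · rw [if_pos h3, mul_one]
        linarith
      · rw [if_neg h3, mul_zero, add_zero]
        exact h2
    · rw [mem_singleton] at hi
      subst hi
      rw [map_add, map_add, map_smul, map_smul, hedef, znvdL_e, znvdL_e, h1, smul_eq_mul,
        smul_eq_mul, one_mul, one_mul]
      have h2 := hxp l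
      rcases Nat.eq_zero_or_pos (a l k0) with h3 | h3
      · have h4 := hcon l h3
        rw [h3]
        rw [hxN, hxN] at h2 h4 ⊢
        have h5 : (∑ v ∈ σ.erase e, ∑ j, a i j * v.1 j) ≤ ∑ v ∈ σ.erase e, ∑ j, a l j * v.1 j := by
          exact_mod_cast h2
        have h6 : (∑ v ∈ σ.erase e, ∑ j, a l j * v.1 j) ≠ ∑ v ∈ σ.erase e, ∑ j, a i j * v.1 j := by
          exact_mod_cast h4
        have h7 : (∑ v ∈ σ.erase e, ∑ j, a i j * v.1 j) + 1
            ≤ (∑ v ∈ σ.erase e, ∑ j, a l j * v.1 j) + 0 := by omega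
        exact_mod_cast h7
      · have h4 : (1 : ℝ) ≤ (a l k0 : ℝ) := by exact_mod_cast h3
        push_cast
        linarith
  obtain ⟨q, hq0, hqx⟩ := hq
  have hpq : p ≠ q := by
    rintro rfl
    omega
  -- every exponent which is minimal at `x` is `p` or `q`
  have htwo : ∀ i, znvdL a i x = znvdL a p x → i ≠ p → i = q := by
    intro i hi hip
    have h2 := hxeq i hi
    have h3 : a i k0 = 0 := by
      refine znvd_apex a k0 p h1 w.1 hwm hB i ?_ hip
      have h4 := h2 w hwE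
      rw [znvdL_rv, znvdL_rv] at h4
      exact_mod_cast h4
    have h4 := hxeq q hqx
    have h5 : ∀ v ∈ σ, znvdL a i (rv R v) = znvdL a q (rv R v) := by
      intro v hv
      by_cases hve : v = e
      · rw [hve, hedef, znvdL_e, znvdL_e, h3, hq0]
      · have hv' : v ∈ σ.erase e := mem_erase.2 ⟨hve, hv⟩
        rw [h2 v hv', h4 v hv']
    have h6 : ∀ y, znvdL a i y = znvdL a q y := by
      intro y
      have h7 := hspan y
      refine Submodule.span_induction (p := fun y _ => znvdL a i y = znvdL a q y) ?_ ?_ ?_ ?_ h7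
      · rintro _ ⟨v, hv, rfl⟩
        exact h5 v hv
      · rw [map_zero, map_zero]
      · intro y z _ _ hy hz
        rw [map_add, map_add, hy, hz]
      · intro c y _ hy
        rw [map_smul, map_smul, hy]
    apply ha
    ext j
    have h7 := h6 (Pi.single j 1)
    rw [znvdL_apply, znvdL_apply] at h7
    simp [Pi.single_apply] at h7
    exact h7
  have hrank : H22.faceRank a {p, q} = 2 := by
    have h2 := faceRank_pyr a {q} p k0 (by
      intro i hi
      rw [mem_singleton] at hi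
      rw [hi, hq0]) (by rw [h1]; exact one_ne_zero)
    rw [h2, faceRank_single]
  -- the rays of `σ.erase e` are in the cone of `{p, q}`
  have hpair : ∀ v ∈ σ.erase e, rv R v ∈ H22.minCone a {p, q} := by
    intro v hv
    rw [znvd_mem]
    refine ⟨(hmem' v hv).1, fun i hi l => ?_⟩
    rw [mem_insert, mem_singleton] at hi
    rcases hi with rfl | rfl
    · exact (hmem' v hv).2 l
    · rw [hxeq i hqx v hv]
      exact (hmem' v hv).2 l
  have hface : H22.IsFace a {p, q} := by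
    refine ⟨x, hx0, fun l => ?_⟩
    simp only [← znvdL_apply]
    constructor
    · intro hl l'
      rw [mem_insert, mem_singleton] at hl
      rcases hl with rfl | rfl
      · exact hxp l'
      · rw [hqx]
        exact hxp l'
    · intro hl
      have h2 : znvdL a l x = znvdL a p x := le_antisymm (hl p) (hxp l)
      rw [mem_insert, mem_singleton]
      by_cases hlp : l = p
      · exact Or.inl hlp
      · exact Or.inr (htwo l h2 hlp)
  refine ⟨{p, q}, mem_PP.2 ⟨hface, ⟨w.1, w.2, hcw, hpair w hwE⟩, p, mem_insert_self _ _, ?_⟩,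
    mem_insert_self _ _, hrank, ?_⟩
  · rw [h1]
    exact one_ne_zero
  · rw [mem_upT, hrank, card_erase_of_mem he, hcard]
    refine ⟨⟨fun v hv => mem_raysIn.2 (hpair v hv), hup.2.1.mono (by simp), ?_⟩, by omega⟩
    intro l hl hlσ β hβ
    have hle : l ≠ e := by
      rintro rfl
      exact znvd_e_notMem a R k0 (hR.unit k0) p h1 hex {p, q} (mem_insert_self _ _) hl
    have hlσ' : l ∉ σ := fun h => hlσ (mem_erase.2 ⟨hle, h⟩)
    have hl' : l ∈ raysIn a R {p} := by
      rw [mem_raysIn, znvd_mem] at hl ⊢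
      refine ⟨hl.1, fun i hi => hl.2 i ?_⟩
      rw [mem_singleton] at hi
      rw [hi]
      exact mem_insert_self _ _
    have h2 := hup.2.2 l (mem_insert_of_mem hl') hlσ' (fun i => if i = e then 0 else β i) (by
      rw [← Finset.add_sum_erase σ _ he, if_pos rfl, zero_smul, zero_add, hβ]
      refine Finset.sum_congr rfl fun i hi => ?_
      rw [if_neg (ne_of_mem_erase hi)])
    rw [← Finset.add_sum_erase σ _ he, if_pos rfl, zero_mul, zero_add, ← ht.same l hle] at h2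
    refine h2.trans_le (le_of_eq ?_)
    refine Finset.sum_congr rfl fun i hi => ?_
    rw [if_neg (ne_of_mem_erase hi), ht.same i (ne_of_mem_erase hi)]

end Pool.Agent.H56.SMC

end S_ZNVD

section S_ZNVU

/-!
# ZNVU: from the edge to the apex

Notation: `e = eN k0`, `p` an exponent with `a_p k0 = 1` such that `{p}` is a face, `G0 = raysIn a R {p}`, `G = insert e G0`.  `e ∉ G0`, since some `i` has `a_i k0 = 0 < 1`.
`vpair_up`: `τ = {p, q}` by rank two: `pp_apex` and `rank_one` for `τ.erase p` (`faceRank_pyr`).  `insert e B ⊆ G`, independent (`a_q - a_p` vanishes on `B` and is `-1` on `e`).  Upper for `hm`: for `l ∈ G0`, `v_l = ∑ β_i v_i`, apply `a_q - a_p`: `-β_e ≥ 0`; if `β_e < 0` use `botl`, if `β_e = 0` then `l ∈ raysIn a R τ`, and `B` is upper in it.  Multiplicity: `mulS_insert`, `φ = a_q - a_p`.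
-/

set_option autoImplicit false

namespace Pool.Agent.H56.SMC

open Finset H60.RegTri

theorem ZNVU_mono {n r : ℕ} (a : Fin r → (Fin n →₀ ℕ)) (p : Fin r) (τ : Finset (Fin r))
    (hp : p ∈ τ) (k : Fin n → ℝ) (h : k ∈ H22.minCone a τ) : k ∈ H22.minCone a {p} := by
  refine ⟨h.1, ?_⟩
  intro i hi l
  rw [Finset.mem_singleton] at hi
  subst hi
  exact h.2 _ hp l

/-- the functional `a_q - a_p` -/
theorem ZNVU_phi_sum {n r : ℕ} (a : Fin r → (Fin n →₀ ℕ)) (p q : Fin r) {ι : Type*}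
    (s : Finset ι) (β : ι → ℝ) (v : ι → Fin n → ℝ) (y : Fin n → ℝ)
    (h : y = ∑ i ∈ s, β i • v i) :
    ∑ j, ((a q j : ℝ) - (a p j : ℝ)) * y j =
      ∑ i ∈ s, β i * ∑ j, ((a q j : ℝ) - (a p j : ℝ)) * v i j := by
  subst h
  simp only [Finset.sum_apply, Pi.smul_apply, smul_eq_mul, Finset.mul_sum]
  rw [Finset.sum_comm]
  refine Finset.sum_congr rfl fun i _ => Finset.sum_congr rfl fun j _ => ?_
  ring

/-- ZNV -/
theorem vpair_up {n r : ℕ} (a : Fin r → (Fin n →₀ ℕ)) (ha : Function.Injective a)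
    (R : Finset (Fin n → ℕ)) (hR : RaySet a R) (s0 : ℂ) (k0 : Fin n) (hp hm : R → ℝ)
    (ht : TopBot (rv R) ⟨eN k0, hR.unit k0⟩ hp hm) (p : Fin r) (h1 : a p k0 = 1)
    (hcrit : ∀ w ∈ R, CritW a s0 w → H22.toReal w ∈ H22.minCone a {p} → B1 a w k0)
    (τ : Finset (Fin r)) (hτ : τ ∈ PP a R s0 k0) (hpτ : p ∈ τ) (h2 : H22.faceRank a τ = 2)
    (B : Finset R) (hB : B ∈ upT R hp (raysIn a R τ) (n + 1 - H22.faceRank a τ)) :
    ⟨eN k0, hR.unit k0⟩ ∉ B ∧ insert ⟨eN k0, hR.unit k0⟩ B ∈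
      upT R hm (insert ⟨eN k0, hR.unit k0⟩ (raysIn a R {p})) n ∧
      mulS (insert ⟨eN k0, hR.unit k0⟩ B) = mulS B := by
  classical
  set e : R := ⟨eN k0, hR.unit k0⟩ with he
  obtain ⟨hU, hcard⟩ := mem_upT.1 hB
  obtain ⟨hBsub, hBind, hBup⟩ := hU
  -- the apex of `τ` is `p`
  obtain ⟨p', hp'τ, hp'1, hp'0⟩ := pp_apex a R s0 k0 τ hτ
    (fun w hw hc hm => hcrit w hw hc (ZNVU_mono a p τ hpτ _ hm))
  have hpp : p = p' := by
    by_contra hne
    have := hp'0 p hpτ hne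
    omega
  subst hpp
  -- the base is one exponent
  have herk : H22.faceRank a (τ.erase p) = 1 := by
    have h := faceRank_pyr a (τ.erase p) p k0 (fun i hi => hp'0 i (Finset.mem_of_mem_erase hi)
      (Finset.ne_of_mem_erase hi)) (by omega)
    rw [Finset.insert_erase hpτ, h2] at h
    omega
  have hene : (τ.erase p).Nonempty := by
    rw [Finset.nonempty_iff_ne_empty]
    intro h0
    rw [h0] at herk
    unfold H22.faceRank at herk
    rw [Finset.coe_empty, Set.image_empty, Submodule.span_empty, finrank_bot] at herk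
    exact absurd herk (by norm_num)
  obtain ⟨q, hq⟩ := rank_one a ha (τ.erase p) hene herk
  have hqe : q ∈ τ.erase p := by rw [hq]; exact Finset.mem_singleton_self q
  have hqp : q ≠ p := Finset.ne_of_mem_erase hqe
  have hqτ : q ∈ τ := Finset.mem_of_mem_erase hqe
  have hq0 : a q k0 = 0 := hp'0 q hqτ hqp
  have hτmem : ∀ i ∈ τ, i = p ∨ i = q := by
    intro i hi
    by_cases hip : i = p
    · exact Or.inl hip
    · right
      have : i ∈ τ.erase p := Finset.mem_erase.2 ⟨hip, hi⟩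
      rw [hq] at this
      exact Finset.mem_singleton.1 this
  -- the functional
  have hφe : ∑ j, ((a q j : ℝ) - (a p j : ℝ)) * rv R e j = -1 := by
    have : ∀ j, ((a q j : ℝ) - (a p j : ℝ)) * rv R e j =
        if j = k0 then ((a q k0 : ℝ) - (a p k0 : ℝ)) else 0 := by
      intro j
      by_cases hj : j = k0
      · subst hj
        simp [rv, H22.toReal, he, eN]
      · simp [rv, H22.toReal, he, eN, hj]
    rw [Finset.sum_congr rfl fun j _ => this j, Finset.sum_ite_eq' Finset.univ k0]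
    simp [h1, hq0]
  have hφτ : ∀ w ∈ raysIn a R τ, ∑ j, ((a q j : ℝ) - (a p j : ℝ)) * rv R w j = 0 := by
    intro w hw
    have hw' := mem_raysIn.1 hw
    have e1 := hw'.2 q hqτ p
    have e2 := hw'.2 p hpτ q
    have e3 : ∑ j, ((a q j : ℝ) - (a p j : ℝ)) * rv R w j =
        ∑ j, (a q j : ℝ) * rv R w j - ∑ j, (a p j : ℝ) * rv R w j := by
      rw [← Finset.sum_sub_distrib]
      exact Finset.sum_congr rfl fun j _ => by ring
    rw [e3]
    linarith
  have hφp : ∀ w ∈ raysIn a R {p}, 0 ≤ ∑ j, ((a q j : ℝ) - (a p j : ℝ)) * rv R w j := by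
    intro w hw
    have hw' := mem_raysIn.1 hw
    have e2 := hw'.2 p (Finset.mem_singleton_self p) q
    have e3 : ∑ j, ((a q j : ℝ) - (a p j : ℝ)) * rv R w j =
        ∑ j, (a q j : ℝ) * rv R w j - ∑ j, (a p j : ℝ) * rv R w j := by
      rw [← Finset.sum_sub_distrib]
      exact Finset.sum_congr rfl fun j _ => by ring
    rw [e3]
    linarith
  have heB : e ∉ B := by
    intro h
    have := hφτ e (hBsub h)
    rw [hφe] at this
    norm_num at this
  have hsub : raysIn a R τ ⊆ raysIn a R {p} := by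
    intro w hw
    exact mem_raysIn.2 (ZNVU_mono a p τ hpτ _ (mem_raysIn.1 hw))
  refine ⟨heB, ?_, ?_⟩
  · rw [mem_upT]
    have hind : LinearIndepOn ℝ (rv R) ((insert e B : Finset R) : Set R) := by
      rw [Finset.coe_insert]
      rw [linearIndepOn_insert (by simpa using heB)]
      refine ⟨hBind, ?_⟩
      intro hmem
      obtain ⟨β, hβ⟩ := (mem_span_iff (rv R) B (rv R e)).1 hmem
      have h3 := ZNVU_phi_sum a p q B β (rv R) (rv R e) hβ
      rw [hφe, Finset.sum_eq_zero fun i hi => by rw [hφτ i (hBsub hi), mul_zero]] at h3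
      norm_num at h3
    refine ⟨⟨Finset.insert_subset_insert _ (hBsub.trans hsub), hind, ?_⟩, ?_⟩
    · intro l hl hlB β hβ
      have hle : l ≠ e := fun h => hlB (h ▸ Finset.mem_insert_self _ _)
      have hlB' : l ∉ B := fun h => hlB (Finset.mem_insert_of_mem h)
      have hl0 : l ∈ raysIn a R {p} := (Finset.mem_insert.1 hl).resolve_left hle
      have h3 := ZNVU_phi_sum a p q (insert e B) β (rv R) (rv R l) hβ
      rw [Finset.sum_insert heB, hφe,
        Finset.sum_eq_zero (s := B) fun i hi => by rw [hφτ i (hBsub hi), mul_zero]] at h3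
      have h4 := hφp l hl0
      rcases lt_or_eq_of_le (show β e ≤ 0 by linarith) with hb | hb
      · exact ht.botl (insert e B) (Finset.mem_insert_self _ _) hind l hlB β hβ hb
      · rw [Finset.sum_insert heB, hb, zero_smul, zero_add] at hβ
        have hlτ : l ∈ raysIn a R τ := by
          rw [mem_raysIn]
          have hl' := mem_raysIn.1 hl0
          refine ⟨hl'.1, ?_⟩
          intro i hi l'
          have hpl := hl'.2 p (Finset.mem_singleton_self p)
          rcases hτmem i hi with h | h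
          · rw [h]
            exact hpl l'
          · have e3 : ∑ j, ((a q j : ℝ) - (a p j : ℝ)) * rv R l j =
                ∑ j, (a q j : ℝ) * rv R l j - ∑ j, (a p j : ℝ) * rv R l j := by
              rw [← Finset.sum_sub_distrib]
              exact Finset.sum_congr rfl fun j _ => by ring
            rw [h]
            have h5 := hpl l'
            have h6 : ∑ j, ((a q j : ℝ) - (a p j : ℝ)) * rv R l j = 0 := by
              rw [h3, hb]
              ring
            rw [e3] at h6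
            linarith
        have h7 := hBup l hlτ hlB' β hβ
        rw [Finset.sum_insert heB, hb, zero_mul, zero_add, ← ht.same l hle]
        refine lt_of_lt_of_eq h7 ?_
        refine Finset.sum_congr rfl fun i hi => ?_
        rw [ht.same i (fun h => heB (h ▸ hi))]
    · rw [Finset.card_insert_of_notMem heB, hcard, h2]
      have : 0 < n := lt_of_le_of_lt (Nat.zero_le _) k0.2
      omega
  · refine mulS_insert B e heB (fun j => (a q j : ℤ) - (a p j : ℤ)) ?_ (Or.inr ?_)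
    · intro w hw
      have h3 := hφτ w (hBsub hw)
      have h4 : ((∑ j, ((a q j : ℤ) - (a p j : ℤ)) * ((w.1 j : ℕ) : ℤ) : ℤ) : ℝ) = 0 := by
        push_cast
        exact h3
      exact_mod_cast h4
    · have h4 : ((∑ j, ((a q j : ℤ) - (a p j : ℤ)) * ((e.1 j : ℕ) : ℤ) : ℤ) : ℝ) = -1 := by
        push_cast
        exact hφe
      exact_mod_cast h4

end Pool.Agent.H56.SMC

end S_ZNVU

section S_ZNW

/-!
# ZNW: the term of an apex

Proof.  Heights by `exists_topBot` (`v = rv R`, `e = eN k0`); `G0 = raysIn a R {p}`, `G = insert e G0`, `e ∉ G0` (some `i` has `a_i k0 = 0 < 1 = a_p k0`).  `J_p = ∑_{σ ∈ upT hp G0 n} tm σ` (`jf_tri`, `faceRank_single`), and `tm a σ = tmV (a p) σ` for `σ ⊆ G0` (`H22.wmin_eq`).  `σ ∈ upT hp G0 n` iff `σ ∈ upT hm G n` and `e ∉ σ` (`hp = hm` away from `e`; `bot`).  The `σ ∈ upT hm G n` with `e ∈ σ` and with a critical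
element correspond to the pairs `(τ, B)`, `τ ∈ PP`, `p ∈ τ`, rank two, `B ∈ upT hp (raysIn a R τ)` with a critical element (`vpair_down`, `vpair_up`; injective: `τ` is determined by `B`: `τ = {p, q}`, both `τ₁`, `τ₂` are contained in the face of a critical `w ∈ B` … more directly: the `n - 1` independent elements of `B` and `e` determine `a_q`: `a_{q₁} - a_{q₂}` vanishes on `B` and on `e`, so `q₁ = q₂`), with
`tmV (a p) (insert e B) = tm a B * (X + 1)⁻¹` (`VV (a p) e = 1 + X`).  The other `σ ∈ upT hm G n` with `e ∈ σ` are regular.  `∑_{upT hm G n} tmV = ∑_{upT hp G n} tmV` (`vert_lin`, `span_vertex`), and the right side is regular by `vlow` (for `w ∈ σ`, `w ≠ e`, `VV (a p) w = WW a w`, regular inverse; for `e` `(1 + X)⁻¹` is regular as `s0 ≠ -1`).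
-/

set_option autoImplicit false

namespace Pool.Agent.H56.SMC

open Finset H60.RegTri

theorem znw_sum_unit {n : ℕ} (k0 : Fin n) (c : Fin n → ℕ) :
    ∑ j, c j * (eN k0) j = c k0 := by
  rw [Finset.sum_eq_single k0]
  · simp [eN]
  · intro j _ hj
    simp [eN, Pi.single_eq_of_ne hj]
  · intro h
    exact absurd (mem_univ _) h

theorem znw_sum_unitR {n : ℕ} (k0 : Fin n) (c : Fin n → ℝ) :
    ∑ j, c j * H22.toReal (eN k0) j = c k0 := by
  rw [Finset.sum_eq_single k0]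
  · simp [eN, H22.toReal]
  · intro j _ hj
    simp [eN, H22.toReal, Pi.single_eq_of_ne hj]
  · intro h
    exact absurd (mem_univ _) h

theorem znw_notMem {n r : ℕ} (a : Fin r → (Fin n →₀ ℕ)) (R : Finset (Fin n → ℕ)) (k0 : Fin n)
    (he : eN k0 ∈ R) (p : Fin r) (h1 : a p k0 = 1) (hex : ∃ i, a i k0 = 0) :
    (⟨eN k0, he⟩ : R) ∉ raysIn a R {p} := by
  rw [mem_raysIn]
  rintro ⟨-, h⟩
  obtain ⟨i, hi⟩ := hex
  have h2 := h p (mem_singleton_self p) i
  have h3 := znw_sum_unitR k0 (fun j => (a p j : ℝ))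
  have h4 := znw_sum_unitR k0 (fun j => (a i j : ℝ))
  simp only [rv] at h2
  rw [h3, h4, h1, hi] at h2
  norm_num at h2

theorem znw_wsum {n : ℕ} (k0 : Fin n) : H22.wsum (eN k0) = 1 := by
  have h := znw_sum_unit k0 (fun _ => 1)
  simpa [H22.wsum] using h

theorem znw_VV_unit {n : ℕ} (k0 : Fin n) (c : Fin n → ℕ) (h1 : c k0 = 1) :
    VV c (eN k0) = RatFunc.X + 1 := by
  unfold VV
  rw [znw_wsum, znw_sum_unit, h1]
  push_cast
  ring

theorem znw_VV {n r : ℕ} (a : Fin r → (Fin n →₀ ℕ)) (τ : Finset (Fin r)) (p : Fin r)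
    (hp : p ∈ τ) (w : Fin n → ℕ) (hw : H22.toReal w ∈ H22.minCone a τ) :
    VV (a p) w = WW a w := by
  unfold VV WW
  rw [H22.wmin_eq hw hp]

theorem znw_reg_inv {n r : ℕ} (a : Fin r → (Fin n →₀ ℕ)) (s0 : ℂ) (w : Fin n → ℕ)
    (hw : FacetNormal a w) (h : ¬ CritW a s0 w) : H37.SM.Reg s0 (WW a w)⁻¹ := by
  unfold WW
  apply H37.SM.reg_inv_linear
  intro h0
  by_cases hN : H22.wmin a w = 0
  · rw [hN] at h0
    have h2 : (H22.wsum w : ℂ) = 0 := by simpa using h0
    have h3 : H22.wsum w = 0 := by exact_mod_cast h2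
    apply hw.1
    funext j
    have h4 : w j ≤ H22.wsum w :=
      Finset.single_le_sum (f := w) (fun _ _ => Nat.zero_le _) (mem_univ j)
    show w j = 0
    omega
  · apply h
    refine ⟨hw, Nat.pos_of_ne_zero hN, ?_⟩
    have h2 : (H22.wmin a w : ℂ) ≠ 0 := by exact_mod_cast hN
    field_simp
    linear_combination h0

theorem znw_reg_unit (s0 : ℂ) (hs0 : s0 ≠ -1) :
    H37.SM.Reg s0 (RatFunc.X + 1 : RatFunc ℂ)⁻¹ := by
  have h := H37.SM.reg_inv_linear (s0 := s0) 1 1 (by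
    intro h
    apply hs0
    push_cast at h
    linear_combination h)
  have h2 : ((1 : ℕ) : RatFunc ℂ) + ((1 : ℕ) : RatFunc ℂ) * RatFunc.X = RatFunc.X + 1 := by
    push_cast
    ring
  rwa [h2] at h

theorem znw_reg_prod {ι : Type*} (s0 : ℂ) (S : Finset ι) (f : ι → RatFunc ℂ)
    (h : ∀ i ∈ S, H37.SM.Reg s0 (f i)) : H37.SM.Reg s0 (∏ i ∈ S, f i) := by
  classical
  induction S using Finset.induction_on with
  | empty =>
    rw [Finset.prod_empty]
    have := H37.SM.reg_natCast (s0 := s0) 1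
    rwa [Nat.cast_one] at this
  | insert i T hi ih =>
    rw [Finset.prod_insert hi]
    exact (h i (Finset.mem_insert_self i T)).mul
      (ih fun j hj => h j (Finset.mem_insert_of_mem hj))

/-- the contribution of a simplex without critical rays to the integral of the linear form -/
theorem znw_tmV_reg {n r : ℕ} (a : Fin r → (Fin n →₀ ℕ)) (R : Finset (Fin n → ℕ))
    (hR : RaySet a R) (s0 : ℂ) (hs0 : s0 ≠ -1) (k0 : Fin n) (p : Fin r) (h1 : a p k0 = 1)
    (σ : Finset R) (hσ : σ ⊆ insert ⟨eN k0, hR.unit k0⟩ (raysIn a R {p}))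
    (hc : ∀ w ∈ σ, ¬ CritW a s0 w.1) : H37.SM.Reg s0 (tmV (a p) σ) := by
  unfold tmV
  refine (H37.SM.reg_natCast _).mul (znw_reg_prod s0 σ _ fun w hw => ?_)
  rcases mem_insert.1 (hσ hw) with h | h
  · rw [h]
    show H37.SM.Reg s0 (VV (a p) (eN k0))⁻¹
    rw [znw_VV_unit k0 _ h1]
    exact znw_reg_unit s0 hs0
  · rw [znw_VV a {p} p (mem_singleton_self p) w.1 (mem_raysIn.1 h)]
    exact znw_reg_inv a s0 w.1 (hR.facet w.1 w.2) (hc w hw)

/-- simplices of the apex away from `e` -/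
theorem znw_away {n : ℕ} (R : Finset (Fin n → ℕ)) (e : R)
    (hp hm : R → ℝ) (ht : TopBot (rv R) e hp hm) (G0 : Finset R) (he : e ∉ G0) (d : ℕ)
    (σ : Finset R) : (σ ∈ upT R hm (insert e G0) d ∧ e ∉ σ) ↔ σ ∈ upT R hp G0 d := by
  rw [mem_upT, mem_upT]
  have key : ∀ σ : Finset R, σ ⊆ G0 → ∀ β : R → ℝ,
      ∑ i ∈ σ, β i * hp i = ∑ i ∈ σ, β i * hm i := by
    intro σ hσ β
    refine Finset.sum_congr rfl fun i hi => ?_
    rw [ht.same i (fun h => he (h ▸ hσ hi))]
  constructor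
  · rintro ⟨⟨⟨h1, h2, h3⟩, h4⟩, h5⟩
    have h6 : σ ⊆ G0 := by
      intro i hi
      rcases mem_insert.1 (h1 hi) with h | h
      · exact absurd (h ▸ hi) h5
      · exact h
    refine ⟨⟨h6, h2, ?_⟩, h4⟩
    intro l hl hlσ β hβ
    rw [key σ h6 β, ht.same l (fun h => he (h ▸ hl))]
    exact h3 l (mem_insert_of_mem hl) hlσ β hβ
  · rintro ⟨⟨h1, h2, h3⟩, h4⟩
    have h5 : e ∉ σ := fun h => he (h1 h)
    refine ⟨⟨⟨h1.trans (subset_insert _ _), h2, ?_⟩, h4⟩, h5⟩
    intro l hl hlσ β hβ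
    rcases mem_insert.1 hl with h | h
    · subst h
      exact ht.bot σ h5 h2 β hβ
    · rw [← key σ h1 β, ← ht.same l (fun h' => he (h' ▸ h))]
      exact h3 l h hlσ β hβ

/-- the face is determined by a simplex which spans its cone -/
theorem znw_sub {n r : ℕ} (a : Fin r → (Fin n →₀ ℕ)) (R : Finset (Fin n → ℕ)) (h : R → ℝ)
    (τ₁ τ₂ : Finset (Fin r)) (p : Fin r) (hp1 : p ∈ τ₁) (hp2 : p ∈ τ₂)
    (hF : H22.IsFace a τ₁) (B : Finset R)
    (hB1 : B ∈ upT R h (raysIn a R τ₁) (n + 1 - H22.faceRank a τ₁))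
    (hB2 : B ⊆ raysIn a R τ₂) : τ₂ ⊆ τ₁ := by
  obtain ⟨k, hk0, hk⟩ := hF
  have hkm : k ∈ H22.minCone a τ₁ := ⟨hk0, fun i hi l => (hk i).1 hi l⟩
  rw [mem_upT] at hB1
  have hs := upT_span a R τ₁ ⟨p, hp1⟩ B hB1.1.1 hB1.1.2.1 hB1.2 k hkm
  rw [mem_span_iff] at hs
  obtain ⟨β, hβ⟩ := hs
  intro i hi
  have key : ∀ w ∈ B, ∑ j, (a i j : ℝ) * rv R w j = ∑ j, (a p j : ℝ) * rv R w j := by
    intro w hw
    have h2 := (mem_raysIn.1 (hB2 hw)).2
    exact le_antisymm (h2 i hi p) (h2 p hp2 i)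
  have hlin : ∀ q : Fin r, ∑ j, (a q j : ℝ) * k j =
      ∑ w ∈ B, β w * ∑ j, (a q j : ℝ) * rv R w j := by
    intro q
    rw [hβ]
    simp only [Finset.sum_apply, Pi.smul_apply, smul_eq_mul, Finset.mul_sum]
    rw [Finset.sum_comm]
    refine Finset.sum_congr rfl fun w _ => Finset.sum_congr rfl fun j _ => ?_
    ring
  rw [hk]
  intro l
  have h5 : ∑ j, (a i j : ℝ) * k j = ∑ j, (a p j : ℝ) * k j := by
    rw [hlin, hlin]
    exact Finset.sum_congr rfl fun w hw => by rw [key w hw]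
  rw [h5]
  exact (hk p).1 hp1 l

/-- ZNW -/
theorem vert_reg {n r : ℕ} (a : Fin r → (Fin n →₀ ℕ)) (ha : Function.Injective a)
    (R : Finset (Fin n → ℕ)) (hR : RaySet a R) (s0 : ℂ) (hs0 : s0 ≠ -1) (k0 : Fin n)
    (p : Fin r) (h1 : a p k0 = 1) (hF : H22.IsFace a {p}) (hex : ∃ i, a i k0 = 0)
    (hcrit : ∀ w ∈ R, CritW a s0 w → H22.toReal w ∈ H22.minCone a {p} → B1 a w k0)
    (𝒟 : ∀ τ, H22.FaceCones a τ) :
    H37.SM.Reg s0 (H22.JfunG a {p} (𝒟 {p}) + (RatFunc.X + 1)⁻¹ *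
      ∑ τ ∈ (PP a R s0 k0).filter (fun τ => p ∈ τ ∧ H22.faceRank a τ = 2),
        H22.JfunG a τ (𝒟 τ)) := by
  classical
  obtain ⟨hp, hm, ht⟩ := exists_topBot (rv R) (⟨eN k0, hR.unit k0⟩ : R)
  have heG : (⟨eN k0, hR.unit k0⟩ : R) ∉ raysIn a R {p} :=
    znw_notMem a R k0 (hR.unit k0) p h1 hex
  have hce : ¬ CritW a s0 (eN k0) := by
    rintro ⟨-, h, -⟩
    obtain ⟨i, hi⟩ := hex
    have h2 : H22.wmin a (eN k0) ≤ ∑ j, a i j * (eN k0) j := by
      unfold H22.wmin
      exact ciInf_le (OrderBot.bddBelow _) i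
    rw [znw_sum_unit, hi] at h2
    omega
  have hJp : H22.JfunG a {p} (𝒟 {p}) = ∑ σ ∈ upT R hp (raysIn a R {p}) n, tm a σ := by
    rw [jf_tri a R hR hp ht.genp {p} (singleton_nonempty p) hF (𝒟 {p}), faceRank_single,
      Nat.add_sub_cancel]
  set T := (PP a R s0 k0).filter (fun τ => p ∈ τ ∧ H22.faceRank a τ = 2) with hT
  set U : Finset (Fin r) → Finset (Finset R) :=
    fun τ => upT R hp (raysIn a R τ) (n + 1 - H22.faceRank a τ) with hU
  have hJτ : ∀ τ ∈ T, H22.JfunG a τ (𝒟 τ) = ∑ B ∈ (U τ).filter (fun B => ∃ w ∈ B, CritW a s0 w.1),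
      tm a B + ∑ B ∈ (U τ).filter (fun B => ¬ ∃ w ∈ B, CritW a s0 w.1), tm a B := by
    intro τ hτ
    rw [hT, mem_filter, mem_PP] at hτ
    rw [Finset.sum_filter_add_sum_filter_not]
    exact jf_tri a R hR hp ht.genp τ ⟨p, hτ.2.1⟩ hτ.1.1 (𝒟 τ)
  have hlin := vert_lin a R hR hm hp ht.genm ht.genp
    (insert ⟨eN k0, hR.unit k0⟩ (raysIn a R {p})) (fun y => by
      have h := span_vertex a R hR p hF y
      refine Submodule.span_mono (Set.image_mono ?_) h
      rw [coe_insert]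
      exact Set.subset_insert _ _) (a p)
  have hreg1 : H37.SM.Reg s0 (∑ σ ∈ upT R hp (insert ⟨eN k0, hR.unit k0⟩ (raysIn a R {p})) n,
      tmV (a p) σ) := by
    refine H37.SM.Reg.sum _ _ fun σ hσ => ?_
    refine znw_tmV_reg a R hR s0 hs0 k0 p h1 σ (mem_upT.1 hσ).1.1 ?_
    exact (vlow a R hR s0 k0 hp hm ht p h1 hex hcrit σ hσ).2
  -- splitting
  have hsplit1 := Finset.sum_filter_add_sum_filter_not
    (upT R hm (insert ⟨eN k0, hR.unit k0⟩ (raysIn a R {p})) n)
    (fun σ => (⟨eN k0, hR.unit k0⟩ : R) ∉ σ) (tmV (a p))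
  have hsplit2 := Finset.sum_filter_add_sum_filter_not
    ((upT R hm (insert ⟨eN k0, hR.unit k0⟩ (raysIn a R {p})) n).filter
      (fun σ => ¬ (⟨eN k0, hR.unit k0⟩ : R) ∉ σ))
    (fun σ => ∃ w ∈ σ, CritW a s0 w.1) (tmV (a p))
  have hA : ∑ σ ∈ (upT R hm (insert ⟨eN k0, hR.unit k0⟩ (raysIn a R {p})) n).filter
      (fun σ => (⟨eN k0, hR.unit k0⟩ : R) ∉ σ), tmV (a p) σ = H22.JfunG a {p} (𝒟 {p}) := by
    rw [hJp]
    have h2 : (upT R hm (insert ⟨eN k0, hR.unit k0⟩ (raysIn a R {p})) n).filter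
        (fun σ => (⟨eN k0, hR.unit k0⟩ : R) ∉ σ) = upT R hp (raysIn a R {p}) n := by
      ext σ
      rw [mem_filter]
      exact znw_away R _ hp hm ht _ heG n σ
    rw [h2]
    refine Finset.sum_congr rfl fun σ hσ => ?_
    unfold tmV tm
    congr 1
    refine Finset.prod_congr rfl fun w hw => ?_
    rw [znw_VV a {p} p (mem_singleton_self p) w.1
      (mem_raysIn.1 ((mem_upT.1 hσ).1.1 hw))]
  have hC : H37.SM.Reg s0 (∑ σ ∈ ((upT R hm (insert ⟨eN k0, hR.unit k0⟩
      (raysIn a R {p})) n).filter (fun σ => ¬ (⟨eN k0, hR.unit k0⟩ : R) ∉ σ)).filter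
      (fun σ => ¬ ∃ w ∈ σ, CritW a s0 w.1), tmV (a p) σ) := by
    refine H37.SM.Reg.sum _ _ fun σ hσ => ?_
    rw [mem_filter, mem_filter] at hσ
    refine znw_tmV_reg a R hR s0 hs0 k0 p h1 σ (mem_upT.1 hσ.1.1).1.1 ?_
    intro w hw hcw
    exact hσ.2 ⟨w, hw, hcw⟩
  have hB : ∑ σ ∈ ((upT R hm (insert ⟨eN k0, hR.unit k0⟩
      (raysIn a R {p})) n).filter (fun σ => ¬ (⟨eN k0, hR.unit k0⟩ : R) ∉ σ)).filter
      (fun σ => ∃ w ∈ σ, CritW a s0 w.1), tmV (a p) σ =
      (RatFunc.X + 1)⁻¹ * ∑ τ ∈ T, ∑ B ∈ (U τ).filter (fun B => ∃ w ∈ B, CritW a s0 w.1),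
        tm a B := by
    rw [Finset.sum_sigma', Finset.mul_sum]
    symm
    have hup : ∀ x ∈ T.sigma fun τ => (U τ).filter (fun B => ∃ w ∈ B, CritW a s0 w.1),
        (⟨eN k0, hR.unit k0⟩ : R) ∉ x.2 ∧ insert ⟨eN k0, hR.unit k0⟩ x.2 ∈
          upT R hm (insert ⟨eN k0, hR.unit k0⟩ (raysIn a R {p})) n ∧
          mulS (insert ⟨eN k0, hR.unit k0⟩ x.2) = mulS x.2 := by
      intro x hx
      rw [mem_sigma, mem_filter, mem_filter] at hx
      exact vpair_up a ha R hR s0 k0 hp hm ht p h1 hcrit x.1 hx.1.1 hx.1.2.1 hx.1.2.2 x.2 hx.2.1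
    refine Finset.sum_bij (fun x _ => insert (⟨eN k0, hR.unit k0⟩ : R) x.2) ?_ ?_ ?_ ?_
    · intro x hx
      have h2 := hup x hx
      rw [mem_sigma, mem_filter] at hx
      obtain ⟨w, hw, hcw⟩ := (mem_filter.1 hx.2).2
      rw [mem_filter, mem_filter]
      exact ⟨⟨h2.2.1, fun h => h (mem_insert_self _ _)⟩, w, mem_insert_of_mem hw, hcw⟩
    · intro x hx y hy hxy
      have h2 := hup x hx
      have h3 := hup y hy
      have h4 : x.2 = y.2 := by
        rw [← erase_insert h2.1, ← erase_insert h3.1, hxy]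
      rw [mem_sigma, mem_filter, mem_PP, mem_filter] at hx hy
      have h5 : x.1 = y.1 := by
        apply subset_antisymm
        · refine znw_sub a R hp y.1 x.1 p hy.1.2.1 hx.1.2.1 hy.1.1.1 y.2 hy.2.1 ?_
          rw [← h4]
          exact (mem_upT.1 hx.2.1).1.1
        · refine znw_sub a R hp x.1 y.1 p hx.1.2.1 hy.1.2.1 hx.1.1.1 x.2 hx.2.1 ?_
          rw [h4]
          exact (mem_upT.1 hy.2.1).1.1
      exact Sigma.ext h5 (heq_of_eq h4)
    · intro σ hσ
      rw [mem_filter, mem_filter] at hσ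
      have he : (⟨eN k0, hR.unit k0⟩ : R) ∈ σ := not_not.1 hσ.1.2
      obtain ⟨τ, hτ, hpτ, h2, h3⟩ := vpair_down a ha R hR s0 k0 hp hm ht p h1 hF hex hcrit σ
        hσ.1.1 he hσ.2
      refine ⟨⟨τ, σ.erase ⟨eN k0, hR.unit k0⟩⟩, ?_, insert_erase he⟩
      rw [mem_sigma, mem_filter, mem_filter]
      refine ⟨⟨hτ, hpτ, h2⟩, h3, ?_⟩
      obtain ⟨w, hw, hcw⟩ := hσ.2
      refine ⟨w, mem_erase.2 ⟨?_, hw⟩, hcw⟩
      rintro rfl
      exact hce hcw
    · intro x hx
      have h2 := hup x hx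
      rw [mem_sigma, mem_filter, mem_filter] at hx
      unfold tmV tm
      rw [Finset.prod_insert h2.1, h2.2.2]
      have h3 : ∏ w ∈ x.2, (VV (a p) w.1)⁻¹ = ∏ w ∈ x.2, (WW a w.1)⁻¹ := by
        refine Finset.prod_congr rfl fun w hw => ?_
        rw [znw_VV a x.1 p hx.1.2.1 w.1 (mem_raysIn.1 ((mem_upT.1 hx.2.1).1.1 hw))]
      rw [h3, znw_VV_unit k0 _ h1]
      ring
  have hD : H37.SM.Reg s0 (∑ τ ∈ T, ∑ B ∈ (U τ).filter (fun B => ¬ ∃ w ∈ B, CritW a s0 w.1),
      tm a B) := by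
    refine H37.SM.Reg.sum _ _ fun τ _ => H37.SM.Reg.sum _ _ fun B hB => ?_
    rw [mem_filter] at hB
    exact tm_reg a R hR s0 B fun w hw hcw => hB.2 ⟨w, hw, hcw⟩
  rw [Finset.sum_congr rfl hJτ, Finset.sum_add_distrib, mul_add, ← add_assoc, ← hB, ← hA]
  have hfin : ∀ x y z t u : RatFunc ℂ, x + (y + z) = t → x + y + u = t - z + u := by
    intro x y z t u h
    rw [← h]
    ring
  rw [hfin _ _ _ _ _ (by rw [hsplit2, hsplit1, hlin])]
  exact (hreg1.sub hC).add ((znw_reg_unit s0 hs0).mul hD)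

end Pool.Agent.H56.SMC

end S_ZNW
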