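import Mathlib
import Pool.Agent.H56.SL.Z2
import Pool.Agent.H56.SL.Z3
import Pool.Agent.H56.SL.Z4
import Pool.Agent.H56.SL.Z5

/-! Strong monodromy for nondegenerate polynomials, part Z6: this file joins the modules ZNA, ZONE. -/

set_option autoImplicit false

section S_ZNA

/-!
# ZNA: no pole if the critical facets are pyramids of height one in compatible directions
-/

set_option autoImplicit false

namespace Pool.Agent.H56.SMC

open Finset H60.RegTri

section
variable {s0 : ℂ}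

/-- equality up to a function without pole at `s0` -/
private def Eqv (s0 : ℂ) (A B : RatFunc ℂ) : Prop := H37.SM.Reg s0 (A - B)

private theorem Eqv.trans {A B C : RatFunc ℂ} (h : Eqv s0 A B) (h' : Eqv s0 B C) : Eqv s0 A C := by
  have := h.add h'
  rwa [sub_add_sub_cancel] at this

private theorem Eqv.refl (A : RatFunc ℂ) : Eqv s0 A A := by
  unfold Eqv
  rw [sub_self]
  exact H37.SM.reg_zero

private theorem Eqv.add {A B C D : RatFunc ℂ} (h : Eqv s0 A B) (h' : Eqv s0 C D) :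
    Eqv s0 (A + C) (B + D) := by
  have := H37.SM.Reg.add h h'
  unfold Eqv
  rwa [show A - B + (C - D) = A + C - (B + D) by ring] at this

private theorem Eqv.mul {A B C : RatFunc ℂ} (hC : H37.SM.Reg s0 C) (h : Eqv s0 A B) :
    Eqv s0 (C * A) (C * B) := by
  have := H37.SM.Reg.mul hC h
  unfold Eqv
  rwa [mul_sub] at this

private theorem Eqv.sum {ι : Type*} (T : Finset ι) (f g : ι → RatFunc ℂ)
    (h : ∀ i ∈ T, Eqv s0 (f i) (g i)) : Eqv s0 (∑ i ∈ T, f i) (∑ i ∈ T, g i) := by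
  unfold Eqv
  rw [← Finset.sum_sub_distrib]
  exact H37.SM.Reg.sum _ _ h

private theorem eqv_zero {A : RatFunc ℂ} (h : H37.SM.Reg s0 A) : Eqv s0 A 0 := by
  unfold Eqv
  rwa [sub_zero]

end

section main

variable {n r : ℕ} (a : Fin r → (Fin n →₀ ℕ)) (R : Finset (Fin n → ℕ)) (s0 : ℂ)
  (κd : (Fin n → ℕ) → Fin n)

/-- the cone of `τ` contains a critical ray -/
private def HasC (τ : Finset (Fin r)) : Prop :=
  ∃ w ∈ R, CritW a s0 w ∧ H22.toReal w ∈ H22.minCone a τ

open Classical in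
/-- the direction of `τ` -/
private noncomputable def kk (τ : Finset (Fin r)) : Fin n :=
  if h : HasC a R s0 τ then κd (Classical.choose h) else κd 0

/-- the compatibility of the directions -/
private def Hloc : Prop := ∀ w w', CritW a s0 w → CritW a s0 w' → ∀ i,
  ∑ j, a i j * w j = H22.wmin a w → ∑ j, a i j * w' j = H22.wmin a w' → κd w = κd w'

private def Hcrit : Prop := ∀ w, CritW a s0 w → (∃ i, a i (κd w) = 0) ∧ B1 a w (κd w)

private theorem kk_eq (hloc : Hloc a s0 κd) (τ : Finset (Fin r)) (hτ : τ.Nonempty)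
    (w : Fin n → ℕ) (hwR : w ∈ R) (hw : CritW a s0 w) (hwm : H22.toReal w ∈ H22.minCone a τ) :
    kk a R s0 κd τ = κd w := by
  have h : HasC a R s0 τ := ⟨w, hwR, hw, hwm⟩
  unfold kk
  rw [dif_pos h]
  obtain ⟨i, hi⟩ := hτ
  obtain ⟨h1, h2, h3⟩ := Classical.choose_spec h
  exact hloc _ _ h2 hw i (H22.wmin_eq h3 hi).symm (H22.wmin_eq hwm hi).symm

private theorem HasC.mono {τ τ' : Finset (Fin r)} (h : HasC a R s0 τ) (hs : τ' ⊆ τ) :
    HasC a R s0 τ' := by
  obtain ⟨w, h1, h2, h3⟩ := h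
  exact ⟨w, h1, h2, h3.1, fun i hi => h3.2 i (hs hi)⟩

private theorem kk_mono (hloc : Hloc a s0 κd) {τ τ' : Finset (Fin r)} (h : HasC a R s0 τ)
    (hs : τ' ⊆ τ) (hne : τ'.Nonempty) : kk a R s0 κd τ' = kk a R s0 κd τ := by
  obtain ⟨w, h1, h2, h3⟩ := h
  rw [kk_eq a R s0 κd hloc τ (hne.mono hs) w h1 h2 h3,
    kk_eq a R s0 κd hloc τ' hne w h1 h2 ⟨h3.1, fun i hi => h3.2 i (hs hi)⟩]

/-- the part in the hyperplane -/
private noncomputable def bs (τ : Finset (Fin r)) : Finset (Fin r) :=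
  τ.filter (fun i => a i (kk a R s0 κd τ) = 0)

/-- the part outside the hyperplane -/
private noncomputable def tp (τ : Finset (Fin r)) : Finset (Fin r) :=
  τ.filter (fun i => a i (kk a R s0 κd τ) ≠ 0)

private def IsH (τ : Finset (Fin r)) : Prop :=
  H22.IsFace a τ ∧ HasC a R s0 τ ∧ ∀ i ∈ τ, a i (kk a R s0 κd τ) = 0

private def IsP (τ : Finset (Fin r)) : Prop :=
  H22.IsFace a τ ∧ HasC a R s0 τ ∧ ∃ i ∈ τ, a i (kk a R s0 κd τ) ≠ 0

private theorem hcr (hloc : Hloc a s0 κd) (hcrit : Hcrit a s0 κd) (τ : Finset (Fin r))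
    (hτ : τ.Nonempty) : ∀ w ∈ R, CritW a s0 w → H22.toReal w ∈ H22.minCone a τ →
      B1 a w (kk a R s0 κd τ) := by
  intro w h1 h2 h3
  rw [kk_eq a R s0 κd hloc τ hτ w h1 h2 h3]
  exact (hcrit w h2).2

private theorem hcex (hloc : Hloc a s0 κd) (hcrit : Hcrit a s0 κd) (τ : Finset (Fin r))
    (hτ : τ.Nonempty) (h : HasC a R s0 τ) : ∃ i, a i (kk a R s0 κd τ) = 0 := by
  obtain ⟨w, h1, h2, h3⟩ := h
  rw [kk_eq a R s0 κd hloc τ hτ w h1 h2 h3]
  exact (hcrit w h2).1

private theorem isP_mem {τ : Finset (Fin r)} (h : IsP a R s0 κd τ) :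
    τ ∈ PP a R s0 (kk a R s0 κd τ) := mem_PP.2 h

private theorem isP_ne {τ : Finset (Fin r)} (h : IsP a R s0 κd τ) : τ.Nonempty := by
  obtain ⟨_, _, i, hi, _⟩ := h
  exact ⟨i, hi⟩

/-- structure of the transversal faces -/
private theorem isP_struct (hloc : Hloc a s0 κd) (hcrit : Hcrit a s0 κd) {τ : Finset (Fin r)}
    (h : IsP a R s0 κd τ) : ∃ p, tp a R s0 κd τ = {p} ∧ a p (kk a R s0 κd τ) = 1 ∧
      p ∉ bs a R s0 κd τ ∧ τ = insert p (bs a R s0 κd τ) := by
  obtain ⟨p, hp, h1, h2⟩ := pp_apex a R s0 _ τ (isP_mem a R s0 κd h)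
    (hcr a R s0 κd hloc hcrit τ (isP_ne a R s0 κd h))
  refine ⟨p, ?_, h1, ?_, ?_⟩
  · ext i
    unfold tp
    rw [Finset.mem_filter, Finset.mem_singleton]
    constructor
    · rintro ⟨hi, hne⟩
      by_contra hip
      exact hne (h2 i hi hip)
    · rintro rfl
      exact ⟨hp, by rw [h1]; exact one_ne_zero⟩
  · unfold bs
    rw [Finset.mem_filter]
    rintro ⟨_, h3⟩
    rw [h1] at h3
    exact one_ne_zero h3
  · ext i
    unfold bs
    rw [Finset.mem_insert, Finset.mem_filter]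
    constructor
    · intro hi
      by_cases hip : i = p
      · exact Or.inl hip
      · exact Or.inr ⟨hi, h2 i hi hip⟩
    · rintro (rfl | ⟨hi, _⟩)
      · exact hp
      · exact hi

private theorem bs_sub (τ : Finset (Fin r)) : bs a R s0 κd τ ⊆ τ := Finset.filter_subset _ _

private theorem bs_zero (τ : Finset (Fin r)) : ∀ i ∈ bs a R s0 κd τ, a i (kk a R s0 κd τ) = 0 :=
  fun _ hi => (Finset.mem_filter.1 hi).2

private theorem bs_isH (hloc : Hloc a s0 κd) {τ : Finset (Fin r)}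
    (h : IsP a R s0 κd τ) (hne : (bs a R s0 κd τ).Nonempty) : IsH a R s0 κd (bs a R s0 κd τ) := by
  refine ⟨pp_base a R s0 _ τ (isP_mem a R s0 κd h) hne, h.2.1.mono a R s0 (bs_sub a R s0 κd τ), ?_⟩
  rw [kk_mono a R s0 κd hloc h.2.1 (bs_sub a R s0 κd τ) hne]
  exact bs_zero a R s0 κd τ

private theorem rank_bs (hloc : Hloc a s0 κd) (hcrit : Hcrit a s0 κd) {τ : Finset (Fin r)}
    (h : IsP a R s0 κd τ) : H22.faceRank a τ = H22.faceRank a (bs a R s0 κd τ) + 1 := by
  obtain ⟨p, _, h1, _, h3⟩ := isP_struct a R s0 κd hloc hcrit h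
  conv_lhs => rw [h3]
  exact faceRank_pyr a _ p _ (bs_zero a R s0 κd τ) (by rw [h1]; exact one_ne_zero)

private theorem nvol_aux (𝒯 : ∀ τ, H22.FaceTriang a τ) (τ τ' : Finset (Fin r))
    (hτ : τ'.Nonempty) (p : Fin r) (k : Fin n) (h0 : ∀ i ∈ τ', a i k = 0) (h1 : a p k = 1)
    (h : τ = insert p τ') : H22.nvol (𝒯 τ) = H22.nvol (𝒯 τ') := by
  subst h
  exact nvol_pyr a τ' hτ p k h0 h1 _ _

private theorem nvol_bs (hloc : Hloc a s0 κd) (hcrit : Hcrit a s0 κd)
    (𝒯 : ∀ τ, H22.FaceTriang a τ) {τ : Finset (Fin r)}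
    (h : IsP a R s0 κd τ) (hne : (bs a R s0 κd τ).Nonempty) :
    H22.nvol (𝒯 τ) = H22.nvol (𝒯 (bs a R s0 κd τ)) := by
  obtain ⟨p, _, h1, _, h3⟩ := isP_struct a R s0 κd hloc hcrit h
  exact nvol_aux a 𝒯 τ _ hne p _ (bs_zero a R s0 κd τ) h1 h3

private theorem nvol_one (ha : Function.Injective a) (𝒯 : ∀ τ, H22.FaceTriang a τ)
    (τ : Finset (Fin r)) (hτ : τ.Nonempty) (h1 : H22.faceRank a τ = 1) :
    H22.nvol (𝒯 τ) = 1 := by
  obtain ⟨p, rfl⟩ := rank_one a ha τ hτ h1
  exact nvol_single a p _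

private theorem rank_pos (τ : Finset (Fin r)) (hτ : τ.Nonempty) : 0 < H22.faceRank a τ :=
  H22.faceRank_pos a hτ

/-- no critical ray: regular -/
private theorem reg_noC (hR : RaySet a R) (𝒟 : ∀ τ, H22.FaceCones a τ) (τ : Finset (Fin r))
    (hτ : τ.Nonempty) (hF : H22.IsFace a τ) (h : ¬ HasC a R s0 τ) :
    H37.SM.Reg s0 (H22.JfunG a τ (𝒟 τ)) := by
  obtain ⟨h', hh'⟩ := exists_generic (rv R)
  rw [jf_tri a R hR h' hh' τ hτ hF (𝒟 τ)]
  refine H37.SM.Reg.sum _ _ fun σ hσ => tm_reg a R hR s0 σ fun w hw hc => h ?_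
  have h1 := (mem_upT.1 hσ).1.1 hw
  exact ⟨w.1, w.2, hc, mem_raysIn.1 h1⟩

open Classical in
/-- The faces of `PP` over `τ'`. -/
private theorem filter_down (hloc : Hloc a s0 κd) (τ' : Finset (Fin r)) (hne : τ'.Nonempty)
    (hH : IsH a R s0 κd τ') :
    (PP a R s0 (kk a R s0 κd τ')).filter
      (fun τ => τ.filter (fun i => a i (kk a R s0 κd τ') = 0) = τ') =
    (univ.filter (fun τ => IsP a R s0 κd τ ∧ (bs a R s0 κd τ).Nonempty)).filter
      (fun τ => bs a R s0 κd τ = τ') := by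
  ext τ
  simp only [Finset.mem_filter, Finset.mem_univ, true_and, mem_PP]
  constructor
  · rintro ⟨⟨h1, h2, h3⟩, h4⟩
    have hs : τ' ⊆ τ := by rw [← h4]; exact Finset.filter_subset _ _
    have hk := kk_mono a R s0 κd hloc h2 hs hne
    have hb : bs a R s0 κd τ = τ' := by
      unfold bs
      rw [← hk]
      exact h4
    rw [hk] at h3
    exact ⟨⟨⟨h1, h2, h3⟩, by rw [hb]; exact hne⟩, hb⟩
  · rintro ⟨⟨⟨h1, h2, h3⟩, h4⟩, h5⟩
    have hs : τ' ⊆ τ := by rw [← h5]; exact bs_sub a R s0 κd τ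
    have hk := kk_mono a R s0 κd hloc h2 hs hne
    rw [hk]
    exact ⟨⟨h1, h2, h3⟩, h5⟩

open Classical in
/-- The edges of `PP` at `p`. -/
private theorem filter_edge (hloc : Hloc a s0 κd) (hcrit : Hcrit a s0 κd) (p : Fin r)
    (hP : IsP a R s0 κd {p}) :
    (PP a R s0 (kk a R s0 κd {p})).filter (fun τ => p ∈ τ ∧ H22.faceRank a τ = 2) =
    (univ.filter (fun τ => (IsP a R s0 κd τ ∧ (bs a R s0 κd τ).Nonempty) ∧
      H22.faceRank a τ = 2)).filter (fun τ => tp a R s0 κd τ = {p}) := by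
  have hp : a p (kk a R s0 κd {p}) ≠ 0 := by
    obtain ⟨_, _, i, hi, h⟩ := hP
    rw [Finset.mem_singleton] at hi
    subst hi
    exact h
  ext τ
  simp only [Finset.mem_filter, Finset.mem_univ, true_and, mem_PP]
  constructor
  · rintro ⟨⟨h1, h2, h3⟩, h4, h5⟩
    have hs : {p} ⊆ τ := Finset.singleton_subset_iff.2 h4
    have hk := kk_mono a R s0 κd hloc h2 hs (Finset.singleton_nonempty p)
    rw [hk] at h3 hp
    have hPτ : IsP a R s0 κd τ := ⟨h1, h2, h3⟩
    obtain ⟨q, hq1, hq2, hq3, hq4⟩ := isP_struct a R s0 κd hloc hcrit hPτ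
    have hpq : p = q := by
      have : p ∈ tp a R s0 κd τ := Finset.mem_filter.2 ⟨h4, hp⟩
      rw [hq1, Finset.mem_singleton] at this
      exact this
    subst hpq
    refine ⟨⟨⟨hPτ, ?_⟩, h5⟩, hq1⟩
    by_contra hne
    rw [Finset.not_nonempty_iff_eq_empty] at hne
    have h6 := rank_bs a R s0 κd hloc hcrit hPτ
    rw [hne, h5] at h6
    have h7 : H22.faceRank a (∅ : Finset (Fin r)) = 0 := by
      unfold H22.faceRank
      rw [Finset.coe_empty, Set.image_empty, Submodule.span_empty, finrank_bot]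
    rw [h7] at h6
    omega
  · rintro ⟨⟨⟨⟨h1, h2, h3⟩, _⟩, h5⟩, h6⟩
    have h4 : p ∈ τ := by
      have : p ∈ tp a R s0 κd τ := by rw [h6]; exact Finset.mem_singleton_self p
      exact (Finset.mem_filter.1 this).1
    have hs : {p} ⊆ τ := Finset.singleton_subset_iff.2 h4
    have hk := kk_mono a R s0 κd hloc h2 hs (Finset.singleton_nonempty p)
    rw [hk]
    exact ⟨⟨h1, h2, h3⟩, h4, h5⟩

/-- the apex of an edge is a face -/
private theorem tp_isP (ha : Function.Injective a) (hloc : Hloc a s0 κd) (hcrit : Hcrit a s0 κd)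
    {τ : Finset (Fin r)} (h : IsP a R s0 κd τ) (hne : (bs a R s0 κd τ).Nonempty)
    (h2 : H22.faceRank a τ = 2) :
    IsP a R s0 κd (tp a R s0 κd τ) ∧ bs a R s0 κd (tp a R s0 κd τ) = ∅ := by
  classical
  obtain ⟨p, h3, h4, h5, h6⟩ := isP_struct a R s0 κd hloc hcrit h
  have hr := rank_bs a R s0 κd hloc hcrit h
  obtain ⟨q, hq⟩ := rank_one a ha _ hne (by omega)
  have hs : ({p} : Finset (Fin r)) ⊆ τ := by
    rw [← h3]; exact Finset.filter_subset _ _
  have hk := kk_mono a R s0 κd hloc h.2.1 hs (Finset.singleton_nonempty p)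
  have hqz : a q (kk a R s0 κd τ) = 0 := bs_zero a R s0 κd τ q (by rw [hq]; simp)
  have hτ : τ = {p, q} := by rw [h6, hq]
  obtain ⟨w, hw1, hw2, hw3⟩ := h.2.1
  have hF : H22.IsFace a {p} := by
    refine pp_vertex a s0 (kk a R s0 κd τ) p q (hτ ▸ h.1) w (hτ ▸ hw3) ?_ h4 hqz
    exact (hcr a R s0 κd hloc hcrit τ (isP_ne a R s0 κd h) w hw1 hw2 hw3).1
  rw [h3]
  refine ⟨⟨hF, h.2.1.mono a R s0 hs, p, Finset.mem_singleton_self p, ?_⟩, ?_⟩
  · rw [hk, h4]; exact one_ne_zero
  · unfold bs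
    rw [hk, Finset.filter_singleton, h4]
    simp

private theorem sign_succ (k : ℕ) (hk : 1 ≤ k) :
    ((-1 : RatFunc ℂ)) ^ (k + 1 - 1) = -(-1) ^ (k - 1) := by
  obtain ⟨m, rfl⟩ : ∃ m, k = m + 1 := ⟨k - 1, by omega⟩
  simp only [Nat.add_sub_cancel]
  rw [pow_succ]
  ring

end main

private theorem reg_sign {s0 : ℂ} (k : ℕ) : H37.SM.Reg s0 ((-1 : RatFunc ℂ) ^ k) := by
  have h := H37.SM.reg_intCast (s0 := s0) ((-1) ^ k)
  push_cast at h
  exact h

private theorem reg_inv {s0 : ℂ} (hs0 : s0 ≠ -1) : H37.SM.Reg s0 ((RatFunc.X + 1 : RatFunc ℂ)⁻¹) := by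
  have h := H37.SM.reg_inv_linear (s0 := s0) 1 1 (by
    intro h
    apply hs0
    push_cast at h
    linear_combination h)
  have e : ((1 : ℕ) : RatFunc ℂ) + ((1 : ℕ) : RatFunc ℂ) * RatFunc.X = RatFunc.X + 1 := by
    push_cast; ring
  rwa [e] at h

/-- ZNA -/
theorem zone_local {n r : ℕ} (a : Fin r → (Fin n →₀ ℕ)) (ha : Function.Injective a)
    (s0 : ℂ) (hs0 : s0 ≠ -1) (κd : (Fin n → ℕ) → Fin n)
    (hcrit : ∀ w, CritW a s0 w → (∃ i, a i (κd w) = 0) ∧ B1 a w (κd w))
    (hloc : ∀ w w', CritW a s0 w → CritW a s0 w' → ∀ i,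
      ∑ j, a i j * w j = H22.wmin a w → ∑ j, a i j * w' j = H22.wmin a w' → κd w = κd w')
    (𝒟 : ∀ τ, H22.FaceCones a τ) (𝒯 : ∀ τ, H22.FaceTriang a τ) :
    ¬ (H22.topZetaG a 𝒟 𝒯).denom.IsRoot s0 := by
  classical
  suffices hreg : H37.SM.Reg s0 (H22.topZetaG a 𝒟 𝒯) from hreg
  rcases Nat.eq_zero_or_pos r with rfl | hr
  · have h0 : ∀ τ : Finset (Fin 0), H22.faceRank a τ = 0 := by
      intro τ
      have : τ = ∅ := Finset.eq_empty_of_isEmpty τ
      rw [this]
      unfold H22.faceRank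
      rw [Finset.coe_empty, Set.image_empty, Submodule.span_empty, finrank_bot]
    unfold H22.topZetaG
    rw [Finset.filter_false_of_mem (by intro τ _; rw [h0]; simp),
      Finset.filter_false_of_mem (by intro τ _; rw [h0]; simp)]
    simp only [Finset.sum_empty, mul_zero, add_zero]
    exact H37.SM.reg_zero
  obtain ⟨R, hR⟩ := exists_raySet a hr
  have hne : ∀ τ : Finset (Fin r), H22.IsFace a τ → τ.Nonempty := fun τ h =>
    H22.isFace_nonempty hr h
  have hcrit' : Hcrit a s0 κd := hcrit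
  have hloc' : Hloc a s0 κd := hloc
  set J : Finset (Fin r) → RatFunc ℂ := fun τ => H22.JfunG a τ (𝒟 τ) with hJ
  set c : Finset (Fin r) → RatFunc ℂ := fun τ =>
    (-1) ^ (H22.faceRank a τ - 1) * (H22.nvol (𝒯 τ) : RatFunc ℂ) with hc
  have hcreg : ∀ τ, H37.SM.Reg s0 (c τ) := fun τ => (reg_sign _).mul (H37.SM.reg_natCast _)
  let H : Finset (Fin r) → Prop := IsH a R s0 κd
  let P2 : Finset (Fin r) → Prop := fun τ => IsP a R s0 κd τ ∧ (bs a R s0 κd τ).Nonempty
  let P1 : Finset (Fin r) → Prop := fun τ => IsP a R s0 κd τ ∧ bs a R s0 κd τ = ∅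
  set S2 : RatFunc ℂ := ∑ τ ∈ univ.filter (fun τ => P2 τ ∧ H22.faceRank a τ = 2), J τ with hS2
  set S3 : RatFunc ℂ := ∑ τ ∈ univ.filter (fun τ => P2 τ ∧ 3 ≤ H22.faceRank a τ), c τ * J τ
    with hS3
  -- ranks
  have hrk2 : ∀ τ, P2 τ → 2 ≤ H22.faceRank a τ := by
    intro τ h
    have h1 := rank_bs a R s0 κd hloc' hcrit' h.1
    have h2 := rank_pos a _ h.2
    omega
  have hrk1 : ∀ τ, P1 τ → H22.faceRank a τ = 1 := by
    intro τ h
    have h1 := rank_bs a R s0 κd hloc' hcrit' h.1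
    rw [h.2] at h1
    have h7 : H22.faceRank a (∅ : Finset (Fin r)) = 0 := by
      unfold H22.faceRank
      rw [Finset.coe_empty, Set.image_empty, Submodule.span_empty, finrank_bot]
    omega
  -- the horizontal faces
  have hHorE : ∀ τ', H τ' → Eqv s0 (J τ')
      (∑ τ ∈ (univ.filter P2).filter (fun τ => bs a R s0 κd τ = τ'), J τ) := by
    intro τ' h
    have h1 := face_reg a R hR s0 (kk a R s0 κd τ') τ' h.1 (hne τ' h.1) h.2.2
      (hcr a R s0 κd hloc' hcrit' τ' (hne τ' h.1)) 𝒟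
    rw [filter_down a R s0 κd hloc' τ' (hne τ' h.1) h] at h1
    exact h1
  -- the vertices
  have hVert : ∀ τ, P1 τ → Eqv s0 (J τ) (-(RatFunc.X + 1)⁻¹ *
      ∑ τ' ∈ (univ.filter (fun τ => P2 τ ∧ H22.faceRank a τ = 2)).filter
        (fun τ' => tp a R s0 κd τ' = τ), J τ') := by
    intro τ h
    obtain ⟨p, h3, h4, h5, h6⟩ := isP_struct a R s0 κd hloc' hcrit' h.1
    have hτ : τ = {p} := by rw [h6, h.2]; rfl
    subst hτ
    have h1 := vert_reg a ha R hR s0 hs0 (kk a R s0 κd {p}) p h4 h.1.1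
      (hcex a R s0 κd hloc' hcrit' _ (Finset.singleton_nonempty p) h.1.2.1)
      (hcr a R s0 κd hloc' hcrit' _ (Finset.singleton_nonempty p)) 𝒟
    rw [filter_edge a R s0 κd hloc' hcrit' p h.1] at h1
    unfold Eqv
    rw [neg_mul, sub_neg_eq_add]
    exact h1
  -- first sum
  have hA : Eqv s0 (∑ τ ∈ univ.filter (fun τ : Finset (Fin r) => H22.IsFace a τ ∧
      H22.faceRank a τ = 1), J τ) (S2 + -(RatFunc.X + 1)⁻¹ * S2) := by
    rw [← Finset.sum_filter_add_sum_filter_not _ (fun τ => HasC a R s0 τ)]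
    have hz : Eqv s0 (∑ τ ∈ (univ.filter (fun τ : Finset (Fin r) => H22.IsFace a τ ∧
        H22.faceRank a τ = 1)).filter (fun τ => ¬ HasC a R s0 τ), J τ) 0 := by
      refine eqv_zero (H37.SM.Reg.sum _ _ fun τ hτ => ?_)
      simp only [Finset.mem_filter, Finset.mem_univ, true_and] at hτ
      exact reg_noC a R s0 hR 𝒟 τ (hne τ hτ.1.1) hτ.1.1 hτ.2
    rw [show S2 + -(RatFunc.X + 1)⁻¹ * S2 = (S2 + -(RatFunc.X + 1)⁻¹ * S2) + 0 by ring]
    refine Eqv.add ?_ hz
    rw [← Finset.sum_filter_add_sum_filter_not _ (fun τ => H τ)]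
    refine Eqv.add ?_ ?_
    · refine (Eqv.sum _ _ _ fun τ hτ => hHorE τ (Finset.mem_filter.1 hτ).2).trans ?_
      rw [hS2, show univ.filter (fun τ => P2 τ ∧ H22.faceRank a τ = 2) =
        (univ.filter P2).filter (fun τ => H22.faceRank a τ = 2) by
          rw [Finset.filter_filter]]
      rw [← Finset.sum_fiberwise_of_maps_to (s := (univ.filter P2).filter
        (fun τ => H22.faceRank a τ = 2)) (t := ((univ.filter (fun τ : Finset (Fin r) =>
          H22.IsFace a τ ∧ H22.faceRank a τ = 1)).filter (fun τ => HasC a R s0 τ)).filter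
            (fun τ => H τ)) (g := fun τ => bs a R s0 κd τ)]
      · have e : ∀ τ' ∈ ((univ.filter (fun τ : Finset (Fin r) =>
            H22.IsFace a τ ∧ H22.faceRank a τ = 1)).filter (fun τ => HasC a R s0 τ)).filter
            (fun τ => H τ), ∑ τ ∈ (univ.filter P2).filter (fun τ => bs a R s0 κd τ = τ'), J τ =
            ∑ τ ∈ ((univ.filter P2).filter (fun τ => H22.faceRank a τ = 2)).filter
              (fun τ => bs a R s0 κd τ = τ'), J τ := by
          intro τ' hτ'
          refine Finset.sum_congr ?_ fun _ _ => rfl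
          ext τ
          simp only [Finset.mem_filter, Finset.mem_univ, true_and] at hτ' ⊢
          constructor
          · rintro ⟨h1, h2⟩
            have h3 := rank_bs a R s0 κd hloc' hcrit' h1.1
            rw [h2, hτ'.1.1.2] at h3
            exact ⟨⟨h1, h3⟩, h2⟩
          · rintro ⟨⟨h1, _⟩, h2⟩
            exact ⟨h1, h2⟩
        rw [Finset.sum_congr rfl e]
        exact Eqv.refl _
      · intro τ hτ
        simp only [Finset.mem_filter, Finset.mem_univ, true_and] at hτ ⊢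
        have h3 := rank_bs a R s0 κd hloc' hcrit' hτ.1.1
        have h4 := bs_isH a R s0 κd hloc' hτ.1.1 hτ.1.2
        exact ⟨⟨⟨h4.1, by omega⟩, h4.2.1⟩, h4⟩
    · have e0 : ((univ.filter (fun τ : Finset (Fin r) =>
          H22.IsFace a τ ∧ H22.faceRank a τ = 1)).filter (fun τ => HasC a R s0 τ)).filter
            (fun τ => ¬ H τ) = univ.filter P1 := by
        ext τ
        simp only [Finset.mem_filter, Finset.mem_univ, true_and]
        constructor
        · rintro ⟨⟨⟨h1, h2⟩, h3⟩, h4⟩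
          have hP : IsP a R s0 κd τ := by
            refine ⟨h1, h3, ?_⟩
            by_contra hno
            push Not at hno
            exact h4 ⟨h1, h3, hno⟩
          refine ⟨hP, ?_⟩
          by_contra hb
          have h5 := hrk2 τ ⟨hP, Finset.nonempty_iff_ne_empty.2 hb⟩
          omega
        · intro h
          refine ⟨⟨⟨h.1.1, hrk1 τ h⟩, h.1.2.1⟩, fun hH => ?_⟩
          obtain ⟨i, hi, hi'⟩ := h.1.2.2
          exact hi' (hH.2.2 i hi)
      rw [e0]
      refine (Eqv.sum _ _ _ fun τ hτ => hVert τ (Finset.mem_filter.1 hτ).2).trans ?_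
      rw [← Finset.mul_sum, Finset.sum_fiberwise_of_maps_to]
      · exact Eqv.refl _
      · intro τ hτ
        simp only [Finset.mem_filter, Finset.mem_univ, true_and] at hτ ⊢
        exact tp_isP a R s0 κd ha hloc' hcrit' hτ.1.1 hτ.1.2 hτ.2
  -- second sum
  have hB : Eqv s0 (∑ τ ∈ univ.filter (fun τ : Finset (Fin r) => H22.IsFace a τ ∧
      2 ≤ H22.faceRank a τ), c τ * J τ) (-S2) := by
    rw [← Finset.sum_filter_add_sum_filter_not _ (fun τ => HasC a R s0 τ)]
    have hz : Eqv s0 (∑ τ ∈ (univ.filter (fun τ : Finset (Fin r) => H22.IsFace a τ ∧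
        2 ≤ H22.faceRank a τ)).filter (fun τ => ¬ HasC a R s0 τ), c τ * J τ) 0 := by
      refine eqv_zero (H37.SM.Reg.sum _ _ fun τ hτ => (hcreg τ).mul ?_)
      simp only [Finset.mem_filter, Finset.mem_univ, true_and] at hτ
      exact reg_noC a R s0 hR 𝒟 τ (hne τ hτ.1.1) hτ.1.1 hτ.2
    rw [show -S2 = (-S3 + (S3 + -S2)) + 0 by ring]
    refine Eqv.add ?_ hz
    rw [← Finset.sum_filter_add_sum_filter_not _ (fun τ => H τ)]
    refine Eqv.add ?_ ?_
    · refine (Eqv.sum _ _ _ fun τ hτ =>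
        Eqv.mul (hcreg τ) (hHorE τ (Finset.mem_filter.1 hτ).2)).trans ?_
      have e1 : -S3 = ∑ τ ∈ (univ.filter P2).filter (fun τ => 3 ≤ H22.faceRank a τ),
          c (bs a R s0 κd τ) * J τ := by
        rw [hS3, ← Finset.sum_neg_distrib, ← Finset.filter_filter]
        refine Finset.sum_congr rfl fun τ hτ => ?_
        simp only [Finset.mem_filter, Finset.mem_univ, true_and] at hτ
        have h1 := rank_bs a R s0 κd hloc' hcrit' hτ.1.1
        have h2 := nvol_bs a R s0 κd hloc' hcrit' 𝒯 hτ.1.1 hτ.1.2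
        have h3 := rank_pos a _ hτ.1.2
        simp only [hc]
        rw [h1, h2, sign_succ _ h3]
        ring
      rw [e1, ← Finset.sum_fiberwise_of_maps_to (s := (univ.filter P2).filter
        (fun τ => 3 ≤ H22.faceRank a τ)) (t := ((univ.filter (fun τ : Finset (Fin r) =>
          H22.IsFace a τ ∧ 2 ≤ H22.faceRank a τ)).filter (fun τ => HasC a R s0 τ)).filter
            (fun τ => H τ)) (g := fun τ => bs a R s0 κd τ)]
      · have e : ∀ τ' ∈ ((univ.filter (fun τ : Finset (Fin r) =>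
            H22.IsFace a τ ∧ 2 ≤ H22.faceRank a τ)).filter (fun τ => HasC a R s0 τ)).filter
            (fun τ => H τ), c τ' * ∑ τ ∈ (univ.filter P2).filter
              (fun τ => bs a R s0 κd τ = τ'), J τ =
            ∑ τ ∈ ((univ.filter P2).filter (fun τ => 3 ≤ H22.faceRank a τ)).filter
              (fun τ => bs a R s0 κd τ = τ'), c (bs a R s0 κd τ) * J τ := by
          intro τ' hτ'
          rw [Finset.mul_sum]
          simp only [Finset.mem_filter, Finset.mem_univ, true_and] at hτ'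
          refine Finset.sum_congr ?_ fun τ hτ => ?_
          · ext τ
            simp only [Finset.mem_filter, Finset.mem_univ, true_and]
            constructor
            · rintro ⟨h1, h2⟩
              have h3 := rank_bs a R s0 κd hloc' hcrit' h1.1
              rw [h2] at h3
              have h4 := hτ'.1.1.2
              exact ⟨⟨h1, by omega⟩, h2⟩
            · rintro ⟨⟨h1, _⟩, h2⟩
              exact ⟨h1, h2⟩
          · rw [(Finset.mem_filter.1 hτ).2]
        rw [Finset.sum_congr rfl e]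
        exact Eqv.refl _
      · intro τ hτ
        simp only [Finset.mem_filter, Finset.mem_univ, true_and] at hτ ⊢
        have h3 := rank_bs a R s0 κd hloc' hcrit' hτ.1.1
        have h4 := bs_isH a R s0 κd hloc' hτ.1.1 hτ.1.2
        exact ⟨⟨⟨h4.1, by omega⟩, h4.2.1⟩, h4⟩
    · have e0 : ((univ.filter (fun τ : Finset (Fin r) =>
          H22.IsFace a τ ∧ 2 ≤ H22.faceRank a τ)).filter (fun τ => HasC a R s0 τ)).filter
            (fun τ => ¬ H τ) = univ.filter P2 := by
        ext τ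
        simp only [Finset.mem_filter, Finset.mem_univ, true_and]
        constructor
        · rintro ⟨⟨⟨h1, h2⟩, h3⟩, h4⟩
          have hP : IsP a R s0 κd τ := by
            refine ⟨h1, h3, ?_⟩
            by_contra hno
            push Not at hno
            exact h4 ⟨h1, h3, hno⟩
          refine ⟨hP, ?_⟩
          by_contra hb
          rw [Finset.not_nonempty_iff_eq_empty] at hb
          have h5 := hrk1 τ ⟨hP, hb⟩
          omega
        · intro h
          refine ⟨⟨⟨h.1.1, hrk2 τ h⟩, h.1.2.1⟩, fun hH => ?_⟩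
          obtain ⟨i, hi, hi'⟩ := h.1.2.2
          exact hi' (hH.2.2 i hi)
      rw [e0, ← Finset.sum_filter_add_sum_filter_not _ (fun τ => 3 ≤ H22.faceRank a τ)]
      have e3 : ∑ τ ∈ (univ.filter P2).filter (fun τ => 3 ≤ H22.faceRank a τ), c τ * J τ =
          S3 := by
        rw [hS3, Finset.filter_filter]
      have e4 : ∑ τ ∈ (univ.filter P2).filter (fun τ => ¬ 3 ≤ H22.faceRank a τ), c τ * J τ =
          -S2 := by
        rw [hS2, ← Finset.sum_neg_distrib]
        refine Finset.sum_congr ?_ fun τ hτ => ?_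
        · ext τ
          simp only [Finset.mem_filter, Finset.mem_univ, true_and]
          constructor
          · rintro ⟨h1, h2⟩
            have := hrk2 τ h1
            exact ⟨h1, by omega⟩
          · rintro ⟨h1, h2⟩
            exact ⟨h1, by omega⟩
        · simp only [Finset.mem_filter, Finset.mem_univ, true_and] at hτ
          have h1 := rank_bs a R s0 κd hloc' hcrit' hτ.1.1
          have h2 := nvol_bs a R s0 κd hloc' hcrit' 𝒯 hτ.1.1 hτ.1.2
          rw [nvol_one a ha 𝒯 _ hτ.1.2 (by omega)] at h2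
          simp only [hc]
          rw [hτ.2, h2]
          push_cast
          ring
      rw [e3, e4]
      exact Eqv.refl _
  have hX := H37.SM.reg_X_div hs0
  have hZ : Eqv s0 (H22.topZetaG a 𝒟 𝒯) ((S2 + -(RatFunc.X + 1)⁻¹ * S2) +
      RatFunc.X / (RatFunc.X + 1) * (-S2)) := by
    unfold H22.topZetaG
    refine Eqv.add ?_ (Eqv.mul hX ?_)
    · convert hA
    · convert hB
  have hX1 : (RatFunc.X + 1 : RatFunc ℂ) ≠ 0 := by
    intro h
    have h1 := congrArg RatFunc.denom h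
    have h2 : (RatFunc.X + 1 : RatFunc ℂ) = algebraMap (Polynomial ℂ) (RatFunc ℂ)
        (Polynomial.X + 1) := by
      rw [map_add, RatFunc.algebraMap_X, map_one]
    rw [h2] at h
    have h3 : (Polynomial.X + 1 : Polynomial ℂ) = 0 :=
      RatFunc.algebraMap_injective ℂ (by rw [h, map_zero])
    have h4 := congrArg (Polynomial.eval 0) h3
    simp at h4
  have e5 : (S2 + -(RatFunc.X + 1)⁻¹ * S2) + RatFunc.X / (RatFunc.X + 1) * (-S2) = 0 := by
    field_simp
    ring
  rw [e5] at hZ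
  unfold Eqv at hZ
  rwa [sub_zero] at hZ

end Pool.Agent.H56.SMC

end S_ZNA

section S_ZONE

/-!
# ZONE: no pole if all critical facets are pyramids of height one in one direction
-/

set_option autoImplicit false

namespace Pool.Agent.H56.SMC

open Finset AddMonoidAlgebra

/-- ZONE -/
theorem zone {n r : ℕ} (a : Fin r → (Fin n →₀ ℕ)) (ha : Function.Injective a) (k0 : Fin n)
    (hk0 : ∃ i, a i k0 = 0) (s0 : ℂ) (hs0 : s0 ≠ -1)
    (hcrit : ∀ w, FacetNormal a w → 0 < H22.wmin a w →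
      s0 = -(H22.wsum w : ℂ) / (H22.wmin a w : ℂ) → B1 a w k0)
    (𝒟 : ∀ τ, H22.FaceCones a τ) (𝒯 : ∀ τ, H22.FaceTriang a τ) :
    ¬ (H22.topZetaG a 𝒟 𝒯).denom.IsRoot s0 :=
  zone_local a ha s0 hs0 (fun _ => k0) (fun w hw => ⟨hk0, hcrit w hw.1 hw.2.1 hw.2.2⟩)
    (fun _ _ _ _ _ _ _ => rfl) 𝒟 𝒯

end Pool.Agent.H56.SMC

end S_ZONE
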